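import Mathlib

/-!
Two multivariate polynomials over a field of characteristic zero all of whose partial
Wronskians vanish are proportional.
-/

open MvPolynomial

namespace Pool.Agent.Lib.MP_64d474_lc

variable {F : Type*} [Field F] {κ : Type*}

theorem poly_wronskian [CharZero F] (f g : Polynomial F) (hg : g.eval 0 ≠ 0)
    (h : f * Polynomial.derivative g = g * Polynomial.derivative f) :
    f = Polynomial.C (f.eval 0 / g.eval 0) * g := by
  set l := f.eval 0 / g.eval 0 with hl
  by_contra hne
  set u := f - Polynomial.C l * g with hu
  have hu0 : u ≠ 0 := sub_ne_zero.mpr hne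
  have hev : u.eval 0 = 0 := by
    simp only [hu, Polynomial.eval_sub, Polynomial.eval_mul, Polynomial.eval_C, hl]
    field_simp
    ring
  have hrel : u * Polynomial.derivative g = g * Polynomial.derivative u := by
    simp only [hu, Polynomial.derivative_sub, Polynomial.derivative_mul, Polynomial.derivative_C,
      zero_mul, zero_add]
    linear_combination h
  -- lowest order coefficient
  obtain ⟨w, hw, hw0⟩ := Polynomial.exists_eq_pow_rootMultiplicity_mul_and_not_dvd u hu0 0
  set r := Polynomial.rootMultiplicity 0 u with hr
  have hrpos : 0 < r := (Polynomial.rootMultiplicity_pos hu0).mpr hev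
  obtain ⟨s, hs⟩ : ∃ s, r = s + 1 := ⟨r - 1, by omega⟩
  rw [hs] at hw
  simp only [map_zero, sub_zero] at hw hw0
  have hd : Polynomial.derivative u = Polynomial.X ^ s *
      (Polynomial.C ((s : F) + 1) * w + Polynomial.X * Polynomial.derivative w) := by
    rw [hw, Polynomial.derivative_mul, Polynomial.derivative_X_pow]
    simp only [Nat.add_sub_cancel, Nat.cast_add, Nat.cast_one]
    rw [pow_succ]
    ring
  rw [hd] at hrel
  have hrel2 : Polynomial.X ^ s * (Polynomial.X * w * Polynomial.derivative g) =
      Polynomial.X ^ s * (g * (Polynomial.C ((s : F) + 1) * w +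
        Polynomial.X * Polynomial.derivative w)) := by
    calc _ = u * Polynomial.derivative g := by rw [hw]; ring
      _ = _ := by rw [hrel]; ring
  have hX : (Polynomial.X : Polynomial F) ^ s ≠ 0 := pow_ne_zero _ Polynomial.X_ne_zero
  have hrel3 := mul_left_cancel₀ hX hrel2
  have hev3 := congrArg (Polynomial.eval 0) hrel3
  simp only [Polynomial.eval_mul, Polynomial.eval_X, zero_mul, Polynomial.eval_add,
    Polynomial.eval_C, add_zero] at hev3
  have hwz : w.eval 0 ≠ 0 := by
    intro h0
    apply hw0
    rw [Polynomial.X_dvd_iff, Polynomial.coeff_zero_eq_eval_zero, h0]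
  have hs1 : ((s : F) + 1) ≠ 0 := by exact_mod_cast Nat.succ_ne_zero s
  exact (mul_ne_zero hg (mul_ne_zero hs1 hwz)) hev3.symm

/-- restriction of a polynomial to the line `t ↦ a + t v` -/
noncomputable def lineMap (a v : κ → F) : MvPolynomial κ F →ₐ[F] Polynomial F :=
  aeval (fun k => Polynomial.C (a k) + Polynomial.X * Polynomial.C (v k))

theorem derivative_lineMap [Fintype κ] [DecidableEq κ] (a v : κ → F) (p : MvPolynomial κ F) :
    Polynomial.derivative (lineMap a v p) =
      ∑ k, Polynomial.C (v k) * lineMap a v (pderiv k p) := by
  induction p using MvPolynomial.induction_on with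
  | C c =>
    simp [lineMap]
  | add p q hp hq =>
    simp only [map_add, hp, hq, mul_add, Finset.sum_add_distrib]
  | mul_X p i hp =>
    have hX : lineMap a v (X i) = Polynomial.C (a i) + Polynomial.X * Polynomial.C (v i) := by
      simp [lineMap]
    rw [map_mul, Polynomial.derivative_mul, hp, hX]
    have : Polynomial.derivative (Polynomial.C (a i) + Polynomial.X * Polynomial.C (v i)) =
        Polynomial.C (v i) := by
      simp
    rw [this]
    have hk : ∀ k, Polynomial.C (v k) * lineMap a v (pderiv k (p * X i)) =
        lineMap a v p * (Polynomial.C (v k) * lineMap a v ((Pi.single k 1 : κ → MvPolynomial κ F) i)) +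
          (Polynomial.C (v k) * lineMap a v (pderiv k p)) *
            (Polynomial.C (a i) + Polynomial.X * Polynomial.C (v i)) := by
      intro k
      rw [Derivation.leibniz, pderiv_X, smul_eq_mul, smul_eq_mul, map_add, map_mul, map_mul, hX]
      ring
    rw [Finset.sum_congr rfl fun k _ => hk k, Finset.sum_add_distrib, ← Finset.sum_mul,
      ← Finset.mul_sum]
    have hsum : ∑ k, Polynomial.C (v k) * lineMap a v ((Pi.single k 1 : κ → MvPolynomial κ F) i) =
        Polynomial.C (v i) := by
      rw [Finset.sum_eq_single i]
      · simp
      · intro b _ hb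
        simp [hb.symm]
      · simp
    rw [hsum]
    ring

theorem eval_lineMap (a v : κ → F) (t : F) (p : MvPolynomial κ F) :
    (lineMap a v p).eval t = eval (fun k => a k + t * v k) p := by
  induction p using MvPolynomial.induction_on with
  | C c => simp [lineMap]
  | add p q hp hq => simp only [map_add, Polynomial.eval_add, hp, hq]
  | mul_X p i hp =>
    rw [map_mul, Polynomial.eval_mul, hp]
    simp only [lineMap, aeval_X, Polynomial.eval_add, Polynomial.eval_C, Polynomial.eval_mul,
      Polynomial.eval_X, map_mul, eval_X]

theorem mv_wronskian [CharZero F] [Finite κ] (f g : MvPolynomial κ F) (hg : g ≠ 0)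
    (h : ∀ k, f * pderiv k g = g * pderiv k f) : ∃ l : F, f = C l * g := by
  classical
  have := Fintype.ofFinite κ
  obtain ⟨a, ha⟩ : ∃ a : κ → F, eval a g ≠ 0 := by
    by_contra hcon
    push Not at hcon
    exact hg (MvPolynomial.funext fun x => by rw [hcon x, map_zero])
  refine ⟨eval a f / eval a g, MvPolynomial.funext fun x => ?_⟩
  set v : κ → F := fun k => x k - a k with hv
  have hline : (lineMap a v f) * Polynomial.derivative (lineMap a v g) =
      (lineMap a v g) * Polynomial.derivative (lineMap a v f) := by
    rw [derivative_lineMap, derivative_lineMap, Finset.mul_sum, Finset.mul_sum]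
    refine Finset.sum_congr rfl fun k _ => ?_
    have := congrArg (lineMap a v) (h k)
    rw [map_mul, map_mul] at this
    linear_combination (Polynomial.C (v k)) * this
  have h0 : ∀ p : MvPolynomial κ F, (lineMap a v p).eval 0 = eval a p := by
    intro p; rw [eval_lineMap]; simp
  have hres := poly_wronskian (lineMap a v f) (lineMap a v g) (by rw [h0]; exact ha) hline
  have h1 := congrArg (Polynomial.eval 1) hres
  rw [Polynomial.eval_mul, Polynomial.eval_C, h0, h0, eval_lineMap, eval_lineMap] at h1
  have hx : (fun k => a k + 1 * v k) = x := by funext k; simp [hv]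
  rw [hx] at h1
  rw [h1, map_mul, eval_C]

end Pool.Agent.Lib.MP_64d474_lc
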