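import Mathlib
import Pool.Agent.Lib.MP_64d474_lc.Wronskian

/-!
Core of the good characterisation for spaces of symmetric matrices spanned by one arbitrary
symmetric matrix and symmetric matrices of Witt index at most one.
-/

open Matrix MvPolynomial

namespace Pool.Agent.Lib.MP_64d474_lc

/-- The symmetric bilinear form `(u, v) ↦ uᵀ B v` has Witt index at most one modulo its radical:
whenever `u, v` span a totally isotropic subspace, `B u` and `B v` are linearly dependent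
(all two by two minors vanish). -/
def WittLeOne {F : Type*} [Field F] {ι : Type*} [Fintype ι] (B : Matrix ι ι F) : Prop :=
  ∀ u v : ι → F, u ⬝ᵥ B *ᵥ u = 0 → u ⬝ᵥ B *ᵥ v = 0 → v ⬝ᵥ B *ᵥ v = 0 →
    ∀ a b, (B *ᵥ u) a * (B *ᵥ v) b = (B *ᵥ u) b * (B *ᵥ v) a

variable {F : Type*} [Field F] {ι κ : Type*}

theorem minors_of_not_linearIndependent {x y : ι → F}
    (h : ¬ LinearIndependent F ![x, y]) (a b : ι) : x a * y b = x b * y a := by
  rw [LinearIndependent.pair_iff] at h
  push Not at h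
  obtain ⟨s, t, hst, hne⟩ := h
  have ha := congrFun hst a
  have hb := congrFun hst b
  simp only [Pi.add_apply, Pi.smul_apply, smul_eq_mul, Pi.zero_apply] at ha hb
  by_cases hs : s = 0
  · subst hs
    have ht : t ≠ 0 := hne rfl
    have h1 : y a = 0 := by
      have : t * y a = 0 := by linear_combination ha
      exact (mul_eq_zero.mp this).resolve_left ht
    have h2 : y b = 0 := by
      have : t * y b = 0 := by linear_combination hb
      exact (mul_eq_zero.mp this).resolve_left ht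
    rw [h1, h2]; ring
  · have : s * (x a * y b - x b * y a) = 0 := by
      linear_combination (y b) * ha - (y a) * hb
    have := (mul_eq_zero.mp this).resolve_left hs
    linear_combination this

/-- coordinatewise partial derivative of a vector of polynomials -/
noncomputable def dv (k : κ) (p : ι → MvPolynomial κ F) : ι → MvPolynomial κ F :=
  fun i => pderiv k (p i)

variable [Fintype ι]

theorem dv_mulVec_C {ι' : Type*} (k : κ) (M : Matrix ι' ι F) (p : ι → MvPolynomial κ F) :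
    dv k ((M.map C) *ᵥ p) = (M.map C) *ᵥ dv k p := by
  funext i
  simp only [dv, mulVec, dotProduct, map_sum, Matrix.map_apply, Derivation.leibniz, pderiv_C,
    smul_eq_mul, mul_zero, add_zero]

theorem pderiv_dotProduct (k : κ) (p q : ι → MvPolynomial κ F) :
    pderiv k (p ⬝ᵥ q) = dv k p ⬝ᵥ q + p ⬝ᵥ dv k q := by
  simp only [dv, dotProduct, map_sum, Derivation.leibniz, smul_eq_mul]
  rw [← Finset.sum_add_distrib]
  refine Finset.sum_congr rfl fun i _ => ?_
  ring

theorem symm_dot {R : Type*} [CommRing R] (M : Matrix ι ι R) (hM : M.IsSymm) (p q : ι → R) :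
    p ⬝ᵥ M *ᵥ q = q ⬝ᵥ M *ᵥ p := by
  rw [Matrix.dotProduct_mulVec, ← Matrix.mulVec_transpose, hM.eq, dotProduct_comm]

/-- the symbolic matrix `B₀ + ∑ X_k B_k` -/
noncomputable def symb [Fintype κ] (B₀ : Matrix ι ι F) (B : κ → Matrix ι ι F) :
    Matrix ι ι (MvPolynomial κ F) :=
  B₀.map C + ∑ k, (X k : MvPolynomial κ F) • (B k).map C

theorem symb_mulVec [Fintype κ] (B₀ : Matrix ι ι F) (B : κ → Matrix ι ι F)
    (p : ι → MvPolynomial κ F) :
    symb B₀ B *ᵥ p = (B₀.map C) *ᵥ p + ∑ k, (X k : MvPolynomial κ F) • ((B k).map C *ᵥ p) := by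
  rw [symb, Matrix.add_mulVec, Matrix.sum_mulVec]
  simp only [Matrix.smul_mulVec]

theorem dv_symb [Fintype κ] [DecidableEq κ] (k : κ) (B₀ : Matrix ι ι F) (B : κ → Matrix ι ι F)
    (p : ι → MvPolynomial κ F) :
    dv k (symb B₀ B *ᵥ p) = (B k).map C *ᵥ p + symb B₀ B *ᵥ dv k p := by
  rw [symb_mulVec, symb_mulVec, ← dv_mulVec_C]
  have hsum : dv k (∑ k', (X k' : MvPolynomial κ F) • ((B k').map C *ᵥ p)) =
      (B k).map C *ᵥ p + ∑ k', (X k' : MvPolynomial κ F) • ((B k').map C *ᵥ dv k p) := by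
    funext i
    simp only [dv, Finset.sum_apply, Pi.smul_apply, smul_eq_mul, map_sum, Derivation.leibniz,
      pderiv_X, Pi.add_apply, Finset.sum_add_distrib]
    have h1 : ∑ x, ((B x).map C *ᵥ p) i * (Pi.single k 1 : κ → MvPolynomial κ F) x =
        ((B k).map C *ᵥ p) i := by
      rw [Finset.sum_eq_single k]
      · simp
      · intro b _ hb
        simp [hb]
      · simp
    have h2 : ∑ x, (X x : MvPolynomial κ F) * (pderiv k) (((B x).map C *ᵥ p) i) =
        ∑ x, (X x : MvPolynomial κ F) * ((B x).map C *ᵥ dv k p) i := by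
      refine Finset.sum_congr rfl fun x _ => ?_
      have := congrFun (dv_mulVec_C k (B x) p) i
      simp only [dv] at this
      rw [this]
    rw [h1, h2, add_comm]
  have hadd : ∀ a b : ι → MvPolynomial κ F, dv k (a + b) = dv k a + dv k b := by
    intro a b; funext i; simp [dv]
  rw [hadd, hsum]
  abel

omit [Fintype ι] in
theorem symb_isSymm [Fintype κ] (B₀ : Matrix ι ι F) (B : κ → Matrix ι ι F) (h₀ : B₀.IsSymm)
    (hB : ∀ k, (B k).IsSymm) : (symb B₀ B).IsSymm := by
  unfold Matrix.IsSymm symb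
  rw [Matrix.transpose_add, Matrix.transpose_sum, ← Matrix.transpose_map, h₀.eq]
  congr 1
  refine Finset.sum_congr rfl fun k _ => ?_
  rw [Matrix.transpose_smul, ← Matrix.transpose_map, (hB k).eq]

omit [Fintype ι] in
theorem map_isSymm (M : Matrix ι ι F) (h : M.IsSymm) :
    (M.map (C : F → MvPolynomial κ F)).IsSymm := by
  unfold Matrix.IsSymm
  rw [← Matrix.transpose_map, h.eq]

theorem eval_dot (c : κ → F) (M : Matrix ι ι F) (p q : ι → MvPolynomial κ F) :
    eval c (p ⬝ᵥ (M.map C) *ᵥ q) =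
      (fun i => eval c (p i)) ⬝ᵥ M *ᵥ (fun i => eval c (q i)) := by
  simp [dotProduct, mulVec]

theorem eval_mulVec (c : κ → F) (M : Matrix ι ι F) (q : ι → MvPolynomial κ F) (a : ι) :
    eval c (((M.map C) *ᵥ q) a) = (M *ᵥ (fun i => eval c (q i))) a := by
  simp [dotProduct, mulVec]

theorem witt_poly [Infinite F] (M : Matrix ι ι F) (hM : WittLeOne M)
    (p q : ι → MvPolynomial κ F) (h1 : p ⬝ᵥ (M.map C) *ᵥ p = 0)
    (h2 : p ⬝ᵥ (M.map C) *ᵥ q = 0) (h3 : q ⬝ᵥ (M.map C) *ᵥ q = 0) (a b : ι) :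
    ((M.map C) *ᵥ p) a * ((M.map C) *ᵥ q) b = ((M.map C) *ᵥ p) b * ((M.map C) *ᵥ q) a := by
  refine MvPolynomial.funext fun c => ?_
  have g1 := congrArg (eval c) h1
  have g2 := congrArg (eval c) h2
  have g3 := congrArg (eval c) h3
  rw [eval_dot, map_zero] at g1 g2 g3
  have := hM _ _ g1 g2 g3 a b
  rw [map_mul, map_mul, eval_mulVec, eval_mulVec, eval_mulVec, eval_mulVec]
  exact this

section kernel

variable [Fintype κ] [DecidableEq κ] (B₀ : Matrix ι ι F) (B : κ → Matrix ι ι F)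

theorem ker_iso (h₀ : B₀.IsSymm) (hB : ∀ k, (B k).IsSymm) (p q : ι → MvPolynomial κ F)
    (hp : symb B₀ B *ᵥ p = 0) (hq : symb B₀ B *ᵥ q = 0) (k : κ) :
    p ⬝ᵥ ((B k).map C) *ᵥ q = 0 := by
  have h := dv_symb k B₀ B q
  rw [hq] at h
  have h0 : dv k (0 : ι → MvPolynomial κ F) = 0 := by funext i; simp [dv]
  rw [h0] at h
  have h1 : ((B k).map C) *ᵥ q = - (symb B₀ B *ᵥ dv k q) := by
    rw [eq_neg_iff_add_eq_zero]; exact h.symm
  rw [h1, dotProduct_neg, symm_dot _ (symb_isSymm B₀ B h₀ hB), hp, dotProduct_zero, neg_zero]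

/-- the first derivative relation -/
theorem ker_deriv (q : ι → MvPolynomial κ F) (hq : symb B₀ B *ᵥ q = 0) (k : κ) :
    ((B k).map C) *ᵥ q + symb B₀ B *ᵥ dv k q = 0 := by
  have h := dv_symb k B₀ B q
  rw [hq] at h
  have h0 : dv k (0 : ι → MvPolynomial κ F) = 0 := by funext i; simp [dv]
  rw [h0] at h
  exact h.symm

theorem ker_iso' [CharZero F] (h₀ : B₀.IsSymm) (hB : ∀ k, (B k).IsSymm)
    (q : ι → MvPolynomial κ F) (hq : symb B₀ B *ᵥ q = 0) (k i : κ) :
    q ⬝ᵥ ((B k).map C) *ᵥ dv i q = 0 := by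
  have h := ker_iso B₀ B h₀ hB q q hq hq k
  have h1 := congrArg (pderiv i) h
  rw [pderiv_dotProduct, dv_mulVec_C, map_zero, symm_dot _ (map_isSymm _ (hB k))] at h1
  have h2 : (2 : MvPolynomial κ F) * (q ⬝ᵥ ((B k).map C) *ᵥ dv i q) = 0 := by
    rw [two_mul]; exact h1
  exact (mul_eq_zero.mp h2).resolve_left two_ne_zero

/-- the cyclic identity -/
theorem ker_cyc [CharZero F] (h₀ : B₀.IsSymm) (hB : ∀ k, (B k).IsSymm)
    (q : ι → MvPolynomial κ F) (hq : symb B₀ B *ᵥ q = 0) (i j k : κ) :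
    dv k q ⬝ᵥ ((B i).map C) *ᵥ dv j q + dv k q ⬝ᵥ ((B j).map C) *ᵥ dv i q +
      dv i q ⬝ᵥ ((B k).map C) *ᵥ dv j q = 0 := by
  have hA := symb_isSymm B₀ B h₀ hB
  have e1 := ker_deriv B₀ B q hq i
  have e2 : ((B i).map C) *ᵥ dv j q + (((B j).map C) *ᵥ dv i q +
      symb B₀ B *ᵥ dv j (dv i q)) = 0 := by
    have h := congrArg (dv j) e1
    have hadd : ∀ a b : ι → MvPolynomial κ F, dv j (a + b) = dv j a + dv j b := by
      intro a b; funext i; simp [dv]
    have h0 : dv j (0 : ι → MvPolynomial κ F) = 0 := by funext i; simp [dv]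
    rw [hadd, dv_mulVec_C, dv_symb, h0] at h
    exact h
  have e3 := congrArg (fun z => dv k q ⬝ᵥ z) e2
  simp only [dotProduct_add, dotProduct_zero] at e3
  have e4 : dv k q ⬝ᵥ symb B₀ B *ᵥ dv j (dv i q) =
      - (q ⬝ᵥ ((B k).map C) *ᵥ dv j (dv i q)) := by
    rw [symm_dot _ hA]
    have h := ker_deriv B₀ B q hq k
    have h1 : symb B₀ B *ᵥ dv k q = - (((B k).map C) *ᵥ q) := by
      rw [eq_neg_iff_add_eq_zero, add_comm]; exact h
    rw [h1, dotProduct_neg, symm_dot _ (map_isSymm _ (hB k))]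
  have e5 : dv j q ⬝ᵥ ((B k).map C) *ᵥ dv i q + q ⬝ᵥ ((B k).map C) *ᵥ dv j (dv i q) = 0 := by
    have h := congrArg (pderiv j) (ker_iso' B₀ B h₀ hB q hq k i)
    rw [pderiv_dotProduct, dv_mulVec_C, map_zero] at h
    exact h
  have e6 : dv j q ⬝ᵥ ((B k).map C) *ᵥ dv i q = dv i q ⬝ᵥ ((B k).map C) *ᵥ dv j q :=
    symm_dot _ (map_isSymm _ (hB k)) _ _
  rw [e4] at e3
  rw [e6] at e5
  linear_combination e3 + e5

/-- If all the `B k` have Witt index at most one, then every `B j q` has all its derivatives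
proportional to itself. -/
theorem ker_prop [CharZero F] (h₀ : B₀.IsSymm) (hB : ∀ k, (B k).IsSymm)
    (hW : ∀ k, WittLeOne (B k)) (q : ι → MvPolynomial κ F) (hq : symb B₀ B *ᵥ q = 0)
    (j k : κ) (a b : ι) :
    (((B j).map C) *ᵥ q) a * pderiv k ((((B j).map C) *ᵥ q) b) =
      (((B j).map C) *ᵥ q) b * pderiv k ((((B j).map C) *ᵥ q) a) := by
  have hkk : dv k q ⬝ᵥ ((B k).map C) *ᵥ dv k q = 0 := by
    have h := ker_cyc B₀ B h₀ hB q hq k k k
    have h3 : (3 : MvPolynomial κ F) * (dv k q ⬝ᵥ ((B k).map C) *ᵥ dv k q) = 0 := by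
      linear_combination h
    have h3' : (3 : MvPolynomial κ F) ≠ 0 := by
      rw [← map_ofNat (C : F →+* MvPolynomial κ F) 3]
      exact C_ne_zero.mpr three_ne_zero
    exact (mul_eq_zero.mp h3).resolve_left h3'
  have hqq := ker_iso B₀ B h₀ hB q q hq hq
  have hprop := witt_poly (B k) (hW k) q (dv k q) (hqq k) (ker_iso' B₀ B h₀ hB q hq k k) hkk
  -- T(k;k,j) = 0
  have hkj : dv k q ⬝ᵥ ((B k).map C) *ᵥ dv j q = 0 := by
    by_cases hz : ((B k).map C) *ᵥ q = 0
    · have : ((B k).map C) *ᵥ dv k q = 0 := by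
        rw [← dv_mulVec_C, hz]; funext i; simp [dv]
      rw [symm_dot _ (map_isSymm _ (hB k)), this, dotProduct_zero]
    · obtain ⟨b', hb'⟩ : ∃ b', (((B k).map C) *ᵥ q) b' ≠ 0 := by
        by_contra hcon; push Not at hcon; exact hz (funext hcon)
      have h1 : (((B k).map C) *ᵥ q) b' • (((B k).map C) *ᵥ dv k q) =
          (((B k).map C) *ᵥ dv k q) b' • (((B k).map C) *ᵥ q) := by
        funext a'
        simp only [Pi.smul_apply, smul_eq_mul]
        have := hprop a' b'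
        linear_combination -this
      have h2 : (((B k).map C) *ᵥ q) b' * (dv k q ⬝ᵥ ((B k).map C) *ᵥ dv j q) = 0 := by
        rw [symm_dot _ (map_isSymm _ (hB k))]
        have h3 := congrArg (fun z => dv j q ⬝ᵥ z) h1
        simp only [dotProduct_smul, smul_eq_mul] at h3
        rw [h3, symm_dot _ (map_isSymm _ (hB k)), ker_iso' B₀ B h₀ hB q hq k j, mul_zero]
      exact (mul_eq_zero.mp h2).resolve_left hb'
  have hjkk : dv k q ⬝ᵥ ((B j).map C) *ᵥ dv k q = 0 := by
    have h := ker_cyc B₀ B h₀ hB q hq k j k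
    have e6 : dv k q ⬝ᵥ ((B k).map C) *ᵥ dv j q = 0 := hkj
    linear_combination h - 2 * e6
  have := witt_poly (B j) (hW j) q (dv k q) (hqq j) (ker_iso' B₀ B h₀ hB q hq j k) hjkk a b
  have hd : ∀ c, pderiv k ((((B j).map C) *ᵥ q) c) = (((B j).map C) *ᵥ dv k q) c := by
    intro c
    have := congrFun (dv_mulVec_C k (B j) q) c
    simpa only [dv] using this
  rw [hd, hd]
  exact this

end kernel

end Pool.Agent.Lib.MP_64d474_lc
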