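import Mathlib
import Pool.Agent.Lib.MP_64d474_lc.SymCore

/-!
Existence of a shrunk subspace for singular spaces of symmetric matrices spanned by one arbitrary
symmetric matrix and symmetric matrices of Witt index at most one.
-/

open Matrix MvPolynomial Module

namespace Pool.Agent.Lib.MP_64d474_lc

variable {F : Type*} [Field F] {ι κ : Type*} [Fintype ι] [Fintype κ] [DecidableEq κ]

/-- the sum of the images of `U` under `B₀` and all `B k` -/
def imageSum (B₀ : Matrix ι ι F) (B : κ → Matrix ι ι F) (U : Submodule F (ι → F)) :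
    Submodule F (ι → F) :=
  U.map B₀.mulVecLin ⊔ ⨆ k, U.map (B k).mulVecLin

theorem exists_dir [CharZero F] (B₀ : Matrix ι ι F) (B : κ → Matrix ι ι F)
    (h₀ : B₀.IsSymm) (hB : ∀ k, (B k).IsSymm) (hW : ∀ k, WittLeOne (B k)) (k : κ) :
    ∃ v : ι → F,
      (∀ q : ι → MvPolynomial κ F, symb B₀ B *ᵥ q = 0 →
        ∃ f : MvPolynomial κ F, ((B k).map C) *ᵥ q = f • (fun a => C (v a))) ∧
      (v ≠ 0 → ∃ q : ι → MvPolynomial κ F, symb B₀ B *ᵥ q = 0 ∧
        ∃ f : MvPolynomial κ F, f ≠ 0 ∧ ((B k).map C) *ᵥ q = f • (fun a => C (v a))) := by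
  by_cases h : ∀ q : ι → MvPolynomial κ F, symb B₀ B *ᵥ q = 0 → ((B k).map C) *ᵥ q = 0
  · refine ⟨0, fun q hq => ⟨0, ?_⟩, fun hne => absurd rfl hne⟩
    rw [h q hq, zero_smul]
  · push Not at h
    obtain ⟨q₁, hq₁, hne⟩ := h
    obtain ⟨b, hb⟩ : ∃ b, (((B k).map C) *ᵥ q₁) b ≠ 0 := by
      by_contra hcon; push Not at hcon; exact hne (funext hcon)
    have hl : ∀ a, ∃ l : F, (((B k).map C) *ᵥ q₁) a = C l * (((B k).map C) *ᵥ q₁) b := by
      intro a
      refine mv_wronskian _ _ hb fun i => ?_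
      exact ker_prop B₀ B h₀ hB hW q₁ hq₁ k i a b
    choose l hl using hl
    refine ⟨l, fun q hq => ⟨(((B k).map C) *ᵥ q) b, ?_⟩, fun _ => ⟨q₁, hq₁, _, hb, ?_⟩⟩
    · funext a
      have hm := witt_poly (B k) (hW k) q₁ q (ker_iso B₀ B h₀ hB q₁ q₁ hq₁ hq₁ k)
        (ker_iso B₀ B h₀ hB q₁ q hq₁ hq k) (ker_iso B₀ B h₀ hB q q hq hq k) a b
      rw [hl a] at hm
      have h2 : (((B k).map C) *ᵥ q₁) b * ((((B k).map C) *ᵥ q) a) =
          (((B k).map C) *ᵥ q₁) b * ((((B k).map C) *ᵥ q) b * C (l a)) := by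
        linear_combination -hm
      have := mul_left_cancel₀ hb h2
      simpa [smul_eq_mul] using this
    · funext a
      simp only [Pi.smul_apply, smul_eq_mul]
      rw [mul_comm]
      exact hl a

/-- the space spanned by all values of polynomial kernel vectors -/
def kerSpan (B₀ : Matrix ι ι F) (B : κ → Matrix ι ι F) : Submodule F (ι → F) :=
  Submodule.span F {w | ∃ q : ι → MvPolynomial κ F, symb B₀ B *ᵥ q = 0 ∧
    ∃ c : κ → F, w = fun i => eval c (q i)}

omit [DecidableEq κ] in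
theorem mem_kerSpan (B₀ : Matrix ι ι F) (B : κ → Matrix ι ι F) (q : ι → MvPolynomial κ F)
    (hq : symb B₀ B *ᵥ q = 0) (c : κ → F) : (fun i => eval c (q i)) ∈ kerSpan B₀ B :=
  Submodule.subset_span ⟨q, hq, c, rfl⟩

omit [DecidableEq κ] in
theorem kerSpan_dir (B₀ : Matrix ι ι F) (B : κ → Matrix ι ι F) (k : κ) (v : ι → F)
    (hv : ∀ q : ι → MvPolynomial κ F, symb B₀ B *ᵥ q = 0 →
        ∃ f : MvPolynomial κ F, ((B k).map C) *ᵥ q = f • (fun a => C (v a)))
    (u : ι → F) (hu : u ∈ kerSpan B₀ B) : ∃ t : F, (B k) *ᵥ u = t • v := by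
  induction hu using Submodule.span_induction with
  | mem x hx =>
    obtain ⟨q, hq, c, rfl⟩ := hx
    obtain ⟨f, hf⟩ := hv q hq
    refine ⟨eval c f, ?_⟩
    funext a
    have := congrArg (eval c) (congrFun hf a)
    rw [eval_mulVec] at this
    simpa using this
  | zero => exact ⟨0, by simp⟩
  | add x y _ _ hx hy =>
    obtain ⟨t, ht⟩ := hx
    obtain ⟨t', ht'⟩ := hy
    exact ⟨t + t', by rw [mulVec_add, ht, ht', add_smul]⟩
  | smul a x _ hx =>
    obtain ⟨t, ht⟩ := hx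
    exact ⟨a * t, by rw [mulVec_smul, ht, smul_smul]⟩

theorem exists_shrunk [CharZero F] (B₀ : Matrix ι ι F) (B : κ → Matrix ι ι F)
    (h₀ : B₀.IsSymm) (hB : ∀ k, (B k).IsSymm) (hW : ∀ k, WittLeOne (B k))
    (q₀ : ι → MvPolynomial κ F) (hq₀ : q₀ ≠ 0) (hAq₀ : symb B₀ B *ᵥ q₀ = 0) :
    finrank F (imageSum B₀ B (kerSpan B₀ B)) < finrank F (kerSpan B₀ B) := by
  classical
  by_contra hcon
  push Not at hcon
  set U := kerSpan B₀ B with hU
  set W := imageSum B₀ B U with hWdef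
  choose v hv1 hv2 using exists_dir B₀ B h₀ hB hW
  set s := finrank F U with hs
  -- a basis of U
  let bU : Basis (Fin s) F U := Module.finBasisOfFinrankEq F U rfl
  -- the inclusion matrix and a left inverse
  let inc : (Fin s → F) →ₗ[F] (ι → F) := U.subtype ∘ₗ bU.equivFun.symm.toLinearMap
  obtain ⟨ret, hret⟩ := (bU.equivFun.toLinearMap).exists_extend
  have hret' : ∀ u ∈ U, inc (ret u) = u := by
    intro u hu
    have : ret u = bU.equivFun ⟨u, hu⟩ := by
      have := LinearMap.congr_fun hret ⟨u, hu⟩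
      simpa using this
    simp [inc, this]
  have hinc : ∀ x, inc x ∈ U := by
    intro x; exact (bU.equivFun.symm x).2
  -- the surjection from W
  let bW : Basis (Fin (finrank F W)) F W := Module.finBasisOfFinrankEq F W rfl
  let pr : W →ₗ[F] (Fin s → F) :=
    LinearMap.funLeft F F (Fin.castLE hcon) ∘ₗ bW.equivFun.toLinearMap
  have hpr : Function.Surjective pr := by
    have h1 : Function.Surjective (LinearMap.funLeft F F (Fin.castLE hcon)) :=
      LinearMap.funLeft_surjective_of_injective F F _ (Fin.castLE_injective hcon)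
    exact h1.comp bW.equivFun.surjective
  obtain ⟨ρ, hρ⟩ := pr.exists_extend
  have hρsurj : ∀ y : Fin s → F, ∃ w ∈ W, ρ w = y := by
    intro y
    obtain ⟨w, hw⟩ := hpr y
    refine ⟨w, w.2, ?_⟩
    have := LinearMap.congr_fun hρ w
    simp only [LinearMap.comp_apply, Submodule.subtype_apply] at this
    rw [this, hw]
  -- matrices
  let Im : Matrix ι (Fin s) F := LinearMap.toMatrix' inc
  let Rm : Matrix (Fin s) ι F := LinearMap.toMatrix' ret
  let Pm : Matrix (Fin s) ι F := LinearMap.toMatrix' ρ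
  have hIm : ∀ x, Im *ᵥ x = inc x := fun x => by simp [Im, LinearMap.toMatrix'_mulVec]
  have hRm : ∀ x, Rm *ᵥ x = ret x := fun x => by simp [Rm, LinearMap.toMatrix'_mulVec]
  have hPm : ∀ x, Pm *ᵥ x = ρ x := fun x => by simp [Pm, LinearMap.toMatrix'_mulVec]
  -- polynomial vectors with values in U
  have hfix : ∀ q : ι → MvPolynomial κ F, (∀ c : κ → F, (fun i => eval c (q i)) ∈ U) →
      (Im.map C) *ᵥ ((Rm.map C) *ᵥ q) = q := by
    intro q hq
    funext i
    refine MvPolynomial.funext fun c => ?_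
    have h1 := hret' _ (hq c)
    rw [← hRm, ← hIm] at h1
    have h2 := congrFun h1 i
    have e1 : eval c (((Im.map C) *ᵥ ((Rm.map C) *ᵥ q)) i) =
        (Im *ᵥ (Rm *ᵥ (fun i => eval c (q i)))) i := by
      simp [dotProduct, mulVec]
    rw [e1, h2]
  have hNU : ∀ q : ι → MvPolynomial κ F, symb B₀ B *ᵥ q = 0 →
      (Im.map C) *ᵥ ((Rm.map C) *ᵥ q) = q :=
    fun q hq => hfix q fun c => mem_kerSpan B₀ B q hq c
  -- the square matrix
  let PmC : Matrix (Fin s) ι (MvPolynomial κ F) := Pm.map C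
  let ImC : Matrix ι (Fin s) (MvPolynomial κ F) := Im.map C
  let M : Matrix (Fin s) (Fin s) (MvPolynomial κ F) := PmC * symb B₀ B * ImC
  have hdet : M.det = 0 := by
    rw [← Matrix.exists_mulVec_eq_zero_iff]
    refine ⟨(Rm.map C) *ᵥ q₀, ?_, ?_⟩
    · intro h
      apply hq₀
      rw [← hNU q₀ hAq₀, h, mulVec_zero]
    · simp only [M, ← Matrix.mulVec_mulVec]
      have := hNU q₀ hAq₀
      change PmC *ᵥ symb B₀ B *ᵥ ((Im.map C) *ᵥ ((Rm.map C) *ᵥ q₀)) = 0
      rw [this, hAq₀, mulVec_zero]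
  obtain ⟨b, hb0, hb⟩ := Matrix.exists_vecMul_eq_zero_iff.mpr hdet
  set ℓ : ι → MvPolynomial κ F := b ᵥ* PmC with hℓ
  have hℓM : ∀ x : Fin s → MvPolynomial κ F, ℓ ⬝ᵥ symb B₀ B *ᵥ ((Im.map C) *ᵥ x) = 0 := by
    intro x
    have h1 : (b ᵥ* M) ⬝ᵥ x = 0 := by rw [hb, zero_dotProduct]
    have h2 : (b ᵥ* M) ⬝ᵥ x = ℓ ⬝ᵥ symb B₀ B *ᵥ (ImC *ᵥ x) := by
      simp only [M, hℓ, ← Matrix.dotProduct_mulVec, ← Matrix.mulVec_mulVec]
    rw [← h2, h1]
  -- ℓ kills B k q
  have hkill : ∀ k, ∀ q : ι → MvPolynomial κ F, symb B₀ B *ᵥ q = 0 →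
      ℓ ⬝ᵥ ((B k).map C) *ᵥ q = 0 := by
    intro k q hq
    have h1 := ker_deriv B₀ B q hq k
    have h2 : dv k q = (Im.map C) *ᵥ ((Rm.map C) *ᵥ dv k q) := by
      have h3 := congrArg (dv k) (hNU q hq)
      rw [dv_mulVec_C, dv_mulVec_C] at h3
      exact h3.symm
    have h4 : ℓ ⬝ᵥ symb B₀ B *ᵥ dv k q = 0 := by
      rw [h2]; exact hℓM _
    have h5 := congrArg (fun z => ℓ ⬝ᵥ z) h1
    simp only [dotProduct_add, dotProduct_zero, h4, add_zero] at h5
    exact h5
  have hkv : ∀ k, ℓ ⬝ᵥ (fun a => C (v k a)) = 0 := by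
    intro k
    by_cases hvk : v k = 0
    · rw [hvk]
      simp [dotProduct]
    · obtain ⟨q, hq, f, hf, hqf⟩ := hv2 k hvk
      have := hkill k q hq
      rw [hqf, dotProduct_smul, smul_eq_mul] at this
      exact (mul_eq_zero.mp this).resolve_left hf
  have hkU : ∀ k, ∀ u ∈ U, ℓ ⬝ᵥ (fun a => C (((B k) *ᵥ u) a)) = 0 := by
    intro k u hu
    obtain ⟨t, ht⟩ := kerSpan_dir B₀ B k (v k) (hv1 k) u hu
    rw [ht]
    have : (fun a => (C ((t • v k) a) : MvPolynomial κ F)) =
        (C t : MvPolynomial κ F) • (fun a => C (v k a)) := by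
      funext a; simp
    rw [this, dotProduct_smul, hkv k, smul_zero]
  have hmapC : ∀ (N : Matrix ι ι F) (u : ι → F),
      (N.map C) *ᵥ (fun a => (C (u a) : MvPolynomial κ F)) = fun a => C ((N *ᵥ u) a) := by
    intro N u
    funext a
    simp [mulVec, dotProduct]
  have hsymU : ∀ u ∈ U, ℓ ⬝ᵥ symb B₀ B *ᵥ (fun a => C (u a)) = 0 := by
    intro u hu
    have h1 : (fun a => (C (u a) : MvPolynomial κ F)) =
        (Im.map C) *ᵥ ((Rm.map C) *ᵥ (fun a => C (u a))) := by
      symm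
      apply hfix
      intro c
      simpa using hu
    rw [h1]; exact hℓM _
  have h0U : ∀ u ∈ U, ℓ ⬝ᵥ (fun a => C ((B₀ *ᵥ u) a)) = 0 := by
    intro u hu
    have h1 := hsymU u hu
    rw [symb_mulVec, dotProduct_add, hmapC] at h1
    have h2 : ℓ ⬝ᵥ ∑ k, (X k : MvPolynomial κ F) • ((B k).map C *ᵥ fun a => C (u a)) = 0 := by
      rw [dotProduct_sum]
      refine Finset.sum_eq_zero fun k _ => ?_
      rw [dotProduct_smul, hmapC, hkU k u hu, smul_zero]
    rw [h2, add_zero] at h1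
    exact h1
  have hWkill : ∀ w ∈ W, ℓ ⬝ᵥ (fun a => C (w a)) = 0 := by
    let K : Submodule F (ι → F) :=
      { carrier := {w | ℓ ⬝ᵥ (fun a => C (w a)) = 0}
        add_mem' := by
          intro x y hx hy
          simp only [Set.mem_ofPred_eq] at hx hy ⊢
          have : (fun a => (C ((x + y) a) : MvPolynomial κ F)) =
              (fun a => C (x a)) + (fun a => C (y a)) := by funext a; simp
          rw [this, dotProduct_add, hx, hy, add_zero]
        zero_mem' := by simp [dotProduct]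
        smul_mem' := by
          intro c x hx
          simp only [Set.mem_ofPred_eq] at hx ⊢
          have : (fun a => (C ((c • x) a) : MvPolynomial κ F)) =
              (C c : MvPolynomial κ F) • (fun a => C (x a)) := by funext a; simp
          rw [this, dotProduct_smul, hx, smul_zero] }
    have hWK : W ≤ K := by
      rw [hWdef, imageSum]
      refine sup_le ?_ (iSup_le fun k => ?_)
      · rintro _ ⟨u, hu, rfl⟩
        exact h0U u hu
      · rintro _ ⟨u, hu, rfl⟩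
        exact hkU k u hu
    exact fun w hw => hWK hw
  -- contradiction
  apply hb0
  funext i
  obtain ⟨w, hw, hwi⟩ := hρsurj (Pi.single i 1)
  have h1 := hWkill w hw
  have h2 : ℓ ⬝ᵥ (fun a => C (w a)) = b ⬝ᵥ (fun j => C ((Pm *ᵥ w) j)) := by
    rw [hℓ, ← Matrix.dotProduct_mulVec]
    congr 1
    funext j
    simp [PmC, mulVec, dotProduct]
  rw [h2, hPm, hwi] at h1
  simpa [dotProduct, Pi.single_apply, apply_ite] using h1

end Pool.Agent.Lib.MP_64d474_lc
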