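import Mathlib
import Pool.Agent.Lib.MP_64d474_lc.SymMain

/-!
General facts on ranks of matrices and of values of symbolic matrices.
-/

open Matrix MvPolynomial Module

namespace Pool.Agent.Lib.MP_64d474_lc

variable {F : Type*} [Field F] {ι κ : Type*} [Fintype ι] [Fintype κ]

/-- the trivial half of the min-max: `rank A + dim U ≤ n + dim W` whenever `A U ⊆ W`. -/
theorem rank_add_finrank_le (A : Matrix ι ι F) (U W : Submodule F (ι → F))
    (h : U.map A.mulVecLin ≤ W) : A.rank + finrank F U ≤ Fintype.card ι + finrank F W := by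
  classical
  set f := A.mulVecLin with hf
  have h1 : finrank F (LinearMap.range f) + finrank F (LinearMap.ker f) =
      finrank F (ι → F) := LinearMap.finrank_range_add_finrank_ker f
  have h2 : finrank F (LinearMap.range (f.domRestrict U)) +
      finrank F (LinearMap.ker (f.domRestrict U)) = finrank F U :=
    LinearMap.finrank_range_add_finrank_ker _
  have h3 : LinearMap.range (f.domRestrict U) = U.map f := LinearMap.range_domRestrict U f
  have h4 : finrank F (LinearMap.ker (f.domRestrict U)) ≤ finrank F (LinearMap.ker f) := by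
    let g : LinearMap.ker (f.domRestrict U) →ₗ[F] LinearMap.ker f :=
      (U.subtype.restrict (p := LinearMap.ker (f.domRestrict U)) (q := LinearMap.ker f)
        (fun x hx => by
          simpa [LinearMap.mem_ker] using hx))
    refine LinearMap.finrank_le_finrank_of_injective (f := g) ?_
    intro x y hxy
    have := congrArg Subtype.val hxy
    apply Subtype.ext
    apply Subtype.ext
    simpa [g] using this
  have h5 : finrank F (U.map f) ≤ finrank F W := Submodule.finrank_mono h
  rw [h3] at h2
  rw [Module.finrank_pi] at h1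
  have h6 : A.rank = finrank F (LinearMap.range f) := rfl
  omega

theorem exists_minor_of_le_rank (A : Matrix ι ι F) (r : ℕ) (h : r ≤ A.rank) :
    ∃ (P : Matrix (Fin r) ι F) (Q : Matrix ι (Fin r) F), (P * A * Q).det ≠ 0 := by
  classical
  obtain ⟨w, hw⟩ := exists_linearIndependent_of_le_finrank (R := F)
    (M := LinearMap.range A.mulVecLin) h
  have hx : ∀ i, ∃ x : ι → F, A *ᵥ x = (w i : ι → F) := by
    intro i
    obtain ⟨x, hx⟩ := (w i).2
    exact ⟨x, hx⟩
  choose x hx using hx
  let Q : Matrix ι (Fin r) F := Matrix.of fun a i => x i a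
  have hAQ : ∀ y : Fin r → F, (A * Q) *ᵥ y = ∑ i, y i • (w i : ι → F) := by
    intro y
    rw [← Matrix.mulVec_mulVec]
    have : Q *ᵥ y = ∑ i, y i • x i := by
      funext a
      simp [Q, mulVec, dotProduct, mul_comm]
    rw [this, Matrix.mulVec_sum]
    refine Finset.sum_congr rfl fun i _ => ?_
    rw [mulVec_smul, hx]
  have hinj : Function.Injective (A * Q).mulVecLin := by
    rw [injective_iff_map_eq_zero]
    intro y hy
    rw [Matrix.mulVecLin_apply, hAQ] at hy
    have hli : LinearIndependent F (fun i => (w i : ι → F)) :=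
      hw.map' (LinearMap.range A.mulVecLin).subtype (Submodule.ker_subtype _)
    funext i
    exact Fintype.linearIndependent_iff.mp hli y hy i
  obtain ⟨g, hg⟩ := (A * Q).mulVecLin.exists_leftInverse_of_injective
    (LinearMap.ker_eq_bot.mpr hinj)
  refine ⟨LinearMap.toMatrix' g, Q, ?_⟩
  have : LinearMap.toMatrix' g * A * Q = 1 := by
    rw [Matrix.mul_assoc]
    have h1 : LinearMap.toMatrix' g * (A * Q) =
        LinearMap.toMatrix' (g ∘ₗ (A * Q).mulVecLin) := by
      rw [LinearMap.toMatrix'_comp]
      congr 1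
      exact (LinearMap.toMatrix'_toLin' (A * Q)).symm
    rw [h1, hg, LinearMap.toMatrix'_id]
  rw [this, Matrix.det_one]
  exact one_ne_zero

theorem le_rank_of_minor (A : Matrix ι ι F) (r : ℕ) (P : Matrix (Fin r) ι F)
    (Q : Matrix ι (Fin r) F) (h : (P * A * Q).det ≠ 0) : r ≤ A.rank := by
  classical
  have h1 : (P * A * Q).rank = r := by
    rw [Matrix.rank_of_det_ne_zero h, Fintype.card_fin]
  calc r = (P * A * Q).rank := h1.symm
    _ ≤ (P * A).rank := Matrix.rank_mul_le_left _ _
    _ ≤ A.rank := Matrix.rank_mul_le_right _ _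

omit [Fintype κ] in
theorem totalDegree_det_le (r : ℕ) (M : Matrix (Fin r) (Fin r) (MvPolynomial κ F))
    (hM : ∀ i j, (M i j).totalDegree ≤ 1) : M.det.totalDegree ≤ r := by
  rw [Matrix.det_apply]
  refine totalDegree_finsetSum_le fun σ _ => ?_
  have h2 : (∏ i, M (σ i) i).totalDegree ≤ r := by
    refine (totalDegree_finsetProd _ _).trans ?_
    calc ∑ i, (M (σ i) i).totalDegree ≤ ∑ _i : Fin r, 1 := Finset.sum_le_sum fun i _ => hM _ _
      _ = r := by simp
  rcases Int.units_eq_one_or (Equiv.Perm.sign σ) with h | h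
  · rw [h, one_smul]; exact h2
  · rw [h, Units.neg_smul, one_smul, totalDegree_neg]; exact h2

omit [Fintype ι] in
/-- the value of the symbolic matrix at a point -/
theorem eval_symb (B₀ : Matrix ι ι F) (B : κ → Matrix ι ι F) (c : κ → F) :
    (symb B₀ B).map (eval c) = B₀ + ∑ k, c k • B k := by
  ext i j
  simp [symb, Matrix.sum_apply, Matrix.smul_apply]

/-- If the value at one point has rank at least `r`, then so has the value at a point of the grid
`{0, …, N}^κ`, `N ≥ r`. -/
theorem exists_grid_point [CharZero F] (B₀ : Matrix ι ι F) (B : κ → Matrix ι ι F)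
    (r N : ℕ) (hrN : r ≤ N) (c : κ → F) (h : r ≤ (B₀ + ∑ k, c k • B k).rank) :
    ∃ c' : κ → ℕ, (∀ k, c' k ≤ N) ∧ r ≤ (B₀ + ∑ k, (c' k : F) • B k).rank := by
  classical
  obtain ⟨P, Q, hPQ⟩ := exists_minor_of_le_rank _ r h
  let PC : Matrix (Fin r) ι (MvPolynomial κ F) := P.map C
  let QC : Matrix ι (Fin r) (MvPolynomial κ F) := Q.map C
  let M : Matrix (Fin r) (Fin r) (MvPolynomial κ F) := PC * symb B₀ B * QC
  have hev : ∀ d : κ → F, eval d M.det = (P * (B₀ + ∑ k, d k • B k) * Q).det := by
    intro d
    rw [RingHom.map_det]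
    congr 1
    rw [RingHom.mapMatrix_apply, Matrix.map_mul, Matrix.map_mul, eval_symb]
    congr 2
    · ext i j; simp [PC]
    · ext i j; simp [QC]
  have hMne : M.det ≠ 0 := by
    intro h0
    apply hPQ
    rw [← hev c, h0, map_zero]
  have hsymb : ∀ i j, (symb B₀ B i j).totalDegree ≤ 1 := by
    intro i j
    have : symb B₀ B i j = C (B₀ i j) + ∑ k, X k * C (B k i j) := by
      simp [symb, Matrix.sum_apply, Matrix.smul_apply]
    rw [this]
    refine (totalDegree_add _ _).trans (max_le (by simp) ?_)
    refine totalDegree_finsetSum_le fun k _ => ?_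
    refine (totalDegree_mul _ _).trans ?_
    simp
  have hdeg : M.det.totalDegree ≤ r := by
    apply totalDegree_det_le
    intro i j
    simp only [M, Matrix.mul_apply]
    refine totalDegree_finsetSum_le fun b _ => ?_
    refine (totalDegree_mul _ _).trans ?_
    have h1 : (QC b j).totalDegree = 0 := by simp [QC]
    rw [h1, add_zero]
    refine totalDegree_finsetSum_le fun a _ => ?_
    refine (totalDegree_mul _ _).trans ?_
    have h2 : (PC i a).totalDegree = 0 := by simp [PC]
    rw [h2, zero_add]
    exact hsymb a b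
  by_contra hcon
  push Not at hcon
  apply hMne
  have hinj : Function.Injective (Nat.cast : ℕ → F) := Nat.cast_injective
  refine eq_zero_of_eval_zero_at_prod_finset M.det
    (fun _ => (Finset.range (N + 1)).image (Nat.cast : ℕ → F)) ?_ ?_
  · intro i
    rw [Finset.card_image_of_injective _ hinj, Finset.card_range]
    have := degreeOf_le_totalDegree M.det i
    omega
  · intro x hx
    have hx' : ∀ k, ∃ a : ℕ, a ≤ N ∧ (a : F) = x k := by
      intro k
      obtain ⟨a, ha, hax⟩ := Finset.mem_image.mp (hx k)
      exact ⟨a, by simpa [Nat.lt_succ_iff] using ha, hax⟩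
    choose a ha hax using hx'
    have h1 := hcon a ha
    have h2 : (fun k => ((a k : ℕ) : F)) = x := funext hax
    by_contra hne
    rw [hev] at hne
    have h3 := le_rank_of_minor _ r P Q hne
    have h4 : (B₀ + ∑ k, x k • B k) = B₀ + ∑ k, (a k : F) • B k := by
      rw [← h2]
    rw [h4] at h3
    omega

end Pool.Agent.Lib.MP_64d474_lc
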