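import Mathlib
import Pool.Agent.Lib.MP_64d474_lc.SymCore

/-!
Expansion of symbolic determinants and leading forms with respect to weights.
-/

open Matrix MvPolynomial

set_option linter.unusedSectionVars false

namespace Pool.Agent.Lib.MP_64d474_lc

section

variable {F : Type*} [Field F] {ι κ : Type*} [Fintype ι] [DecidableEq ι] [Fintype κ]
  [DecidableEq κ]

/-- exponent of the `o`-th symbol (`none` is the constant matrix) -/
noncomputable def oexp (o : Option κ) : κ →₀ ℕ := o.elim 0 (fun k => Finsupp.single k 1)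

/-- the `o`-th coefficient matrix -/
def omat (M₀ : Matrix ι ι F) (M : κ → Matrix ι ι F) (o : Option κ) : Matrix ι ι F := o.elim M₀ M

omit [Fintype ι] [DecidableEq ι] in
theorem symb_apply_option (M₀ : Matrix ι ι F) (M : κ → Matrix ι ι F) (i j : ι) :
    symb M₀ M i j = ∑ o : Option κ, monomial (oexp o) (omat M₀ M o i j) := by
  rw [Fintype.sum_option, symb, Matrix.add_apply, Matrix.sum_apply]
  congr 1
  refine Finset.sum_congr rfl fun k _ => ?_
  rw [Matrix.smul_apply, smul_eq_mul, Matrix.map_apply]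
  show X k * C (M k i j) = monomial (Finsupp.single k 1) (M k i j)
  rw [mul_comm, C_mul_X_eq_monomial]

/-- one term of the expansion of the determinant -/
noncomputable def dterm (M₀ : Matrix ι ι F) (M : κ → Matrix ι ι F) (σ : Equiv.Perm ι)
    (φ : ι → Option κ) : F :=
  ((Equiv.Perm.sign σ : ℤ) : F) * ∏ i, omat M₀ M (φ i) (σ i) i

theorem det_symb_expand (M₀ : Matrix ι ι F) (M : κ → Matrix ι ι F) :
    (symb M₀ M).det = ∑ σ : Equiv.Perm ι, ∑ φ : ι → Option κ,
      monomial (∑ i, oexp (φ i)) (dterm M₀ M σ φ) := by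
  rw [Matrix.det_apply]
  refine Finset.sum_congr rfl fun σ _ => ?_
  simp only [symb_apply_option]
  rw [Finset.prod_univ_sum, Fintype.piFinset_univ, Finset.smul_sum]
  refine Finset.sum_congr rfl fun φ _ => ?_
  rw [dterm]
  have h1 : ∏ i, monomial (oexp (φ i)) (omat M₀ M (φ i) (σ i) i) =
      monomial (∑ i, oexp (φ i)) (∏ i, omat M₀ M (φ i) (σ i) i) :=
    (MvPolynomial.monomial_sum_index _ _ _ |>.trans (by
      rw [map_prod, ← Finset.prod_mul_distrib]
      refine Finset.prod_congr rfl fun i _ => ?_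
      rw [C_mul_monomial, mul_one])).symm
  rw [h1, Units.smul_def, zsmul_eq_mul]
  rw [← MvPolynomial.C_mul_monomial]
  congr 1

theorem coeff_det_symb (M₀ : Matrix ι ι F) (M : κ → Matrix ι ι F) (d : κ →₀ ℕ) :
    coeff d (symb M₀ M).det = ∑ σ : Equiv.Perm ι, ∑ φ : ι → Option κ,
      if ∑ i, oexp (φ i) = d then dterm M₀ M σ φ else 0 := by
  rw [det_symb_expand, coeff_sum]
  refine Finset.sum_congr rfl fun σ _ => ?_
  rw [coeff_sum]
  refine Finset.sum_congr rfl fun φ _ => ?_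
  rw [coeff_monomial]

/-- weight of an exponent vector -/
def wt (h : κ → ℤ) (d : κ →₀ ℕ) : ℤ := ∑ k, h k * (d k : ℤ)

theorem wt_add (h : κ → ℤ) (d e : κ →₀ ℕ) : wt h (d + e) = wt h d + wt h e := by
  rw [wt, wt, wt, ← Finset.sum_add_distrib]
  refine Finset.sum_congr rfl fun k _ => ?_
  rw [Finsupp.add_apply]
  push_cast
  ring

theorem wt_zero (h : κ → ℤ) : wt h 0 = 0 := by
  rw [wt]
  refine Finset.sum_eq_zero fun k _ => ?_
  simp

theorem wt_sum {α : Type*} (s : Finset α) (h : κ → ℤ) (f : α → κ →₀ ℕ) :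
    wt h (∑ i ∈ s, f i) = ∑ i ∈ s, wt h (f i) := by
  classical
  induction s using Finset.induction_on with
  | empty => rw [Finset.sum_empty, Finset.sum_empty, wt_zero]
  | insert a s ha ih => rw [Finset.sum_insert ha, Finset.sum_insert ha, wt_add, ih]

theorem wt_oexp (h : κ → ℤ) (o : Option κ) : wt h (oexp o) = o.elim 0 h := by
  classical
  cases o with
  | none => exact wt_zero h
  | some k =>
    rw [wt]
    show ∑ k', h k' * ((Finsupp.single k 1 : κ →₀ ℕ) k' : ℤ) = h k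
    rw [Finset.sum_eq_single k]
    · simp
    · intro b _ hb
      rw [Finsupp.single_eq_of_ne hb]
      simp
    · simp

/-- leading part of a matrix family with respect to weights -/
noncomputable def lead (h : ℤ) (θ : ι → ℤ) (M : Matrix ι ι F) : Matrix ι ι F :=
  fun i j => if h + θ i + θ j = 0 then M i j else 0

theorem lead_expand (M₀ : Matrix ι ι F) (M : κ → Matrix ι ι F) (h : κ → ℤ) (θ : ι → ℤ)
    (h0 : ∀ i j, M₀ i j ≠ 0 → 0 ≤ θ i + θ j)
    (h1 : ∀ k i j, M k i j ≠ 0 → 0 ≤ h k + θ i + θ j) (σ : Equiv.Perm ι) (φ : ι → Option κ) :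
    (dterm M₀ M σ φ ≠ 0 → 0 ≤ wt h (∑ i, oexp (φ i)) + 2 * ∑ i, θ i) ∧
    dterm (lead 0 θ M₀) (fun k => lead (h k) θ (M k)) σ φ =
      if wt h (∑ i, oexp (φ i)) + 2 * ∑ i, θ i = 0 then dterm M₀ M σ φ else 0 := by
  have hS : wt h (∑ i, oexp (φ i)) + 2 * ∑ i, θ i =
      ∑ i, ((φ i).elim 0 h + θ (σ i) + θ i) := by
    rw [wt_sum, Finset.sum_add_distrib, Finset.sum_add_distrib, Equiv.sum_comp σ θ]
    simp only [wt_oexp]
    ring
  have hle : ∀ i, omat M₀ M (φ i) (σ i) i ≠ 0 → 0 ≤ (φ i).elim 0 h + θ (σ i) + θ i := by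
    intro i hi
    cases ho : φ i with
    | none =>
      rw [ho] at hi
      have := h0 _ _ hi
      simp only [Option.elim_none]
      omega
    | some k =>
      rw [ho] at hi
      exact h1 k _ _ hi
  have homat : ∀ i, omat (lead 0 θ M₀) (fun k => lead (h k) θ (M k)) (φ i) (σ i) i =
      if (φ i).elim 0 h + θ (σ i) + θ i = 0 then omat M₀ M (φ i) (σ i) i else 0 := by
    intro i
    cases ho : φ i with
    | none => rfl
    | some k => rfl
  rw [hS]
  by_cases hz : ∀ i, omat M₀ M (φ i) (σ i) i ≠ 0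
  · have hnn : ∀ i ∈ Finset.univ, 0 ≤ (φ i).elim 0 h + θ (σ i) + θ i := fun i _ => hle i (hz i)
    refine ⟨fun _ => Finset.sum_nonneg hnn, ?_⟩
    by_cases hs : ∑ i, ((φ i).elim 0 h + θ (σ i) + θ i) = 0
    · rw [if_pos hs, dterm, dterm]
      congr 1
      refine Finset.prod_congr rfl fun i _ => ?_
      rw [homat, if_pos ((Finset.sum_eq_zero_iff_of_nonneg hnn).mp hs i (Finset.mem_univ i))]
    · rw [if_neg hs, dterm]
      have : ∃ i, (φ i).elim 0 h + θ (σ i) + θ i ≠ 0 := by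
        by_contra hcon
        push Not at hcon
        exact hs (Finset.sum_eq_zero fun i _ => hcon i)
      obtain ⟨i, hi⟩ := this
      rw [Finset.prod_eq_zero (Finset.mem_univ i), mul_zero]
      rw [homat, if_neg hi]
  · push Not at hz
    obtain ⟨i, hi⟩ := hz
    have hd : dterm M₀ M σ φ = 0 := by
      have : ∏ i, omat M₀ M (φ i) (σ i) i = 0 := Finset.prod_eq_zero (Finset.mem_univ i) hi
      rw [dterm, this, mul_zero]
    refine ⟨fun hne => absurd hd hne, ?_⟩
    have hd' : dterm (lead 0 θ M₀) (fun k => lead (h k) θ (M k)) σ φ = 0 := by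
      rw [dterm, Finset.prod_eq_zero (Finset.mem_univ i), mul_zero]
      rw [homat, hi, ite_self]
    rw [hd', hd, ite_self]

/-- The leading form of a symbolic determinant. -/
theorem coeff_lead (M₀ : Matrix ι ι F) (M : κ → Matrix ι ι F) (h : κ → ℤ) (θ : ι → ℤ)
    (h0 : ∀ i j, M₀ i j ≠ 0 → 0 ≤ θ i + θ j)
    (h1 : ∀ k i j, M k i j ≠ 0 → 0 ≤ h k + θ i + θ j) (d : κ →₀ ℕ) :
    coeff d (symb (lead 0 θ M₀) (fun k => lead (h k) θ (M k))).det =
      if wt h d + 2 * ∑ i, θ i = 0 then coeff d (symb M₀ M).det else 0 := by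
  rw [coeff_det_symb, coeff_det_symb]
  split_ifs with hd
  · refine Finset.sum_congr rfl fun σ _ => Finset.sum_congr rfl fun φ _ => ?_
    split_ifs with hφ
    · rw [(lead_expand M₀ M h θ h0 h1 σ φ).2, hφ, if_pos hd]
    · rfl
  · refine Finset.sum_eq_zero fun σ _ => Finset.sum_eq_zero fun φ _ => ?_
    split_ifs with hφ
    · rw [(lead_expand M₀ M h θ h0 h1 σ φ).2, hφ, if_neg hd]
    · rfl

theorem coeff_nonneg_wt (M₀ : Matrix ι ι F) (M : κ → Matrix ι ι F) (h : κ → ℤ) (θ : ι → ℤ)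
    (h0 : ∀ i j, M₀ i j ≠ 0 → 0 ≤ θ i + θ j)
    (h1 : ∀ k i j, M k i j ≠ 0 → 0 ≤ h k + θ i + θ j) (d : κ →₀ ℕ)
    (hd : coeff d (symb M₀ M).det ≠ 0) : 0 ≤ wt h d + 2 * ∑ i, θ i := by
  rw [coeff_det_symb] at hd
  obtain ⟨σ, _, hσ⟩ := Finset.exists_ne_zero_of_sum_ne_zero hd
  obtain ⟨φ, _, hφ⟩ := Finset.exists_ne_zero_of_sum_ne_zero hσ
  split_ifs at hφ with he
  · have := (lead_expand M₀ M h θ h0 h1 σ φ).1 hφ
    rwa [he] at this
  · exact absurd rfl hφ

/-- Homogeneity. -/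
theorem coeff_homog (M₀ : Matrix ι ι F) (M : κ → Matrix ι ι F) (h : κ → ℤ) (θ : ι → ℤ)
    (h0 : ∀ i j, M₀ i j ≠ 0 → θ i + θ j = 0)
    (h1 : ∀ k i j, M k i j ≠ 0 → h k + θ i + θ j = 0) (d : κ →₀ ℕ)
    (hd : coeff d (symb M₀ M).det ≠ 0) : wt h d + 2 * ∑ i, θ i = 0 := by
  have e1 := coeff_nonneg_wt M₀ M h θ (fun i j hij => (h0 i j hij).ge)
    (fun k i j hij => (h1 k i j hij).ge) d hd
  have e2 := coeff_nonneg_wt M₀ M (fun k => - h k) (fun i => - θ i)
    (fun i j hij => by have := h0 i j hij; show 0 ≤ -θ i + -θ j; omega)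
    (fun k i j hij => by have := h1 k i j hij; show 0 ≤ - h k + -θ i + -θ j; omega) d hd
  have e3 : wt (fun k => - h k) d = - wt h d := by
    rw [wt, wt, ← Finset.sum_neg_distrib]
    exact Finset.sum_congr rfl fun k _ => by ring
  rw [e3, Finset.sum_neg_distrib] at e2
  omega

/-- A symbol whose matrix vanishes does not occur. -/
theorem coeff_dead (M₀ : Matrix ι ι F) (M : κ → Matrix ι ι F) (k : κ) (hk : M k = 0) (d : κ →₀ ℕ)
    (hd : coeff d (symb M₀ M).det ≠ 0) : d k = 0 := by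
  classical
  have h := coeff_homog M₀ M (fun k' => if k' = k then 1 else 0) (fun _ => 0)
    (fun i j _ => by simp) (fun k' i j hij => by
      have : k' ≠ k := by
        rintro rfl
        rw [hk] at hij
        exact hij rfl
      simp [this]) d hd
  rw [wt] at h
  simp only [ite_mul, one_mul, zero_mul, Finset.sum_ite_eq', Finset.mem_univ, if_true,
    Finset.sum_const_zero, mul_zero, add_zero] at h
  exact_mod_cast h

/-- Total degree bound. -/
theorem coeff_degree (M₀ : Matrix ι ι F) (M : κ → Matrix ι ι F) (d : κ →₀ ℕ)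
    (hd : coeff d (symb M₀ M).det ≠ 0) : ∑ k, d k ≤ Fintype.card ι := by
  have h := coeff_nonneg_wt M₀ M (fun _ => -2) (fun _ => 1) (fun i j _ => by norm_num)
    (fun k i j _ => by norm_num) d hd
  rw [wt] at h
  simp only [Finset.sum_const, Finset.card_univ, nsmul_eq_mul, mul_one] at h
  rw [← Finset.mul_sum] at h
  have : (∑ k, (d k : ℤ)) ≤ Fintype.card ι := by linarith
  exact_mod_cast this

end

end Pool.Agent.Lib.MP_64d474_lc
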