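import Mathlib

/-!
Bases adapted to two nested graded subspaces.
-/

open Matrix Module

set_option linter.unusedSectionVars false

namespace Pool.Agent.Lib.MP_64d474_lc

section

variable {F : Type*} [Field F]

theorem exists_adapted {E : Type*} [AddCommGroup E] [Module F E] [FiniteDimensional F E]
    (V W Y : Submodule F E) (hWY : W ≤ Y) (hYV : Y ≤ V) {I : Type*} [Fintype I]
    (hI : Fintype.card I = finrank F V) :
    ∃ b : I → E, LinearIndependent F b ∧ Submodule.span F (Set.range b) = V ∧
      ∃ CW CY : Finset I, (∀ i ∈ CW, b i ∈ W) ∧ (∀ i ∈ CY, b i ∈ Y) ∧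
        CW.card = finrank F W ∧ CY.card = finrank F Y := by
  classical
  obtain ⟨s, hsW, -, hs1, hs2⟩ := exists_linearIndepOn_id_extension (K := F)
    (linearIndependent_empty F E) (Set.empty_subset (W : Set E))
  obtain ⟨t, htY, hst, ht1, ht2⟩ := exists_linearIndepOn_id_extension (K := F) hs2
    (hsW.trans (fun x hx => hWY hx : (W : Set E) ⊆ Y))
  obtain ⟨u, huV, htu, hu1, hu2⟩ := exists_linearIndepOn_id_extension (K := F) ht2
    (htY.trans (fun x hx => hYV hx : (Y : Set E) ⊆ V))
  have hsp : ∀ (a : Set E) (P : Submodule F E), a ⊆ P → (P : Set E) ⊆ Submodule.span F a →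
      Submodule.span F a = P := fun a P h1 h2 => le_antisymm (Submodule.span_le.mpr h1) h2
  have hfs : ∀ (a : Set E), LinearIndepOn F id a → a.Finite := fun a ha =>
    LinearIndependent.setFinite ha
  haveI := (hfs s hs2).fintype
  haveI := (hfs t ht2).fintype
  haveI := (hfs u hu2).fintype
  have cs : Fintype.card s = finrank F W := by
    rw [← hsp s W hsW hs1, finrank_span_set_eq_card hs2, Set.toFinset_card]
  have ct : Fintype.card t = finrank F Y := by
    rw [← hsp t Y htY ht1, finrank_span_set_eq_card ht2, Set.toFinset_card]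
  have cu : Fintype.card u = finrank F V := by
    rw [← hsp u V huV hu1, finrank_span_set_eq_card hu2, Set.toFinset_card]
  have e : I ≃ u := Fintype.equivOfCardEq (hI.trans cu.symm)
  have hcard : ∀ (a : Set E) [Fintype a], a ⊆ u →
      (Finset.univ.filter fun i => ((e i : u) : E) ∈ a).card = Fintype.card a := by
    intro a _ hau
    rw [← Set.toFinset_card]
    refine Finset.card_bij (fun i _ => ((e i : u) : E)) ?_ ?_ ?_
    · intro i hi
      rw [Set.mem_toFinset]
      exact (Finset.mem_filter.mp hi).2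
    · intro i _ j _ hij
      exact e.injective (Subtype.ext hij)
    · intro x hx
      rw [Set.mem_toFinset] at hx
      refine ⟨e.symm ⟨x, hau hx⟩, ?_, ?_⟩
      · rw [Finset.mem_filter]
        refine ⟨Finset.mem_univ _, ?_⟩
        rw [Equiv.apply_symm_apply]
        exact hx
      · rw [Equiv.apply_symm_apply]
  refine ⟨fun i => (e i : E), ?_, ?_, Finset.univ.filter fun i => ((e i : u) : E) ∈ s,
    Finset.univ.filter fun i => ((e i : u) : E) ∈ t, ?_, ?_, ?_, ?_⟩
  · exact LinearIndependent.comp (v := fun x : u => (x : E)) hu2 e e.injective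
  · rw [← hsp u V huV hu1]
    congr 1
    ext x
    constructor
    · rintro ⟨i, rfl⟩
      exact (e i).2
    · intro hx
      exact ⟨e.symm ⟨x, hx⟩, by simp⟩
  · intro i hi
    exact hsW (Finset.mem_filter.mp hi).2
  · intro i hi
    exact htY (Finset.mem_filter.mp hi).2
  · rw [hcard s (hst.trans htu), cs]
  · rw [hcard t htu, ct]

variable {ι Γ : Type*} [Fintype ι] [DecidableEq ι] [DecidableEq Γ]

/-- projection to a block -/
def blk (γ : ι → Γ) (g : Γ) (x : ι → F) : ι → F := fun c => if γ c = g then x c else 0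

/-- a subspace stable under all projections to blocks -/
def Graded (γ : ι → Γ) (W : Submodule F (ι → F)) : Prop := ∀ g, ∀ x ∈ W, blk γ g x ∈ W

/-- vectors supported on a block -/
def bsp (F : Type*) [Field F] (γ : ι → Γ) (g : Γ) : Submodule F (ι → F) where
  carrier := {x | ∀ c, γ c ≠ g → x c = 0}
  add_mem' := fun {a b} ha hb c hc => by rw [Pi.add_apply, ha c hc, hb c hc, add_zero]
  zero_mem' := fun _ _ => rfl
  smul_mem' := fun t {a} ha c hc => by rw [Pi.smul_apply, ha c hc, smul_zero]

theorem blk_mem_bsp (γ : ι → Γ) (g : Γ) (x : ι → F) : blk γ g x ∈ bsp F γ g := by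
  intro c hc
  rw [blk, if_neg hc]

theorem sum_blk (γ : ι → Γ) (x : ι → F) : ∑ g ∈ Finset.univ.image γ, blk γ g x = x := by
  funext c
  rw [Finset.sum_apply]
  simp only [blk]
  rw [Finset.sum_ite_eq, if_pos (Finset.mem_image_of_mem γ (Finset.mem_univ c))]

theorem finrank_bsp (γ : ι → Γ) (g : Γ) :
    finrank F (bsp F γ g) = Fintype.card {c // γ c = g} := by
  let e : bsp F γ g ≃ₗ[F] ({c // γ c = g} → F) :=
    { toFun := fun x i => x.1 i.1
      map_add' := fun x y => rfl
      map_smul' := fun t x => rfl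
      invFun := fun y => ⟨fun c => if h : γ c = g then y ⟨c, h⟩ else 0, fun c hc => by
        show (if h : γ c = g then y ⟨c, h⟩ else 0) = 0
        rw [dif_neg hc]⟩
      left_inv := fun x => by
        apply Subtype.ext
        funext c
        show (if h : γ c = g then x.1 c else 0) = x.1 c
        split_ifs with h
        · rfl
        · exact (x.2 c h).symm
      right_inv := fun y => by
        funext i
        show (if h : γ i.1 = g then y ⟨i.1, h⟩ else 0) = y i
        rw [dif_pos i.2] }
  rw [e.finrank_eq, finrank_fintype_fun_eq_card]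

theorem finrank_sup_le {α : Type*} (s : Finset α) (f : α → Submodule F (ι → F)) :
    finrank F (s.sup f : Submodule F (ι → F)) ≤ ∑ a ∈ s, finrank F (f a) := by
  classical
  induction s using Finset.induction_on with
  | empty => rw [Finset.sup_empty, finrank_bot, Finset.sum_empty]
  | insert a s ha ih =>
    rw [Finset.sup_insert, Finset.sum_insert ha]
    exact (Submodule.finrank_add_le_finrank_add_finrank _ _).trans (Nat.add_le_add_left ih _)

theorem Graded.finrank_le {γ : ι → Γ} {W : Submodule F (ι → F)} (h : Graded γ W) :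
    finrank F W ≤ ∑ g ∈ Finset.univ.image γ, finrank F (W ⊓ bsp F γ g : Submodule F (ι → F)) := by
  refine le_trans (Submodule.finrank_mono ?_) (finrank_sup_le _ _)
  intro x hx
  rw [← sum_blk γ x]
  refine Submodule.sum_mem _ fun g hg => ?_
  have h1 : (W ⊓ bsp F γ g : Submodule F (ι → F)) ≤
      (Finset.univ.image γ).sup fun g => W ⊓ bsp F γ g :=
    Finset.le_sup (f := fun g => W ⊓ bsp F γ g) hg
  exact h1 ⟨h g x hx, blk_mem_bsp γ g x⟩

/-- A block diagonal basis adapted to two nested graded subspaces. -/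
theorem exists_graded_basis (γ : ι → Γ) (W Y : Submodule F (ι → F)) (hWY : W ≤ Y)
    (hW : Graded γ W) (hY : Graded γ Y) :
    ∃ T : Matrix ι ι F, T.det ≠ 0 ∧ (∀ c d, T c d ≠ 0 → γ c = γ d) ∧
      ∃ CW CY : Finset ι, (∀ c ∈ CW, T c ∈ W) ∧ (∀ c ∈ CY, T c ∈ Y) ∧
        finrank F W ≤ CW.card ∧ finrank F Y ≤ CY.card := by
  classical
  choose b hb1 hb2 CW CY hCW hCY hcW hcY using fun g : Γ =>
    exists_adapted (F := F) (bsp F γ g) (W ⊓ bsp F γ g) (Y ⊓ bsp F γ g)
      (inf_le_inf_right _ hWY) inf_le_right (I := {c // γ c = g}) (finrank_bsp γ g).symm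
  let T : Matrix ι ι F := fun c => b (γ c) ⟨c, rfl⟩
  have hcard : ∀ (C : (g : Γ) → Finset {c // γ c = g}),
      (Finset.univ.filter fun c => (⟨c, rfl⟩ : {d // γ d = γ c}) ∈ C (γ c)).card =
        ∑ g ∈ Finset.univ.image γ, (C g).card := by
    intro C
    rw [Finset.card_eq_sum_card_fiberwise (f := γ) (t := Finset.univ.image γ)
      (fun c _ => Finset.mem_image_of_mem γ (Finset.mem_univ c))]
    refine Finset.sum_congr rfl fun g _ => ?_
    rw [← Finset.card_map (Function.Embedding.subtype fun c => γ c = g)]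
    congr 1
    ext c
    simp only [Finset.mem_filter, Finset.mem_univ, true_and, Finset.mem_map,
      Function.Embedding.subtype_apply, Subtype.exists, exists_and_right, exists_eq_right]
    constructor
    · rintro ⟨h1, rfl⟩
      exact ⟨rfl, h1⟩
    · rintro ⟨rfl, h1⟩
      exact ⟨h1, rfl⟩
  refine ⟨T, ?_, ?_, Finset.univ.filter fun c => (⟨c, rfl⟩ : {d // γ d = γ c}) ∈ CW (γ c),
    Finset.univ.filter fun c => (⟨c, rfl⟩ : {d // γ d = γ c}) ∈ CY (γ c), ?_, ?_, ?_, ?_⟩
  · intro h0
    obtain ⟨x, hx0, hx⟩ := Matrix.exists_mulVec_eq_zero_iff.mpr h0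
    apply hx0
    funext c
    have hmem : (Pi.single c 1 : ι → F) ∈ bsp F γ (γ c) := by
      intro d hd
      rw [Pi.single_apply, if_neg]
      rintro rfl
      exact hd rfl
    rw [← hb2] at hmem
    have hall : ∀ y ∈ Submodule.span F (Set.range (b (γ c))), y ⬝ᵥ x = 0 := by
      intro y hy
      induction hy using Submodule.span_induction with
      | mem y hy =>
        obtain ⟨⟨d, hd⟩, rfl⟩ := hy
        have h1 := congrFun hx d
        have h2 : b (γ d) ⟨d, rfl⟩ = b (γ c) ⟨d, hd⟩ := by
          have : ∀ (g : Γ) (hg : γ d = g), b (γ d) ⟨d, rfl⟩ = b g ⟨d, hg⟩ := by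
            rintro g rfl
            rfl
          exact this _ hd
        rw [← h2]
        exact h1
      | zero => rw [zero_dotProduct]
      | add y z _ _ h1 h2 => rw [add_dotProduct, h1, h2, add_zero]
      | smul a y _ h1 => rw [smul_dotProduct, h1, smul_zero]
    have := hall _ hmem
    rwa [single_dotProduct, one_mul] at this
  · intro c d hcd
    by_contra hne
    apply hcd
    have hmem : T c ∈ bsp F γ (γ c) := by
      rw [← hb2]
      exact Submodule.subset_span ⟨⟨c, rfl⟩, rfl⟩
    exact hmem d (fun h => hne h.symm)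
  · intro c hc
    exact (hCW _ _ (Finset.mem_filter.mp hc).2).1
  · intro c hc
    exact (hCY _ _ (Finset.mem_filter.mp hc).2).1
  · rw [hcard CW]
    refine hW.finrank_le.trans (le_of_eq ?_)
    exact Finset.sum_congr rfl fun g _ => (hcW g).symm
  · rw [hcard CY]
    refine hY.finrank_le.trans (le_of_eq ?_)
    exact Finset.sum_congr rfl fun g _ => (hcY g).symm

end

end Pool.Agent.Lib.MP_64d474_lc
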