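import Mathlib
import Pool.Agent.Lib.MP_64d474_lc.SymMain
import Pool.Agent.Lib.MP_64d474_lc.QnBasis

/-!
Kernels of symbolic matrices with symmetric coefficient matrices of rank at most two.
-/

open Matrix Module MvPolynomial

set_option linter.unusedSectionVars false

namespace Pool.Agent.Lib.MP_64d474_lc

section

variable {F : Type*} [Field F] {ι κ : Type*} [Fintype ι] [DecidableEq ι] [Fintype κ]
  [DecidableEq κ]

/-- the symmetric matrix `u vᵀ + v uᵀ` -/
def hyp {R : Type*} [CommRing R] (u v : ι → R) : Matrix ι ι R :=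
  fun i j => u i * v j + v i * u j

theorem hyp_symm {R : Type*} [CommRing R] (u v : ι → R) : (hyp u v).IsSymm := by
  ext i j
  rw [Matrix.transpose_apply, hyp, hyp]
  ring

theorem hyp_mulVec {R : Type*} [CommRing R] (u v x : ι → R) :
    hyp u v *ᵥ x = (v ⬝ᵥ x) • u + (u ⬝ᵥ x) • v := by
  funext i
  rw [Pi.add_apply, Pi.smul_apply, Pi.smul_apply, smul_eq_mul, smul_eq_mul]
  simp only [mulVec, dotProduct, hyp, Finset.sum_mul]
  rw [← Finset.sum_add_distrib]
  exact Finset.sum_congr rfl fun j _ => by ring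

theorem dot_hyp {R : Type*} [CommRing R] (u v x y : ι → R) :
    x ⬝ᵥ hyp u v *ᵥ y = (u ⬝ᵥ x) * (v ⬝ᵥ y) + (v ⬝ᵥ x) * (u ⬝ᵥ y) := by
  rw [hyp_mulVec, dotProduct_add, dotProduct_smul, dotProduct_smul, smul_eq_mul, smul_eq_mul,
    dotProduct_comm x u, dotProduct_comm x v]
  ring

theorem hyp_map (u v : ι → F) :
    (hyp u v).map (C : F → MvPolynomial κ F) = hyp (fun i => C (u i)) (fun i => C (v i)) := by
  ext1 i j
  rw [Matrix.map_apply, hyp, hyp, map_add, map_mul, map_mul]

theorem hyp_wittLeOne [CharZero F] (u v : ι → F) : WittLeOne (hyp u v) := by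
  intro x y h1 h2 h3 a b
  rw [dot_hyp] at h1 h2 h3
  have h1' : (u ⬝ᵥ x) * (v ⬝ᵥ x) = 0 := by
    have : (2 : F) * ((u ⬝ᵥ x) * (v ⬝ᵥ x)) = 0 := by linear_combination h1
    exact (mul_eq_zero.mp this).resolve_left two_ne_zero
  have h3' : (u ⬝ᵥ y) * (v ⬝ᵥ y) = 0 := by
    have : (2 : F) * ((u ⬝ᵥ y) * (v ⬝ᵥ y)) = 0 := by linear_combination h3
    exact (mul_eq_zero.mp this).resolve_left two_ne_zero
  rw [hyp_mulVec, hyp_mulVec]
  simp only [Pi.add_apply, Pi.smul_apply, smul_eq_mul]
  have key : (v ⬝ᵥ x) * (u ⬝ᵥ y) - (u ⬝ᵥ x) * (v ⬝ᵥ y) = 0 := by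
    rcases mul_eq_zero.mp h1' with h | h
    · rw [h] at h2 ⊢
      rw [zero_mul, zero_add] at h2
      rw [h2]; ring
    · rw [h] at h2 ⊢
      rw [zero_mul, add_zero] at h2
      rw [h2]; ring
  linear_combination (u a * v b - u b * v a) * key

theorem map_C_dot (u : ι → F) (q : ι → MvPolynomial κ F) (c : κ → F) :
    eval c ((fun i => C (u i)) ⬝ᵥ q) = u ⬝ᵥ (fun i => eval c (q i)) := by
  simp [dotProduct]

theorem ker_dichotomy [CharZero F] (B₀ : Matrix ι ι F) (h₀ : B₀.IsSymm) (u v : κ → ι → F)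
    (k : κ) :
    (∀ x ∈ kerSpan B₀ (fun k => hyp (u k) (v k)), u k ⬝ᵥ x = 0) ∨
      (∀ x ∈ kerSpan B₀ (fun k => hyp (u k) (v k)), v k ⬝ᵥ x = 0) := by
  have hall : ∀ y : ι → F, (∀ q : ι → MvPolynomial κ F,
      symb B₀ (fun k => hyp (u k) (v k)) *ᵥ q = 0 → (fun i => C (y i)) ⬝ᵥ q = 0) →
      ∀ x ∈ kerSpan B₀ (fun k => hyp (u k) (v k)), y ⬝ᵥ x = 0 := by
    intro y hy x hx
    induction hx using Submodule.span_induction with
    | mem x hx =>
      obtain ⟨q, hq, c, rfl⟩ := hx
      rw [← map_C_dot, hy q hq, map_zero]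
    | zero => rw [dotProduct_zero]
    | add a b _ _ ha hb => rw [dotProduct_add, ha, hb, add_zero]
    | smul t a _ ha => rw [dotProduct_smul, ha, smul_zero]
  by_contra hcon
  push Not at hcon
  obtain ⟨⟨x, hx, hx'⟩, ⟨y, hy, hy'⟩⟩ := hcon
  obtain ⟨q₁, hq₁, h1⟩ : ∃ q : ι → MvPolynomial κ F,
      symb B₀ (fun k => hyp (u k) (v k)) *ᵥ q = 0 ∧ (fun i => C (u k i)) ⬝ᵥ q ≠ 0 := by
    by_contra h
    push Not at h
    exact hx' (hall _ h x hx)
  obtain ⟨q₂, hq₂, h2⟩ : ∃ q : ι → MvPolynomial κ F,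
      symb B₀ (fun k => hyp (u k) (v k)) *ᵥ q = 0 ∧ (fun i => C (v k i)) ⬝ᵥ q ≠ 0 := by
    by_contra h
    push Not at h
    exact hy' (hall _ h y hy)
  have hB : ∀ k, ((fun k => hyp (u k) (v k)) k).IsSymm := fun k => hyp_symm _ _
  have e11 := ker_iso B₀ (fun k => hyp (u k) (v k)) h₀ hB q₁ q₁ hq₁ hq₁ k
  have e22 := ker_iso B₀ (fun k => hyp (u k) (v k)) h₀ hB q₂ q₂ hq₂ hq₂ k
  have e12 := ker_iso B₀ (fun k => hyp (u k) (v k)) h₀ hB q₁ q₂ hq₁ hq₂ k
  simp only [hyp_map, dot_hyp] at e11 e22 e12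
  have two_ne : (2 : MvPolynomial κ F) ≠ 0 := two_ne_zero
  have g1 : (fun i => C (v k i)) ⬝ᵥ q₁ = 0 := by
    have : (2 : MvPolynomial κ F) * (((fun i => C (u k i)) ⬝ᵥ q₁) *
        ((fun i => C (v k i)) ⬝ᵥ q₁)) = 0 := by linear_combination e11
    exact (mul_eq_zero.mp ((mul_eq_zero.mp this).resolve_left two_ne)).resolve_left h1
  have g2 : (fun i => C (u k i)) ⬝ᵥ q₂ = 0 := by
    have : (2 : MvPolynomial κ F) * (((fun i => C (u k i)) ⬝ᵥ q₂) *
        ((fun i => C (v k i)) ⬝ᵥ q₂)) = 0 := by linear_combination e22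
    exact (mul_eq_zero.mp ((mul_eq_zero.mp this).resolve_left two_ne)).resolve_right h2
  rw [g1, g2, zero_mul, add_zero] at e12
  exact (mul_ne_zero h1 h2) e12

theorem ker_isotropic [CharZero F] (B₀ : Matrix ι ι F) (h₀ : B₀.IsSymm) (u v : κ → ι → F)
    (x y : ι → F) (hx : x ∈ kerSpan B₀ (fun k => hyp (u k) (v k)))
    (hy : y ∈ kerSpan B₀ (fun k => hyp (u k) (v k))) :
    (∀ k, x ⬝ᵥ hyp (u k) (v k) *ᵥ y = 0) ∧ x ⬝ᵥ B₀ *ᵥ y = 0 := by
  have h1 : ∀ y ∈ kerSpan B₀ (fun k => hyp (u k) (v k)), ∀ k,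
      x ⬝ᵥ hyp (u k) (v k) *ᵥ y = 0 := by
    intro y hy k
    rw [dot_hyp]
    rcases ker_dichotomy B₀ h₀ u v k with h | h
    · rw [h x hx, h y hy, zero_mul, mul_zero, add_zero]
    · rw [h x hx, h y hy, zero_mul, mul_zero, add_zero]
  refine ⟨h1 y hy, ?_⟩
  induction hy using Submodule.span_induction with
  | mem y hy =>
    obtain ⟨q, hq, c, rfl⟩ := hy
    have hmem : (fun i => eval c (q i)) ∈ kerSpan B₀ (fun k => hyp (u k) (v k)) :=
      mem_kerSpan _ _ q hq c
    have h2 : B₀ *ᵥ (fun i => eval c (q i)) +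
        ∑ k, c k • (hyp (u k) (v k) *ᵥ (fun i => eval c (q i))) = 0 := by
      funext a
      have := congrArg (eval c) (congrFun hq a)
      rw [symb_mulVec] at this
      simp only [Pi.add_apply, Finset.sum_apply, Pi.smul_apply, smul_eq_mul, map_add, map_sum,
        map_mul, eval_X, eval_mulVec, Pi.zero_apply, map_zero] at this
      simp only [Pi.add_apply, Finset.sum_apply, Pi.smul_apply, smul_eq_mul, Pi.zero_apply]
      exact this
    have h3 := congrArg (fun z => x ⬝ᵥ z) h2
    simp only [dotProduct_add, dotProduct_sum, dotProduct_smul, dotProduct_zero] at h3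
    rw [Finset.sum_eq_zero (fun k _ => by rw [h1 _ hmem k, smul_zero]), add_zero] at h3
    exact h3
  | zero => rw [mulVec_zero, dotProduct_zero]
  | add a b ha' hb' ha hb => rw [mulVec_add, dotProduct_add, ha, hb, add_zero]
  | smul t a ha' ha => rw [mulVec_smul, dotProduct_smul, ha, smul_zero]

/-- Torus action on the kernel span. -/
theorem kerSpan_stable (B₀ : Matrix ι ι F) (B : κ → Matrix ι ι F) (l : ι → F) (χ : κ → F)
    (hl : ∀ c, l c ≠ 0) (hχ : ∀ k, χ k ≠ 0)
    (h0 : ∀ c c', l c * l c' * B₀ c c' = B₀ c c')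
    (h1 : ∀ k c c', l c * l c' * B k c c' = χ k * B k c c') (x : ι → F)
    (hx : x ∈ kerSpan B₀ B) : (fun c => l c * x c) ∈ kerSpan B₀ B := by
  let ψ : MvPolynomial κ F →ₐ[F] MvPolynomial κ F := aeval fun k => C (χ k) * X k
  have hψC : ∀ t : F, ψ (C t) = C t := fun t => by
    simp only [ψ, aeval_C]
    rfl
  have hψ : ∀ c c', ψ (symb B₀ B c c') = C (l c * l c') * symb B₀ B c c' := by
    intro c c'
    simp only [symb, Matrix.add_apply, Matrix.sum_apply, Matrix.smul_apply, smul_eq_mul,
      Matrix.map_apply, map_add, map_sum, map_mul, hψC, mul_add, Finset.mul_sum]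
    congr 1
    · rw [← map_mul, ← map_mul, h0]
    · refine Finset.sum_congr rfl fun k _ => ?_
      have : ψ (X k) = C (χ k) * X k := by simp only [ψ, aeval_X]
      rw [this]
      have e := congrArg (C : F → MvPolynomial κ F) (h1 k c c')
      rw [map_mul, map_mul, map_mul] at e
      linear_combination (-X k) * e
  induction hx using Submodule.span_induction with
  | mem x hx =>
    obtain ⟨q, hq, a, rfl⟩ := hx
    have hq' : symb B₀ B *ᵥ (fun c => C (l c) * ψ (q c)) = 0 := by
      funext c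
      have e1 : C (l c) * (symb B₀ B *ᵥ (fun c => C (l c) * ψ (q c))) c = 0 := by
        have e2 := congrArg ψ (congrFun hq c)
        simp only [mulVec, dotProduct, map_sum, map_mul, Pi.zero_apply, map_zero] at e2
        rw [← e2]
        simp only [mulVec, dotProduct, Finset.mul_sum]
        refine Finset.sum_congr rfl fun c' _ => ?_
        rw [hψ, map_mul]
        ring
      rcases mul_eq_zero.mp e1 with h | h
      · exact absurd (C_eq_zero.mp h) (hl c)
      · exact h
    have hmem := mem_kerSpan B₀ B _ hq' (fun k => (χ k)⁻¹ * a k)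
    have heval : ∀ p : MvPolynomial κ F, eval (fun k => (χ k)⁻¹ * a k) (ψ p) = eval a p := by
      intro p
      have : (eval (fun k => (χ k)⁻¹ * a k)).comp ψ.toRingHom = eval a := by
        apply MvPolynomial.ringHom_ext
        · intro r
          simp [ψ]
        · intro k
          simp [ψ, hχ k]
      exact RingHom.congr_fun this p
    simp only [map_mul, eval_C, heval] at hmem
    exact hmem
  | zero =>
    have : (fun c => l c * (0 : ι → F) c) = 0 := by funext c; simp
    rw [this]; exact Submodule.zero_mem _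
  | add a b _ _ ha hb =>
    have : (fun c => l c * (a + b) c) = (fun c => l c * a c) + fun c => l c * b c := by
      funext c; simp [mul_add]
    rw [this]; exact Submodule.add_mem _ ha hb
  | smul t a _ ha =>
    have : (fun c => l c * (t • a) c) = t • fun c => l c * a c := by
      funext c; simp [mul_left_comm]
    rw [this]; exact Submodule.smul_mem _ t ha

/-- The kernel span is graded by the labels. -/
theorem kerSpan_graded [CharZero F] {Λ : Type*} [AddCommGroup Λ] [DecidableEq Λ] (γ : ι → Λ)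
    (B₀ : Matrix ι ι F) (hB : ∀ c c', B₀ c c' ≠ 0 → γ c + γ c' = 0) (u v : κ → ι → F)
    (a b : κ → Λ) (hu : ∀ k c, u k c ≠ 0 → γ c = a k) (hv : ∀ k c, v k c ≠ 0 → γ c = b k) :
    Graded γ (kerSpan B₀ (fun k => hyp (u k) (v k))) := by
  have key : ∀ μ : Λ → F, (∀ h, μ h * μ (-h) = 1) → ∀ x ∈ kerSpan B₀ (fun k => hyp (u k) (v k)),
      (fun c => μ (γ c) * x c) ∈ kerSpan B₀ (fun k => hyp (u k) (v k)) := by
    intro μ hμ
    have hne : ∀ h, μ h ≠ 0 := fun h h0 => by
      have := hμ h
      rw [h0, zero_mul] at this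
      exact zero_ne_one this
    refine kerSpan_stable B₀ _ (fun c => μ (γ c)) (fun k => μ (a k) * μ (b k))
      (fun c => hne _) (fun k => mul_ne_zero (hne _) (hne _)) ?_ ?_
    · intro c c'
      by_cases h : B₀ c c' = 0
      · rw [h, mul_zero]
      · have := hB c c' h
        rw [eq_neg_of_add_eq_zero_right this, hμ, one_mul]
    · intro k c c'
      simp only [hyp]
      have e1 : μ (γ c) * μ (γ c') * (u k c * v k c') = μ (a k) * μ (b k) * (u k c * v k c') := by
        by_cases h1 : u k c = 0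
        · rw [h1]; ring
        · by_cases h2 : v k c' = 0
          · rw [h2]; ring
          · rw [hu k c h1, hv k c' h2]
      have e2 : μ (γ c) * μ (γ c') * (v k c * u k c') = μ (a k) * μ (b k) * (v k c * u k c') := by
        by_cases h1 : v k c = 0
        · rw [h1]; ring
        · by_cases h2 : u k c' = 0
          · rw [h2]; ring
          · rw [hv k c h1, hu k c' h2]; ring
      linear_combination e1 + e2
  intro g x hx
  by_cases hg : -g = g
  · have h1 := key (fun h => if h = g then -1 else 1) (by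
      intro h
      by_cases hh : h = g
      · subst hh
        rw [hg, if_pos rfl]; ring
      · rw [if_neg hh, if_neg (fun e => hh (by rw [← hg, ← e, neg_neg]))]; ring) x hx
    have h2 : blk γ g x = (2 : F)⁻¹ • (x - fun c => (if γ c = g then (-1 : F) else 1) * x c) := by
      funext c
      rw [Pi.smul_apply, Pi.sub_apply, smul_eq_mul, blk]
      split_ifs
      · have : (2 : F) ≠ 0 := two_ne_zero
        field_simp
        ring
      · ring
    rw [h2]
    exact Submodule.smul_mem _ _ (Submodule.sub_mem _ hx h1)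
  · have hμ : ∀ h : Λ, (fun h => if h = g then (2 : F) else if h = -g then 2⁻¹ else 1) h *
        (fun h => if h = g then (2 : F) else if h = -g then 2⁻¹ else 1) (-h) = 1 := by
      intro h
      have two_ne : (2 : F) ≠ 0 := two_ne_zero
      by_cases h1 : h = g
      · subst h1
        simp only [if_true, if_neg hg]
        exact mul_inv_cancel₀ two_ne
      · by_cases h2 : h = -g
        · subst h2
          simp only [if_neg h1, if_true, neg_neg]
          exact inv_mul_cancel₀ two_ne
        · have h3 : -h ≠ g := fun e => h2 (by rw [← e, neg_neg])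
          have h4 : -h ≠ -g := fun e => h1 (neg_injective e)
          simp only [if_neg h1, if_neg h2, if_neg h3, if_neg h4, one_mul]
    have h1 := key _ hμ x hx
    have h2 := key _ hμ _ h1
    have h3 : blk γ g x = (2 / 3 : F) • ((fun c =>
        (fun h => if h = g then (2 : F) else if h = -g then 2⁻¹ else 1) (γ c) *
          ((fun h => if h = g then (2 : F) else if h = -g then 2⁻¹ else 1) (γ c) * x c)) -
        (3 / 2 : F) • (fun c =>
          (fun h => if h = g then (2 : F) else if h = -g then 2⁻¹ else 1) (γ c) * x c) +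
        (1 / 2 : F) • x) := by
      funext c
      simp only [Pi.smul_apply, Pi.add_apply, Pi.sub_apply, smul_eq_mul, blk]
      have two_ne : (2 : F) ≠ 0 := two_ne_zero
      have three_ne : (3 : F) ≠ 0 := three_ne_zero
      by_cases e1 : γ c = g
      · simp only [if_pos e1]
        field_simp
        ring
      · by_cases e2 : γ c = -g
        · simp only [if_neg e1, if_pos e2]
          field_simp
          ring
        · simp only [if_neg e1, if_neg e2]
          field_simp
          ring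
    rw [h3]
    exact Submodule.smul_mem _ _ (Submodule.add_mem _ (Submodule.sub_mem _ h2
      (Submodule.smul_mem _ _ h1)) (Submodule.smul_mem _ _ hx))

end

end Pool.Agent.Lib.MP_64d474_lc
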