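import Mathlib
import Pool.Agent.Lib.MP_64d474_lc.QnExpand
import Pool.Agent.Lib.MP_64d474_lc.QnKer

/-!
Improving potentials when the leading matrix is singular.
-/

open Matrix Module MvPolynomial

set_option linter.unusedSectionVars false

namespace Pool.Agent.Lib.MP_64d474_lc

section

variable {F : Type*} [Field F] {ι κ : Type*} [Fintype ι] [DecidableEq ι] [Fintype κ]
  [DecidableEq κ]

/-- Feasible potentials. -/
def Feas (M₀ : Matrix ι ι F) (u v : κ → ι → F) (w : κ → ℤ) (ρ : ι → ℤ) : Prop :=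
  (∀ c c', M₀ c c' ≠ 0 → 0 ≤ ρ c + ρ c') ∧
    (∀ k c c', u k c ≠ 0 → v k c' ≠ 0 → 0 ≤ 2 * w k + ρ c + ρ c')

open Classical in
/-- leading part of `u` relative to `v` -/
noncomputable def lvec (w : ℤ) (ρ : ι → ℤ) (u v : ι → F) : ι → F :=
  fun c => if ∃ c', v c' ≠ 0 ∧ 2 * w + ρ c + ρ c' = 0 then u c else 0

theorem lvec_ne {w : ℤ} {ρ : ι → ℤ} {u v : ι → F} {c : ι} (h : lvec w ρ u v c ≠ 0) :
    u c ≠ 0 ∧ ∃ c', v c' ≠ 0 ∧ 2 * w + ρ c + ρ c' = 0 := by
  rw [lvec] at h
  split_ifs at h with h1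
  · exact ⟨h, h1⟩
  · exact absurd rfl h

theorem lvec_const {w : ℤ} {ρ : ι → ℤ} {u v : ι → F}
    (hf : ∀ c c', u c ≠ 0 → v c' ≠ 0 → 0 ≤ 2 * w + ρ c + ρ c') {c₁ c₂ : ι}
    (h1 : lvec w ρ u v c₁ ≠ 0) (h2 : lvec w ρ u v c₂ ≠ 0) : ρ c₁ = ρ c₂ := by
  obtain ⟨hu1, d1, hv1, e1⟩ := lvec_ne h1
  obtain ⟨hu2, d2, hv2, e2⟩ := lvec_ne h2
  have g1 := hf c₁ d2 hu1 hv2
  have g2 := hf c₂ d1 hu2 hv1
  omega

theorem lvec_mul {w : ℤ} {ρ : ι → ℤ} {u v : ι → F}
    (hf : ∀ c c', u c ≠ 0 → v c' ≠ 0 → 0 ≤ 2 * w + ρ c + ρ c') (c c' : ι) :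
    lvec w ρ u v c * lvec w ρ v u c' = if 2 * w + ρ c + ρ c' = 0 then u c * v c' else 0 := by
  by_cases hu : u c = 0
  · have : lvec w ρ u v c = 0 := by
      by_contra h
      exact (lvec_ne h).1 hu
    rw [this, hu, zero_mul, zero_mul, ite_self]
  by_cases hv : v c' = 0
  · have : lvec w ρ v u c' = 0 := by
      by_contra h
      exact (lvec_ne h).1 hv
    rw [this, hv, mul_zero, mul_zero, ite_self]
  split_ifs with ht
  · rw [lvec, lvec, if_pos ⟨c', hv, ht⟩, if_pos ⟨c, hu, by omega⟩]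
  · by_contra hne
    obtain ⟨_, d1, hd1, e1⟩ := lvec_ne (left_ne_zero_of_mul hne)
    obtain ⟨_, d2, hd2, e2⟩ := lvec_ne (right_ne_zero_of_mul hne)
    have g1 := hf c c' hu hv
    have g2 := hf d2 d1 hd2 hd1
    omega

theorem lead_hyp {w : ℤ} {ρ : ι → ℤ} {u v : ι → F}
    (hf : ∀ c c', u c ≠ 0 → v c' ≠ 0 → 0 ≤ 2 * w + ρ c + ρ c') :
    lead (2 * w) ρ (hyp u v) = hyp (lvec w ρ u v) (lvec w ρ v u) := by
  ext c c'
  rw [lead, hyp, hyp, lvec_mul hf, mul_comm (lvec w ρ v u c), lvec_mul hf]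
  by_cases h : 2 * w + ρ c + ρ c' = 0
  · rw [if_pos h, if_pos h, if_pos (by omega), mul_comm (v c)]
  · rw [if_neg h, if_neg h, if_neg (by omega), add_zero]

theorem lead_symm (h : ℤ) (ρ : ι → ℤ) {M : Matrix ι ι F} (hM : M.IsSymm) :
    (lead h ρ M).IsSymm := by
  ext c c'
  rw [Matrix.transpose_apply, lead, lead]
  have : M c' c = M c c' := hM.apply c c'
  rw [this]
  by_cases h1 : h + ρ c + ρ c' = 0
  · rw [if_pos h1, if_pos (by omega)]
  · rw [if_neg h1, if_neg (by omega)]

theorem conj_apply (T M : Matrix ι ι F) (c c' : ι) :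
    (T * M * Tᵀ) c c' = T c ⬝ᵥ M *ᵥ T c' := by
  rw [Matrix.mul_assoc, Matrix.mul_apply]
  simp only [dotProduct, mulVec, Matrix.mul_apply, Matrix.transpose_apply]

/-- block projection as a linear map -/
def blkL {Γ : Type*} [DecidableEq Γ] (γ : ι → Γ) (g : Γ) : (ι → F) →ₗ[F] (ι → F) where
  toFun := blk γ g
  map_add' x y := by
    funext c
    rw [Pi.add_apply, blk, blk, blk, Pi.add_apply]
    split_ifs
    · rfl
    · rw [add_zero]
  map_smul' t x := by
    funext c
    rw [RingHom.id_apply, Pi.smul_apply, blk, blk, Pi.smul_apply, smul_eq_mul, smul_eq_mul]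
    split_ifs
    · rfl
    · rw [mul_zero]

/-- vectors supported on coordinates of given parity -/
def par (F : Type*) [Field F] (ρ : ι → ℤ) (ε : ℤ) : Submodule F (ι → F) where
  carrier := {x | ∀ c, ρ c % 2 ≠ ε → x c = 0}
  add_mem' := fun {a b} ha hb c hc => by rw [Pi.add_apply, ha c hc, hb c hc, add_zero]
  zero_mem' := fun _ _ => rfl
  smul_mem' := fun t {a} ha c hc => by rw [Pi.smul_apply, ha c hc, smul_zero]

/-- orthogonal complement for the dot product -/
def orth (Z : Submodule F (ι → F)) : Submodule F (ι → F) where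
  carrier := {y | ∀ z ∈ Z, y ⬝ᵥ z = 0}
  add_mem' := fun {a b} ha hb z hz => by rw [add_dotProduct, ha z hz, hb z hz, add_zero]
  zero_mem' := fun z _ => zero_dotProduct z
  smul_mem' := fun t {a} ha z hz => by rw [smul_dotProduct, ha z hz, smul_zero]

theorem card_le_finrank_orth (Z : Submodule F (ι → F)) :
    Fintype.card ι ≤ finrank F (orth Z) + finrank F Z := by
  let L : (ι → F) →ₗ[F] (Z →ₗ[F] F) :=
    { toFun := fun y =>
        { toFun := fun z => y ⬝ᵥ (z : ι → F)
          map_add' := fun a b => by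
            rw [Submodule.coe_add, dotProduct_add]
          map_smul' := fun t a => by
            rw [Submodule.coe_smul, dotProduct_smul, RingHom.id_apply] }
      map_add' := fun a b => by
        apply LinearMap.ext
        intro z
        exact add_dotProduct _ _ _
      map_smul' := fun t a => by
        apply LinearMap.ext
        intro z
        exact smul_dotProduct _ _ _ }
  have h1 : LinearMap.ker L = orth Z := by
    ext y
    rw [LinearMap.mem_ker]
    constructor
    · intro h z hz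
      exact LinearMap.congr_fun h ⟨z, hz⟩
    · intro h
      apply LinearMap.ext
      intro z
      exact h z z.2
  have h2 := LinearMap.finrank_range_add_finrank_ker L
  have h3 : finrank F (LinearMap.range L) ≤ finrank F (Z →ₗ[F] F) := Submodule.finrank_le _
  have h4 : finrank F (Z →ₗ[F] F) = finrank F Z := Subspace.dual_finrank_eq
  rw [h1, finrank_fintype_fun_eq_card] at h2
  omega

variable {Λ : Type*} [AddCommGroup Λ] [DecidableEq Λ]

/-- If the leading matrix is singular, the potentials can be improved. -/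
theorem improve [CharZero F] (β : ι → Λ) (M₀ : Matrix ι ι F) (hM₀ : M₀.IsSymm)
    (hB : ∀ c c', M₀ c c' ≠ 0 → β c + β c' = 0) (u v : κ → ι → F)
    (hu : ∀ k c c', u k c ≠ 0 → u k c' ≠ 0 → β c = β c')
    (hv : ∀ k c c', v k c ≠ 0 → v k c' ≠ 0 → β c = β c')
    (w : κ → ℤ) (ρ : ι → ℤ) (hf : Feas M₀ u v w ρ)
    (hdet : (symb (lead 0 ρ M₀) (fun k => lead (2 * w k) ρ (hyp (u k) (v k)))).det = 0) :
    ∃ (T : Matrix ι ι F) (ρ' : ι → ℤ), T.det ≠ 0 ∧ (∀ c d, T c d ≠ 0 → β c = β d) ∧
      Feas (T * M₀ * Tᵀ) (fun k => T *ᵥ u k) (fun k => T *ᵥ v k) w ρ' ∧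
      ∑ c, ρ' c < ∑ c, ρ c := by
  classical
  set ub : κ → ι → F := fun k => lvec (w k) ρ (u k) (v k) with hub
  set vb : κ → ι → F := fun k => lvec (w k) ρ (v k) (u k) with hvb
  set N₀ := lead 0 ρ M₀ with hN₀
  have hN₀s : N₀.IsSymm := lead_symm 0 ρ hM₀
  have hlead : (fun k => lead (2 * w k) ρ (hyp (u k) (v k))) = fun k => hyp (ub k) (vb k) := by
    funext k
    exact lead_hyp (hf.2 k)
  rw [hlead] at hdet
  have hf' : ∀ k c c', v k c ≠ 0 → u k c' ≠ 0 → 0 ≤ 2 * w k + ρ c + ρ c' := fun k c c' h1 h2 => by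
    have := hf.2 k c' c h2 h1
    omega
  -- labels
  let γ : ι → Λ × ℤ := fun c => (β c, ρ c)
  have hN₀γ : ∀ c c', N₀ c c' ≠ 0 → γ c + γ c' = 0 := by
    intro c c' h
    rw [hN₀, lead] at h
    split_ifs at h with h1
    · have h2 := hB c c' h
      show (β c + β c', ρ c + ρ c') = 0
      rw [h2]
      have : ρ c + ρ c' = 0 := by omega
      rw [this]; rfl
    · exact absurd rfl h
  have hubγ : ∀ k c c', ub k c ≠ 0 → ub k c' ≠ 0 → γ c = γ c' := fun k c c' h1 h2 =>
    Prod.ext (hu k c c' (lvec_ne h1).1 (lvec_ne h2).1) (lvec_const (hf.2 k) h1 h2)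
  have hvbγ : ∀ k c c', vb k c ≠ 0 → vb k c' ≠ 0 → γ c = γ c' := fun k c c' h1 h2 =>
    Prod.ext (hv k c c' (lvec_ne h1).1 (lvec_ne h2).1) (lvec_const (hf' k) h1 h2)
  let a : κ → Λ × ℤ := fun k => if h : ∃ c, ub k c ≠ 0 then γ h.choose else 0
  let b : κ → Λ × ℤ := fun k => if h : ∃ c, vb k c ≠ 0 then γ h.choose else 0
  have ha : ∀ k c, ub k c ≠ 0 → γ c = a k := by
    intro k c hc
    have h : ∃ c, ub k c ≠ 0 := ⟨c, hc⟩
    show γ c = if h : ∃ c, ub k c ≠ 0 then γ h.choose else 0
    rw [dif_pos h]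
    exact hubγ k _ _ hc h.choose_spec
  have hb : ∀ k c, vb k c ≠ 0 → γ c = b k := by
    intro k c hc
    have h : ∃ c, vb k c ≠ 0 := ⟨c, hc⟩
    show γ c = if h : ∃ c, vb k c ≠ 0 then γ h.choose else 0
    rw [dif_pos h]
    exact hvbγ k _ _ hc h.choose_spec
  set U := kerSpan N₀ (fun k => hyp (ub k) (vb k)) with hU
  have hUgr : Graded γ U := kerSpan_graded γ N₀ hN₀γ ub vb a b ha hb
  have hdich := fun k => ker_dichotomy N₀ hN₀s ub vb k
  have hiso := fun x y hx hy => ker_isotropic N₀ hN₀s ub vb x y hx hy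
  obtain ⟨q₀, hq₀, hAq₀⟩ := Matrix.exists_mulVec_eq_zero_iff.mpr hdet
  have hshr := exists_shrunk N₀ (fun k => hyp (ub k) (vb k)) hN₀s (fun k => hyp_symm _ _)
    (fun k => hyp_wittLeOne _ _) q₀ hq₀ hAq₀
  rw [← hU] at hshr
  -- tightness
  have htight : ∀ k c c', ub k c ≠ 0 → vb k c' ≠ 0 → 2 * w k + ρ c + ρ c' = 0 := by
    intro k c c' h1 h2
    by_contra h
    have := lvec_mul (hf.2 k) c c'
    rw [if_neg h] at this
    exact (mul_ne_zero h1 h2) this
  -- parity pieces
  have hparN : ∀ ε, ∀ x ∈ par F ρ ε, N₀ *ᵥ x ∈ par F ρ ε := by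
    intro ε x hx c hc
    rw [mulVec, dotProduct]
    refine Finset.sum_eq_zero fun d _ => ?_
    by_cases h : N₀ c d = 0
    · rw [h, zero_mul]
    · have h1 : ρ c + ρ d = 0 := congrArg Prod.snd (hN₀γ c d h)
      rw [hx d (by omega), mul_zero]
  have hparB : ∀ ε k, ∀ x ∈ par F ρ ε, hyp (ub k) (vb k) *ᵥ x ∈ par F ρ ε := by
    intro ε k x hx c hc
    rw [mulVec, dotProduct]
    refine Finset.sum_eq_zero fun d _ => ?_
    by_cases h : hyp (ub k) (vb k) c d = 0
    · rw [h, zero_mul]
    · have h1 : 2 * w k + ρ c + ρ d = 0 := by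
        by_contra h2
        apply h
        rw [hyp]
        have e1 : ub k c * vb k d = 0 := by
          by_contra h3
          exact h2 (htight k c d (left_ne_zero_of_mul h3) (right_ne_zero_of_mul h3))
        have e2 : vb k c * ub k d = 0 := by
          by_contra h3
          have := htight k d c (right_ne_zero_of_mul h3) (left_ne_zero_of_mul h3)
          omega
        rw [e1, e2, add_zero]
      rw [hx d (by omega), mul_zero]
  let Ue : ℤ → Submodule F (ι → F) := fun ε => U ⊓ par F ρ ε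
  let Ze : ℤ → Submodule F (ι → F) := fun ε => imageSum N₀ (fun k => hyp (ub k) (vb k)) (Ue ε)
  have hZpar : ∀ ε, Ze ε ≤ par F ρ ε := by
    intro ε
    refine sup_le ?_ (iSup_le fun k => ?_)
    · rintro _ ⟨x, hx, rfl⟩
      exact hparN ε x hx.2
    · rintro _ ⟨x, hx, rfl⟩
      exact hparB ε k x hx.2
  have hZU : ∀ ε, Ze ε ≤ imageSum N₀ (fun k => hyp (ub k) (vb k)) U := by
    intro ε
    refine sup_le_sup ?_ (iSup_mono fun k => ?_)
    · exact Submodule.map_mono inf_le_left
    · exact Submodule.map_mono inf_le_left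
  have hU01 : U ≤ Ue 0 ⊔ Ue 1 := by
    intro x hx
    rw [← sum_blk γ x]
    refine Submodule.sum_mem _ fun g _ => ?_
    have h1 : blk γ g x ∈ U := hUgr g x hx
    have h2 : blk γ g x ∈ par F ρ (g.2 % 2) := by
      intro c hc
      rw [blk, if_neg]
      intro h
      apply hc
      have : ρ c = g.2 := congrArg Prod.snd h
      rw [this]
    rcases Int.emod_two_eq_zero_or_one g.2 with h | h
    · rw [h] at h2
      exact Submodule.mem_sup_left ⟨h1, h2⟩
    · rw [h] at h2
      exact Submodule.mem_sup_right ⟨h1, h2⟩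
  obtain ⟨ε, hε⟩ : ∃ ε, finrank F (Ze ε) < finrank F (Ue ε) := by
    by_contra hcon
    push Not at hcon
    have h1 : finrank F U ≤ finrank F (Ue 0) + finrank F (Ue 1) :=
      (Submodule.finrank_mono hU01).trans (Submodule.finrank_add_le_finrank_add_finrank _ _)
    have hdisj : Ze 0 ⊓ Ze 1 = ⊥ := by
      rw [eq_bot_iff]
      intro x hx
      rw [Submodule.mem_bot]
      funext c
      rcases Int.emod_two_eq_zero_or_one (ρ c) with h | h
      · exact hZpar 1 hx.2 c (by omega)
      · exact hZpar 0 hx.1 c (by omega)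
    have h2 := Submodule.finrank_sup_add_finrank_inf_eq (Ze 0) (Ze 1)
    rw [hdisj, finrank_bot, add_zero] at h2
    have h3 : finrank F (Ze 0 ⊔ Ze 1 : Submodule F (ι → F)) ≤
        finrank F (imageSum N₀ (fun k => hyp (ub k) (vb k)) U) :=
      Submodule.finrank_mono (sup_le (hZU 0) (hZU 1))
    have h4 := hcon 0
    have h5 := hcon 1
    omega
  set W := Ue ε with hW
  set Z := Ze ε with hZ
  have hWgr : Graded γ W := by
    intro g x hx
    refine ⟨hUgr g x hx.1, fun c hc => ?_⟩
    rw [blk]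
    split_ifs
    · exact hx.2 c hc
    · rfl
  have hNW : ∀ x ∈ W, N₀ *ᵥ x ∈ Z := fun x hx =>
    Submodule.mem_sup_left ⟨x, hx, rfl⟩
  have hBW : ∀ k, ∀ x ∈ W, hyp (ub k) (vb k) *ᵥ x ∈ Z := fun k x hx =>
    Submodule.mem_sup_right (Submodule.mem_iSup_of_mem k ⟨x, hx, rfl⟩)
  have hblkvec : ∀ (y : ι → F) (g : Λ × ℤ), (∀ c c', y c ≠ 0 → y c' ≠ 0 → γ c = γ c') →
      blk γ g y = y ∨ blk γ g y = 0 := by
    intro y g hy
    by_cases h : ∃ c, y c ≠ 0 ∧ γ c = g
    · left
      obtain ⟨c, hc, hcg⟩ := h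
      funext d
      rw [blk]
      split_ifs with hd
      · rfl
      · by_contra hne
        exact hd ((hy d c (fun e => hne e.symm) hc).trans hcg)
    · right
      push Not at h
      funext d
      rw [blk]
      split_ifs with hd
      · by_contra hne
        exact h d hne hd
      · rfl
  have hZgr : Graded γ Z := by
    intro g
    have hle : Z ≤ Z.comap (blkL γ g) := by
      refine sup_le ?_ (iSup_le fun k => ?_)
      · rintro _ ⟨x, hx, rfl⟩
        rw [Submodule.mem_comap]
        have h1 : blkL γ g (N₀.mulVecLin x) = N₀ *ᵥ (blk γ (-g) x) := by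
          funext c
          show blk γ g (N₀ *ᵥ x) c = _
          rw [blk, mulVec, mulVec, dotProduct, dotProduct]
          split_ifs with hc
          · refine Finset.sum_congr rfl fun d _ => ?_
            by_cases h : N₀ c d = 0
            · rw [h, zero_mul, zero_mul]
            · rw [blk, if_pos]
              rw [← hc]
              exact eq_neg_of_add_eq_zero_right (hN₀γ c d h)
          · symm
            refine Finset.sum_eq_zero fun d _ => ?_
            by_cases h : N₀ c d = 0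
            · rw [h, zero_mul]
            · rw [blk, if_neg, mul_zero]
              intro hd
              apply hc
              have := hN₀γ c d h
              rw [hd] at this
              have h2 := eq_neg_of_add_eq_zero_left this
              rw [neg_neg] at h2
              exact h2
        rw [h1]
        exact hNW _ (hWgr _ x hx)
      · rintro _ ⟨x, hx, rfl⟩
        rw [Submodule.mem_comap]
        have hZx := hBW k x hx
        show blkL γ g (hyp (ub k) (vb k) *ᵥ x) ∈ Z
        rw [hyp_mulVec] at hZx ⊢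
        rcases hdich k with h | h
        · rw [h x hx.1, zero_smul, add_zero] at hZx ⊢
          rw [map_smul]
          rcases hblkvec (ub k) g (hubγ k) with h2 | h2
          · have : blkL γ g (ub k) = ub k := h2
            rw [this]; exact hZx
          · have : blkL γ g (ub k) = 0 := h2
            rw [this, smul_zero]; exact Z.zero_mem
        · rw [h x hx.1, zero_smul, zero_add] at hZx ⊢
          rw [map_smul]
          rcases hblkvec (vb k) g (hvbγ k) with h2 | h2
          · have : blkL γ g (vb k) = vb k := h2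
            rw [this]; exact hZx
          · have : blkL γ g (vb k) = 0 := h2
            rw [this, smul_zero]; exact Z.zero_mem
    intro z hz
    exact hle hz
  set Y := orth Z with hY
  have hYgr : Graded γ Y := by
    intro g y hy z hz
    have h1 : blk γ g y ⬝ᵥ z = y ⬝ᵥ blk γ g z := by
      simp only [dotProduct, blk]
      refine Finset.sum_congr rfl fun c _ => ?_
      split_ifs
      · rfl
      · rw [zero_mul, mul_zero]
    rw [h1]
    exact hy _ (hZgr g z hz)
  have hWY : W ≤ Y := by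
    intro x hx
    have hle : Z ≤ orth (Submodule.span F {x}) := by
      refine sup_le ?_ (iSup_le fun k => ?_)
      · rintro _ ⟨y, hy, rfl⟩ z hz
        obtain ⟨t, rfl⟩ := Submodule.mem_span_singleton.mp hz
        rw [dotProduct_smul, dotProduct_comm]
        show t • (x ⬝ᵥ N₀ *ᵥ y) = 0
        rw [(hiso x y hx.1 hy.1).2, smul_zero]
      · rintro _ ⟨y, hy, rfl⟩ z hz
        obtain ⟨t, rfl⟩ := Submodule.mem_span_singleton.mp hz
        rw [dotProduct_smul, dotProduct_comm]
        show t • (x ⬝ᵥ hyp (ub k) (vb k) *ᵥ y) = 0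
        rw [(hiso x y hx.1 hy.1).1 k, smul_zero]
    intro z hz
    rw [dotProduct_comm]
    exact hle hz x (Submodule.mem_span_singleton_self x)
  obtain ⟨T, hT, hTγ, CW, CY, hCW, hCY, hcW, hcY⟩ := exists_graded_basis γ W Y hWY hWgr hYgr
  have hTrow : ∀ c, ∃ d, T c d ≠ 0 := by
    intro c
    by_contra h
    push Not at h
    exact hT (Matrix.det_eq_zero_of_row_eq_zero c h)
  have hparity : ∀ c ∈ CW, ρ c % 2 = ε := by
    intro c hc
    obtain ⟨d, hd⟩ := hTrow c
    by_contra hne
    have h1 : ρ c = ρ d := congrArg Prod.snd (hTγ c d hd)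
    rw [h1] at hne
    exact hd ((hCW c hc).2 d hne)
  refine ⟨T, fun c => ρ c - (if c ∈ CW then 1 else 0) + (if c ∈ CY then 0 else 1), hT,
    fun c d h => congrArg Prod.fst (hTγ c d h), ⟨?_, ?_⟩, ?_⟩
  · intro c c' h
    rw [conj_apply] at h
    obtain ⟨d, _, hd⟩ := Finset.exists_ne_zero_of_sum_ne_zero h
    obtain ⟨d', _, hd'⟩ := Finset.exists_ne_zero_of_sum_ne_zero (right_ne_zero_of_mul hd)
    have e1 : ρ c = ρ d := congrArg Prod.snd (hTγ c d (left_ne_zero_of_mul hd))
    have e2 : ρ c' = ρ d' := congrArg Prod.snd (hTγ c' d' (right_ne_zero_of_mul hd'))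
    have e3 := hf.1 d d' (left_ne_zero_of_mul hd')
    have e0 : ρ c + ρ c' = 0 → T c ⬝ᵥ N₀ *ᵥ T c' ≠ 0 := by
      intro h0
      have : T c ⬝ᵥ N₀ *ᵥ T c' = T c ⬝ᵥ M₀ *ᵥ T c' := by
        simp only [dotProduct, mulVec, Finset.mul_sum]
        refine Finset.sum_congr rfl fun i _ => Finset.sum_congr rfl fun j _ => ?_
        by_cases hi : T c i = 0
        · rw [hi, zero_mul, zero_mul]
        · by_cases hj : T c' j = 0
          · rw [hj, mul_zero, mul_zero, mul_zero, mul_zero]
          · have g1 : ρ c = ρ i := congrArg Prod.snd (hTγ c i hi)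
            have g2 : ρ c' = ρ j := congrArg Prod.snd (hTγ c' j hj)
            have : N₀ i j = M₀ i j := by
              rw [hN₀, lead, if_pos (by omega)]
            rw [this]
      rw [this]
      exact h
    have f1 : ρ c + ρ c' = 0 → c ∈ CW → c' ∉ CY := by
      intro h0 hc hc'
      apply e0 h0
      rw [symm_dot N₀ hN₀s]
      exact hCY c' hc' _ (hNW _ (hCW c hc))
    have f2 : ρ c + ρ c' = 0 → c' ∈ CW → c ∉ CY := by
      intro h0 hc' hc
      apply e0 h0
      exact hCY c hc _ (hNW _ (hCW c' hc'))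
    have p1 := hparity c
    have p2 := hparity c'
    show 0 ≤ (ρ c - (if c ∈ CW then 1 else 0) + (if c ∈ CY then 0 else 1)) +
      (ρ c' - (if c' ∈ CW then 1 else 0) + (if c' ∈ CY then 0 else 1))
    by_cases a1 : c ∈ CW <;> by_cases a2 : c' ∈ CW <;> by_cases a3 : c ∈ CY <;>
      by_cases a4 : c' ∈ CY <;> simp only [a1, a2, a3, a4, if_true, if_false, true_implies,
        not_true_eq_false, not_false_eq_true, imp_false, false_implies] at p1 p2 f1 f2 ⊢ <;> omega
  · intro k c c' h1 h2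
    have h1' : T c ⬝ᵥ u k ≠ 0 := h1
    have h2' : T c' ⬝ᵥ v k ≠ 0 := h2
    obtain ⟨d, _, hd⟩ := Finset.exists_ne_zero_of_sum_ne_zero h1'
    obtain ⟨d', _, hd'⟩ := Finset.exists_ne_zero_of_sum_ne_zero h2'
    have e1 : ρ c = ρ d := congrArg Prod.snd (hTγ c d (left_ne_zero_of_mul hd))
    have e2 : ρ c' = ρ d' := congrArg Prod.snd (hTγ c' d' (left_ne_zero_of_mul hd'))
    have e3 := hf.2 k d d' (right_ne_zero_of_mul hd) (right_ne_zero_of_mul hd')
    have e0 : 2 * w k + ρ c + ρ c' = 0 → ub k ⬝ᵥ T c ≠ 0 ∧ vb k ⬝ᵥ T c' ≠ 0 := by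
      intro h0
      have g1 : ub k ⬝ᵥ T c = T c ⬝ᵥ u k := by
        rw [dotProduct_comm]
        simp only [dotProduct]
        refine Finset.sum_congr rfl fun i _ => ?_
        by_cases hi : T c i = 0
        · rw [hi, zero_mul, zero_mul]
        · have g1 : ρ c = ρ i := congrArg Prod.snd (hTγ c i hi)
          have : ub k i = u k i := by
            show lvec (w k) ρ (u k) (v k) i = u k i
            rw [lvec, if_pos]
            exact ⟨d', right_ne_zero_of_mul hd', by omega⟩
          rw [this]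
      have g2 : vb k ⬝ᵥ T c' = T c' ⬝ᵥ v k := by
        rw [dotProduct_comm]
        simp only [dotProduct]
        refine Finset.sum_congr rfl fun i _ => ?_
        by_cases hi : T c' i = 0
        · rw [hi, zero_mul, zero_mul]
        · have g1 : ρ c' = ρ i := congrArg Prod.snd (hTγ c' i hi)
          have : vb k i = v k i := by
            show lvec (w k) ρ (v k) (u k) i = v k i
            rw [lvec, if_pos]
            exact ⟨d, right_ne_zero_of_mul hd, by omega⟩
          rw [this]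
      exact ⟨by rw [g1]; exact h1', by rw [g2]; exact h2'⟩
    have f1 : 2 * w k + ρ c + ρ c' = 0 → c ∈ CW → c' ∉ CY := by
      intro h0 hc hc'
      obtain ⟨g1, g2⟩ := e0 h0
      have hmem := hCW c hc
      rcases hdich k with h | h
      · exact g1 (h _ hmem.1)
      · have h3 : T c' ⬝ᵥ hyp (ub k) (vb k) *ᵥ T c = 0 := hCY c' hc' _ (hBW k _ hmem)
        rw [dot_hyp, h _ hmem.1, mul_zero, zero_add] at h3
        exact (mul_ne_zero g2 g1) h3
    have f2 : 2 * w k + ρ c + ρ c' = 0 → c' ∈ CW → c ∉ CY := by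
      intro h0 hc' hc
      obtain ⟨g1, g2⟩ := e0 h0
      have hmem := hCW c' hc'
      rcases hdich k with h | h
      · have h3 : T c ⬝ᵥ hyp (ub k) (vb k) *ᵥ T c' = 0 := hCY c hc _ (hBW k _ hmem)
        rw [dot_hyp, h _ hmem.1, mul_zero, add_zero] at h3
        exact (mul_ne_zero g1 g2) h3
      · exact g2 (h _ hmem.1)
    have p1 := hparity c
    have p2 := hparity c'
    show 0 ≤ 2 * w k + (ρ c - (if c ∈ CW then 1 else 0) + (if c ∈ CY then 0 else 1)) +
      (ρ c' - (if c' ∈ CW then 1 else 0) + (if c' ∈ CY then 0 else 1))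
    by_cases a1 : c ∈ CW <;> by_cases a2 : c' ∈ CW <;> by_cases a3 : c ∈ CY <;>
      by_cases a4 : c' ∈ CY <;> simp only [a1, a2, a3, a4, if_true, if_false, true_implies,
        not_true_eq_false, not_false_eq_true, imp_false, false_implies] at p1 p2 f1 f2 ⊢ <;> omega
  · rw [Finset.sum_add_distrib, Finset.sum_sub_distrib]
    have s1 : ∑ c : ι, (if c ∈ CW then (1 : ℤ) else 0) = CW.card := by
      rw [Finset.sum_ite_mem, Finset.univ_inter, Finset.sum_const, nsmul_eq_mul, mul_one]
    have s2 : ∑ c : ι, (if c ∈ CY then (0 : ℤ) else 1) = Fintype.card ι - CY.card := by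
      have h1 : ∀ c : ι, (if c ∈ CY then (0 : ℤ) else 1) = 1 - (if c ∈ CY then 1 else 0) := by
        intro c
        split_ifs <;> ring
      simp only [h1]
      rw [Finset.sum_sub_distrib, Finset.sum_ite_mem, Finset.univ_inter, Finset.sum_const,
        Finset.sum_const, nsmul_eq_mul, mul_one, nsmul_eq_mul, mul_one, Finset.card_univ]
    have s3 := card_le_finrank_orth Z
    rw [s1, s2]
    have s4 : (Fintype.card ι : ℤ) ≤ finrank F Y + finrank F Z := by exact_mod_cast s3
    have s5 : (finrank F Z : ℤ) < finrank F W := by exact_mod_cast hε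
    have s6 : (finrank F W : ℤ) ≤ CW.card := by exact_mod_cast hcW
    have s7 : (finrank F Y : ℤ) ≤ CY.card := by exact_mod_cast hcY
    linarith

end

end Pool.Agent.Lib.MP_64d474_lc
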