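import Mathlib
import Pool.Agent.Lib.MP_64d474_lc.QnImprove

/-!
Passing to the leading form of a symbolic determinant with respect to weights.
-/

open Matrix Module MvPolynomial

set_option linter.unusedSectionVars false

namespace Pool.Agent.Lib.MP_64d474_lc

section

/-- A symbolic matrix `B₀ + ∑ x_k (u_k v_kᵀ + v_k u_kᵀ)` with labelled coordinates. -/
structure Pres (F : Type*) [Field F] (ι κ Λ : Type*) [AddCommGroup Λ] where
  B₀ : Matrix ι ι F
  u : κ → ι → F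
  v : κ → ι → F
  β : ι → Λ
  a : κ → Λ
  b : κ → Λ
  symm : B₀.IsSymm
  hB : ∀ c c', B₀ c c' ≠ 0 → β c + β c' = 0
  hu : ∀ k c, u k c ≠ 0 → β c = a k
  hv : ∀ k c, v k c ≠ 0 → β c = b k

variable {F : Type*} [Field F] {ι κ : Type*} [Fintype ι] [DecidableEq ι] [Fintype κ]
  [DecidableEq κ] {Λ : Type*} [AddCommGroup Λ] [DecidableEq Λ]

/-- the `k`-th coefficient matrix is present -/
def Pres.alive (P : Pres F ι κ Λ) (k : κ) : Prop := (∃ c, P.u k c ≠ 0) ∧ ∃ c, P.v k c ≠ 0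

/-- the determinant -/
noncomputable def Pres.f (P : Pres F ι κ Λ) : MvPolynomial κ F :=
  (symb P.B₀ (fun k => hyp (P.u k) (P.v k))).det

theorem symb_conj (S B₀ : Matrix ι ι F) (B : κ → Matrix ι ι F) :
    symb (S * B₀ * Sᵀ) (fun k => S * B k * Sᵀ) = (S.map C) * symb B₀ B * (S.map C)ᵀ := by
  have hm : ∀ M : Matrix ι ι F, (S * M * Sᵀ).map (C : F → MvPolynomial κ F) =
      (S.map C) * (M.map C) * (S.map C)ᵀ := by
    intro M
    rw [← Matrix.transpose_map]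
    rw [Matrix.map_mul, Matrix.map_mul]
  rw [symb, symb, hm, Matrix.mul_add, Matrix.add_mul, Matrix.mul_sum, Matrix.sum_mul]
  congr 1
  refine Finset.sum_congr rfl fun k _ => ?_
  rw [hm, Matrix.mul_smul, Matrix.smul_mul]

theorem det_symb_conj (S B₀ : Matrix ι ι F) (B : κ → Matrix ι ι F) :
    (symb (S * B₀ * Sᵀ) (fun k => S * B k * Sᵀ)).det = C (S.det ^ 2) * (symb B₀ B).det := by
  rw [symb_conj, Matrix.det_mul, Matrix.det_mul, Matrix.det_transpose]
  have : (S.map (C : F → MvPolynomial κ F)).det = C S.det := by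
    rw [RingHom.map_det]; rfl
  rw [this, map_pow]
  ring

theorem hyp_conj (S : Matrix ι ι F) (u v : ι → F) :
    S * hyp u v * Sᵀ = hyp (S *ᵥ u) (S *ᵥ v) := by
  ext c c'
  rw [conj_apply, dot_hyp, hyp]
  have h1 : ∀ (x : ι → F) (i : ι), x ⬝ᵥ S i = (S *ᵥ x) i := fun x i => dotProduct_comm _ _
  rw [h1, h1, h1, h1]

theorem wt_two (w : κ → ℤ) (d : κ →₀ ℕ) : wt (fun k => 2 * w k) d = 2 * wt w d := by
  rw [wt, wt, Finset.mul_sum]
  exact Finset.sum_congr rfl fun k _ => by ring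

/-- The leading form of a presented determinant is presented, with refined labels. -/
theorem Pres.stage [CharZero F] (P : Pres F ι κ Λ) (hf : P.f ≠ 0) (w : κ → ℤ) :
    ∃ P' : Pres F ι κ (Λ × ℤ), P'.f ≠ 0 ∧ (∀ c, (P'.β c).1 = P.β c) ∧
      (∀ k, P'.alive k → P.alive k ∧ (P'.a k).1 = P.a k ∧ (P'.b k).1 = P.b k ∧
        2 * w k + (P'.a k).2 + (P'.b k).2 = 0) ∧
      ∃ μ : ℤ, (∀ d, coeff d P.f ≠ 0 → μ ≤ wt w d) ∧
        (∀ d, coeff d P'.f ≠ 0 ↔ coeff d P.f ≠ 0 ∧ wt w d = μ) := by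
  classical
  let Q : ℤ → Prop := fun z => ∃ (S : Matrix ι ι F) (ρ : ι → ℤ), S.det ≠ 0 ∧
    (∀ c d, S c d ≠ 0 → P.β c = P.β d) ∧
    Feas (S * P.B₀ * Sᵀ) (fun k => S *ᵥ P.u k) (fun k => S *ᵥ P.v k) w ρ ∧ ∑ c, ρ c = z
  -- general consequences of feasibility
  have hcoef : ∀ (S : Matrix ι ι F) (ρ : ι → ℤ), S.det ≠ 0 →
      Feas (S * P.B₀ * Sᵀ) (fun k => S *ᵥ P.u k) (fun k => S *ᵥ P.v k) w ρ →
      (∀ d, coeff d P.f ≠ 0 → 0 ≤ wt w d + ∑ c, ρ c) ∧
      (∀ d, coeff d (symb (lead 0 ρ (S * P.B₀ * Sᵀ)) (fun k => lead (2 * w k) ρ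
        (hyp (S *ᵥ P.u k) (S *ᵥ P.v k)))).det =
          if wt w d + ∑ c, ρ c = 0 then S.det ^ 2 * coeff d P.f else 0) := by
    intro S ρ hS hF
    have h0 : ∀ i j, (S * P.B₀ * Sᵀ) i j ≠ 0 → 0 ≤ ρ i + ρ j := hF.1
    have h1 : ∀ k i j, hyp (S *ᵥ P.u k) (S *ᵥ P.v k) i j ≠ 0 → 0 ≤ 2 * w k + ρ i + ρ j := by
      intro k i j hij
      by_contra hneg
      apply hij
      rw [hyp]
      have e1 : (S *ᵥ P.u k) i * (S *ᵥ P.v k) j = 0 := by
        by_contra h3
        exact hneg (hF.2 k i j (left_ne_zero_of_mul h3) (right_ne_zero_of_mul h3))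
      have e2 : (S *ᵥ P.v k) i * (S *ᵥ P.u k) j = 0 := by
        by_contra h3
        have := hF.2 k j i (right_ne_zero_of_mul h3) (left_ne_zero_of_mul h3)
        apply hneg
        linarith
      rw [e1, e2, add_zero]
    have hdet : (symb (S * P.B₀ * Sᵀ) (fun k => hyp (S *ᵥ P.u k) (S *ᵥ P.v k))).det =
        C (S.det ^ 2) * P.f := by
      have : (fun k => hyp (S *ᵥ P.u k) (S *ᵥ P.v k)) = fun k => S * hyp (P.u k) (P.v k) * Sᵀ := by
        funext k; rw [hyp_conj]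
      rw [this, det_symb_conj]
      rfl
    refine ⟨fun d hd => ?_, fun d => ?_⟩
    · have hd' : coeff d (symb (S * P.B₀ * Sᵀ)
          (fun k => hyp (S *ᵥ P.u k) (S *ᵥ P.v k))).det ≠ 0 := by
        rw [hdet, coeff_C_mul]
        exact mul_ne_zero (pow_ne_zero 2 hS) hd
      have := coeff_nonneg_wt _ _ (fun k => 2 * w k) ρ h0 h1 d hd'
      rw [wt_two] at this
      linarith
    · rw [coeff_lead _ _ (fun k => 2 * w k) ρ h0 h1 d, wt_two, hdet, coeff_C_mul]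
      by_cases h : wt w d + ∑ c, ρ c = 0
      · rw [if_pos (by linarith), if_pos h]
      · rw [if_neg (fun h' => h (by linarith)), if_neg h]
  obtain ⟨d₀, hd₀⟩ := MvPolynomial.exists_coeff_ne_zero hf
  have hbdd : ∃ bb : ℤ, ∀ z, Q z → bb ≤ z := by
    refine ⟨- wt w d₀, ?_⟩
    rintro z ⟨S, ρ, hS, _, hF, rfl⟩
    have := (hcoef S ρ hS hF).1 d₀ hd₀
    linarith
  have hinh : ∃ z, Q z := by
    refine ⟨_, 1, fun _ => ∑ k, |w k|, ?_, ?_, ?_, rfl⟩
    · rw [Matrix.det_one]; exact one_ne_zero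
    · intro c d hcd
      by_contra hne
      apply hcd
      rw [Matrix.one_apply_ne]
      rintro rfl
      exact hne rfl
    · have hnn : 0 ≤ ∑ k, |w k| := Finset.sum_nonneg fun k _ => abs_nonneg _
      refine ⟨fun c c' _ => by linarith, fun k c c' _ _ => ?_⟩
      have h1 : |w k| ≤ ∑ k, |w k| :=
        Finset.single_le_sum (f := fun k => |w k|) (fun k _ => abs_nonneg _) (Finset.mem_univ k)
      have h2 := neg_abs_le (w k)
      show 0 ≤ 2 * w k + ∑ k, |w k| + ∑ k, |w k|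
      linarith
  obtain ⟨z, ⟨S, ρ, hS, hSβ, hF, hz⟩, hmin⟩ := Int.exists_least_of_bdd hbdd hinh
  -- transported data
  have hsymm : (S * P.B₀ * Sᵀ).IsSymm := by
    rw [Matrix.IsSymm, Matrix.transpose_mul, Matrix.transpose_mul, Matrix.transpose_transpose,
      P.symm.eq, Matrix.mul_assoc]
  have hBβ : ∀ c c', (S * P.B₀ * Sᵀ) c c' ≠ 0 → P.β c + P.β c' = 0 := by
    intro c c' h
    rw [conj_apply] at h
    obtain ⟨d, _, hd⟩ := Finset.exists_ne_zero_of_sum_ne_zero h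
    obtain ⟨d', _, hd'⟩ := Finset.exists_ne_zero_of_sum_ne_zero (right_ne_zero_of_mul hd)
    rw [hSβ c d (left_ne_zero_of_mul hd), hSβ c' d' (right_ne_zero_of_mul hd')]
    exact P.hB d d' (left_ne_zero_of_mul hd')
  have huβ : ∀ k c, (S *ᵥ P.u k) c ≠ 0 → P.β c = P.a k := by
    intro k c h
    obtain ⟨d, _, hd⟩ := Finset.exists_ne_zero_of_sum_ne_zero h
    rw [hSβ c d (left_ne_zero_of_mul hd)]
    exact P.hu k d (right_ne_zero_of_mul hd)
  have hvβ : ∀ k c, (S *ᵥ P.v k) c ≠ 0 → P.β c = P.b k := by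
    intro k c h
    obtain ⟨d, _, hd⟩ := Finset.exists_ne_zero_of_sum_ne_zero h
    rw [hSβ c d (left_ne_zero_of_mul hd)]
    exact P.hv k d (right_ne_zero_of_mul hd)
  have hdet : (symb (lead 0 ρ (S * P.B₀ * Sᵀ)) (fun k => lead (2 * w k) ρ
      (hyp (S *ᵥ P.u k) (S *ᵥ P.v k)))).det ≠ 0 := by
    intro h0
    obtain ⟨T, ρ', hT, hTβ, hF', hlt⟩ := improve P.β (S * P.B₀ * Sᵀ) hsymm hBβ
      (fun k => S *ᵥ P.u k) (fun k => S *ᵥ P.v k)
      (fun k c c' h1 h2 => (huβ k c h1).trans (huβ k c' h2).symm)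
      (fun k c c' h1 h2 => (hvβ k c h1).trans (hvβ k c' h2).symm) w ρ hF h0
    have hQ : Q (∑ c, ρ' c) := by
      refine ⟨T * S, ρ', ?_, ?_, ?_, rfl⟩
      · rw [Matrix.det_mul]; exact mul_ne_zero hT hS
      · intro c d h
        rw [Matrix.mul_apply] at h
        obtain ⟨e, _, he⟩ := Finset.exists_ne_zero_of_sum_ne_zero h
        rw [hTβ c e (left_ne_zero_of_mul he)]
        exact hSβ e d (right_ne_zero_of_mul he)
      · have e1 : T * S * P.B₀ * (T * S)ᵀ = T * (S * P.B₀ * Sᵀ) * Tᵀ := by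
          rw [Matrix.transpose_mul]
          simp only [Matrix.mul_assoc]
        have e2 : ∀ x : ι → F, (T * S) *ᵥ x = T *ᵥ (S *ᵥ x) := fun x => by
          rw [Matrix.mulVec_mulVec]
        rw [e1]
        simp only [e2]
        exact hF'
    have := hmin _ hQ
    linarith
  have hF2 : ∀ k c c', (S *ᵥ P.v k) c ≠ 0 → (S *ᵥ P.u k) c' ≠ 0 → 0 ≤ 2 * w k + ρ c + ρ c' :=
    fun k c c' h1 h2 => by
      have := hF.2 k c' c h2 h1
      linarith
  set ub : κ → ι → F := fun k => lvec (w k) ρ (S *ᵥ P.u k) (S *ᵥ P.v k) with hub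
  set vb : κ → ι → F := fun k => lvec (w k) ρ (S *ᵥ P.v k) (S *ᵥ P.u k) with hvb
  have hlead : (fun k => lead (2 * w k) ρ (hyp (S *ᵥ P.u k) (S *ᵥ P.v k))) =
      fun k => hyp (ub k) (vb k) := by
    funext k
    exact lead_hyp (hF.2 k)
  let a' : κ → Λ × ℤ := fun k => if h : ∃ c, ub k c ≠ 0 then (P.β h.choose, ρ h.choose) else 0
  let b' : κ → Λ × ℤ := fun k => if h : ∃ c, vb k c ≠ 0 then (P.β h.choose, ρ h.choose) else 0
  have ha' : ∀ k c, ub k c ≠ 0 → (P.β c, ρ c) = a' k := by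
    intro k c hc
    have h : ∃ c, ub k c ≠ 0 := ⟨c, hc⟩
    show (P.β c, ρ c) = if h : ∃ c, ub k c ≠ 0 then (P.β h.choose, ρ h.choose) else 0
    rw [dif_pos h]
    refine Prod.ext ?_ ?_
    · exact (huβ k c (lvec_ne hc).1).trans (huβ k _ (lvec_ne h.choose_spec).1).symm
    · exact lvec_const (hF.2 k) hc h.choose_spec
  have hb' : ∀ k c, vb k c ≠ 0 → (P.β c, ρ c) = b' k := by
    intro k c hc
    have h : ∃ c, vb k c ≠ 0 := ⟨c, hc⟩
    show (P.β c, ρ c) = if h : ∃ c, vb k c ≠ 0 then (P.β h.choose, ρ h.choose) else 0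
    rw [dif_pos h]
    refine Prod.ext ?_ ?_
    · exact (hvβ k c (lvec_ne hc).1).trans (hvβ k _ (lvec_ne h.choose_spec).1).symm
    · exact lvec_const (hF2 k) hc h.choose_spec
  let P' : Pres F ι κ (Λ × ℤ) :=
    { B₀ := lead 0 ρ (S * P.B₀ * Sᵀ)
      u := ub
      v := vb
      β := fun c => (P.β c, ρ c)
      a := a'
      b := b'
      symm := lead_symm 0 ρ hsymm
      hB := by
        intro c c' h
        rw [lead] at h
        split_ifs at h with h1
        · have h2 := hBβ c c' h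
          show (P.β c + P.β c', ρ c + ρ c') = 0
          rw [h2]
          have : ρ c + ρ c' = 0 := by linarith
          rw [this]; rfl
        · exact absurd rfl h
      hu := ha'
      hv := hb' }
  have hf' : P'.f = (symb (lead 0 ρ (S * P.B₀ * Sᵀ)) (fun k => lead (2 * w k) ρ
      (hyp (S *ᵥ P.u k) (S *ᵥ P.v k)))).det := by
    rw [hlead]; rfl
  refine ⟨P', by rw [hf']; exact hdet, fun c => rfl, ?_, - ∑ c, ρ c, ?_, ?_⟩
  · rintro k ⟨⟨c, hc⟩, ⟨c', hc'⟩⟩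
    have hc1 : ub k c ≠ 0 := hc
    have hc2 : vb k c' ≠ 0 := hc'
    have e1 := ha' k c hc1
    have e2 := hb' k c' hc2
    have e3 : a' k = (P.β c, ρ c) := e1.symm
    have e4 : b' k = (P.β c', ρ c') := e2.symm
    refine ⟨⟨?_, ?_⟩, ?_, ?_, ?_⟩
    · obtain ⟨d, _, hd⟩ := Finset.exists_ne_zero_of_sum_ne_zero (lvec_ne hc1).1
      exact ⟨d, right_ne_zero_of_mul hd⟩
    · obtain ⟨d, _, hd⟩ := Finset.exists_ne_zero_of_sum_ne_zero (lvec_ne hc2).1
      exact ⟨d, right_ne_zero_of_mul hd⟩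
    · show (a' k).1 = P.a k
      rw [e3]; exact huβ k c (lvec_ne hc1).1
    · show (b' k).1 = P.b k
      rw [e4]; exact hvβ k c' (lvec_ne hc2).1
    · show 2 * w k + (a' k).2 + (b' k).2 = 0
      rw [e3, e4]
      by_contra h
      have h3 := lvec_mul (hF.2 k) c c'
      rw [if_neg h] at h3
      exact (mul_ne_zero hc1 hc2) h3
  · intro d hd
    have := (hcoef S ρ hS hF).1 d hd
    linarith
  · intro d
    rw [hf', (hcoef S ρ hS hF).2 d]
    constructor
    · intro h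
      split_ifs at h with h1
      · exact ⟨right_ne_zero_of_mul h, by linarith⟩
      · exact absurd rfl h
    · rintro ⟨h1, h2⟩
      rw [if_pos (by linarith)]
      exact mul_ne_zero (pow_ne_zero 2 hS) h1

end

end Pool.Agent.Lib.MP_64d474_lc
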