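import Mathlib
import Pool.Agent.Lib.MP_64d474_lc.QnWalk

/-!
If there are no nontrivial closed walks, the determinant is a single monomial.
-/

open Matrix Module MvPolynomial

set_option linter.unusedSectionVars false

namespace Pool.Agent.Lib.MP_64d474_lc

section

variable {F : Type*} [Field F] {ι κ : Type*} [Fintype ι] [DecidableEq ι] [Fintype κ]
  [DecidableEq κ] {Λ : Type*} [AddCommGroup Λ] [DecidableEq Λ]

/-- steps following the signs of `z` -/
def Pres.arcz (P : Pres F ι κ Λ) (z : κ → ℤ) (g g' : Λ) (e : κ → ℤ) : Prop :=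
  ∃ k, z k ≠ 0 ∧ e = Pi.single k (Int.sign (z k)) ∧
    ((g = Int.sign (z k) • P.a k ∧ g' = -(Int.sign (z k) • P.b k)) ∨
      (g = Int.sign (z k) • P.b k ∧ g' = -(Int.sign (z k) • P.a k)))

theorem sign_cases {x : ℤ} (h : x ≠ 0) : Int.sign x = 1 ∨ Int.sign x = -1 := by
  rcases lt_or_gt_of_ne h with h | h
  · right; exact Int.sign_eq_neg_one_of_neg h
  · left; exact Int.sign_eq_one_of_pos h

theorem Pres.arcz_arc (P : Pres F ι κ Λ) {z : κ → ℤ} (hz : ∀ k, z k ≠ 0 → P.alive k) {g g' : Λ}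
    {e : κ → ℤ} (h : P.arcz z g g' e) : P.arc g g' e := by
  obtain ⟨k, hk, he, h⟩ := h
  exact ⟨k, hz k hk, _, sign_cases hk, he, h⟩

theorem Pres.arcz_next (P : Pres F ι κ Λ) (htf : ∀ g : Λ, -g = g → g = 0) {z : κ → ℤ}
    (hbal : ∀ l : Λ → ℤ, (∀ g, l (-g) = - l g) → ∑ k, z k * (l (P.a k) + l (P.b k)) = 0)
    {h g : Λ} {e : κ → ℤ} (he : P.arcz z h g e) : ∃ g' e', P.arcz z g g' e' := by
  by_contra hcon
  push Not at hcon
  have hno : ∀ k, z k ≠ 0 → Int.sign (z k) • P.a k ≠ g ∧ Int.sign (z k) • P.b k ≠ g := by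
    intro k hk
    refine ⟨fun h1 => hcon _ _ ⟨k, hk, rfl, Or.inl ⟨h1.symm, rfl⟩⟩,
      fun h1 => hcon _ _ ⟨k, hk, rfl, Or.inr ⟨h1.symm, rfl⟩⟩⟩
  obtain ⟨k₀, hk₀, -, he⟩ := he
  have hg : -g ≠ g := by
    intro hgg
    have hg0 := htf g hgg
    rcases he with ⟨-, h1⟩ | ⟨-, h1⟩
    · apply (hno k₀ hk₀).2
      rw [hg0] at h1 ⊢
      exact neg_eq_zero.mp h1.symm
    · apply (hno k₀ hk₀).1
      rw [hg0] at h1 ⊢
      exact neg_eq_zero.mp h1.symm
  let l : Λ → ℤ := fun x => (if x = g then 1 else 0) - (if x = -g then 1 else 0)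
  have hl : ∀ x, l (-x) = - l x := by
    intro x
    show (if -x = g then (1 : ℤ) else 0) - (if -x = -g then 1 else 0) = _
    have e1 : (-x = g) = (x = -g) := by rw [neg_eq_iff_eq_neg]
    have e2 : (-x = -g) = (x = g) := by rw [neg_inj]
    simp only [e1, e2, l]
    ring
  have hlg : l g = 1 := by
    show (if g = g then (1 : ℤ) else 0) - (if g = -g then 1 else 0) = 1
    rw [if_pos rfl, if_neg (fun h => hg h.symm), sub_zero]
  have hlg' : l (-g) = -1 := by rw [hl, hlg]
  have hl0 : ∀ x, x ≠ g → x ≠ -g → l x = 0 := by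
    intro x h1 h2
    show (if x = g then (1 : ℤ) else 0) - (if x = -g then 1 else 0) = 0
    rw [if_neg h1, if_neg h2, sub_zero]
  have hterm : ∀ k x, (z k ≠ 0 → Int.sign (z k) • x ≠ g) → z k * l x ≤ 0 := by
    intro k x hx
    by_cases hz : z k = 0
    · rw [hz, zero_mul]
    have h1 := hx hz
    by_cases e1 : x = g
    · rw [e1, hlg, mul_one]
      by_contra hpos
      push Not at hpos
      rw [Int.sign_eq_one_of_pos hpos, one_smul] at h1
      exact h1 e1
    · by_cases e2 : x = -g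
      · rw [e2, hlg']
        by_contra hneg
        have : z k < 0 := by linarith
        rw [Int.sign_eq_neg_one_of_neg this, neg_smul, one_smul, e2, neg_neg] at h1
        exact h1 rfl
      · rw [hl0 x e1 e2, mul_zero]
  have hstrict : ∀ k x, z k ≠ 0 → -(Int.sign (z k) • x) = g → z k * l x < 0 := by
    intro k x hz hx
    rcases lt_or_gt_of_ne hz with h1 | h1
    · rw [Int.sign_eq_neg_one_of_neg h1, neg_smul, one_smul, neg_neg] at hx
      rw [hx, hlg, mul_one]
      exact h1
    · rw [Int.sign_eq_one_of_pos h1, one_smul] at hx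
      have : x = -g := by rw [← hx, neg_neg]
      rw [this, hlg']
      linarith
  have hsum := hbal l hl
  have hle : ∀ k ∈ Finset.univ, z k * (l (P.a k) + l (P.b k)) ≤ 0 := by
    intro k _
    rw [mul_add]
    have h1 := hterm k (P.a k) fun hz => (hno k hz).1
    have h2 := hterm k (P.b k) fun hz => (hno k hz).2
    linarith
  have hlt : z k₀ * (l (P.a k₀) + l (P.b k₀)) < 0 := by
    rw [mul_add]
    have h1 := hterm k₀ (P.a k₀) fun hz => (hno k₀ hz).1
    have h2 := hterm k₀ (P.b k₀) fun hz => (hno k₀ hz).2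
    rcases he with ⟨-, h3⟩ | ⟨-, h3⟩
    · have := hstrict k₀ (P.b k₀) hk₀ h3.symm
      linarith
    · have := hstrict k₀ (P.a k₀) hk₀ h3.symm
      linarith
  have := Finset.sum_lt_sum hle ⟨k₀, Finset.mem_univ _, hlt⟩
  rw [Finset.sum_const_zero] at this
  linarith

theorem Pres.balanced_zero (P : Pres F ι κ Λ) (htf : ∀ g : Λ, -g = g → g = 0) {L : ℕ}
    (hcl : P.clean L) (hL : P.verts.card ≤ 2 ^ L) {z : κ → ℤ} (hz : ∀ k, z k ≠ 0 → P.alive k)
    (hbal : ∀ l : Λ → ℤ, (∀ g, l (-g) = - l g) → ∑ k, z k * (l (P.a k) + l (P.b k)) = 0) :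
    z = 0 := by
  by_contra hne
  obtain ⟨k₀, hk₀⟩ : ∃ k, z k ≠ 0 := by
    by_contra h
    push Not at h
    exact hne (funext h)
  let S : Type _ := {g : Λ // ∃ g' e, P.arcz z g g' e}
  have hnext : ∀ g : S, ∃ (g' : S) (e : κ → ℤ), P.arcz z g.1 g'.1 e := by
    rintro ⟨g, g', e, h⟩
    exact ⟨⟨g', P.arcz_next htf hbal h⟩, e, h⟩
  choose nx ev hnx using hnext
  let g₀ : S := ⟨Int.sign (z k₀) • P.a k₀, _, _, k₀, hk₀, rfl, Or.inl ⟨rfl, rfl⟩⟩
  let G : ℕ → S := fun i => nx^[i] g₀
  have hG : ∀ i, P.arcz z (G i).1 (G (i + 1)).1 (ev (G i)) := by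
    intro i
    have : G (i + 1) = nx (G i) := Function.iterate_succ_apply' nx i g₀
    rw [this]
    exact hnx (G i)
  have hGv : ∀ i, (G i).1 ∈ P.verts := fun i => (P.arc_verts (P.arcz_arc hz (hG i))).1
  have hwalk : ∀ s i h, h ≤ 2 ^ s →
      P.Q s (G i).1 (G (i + h)).1 (∑ l ∈ Finset.range h, ev (G (i + l))) := by
    intro s
    induction s with
    | zero =>
      intro i h hh
      rw [pow_zero] at hh
      refine ⟨hGv i, ?_⟩
      rcases Nat.le_one_iff_eq_zero_or_eq_one.mp hh with rfl | rfl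
      · left
        exact ⟨rfl, by rw [Finset.sum_range_zero]⟩
      · right
        rw [Finset.sum_range_one, add_zero]
        exact P.arcz_arc hz (hG i)
    | succ s ih =>
      intro i h hh
      rw [pow_succ] at hh
      obtain ⟨h₁, h₂, rfl, e1, e2⟩ : ∃ h₁ h₂, h = h₁ + h₂ ∧ h₁ ≤ 2 ^ s ∧ h₂ ≤ 2 ^ s :=
        ⟨min h (2 ^ s), h - min h (2 ^ s), by omega, by omega, by omega⟩
      have q2 := ih (i + h₁) h₂ e2
      rw [add_assoc] at q2
      refine ⟨(G (i + h₁)).1, _, _, ih i h₁ e1, q2, ?_⟩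
      · rw [Finset.sum_range_add]
        simp only [add_assoc]
  -- pigeonhole
  obtain ⟨i, j, hij, hj, hGij⟩ : ∃ i j, i < j ∧ j ≤ P.verts.card ∧ (G i).1 = (G j).1 := by
    have hcard : P.verts.card < (Finset.range (P.verts.card + 1)).card := by
      rw [Finset.card_range]; omega
    obtain ⟨x, hx, y, hy, hxy, hf⟩ := Finset.exists_ne_map_eq_of_card_lt_of_maps_to hcard
      (f := fun i => (G i).1) (fun i _ => hGv i)
    rw [Finset.mem_range] at hx hy
    rcases lt_or_gt_of_ne hxy with h | h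
    · exact ⟨x, y, h, by omega, hf⟩
    · exact ⟨y, x, h, by omega, hf.symm⟩
  obtain ⟨h, rfl⟩ : ∃ h, j = i + h := ⟨j - i, by omega⟩
  have hQ := hwalk L i h (by omega)
  rw [← hGij] at hQ
  have hzero := hcl _ _ hQ
  have hphi : ∀ e g g', P.arcz z g g' e → ∑ k, e k * Int.sign (z k) = 1 := by
    rintro e g g' ⟨k, hk, rfl, -⟩
    rw [Finset.sum_eq_single k]
    · rw [Pi.single_eq_same]
      rcases sign_cases hk with h | h <;> rw [h] <;> norm_num
    · intro b _ hb
      rw [Pi.single_eq_of_ne hb, zero_mul]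
    · intro h; exact absurd (Finset.mem_univ _) h
  have h1 : ∑ k, (∑ l ∈ Finset.range h, ev (G (i + l))) k * Int.sign (z k) = h := by
    simp only [Finset.sum_apply, Finset.sum_mul]
    rw [Finset.sum_comm]
    have : ∀ l ∈ Finset.range h, ∑ k, ev (G (i + l)) k * Int.sign (z k) = 1 := fun l _ =>
      hphi _ _ _ (hG (i + l))
    rw [Finset.sum_congr rfl this, Finset.sum_const, Finset.card_range, nsmul_eq_mul, mul_one]
  rw [hzero] at h1
  simp only [Pi.zero_apply, zero_mul, Finset.sum_const_zero] at h1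
  omega

/-- Without nontrivial closed walks there is only one monomial. -/
theorem Pres.single_monomial (P : Pres F ι κ Λ) (htf : ∀ g : Λ, -g = g → g = 0) {L : ℕ}
    (hcl : P.clean L) (hL : P.verts.card ≤ 2 ^ L) {d d' : κ →₀ ℕ} (hd : coeff d P.f ≠ 0)
    (hd' : coeff d' P.f ≠ 0) : d = d' := by
  have hdead : ∀ k, ¬ P.alive k → hyp (P.u k) (P.v k) = 0 := by
    intro k hk
    rw [Pres.alive] at hk
    push Not at hk
    ext i j
    rw [hyp]
    by_cases h : ∃ c, P.u k c ≠ 0
    · have := hk h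
      rw [this i, this j]
      simp
    · push Not at h
      rw [h i, h j]
      simp
  have hz : (fun k => (d k : ℤ) - d' k) = 0 := by
    apply P.balanced_zero htf hcl hL
    · intro k hk
      by_contra hna
      apply hk
      have h1 := coeff_dead P.B₀ (fun k => hyp (P.u k) (P.v k)) k (hdead k hna) d hd
      have h2 := coeff_dead P.B₀ (fun k => hyp (P.u k) (P.v k)) k (hdead k hna) d' hd'
      show (d k : ℤ) - d' k = 0
      rw [h1, h2, sub_self]
    · intro l hl
      have hh : ∀ d, coeff d P.f ≠ 0 →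
          wt (fun k => -(l (P.a k) + l (P.b k))) d + 2 * ∑ i, l (P.β i) = 0 := by
        intro d hd
        refine coeff_homog P.B₀ (fun k => hyp (P.u k) (P.v k)) _ _ ?_ ?_ d hd
        · intro i j hij
          have := eq_neg_of_add_eq_zero_right (P.hB i j hij)
          rw [this, hl]
          ring
        · intro k i j hij
          rw [hyp] at hij
          by_cases h1 : P.u k i * P.v k j = 0
          · rw [h1, zero_add] at hij
            rw [P.hv k i (left_ne_zero_of_mul hij), P.hu k j (right_ne_zero_of_mul hij)]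
            ring
          · rw [P.hu k i (left_ne_zero_of_mul h1), P.hv k j (right_ne_zero_of_mul h1)]
            ring
      have h1 := hh d hd
      have h2 := hh d' hd'
      have h3 : ∑ k, ((d k : ℤ) - d' k) * (l (P.a k) + l (P.b k)) =
          -(wt (fun k => -(l (P.a k) + l (P.b k))) d - wt (fun k => -(l (P.a k) + l (P.b k))) d') := by
        rw [wt, wt, ← Finset.sum_sub_distrib, ← Finset.sum_neg_distrib]
        exact Finset.sum_congr rfl fun k _ => by ring
      rw [h3]
      linarith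
  ext k
  have := congrFun hz k
  simp only [Pi.zero_apply] at this
  omega

end

end Pool.Agent.Lib.MP_64d474_lc
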