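import Mathlib

/-!
Small weights separating few integer vectors.
-/

open Polynomial

namespace Pool.Agent.Lib.MP_64d474_lc

theorem exists_hash (m p : ℕ) (hp : p.Prime) (Z : Finset (Fin m → ℤ))
    (hb : ∀ z ∈ Z, ∀ k, |z k| < p) (hcard : Z.card * m < p) :
    ∃ b < p, ∀ z ∈ Z, z ≠ 0 → ∑ k, z k * ((b ^ (k : ℕ) % p : ℕ) : ℤ) ≠ 0 := by
  classical
  have : Fact p.Prime := ⟨hp⟩
  let pz : (Fin m → ℤ) → (ZMod p)[X] := fun z => ∑ k, C ((z k : ℤ) : ZMod p) * X ^ (k : ℕ)
  have hcoef : ∀ z (k : Fin m), (pz z).coeff k = ((z k : ℤ) : ZMod p) := by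
    intro z k
    simp only [pz, finsetSum_coeff, coeff_C_mul, coeff_X_pow]
    rw [Finset.sum_eq_single k]
    · rw [if_pos rfl, mul_one]
    · intro j _ hj
      rw [if_neg (fun h => hj (Fin.ext h).symm), mul_zero]
    · intro h; exact absurd (Finset.mem_univ _) h
  have hne : ∀ z ∈ Z, z ≠ 0 → pz z ≠ 0 := by
    intro z hz hz0 h0
    obtain ⟨k, hk⟩ : ∃ k, z k ≠ 0 := by
      by_contra h
      push Not at h
      exact hz0 (funext h)
    have h1 := hcoef z k
    rw [h0, coeff_zero] at h1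
    have h2 := (ZMod.intCast_zmod_eq_zero_iff_dvd (z k) p).mp h1.symm
    have h3 := Int.eq_zero_of_abs_lt_dvd h2 (hb z hz k)
    exact hk h3
  have hdeg : ∀ z, (pz z).natDegree ≤ m := by
    intro z
    refine natDegree_sum_le_of_forall_le _ _ fun k _ => ?_
    exact (natDegree_C_mul_X_pow_le _ _).trans k.2.le
  let bad : Finset (ZMod p) := Z.biUnion fun z => (pz z).roots.toFinset
  have hbad : bad.card ≤ Z.card * m := by
    refine Finset.card_biUnion_le_card_mul _ _ _ fun z _ => ?_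
    exact (Multiset.toFinset_card_le _).trans ((card_roots' _).trans (hdeg z))
  obtain ⟨b, hb'⟩ : ∃ b : ZMod p, b ∉ bad := by
    by_contra h
    push Not at h
    have h1 : (Finset.univ : Finset (ZMod p)).card ≤ bad.card :=
      Finset.card_le_card fun x _ => h x
    rw [Finset.card_univ, ZMod.card] at h1
    omega
  refine ⟨b.val, ZMod.val_lt b, fun z hz hz0 h0 => hb' ?_⟩
  rw [Finset.mem_biUnion]
  refine ⟨z, hz, ?_⟩
  rw [Multiset.mem_toFinset, mem_roots (hne z hz hz0), IsRoot.def]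
  have h1 := congrArg (Int.cast : ℤ → ZMod p) h0
  rw [Int.cast_sum, Int.cast_zero] at h1
  rw [← h1]
  simp only [pz, eval_finsetSum, eval_mul, eval_C, eval_pow, eval_X]
  refine Finset.sum_congr rfl fun k _ => ?_
  push_cast
  rw [ZMod.natCast_zmod_val]

end Pool.Agent.Lib.MP_64d474_lc
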