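import Mathlib
import Pool.Agent.Lib.MP_64d474_lc.QnEnd
import Pool.Agent.Lib.MP_64d474_lc.QnHash

/-!
Iterating the passage to leading forms until a single monomial is left.
-/

open Matrix Module MvPolynomial

set_option linter.unusedSectionVars false

namespace Pool.Agent.Lib.MP_64d474_lc

section

variable {F : Type*} [Field F] [CharZero F] {ι : Type*} [Fintype ι] [DecidableEq ι] {m : ℕ}

/-- hash weights -/
def hw (p b : ℕ) (k : Fin m) : ℤ := ((b ^ (k : ℕ) % p : ℕ) : ℤ)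

/-- lexicographic comparison of weights -/
def lexLT (p : ℕ) : List ℕ → (Fin m →₀ ℕ) → (Fin m →₀ ℕ) → Prop
  | [], _, _ => False
  | b :: bs, d, d' => wt (hw p b) d < wt (hw p b) d' ∨
      (wt (hw p b) d = wt (hw p b) d' ∧ lexLT p bs d d')

theorem clean_next {Λ : Type} [AddCommGroup Λ] [DecidableEq Λ] (P : Pres F ι (Fin m) Λ)
    (hf : P.f ≠ 0) {p : ℕ} (hp : p.Prime) {s : ℕ} (hs : 2 ^ s < p) (Z : Finset (Fin m → ℤ))
    (hZc : Z.card * m < p) (hZ : ∀ g z, P.Q s g g z → z ∈ Z) :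
    ∃ b < p, ∃ P' : Pres F ι (Fin m) (Λ × ℤ), P'.f ≠ 0 ∧ P'.clean s ∧
      ∃ μ : ℤ, (∀ d, coeff d P.f ≠ 0 → μ ≤ wt (hw p b) d) ∧
        (∀ d, coeff d P'.f ≠ 0 ↔ coeff d P.f ≠ 0 ∧ wt (hw p b) d = μ) := by
  classical
  let Z' := Z.filter fun z => ∃ g, P.Q s g g z
  obtain ⟨b, hb, hbz⟩ := exists_hash m p hp Z' (by
    intro z hz k
    obtain ⟨g, hg⟩ := (Finset.mem_filter.mp hz).2
    have h1 := P.Q_bound hg k
    have h2 : ((2 : ℤ) ^ s) < p := by exact_mod_cast hs
    linarith) (by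
    refine lt_of_le_of_lt (Nat.mul_le_mul_right m ?_) hZc
    exact Finset.card_filter_le _ _)
  obtain ⟨P', hf', hβ, hal, hμ⟩ := P.stage hf (hw p b)
  have href : Refines P' P (hw p b) := ⟨hβ, hal⟩
  refine ⟨b, hb, P', hf', ?_, hμ⟩
  intro g z hQ
  by_contra hz
  have h1 := href.Q hQ
  have h2 := href.closed hQ
  exact hbz z (Finset.mem_filter.mpr ⟨hZ _ _ h1, _, h1⟩) hz h2

theorem chain {n p : ℕ} (hn : Fintype.card ι ≤ n) (hp : p.Prime)
    (hp2 : (2 * n) ^ 4 * m < p) : ∀ (r : ℕ) {Λ : Type} [AddCommGroup Λ] [DecidableEq Λ]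
    (P : Pres F ι (Fin m) Λ) (_ : ∀ g : Λ, -g = g → g = 0) (_ : P.f ≠ 0) (s : ℕ)
    (_ : P.clean (s + 1)) (_ : 2 * n ≤ 2 ^ (s + 1 + r)) (_ : 2 ^ (s + 1 + r) < p),
    ∃ bs : List ℕ, bs.length = r ∧ (∀ b ∈ bs, b < p) ∧ ∃ d, coeff d P.f ≠ 0 ∧
      ∀ d', coeff d' P.f ≠ 0 → d' ≠ d → lexLT p bs d d' := by
  intro r
  induction r with
  | zero =>
    intro Λ _ _ P htf hf s hcl h2n hsp
    obtain ⟨d, hd⟩ := MvPolynomial.exists_coeff_ne_zero hf
    refine ⟨[], rfl, by simp, d, hd, fun d' hd' hne => ?_⟩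
    exact absurd (P.single_monomial htf hcl (P.card_verts.trans (by
      have := Nat.mul_le_mul_left 2 hn
      exact this.trans h2n)) hd' hd) hne
  | succ r ih =>
    intro Λ _ _ P htf hf s hcl h2n hsp
    obtain ⟨Z, hZc, hZ⟩ := P.count_succ hcl
    have hs2 : 2 ^ (s + 2) < p := by
      refine lt_of_le_of_lt (Nat.pow_le_pow_right (by norm_num) ?_) hsp
      omega
    obtain ⟨b, hb, P', hf', hcl', μ, hμ1, hμ2⟩ := clean_next P hf hp hs2 Z (by
      refine lt_of_le_of_lt (Nat.mul_le_mul_right m (hZc.trans ?_)) hp2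
      exact Nat.pow_le_pow_left (Nat.mul_le_mul_left 2 hn) 4) hZ
    obtain ⟨bs, hbs1, hbs2, d, hd, hmin⟩ := ih P' (by
      rintro ⟨g, x⟩ h
      have h1 : -g = g := congrArg Prod.fst h
      have h2 : -x = x := congrArg Prod.snd h
      have h3 : x = 0 := by omega
      rw [htf g h1, h3]; rfl) hf' (s + 1) hcl' (by
        rw [show s + 1 + 1 + r = s + 1 + (r + 1) by ring]; exact h2n) (by
        rw [show s + 1 + 1 + r = s + 1 + (r + 1) by ring]; exact hsp)
    refine ⟨b :: bs, by rw [List.length_cons, hbs1], ?_, d, ((hμ2 d).mp hd).1, ?_⟩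
    · intro b' hb'
      rcases List.mem_cons.mp hb' with rfl | h
      · exact hb
      · exact hbs2 b' h
    · intro d' hd' hne
      have e1 := ((hμ2 d).mp hd).2
      have e2 := hμ1 d' hd'
      rcases lt_or_eq_of_le e2 with h | h
      · left
        rw [e1]; exact h
      · right
        refine ⟨by rw [e1, h], hmin d' ((hμ2 d').mpr ⟨hd', h.symm⟩) hne⟩

theorem chain_start {n p : ℕ} (hn : Fintype.card ι ≤ n) (hp : p.Prime)
    (hp1 : (2 * m + 1) ^ 2 * m < p) (hp2 : (2 * n) ^ 4 * m < p) (r : ℕ) {Λ : Type}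
    [AddCommGroup Λ] [DecidableEq Λ] (P : Pres F ι (Fin m) Λ) (htf : ∀ g : Λ, -g = g → g = 0)
    (hf : P.f ≠ 0) (h2n : 2 * n ≤ 2 ^ (1 + r)) (hrp : 2 ^ (1 + r) < p) :
    ∃ bs : List ℕ, bs.length = r + 1 ∧ (∀ b ∈ bs, b < p) ∧ ∃ d, coeff d P.f ≠ 0 ∧
      ∀ d', coeff d' P.f ≠ 0 → d' ≠ d → lexLT p bs d d' := by
  obtain ⟨Z, hZc, hZ⟩ := P.count_one
  rw [Fintype.card_fin] at hZc
  have hs2 : 2 ^ 1 < p := lt_of_le_of_lt (Nat.pow_le_pow_right (by norm_num) (by omega)) hrp
  obtain ⟨b, hb, P', hf', hcl', μ, hμ1, hμ2⟩ := clean_next P hf hp hs2 Z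
    (lt_of_le_of_lt (Nat.mul_le_mul_right m hZc) hp1) hZ
  obtain ⟨bs, hbs1, hbs2, d, hd, hmin⟩ := chain (F := F) (ι := ι) hn hp hp2 r P' (by
    rintro ⟨g, x⟩ h
    have h1 : -g = g := congrArg Prod.fst h
    have h2 : -x = x := congrArg Prod.snd h
    have h3 : x = 0 := by omega
    rw [htf g h1, h3]; rfl) hf' 0 hcl' (by rw [zero_add]; exact h2n) (by rw [zero_add]; exact hrp)
  refine ⟨b :: bs, by rw [List.length_cons, hbs1], ?_, d, ((hμ2 d).mp hd).1, ?_⟩
  · intro b' hb'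
    rcases List.mem_cons.mp hb' with rfl | h
    · exact hb
    · exact hbs2 b' h
  · intro d' hd' hne
    have e1 := ((hμ2 d).mp hd).2
    have e2 := hμ1 d' hd'
    rcases lt_or_eq_of_le e2 with h | h
    · left
      rw [e1]; exact h
    · right
      refine ⟨by rw [e1, h], hmin d' ((hμ2 d').mpr ⟨hd', h.symm⟩) hne⟩

/-- natural number weight -/
def nw (W : Fin m → ℕ) (d : Fin m →₀ ℕ) : ℕ := ∑ k, W k * d k

/-- combined weights -/
def comb (p N : ℕ) : List ℕ → Fin m → ℕ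
  | [], _ => 0
  | b :: bs, k => (b ^ (k : ℕ) % p) * N ^ bs.length + comb p N bs k

theorem nw_hw (p b : ℕ) (d : Fin m →₀ ℕ) :
    wt (hw p b) d = (nw (fun k : Fin m => b ^ (k : ℕ) % p) d : ℕ) := by
  rw [wt, nw]
  push_cast
  rfl

theorem nw_comb_cons (p N b : ℕ) (bs : List ℕ) (d : Fin m →₀ ℕ) :
    nw (comb p N (b :: bs)) d =
      nw (fun k : Fin m => b ^ (k : ℕ) % p) d * N ^ bs.length + nw (comb p N bs) d := by
  rw [nw, nw, nw, Finset.sum_mul, ← Finset.sum_add_distrib]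
  refine Finset.sum_congr rfl fun k _ => ?_
  rw [comb]
  ring

theorem nw_lt {p N n : ℕ} (hN : n * p < N) (hp : 0 < p) (b : ℕ) (d : Fin m →₀ ℕ)
    (hd : ∑ k, d k ≤ n) : nw (fun k : Fin m => b ^ (k : ℕ) % p) d < N := by
  refine lt_of_le_of_lt ?_ hN
  calc nw (fun k : Fin m => b ^ (k : ℕ) % p) d ≤ ∑ k, p * d k :=
        Finset.sum_le_sum fun k _ => Nat.mul_le_mul_right _ (Nat.mod_lt _ hp).le
    _ = p * ∑ k, d k := by rw [Finset.mul_sum]
    _ ≤ p * n := Nat.mul_le_mul_left _ hd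
    _ = n * p := mul_comm _ _

theorem nw_comb_lt {p N n : ℕ} (hN : n * p < N) (hp : 0 < p) (bs : List ℕ) (d : Fin m →₀ ℕ)
    (hd : ∑ k, d k ≤ n) : nw (comb p N bs) d < N ^ bs.length := by
  induction bs with
  | nil =>
    rw [List.length_nil, pow_zero, nw]
    simp [comb]
  | cons b bs ih =>
    rw [nw_comb_cons, List.length_cons, pow_succ]
    have h1 := nw_lt hN hp b d hd
    have h2 : (nw (fun k : Fin m => b ^ (k : ℕ) % p) d + 1) * N ^ bs.length ≤
        N * N ^ bs.length := Nat.mul_le_mul_right _ h1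
    calc nw (fun k : Fin m => b ^ (k : ℕ) % p) d * N ^ bs.length + nw (comb p N bs) d <
        nw (fun k : Fin m => b ^ (k : ℕ) % p) d * N ^ bs.length + N ^ bs.length := by omega
      _ = (nw (fun k : Fin m => b ^ (k : ℕ) % p) d + 1) * N ^ bs.length := by ring
      _ ≤ N * N ^ bs.length := h2
      _ = N ^ bs.length * N := mul_comm _ _

theorem comb_lt {p N n : ℕ} (hN : n * p < N) (hp : 0 < p) (bs : List ℕ) (d d' : Fin m →₀ ℕ)
    (hd : ∑ k, d k ≤ n) (h : lexLT p bs d d') : nw (comb p N bs) d < nw (comb p N bs) d' := by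
  induction bs with
  | nil => exact absurd h id
  | cons b bs ih =>
    rw [nw_comb_cons, nw_comb_cons]
    rw [lexLT, nw_hw, nw_hw] at h
    rcases h with h | ⟨h1, h2⟩
    · have h' : nw (fun k : Fin m => b ^ (k : ℕ) % p) d + 1 ≤
          nw (fun k : Fin m => b ^ (k : ℕ) % p) d' := by exact_mod_cast h
      have h3 := nw_comb_lt hN hp bs d hd
      have h4 := Nat.mul_le_mul_right (N ^ bs.length) h'
      calc nw (fun k : Fin m => b ^ (k : ℕ) % p) d * N ^ bs.length + nw (comb p N bs) d <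
          nw (fun k : Fin m => b ^ (k : ℕ) % p) d * N ^ bs.length + N ^ bs.length := by omega
        _ = (nw (fun k : Fin m => b ^ (k : ℕ) % p) d + 1) * N ^ bs.length := by ring
        _ ≤ nw (fun k : Fin m => b ^ (k : ℕ) % p) d' * N ^ bs.length := h4
        _ ≤ _ := Nat.le_add_right _ _
    · have h1' : nw (fun k : Fin m => b ^ (k : ℕ) % p) d =
          nw (fun k : Fin m => b ^ (k : ℕ) % p) d' := by exact_mod_cast h1
      rw [h1']
      exact Nat.add_lt_add_left (ih h2) _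

/-- A polynomial with a unique monomial of minimal weight does not vanish on the monomial curve. -/
theorem exists_point (f : MvPolynomial (Fin m) F) (W : Fin m → ℕ) (D : ℕ) (d : Fin m →₀ ℕ)
    (hd : coeff d f ≠ 0) (hmin : ∀ d', coeff d' f ≠ 0 → d' ≠ d → nw W d < nw W d')
    (hD : ∀ d', coeff d' f ≠ 0 → nw W d' ≤ D) :
    ∃ t ≤ D, eval (fun k => ((t ^ W k : ℕ) : F)) f ≠ 0 := by
  classical
  let g : Polynomial F := ∑ d' ∈ f.support, Polynomial.C (coeff d' f) * Polynomial.X ^ nw W d'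
  have hg : g ≠ 0 := by
    intro h0
    have h1 := congrArg (fun q : Polynomial F => q.coeff (nw W d)) h0
    simp only [g, Polynomial.finsetSum_coeff, Polynomial.coeff_C_mul, Polynomial.coeff_X_pow,
      Polynomial.coeff_zero] at h1
    rw [Finset.sum_eq_single d] at h1
    · rw [if_pos rfl, mul_one] at h1
      exact hd h1
    · intro d' hd' hne
      rw [if_neg, mul_zero]
      exact (hmin d' (mem_support_iff.mp hd') hne).ne
    · intro h
      rw [MvPolynomial.notMem_support_iff] at h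
      exact absurd h hd
  have hdeg : g.natDegree ≤ D := by
    refine Polynomial.natDegree_sum_le_of_forall_le _ _ fun d' hd' => ?_
    exact (Polynomial.natDegree_C_mul_X_pow_le _ _).trans (hD d' (mem_support_iff.mp hd'))
  have heval : ∀ t : F, g.eval t = eval (fun k => t ^ W k) f := by
    intro t
    rw [eval_eq']
    simp only [g, Polynomial.eval_finsetSum, Polynomial.eval_mul, Polynomial.eval_C,
      Polynomial.eval_pow, Polynomial.eval_X]
    refine Finset.sum_congr rfl fun d' _ => ?_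
    congr 1
    rw [nw, ← Finset.prod_pow_eq_pow_sum]
    refine Finset.prod_congr rfl fun k _ => ?_
    rw [← pow_mul]
  by_contra hcon
  push Not at hcon
  apply hg
  apply Polynomial.eq_zero_of_natDegree_lt_card_of_eval_eq_zero' g
    ((Finset.range (D + 1)).map ⟨(Nat.cast : ℕ → F), Nat.cast_injective⟩)
  · intro x hx
    rw [Finset.mem_map] at hx
    obtain ⟨t, ht, rfl⟩ := hx
    rw [Finset.mem_range] at ht
    show g.eval ((t : ℕ) : F) = 0
    rw [heval, ← hcon t (by omega)]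
    push_cast
    rfl
  · rw [Finset.card_map, Finset.card_range]
    omega

end

end Pool.Agent.Lib.MP_64d474_lc
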