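import Mathlib
import Pool.Agent.Lib.MP_64d474_lc.QnKer

/-!
Symmetric matrices of rank at most two, and principal submatrices of full rank.
-/

open Matrix Module

set_option linter.unusedSectionVars false

namespace Pool.Agent.Lib.MP_64d474_lc

section

variable {F : Type*} [Field F] {ι : Type*} [Fintype ι] [DecidableEq ι]

theorem rank_lt_of_ker {A A' : Matrix ι ι F} (h : ∀ z, A *ᵥ z = 0 → A' *ᵥ z = 0)
    (x : ι → F) (hx : A *ᵥ x ≠ 0) (hx' : A' *ᵥ x = 0) : A'.rank < A.rank := by
  have h1 : LinearMap.ker A.mulVecLin < LinearMap.ker A'.mulVecLin := by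
    refine lt_of_le_of_ne (fun z hz => ?_) ?_
    · rw [LinearMap.mem_ker, Matrix.mulVecLin_apply] at hz ⊢
      exact h z hz
    · intro he
      have : x ∈ LinearMap.ker A.mulVecLin := by
        rw [he, LinearMap.mem_ker, Matrix.mulVecLin_apply]
        exact hx'
      rw [LinearMap.mem_ker, Matrix.mulVecLin_apply] at this
      exact hx this
  have h2 := Submodule.finrank_lt_finrank_of_lt h1
  have h3 := LinearMap.finrank_range_add_finrank_ker A.mulVecLin
  have h4 := LinearMap.finrank_range_add_finrank_ker A'.mulVecLin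
  rw [Matrix.rank, Matrix.rank]
  omega

/-- A nonzero symmetric form takes a nonzero value on the diagonal. -/
theorem exists_diag_ne [CharZero F] (A : Matrix ι ι F) (hA : A.IsSymm) (h0 : A ≠ 0) :
    ∃ x : ι → F, x ⬝ᵥ A *ᵥ x ≠ 0 := by
  by_contra hcon
  push Not at hcon
  apply h0
  have h1 : ∀ x y : ι → F, x ⬝ᵥ A *ᵥ y = 0 := by
    intro x y
    have e1 := hcon (x + y)
    rw [Matrix.mulVec_add, add_dotProduct, dotProduct_add, dotProduct_add, hcon x, hcon y,
      zero_add, add_zero, symm_dot A hA y x, ← two_mul] at e1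
    exact (mul_eq_zero.mp e1).resolve_left two_ne_zero
  ext i j
  have := h1 (Pi.single i 1) (Pi.single j 1)
  rw [Matrix.mulVec_single_one, single_one_dotProduct] at this
  exact this

/-- Splitting off a square. -/
theorem split_square [CharZero F] (A : Matrix ι ι F) (hA : A.IsSymm) (h0 : A ≠ 0) :
    ∃ (α : F) (s : ι → F) (A' : Matrix ι ι F), A'.IsSymm ∧ A'.rank < A.rank ∧
      A = α • vecMulVec s s + A' := by
  obtain ⟨x, hx⟩ := exists_diag_ne A hA h0
  set c := x ⬝ᵥ A *ᵥ x with hc
  set y := A *ᵥ x with hy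
  have hz : ∀ z, (A - c⁻¹ • vecMulVec y y) *ᵥ z = A *ᵥ z - (c⁻¹ * (x ⬝ᵥ A *ᵥ z)) • y := by
    intro z
    rw [Matrix.sub_mulVec, Matrix.smul_mulVec]
    have e1 : vecMulVec y y *ᵥ z = (y ⬝ᵥ z) • y := by
      rw [vecMulVec_mulVec]
      ext i
      simp [mul_comm]
    have e2 : y ⬝ᵥ z = x ⬝ᵥ A *ᵥ z := by
      rw [hy, dotProduct_comm, symm_dot A hA]
    rw [e1, e2, smul_smul]
  refine ⟨c⁻¹, y, A - c⁻¹ • vecMulVec y y, ?_, ?_, by abel⟩
  · rw [Matrix.IsSymm, Matrix.transpose_sub, hA.eq, Matrix.transpose_smul,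
      transpose_vecMulVec]
  · refine rank_lt_of_ker ?_ x ?_ ?_
    · intro z hz'
      rw [hz, hz', dotProduct_zero, mul_zero, zero_smul, sub_zero]
    · intro h
      exact hx (by rw [hc, hy, h, dotProduct_zero])
    · rw [hz, ← hc, inv_mul_cancel₀ hx, one_smul, hy, sub_self]

theorem rank_two_decomp [CharZero F] (A : Matrix ι ι F) (hA : A.IsSymm) (hr : A.rank ≤ 2) :
    ∃ (α β : F) (s r : ι → F), ∀ i j, A i j = α * (s i * s j) + β * (r i * r j) := by
  by_cases h0 : A = 0
  · refine ⟨0, 0, 0, 0, fun i j => ?_⟩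
    rw [h0]; simp
  obtain ⟨α, s, A', hA', hlt, he⟩ := split_square A hA h0
  by_cases h1 : A' = 0
  · refine ⟨α, 0, s, 0, fun i j => ?_⟩
    rw [he, h1]
    simp [vecMulVec_apply]
  obtain ⟨β, r, A'', hA'', hlt', he'⟩ := split_square A' hA' h1
  have h2 : A''.rank = 0 := by omega
  have h3 : A'' = 0 := by
    by_contra h
    obtain ⟨_, _, _, _, h4, _⟩ := split_square A'' hA'' h
    omega
  refine ⟨α, β, s, r, fun i j => ?_⟩
  rw [he, he', h3]
  simp [vecMulVec_apply]

theorem squares_hyp [IsAlgClosed F] [CharZero F] (α β : F) (s r : ι → F) :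
    ∃ u v : ι → F, ∀ i j, α * (s i * s j) + β * (r i * r j) = hyp u v i j := by
  obtain ⟨a, ha⟩ := IsAlgClosed.exists_pow_nat_eq α (n := 2) (by norm_num)
  obtain ⟨b, hb⟩ := IsAlgClosed.exists_pow_nat_eq (-β) (n := 2) (by norm_num)
  refine ⟨fun i => 2⁻¹ * (a * s i + b * r i), fun i => a * s i - b * r i, fun i j => ?_⟩
  rw [hyp]
  have h2 : (2 : F)⁻¹ * 2 = 1 := inv_mul_cancel₀ two_ne_zero
  have hb' : β = - b ^ 2 := by rw [hb, neg_neg]
  rw [← ha, hb']
  linear_combination (-(a ^ 2 * (s i * s j)) + b ^ 2 * (r i * r j)) * h2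

/-- A symmetric matrix has a nonsingular principal submatrix of the same rank. -/
theorem exists_principal (A : Matrix ι ι F) (hA : A.IsSymm) :
    ∃ s : Finset ι, s.card = A.rank ∧
      (A.submatrix (Subtype.val : s → ι) Subtype.val).det ≠ 0 := by
  classical
  obtain ⟨κ, a, ha, hsp, hli⟩ := exists_linearIndependent' F (fun i => A i)
  have hfin : Finite κ := Finite.of_injective a ha
  have : Fintype κ := Fintype.ofFinite κ
  have hrank : Fintype.card κ = A.rank := by
    rw [Matrix.rank_eq_finrank_span_row]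
    have h1 := finrank_span_eq_card hli
    rw [← h1, hsp]
    rfl
  have hC : ∀ i, ∃ c : κ → F, ∑ k, c k • A (a k) = A i := by
    intro i
    have h1 : A i ∈ Submodule.span F (Set.range ((fun i => A i) ∘ a)) := by
      rw [hsp]
      exact Submodule.subset_span ⟨i, rfl⟩
    rw [Submodule.mem_span_range_iff_exists_fun] at h1
    exact h1
  choose C hC' using hC
  have e1 : A = (Matrix.of C : Matrix ι κ F) * A.submatrix a id := by
    ext i j
    rw [Matrix.mul_apply]
    have := congrFun (hC' i) j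
    rw [Finset.sum_apply] at this
    rw [← this]
    rfl
  have e2 : A.submatrix a id = A.submatrix a a * (Matrix.of C : Matrix ι κ F)ᵀ := by
    ext k j
    rw [Matrix.mul_apply, Matrix.submatrix_apply, id]
    have h1 : A (a k) j = A j (a k) := by
      conv_lhs => rw [← hA.eq]
      rfl
    rw [h1]
    have h2 := congrFun (hC' j) (a k)
    rw [Finset.sum_apply] at h2
    rw [← h2]
    refine Finset.sum_congr rfl fun l _ => ?_
    rw [Pi.smul_apply, smul_eq_mul, Matrix.submatrix_apply, Matrix.transpose_apply, Matrix.of_apply]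
    have h3 : A (a k) (a l) = A (a l) (a k) := by
      conv_lhs => rw [← hA.eq]
      rfl
    rw [h3, mul_comm]
  have h5 : Fintype.card κ ≤ (A.submatrix a a).rank := by
    rw [hrank]
    conv_lhs => rw [e1, e2]
    exact (Matrix.rank_mul_le_right _ _).trans (Matrix.rank_mul_le_left _ _)
  have h6 : (A.submatrix a a).det ≠ 0 := by
    intro h0
    obtain ⟨v, hv, hAv⟩ := Matrix.exists_mulVec_eq_zero_iff.mpr h0
    have h7 : (A.submatrix a a).mulVecLin.ker ≠ ⊥ := by
      rw [Submodule.ne_bot_iff]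
      exact ⟨v, hAv, hv⟩
    have h8 := LinearMap.finrank_range_add_finrank_ker (A.submatrix a a).mulVecLin
    rw [Module.finrank_fintype_fun_eq_card] at h8
    have h9 : 0 < finrank F (A.submatrix a a).mulVecLin.ker := by
      rw [Nat.pos_iff_ne_zero]
      intro h
      exact h7 (Submodule.finrank_eq_zero.mp h)
    rw [Matrix.rank] at h5
    omega
  let e : κ ≃ (Finset.univ.map ⟨a, ha⟩ : Finset ι) :=
    Equiv.ofBijective (fun k => ⟨a k, by simp⟩) (by
      constructor
      · intro k l h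
        exact ha (congrArg Subtype.val h)
      · rintro ⟨i, hi⟩
        rw [Finset.mem_map] at hi
        obtain ⟨k, _, hk⟩ := hi
        exact ⟨k, Subtype.ext hk⟩)
  refine ⟨Finset.univ.map ⟨a, ha⟩, by rw [Finset.card_map, Finset.card_univ, hrank], ?_⟩
  have e3 : A.submatrix a a = (A.submatrix (Subtype.val : (Finset.univ.map ⟨a, ha⟩ : Finset ι) → ι)
      Subtype.val).submatrix e e := by
    ext k l
    rfl
  rw [e3, Matrix.det_submatrix_equiv_self] at h6
  exact h6

end

end Pool.Agent.Lib.MP_64d474_lc
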