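import Mathlib
import Pool.Agent.Lib.MP_64d474_lc.QnChain
import Pool.Agent.Lib.MP_64d474_lc.QnRank
import Pool.Agent.Lib.MP_64d474_lc.RankTools

/-!
A nonsingular point on one of quasi-polynomially many explicit monomial curves.
-/

open Matrix Module MvPolynomial

set_option linter.unusedSectionVars false

namespace Pool.Agent.Lib.MP_64d474_lc

section

theorem comb_sum {m : ℕ} (p N : ℕ) : ∀ (L : ℕ) (bs : List ℕ), bs.length = L → (∀ b ∈ bs, b < p) →
    ∃ b : Fin L → ℕ, (∀ i, b i < p) ∧ ∀ k : Fin m, comb p N bs k =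
      ∑ i : Fin L, (b i ^ (k : ℕ) % p) * N ^ (i : ℕ) := by
  intro L
  induction L with
  | zero =>
    intro bs hbs _
    rw [List.length_eq_zero_iff] at hbs
    subst hbs
    refine ⟨fun _ => 0, fun i => i.elim0, fun k => ?_⟩
    simp [comb]
  | succ L ih =>
    intro bs hbs hlt
    cases bs with
    | nil => simp at hbs
    | cons b₀ bs =>
      rw [List.length_cons, Nat.add_right_cancel_iff] at hbs
      obtain ⟨b, hb1, hb2⟩ := ih bs hbs fun b hb => hlt b (List.mem_cons_of_mem _ hb)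
      refine ⟨Fin.snoc b b₀, ?_, ?_⟩
      · intro i
        refine Fin.lastCases ?_ (fun i => ?_) i
        · rw [Fin.snoc_last]
          exact hlt b₀ List.mem_cons_self
        · rw [Fin.snoc_castSucc]
          exact hb1 i
      · intro k
        rw [comb, hb2, Fin.sum_univ_castSucc, Fin.snoc_last, hbs, Fin.val_last, add_comm]
        congr 1
        refine Finset.sum_congr rfl fun i _ => ?_
        rw [Fin.snoc_castSucc, Fin.val_castSucc]

theorem exists_prime_window (n m : ℕ) : ∃ p, p.Prime ∧ p ≤ 32 * (n + m + 1) ^ 5 ∧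
    (2 * m + 1) ^ 2 * m < p ∧ (2 * n) ^ 4 * m < p ∧ 2 ^ (Nat.log 2 n + 2) < p := by
  set M := n + m + 1 with hM
  have hM1 : 1 ≤ M := by omega
  obtain ⟨p, hp, h1, h2⟩ := Nat.exists_prime_lt_and_le_two_mul (16 * M ^ 5) (by positivity)
  refine ⟨p, hp, by linarith, ?_, ?_, ?_⟩
  · refine lt_of_le_of_lt ?_ h1
    calc (2 * m + 1) ^ 2 * m ≤ (2 * M) ^ 2 * M :=
          Nat.mul_le_mul (Nat.pow_le_pow_left (by omega) 2) (by omega)
      _ = 4 * M ^ 3 := by ring
      _ ≤ 16 * M ^ 5 := Nat.mul_le_mul (by norm_num) (Nat.pow_le_pow_right hM1 (by norm_num))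
  · refine lt_of_le_of_lt ?_ h1
    calc (2 * n) ^ 4 * m ≤ (2 * M) ^ 4 * M :=
          Nat.mul_le_mul (Nat.pow_le_pow_left (by omega) 4) (by omega)
      _ = 16 * M ^ 5 := by ring
  · refine lt_of_le_of_lt ?_ h1
    have h3 : 2 ^ Nat.log 2 n ≤ M := by
      rcases Nat.eq_zero_or_pos n with h0 | h0
      · rw [h0]; simpa using hM1
      · exact (Nat.pow_log_le_self 2 h0.ne').trans (by omega)
    calc 2 ^ (Nat.log 2 n + 2) = 4 * 2 ^ Nat.log 2 n := by rw [pow_add]; ring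
      _ ≤ 16 * M ^ 5 := Nat.mul_le_mul (by norm_num)
          (h3.trans (Nat.le_self_pow (by norm_num) M))

variable {F : Type*} [Field F] [CharZero F] {ι : Type*} [Fintype ι] [DecidableEq ι]

/-- the presented form of a family of hyperbolic coefficient matrices -/
def ofHyp {m : ℕ} (B₀ : Matrix ι ι F) (h₀ : B₀.IsSymm) (u v : Fin m → ι → F) :
    Pres F ι (Fin m) ℤ where
  B₀ := B₀
  u := u
  v := v
  β := fun _ => 0
  a := fun _ => 0
  b := fun _ => 0
  symm := h₀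
  hB := fun _ _ _ => rfl
  hu := fun _ _ _ => rfl
  hv := fun _ _ _ => rfl

theorem det_symb_ne_zero {m : ℕ} (B₀ : Matrix ι ι F) (B : Fin m → Matrix ι ι F) (x : Fin m → F)
    (hx : (B₀ + ∑ k, x k • B k).det ≠ 0) : (symb B₀ B).det ≠ 0 := by
  intro h
  apply hx
  rw [← eval_symb, ← RingHom.mapMatrix_apply, ← RingHom.map_det, h, map_zero]

theorem hyp_point {n m : ℕ} (hn : Fintype.card ι ≤ n) (B₀ : Matrix ι ι F) (h₀ : B₀.IsSymm)
    (u v : Fin m → ι → F) (hf : (symb B₀ (fun k => hyp (u k) (v k))).det ≠ 0) :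
    ∃ p ≤ 32 * (n + m + 1) ^ 5, p.Prime ∧ ∃ b : Fin (Nat.log 2 n + 2) → ℕ, (∀ i, b i < p) ∧
      ∃ t ≤ (n * (32 * (n + m + 1) ^ 5) + 1) ^ (Nat.log 2 n + 2),
        (B₀ + ∑ k : Fin m, ((t ^ (∑ i, (b i ^ (k : ℕ) % p) *
          (n * (32 * (n + m + 1) ^ 5) + 1) ^ (i : ℕ)) : ℕ) : F) • hyp (u k) (v k)).det ≠ 0 := by
  obtain ⟨p, hp, hpR, hp1, hp2, hp3⟩ := exists_prime_window n m
  set N := n * (32 * (n + m + 1) ^ 5) + 1 with hN
  have hNp : n * p < N := by
    rw [hN]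
    exact Nat.lt_succ_of_le (Nat.mul_le_mul_left n hpR)
  have hlog : 1 + (Nat.log 2 n + 1) = Nat.log 2 n + 2 := by omega
  have h2n : 2 * n ≤ 2 ^ (1 + (Nat.log 2 n + 1)) := by
    rw [hlog]
    have := Nat.lt_pow_succ_log_self (b := 2) (by norm_num) n
    calc 2 * n ≤ 2 * 2 ^ (Nat.log 2 n + 1) := Nat.mul_le_mul_left 2 this.le
      _ = 2 ^ (Nat.log 2 n + 2) := by rw [pow_succ 2 (Nat.log 2 n + 1)]; ring
  obtain ⟨bs, hbs1, hbs2, d, hd, hmin⟩ := chain_start hn hp hp1 hp2 (Nat.log 2 n + 1)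
    (ofHyp B₀ h₀ u v) (fun g hg => by omega) hf h2n (by rw [hlog]; exact hp3)
  have hdeg : ∀ d', coeff d' (symb B₀ (fun k => hyp (u k) (v k))).det ≠ 0 → ∑ k, d' k ≤ n :=
    fun d' hd' => (coeff_degree _ _ d' hd').trans hn
  obtain ⟨b, hb1, hb2⟩ := comb_sum (m := m) p N (Nat.log 2 n + 1 + 1) bs hbs1 hbs2
  obtain ⟨t, ht, hev⟩ := exists_point (symb B₀ (fun k => hyp (u k) (v k))).det (comb p N bs)
    (N ^ (Nat.log 2 n + 2)) d hd
    (fun d' hd' hne => comb_lt hNp hp.pos bs d d' (hdeg d hd) (hmin d' hd' hne))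
    (fun d' hd' => by
      have := nw_comb_lt hNp hp.pos bs d' (hdeg d' hd')
      rw [hbs1] at this
      exact this.le)
  refine ⟨p, hpR, hp, b, hb1, t, ht, ?_⟩
  rw [← eval_symb, ← RingHom.mapMatrix_apply, ← RingHom.map_det]
  have e : (fun k : Fin m => ((t ^ comb p N bs k : ℕ) : F)) = fun k : Fin m =>
      ((t ^ (∑ i : Fin (Nat.log 2 n + 2), (b i ^ (k : ℕ) % p) * N ^ (i : ℕ)) : ℕ) : F) := by
    funext k
    rw [hb2]
  rw [← e]
  exact hev

theorem rank_two_point {n m : ℕ} (hn : Fintype.card ι ≤ n) (B₀ : Matrix ι ι F) (h₀ : B₀.IsSymm)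
    (B : Fin m → Matrix ι ι F) (hB : ∀ k, (B k).IsSymm) (hr : ∀ k, (B k).rank ≤ 2)
    (x : Fin m → F) (hx : (B₀ + ∑ k, x k • B k).det ≠ 0) :
    ∃ p ≤ 32 * (n + m + 1) ^ 5, p.Prime ∧ ∃ b : Fin (Nat.log 2 n + 2) → ℕ, (∀ i, b i < p) ∧
      ∃ t ≤ (n * (32 * (n + m + 1) ^ 5) + 1) ^ (Nat.log 2 n + 2),
        (B₀ + ∑ k : Fin m, ((t ^ (∑ i, (b i ^ (k : ℕ) % p) *
          (n * (32 * (n + m + 1) ^ 5) + 1) ^ (i : ℕ)) : ℕ) : F) • B k).det ≠ 0 := by
  let K := AlgebraicClosure F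
  let g : F →+* K := algebraMap F K
  have : CharZero K := charZero_of_injective_algebraMap (algebraMap F K).injective
  choose α β s r hsr using fun k => rank_two_decomp (B k) (hB k) (hr k)
  have hex : ∀ k, ∃ u v : ι → K, ∀ i j, g (B k i j) = hyp u v i j := by
    intro k
    obtain ⟨u, v, huv⟩ := squares_hyp (g (α k)) (g (β k)) (fun i => g (s k i)) (fun i => g (r k i))
    refine ⟨u, v, fun i j => ?_⟩
    rw [← huv, hsr]
    simp only [map_add, map_mul]
  choose u v huv using hex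
  have hmap : ∀ y : Fin m → F, ((B₀ + ∑ k, y k • B k).map g) =
      B₀.map g + ∑ k, g (y k) • hyp (u k) (v k) := by
    intro y
    ext i j
    simp only [Matrix.map_apply, Matrix.add_apply, Matrix.sum_apply, Matrix.smul_apply,
      smul_eq_mul, map_add, map_sum, map_mul, huv]
  have hdet : ∀ y : Fin m → F, (B₀.map g + ∑ k, g (y k) • hyp (u k) (v k)).det =
      g (B₀ + ∑ k, y k • B k).det := by
    intro y
    rw [← hmap, RingHom.map_det]
    rfl
  have hf : (symb (B₀.map g) (fun k => hyp (u k) (v k))).det ≠ 0 := by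
    refine det_symb_ne_zero _ _ (fun k => g (x k)) ?_
    rw [hdet]
    intro h
    exact hx ((map_eq_zero g).mp h)
  have h₀' : (B₀.map g).IsSymm := by
    rw [Matrix.IsSymm, ← Matrix.transpose_map, h₀.eq]
  obtain ⟨p, hp, hpr, b, hb, t, ht, h⟩ := hyp_point hn (B₀.map g) h₀' u v hf
  refine ⟨p, hp, hpr, b, hb, t, ht, fun h0 => h ?_⟩
  have e := hdet (fun k : Fin m => ((t ^ (∑ i, (b i ^ (k : ℕ) % p) *
          (n * (32 * (n + m + 1) ^ 5) + 1) ^ (i : ℕ)) : ℕ) : F))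
  rw [h0, map_zero] at e
  simp only [map_natCast] at e
  exact e

/-- The rank version. -/
theorem rank_point {n m : ℕ} (hn : Fintype.card ι ≤ n) (B₀ : Matrix ι ι F) (h₀ : B₀.IsSymm)
    (B : Fin m → Matrix ι ι F) (hB : ∀ k, (B k).IsSymm) (hr : ∀ k, (B k).rank ≤ 2)
    (x : Fin m → F) :
    ∃ p ≤ 32 * (n + m + 1) ^ 5, p.Prime ∧ ∃ b : Fin (Nat.log 2 n + 2) → ℕ, (∀ i, b i < p) ∧
      ∃ t ≤ (n * (32 * (n + m + 1) ^ 5) + 1) ^ (Nat.log 2 n + 2),
        (B₀ + ∑ k, x k • B k).rank ≤ (B₀ + ∑ k : Fin m, ((t ^ (∑ i, (b i ^ (k : ℕ) % p) *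
          (n * (32 * (n + m + 1) ^ 5) + 1) ^ (i : ℕ)) : ℕ) : F) • B k).rank := by
  classical
  have hsymm : (B₀ + ∑ k, x k • B k).IsSymm := by
    rw [Matrix.IsSymm, Matrix.transpose_add, Matrix.transpose_sum, h₀.eq]
    congr 1
    refine Finset.sum_congr rfl fun k _ => ?_
    rw [Matrix.transpose_smul, (hB k).eq]
  obtain ⟨S, hS, hdet⟩ := exists_principal _ hsymm
  have hsub : ∀ y : Fin m → F,
      (B₀ + ∑ k, y k • B k).submatrix (Subtype.val : S → ι) (Subtype.val : S → ι) =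
      B₀.submatrix (Subtype.val : S → ι) (Subtype.val : S → ι) +
        ∑ k, y k • (B k).submatrix (Subtype.val : S → ι) (Subtype.val : S → ι) := by
    intro y
    ext i j
    simp [Matrix.sum_apply]
  rw [hsub] at hdet
  obtain ⟨p, hp, hpr, b, hb, t, ht, h⟩ := rank_two_point (n := n)
    (by rw [Fintype.card_coe]; exact (Finset.card_le_univ S).trans hn)
    (B₀.submatrix (Subtype.val : S → ι) (Subtype.val : S → ι)) (h₀.submatrix _)
    (fun k => (B k).submatrix (Subtype.val : S → ι) (Subtype.val : S → ι))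
    (fun k => (hB k).submatrix _)
    (fun k => (Matrix.rank_submatrix_le _ _ _).trans (hr k)) x hdet
  refine ⟨p, hp, hpr, b, hb, t, ht, ?_⟩
  rw [← hsub] at h
  rw [← hS, ← Fintype.card_coe S, ← Matrix.rank_of_det_ne_zero h]
  exact Matrix.rank_submatrix_le _ _ _

end

end Pool.Agent.Lib.MP_64d474_lc
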