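import Mathlib
import Pool.Agent.Lib.MP_64d474_lc.QnKer
import Pool.Agent.Lib.MP_64d474_lc.QnExpand

/-!
Stability of the condition `WittLeOne` under congruence and under passing to leading parts.
-/

open Matrix

set_option linter.unusedSectionVars false

namespace Pool.Agent.Lib.MP_64d474_lc

section

variable {F : Type*} [Field F] {ι : Type*} [Fintype ι] [DecidableEq ι]

theorem dot_conj {ι' : Type*} [Fintype ι'] (S : Matrix ι' ι F) (B : Matrix ι ι F) (x y : ι' → F) :
    x ⬝ᵥ (S * B * Sᵀ) *ᵥ y = (Sᵀ *ᵥ x) ⬝ᵥ B *ᵥ (Sᵀ *ᵥ y) := by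
  rw [← Matrix.mulVec_mulVec, ← Matrix.mulVec_mulVec, Matrix.dotProduct_mulVec,
    Matrix.mulVec_transpose S x]

theorem witt_conj {ι' : Type*} [Fintype ι'] (S : Matrix ι' ι F) (B : Matrix ι ι F)
    (hB : WittLeOne B) : WittLeOne (S * B * Sᵀ) := by
  intro u v h1 h2 h3 a b
  rw [dot_conj] at h1 h2 h3
  have hm := hB (Sᵀ *ᵥ u) (Sᵀ *ᵥ v) h1 h2 h3
  rw [← Matrix.mulVec_mulVec, ← Matrix.mulVec_mulVec, ← Matrix.mulVec_mulVec,
    ← Matrix.mulVec_mulVec]
  set p := B *ᵥ (Sᵀ *ᵥ u)
  set q := B *ᵥ (Sᵀ *ᵥ v)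
  simp only [mulVec, dotProduct, Finset.sum_mul_sum]
  rw [Finset.sum_comm]
  refine Finset.sum_congr rfl fun j _ => Finset.sum_congr rfl fun i _ => ?_
  have := hm i j
  linear_combination (S a i * S b j) * this

/-- the middle part of a vector -/
def midv (w : ℤ) (ρ : ι → ℤ) (x : ι → F) : ι → F := fun i => if w + ρ i = 0 then x i else 0

/-- the middle part of a matrix -/
def midm (w : ℤ) (ρ : ι → ℤ) (B : Matrix ι ι F) : Matrix ι ι F :=
  fun a i => if w + ρ a = 0 ∧ w + ρ i = 0 then B a i else 0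

theorem midm_mulVec (w : ℤ) (ρ : ι → ℤ) (B : Matrix ι ι F) (x : ι → F) (a : ι) :
    (midm w ρ B *ᵥ x) a = if w + ρ a = 0 then (B *ᵥ midv w ρ x) a else 0 := by
  simp only [mulVec, dotProduct]
  by_cases h : w + ρ a = 0
  · rw [if_pos h]
    refine Finset.sum_congr rfl fun i _ => ?_
    simp only [midm, midv]
    by_cases h' : w + ρ i = 0
    · rw [if_pos ⟨h, h'⟩, if_pos h']
    · rw [if_neg (fun e => h' e.2), if_neg h', zero_mul, mul_zero]
  · rw [if_neg h]
    refine Finset.sum_eq_zero fun i _ => ?_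
    simp only [midm]
    rw [if_neg (fun e => h e.1), zero_mul]

theorem dot_midm (w : ℤ) (ρ : ι → ℤ) (B : Matrix ι ι F) (x y : ι → F) :
    x ⬝ᵥ midm w ρ B *ᵥ y = midv w ρ x ⬝ᵥ B *ᵥ midv w ρ y := by
  rw [dotProduct, dotProduct]
  refine Finset.sum_congr rfl fun a _ => ?_
  rw [midm_mulVec]
  simp only [midv]
  split_ifs
  · rfl
  · rw [mul_zero, zero_mul]

theorem midm_witt (w : ℤ) (ρ : ι → ℤ) (B : Matrix ι ι F) (hB : WittLeOne B) :
    WittLeOne (midm w ρ B) := by
  intro u v h1 h2 h3 a b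
  rw [dot_midm] at h1 h2 h3
  have := hB _ _ h1 h2 h3 a b
  rw [midm_mulVec, midm_mulVec, midm_mulVec, midm_mulVec]
  by_cases ha : w + ρ a = 0
  · by_cases hb : w + ρ b = 0
    · rw [if_pos ha, if_pos hb, if_pos ha, if_pos hb]
      exact this
    · rw [if_neg hb, if_neg hb, mul_zero, zero_mul]
  · rw [if_neg ha, if_neg ha, mul_zero, zero_mul]

/-- A hyperbolic part plus an anisotropic part has Witt index at most one. -/
theorem hyp_add_witt [CharZero F] (aa bb : ι → F) (M : Matrix ι ι F) (hM : M.IsSymm)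
    (han : ∀ x, x ⬝ᵥ M *ᵥ x = 0 → M *ᵥ x = 0) : WittLeOne (hyp aa bb + M) := by
  intro u v h1 h2 h3 a b
  have hN : ∀ x, (hyp aa bb + M) *ᵥ x = (bb ⬝ᵥ x) • aa + (aa ⬝ᵥ x) • bb + M *ᵥ x := by
    intro x
    rw [Matrix.add_mulVec, hyp_mulVec]
  have hsymm : (hyp aa bb + M).IsSymm := by
    rw [Matrix.IsSymm, Matrix.transpose_add, (hyp_symm aa bb).eq, hM.eq]
  have hzero : ∀ x, x ⬝ᵥ (hyp aa bb + M) *ᵥ x = 0 → aa ⬝ᵥ x = 0 → M *ᵥ x = 0 := by
    intro x hx ha
    apply han
    rw [hN, ha, zero_smul, add_zero, dotProduct_add, dotProduct_smul, dotProduct_comm x aa, ha,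
      smul_zero, zero_add] at hx
    exact hx
  by_cases h : aa ⬝ᵥ u = 0 ∧ aa ⬝ᵥ v = 0
  · have eu : ∀ c, ((hyp aa bb + M) *ᵥ u) c = (bb ⬝ᵥ u) * aa c := by
      intro c
      rw [hN, hzero u h1 h.1, h.1, zero_smul, add_zero, add_zero, Pi.smul_apply, smul_eq_mul]
    have ev : ∀ c, ((hyp aa bb + M) *ᵥ v) c = (bb ⬝ᵥ v) * aa c := by
      intro c
      rw [hN, hzero v h3 h.2, h.2, zero_smul, add_zero, add_zero, Pi.smul_apply, smul_eq_mul]
    rw [eu, eu, ev, ev]
    ring
  · set x := (aa ⬝ᵥ v) • u - (aa ⬝ᵥ u) • v with hx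
    have h2' : v ⬝ᵥ (hyp aa bb + M) *ᵥ u = 0 := by
      rw [symm_dot _ hsymm]; exact h2
    have e1 : aa ⬝ᵥ x = 0 := by
      rw [hx, dotProduct_sub, dotProduct_smul, dotProduct_smul, smul_eq_mul, smul_eq_mul]
      ring
    have eu : u ⬝ᵥ (hyp aa bb + M) *ᵥ x = 0 := by
      rw [hx, Matrix.mulVec_sub, Matrix.mulVec_smul, Matrix.mulVec_smul, dotProduct_sub,
        dotProduct_smul, dotProduct_smul, h1, h2, smul_zero, smul_zero, sub_zero]
    have ev : v ⬝ᵥ (hyp aa bb + M) *ᵥ x = 0 := by
      rw [hx, Matrix.mulVec_sub, Matrix.mulVec_smul, Matrix.mulVec_smul, dotProduct_sub,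
        dotProduct_smul, dotProduct_smul, h2', h3, smul_zero, smul_zero, sub_zero]
    have ex : x ⬝ᵥ (hyp aa bb + M) *ᵥ x = 0 := by
      conv_lhs => rw [hx]
      rw [sub_dotProduct, smul_dotProduct, smul_dotProduct, ← hx, eu, ev, smul_zero, smul_zero,
        sub_zero]
    have hMx := hzero x ex e1
    have hNx : (hyp aa bb + M) *ᵥ x = (bb ⬝ᵥ x) • aa := by
      rw [hN, hMx, e1, zero_smul, add_zero, add_zero]
    have hb : bb ⬝ᵥ x = 0 := by
      rw [hNx, dotProduct_smul, smul_eq_mul] at eu ev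
      by_contra hb
      apply h
      rw [dotProduct_comm aa u, dotProduct_comm aa v]
      exact ⟨(mul_eq_zero.mp eu).resolve_left hb, (mul_eq_zero.mp ev).resolve_left hb⟩
    rw [hb, zero_smul] at hNx
    have hrel : ∀ c, (aa ⬝ᵥ v) * ((hyp aa bb + M) *ᵥ u) c = (aa ⬝ᵥ u) *
        ((hyp aa bb + M) *ᵥ v) c := by
      intro c
      have := congrFun hNx c
      rw [hx, Matrix.mulVec_sub, Matrix.mulVec_smul, Matrix.mulVec_smul] at this
      simp only [Pi.sub_apply, Pi.smul_apply, smul_eq_mul, Pi.zero_apply] at this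
      exact sub_eq_zero.mp this
    by_cases hv : aa ⬝ᵥ v = 0
    · have hu : aa ⬝ᵥ u ≠ 0 := fun hu => h ⟨hu, hv⟩
      have hz : ∀ c, ((hyp aa bb + M) *ᵥ v) c = 0 := by
        intro c
        have := hrel c
        rw [hv, zero_mul] at this
        exact (mul_eq_zero.mp this.symm).resolve_left hu
      rw [hz, hz, mul_zero, mul_zero]
    · apply mul_left_cancel₀ hv
      have r1 := hrel a
      have r2 := hrel b
      linear_combination ((hyp aa bb + M) *ᵥ v) b * r1 - ((hyp aa bb + M) *ᵥ v) a * r2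

/-- The leading part of a form of Witt index at most one has Witt index at most one. -/
theorem witt_lead [CharZero F] (B : Matrix ι ι F) (hs : B.IsSymm) (hW : WittLeOne B) (w : ℤ)
    (ρ : ι → ℤ) (hf : ∀ c c', B c c' ≠ 0 → 0 ≤ 2 * w + ρ c + ρ c') :
    WittLeOne (lead (2 * w) ρ B) := by
  have hz : ∀ c c', 2 * w + ρ c + ρ c' < 0 → B c c' = 0 := by
    intro c c' h
    by_contra hne
    have := hf c c' hne
    omega
  have hsy : ∀ i j, B i j = B j i := fun i j => hs.apply j i
  by_cases h : ∃ c b₀, w + ρ c < 0 ∧ lead (2 * w) ρ B b₀ c ≠ 0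
  · obtain ⟨c, b₀, hc, hN⟩ := h
    have hsum : 2 * w + ρ b₀ + ρ c = 0 := by
      by_contra h
      exact hN (if_neg h)
    have hB0 : B b₀ c ≠ 0 := by
      rw [lead, if_pos hsum] at hN
      exact hN
    have hdep : ∀ x : ι → F, (∀ i, x i ≠ 0 → w + ρ i ≤ 0) → x ⬝ᵥ B *ᵥ x = 0 →
        ∀ a b, B a c * (B *ᵥ x) b = B b c * (B *ᵥ x) a := by
      intro x hx hxx a b
      have e : ∀ i, (B *ᵥ (Pi.single c (1 : F))) i = B i c := by
        intro i
        rw [Matrix.mulVec_single_one]
        rfl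
      have h1 := hW (Pi.single c 1) x (by
        rw [single_one_dotProduct, e]
        exact hz c c (by omega)) (by
        rw [single_one_dotProduct]
        simp only [mulVec, dotProduct]
        refine Finset.sum_eq_zero fun i _ => ?_
        by_cases hi : x i = 0
        · rw [hi, mul_zero]
        · rw [hz c i (by have := hx i hi; omega), zero_mul]) hxx a b
      rw [e, e] at h1
      exact h1
    have hcol : ∀ i, w + ρ i < 0 → ∀ a, B a i = B a c * (B b₀ i / B b₀ c) := by
      intro i hi a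
      have e : ∀ j, (B *ᵥ (Pi.single i (1 : F))) j = B j i := by
        intro j
        rw [Matrix.mulVec_single_one]
        rfl
      have h1 := hdep (Pi.single i 1) (by
        intro j hj
        have : j = i := by
          by_contra hne
          rw [Pi.single_eq_of_ne hne] at hj
          exact hj rfl
        subst this
        omega) (by
        rw [single_one_dotProduct, e]
        exact hz i i (by omega)) a b₀
      rw [e, e] at h1
      field_simp
      linear_combination -h1
    set aa : ι → F := fun a => if ρ a = ρ b₀ then B a c else 0 with haa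
    set bb : ι → F := fun i => if ρ i = ρ c then B b₀ i / B b₀ c else 0 with hbb
    have hdec : lead (2 * w) ρ B = hyp aa bb + midm w ρ B := by
      ext a i
      rw [Matrix.add_apply, hyp, lead, midm, haa, hbb]
      simp only
      have case1 : ∀ a i, 2 * w + ρ a + ρ i = 0 → w + ρ i < 0 → B a i =
          (if ρ a = ρ b₀ then B a c else 0) * (if ρ i = ρ c then B b₀ i / B b₀ c else 0) := by
        intro a i h1 h2
        by_cases h3 : ρ i = ρ c
        · rw [if_pos h3, if_pos (by omega)]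
          exact hcol i h2 a
        · rw [if_neg h3, mul_zero, hcol i h2 a]
          rcases lt_or_gt_of_ne h3 with h4 | h4
          · rw [hz b₀ i (by omega), zero_div, mul_zero]
          · rw [hz a c (by omega), zero_mul]
      by_cases h1 : 2 * w + ρ a + ρ i = 0
      · rw [if_pos h1]
        rcases lt_trichotomy (w + ρ i) 0 with h2 | h2 | h2
        · rw [case1 a i h1 h2, if_neg (show ¬ ρ a = ρ c by omega),
            if_neg (show ¬ (w + ρ a = 0 ∧ w + ρ i = 0) by omega), zero_mul, add_zero, add_zero]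
        · rw [if_neg (show ¬ ρ a = ρ b₀ by omega), if_neg (show ¬ ρ a = ρ c by omega),
            if_pos (show w + ρ a = 0 ∧ w + ρ i = 0 by omega), zero_mul, zero_mul, zero_add,
            zero_add]
        · rw [hsy a i, case1 i a (by omega) (by omega), if_neg (show ¬ ρ a = ρ b₀ by omega),
            if_neg (show ¬ (w + ρ a = 0 ∧ w + ρ i = 0) by omega), zero_mul, zero_add, add_zero,
            mul_comm]
      · rw [if_neg h1, if_neg (show ¬ (w + ρ a = 0 ∧ w + ρ i = 0) by omega), add_zero]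
        have e1 : (if ρ a = ρ b₀ then B a c else 0) *
            (if ρ i = ρ c then B b₀ i / B b₀ c else 0) = 0 := by
          by_cases h2 : ρ a = ρ b₀
          · rw [if_neg (show ¬ ρ i = ρ c by omega), mul_zero]
          · rw [if_neg h2, zero_mul]
        have e2 : (if ρ a = ρ c then B b₀ a / B b₀ c else 0) *
            (if ρ i = ρ b₀ then B i c else 0) = 0 := by
          by_cases h2 : ρ a = ρ c
          · rw [if_neg (show ¬ ρ i = ρ b₀ by omega), mul_zero]
          · rw [if_neg h2, zero_mul]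
        rw [e1, e2, add_zero]
    rw [hdec]
    refine hyp_add_witt aa bb _ ?_ ?_
    · ext a i
      rw [Matrix.transpose_apply, midm, midm, hsy i a]
      by_cases h1 : w + ρ a = 0 ∧ w + ρ i = 0
      · rw [if_pos h1, if_pos ⟨h1.2, h1.1⟩]
      · rw [if_neg h1, if_neg (fun e => h1 ⟨e.2, e.1⟩)]
    · intro x hx
      rw [dot_midm] at hx
      funext b
      rw [midm_mulVec, Pi.zero_apply]
      split_ifs with hb
      · have h1 := hdep (midv w ρ x) (by
          intro i hi
          simp only [midv] at hi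
          split_ifs at hi with h2
          · exact h2.le
          · exact absurd rfl hi) hx b₀ b
        rw [hz b c (by omega), zero_mul] at h1
        exact (mul_eq_zero.mp h1).resolve_left hB0
      · rfl
  · push Not at h
    have hdec : lead (2 * w) ρ B = midm w ρ B := by
      ext a i
      have h1 := h i a
      have h2 := h a i
      rw [lead] at h1 h2
      rw [lead, midm]
      by_cases h3 : 2 * w + ρ a + ρ i = 0
      · rw [if_pos h3] at h1 ⊢
        rw [if_pos (by omega)] at h2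
        rcases lt_trichotomy (w + ρ i) 0 with h4 | h4 | h4
        · rw [h1 h4, ite_self]
        · rw [if_pos (by omega)]
        · rw [hsy a i, h2 (by omega), ite_self]
      · rw [if_neg h3, if_neg (show ¬ (w + ρ a = 0 ∧ w + ρ i = 0) by omega)]
    rw [hdec]
    exact midm_witt w ρ B hW

end

end Pool.Agent.Lib.MP_64d474_lc
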