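import Mathlib
import Pool.Agent.Lib.MP_64d474_lc.QnImprove
import Pool.Agent.Lib.MP_64d474_lc.WnLead

/-!
The kernel span of a symbolic matrix with coefficient matrices of Witt index at most one.
-/

open Matrix Module MvPolynomial

set_option linter.unusedSectionVars false

namespace Pool.Agent.Lib.MP_64d474_lc

section

variable {F : Type*} [Field F] {ι κ : Type*} [Fintype ι] [DecidableEq ι] [Fintype κ]
  [DecidableEq κ]

theorem witt_isotropic [CharZero F] (B₀ : Matrix ι ι F) (B : κ → Matrix ι ι F) (h₀ : B₀.IsSymm)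
    (hB : ∀ k, (B k).IsSymm) (hW : ∀ k, WittLeOne (B k)) (x y : ι → F)
    (hx : x ∈ kerSpan B₀ B) (hy : y ∈ kerSpan B₀ B) :
    (∀ k, x ⬝ᵥ B k *ᵥ y = 0) ∧ x ⬝ᵥ B₀ *ᵥ y = 0 := by
  have h1 : ∀ y ∈ kerSpan B₀ B, ∀ k, x ⬝ᵥ B k *ᵥ y = 0 := by
    intro y hy k
    obtain ⟨v, hv1, hv2⟩ := exists_dir B₀ B h₀ hB hW k
    obtain ⟨t, ht⟩ := kerSpan_dir B₀ B k v hv1 y hy
    rw [ht, dotProduct_smul, smul_eq_mul]
    by_cases hv : v = 0
    · rw [hv, dotProduct_zero, mul_zero]
    obtain ⟨q₁, hq₁, f, hf, hfv⟩ := hv2 hv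
    have hall : ∀ x ∈ kerSpan B₀ B, v ⬝ᵥ x = 0 := by
      intro x hx
      induction hx using Submodule.span_induction with
      | mem x hx =>
        obtain ⟨q, hq, c, rfl⟩ := hx
        have e1 := ker_iso B₀ B h₀ hB q q₁ hq hq₁ k
        rw [hfv, dotProduct_smul, smul_eq_mul] at e1
        have e2 := (mul_eq_zero.mp e1).resolve_left hf
        rw [dotProduct_comm] at e2
        rw [← map_C_dot, e2, map_zero]
      | zero => rw [dotProduct_zero]
      | add a b _ _ ha hb => rw [dotProduct_add, ha, hb, add_zero]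
      | smul t a _ ha => rw [dotProduct_smul, ha, smul_zero]
    rw [dotProduct_comm, hall x hx, mul_zero]
  refine ⟨h1 y hy, ?_⟩
  induction hy using Submodule.span_induction with
  | mem y hy =>
    obtain ⟨q, hq, c, rfl⟩ := hy
    have hmem : (fun i => eval c (q i)) ∈ kerSpan B₀ B := mem_kerSpan _ _ q hq c
    have h2 : B₀ *ᵥ (fun i => eval c (q i)) + ∑ k, c k • (B k *ᵥ (fun i => eval c (q i))) = 0 := by
      funext a
      have := congrArg (eval c) (congrFun hq a)
      rw [symb_mulVec] at this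
      simp only [Pi.add_apply, Finset.sum_apply, Pi.smul_apply, smul_eq_mul, map_add, map_sum,
        map_mul, eval_X, eval_mulVec, Pi.zero_apply, map_zero] at this
      simp only [Pi.add_apply, Finset.sum_apply, Pi.smul_apply, smul_eq_mul, Pi.zero_apply]
      exact this
    have h3 := congrArg (fun z => x ⬝ᵥ z) h2
    simp only [dotProduct_add, dotProduct_sum, dotProduct_smul, dotProduct_zero] at h3
    rw [Finset.sum_eq_zero (fun k _ => by rw [h1 _ hmem k, smul_zero]), add_zero] at h3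
    exact h3
  | zero => rw [mulVec_zero, dotProduct_zero]
  | add a b ha' hb' ha hb => rw [mulVec_add, dotProduct_add, ha, hb, add_zero]
  | smul t a ha' ha => rw [mulVec_smul, dotProduct_smul, ha, smul_zero]

/-- the homomorphisms to `ℤ` separate points -/
def Sep (Λ : Type*) [AddCommGroup Λ] : Prop := ∀ g : Λ, g ≠ 0 → ∃ φ : Λ →+ ℤ, φ g ≠ 0

theorem Sep.prod {Λ : Type*} [AddCommGroup Λ] (h : Sep Λ) : Sep (Λ × ℤ) := by
  rintro ⟨g, x⟩ hne
  by_cases hg : g = 0
  · refine ⟨AddMonoidHom.snd Λ ℤ, ?_⟩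
    intro hx
    apply hne
    rw [hg]
    exact Prod.ext rfl hx
  · obtain ⟨φ, hφ⟩ := h g hg
    exact ⟨φ.comp (AddMonoidHom.fst Λ ℤ), hφ⟩

theorem sep_int : Sep ℤ := fun _ hg => ⟨AddMonoidHom.id ℤ, hg⟩

/-- The kernel span is graded by the labels. -/
theorem kerSpan_graded' [CharZero F] {Λ : Type*} [AddCommGroup Λ] [DecidableEq Λ] (hsep : Sep Λ)
    (γ : ι → Λ) (B₀ : Matrix ι ι F) (hB₀ : ∀ c c', B₀ c c' ≠ 0 → γ c + γ c' = 0)
    (B : κ → Matrix ι ι F) (μ : κ → Λ) (hB : ∀ k c c', B k c c' ≠ 0 → γ c + γ c' = μ k) :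
    Graded γ (kerSpan B₀ B) := by
  have two_ne : (2 : F) ≠ 0 := two_ne_zero
  have key : ∀ φ : Λ →+ ℤ, ∀ x ∈ kerSpan B₀ B, (fun c => (2 : F) ^ (φ (γ c)) * x c) ∈
      kerSpan B₀ B := by
    intro φ
    refine kerSpan_stable B₀ B (fun c => (2 : F) ^ (φ (γ c))) (fun k => (2 : F) ^ (φ (μ k)))
      (fun c => zpow_ne_zero _ two_ne) (fun k => zpow_ne_zero _ two_ne) ?_ ?_
    · intro c c'
      by_cases h : B₀ c c' = 0
      · rw [h, mul_zero]
      · rw [← zpow_add₀ two_ne, ← map_add, hB₀ c c' h, map_zero, zpow_zero, one_mul]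
    · intro k c c'
      by_cases h : B k c c' = 0
      · rw [h, mul_zero, mul_zero]
      · rw [← zpow_add₀ two_ne, ← map_add, hB k c c' h]
  intro g x hx
  have hind : ∀ S : Finset Λ, g ∉ S → ∃ y ∈ kerSpan B₀ B, (∀ c, γ c = g → y c = x c) ∧
      ∀ c, γ c ∈ S → y c = 0 := by
    intro S
    induction S using Finset.induction_on with
    | empty => exact fun _ => ⟨x, hx, fun _ _ => rfl, fun c hc => absurd hc (Finset.notMem_empty _)⟩
    | insert g' S hg' ih =>
      intro hg
      rw [Finset.mem_insert, not_or] at hg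
      obtain ⟨y, hy, hy1, hy2⟩ := ih hg.2
      obtain ⟨φ, hφ⟩ := hsep (g - g') (sub_ne_zero.mpr hg.1)
      rw [map_sub, sub_ne_zero] at hφ
      have hd : (2 : F) ^ φ g - 2 ^ φ g' ≠ 0 := by
        rw [sub_ne_zero]
        intro h
        have h2 : ((2 : ℚ) ^ φ g : ℚ) = 2 ^ φ g' := by
          have := h
          have e : ∀ n : ℤ, ((((2 : ℚ) ^ n : ℚ)) : F) = (2 : F) ^ n := fun n => by
            rw [Rat.cast_zpow, Rat.cast_ofNat]
          rw [← e, ← e] at this
          exact Rat.cast_injective this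
        exact hφ (zpow_right_injective₀ (by norm_num) (by norm_num) h2)
      refine ⟨((2 : F) ^ φ g - 2 ^ φ g')⁻¹ •
        ((fun c => (2 : F) ^ (φ (γ c)) * y c) - (2 : F) ^ φ g' • y), ?_, ?_, ?_⟩
      · exact Submodule.smul_mem _ _ (Submodule.sub_mem _ (key φ y hy) (Submodule.smul_mem _ _ hy))
      · intro c hc
        simp only [Pi.smul_apply, Pi.sub_apply, smul_eq_mul]
        rw [hc, hy1 c hc, ← sub_mul, inv_mul_cancel_left₀ hd]
      · intro c hc
        simp only [Pi.smul_apply, Pi.sub_apply, smul_eq_mul]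
        rcases Finset.mem_insert.mp hc with h | h
        · rw [h, sub_self, mul_zero]
        · rw [hy2 c h, mul_zero, mul_zero, sub_zero, mul_zero]
  obtain ⟨y, hy, hy1, hy2⟩ := hind ((Finset.univ.image γ).erase g) (Finset.notMem_erase _ _)
  have : blk γ g x = y := by
    funext c
    rw [blk]
    split_ifs with hc
    · exact (hy1 c hc).symm
    · exact (hy2 c (Finset.mem_erase.mpr ⟨hc, Finset.mem_image_of_mem _ (Finset.mem_univ c)⟩)).symm
  rw [this]
  exact hy

/-- homogeneous matrices permute the blocks -/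
theorem blk_mulVec {Λ : Type*} [AddCommGroup Λ] [DecidableEq Λ] (γ : ι → Λ) (M : Matrix ι ι F)
    (μ : Λ) (hM : ∀ c c', M c c' ≠ 0 → γ c + γ c' = μ) (g : Λ) (x : ι → F) :
    blk γ g (M *ᵥ x) = M *ᵥ blk γ (μ - g) x := by
  funext c
  rw [blk, mulVec, mulVec, dotProduct, dotProduct]
  split_ifs with hc
  · refine Finset.sum_congr rfl fun d _ => ?_
    by_cases h : M c d = 0
    · rw [h, zero_mul, zero_mul]
    · rw [blk, if_pos]
      rw [← hM c d h, hc, add_sub_cancel_left]
  · symm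
    refine Finset.sum_eq_zero fun d _ => ?_
    by_cases h : M c d = 0
    · rw [h, zero_mul]
    · rw [blk, if_neg, mul_zero]
      intro hd
      apply hc
      have := hM c d h
      rw [hd] at this
      rw [eq_sub_of_add_eq this, sub_sub_cancel]

end

end Pool.Agent.Lib.MP_64d474_lc
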