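import Mathlib
import Pool.Agent.Lib.MP_64d474_lc.WnKer

/-!
Improving potentials when the leading matrix is singular: coefficient matrices of Witt index at
most one.
-/

open Matrix Module MvPolynomial

set_option linter.unusedSectionVars false

namespace Pool.Agent.Lib.MP_64d474_lc

section

variable {F : Type*} [Field F] {ι κ : Type*} [Fintype ι] [DecidableEq ι] [Fintype κ]
  [DecidableEq κ]

/-- Feasible potentials. -/
def FeasW (M₀ : Matrix ι ι F) (M : κ → Matrix ι ι F) (w : κ → ℤ) (ρ : ι → ℤ) : Prop :=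
  (∀ c c', M₀ c c' ≠ 0 → 0 ≤ 2 * 0 + ρ c + ρ c') ∧
    (∀ k c c', M k c c' ≠ 0 → 0 ≤ 2 * w k + ρ c + ρ c')

/-- one coefficient matrix under a change of basis -/
theorem feas_aux (M : Matrix ι ι F) (hM : M.IsSymm) (w : ℤ) (ρ : ι → ℤ) (ε : ℤ)
    (hf : ∀ c c', M c c' ≠ 0 → 0 ≤ 2 * w + ρ c + ρ c') (T : Matrix ι ι F)
    (hT : ∀ c d, T c d ≠ 0 → ρ c = ρ d) (W Z : Submodule F (ι → F))
    (hW : ∀ x ∈ W, lead (2 * w) ρ M *ᵥ x ∈ Z) (CW CY : Finset ι) (hCW : ∀ c ∈ CW, T c ∈ W)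
    (hCY : ∀ c ∈ CY, T c ∈ orth Z) (hpar : ∀ c ∈ CW, ρ c % 2 = ε) (c c' : ι)
    (h : (T * M * Tᵀ) c c' ≠ 0) :
    0 ≤ 2 * w + (ρ c - (if c ∈ CW then 1 else 0) + (if c ∈ CY then 0 else 1)) +
      (ρ c' - (if c' ∈ CW then 1 else 0) + (if c' ∈ CY then 0 else 1)) := by
  rw [conj_apply] at h
  obtain ⟨d, _, hd⟩ := Finset.exists_ne_zero_of_sum_ne_zero h
  obtain ⟨d', _, hd'⟩ := Finset.exists_ne_zero_of_sum_ne_zero (right_ne_zero_of_mul hd)
  have e1 : ρ c = ρ d := hT c d (left_ne_zero_of_mul hd)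
  have e2 : ρ c' = ρ d' := hT c' d' (right_ne_zero_of_mul hd')
  have e3 := hf d d' (left_ne_zero_of_mul hd')
  have e0 : 2 * w + ρ c + ρ c' = 0 → T c ⬝ᵥ lead (2 * w) ρ M *ᵥ T c' ≠ 0 := by
    intro h0
    have : T c ⬝ᵥ lead (2 * w) ρ M *ᵥ T c' = T c ⬝ᵥ M *ᵥ T c' := by
      simp only [dotProduct, mulVec, Finset.mul_sum]
      refine Finset.sum_congr rfl fun i _ => Finset.sum_congr rfl fun j _ => ?_
      by_cases hi : T c i = 0
      · rw [hi, zero_mul, zero_mul]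
      · by_cases hj : T c' j = 0
        · rw [hj, mul_zero, mul_zero, mul_zero, mul_zero]
        · have g1 : ρ c = ρ i := hT c i hi
          have g2 : ρ c' = ρ j := hT c' j hj
          have : lead (2 * w) ρ M i j = M i j := by
            rw [lead, if_pos (by omega)]
          rw [this]
    rw [this]
    exact h
  have hNs : (lead (2 * w) ρ M).IsSymm := lead_symm _ _ hM
  have f1 : 2 * w + ρ c + ρ c' = 0 → c ∈ CW → c' ∉ CY := by
    intro h0 hc hc'
    apply e0 h0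
    rw [symm_dot _ hNs]
    exact hCY c' hc' _ (hW _ (hCW c hc))
  have f2 : 2 * w + ρ c + ρ c' = 0 → c' ∈ CW → c ∉ CY := by
    intro h0 hc' hc
    apply e0 h0
    exact hCY c hc _ (hW _ (hCW c' hc'))
  have p1 := hpar c
  have p2 := hpar c'
  by_cases a1 : c ∈ CW <;> by_cases a2 : c' ∈ CW <;> by_cases a3 : c ∈ CY <;>
    by_cases a4 : c' ∈ CY <;> simp only [a1, a2, a3, a4, if_true, if_false, true_implies,
      not_true_eq_false, not_false_eq_true, imp_false, false_implies] at p1 p2 f1 f2 ⊢ <;> omega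

variable {Λ : Type*} [AddCommGroup Λ] [DecidableEq Λ]

/-- leading parts are homogeneous for the refined labels -/
theorem lead_homog {β : ι → Λ} {M : Matrix ι ι F} {μ : Λ} (hM : ∀ c c', M c c' ≠ 0 → β c + β c' = μ)
    (w : ℤ) (ρ : ι → ℤ) (c c' : ι) (h : lead (2 * w) ρ M c c' ≠ 0) :
    ((β c, ρ c) : Λ × ℤ) + (β c', ρ c') = (μ, -(2 * w)) := by
  rw [lead] at h
  split_ifs at h with h1
  · refine Prod.ext (hM c c' h) ?_
    show ρ c + ρ c' = -(2 * w)
    omega
  · exact absurd rfl h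

/-- If the leading matrix is singular, the potentials can be improved. -/
theorem improveW [CharZero F] (hsep : Sep Λ) (β : ι → Λ) (M₀ : Matrix ι ι F) (hM₀ : M₀.IsSymm)
    (hB₀ : ∀ c c', M₀ c c' ≠ 0 → β c + β c' = 0) (M : κ → Matrix ι ι F)
    (hM : ∀ k, (M k).IsSymm) (hWitt : ∀ k, WittLeOne (M k)) (μ : κ → Λ)
    (hB : ∀ k c c', M k c c' ≠ 0 → β c + β c' = μ k) (w : κ → ℤ) (ρ : ι → ℤ)
    (hf : FeasW M₀ M w ρ)
    (hdet : (symb (lead (2 * 0) ρ M₀) (fun k => lead (2 * w k) ρ (M k))).det = 0) :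
    ∃ (T : Matrix ι ι F) (ρ' : ι → ℤ), T.det ≠ 0 ∧ (∀ c d, T c d ≠ 0 → β c = β d) ∧
      FeasW (T * M₀ * Tᵀ) (fun k => T * M k * Tᵀ) w ρ' ∧ ∑ c, ρ' c < ∑ c, ρ c := by
  classical
  set N₀ := lead (2 * 0) ρ M₀ with hN₀
  set N : κ → Matrix ι ι F := fun k => lead (2 * w k) ρ (M k) with hN
  have hN₀s : N₀.IsSymm := lead_symm _ ρ hM₀
  have hNs : ∀ k, (N k).IsSymm := fun k => lead_symm _ ρ (hM k)
  have hNW : ∀ k, WittLeOne (N k) := fun k =>
    witt_lead (M k) (hM k) (hWitt k) (w k) ρ (hf.2 k)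
  -- labels
  let γ : ι → Λ × ℤ := fun c => (β c, ρ c)
  have hN₀γ : ∀ c c', N₀ c c' ≠ 0 → γ c + γ c' = 0 := by
    intro c c' h
    have := lead_homog hB₀ 0 ρ c c' h
    show ((β c, ρ c) : Λ × ℤ) + (β c', ρ c') = 0
    rw [this]
    rfl
  have hNγ : ∀ k c c', N k c c' ≠ 0 → γ c + γ c' = (μ k, -(2 * w k)) := fun k c c' h =>
    lead_homog (hB k) (w k) ρ c c' h
  set U := kerSpan N₀ N with hU
  have hUgr : Graded γ U := kerSpan_graded' hsep.prod γ N₀ hN₀γ N _ hNγ
  have hiso := fun x y hx hy => witt_isotropic N₀ N hN₀s hNs hNW x y hx hy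
  obtain ⟨q₀, hq₀, hAq₀⟩ := Matrix.exists_mulVec_eq_zero_iff.mpr hdet
  have hshr := exists_shrunk N₀ N hN₀s hNs hNW q₀ hq₀ hAq₀
  rw [← hU] at hshr
  -- parity pieces
  have hparL : ∀ (v : ℤ) (L : Matrix ι ι F) (ε : ℤ), ∀ x ∈ par F ρ ε,
      lead (2 * v) ρ L *ᵥ x ∈ par F ρ ε := by
    intro v L ε x hx c hc
    rw [mulVec, dotProduct]
    refine Finset.sum_eq_zero fun d _ => ?_
    by_cases h : 2 * v + ρ c + ρ d = 0
    · rw [hx d (by omega), mul_zero]
    · rw [lead, if_neg h, zero_mul]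
  let Ue : ℤ → Submodule F (ι → F) := fun ε => U ⊓ par F ρ ε
  let Ze : ℤ → Submodule F (ι → F) := fun ε => imageSum N₀ N (Ue ε)
  have hZpar : ∀ ε, Ze ε ≤ par F ρ ε := by
    intro ε
    refine sup_le ?_ (iSup_le fun k => ?_)
    · rintro _ ⟨x, hx, rfl⟩
      exact hparL 0 M₀ ε x hx.2
    · rintro _ ⟨x, hx, rfl⟩
      exact hparL (w k) (M k) ε x hx.2
  have hZU : ∀ ε, Ze ε ≤ imageSum N₀ N U := by
    intro ε
    refine sup_le_sup ?_ (iSup_mono fun k => ?_)
    · exact Submodule.map_mono inf_le_left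
    · exact Submodule.map_mono inf_le_left
  have hU01 : U ≤ Ue 0 ⊔ Ue 1 := by
    intro x hx
    rw [← sum_blk γ x]
    refine Submodule.sum_mem _ fun g _ => ?_
    have h1 : blk γ g x ∈ U := hUgr g x hx
    have h2 : blk γ g x ∈ par F ρ (g.2 % 2) := by
      intro c hc
      rw [blk, if_neg]
      intro h
      apply hc
      have : ρ c = g.2 := congrArg Prod.snd h
      rw [this]
    rcases Int.emod_two_eq_zero_or_one g.2 with h | h
    · rw [h] at h2
      exact Submodule.mem_sup_left ⟨h1, h2⟩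
    · rw [h] at h2
      exact Submodule.mem_sup_right ⟨h1, h2⟩
  obtain ⟨ε, hε⟩ : ∃ ε, finrank F (Ze ε) < finrank F (Ue ε) := by
    by_contra hcon
    push Not at hcon
    have h1 : finrank F U ≤ finrank F (Ue 0) + finrank F (Ue 1) :=
      (Submodule.finrank_mono hU01).trans (Submodule.finrank_add_le_finrank_add_finrank _ _)
    have hdisj : Ze 0 ⊓ Ze 1 = ⊥ := by
      rw [eq_bot_iff]
      intro x hx
      rw [Submodule.mem_bot]
      funext c
      rcases Int.emod_two_eq_zero_or_one (ρ c) with h | h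
      · exact hZpar 1 hx.2 c (by omega)
      · exact hZpar 0 hx.1 c (by omega)
    have h2 := Submodule.finrank_sup_add_finrank_inf_eq (Ze 0) (Ze 1)
    rw [hdisj, finrank_bot, add_zero] at h2
    have h3 : finrank F (Ze 0 ⊔ Ze 1 : Submodule F (ι → F)) ≤ finrank F (imageSum N₀ N U) :=
      Submodule.finrank_mono (sup_le (hZU 0) (hZU 1))
    have h4 := hcon 0
    have h5 := hcon 1
    omega
  set W := Ue ε with hW
  set Z := Ze ε with hZ
  have hWgr : Graded γ W := by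
    intro g x hx
    refine ⟨hUgr g x hx.1, fun c hc => ?_⟩
    rw [blk]
    split_ifs
    · exact hx.2 c hc
    · rfl
  have hNW₀ : ∀ x ∈ W, N₀ *ᵥ x ∈ Z := fun x hx =>
    Submodule.mem_sup_left ⟨x, hx, rfl⟩
  have hNWk : ∀ k, ∀ x ∈ W, N k *ᵥ x ∈ Z := fun k x hx =>
    Submodule.mem_sup_right (Submodule.mem_iSup_of_mem k ⟨x, hx, rfl⟩)
  have hZgr : Graded γ Z := by
    intro g
    have hle : Z ≤ Z.comap (blkL γ g) := by
      refine sup_le ?_ (iSup_le fun k => ?_)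
      · rintro _ ⟨x, hx, rfl⟩
        rw [Submodule.mem_comap]
        show blk γ g (N₀ *ᵥ x) ∈ Z
        rw [blk_mulVec γ N₀ 0 hN₀γ]
        exact hNW₀ _ (hWgr _ x hx)
      · rintro _ ⟨x, hx, rfl⟩
        rw [Submodule.mem_comap]
        show blk γ g (N k *ᵥ x) ∈ Z
        rw [blk_mulVec γ (N k) _ (hNγ k)]
        exact hNWk k _ (hWgr _ x hx)
    intro z hz
    exact hle hz
  set Y := orth Z with hY
  have hYgr : Graded γ Y := by
    intro g y hy z hz
    have h1 : blk γ g y ⬝ᵥ z = y ⬝ᵥ blk γ g z := by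
      simp only [dotProduct, blk]
      refine Finset.sum_congr rfl fun c _ => ?_
      split_ifs
      · rfl
      · rw [zero_mul, mul_zero]
    rw [h1]
    exact hy _ (hZgr g z hz)
  have hWY : W ≤ Y := by
    intro x hx
    have hle : Z ≤ orth (Submodule.span F {x}) := by
      refine sup_le ?_ (iSup_le fun k => ?_)
      · rintro _ ⟨y, hy, rfl⟩ z hz
        obtain ⟨t, rfl⟩ := Submodule.mem_span_singleton.mp hz
        rw [dotProduct_smul, dotProduct_comm]
        show t • (x ⬝ᵥ N₀ *ᵥ y) = 0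
        rw [(hiso x y hx.1 hy.1).2, smul_zero]
      · rintro _ ⟨y, hy, rfl⟩ z hz
        obtain ⟨t, rfl⟩ := Submodule.mem_span_singleton.mp hz
        rw [dotProduct_smul, dotProduct_comm]
        show t • (x ⬝ᵥ N k *ᵥ y) = 0
        rw [(hiso x y hx.1 hy.1).1 k, smul_zero]
    intro z hz
    rw [dotProduct_comm]
    exact hle hz x (Submodule.mem_span_singleton_self x)
  obtain ⟨T, hT, hTγ, CW, CY, hCW, hCY, hcW, hcY⟩ := exists_graded_basis γ W Y hWY hWgr hYgr
  have hTrow : ∀ c, ∃ d, T c d ≠ 0 := by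
    intro c
    by_contra h
    push Not at h
    exact hT (Matrix.det_eq_zero_of_row_eq_zero c h)
  have hTρ : ∀ c d, T c d ≠ 0 → ρ c = ρ d := fun c d h => congrArg Prod.snd (hTγ c d h)
  have hparity : ∀ c ∈ CW, ρ c % 2 = ε := by
    intro c hc
    obtain ⟨d, hd⟩ := hTrow c
    by_contra hne
    rw [hTρ c d hd] at hne
    exact hd ((hCW c hc).2 d hne)
  refine ⟨T, fun c => ρ c - (if c ∈ CW then 1 else 0) + (if c ∈ CY then 0 else 1), hT,
    fun c d h => congrArg Prod.fst (hTγ c d h), ⟨?_, ?_⟩, ?_⟩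
  · exact fun c c' h => feas_aux M₀ hM₀ 0 ρ ε hf.1 T hTρ W Z hNW₀ CW CY hCW hCY hparity c c' h
  · exact fun k c c' h =>
      feas_aux (M k) (hM k) (w k) ρ ε (hf.2 k) T hTρ W Z (hNWk k) CW CY hCW hCY hparity c c' h
  · rw [Finset.sum_add_distrib, Finset.sum_sub_distrib]
    have s1 : ∑ c : ι, (if c ∈ CW then (1 : ℤ) else 0) = CW.card := by
      rw [Finset.sum_ite_mem, Finset.univ_inter, Finset.sum_const, nsmul_eq_mul, mul_one]
    have s2 : ∑ c : ι, (if c ∈ CY then (0 : ℤ) else 1) = Fintype.card ι - CY.card := by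
      have h1 : ∀ c : ι, (if c ∈ CY then (0 : ℤ) else 1) = 1 - (if c ∈ CY then 1 else 0) := by
        intro c
        split_ifs <;> ring
      simp only [h1]
      rw [Finset.sum_sub_distrib, Finset.sum_ite_mem, Finset.univ_inter, Finset.sum_const,
        Finset.sum_const, nsmul_eq_mul, mul_one, nsmul_eq_mul, mul_one, Finset.card_univ]
    have s3 := card_le_finrank_orth Z
    rw [s1, s2]
    have s4 : (Fintype.card ι : ℤ) ≤ finrank F Y + finrank F Z := by exact_mod_cast s3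
    have s5 : (finrank F Z : ℤ) < finrank F W := by exact_mod_cast hε
    have s6 : (finrank F W : ℤ) ≤ CW.card := by exact_mod_cast hcW
    have s7 : (finrank F Y : ℤ) ≤ CY.card := by exact_mod_cast hcY
    linarith

end

end Pool.Agent.Lib.MP_64d474_lc
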