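import Mathlib
import Pool.Agent.Lib.MP_64d474_lc.WnImprove
import Pool.Agent.Lib.MP_64d474_lc.QnStage

/-!
Passing to the leading form of a symbolic determinant: coefficient matrices of Witt index at most
one.
-/

open Matrix Module MvPolynomial

set_option linter.unusedSectionVars false

namespace Pool.Agent.Lib.MP_64d474_lc

section

/-- A symbolic matrix `B₀ + ∑ x_k B_k` with labelled coordinates. -/
structure WPres (F : Type*) [Field F] (ι κ Λ : Type*) [Fintype ι] [AddCommGroup Λ] where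
  B₀ : Matrix ι ι F
  B : κ → Matrix ι ι F
  β : ι → Λ
  μ : κ → Λ
  symm₀ : B₀.IsSymm
  symm : ∀ k, (B k).IsSymm
  witt : ∀ k, WittLeOne (B k)
  hB₀ : ∀ c c', B₀ c c' ≠ 0 → β c + β c' = 0
  hB : ∀ k c c', B k c c' ≠ 0 → β c + β c' = μ k

variable {F : Type*} [Field F] {ι κ : Type*} [Fintype ι] [DecidableEq ι] [Fintype κ]
  [DecidableEq κ] {Λ : Type*} [AddCommGroup Λ] [DecidableEq Λ]

/-- the determinant -/
noncomputable def WPres.f (P : WPres F ι κ Λ) : MvPolynomial κ F := (symb P.B₀ P.B).det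

/-- Refinement. -/
structure WRefines (P' : WPres F ι κ (Λ × ℤ)) (P : WPres F ι κ Λ) (w : κ → ℤ) : Prop where
  hβ : ∀ c, (P'.β c).1 = P.β c
  hμ : ∀ k, (P'.μ k).2 = -(2 * w k)
  harc : ∀ k c c', P'.B k c c' ≠ 0 → ∃ d d', P.B k d d' ≠ 0 ∧ P.β c = P.β d ∧ P.β c' = P.β d'

theorem conj_isSymm (S M : Matrix ι ι F) (hM : M.IsSymm) : (S * M * Sᵀ).IsSymm := by
  rw [Matrix.IsSymm, Matrix.transpose_mul, Matrix.transpose_mul, Matrix.transpose_transpose,
    hM.eq, Matrix.mul_assoc]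

theorem conj_ne {S M : Matrix ι ι F} {β : ι → Λ} (hS : ∀ c d, S c d ≠ 0 → β c = β d) {c c' : ι}
    (h : (S * M * Sᵀ) c c' ≠ 0) : ∃ d d', M d d' ≠ 0 ∧ β c = β d ∧ β c' = β d' := by
  rw [conj_apply] at h
  obtain ⟨d, _, hd⟩ := Finset.exists_ne_zero_of_sum_ne_zero h
  obtain ⟨d', _, hd'⟩ := Finset.exists_ne_zero_of_sum_ne_zero (right_ne_zero_of_mul hd)
  exact ⟨d, d', left_ne_zero_of_mul hd', hS c d (left_ne_zero_of_mul hd),
    hS c' d' (right_ne_zero_of_mul hd')⟩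

theorem lead_ne {h : ℤ} {ρ : ι → ℤ} {M : Matrix ι ι F} {c c' : ι} (hne : lead h ρ M c c' ≠ 0) :
    M c c' ≠ 0 := by
  rw [lead] at hne
  split_ifs at hne with h1
  · exact hne
  · exact absurd rfl hne

/-- The leading form of a presented determinant is presented, with refined labels. -/
theorem WPres.stage [CharZero F] (hsep : Sep Λ) (P : WPres F ι κ Λ) (hf : P.f ≠ 0) (w : κ → ℤ) :
    ∃ P' : WPres F ι κ (Λ × ℤ), P'.f ≠ 0 ∧ WRefines P' P w ∧
      ∃ μ : ℤ, (∀ d, coeff d P.f ≠ 0 → μ ≤ wt w d) ∧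
        (∀ d, coeff d P'.f ≠ 0 ↔ coeff d P.f ≠ 0 ∧ wt w d = μ) := by
  classical
  let Q : ℤ → Prop := fun z => ∃ (S : Matrix ι ι F) (ρ : ι → ℤ), S.det ≠ 0 ∧
    (∀ c d, S c d ≠ 0 → P.β c = P.β d) ∧
    FeasW (S * P.B₀ * Sᵀ) (fun k => S * P.B k * Sᵀ) w ρ ∧ ∑ c, ρ c = z
  -- general consequences of feasibility
  have hcoef : ∀ (S : Matrix ι ι F) (ρ : ι → ℤ), S.det ≠ 0 →
      FeasW (S * P.B₀ * Sᵀ) (fun k => S * P.B k * Sᵀ) w ρ →
      (∀ d, coeff d P.f ≠ 0 → 0 ≤ wt w d + ∑ c, ρ c) ∧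
      (∀ d, coeff d (symb (lead 0 ρ (S * P.B₀ * Sᵀ)) (fun k => lead (2 * w k) ρ
        (S * P.B k * Sᵀ))).det =
          if wt w d + ∑ c, ρ c = 0 then S.det ^ 2 * coeff d P.f else 0) := by
    intro S ρ hS hF
    have h0 : ∀ i j, (S * P.B₀ * Sᵀ) i j ≠ 0 → 0 ≤ ρ i + ρ j := by
      intro i j h
      have := hF.1 i j h
      linarith
    have h1 : ∀ k i j, (S * P.B k * Sᵀ) i j ≠ 0 → 0 ≤ 2 * w k + ρ i + ρ j := hF.2
    have hdet : (symb (S * P.B₀ * Sᵀ) (fun k => S * P.B k * Sᵀ)).det =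
        C (S.det ^ 2) * P.f := det_symb_conj S P.B₀ P.B
    refine ⟨fun d hd => ?_, fun d => ?_⟩
    · have hd' : coeff d (symb (S * P.B₀ * Sᵀ) (fun k => S * P.B k * Sᵀ)).det ≠ 0 := by
        rw [hdet, coeff_C_mul]
        exact mul_ne_zero (pow_ne_zero 2 hS) hd
      have := coeff_nonneg_wt _ _ (fun k => 2 * w k) ρ h0 h1 d hd'
      rw [wt_two] at this
      linarith
    · rw [coeff_lead _ _ (fun k => 2 * w k) ρ h0 h1 d, wt_two, hdet, coeff_C_mul]
      by_cases h : wt w d + ∑ c, ρ c = 0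
      · rw [if_pos (by linarith), if_pos h]
      · rw [if_neg (fun h' => h (by linarith)), if_neg h]
  obtain ⟨d₀, hd₀⟩ := MvPolynomial.exists_coeff_ne_zero hf
  have hbdd : ∃ bb : ℤ, ∀ z, Q z → bb ≤ z := by
    refine ⟨- wt w d₀, ?_⟩
    rintro z ⟨S, ρ, hS, _, hF, rfl⟩
    have := (hcoef S ρ hS hF).1 d₀ hd₀
    linarith
  have hinh : ∃ z, Q z := by
    refine ⟨_, 1, fun _ => ∑ k, |w k|, ?_, ?_, ?_, rfl⟩
    · rw [Matrix.det_one]; exact one_ne_zero
    · intro c d hcd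
      by_contra hne
      apply hcd
      rw [Matrix.one_apply_ne]
      rintro rfl
      exact hne rfl
    · have hnn : 0 ≤ ∑ k, |w k| := Finset.sum_nonneg fun k _ => abs_nonneg _
      refine ⟨fun c c' _ => by linarith, fun k c c' _ => ?_⟩
      have h1 : |w k| ≤ ∑ k, |w k| :=
        Finset.single_le_sum (f := fun k => |w k|) (fun k _ => abs_nonneg _) (Finset.mem_univ k)
      have h2 := neg_abs_le (w k)
      show 0 ≤ 2 * w k + ∑ k, |w k| + ∑ k, |w k|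
      linarith
  obtain ⟨z, ⟨S, ρ, hS, hSβ, hF, hz⟩, hmin⟩ := Int.exists_least_of_bdd hbdd hinh
  -- transported data
  have hsymm : (S * P.B₀ * Sᵀ).IsSymm := conj_isSymm S _ P.symm₀
  have hsymmk : ∀ k, (S * P.B k * Sᵀ).IsSymm := fun k => conj_isSymm S _ (P.symm k)
  have hwitt : ∀ k, WittLeOne (S * P.B k * Sᵀ) := fun k => witt_conj S _ (P.witt k)
  have hBβ : ∀ c c', (S * P.B₀ * Sᵀ) c c' ≠ 0 → P.β c + P.β c' = 0 := by
    intro c c' h
    obtain ⟨d, d', h1, h2, h3⟩ := conj_ne hSβ h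
    rw [h2, h3]
    exact P.hB₀ d d' h1
  have hBkβ : ∀ k c c', (S * P.B k * Sᵀ) c c' ≠ 0 → P.β c + P.β c' = P.μ k := by
    intro k c c' h
    obtain ⟨d, d', h1, h2, h3⟩ := conj_ne hSβ h
    rw [h2, h3]
    exact P.hB k d d' h1
  have hdet : (symb (lead 0 ρ (S * P.B₀ * Sᵀ)) (fun k => lead (2 * w k) ρ
      (S * P.B k * Sᵀ))).det ≠ 0 := by
    intro h0
    obtain ⟨T, ρ', hT, hTβ, hF', hlt⟩ := improveW hsep P.β (S * P.B₀ * Sᵀ) hsymm hBβ
      (fun k => S * P.B k * Sᵀ) hsymmk hwitt P.μ hBkβ w ρ hF (by rw [mul_zero]; exact h0)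
    have hQ : Q (∑ c, ρ' c) := by
      refine ⟨T * S, ρ', ?_, ?_, ?_, rfl⟩
      · rw [Matrix.det_mul]; exact mul_ne_zero hT hS
      · intro c d h
        rw [Matrix.mul_apply] at h
        obtain ⟨e, _, he⟩ := Finset.exists_ne_zero_of_sum_ne_zero h
        rw [hTβ c e (left_ne_zero_of_mul he)]
        exact hSβ e d (right_ne_zero_of_mul he)
      · have e1 : ∀ M : Matrix ι ι F, T * S * M * (T * S)ᵀ = T * (S * M * Sᵀ) * Tᵀ := by
          intro M
          rw [Matrix.transpose_mul]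
          simp only [Matrix.mul_assoc]
        rw [e1]
        simp only [e1]
        exact hF'
    have := hmin _ hQ
    linarith
  let P' : WPres F ι κ (Λ × ℤ) :=
    { B₀ := lead (2 * 0) ρ (S * P.B₀ * Sᵀ)
      B := fun k => lead (2 * w k) ρ (S * P.B k * Sᵀ)
      β := fun c => (P.β c, ρ c)
      μ := fun k => (P.μ k, -(2 * w k))
      symm₀ := lead_symm _ ρ hsymm
      symm := fun k => lead_symm _ ρ (hsymmk k)
      witt := fun k => witt_lead _ (hsymmk k) (hwitt k) (w k) ρ (hF.2 k)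
      hB₀ := fun c c' h => by
        rw [lead_homog hBβ 0 ρ c c' h]
        rfl
      hB := fun k c c' h => lead_homog (hBkβ k) (w k) ρ c c' h }
  have hf' : P'.f = (symb (lead 0 ρ (S * P.B₀ * Sᵀ)) (fun k => lead (2 * w k) ρ
      (S * P.B k * Sᵀ))).det := by
    show (symb (lead (2 * 0) ρ (S * P.B₀ * Sᵀ)) _).det = _
    rw [mul_zero]
  refine ⟨P', by rw [hf']; exact hdet, ⟨fun c => rfl, fun k => rfl, ?_⟩, - ∑ c, ρ c, ?_, ?_⟩
  · intro k c c' h
    exact conj_ne hSβ (lead_ne h)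
  · intro d hd
    have := (hcoef S ρ hS hF).1 d hd
    linarith
  · intro d
    rw [hf', (hcoef S ρ hS hF).2 d]
    constructor
    · intro h
      split_ifs at h with h1
      · exact ⟨right_ne_zero_of_mul h, by linarith⟩
      · exact absurd rfl h
    · rintro ⟨h1, h2⟩
      rw [if_pos (by linarith)]
      exact mul_ne_zero (pow_ne_zero 2 hS) h1

end

end Pool.Agent.Lib.MP_64d474_lc
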