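import Mathlib
import Pool.Agent.Lib.MP_64d474_lc.WnStage

/-!
Walks in the label graph of a presented symbolic matrix.
-/

open Matrix Module MvPolynomial

set_option linter.unusedSectionVars false

namespace Pool.Agent.Lib.MP_64d474_lc

section

variable {F : Type*} [Field F] {ι κ : Type*} [Fintype ι] [DecidableEq ι] [Fintype κ]
  [DecidableEq κ] {Λ : Type*} [AddCommGroup Λ] [DecidableEq Λ]

/-- the labels and their negatives -/
def WPres.verts (P : WPres F ι κ Λ) : Finset Λ :=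
  Finset.univ.image P.β ∪ Finset.univ.image (fun c => -P.β c)

theorem WPres.card_verts (P : WPres F ι κ Λ) : P.verts.card ≤ 2 * Fintype.card ι := by
  rw [WPres.verts]
  refine (Finset.card_union_le _ _).trans ?_
  have h1 := Finset.card_image_le (s := (Finset.univ : Finset ι)) (f := P.β)
  have h2 := Finset.card_image_le (s := (Finset.univ : Finset ι)) (f := fun c => -P.β c)
  rw [Finset.card_univ] at h1 h2
  omega

theorem WPres.mem_verts (P : WPres F ι κ Λ) (c : ι) : P.β c ∈ P.verts ∧ -P.β c ∈ P.verts :=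
  ⟨Finset.mem_union_left _ (Finset.mem_image_of_mem _ (Finset.mem_univ c)),
    Finset.mem_union_right _ (Finset.mem_image_of_mem (fun c => -P.β c) (Finset.mem_univ c))⟩

/-- one step of a walk -/
def WPres.arc (P : WPres F ι κ Λ) (g g' : Λ) (z : κ → ℤ) : Prop :=
  ∃ k c c', P.B k c c' ≠ 0 ∧ ((z = Pi.single k 1 ∧ g = P.β c ∧ g' = -P.β c') ∨
    (z = Pi.single k (-1) ∧ g = -P.β c ∧ g' = P.β c'))

/-- walks of length at most `2 ^ s` with their vectors -/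
def WPres.Q (P : WPres F ι κ Λ) : ℕ → Λ → Λ → (κ → ℤ) → Prop
  | 0, g, g', z => g ∈ P.verts ∧ ((g = g' ∧ z = 0) ∨ P.arc g g' z)
  | s + 1, g, g', z => ∃ h z₁ z₂, P.Q s g h z₁ ∧ P.Q s h g' z₂ ∧ z = z₁ + z₂

theorem WPres.arc_verts (P : WPres F ι κ Λ) {g g' : Λ} {z : κ → ℤ} (h : P.arc g g' z) :
    g ∈ P.verts ∧ g' ∈ P.verts := by
  obtain ⟨k, c, c', -, ⟨-, rfl, rfl⟩ | ⟨-, rfl, rfl⟩⟩ := h
  · exact ⟨(P.mem_verts c).1, (P.mem_verts c').2⟩
  · exact ⟨(P.mem_verts c).2, (P.mem_verts c').1⟩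

theorem WPres.Q_verts (P : WPres F ι κ Λ) {s : ℕ} {g g' : Λ} {z : κ → ℤ} (h : P.Q s g g' z) :
    g ∈ P.verts ∧ g' ∈ P.verts := by
  induction s generalizing g g' z with
  | zero =>
    obtain ⟨h1, ⟨rfl, -⟩ | h2⟩ := h
    · exact ⟨h1, h1⟩
    · exact P.arc_verts h2
  | succ s ih =>
    obtain ⟨h, z₁, z₂, h1, h2, -⟩ := h
    exact ⟨(ih h1).1, (ih h2).2⟩

theorem WPres.arc_rev (P : WPres F ι κ Λ) {g g' : Λ} {z : κ → ℤ} (h : P.arc g g' z) :
    P.arc g' g (-z) := by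
  obtain ⟨k, c, c', hB, h⟩ := h
  refine ⟨k, c', c, ?_, ?_⟩
  · rw [(P.symm k).apply]; exact hB
  · rcases h with ⟨rfl, rfl, rfl⟩ | ⟨rfl, rfl, rfl⟩
    · right
      exact ⟨by rw [Pi.single_neg], rfl, rfl⟩
    · left
      exact ⟨by rw [← Pi.single_neg, neg_neg], rfl, rfl⟩

theorem WPres.Q_rev (P : WPres F ι κ Λ) {s : ℕ} {g g' : Λ} {z : κ → ℤ} (h : P.Q s g g' z) :
    P.Q s g' g (-z) := by
  induction s generalizing g g' z with
  | zero =>
    obtain ⟨h1, ⟨rfl, rfl⟩ | h2⟩ := h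
    · exact ⟨h1, Or.inl ⟨rfl, neg_zero⟩⟩
    · exact ⟨(P.arc_verts h2).2, Or.inr (P.arc_rev h2)⟩
  | succ s ih =>
    obtain ⟨h, z₁, z₂, h1, h2, rfl⟩ := h
    exact ⟨h, -z₂, -z₁, ih h2, ih h1, by rw [neg_add, add_comm]⟩

theorem WPres.Q_bound (P : WPres F ι κ Λ) {s : ℕ} {g g' : Λ} {z : κ → ℤ} (h : P.Q s g g' z)
    (k : κ) : |z k| ≤ 2 ^ s := by
  induction s generalizing g g' z with
  | zero =>
    rw [pow_zero]
    have hs : ∀ (k' : κ) (ε : ℤ), |ε| ≤ 1 → |(Pi.single k' ε : κ → ℤ) k| ≤ 1 := by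
      intro k' ε hε
      by_cases hk : k = k'
      · subst hk
        rw [Pi.single_eq_same]
        exact hε
      · rw [Pi.single_eq_of_ne hk]
        simp
    obtain ⟨h1, ⟨-, rfl⟩ | ⟨k', c, c', -, ⟨rfl, -, -⟩ | ⟨rfl, -, -⟩⟩⟩ := h
    · simp
    · exact hs k' 1 (by simp)
    · exact hs k' (-1) (by simp)
  | succ s ih =>
    obtain ⟨h, z₁, z₂, h1, h2, rfl⟩ := h
    have e1 := ih h1
    have e2 := ih h2
    rw [Pi.add_apply, pow_succ]
    have := abs_add_le (z₁ k) (z₂ k)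
    linarith

theorem WPres.Q_pot (P : WPres F ι κ Λ) {s : ℕ} {g g' : Λ} {z : κ → ℤ} (h : P.Q s g g' z)
    (l : Λ →+ ℤ) : ∑ k, z k * l (P.μ k) = l g - l g' := by
  induction s generalizing g g' z with
  | zero =>
    obtain ⟨h1, ⟨rfl, rfl⟩ | ⟨k', c, c', hB, h⟩⟩ := h
    · simp
    · have hs : ∀ ε : ℤ, ∑ k, (Pi.single k' ε : κ → ℤ) k * l (P.μ k) = ε * l (P.μ k') := by
        intro ε
        rw [Finset.sum_eq_single k']
        · rw [Pi.single_eq_same]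
        · intro b _ hb
          rw [Pi.single_eq_of_ne hb, zero_mul]
        · intro h; exact absurd (Finset.mem_univ _) h
      have hμ := P.hB k' c c' hB
      rcases h with ⟨rfl, rfl, rfl⟩ | ⟨rfl, rfl, rfl⟩
      · rw [hs, ← hμ, map_add, map_neg]; ring
      · rw [hs, ← hμ, map_add, map_neg]; ring
  | succ s ih =>
    obtain ⟨h, z₁, z₂, h1, h2, rfl⟩ := h
    simp only [Pi.add_apply, add_mul]
    rw [Finset.sum_add_distrib, ih h1, ih h2]
    ring

/-- all closed walks of length at most `2 ^ s` are trivial -/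
def WPres.clean (P : WPres F ι κ Λ) (s : ℕ) : Prop := ∀ g z, P.Q s g g z → z = 0

theorem WPres.Q_unique (P : WPres F ι κ Λ) {s : ℕ} (h : P.clean (s + 1)) {g g' : Λ}
    {z z' : κ → ℤ} (h1 : P.Q s g g' z) (h2 : P.Q s g g' z') : z = z' := by
  have := h g (z + -z') ⟨g', z, -z', h1, P.Q_rev h2, rfl⟩
  rw [← sub_eq_add_neg, sub_eq_zero] at this
  exact this

theorem WRefines.Q {P' : WPres F ι κ (Λ × ℤ)} {P : WPres F ι κ Λ} {w : κ → ℤ}
    (h : WRefines P' P w) {s : ℕ} {g g' : Λ × ℤ} {z : κ → ℤ} (hQ : P'.Q s g g' z) :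
    P.Q s g.1 g'.1 z := by
  induction s generalizing g g' z with
  | zero =>
    obtain ⟨h1, h2⟩ := hQ
    refine ⟨?_, ?_⟩
    · rw [WPres.verts, Finset.mem_union, Finset.mem_image, Finset.mem_image] at h1 ⊢
      rcases h1 with ⟨c, -, rfl⟩ | ⟨c, -, rfl⟩
      · left; exact ⟨c, Finset.mem_univ c, (h.hβ c).symm⟩
      · right; exact ⟨c, Finset.mem_univ c, by rw [Prod.fst_neg, h.hβ c]⟩
    · rcases h2 with ⟨rfl, rfl⟩ | ⟨k, c, c', hB, h2⟩
      · exact Or.inl ⟨rfl, rfl⟩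
      · right
        obtain ⟨d, d', hB', e1, e2⟩ := h.harc k c c' hB
        refine ⟨k, d, d', hB', ?_⟩
        rcases h2 with ⟨rfl, rfl, rfl⟩ | ⟨rfl, rfl, rfl⟩
        · left
          exact ⟨rfl, by rw [h.hβ, e1], by rw [Prod.fst_neg, h.hβ, e2]⟩
        · right
          exact ⟨rfl, by rw [Prod.fst_neg, h.hβ, e1], by rw [h.hβ, e2]⟩
  | succ s ih =>
    obtain ⟨h, z₁, z₂, h1, h2, rfl⟩ := hQ
    exact ⟨h.1, z₁, z₂, ih h1, ih h2, rfl⟩

theorem WRefines.closed {P' : WPres F ι κ (Λ × ℤ)} {P : WPres F ι κ Λ} {w : κ → ℤ}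
    (h : WRefines P' P w) {s : ℕ} {g : Λ × ℤ} {z : κ → ℤ} (hQ : P'.Q s g g z) :
    ∑ k, z k * w k = 0 := by
  have h1 := P'.Q_pot hQ (AddMonoidHom.snd Λ ℤ)
  rw [sub_self] at h1
  have h2 : ∑ k, z k * (AddMonoidHom.snd Λ ℤ) (P'.μ k) = ∑ k, (-2) * (z k * w k) := by
    refine Finset.sum_congr rfl fun k _ => ?_
    have : (AddMonoidHom.snd Λ ℤ) (P'.μ k) = -(2 * w k) := h.hμ k
    rw [this]; ring
  rw [h2, ← Finset.mul_sum] at h1
  linarith

/-- Counting closed walks at the first level. -/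
theorem WPres.count_one (P : WPres F ι κ Λ) : ∃ Z : Finset (κ → ℤ),
    Z.card ≤ (2 * Fintype.card κ + 1) ^ 2 ∧ ∀ g z, P.Q 1 g g z → z ∈ Z := by
  classical
  let Z₁ : Finset (κ → ℤ) := insert 0 (Finset.univ.image (fun k => Pi.single k (1 : ℤ)) ∪
    Finset.univ.image (fun k => Pi.single k (-1 : ℤ)))
  have hc : Z₁.card ≤ 2 * Fintype.card κ + 1 := by
    refine (Finset.card_insert_le _ _).trans ?_
    have h1 := Finset.card_image_le (s := (Finset.univ : Finset κ))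
      (f := fun k => (Pi.single k (1 : ℤ) : κ → ℤ))
    have h2 := Finset.card_image_le (s := (Finset.univ : Finset κ))
      (f := fun k => (Pi.single k (-1 : ℤ) : κ → ℤ))
    have h3 := Finset.card_union_le
      (Finset.univ.image (fun k : κ => (Pi.single k (1 : ℤ) : κ → ℤ)))
      (Finset.univ.image (fun k : κ => (Pi.single k (-1 : ℤ) : κ → ℤ)))
    rw [Finset.card_univ] at h1 h2
    omega
  have hmem : ∀ g g' z, P.Q 0 g g' z → z ∈ Z₁ := by
    rintro g g' z ⟨-, ⟨-, rfl⟩ | ⟨k, c, c', -, ⟨rfl, -, -⟩ | ⟨rfl, -, -⟩⟩⟩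
    · exact Finset.mem_insert_self _ _
    · exact Finset.mem_insert_of_mem (Finset.mem_union_left _ (Finset.mem_image_of_mem
        (fun k : κ => (Pi.single k (1 : ℤ) : κ → ℤ)) (Finset.mem_univ k)))
    · exact Finset.mem_insert_of_mem (Finset.mem_union_right _ (Finset.mem_image_of_mem
        (fun k : κ => (Pi.single k (-1 : ℤ) : κ → ℤ)) (Finset.mem_univ k)))
  refine ⟨(Z₁ ×ˢ Z₁).image (fun p => p.1 + p.2), ?_, ?_⟩
  · refine Finset.card_image_le.trans ?_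
    rw [Finset.card_product, pow_two]
    exact Nat.mul_le_mul hc hc
  · rintro g z ⟨h, z₁, z₂, h1, h2, rfl⟩
    rw [Finset.mem_image]
    exact ⟨(z₁, z₂), Finset.mem_product.mpr ⟨hmem _ _ _ h1, hmem _ _ _ h2⟩, rfl⟩

/-- Counting closed walks of twice the length of the trivial ones. -/
theorem WPres.count_succ (P : WPres F ι κ Λ) {s : ℕ} (hs : P.clean (s + 1)) :
    ∃ Z : Finset (κ → ℤ), Z.card ≤ (2 * Fintype.card ι) ^ 4 ∧
      ∀ g z, P.Q (s + 2) g g z → z ∈ Z := by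
  classical
  let Zf : Λ → Λ → (κ → ℤ) := fun g g' => if h : ∃ z, P.Q s g g' z then h.choose else 0
  have hZf : ∀ g g' z, P.Q s g g' z → z = Zf g g' := by
    intro g g' z h
    have hex : ∃ z, P.Q s g g' z := ⟨z, h⟩
    show z = if h : ∃ z, P.Q s g g' z then h.choose else 0
    rw [dif_pos hex]
    exact P.Q_unique hs h hex.choose_spec
  refine ⟨(P.verts ×ˢ (P.verts ×ˢ (P.verts ×ˢ P.verts))).image
    (fun p => (Zf p.1 p.2.1 + Zf p.2.1 p.2.2.1) + (Zf p.2.2.1 p.2.2.2 + Zf p.2.2.2 p.1)), ?_, ?_⟩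
  · refine Finset.card_image_le.trans ?_
    rw [Finset.card_product, Finset.card_product, Finset.card_product]
    have := P.card_verts
    calc P.verts.card * (P.verts.card * (P.verts.card * P.verts.card)) = P.verts.card ^ 4 := by
          ring
      _ ≤ _ := Nat.pow_le_pow_left this 4
  · rintro g z ⟨h, z₁, z₂, ⟨h₁, y₁, y₂, q1, q2, rfl⟩, ⟨h₂, y₃, y₄, q3, q4, rfl⟩, rfl⟩
    rw [Finset.mem_image]
    refine ⟨(g, h₁, h, h₂), ?_, ?_⟩
    · simp only [Finset.mem_product]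
      exact ⟨(P.Q_verts q1).1, (P.Q_verts q1).2, (P.Q_verts q2).2, (P.Q_verts q3).2⟩
    · show (Zf g h₁ + Zf h₁ h) + (Zf h h₂ + Zf h₂ g) = _
      rw [← hZf _ _ _ q1, ← hZf _ _ _ q2, ← hZf _ _ _ q3, ← hZf _ _ _ q4]

end

end Pool.Agent.Lib.MP_64d474_lc
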