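import Mathlib
import Pool.Agent.Lib.MP_64d474_lc.WnWalk

/-!
If there are no nontrivial closed walks, the determinant is a single monomial.
-/

open Matrix Module MvPolynomial

set_option linter.unusedSectionVars false

namespace Pool.Agent.Lib.MP_64d474_lc

section

variable {F : Type*} [Field F] {ι κ : Type*} [Fintype ι] [DecidableEq ι] [Fintype κ]
  [DecidableEq κ] {Λ : Type*} [AddCommGroup Λ] [DecidableEq Λ]

/-- integer vector of a symbol -/
def ez (o : Option κ) : κ → ℤ := o.elim 0 (fun k => Pi.single k 1)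

theorem oexp_cast (o : Option κ) (k : κ) : ((oexp o k : ℕ) : ℤ) = ez o k := by
  cases o with
  | none => rfl
  | some k' =>
    show (((Finsupp.single k' 1 : κ →₀ ℕ) k : ℕ) : ℤ) = (Pi.single k' (1 : ℤ) : κ → ℤ) k
    by_cases h : k = k'
    · subst h
      rw [Finsupp.single_eq_same, Pi.single_eq_same]
      rfl
    · rw [Finsupp.single_eq_of_ne h, Pi.single_eq_of_ne h]
      rfl

/-- sums along the orbits of a permutation -/
theorem sum_orbits (τ : Equiv.Perm ι) (a : ι → κ → ℤ)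
    (h : ∀ i, ∃ p, 0 < p ∧ (τ ^ p) i = i ∧ ∑ t ∈ Finset.range p, a ((τ ^ t) i) = 0) :
    ∑ i, a i = 0 := by
  choose p hp hpi hsum using h
  set N := ∏ i, p i with hN
  have hN0 : N ≠ 0 := Finset.prod_ne_zero_iff.mpr fun i _ => (hp i).ne'
  have hblock : ∀ i q, (τ ^ (p i * q)) i = i ∧
      ∑ t ∈ Finset.range (p i * q), a ((τ ^ t) i) = 0 := by
    intro i q
    induction q with
    | zero => exact ⟨by simp, by simp⟩
    | succ q ih =>
      rw [Nat.mul_succ]
      refine ⟨?_, ?_⟩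
      · rw [pow_add, Equiv.Perm.mul_apply, hpi, ih.1]
      · rw [add_comm (p i * q), Finset.sum_range_add, hsum, zero_add]
        rw [← ih.2]
        refine Finset.sum_congr rfl fun t _ => ?_
        rw [add_comm (p i) t, pow_add, Equiv.Perm.mul_apply, hpi]
  have h1 : ∀ i, ∑ t ∈ Finset.range N, a ((τ ^ t) i) = 0 := by
    intro i
    obtain ⟨q, hq⟩ : p i ∣ N := Finset.dvd_prod_of_mem p (Finset.mem_univ i)
    rw [hq]
    exact (hblock i q).2
  have h2 : ∑ i, ∑ t ∈ Finset.range N, a ((τ ^ t) i) = N • ∑ i, a i := by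
    rw [Finset.sum_comm]
    have : ∀ t ∈ Finset.range N, ∑ i, a ((τ ^ t) i) = ∑ i, a i := fun t _ =>
      Equiv.sum_comp (τ ^ t) a
    rw [Finset.sum_congr rfl this, Finset.sum_const, Finset.card_range]
  rw [Finset.sum_eq_zero fun i _ => h1 i] at h2
  funext k
  have h3 := congrFun h2 k
  rw [Pi.zero_apply, Pi.smul_apply, nsmul_eq_mul] at h3
  rcases mul_eq_zero.mp h3.symm with h4 | h4
  · exact absurd (by exact_mod_cast h4) hN0
  · exact h4

theorem exists_period (τ : Equiv.Perm ι) (i : ι) :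
    ∃ p, 0 < p ∧ p ≤ Fintype.card ι ∧ (τ ^ p) i = i := by
  have hcard : (Finset.univ : Finset ι).card < (Finset.range (Fintype.card ι + 1)).card := by
    rw [Finset.card_range, Finset.card_univ]; omega
  obtain ⟨x, hx, y, hy, hxy, hf⟩ := Finset.exists_ne_map_eq_of_card_lt_of_maps_to hcard
    (f := fun t => (τ ^ t) i) (fun t _ => Finset.mem_univ _)
  rw [Finset.mem_range] at hx hy
  have key : ∀ a b, a < b → b < Fintype.card ι + 1 → (τ ^ a) i = (τ ^ b) i →
      ∃ p, 0 < p ∧ p ≤ Fintype.card ι ∧ (τ ^ p) i = i := by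
    intro a b hab hb h
    refine ⟨b - a, by omega, by omega, ?_⟩
    have h1 : τ ^ b = τ ^ a * τ ^ (b - a) := by
      rw [← pow_add]
      congr 1
      omega
    rw [h1, Equiv.Perm.mul_apply] at h
    exact ((τ ^ a).injective h).symm
  rcases lt_or_gt_of_ne hxy with h | h
  · exact key x y h hy hf
  · exact key y x h hx hf.symm

theorem WPres.walk (P : WPres F ι κ Λ) (G : ℕ → Λ) (V : ℕ → κ → ℤ) (hv : ∀ i, G i ∈ P.verts)
    (hstep : ∀ i, (G i = G (i + 1) ∧ V i = 0) ∨ P.arc (G i) (G (i + 1)) (V i)) :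
    ∀ s i h, h ≤ 2 ^ s → P.Q s (G i) (G (i + h)) (∑ l ∈ Finset.range h, V (i + l)) := by
  intro s
  induction s with
  | zero =>
    intro i h hh
    rw [pow_zero] at hh
    refine ⟨hv i, ?_⟩
    rcases Nat.le_one_iff_eq_zero_or_eq_one.mp hh with rfl | rfl
    · left
      exact ⟨rfl, by rw [Finset.sum_range_zero]⟩
    · rw [Finset.sum_range_one, add_zero]
      exact hstep i
  | succ s ih =>
    intro i h hh
    rw [pow_succ] at hh
    obtain ⟨h₁, h₂, rfl, e1, e2⟩ : ∃ h₁ h₂, h = h₁ + h₂ ∧ h₁ ≤ 2 ^ s ∧ h₂ ≤ 2 ^ s :=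
      ⟨min h (2 ^ s), h - min h (2 ^ s), by omega, by omega, by omega⟩
    have q2 := ih (i + h₁) h₂ e2
    rw [add_assoc] at q2
    refine ⟨G (i + h₁), _, _, ih i h₁ e1, q2, ?_⟩
    rw [Finset.sum_range_add]
    simp only [add_assoc]

theorem term_of_coeff {M₀ : Matrix ι ι F} {M : κ → Matrix ι ι F} {d : κ →₀ ℕ}
    (hd : coeff d (symb M₀ M).det ≠ 0) : ∃ (σ : Equiv.Perm ι) (φ : ι → Option κ),
      (∀ k, ((d k : ℕ) : ℤ) = (∑ i, ez (φ i)) k) ∧ ∀ i, omat M₀ M (φ i) (σ i) i ≠ 0 := by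
  rw [coeff_det_symb] at hd
  obtain ⟨σ, _, hσ⟩ := Finset.exists_ne_zero_of_sum_ne_zero hd
  obtain ⟨φ, _, hφ⟩ := Finset.exists_ne_zero_of_sum_ne_zero hσ
  split_ifs at hφ with he
  · refine ⟨σ, φ, fun k => ?_, fun i => ?_⟩
    · rw [← he, Finsupp.finsetSum_apply, Finset.sum_apply]
      push_cast
      exact Finset.sum_congr rfl fun i _ => oexp_cast _ _
    · exact Finset.prod_ne_zero_iff.mp (right_ne_zero_of_mul hφ) i (Finset.mem_univ i)
  · exact absurd rfl hφ

/-- Without nontrivial closed walks there is only one monomial. -/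
theorem WPres.single_monomial (P : WPres F ι κ Λ) {L : ℕ} (hcl : P.clean L)
    (hL : 2 * Fintype.card ι ≤ 2 ^ L) {d d' : κ →₀ ℕ} (hd : coeff d P.f ≠ 0)
    (hd' : coeff d' P.f ≠ 0) : d = d' := by
  obtain ⟨σ, φ, h1, h2⟩ := term_of_coeff hd
  obtain ⟨σ', φ', h1', h2'⟩ := term_of_coeff hd'
  set τ : Equiv.Perm ι := σ'⁻¹ * σ with hτ
  have hστ : ∀ j, σ' (τ j) = σ j := by
    intro j
    rw [hτ, Equiv.Perm.mul_apply]
    exact σ'.apply_symm_apply _
  have stepA : ∀ j, (P.β j = -P.β (σ j) ∧ ez (φ j) = (0 : κ → ℤ)) ∨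
      P.arc (P.β j) (-P.β (σ j)) (ez (φ j)) := by
    intro j
    have hj := h2 j
    cases hφ : φ j with
    | none =>
      rw [hφ] at hj
      left
      refine ⟨?_, rfl⟩
      exact eq_neg_of_add_eq_zero_right (P.hB₀ _ _ hj)
    | some k =>
      rw [hφ] at hj
      right
      refine ⟨k, j, σ j, ?_, Or.inl ⟨rfl, rfl, rfl⟩⟩
      rw [(P.symm k).apply]
      exact hj
  have stepB : ∀ j, (-P.β (σ j) = P.β (τ j) ∧ -ez (φ' (τ j)) = (0 : κ → ℤ)) ∨
      P.arc (-P.β (σ j)) (P.β (τ j)) (-ez (φ' (τ j))) := by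
    intro j
    have hj := h2' (τ j)
    rw [hστ] at hj
    cases hφ : φ' (τ j) with
    | none =>
      rw [hφ] at hj
      left
      refine ⟨?_, neg_zero⟩
      exact (eq_neg_of_add_eq_zero_right (P.hB₀ _ _ hj)).symm
    | some k =>
      rw [hφ] at hj
      right
      refine ⟨k, σ j, τ j, hj, Or.inr ⟨?_, rfl, rfl⟩⟩
      show -(Pi.single k 1 : κ → ℤ) = _
      rw [Pi.single_neg]
  have hzero : ∑ i, (ez (φ i) - ez (φ' (τ i)) : κ → ℤ) = 0 := by
    apply sum_orbits τ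
    intro i
    obtain ⟨p, hp0, hp, hpi⟩ := exists_period τ i
    refine ⟨p, hp0, hpi, ?_⟩
    let G : ℕ → Λ := fun l => if l % 2 = 0 then P.β ((τ ^ (l / 2)) i)
      else -P.β (σ ((τ ^ (l / 2)) i))
    let V : ℕ → κ → ℤ := fun l => if l % 2 = 0 then ez (φ ((τ ^ (l / 2)) i))
      else -ez (φ' (τ ((τ ^ (l / 2)) i)))
    have hG0 : ∀ t, G (2 * t) = P.β ((τ ^ t) i) := by
      intro t
      show (if (2 * t) % 2 = 0 then _ else _) = _
      rw [if_pos (by omega), show 2 * t / 2 = t by omega]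
    have hG1 : ∀ t, G (2 * t + 1) = -P.β (σ ((τ ^ t) i)) := by
      intro t
      show (if (2 * t + 1) % 2 = 0 then _ else _) = _
      rw [if_neg (by omega), show (2 * t + 1) / 2 = t by omega]
    have hV0 : ∀ t, V (2 * t) = ez (φ ((τ ^ t) i)) := by
      intro t
      show (if (2 * t) % 2 = 0 then _ else _) = _
      rw [if_pos (by omega), show 2 * t / 2 = t by omega]
    have hV1 : ∀ t, V (2 * t + 1) = -ez (φ' (τ ((τ ^ t) i))) := by
      intro t
      show (if (2 * t + 1) % 2 = 0 then _ else _) = _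
      rw [if_neg (by omega), show (2 * t + 1) / 2 = t by omega]
    have hpow : ∀ t, (τ ^ (t + 1)) i = τ ((τ ^ t) i) := by
      intro t
      rw [pow_succ', Equiv.Perm.mul_apply]
    have hcase : ∀ l, (∃ t, l = 2 * t) ∨ ∃ t, l = 2 * t + 1 := fun l => by
      rcases Nat.even_or_odd l with ⟨t, ht⟩ | ⟨t, ht⟩
      · exact Or.inl ⟨t, by omega⟩
      · exact Or.inr ⟨t, ht⟩
    have hv : ∀ l, G l ∈ P.verts := by
      intro l
      rcases hcase l with ⟨t, rfl⟩ | ⟨t, rfl⟩
      · rw [hG0]; exact (P.mem_verts _).1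
      · rw [hG1]; exact (P.mem_verts _).2
    have hstep : ∀ l, (G l = G (l + 1) ∧ V l = 0) ∨ P.arc (G l) (G (l + 1)) (V l) := by
      intro l
      rcases hcase l with ⟨t, rfl⟩ | ⟨t, rfl⟩
      · rw [hG0, hG1, hV0]
        exact stepA _
      · rw [show 2 * t + 1 + 1 = 2 * (t + 1) by ring, hG0, hG1, hV1, hpow]
        exact stepB _
    have hQ := P.walk G V hv hstep L 0 (2 * p) (by omega)
    rw [zero_add, hG0, hpi, show G 0 = P.β i from hG0 0] at hQ
    have hz := hcl _ _ hQ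
    rw [← hz]
    simp only [zero_add]
    clear hz hQ hpi hp hp0
    induction p with
    | zero => simp
    | succ p ih =>
      rw [Finset.sum_range_succ, ih, show 2 * (p + 1) = 2 * p + 1 + 1 by ring,
        Finset.sum_range_succ, Finset.sum_range_succ, hV0, hV1]
      abel
  have hfin : ∑ i, (ez (φ i) : κ → ℤ) = ∑ i, ez (φ' i) := by
    rw [Finset.sum_sub_distrib, Equiv.sum_comp τ (fun i => (ez (φ' i) : κ → ℤ))] at hzero
    exact sub_eq_zero.mp hzero
  ext k
  have e1 := h1 k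
  have e2 := h1' k
  rw [hfin, ← e2] at e1
  exact_mod_cast e1

end

end Pool.Agent.Lib.MP_64d474_lc
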