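import Mathlib
import Pool.Agent.Lib.MP_64d474_lc.QnExpand

/-!
Leading forms of symbolic determinants with separate potentials for rows and columns.
-/

open Matrix MvPolynomial

set_option linter.unusedSectionVars false

namespace Pool.Agent.Lib.MP_64d474_lc

section

variable {F : Type*} [Field F] {ι κ : Type*} [Fintype ι] [DecidableEq ι] [Fintype κ]
  [DecidableEq κ]

/-- leading part of a matrix with respect to row potentials `ρ` and column potentials `σ` -/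
def lead2 (h : ℤ) (ρ σ : ι → ℤ) (M : Matrix ι ι F) : Matrix ι ι F :=
  fun i j => if h + ρ i + σ j = 0 then M i j else 0

theorem lead2_ne {h : ℤ} {ρ σ : ι → ℤ} {M : Matrix ι ι F} {i j : ι} (hne : lead2 h ρ σ M i j ≠ 0) :
    h + ρ i + σ j = 0 ∧ M i j ≠ 0 := by
  rw [lead2] at hne
  split_ifs at hne with h1
  · exact ⟨h1, hne⟩
  · exact absurd rfl hne

theorem lead2_expand (M₀ : Matrix ι ι F) (M : κ → Matrix ι ι F) (h : κ → ℤ) (ρ σ : ι → ℤ)
    (h0 : ∀ i j, M₀ i j ≠ 0 → 0 ≤ 0 + ρ i + σ j)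
    (h1 : ∀ k i j, M k i j ≠ 0 → 0 ≤ h k + ρ i + σ j) (π : Equiv.Perm ι) (φ : ι → Option κ) :
    (dterm M₀ M π φ ≠ 0 → 0 ≤ wt h (∑ i, oexp (φ i)) + (∑ i, ρ i + ∑ i, σ i)) ∧
    dterm (lead2 0 ρ σ M₀) (fun k => lead2 (h k) ρ σ (M k)) π φ =
      if wt h (∑ i, oexp (φ i)) + (∑ i, ρ i + ∑ i, σ i) = 0 then dterm M₀ M π φ else 0 := by
  have hS : wt h (∑ i, oexp (φ i)) + (∑ i, ρ i + ∑ i, σ i) =
      ∑ i, ((φ i).elim 0 h + ρ (π i) + σ i) := by
    rw [wt_sum, Finset.sum_add_distrib, Finset.sum_add_distrib, Equiv.sum_comp π ρ]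
    simp only [wt_oexp]
    ring
  have hle : ∀ i, omat M₀ M (φ i) (π i) i ≠ 0 → 0 ≤ (φ i).elim 0 h + ρ (π i) + σ i := by
    intro i hi
    cases ho : φ i with
    | none =>
      rw [ho] at hi
      exact h0 _ _ hi
    | some k =>
      rw [ho] at hi
      exact h1 k _ _ hi
  have homat : ∀ i, omat (lead2 0 ρ σ M₀) (fun k => lead2 (h k) ρ σ (M k)) (φ i) (π i) i =
      if (φ i).elim 0 h + ρ (π i) + σ i = 0 then omat M₀ M (φ i) (π i) i else 0 := by
    intro i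
    cases ho : φ i with
    | none => rfl
    | some k => rfl
  rw [hS]
  by_cases hz : ∀ i, omat M₀ M (φ i) (π i) i ≠ 0
  · have hnn : ∀ i ∈ Finset.univ, 0 ≤ (φ i).elim 0 h + ρ (π i) + σ i := fun i _ => hle i (hz i)
    refine ⟨fun _ => Finset.sum_nonneg hnn, ?_⟩
    by_cases hs : ∑ i, ((φ i).elim 0 h + ρ (π i) + σ i) = 0
    · rw [if_pos hs, dterm, dterm]
      congr 1
      refine Finset.prod_congr rfl fun i _ => ?_
      rw [homat, if_pos ((Finset.sum_eq_zero_iff_of_nonneg hnn).mp hs i (Finset.mem_univ i))]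
    · rw [if_neg hs, dterm]
      have : ∃ i, (φ i).elim 0 h + ρ (π i) + σ i ≠ 0 := by
        by_contra hcon
        push Not at hcon
        exact hs (Finset.sum_eq_zero fun i _ => hcon i)
      obtain ⟨i, hi⟩ := this
      rw [Finset.prod_eq_zero (Finset.mem_univ i), mul_zero]
      rw [homat, if_neg hi]
  · push Not at hz
    obtain ⟨i, hi⟩ := hz
    have hd : dterm M₀ M π φ = 0 := by
      have : ∏ i, omat M₀ M (φ i) (π i) i = 0 := Finset.prod_eq_zero (Finset.mem_univ i) hi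
      rw [dterm, this, mul_zero]
    refine ⟨fun hne => absurd hd hne, ?_⟩
    have hd' : dterm (lead2 0 ρ σ M₀) (fun k => lead2 (h k) ρ σ (M k)) π φ = 0 := by
      rw [dterm, Finset.prod_eq_zero (Finset.mem_univ i), mul_zero]
      rw [homat, hi, ite_self]
    rw [hd', hd, ite_self]

/-- The leading form of a symbolic determinant. -/
theorem coeff_lead2 (M₀ : Matrix ι ι F) (M : κ → Matrix ι ι F) (h : κ → ℤ) (ρ σ : ι → ℤ)
    (h0 : ∀ i j, M₀ i j ≠ 0 → 0 ≤ 0 + ρ i + σ j)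
    (h1 : ∀ k i j, M k i j ≠ 0 → 0 ≤ h k + ρ i + σ j) (d : κ →₀ ℕ) :
    coeff d (symb (lead2 0 ρ σ M₀) (fun k => lead2 (h k) ρ σ (M k))).det =
      if wt h d + (∑ i, ρ i + ∑ i, σ i) = 0 then coeff d (symb M₀ M).det else 0 := by
  rw [coeff_det_symb, coeff_det_symb]
  split_ifs with hd
  · refine Finset.sum_congr rfl fun π _ => Finset.sum_congr rfl fun φ _ => ?_
    split_ifs with hφ
    · rw [(lead2_expand M₀ M h ρ σ h0 h1 π φ).2, hφ, if_pos hd]
    · rfl
  · refine Finset.sum_eq_zero fun π _ => Finset.sum_eq_zero fun φ _ => ?_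
    split_ifs with hφ
    · rw [(lead2_expand M₀ M h ρ σ h0 h1 π φ).2, hφ, if_neg hd]
    · rfl

theorem coeff_nonneg2 (M₀ : Matrix ι ι F) (M : κ → Matrix ι ι F) (h : κ → ℤ) (ρ σ : ι → ℤ)
    (h0 : ∀ i j, M₀ i j ≠ 0 → 0 ≤ 0 + ρ i + σ j)
    (h1 : ∀ k i j, M k i j ≠ 0 → 0 ≤ h k + ρ i + σ j) (d : κ →₀ ℕ)
    (hd : coeff d (symb M₀ M).det ≠ 0) : 0 ≤ wt h d + (∑ i, ρ i + ∑ i, σ i) := by
  rw [coeff_det_symb] at hd
  obtain ⟨π, _, hπ⟩ := Finset.exists_ne_zero_of_sum_ne_zero hd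
  obtain ⟨φ, _, hφ⟩ := Finset.exists_ne_zero_of_sum_ne_zero hπ
  split_ifs at hφ with he
  · have := (lead2_expand M₀ M h ρ σ h0 h1 π φ).1 hφ
    rwa [he] at this
  · exact absurd rfl hφ

theorem symb_equiv (S T B₀ : Matrix ι ι F) (B : κ → Matrix ι ι F) :
    symb (S * B₀ * T) (fun k => S * B k * T) = (S.map C) * symb B₀ B * (T.map C) := by
  have hm : ∀ M : Matrix ι ι F, (S * M * T).map (C : F → MvPolynomial κ F) =
      (S.map C) * (M.map C) * (T.map C) := by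
    intro M
    rw [Matrix.map_mul, Matrix.map_mul]
  rw [symb, symb, hm, Matrix.mul_add, Matrix.add_mul, Matrix.mul_sum, Matrix.sum_mul]
  congr 1
  refine Finset.sum_congr rfl fun k _ => ?_
  rw [hm, Matrix.mul_smul, Matrix.smul_mul]

theorem det_symb_equiv (S T B₀ : Matrix ι ι F) (B : κ → Matrix ι ι F) :
    (symb (S * B₀ * T) (fun k => S * B k * T)).det = C (S.det * T.det) * (symb B₀ B).det := by
  rw [symb_equiv, Matrix.det_mul, Matrix.det_mul]
  have : ∀ S : Matrix ι ι F, (S.map (C : F → MvPolynomial κ F)).det = C S.det := by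
    intro S
    rw [RingHom.map_det]; rfl
  rw [this, this, map_mul]
  ring

/-- entries of a product of three matrices -/
theorem equiv_apply (S M T : Matrix ι ι F) (i j : ι) :
    (S * M * T) i j = S i ⬝ᵥ M *ᵥ (fun l => T l j) := by
  rw [Matrix.mul_assoc, Matrix.mul_apply]
  simp only [dotProduct, mulVec, Matrix.mul_apply]

theorem equiv_ne {S M T : Matrix ι ι F} {i j : ι} (h : (S * M * T) i j ≠ 0) :
    ∃ i' j', S i i' ≠ 0 ∧ M i' j' ≠ 0 ∧ T j' j ≠ 0 := by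
  rw [equiv_apply] at h
  obtain ⟨i', _, hi⟩ := Finset.exists_ne_zero_of_sum_ne_zero h
  obtain ⟨j', _, hj⟩ := Finset.exists_ne_zero_of_sum_ne_zero (right_ne_zero_of_mul hi)
  exact ⟨i', j', left_ne_zero_of_mul hi, left_ne_zero_of_mul hj, right_ne_zero_of_mul hj⟩

end

end Pool.Agent.Lib.MP_64d474_lc
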