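import Mathlib
import Pool.Agent.Lib.MP_64d474_lc.XnBasic
import Pool.Agent.Lib.MP_64d474_lc.WnKer

/-!
Shrunk subspaces: a graded tuple with a shrunk subspace has a graded one.
-/

open Matrix Module

set_option linter.unusedSectionVars false

namespace Pool.Agent.Lib.MP_64d474_lc

section

variable {F : Type*} [Field F] {ι κ : Type*} [Fintype ι] [DecidableEq ι] [Fintype κ]
  [DecidableEq κ]

/-- There is a shrunk subspace. -/
def Shrunk (B₀ : Matrix ι ι F) (B : κ → Matrix ι ι F) : Prop :=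
  ∃ U : Submodule F (ι → F), finrank F (imageSum B₀ B U) < finrank F U

theorem imageSum_sup (B₀ : Matrix ι ι F) (B : κ → Matrix ι ι F) (U V : Submodule F (ι → F)) :
    imageSum B₀ B (U ⊔ V) = imageSum B₀ B U ⊔ imageSum B₀ B V := by
  rw [imageSum, imageSum, imageSum, Submodule.map_sup]
  simp only [Submodule.map_sup, iSup_sup_eq]
  rw [sup_sup_sup_comm]

theorem imageSum_mono (B₀ : Matrix ι ι F) (B : κ → Matrix ι ι F) {U V : Submodule F (ι → F)}
    (h : U ≤ V) : imageSum B₀ B U ≤ imageSum B₀ B V :=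
  sup_le_sup (Submodule.map_mono h) (iSup_mono fun _ => Submodule.map_mono h)

theorem imageSum_le {B₀ : Matrix ι ι F} {B : κ → Matrix ι ι F} {U V : Submodule F (ι → F)}
    (h0 : ∀ x ∈ U, B₀ *ᵥ x ∈ V) (h1 : ∀ k, ∀ x ∈ U, B k *ᵥ x ∈ V) : imageSum B₀ B U ≤ V := by
  refine sup_le ?_ (iSup_le fun k => ?_)
  · rintro _ ⟨x, hx, rfl⟩
    exact h0 x hx
  · rintro _ ⟨x, hx, rfl⟩
    exact h1 k x hx

theorem mem_imageSum_zero {B₀ : Matrix ι ι F} (B : κ → Matrix ι ι F) {U : Submodule F (ι → F)}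
    {x : ι → F} (hx : x ∈ U) : B₀ *ᵥ x ∈ imageSum B₀ B U :=
  Submodule.mem_sup_left ⟨x, hx, rfl⟩

theorem mem_imageSum {B₀ : Matrix ι ι F} {B : κ → Matrix ι ι F} {U : Submodule F (ι → F)}
    (k : κ) {x : ι → F} (hx : x ∈ U) : B k *ᵥ x ∈ imageSum B₀ B U :=
  Submodule.mem_sup_right (Submodule.mem_iSup_of_mem k ⟨x, hx, rfl⟩)

/-- the linear map multiplying the coordinates -/
def scaleL (l : ι → F) : (ι → F) →ₗ[F] (ι → F) where
  toFun x := fun c => l c * x c
  map_add' x y := by
    funext c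
    rw [Pi.add_apply, Pi.add_apply, mul_add]
  map_smul' t x := by
    funext c
    rw [RingHom.id_apply, Pi.smul_apply, Pi.smul_apply, smul_eq_mul, smul_eq_mul]
    ring

theorem scaleL_inj (l : ι → F) (hl : ∀ c, l c ≠ 0) : Function.Injective (scaleL l) := by
  intro x y h
  funext c
  have := congrFun h c
  exact mul_left_cancel₀ (hl c) this

theorem finrank_scaleL (l : ι → F) (hl : ∀ c, l c ≠ 0) (U : Submodule F (ι → F)) :
    finrank F (U.map (scaleL l)) = finrank F U :=
  (Submodule.equivMapOfInjective (scaleL l) (scaleL_inj l hl) U).finrank_eq.symm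

/-- A subspace stable under the torus is graded. -/
theorem graded_of_scaling [CharZero F] {Λ : Type*} [AddCommGroup Λ] [DecidableEq Λ]
    (hsep : Sep Λ) (γ : ι → Λ) (U : Submodule F (ι → F))
    (key : ∀ φ : Λ →+ ℤ, ∀ x ∈ U, (fun c => (2 : F) ^ (φ (γ c)) * x c) ∈ U) : Graded γ U := by
  intro g x hx
  have hind : ∀ S : Finset Λ, g ∉ S → ∃ y ∈ U, (∀ c, γ c = g → y c = x c) ∧
      ∀ c, γ c ∈ S → y c = 0 := by
    intro S
    induction S using Finset.induction_on with
    | empty => exact fun _ => ⟨x, hx, fun _ _ => rfl, fun c hc => absurd hc (Finset.notMem_empty _)⟩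
    | insert g' S hg' ih =>
      intro hg
      rw [Finset.mem_insert, not_or] at hg
      obtain ⟨y, hy, hy1, hy2⟩ := ih hg.2
      obtain ⟨φ, hφ⟩ := hsep (g - g') (sub_ne_zero.mpr hg.1)
      rw [map_sub, sub_ne_zero] at hφ
      have hd : (2 : F) ^ φ g - 2 ^ φ g' ≠ 0 := by
        rw [sub_ne_zero]
        intro h
        have h2 : ((2 : ℚ) ^ φ g : ℚ) = 2 ^ φ g' := by
          have := h
          have e : ∀ n : ℤ, ((((2 : ℚ) ^ n : ℚ)) : F) = (2 : F) ^ n := fun n => by
            rw [Rat.cast_zpow, Rat.cast_ofNat]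
          rw [← e, ← e] at this
          exact Rat.cast_injective this
        exact hφ (zpow_right_injective₀ (by norm_num) (by norm_num) h2)
      refine ⟨((2 : F) ^ φ g - 2 ^ φ g')⁻¹ •
        ((fun c => (2 : F) ^ (φ (γ c)) * y c) - (2 : F) ^ φ g' • y), ?_, ?_, ?_⟩
      · exact Submodule.smul_mem _ _ (Submodule.sub_mem _ (key φ y hy) (Submodule.smul_mem _ _ hy))
      · intro c hc
        simp only [Pi.smul_apply, Pi.sub_apply, smul_eq_mul]
        rw [hc, hy1 c hc, ← sub_mul, inv_mul_cancel_left₀ hd]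
      · intro c hc
        simp only [Pi.smul_apply, Pi.sub_apply, smul_eq_mul]
        rcases Finset.mem_insert.mp hc with h | h
        · rw [h, sub_self, mul_zero]
        · rw [hy2 c h, mul_zero, mul_zero, sub_zero, mul_zero]
  obtain ⟨y, hy, hy1, hy2⟩ := hind ((Finset.univ.image γ).erase g) (Finset.notMem_erase _ _)
  have : blk γ g x = y := by
    funext c
    rw [blk]
    split_ifs with hc
    · exact (hy1 c hc).symm
    · exact (hy2 c (Finset.mem_erase.mpr ⟨hc, Finset.mem_image_of_mem _ (Finset.mem_univ c)⟩)).symm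
  rw [this]
  exact hy

/-- A graded tuple with a shrunk subspace has a graded shrunk subspace. -/
theorem shrunk_graded [CharZero F] {Λ : Type*} [AddCommGroup Λ] [DecidableEq Λ] (hsep : Sep Λ)
    (a b : ι → Λ) (B₀ : Matrix ι ι F) (hB₀ : ∀ i j, B₀ i j ≠ 0 → a i + b j = 0)
    (B : κ → Matrix ι ι F) (μ : κ → Λ) (hB : ∀ k i j, B k i j ≠ 0 → a i + b j = μ k)
    (h : Shrunk B₀ B) :
    ∃ U : Submodule F (ι → F), Graded b U ∧ finrank F (imageSum B₀ B U) < finrank F U := by
  classical
  have two_ne : (2 : F) ≠ 0 := two_ne_zero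
  set δ : Submodule F (ι → F) → ℤ := fun U => (finrank F U : ℤ) - finrank F (imageSum B₀ B U)
    with hδ
  have hsuper : ∀ U V, δ U + δ V ≤ δ (U ⊔ V) + δ (U ⊓ V) := by
    intro U V
    have h1 := Submodule.finrank_sup_add_finrank_inf_eq U V
    have h2 := Submodule.finrank_sup_add_finrank_inf_eq (imageSum B₀ B U) (imageSum B₀ B V)
    have h3 : finrank F (imageSum B₀ B (U ⊓ V)) ≤
        finrank F (imageSum B₀ B U ⊓ imageSum B₀ B V : Submodule F (ι → F)) :=
      Submodule.finrank_mono (le_inf (imageSum_mono _ _ inf_le_left)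
        (imageSum_mono _ _ inf_le_right))
    rw [← imageSum_sup] at h2
    simp only [hδ]
    omega
  obtain ⟨D, ⟨U₁, hU₁⟩, hD⟩ := Int.exists_greatest_of_bdd (P := fun z => ∃ U, δ U = z)
    ⟨Fintype.card ι, by
      rintro z ⟨U, rfl⟩
      have h1 : finrank F U ≤ Fintype.card ι := by
        have := Submodule.finrank_le U
        rwa [finrank_fintype_fun_eq_card] at this
      simp only [hδ]
      omega⟩ ⟨_, ⊥, rfl⟩
  have hD' : ∀ U, δ U ≤ D := fun U => hD _ ⟨U, rfl⟩
  have hex : ∃ r, ∃ U, δ U = D ∧ finrank F U = r := ⟨_, U₁, hU₁, rfl⟩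
  obtain ⟨U, hU, hUr⟩ := Nat.find_spec hex
  have hmin : ∀ V, δ V = D → U ≤ V := by
    intro V hV
    have h1 := hsuper U V
    have h2 := hD' (U ⊔ V)
    have h3 := hD' (U ⊓ V)
    have h4 : δ (U ⊓ V) = D := by omega
    have h5 := Nat.find_min' hex ⟨U ⊓ V, h4, rfl⟩
    rw [← hUr] at h5
    have h6 : U ⊓ V = U := Submodule.eq_of_le_of_finrank_le inf_le_left h5
    rw [← h6]
    exact inf_le_right
  have hscale : ∀ φ : Λ →+ ℤ, U ≤ U.map (scaleL fun c => (2 : F) ^ (φ (b c))) := by
    intro φ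
    apply hmin
    have hl : ∀ c : ι, (2 : F) ^ (φ (b c)) ≠ 0 := fun c => zpow_ne_zero _ two_ne
    have hl' : ∀ c : ι, (2 : F) ^ (-φ (a c)) ≠ 0 := fun c => zpow_ne_zero _ two_ne
    have h1 : imageSum B₀ B (U.map (scaleL fun c => (2 : F) ^ (φ (b c)))) ≤
        (imageSum B₀ B U).map (scaleL fun c => (2 : F) ^ (-φ (a c))) := by
      apply imageSum_le
      · rintro _ ⟨y, hy, rfl⟩
        refine ⟨B₀ *ᵥ y, mem_imageSum_zero B hy, ?_⟩
        funext i
        simp only [scaleL, LinearMap.coe_mk, AddHom.coe_mk, mulVec, dotProduct, Finset.mul_sum]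
        refine Finset.sum_congr rfl fun j _ => ?_
        by_cases hz : B₀ i j = 0
        · rw [hz]; ring
        · have e := hB₀ i j hz
          have e1 : b j = -a i := eq_neg_of_add_eq_zero_right e
          rw [e1, map_neg]
          ring
      · rintro k _ ⟨y, hy, rfl⟩
        refine ⟨(2 : F) ^ (φ (μ k)) • (B k *ᵥ y), Submodule.smul_mem _ _ (mem_imageSum k hy), ?_⟩
        funext i
        simp only [scaleL, LinearMap.coe_mk, AddHom.coe_mk, mulVec, dotProduct, Finset.mul_sum,
          Pi.smul_apply, smul_eq_mul]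
        refine Finset.sum_congr rfl fun j _ => ?_
        by_cases hz : B k i j = 0
        · rw [hz]; ring
        · have e := hB k i j hz
          have e1 : φ (b j) = -φ (a i) + φ (μ k) := by
            rw [← e, map_add]; ring
          rw [e1, zpow_add₀ two_ne]
          ring
    have h2 : finrank F (imageSum B₀ B (U.map (scaleL fun c => (2 : F) ^ (φ (b c))))) ≤
        finrank F (imageSum B₀ B U) := by
      refine (Submodule.finrank_mono h1).trans ?_
      rw [finrank_scaleL _ hl']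
    have h3 := finrank_scaleL _ hl U
    have h4 := hD' (U.map (scaleL fun c => (2 : F) ^ (φ (b c))))
    simp only [hδ] at h4 hU ⊢
    rw [h3] at h4 ⊢
    omega
  refine ⟨U, graded_of_scaling hsep b U ?_, ?_⟩
  · intro φ x hx
    obtain ⟨y, hy, hxy⟩ := hscale (-φ) hx
    have : (fun c => (2 : F) ^ (φ (b c)) * x c) = y := by
      funext c
      rw [← hxy]
      simp only [scaleL, LinearMap.coe_mk, AddHom.coe_mk, AddMonoidHom.neg_apply]
      rw [← mul_assoc, ← zpow_add₀ two_ne, add_neg_cancel, zpow_zero, one_mul]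
    rw [this]
    exact hy
  · obtain ⟨V, hV⟩ := h
    have h1 := hD' V
    simp only [hδ] at h1 hU
    omega

end

end Pool.Agent.Lib.MP_64d474_lc
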