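import Mathlib
import Pool.Agent.Lib.MP_64d474_lc.XnShrunk

/-!
Improving row and column potentials by a shrunk subspace of the leading tuple.
-/

open Matrix Module

set_option linter.unusedSectionVars false

namespace Pool.Agent.Lib.MP_64d474_lc

section

variable {F : Type*} [Field F] {ι κ : Type*} [Fintype ι] [DecidableEq ι] [Fintype κ]
  [DecidableEq κ]

/-- Feasible row and column potentials. -/
def Feas2 (M₀ : Matrix ι ι F) (M : κ → Matrix ι ι F) (w : κ → ℤ) (ρ σ : ι → ℤ) : Prop :=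
  (∀ i j, M₀ i j ≠ 0 → 0 ≤ 0 + ρ i + σ j) ∧ (∀ k i j, M k i j ≠ 0 → 0 ≤ w k + ρ i + σ j)

theorem blk_mulVec2 {Λ : Type*} [AddCommGroup Λ] [DecidableEq Λ] (a b : ι → Λ)
    (M : Matrix ι ι F) (μ : Λ) (hM : ∀ i j, M i j ≠ 0 → a i + b j = μ) (g : Λ) (x : ι → F) :
    blk a g (M *ᵥ x) = M *ᵥ blk b (μ - g) x := by
  funext c
  rw [blk, mulVec, mulVec, dotProduct, dotProduct]
  split_ifs with hc
  · refine Finset.sum_congr rfl fun d _ => ?_
    by_cases h : M c d = 0
    · rw [h, zero_mul, zero_mul]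
    · rw [blk, if_pos]
      rw [← hM c d h, hc, add_sub_cancel_left]
  · symm
    refine Finset.sum_eq_zero fun d _ => ?_
    by_cases h : M c d = 0
    · rw [h, zero_mul]
    · rw [blk, if_neg, mul_zero]
      intro hd
      apply hc
      have := hM c d h
      rw [hd] at this
      rw [eq_sub_of_add_eq this, sub_sub_cancel]

/-- the image of a graded subspace is graded -/
theorem imageSum_graded {Λ : Type*} [AddCommGroup Λ] [DecidableEq Λ] (a b : ι → Λ)
    (B₀ : Matrix ι ι F) (hB₀ : ∀ i j, B₀ i j ≠ 0 → a i + b j = 0)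
    (B : κ → Matrix ι ι F) (μ : κ → Λ) (hB : ∀ k i j, B k i j ≠ 0 → a i + b j = μ k)
    (U : Submodule F (ι → F)) (hU : Graded b U) : Graded a (imageSum B₀ B U) := by
  intro g
  have hle : imageSum B₀ B U ≤ (imageSum B₀ B U).comap (blkL a g) := by
    apply imageSum_le
    · intro x hx
      rw [Submodule.mem_comap]
      show blk a g (B₀ *ᵥ x) ∈ _
      rw [blk_mulVec2 a b B₀ 0 hB₀]
      exact mem_imageSum_zero B (hU _ x hx)
    · intro k x hx
      rw [Submodule.mem_comap]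
      show blk a g (B k *ᵥ x) ∈ _
      rw [blk_mulVec2 a b (B k) _ (hB k)]
      exact mem_imageSum k (hU _ x hx)
  intro z hz
  exact hle hz

theorem orth_graded {Γ : Type*} [DecidableEq Γ] (γ : ι → Γ) (Z : Submodule F (ι → F))
    (hZ : Graded γ Z) : Graded γ (orth Z) := by
  intro g y hy z hz
  have h1 : blk γ g y ⬝ᵥ z = y ⬝ᵥ blk γ g z := by
    simp only [dotProduct, blk]
    refine Finset.sum_congr rfl fun c _ => ?_
    split_ifs
    · rfl
    · rw [zero_mul, mul_zero]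
  rw [h1]
  exact hy _ (hZ g z hz)

theorem top_graded {Γ : Type*} [DecidableEq Γ] (γ : ι → Γ) :
    Graded γ (⊤ : Submodule F (ι → F)) := fun _ _ _ => Submodule.mem_top

/-- one coefficient matrix under a change of bases -/
theorem feas_aux2 (M : Matrix ι ι F) (w : ℤ) (ρ σ : ι → ℤ)
    (hf : ∀ i j, M i j ≠ 0 → 0 ≤ w + ρ i + σ j) (S T : Matrix ι ι F)
    (hS : ∀ c d, S c d ≠ 0 → ρ c = ρ d) (hT : ∀ c d, T c d ≠ 0 → σ c = σ d)
    (U Z : Submodule F (ι → F)) (hU : ∀ x ∈ U, lead2 w ρ σ M *ᵥ x ∈ Z) (CU CY : Finset ι)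
    (hCU : ∀ j ∈ CU, (fun l => T l j) ∈ U) (hCY : ∀ i ∈ CY, S i ∈ orth Z) (i j : ι)
    (h : (S * M * T) i j ≠ 0) :
    0 ≤ w + (ρ i + (if i ∈ CY then 0 else 1)) + (σ j - (if j ∈ CU then 1 else 0)) := by
  obtain ⟨i', j', h1, h2, h3⟩ := equiv_ne h
  have e1 := hS i i' h1
  have e2 := hT j' j h3
  have e3 := hf i' j' h2
  have e4 : w + ρ i + σ j = 0 → j ∈ CU → i ∉ CY := by
    intro h0 hj hi
    apply h
    rw [equiv_apply]
    have e5 : S i ⬝ᵥ M *ᵥ (fun l => T l j) = S i ⬝ᵥ lead2 w ρ σ M *ᵥ (fun l => T l j) := by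
      simp only [dotProduct, mulVec, Finset.mul_sum]
      refine Finset.sum_congr rfl fun p _ => Finset.sum_congr rfl fun q _ => ?_
      by_cases hp : S i p = 0
      · rw [hp, zero_mul, zero_mul]
      · by_cases hq : T q j = 0
        · simp only [hq, mul_zero]
        · have g1 := hS i p hp
          have g2 := hT q j hq
          have : lead2 w ρ σ M p q = M p q := by
            rw [lead2, if_pos (by omega)]
          rw [this]
    rw [e5]
    exact hCY i hi _ (hU _ (hCU j hj))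
  split_ifs with f1 f2 f2
  · by_cases h0 : w + ρ i + σ j = 0
    · exact absurd f1 (e4 h0 f2)
    · omega
  · omega
  · omega
  · omega

variable {Λ : Type*} [AddCommGroup Λ] [DecidableEq Λ]

/-- leading parts are homogeneous for the refined labels -/
theorem lead2_homog {a b : ι → Λ} {M : Matrix ι ι F} {μ : Λ}
    (hM : ∀ i j, M i j ≠ 0 → a i + b j = μ) (w : ℤ) (ρ σ : ι → ℤ) (i j : ι)
    (h : lead2 w ρ σ M i j ≠ 0) : ((a i, ρ i) : Λ × ℤ) + (b j, σ j) = (μ, -w) := by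
  obtain ⟨h1, h2⟩ := lead2_ne h
  refine Prod.ext (hM i j h2) ?_
  show ρ i + σ j = -w
  omega

/-- If the leading tuple has a shrunk subspace, the potentials can be improved. -/
theorem improve2 [CharZero F] (hsep : Sep Λ) (a b : ι → Λ) (M₀ : Matrix ι ι F)
    (hM₀ : ∀ i j, M₀ i j ≠ 0 → a i + b j = 0) (M : κ → Matrix ι ι F) (μ : κ → Λ)
    (hM : ∀ k i j, M k i j ≠ 0 → a i + b j = μ k) (w : κ → ℤ) (ρ σ : ι → ℤ)
    (hf : Feas2 M₀ M w ρ σ)
    (hshr : Shrunk (lead2 0 ρ σ M₀) (fun k => lead2 (w k) ρ σ (M k))) :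
    ∃ (S T : Matrix ι ι F) (ρ' σ' : ι → ℤ), S.det ≠ 0 ∧ T.det ≠ 0 ∧
      (∀ c d, S c d ≠ 0 → a c = a d) ∧ (∀ c d, T c d ≠ 0 → b c = b d) ∧
      Feas2 (S * M₀ * T) (fun k => S * M k * T) w ρ' σ' ∧
      ∑ c, ρ' c + ∑ c, σ' c < ∑ c, ρ c + ∑ c, σ c := by
  classical
  set N₀ := lead2 0 ρ σ M₀ with hN₀
  set N : κ → Matrix ι ι F := fun k => lead2 (w k) ρ σ (M k) with hN
  let a' : ι → Λ × ℤ := fun c => (a c, ρ c)
  let b' : ι → Λ × ℤ := fun c => (b c, σ c)
  have hN₀γ : ∀ i j, N₀ i j ≠ 0 → a' i + b' j = 0 := by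
    intro i j h
    have := lead2_homog hM₀ 0 ρ σ i j h
    show ((a i, ρ i) : Λ × ℤ) + (b j, σ j) = 0
    rw [this]
    rfl
  have hNγ : ∀ k i j, N k i j ≠ 0 → a' i + b' j = (μ k, -w k) := fun k i j h =>
    lead2_homog (hM k) (w k) ρ σ i j h
  obtain ⟨U, hUgr, hUlt⟩ := shrunk_graded hsep.prod a' b' N₀ hN₀γ N _ hNγ hshr
  set Z := imageSum N₀ N U with hZ
  have hZgr : Graded a' Z := imageSum_graded a' b' N₀ hN₀γ N _ hNγ U hUgr
  obtain ⟨R, hR, hRγ, CU, -, hCU, -, hcU, -⟩ :=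
    exists_graded_basis b' U ⊤ le_top hUgr (top_graded b')
  obtain ⟨S, hS, hSγ, CY, -, hCY, -, hcY, -⟩ :=
    exists_graded_basis a' (orth Z) ⊤ le_top (orth_graded a' Z hZgr) (top_graded a')
  have hSρ : ∀ c d, S c d ≠ 0 → ρ c = ρ d := fun c d h => congrArg Prod.snd (hSγ c d h)
  have hTσ : ∀ c d, Rᵀ c d ≠ 0 → σ c = σ d := fun c d h =>
    (congrArg Prod.snd (hRγ d c h)).symm
  refine ⟨S, Rᵀ, fun i => ρ i + (if i ∈ CY then 0 else 1), fun j => σ j - (if j ∈ CU then 1 else 0),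
    hS, by rw [Matrix.det_transpose]; exact hR, fun c d h => congrArg Prod.fst (hSγ c d h),
    fun c d h => (congrArg Prod.fst (hRγ d c h)).symm, ⟨?_, ?_⟩, ?_⟩
  · exact fun i j h => feas_aux2 M₀ 0 ρ σ hf.1 S Rᵀ hSρ hTσ U Z
      (fun x hx => mem_imageSum_zero N hx) CU CY hCU hCY i j h
  · exact fun k i j h => feas_aux2 (M k) (w k) ρ σ (hf.2 k) S Rᵀ hSρ hTσ U Z
      (fun x hx => mem_imageSum (B := N) k hx) CU CY hCU hCY i j h
  · rw [Finset.sum_add_distrib, Finset.sum_sub_distrib]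
    have s1 : ∑ c : ι, (if c ∈ CU then (1 : ℤ) else 0) = CU.card := by
      rw [Finset.sum_ite_mem, Finset.univ_inter, Finset.sum_const, nsmul_eq_mul, mul_one]
    have s2 : ∑ c : ι, (if c ∈ CY then (0 : ℤ) else 1) = Fintype.card ι - CY.card := by
      have h1 : ∀ c : ι, (if c ∈ CY then (0 : ℤ) else 1) = 1 - (if c ∈ CY then 1 else 0) := by
        intro c
        split_ifs <;> ring
      simp only [h1]
      rw [Finset.sum_sub_distrib, Finset.sum_ite_mem, Finset.univ_inter, Finset.sum_const,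
        Finset.sum_const, nsmul_eq_mul, mul_one, nsmul_eq_mul, mul_one, Finset.card_univ]
    have s3 := card_le_finrank_orth Z
    rw [s1, s2]
    have s4 : (Fintype.card ι : ℤ) ≤ finrank F (orth Z) + finrank F Z := by exact_mod_cast s3
    have s5 : (finrank F Z : ℤ) < finrank F U := by exact_mod_cast hUlt
    have s6 : (finrank F U : ℤ) ≤ CU.card := by exact_mod_cast hcU
    have s7 : (finrank F (orth Z) : ℤ) ≤ CY.card := by exact_mod_cast hcY
    linarith

end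

end Pool.Agent.Lib.MP_64d474_lc
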