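import Mathlib
import Pool.Agent.Lib.MP_64d474_lc.XnImprove

/-!
Optimality of feasible potentials whose leading tuple has no shrunk subspace.
-/

open Matrix Module

set_option linter.unusedSectionVars false

namespace Pool.Agent.Lib.MP_64d474_lc

section

variable {F : Type*} [Field F] {ι κ : Type*} [Fintype ι] [DecidableEq ι] [Fintype κ]
  [DecidableEq κ]

/-- vectors supported on the coordinates with potential at most `c` -/
def Fil (F : Type*) [Field F] (θ : ι → ℤ) (c : ℤ) : Submodule F (ι → F) where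
  carrier := {x | ∀ j, c < θ j → x j = 0}
  add_mem' := fun {a b} ha hb j hj => by rw [Pi.add_apply, ha j hj, hb j hj, add_zero]
  zero_mem' := fun _ _ => rfl
  smul_mem' := fun t {a} ha j hj => by rw [Pi.smul_apply, ha j hj, smul_zero]

theorem finrank_Fil (θ : ι → ℤ) (c : ℤ) :
    (finrank F (Fil F θ c) : ℤ) = ∑ j, if θ j ≤ c then (1 : ℤ) else 0 := by
  have h1 : Fil F θ c = bsp F (fun j => decide (θ j ≤ c)) true := by
    ext x
    constructor
    · intro h j hj
      exact h j (by
        by_contra hcon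
        push Not at hcon
        exact hj (decide_eq_true hcon))
    · intro h j hj
      exact h j (by
        show decide (θ j ≤ c) ≠ true
        rw [decide_eq_false (by omega)]
        exact Bool.false_ne_true)
  rw [h1, finrank_bsp, Fintype.card_subtype, Finset.sum_boole]
  simp only [decide_eq_true_eq]

theorem sum_count (a b s : ℤ) (h1 : a ≤ s) (h2 : s ≤ b) :
    ∑ c ∈ Finset.Ico a b, (if s ≤ c then (1 : ℤ) else 0) = b - s := by
  rw [Finset.sum_boole, Finset.Ico_filter_le, max_eq_right h1]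
  exact Int.card_Ico_of_le s b h2

theorem one_step (G : ℤ → ℤ) (a b : ℤ) (h : a ≤ b) :
    ∑ c ∈ Finset.Ico a b, G c - ∑ c ∈ Finset.Ico (a + 1) (b + 1), G c = G a - G b := by
  rcases eq_or_lt_of_le h with rfl | h
  · simp
  · rw [← Finset.insert_Ico_add_one_left_eq_Ico h,
      ← Finset.insert_Ico_right_eq_Ico_add_one (show a + 1 ≤ b by omega),
      Finset.sum_insert (by simp), Finset.sum_insert (by simp)]
    ring

theorem telescope (G : ℤ → ℤ) (a b : ℤ) (h : a ≤ b) :
    ∑ c ∈ Finset.Ico a b, (G c - G (c - 1)) = G (b - 1) - G (a - 1) := by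
  have h1 := one_step G (a - 1) (b - 1) (by omega)
  have h2 : ∑ c ∈ Finset.Ico a b, G (c - 1) = ∑ c ∈ Finset.Ico (a - 1) (b - 1), G c := by
    have := Finset.sum_Ico_add' G a b (-1)
    exact this
  rw [Finset.sum_sub_distrib, h2]
  rw [sub_add_cancel, sub_add_cancel] at h1
  linarith

/-- one graded piece -/
noncomputable def piece (θ θs : ι → ℤ) (E : (ι → F) ≃ₗ[F] (ι → F)) (c e : ℤ) :
    Submodule F (ι → F) :=
  (Fil F θ c ⊓ (Fil F θs e).comap E.toLinearMap).map (blkL θ c)

/-- dimension of an intersection of two filtrations -/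
noncomputable def mdim (θ θs : ι → ℤ) (E : (ι → F) ≃ₗ[F] (ι → F)) (c e : ℤ) : ℤ :=
  finrank F (Fil F θ c ⊓ (Fil F θs e).comap E.toLinearMap : Submodule F (ι → F))

theorem finrank_piece (θ θs : ι → ℤ) (E : (ι → F) ≃ₗ[F] (ι → F)) (c e : ℤ) :
    (finrank F (piece θ θs E c e) : ℤ) = mdim θ θs E c e - mdim θ θs E (c - 1) e := by
  set L : Submodule F (ι → F) := Fil F θ c ⊓ (Fil F θs e).comap E.toLinearMap with hL
  have h1 := LinearMap.finrank_range_add_finrank_ker ((blkL (F := F) θ c).domRestrict L)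
  have h2 : LinearMap.range ((blkL (F := F) θ c).domRestrict L) = piece θ θs E c e := by
    rw [LinearMap.range_domRestrict]
    rfl
  have h3 : finrank F (LinearMap.ker ((blkL (F := F) θ c).domRestrict L)) =
      finrank F (Fil F θ (c - 1) ⊓ (Fil F θs e).comap E.toLinearMap : Submodule F (ι → F)) := by
    have h4 : (LinearMap.ker ((blkL (F := F) θ c).domRestrict L)).map L.subtype =
        Fil F θ (c - 1) ⊓ (Fil F θs e).comap E.toLinearMap := by
      ext x
      constructor
      · rintro ⟨⟨y, hy⟩, hk, rfl⟩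
        have hk' : blk θ c y = 0 := hk
        refine ⟨fun j hj => ?_, hy.2⟩
        show y j = 0
        by_cases hjc : θ j = c
        · have := congrFun hk' j
          rw [blk, if_pos hjc] at this
          exact this
        · exact hy.1 j (by omega)
      · rintro ⟨hx1, hx2⟩
        have hx : x ∈ L := ⟨fun j hj => hx1 j (by omega), hx2⟩
        refine ⟨⟨x, hx⟩, ?_, rfl⟩
        show blk θ c x = 0
        funext j
        rw [blk]
        split_ifs with hj
        · exact hx1 j (by omega)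
        · rfl
    rw [← h4, Submodule.finrank_map_subtype_eq]
  rw [h2, h3] at h1
  rw [mdim, mdim, ← hL]
  omega

theorem finrank_sup_bsp (θ : ι → ℤ) (P : ℤ → Submodule F (ι → F)) (hP : ∀ c, P c ≤ bsp F θ c)
    (I : Finset ℤ) : finrank F (I.sup P : Submodule F (ι → F)) = ∑ c ∈ I, finrank F (P c) := by
  induction I using Finset.induction_on with
  | empty => simp
  | insert a I ha ih =>
    rw [Finset.sup_insert, Finset.sum_insert ha, ← ih]
    have h1 := Submodule.finrank_sup_add_finrank_inf_eq (P a) (I.sup P)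
    have h2 : P a ⊓ I.sup P = ⊥ := by
      rw [eq_bot_iff]
      rintro x ⟨hx1, hx2⟩
      rw [Submodule.mem_bot]
      let A : Submodule F (ι → F) :=
        { carrier := {x | ∀ j, θ j = a → x j = 0}
          add_mem' := fun {y z} hy hz j hj => by rw [Pi.add_apply, hy j hj, hz j hj, add_zero]
          zero_mem' := fun _ _ => rfl
          smul_mem' := fun t {y} hy j hj => by rw [Pi.smul_apply, hy j hj, smul_zero] }
      have h3 : I.sup P ≤ A := by
        refine Finset.sup_le fun c hc y hy j hj => ?_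
        exact hP c hy j (by
          intro h
          rw [hj] at h
          exact ha (h ▸ hc))
      funext j
      by_cases hj : θ j = a
      · exact h3 hx2 j hj
      · exact hP a hx1 j hj
    rw [h2, finrank_bot, add_zero] at h1
    exact h1

theorem piece_le (θ θs : ι → ℤ) (E : (ι → F) ≃ₗ[F] (ι → F)) (c e : ℤ) :
    piece θ θs E c e ≤ bsp F θ c := by
  rintro _ ⟨x, -, rfl⟩ j hj
  show blk θ c x j = 0
  rw [blk, if_neg hj]

/-- the subspace of the leading space in relative position at most `d` -/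
noncomputable def Ufil (θ θs : ι → ℤ) (E : (ι → F) ≃ₗ[F] (ι → F)) (R d : ℤ) :
    Submodule F (ι → F) :=
  (Finset.Ico (-R) (R + 1)).sup fun c => piece θ θs E c (c + d)

theorem dim_sum (θ θs : ι → ℤ) (E : (ι → F) ≃ₗ[F] (ι → F)) (R : ℤ) (hR : 0 ≤ R)
    (hθ : ∀ j, -R ≤ θ j ∧ θ j ≤ R) (hθs : ∀ j, -R ≤ θs j ∧ θs j ≤ R) :
    ∑ d ∈ Finset.Ico (-(2 * R + 1)) (2 * R + 1), (finrank F (Ufil θ θs E R d) : ℤ) =
      Fintype.card ι * (2 * R + 1) + ∑ j, θ j - ∑ j, θs j := by
  set D := 2 * R + 1 with hD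
  set m := mdim θ θs E with hm
  have hm0 : ∀ c e, e < -R → m c e = 0 := by
    intro c e he
    have h1 : Fil F θs e = ⊥ := by
      rw [eq_bot_iff]
      intro x hx
      rw [Submodule.mem_bot]
      funext j
      exact hx j (by have := (hθs j).1; omega)
    have h2 : (⊥ : Submodule F (ι → F)).comap E.toLinearMap = ⊥ := by
      rw [Submodule.comap_bot]
      exact LinearMap.ker_eq_bot.mpr E.injective
    rw [hm, mdim, h1, h2, inf_bot_eq, finrank_bot]
    rfl
  have hm1 : ∀ c e, R ≤ e → m c e = finrank F (Fil F θ c) := by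
    intro c e he
    have h1 : Fil F θs e = ⊤ := by
      rw [eq_top_iff]
      intro x _ j hj
      have := (hθs j).2
      omega
    rw [hm, mdim, h1, Submodule.comap_top, inf_top_eq]
  have hm2 : ∀ c e, c < -R → m c e = 0 := by
    intro c e he
    have h1 : Fil F θ c = ⊥ := by
      rw [eq_bot_iff]
      intro x hx
      rw [Submodule.mem_bot]
      funext j
      exact hx j (by have := (hθ j).1; omega)
    rw [hm, mdim, h1, bot_inf_eq, finrank_bot]
    rfl
  have hm3 : ∀ e, m R e = finrank F (Fil F θs e) := by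
    intro e
    have h1 : Fil F θ R = ⊤ := by
      rw [eq_top_iff]
      intro x _ j hj
      have := (hθ j).2
      omega
    rw [hm, mdim, h1, top_inf_eq, Submodule.comap_equiv_eq_map_symm]
    exact congrArg _ (LinearEquiv.finrank_map_eq E.symm (Fil F θs e))
  have h1 : ∀ d, (finrank F (Ufil θ θs E R d) : ℤ) =
      ∑ c ∈ Finset.Ico (-R) (R + 1), (m c (c + d) - m (c - 1) (c + d)) := by
    intro d
    rw [Ufil, finrank_sup_bsp θ _ (fun c => piece_le θ θs E c (c + d))]
    push_cast
    exact Finset.sum_congr rfl fun c _ => finrank_piece θ θs E c (c + d)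
  simp only [h1]
  rw [Finset.sum_comm]
  set A : ℤ → ℤ := fun c => ∑ d ∈ Finset.Ico (-D) D, m c (c + d) with hA
  set A' : ℤ → ℤ := fun c => ∑ d ∈ Finset.Ico (-D + 1) (D + 1), m c (c + d) with hA'
  have h2 : ∀ c, ∑ d ∈ Finset.Ico (-D) D, (m c (c + d) - m (c - 1) (c + d)) =
      (A c - A' c) + (A' c - A' (c - 1)) := by
    intro c
    rw [Finset.sum_sub_distrib]
    have h3 : ∑ d ∈ Finset.Ico (-D) D, m (c - 1) (c + d) = A' (c - 1) := by
      have := Finset.sum_Ico_add' (fun d => m (c - 1) (c - 1 + d)) (-D) D 1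
      rw [hA']
      simp only
      rw [← this]
      refine Finset.sum_congr rfl fun d _ => ?_
      congr 1
      ring
    rw [h3]
    ring
  simp only [h2]
  rw [Finset.sum_add_distrib, telescope A' (-R) (R + 1) (by omega)]
  have h4 : ∀ c ∈ Finset.Ico (-R) (R + 1), A c - A' c = -(finrank F (Fil F θ c) : ℤ) := by
    intro c hc
    rw [Finset.mem_Ico] at hc
    have h5 := one_step (fun d => m c (c + d)) (-D) D (by omega)
    rw [hA, hA']
    simp only
    rw [h5, hm0 c _ (by omega), hm1 c _ (by omega)]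
    ring
  rw [Finset.sum_congr rfl h4, Finset.sum_neg_distrib]
  have h6 : A' (-R - 1) = 0 := by
    rw [hA']
    exact Finset.sum_eq_zero fun d _ => hm2 _ _ (by omega)
  rw [h6, sub_zero, add_sub_cancel_right]
  have h7 : ∑ c ∈ Finset.Ico (-R) (R + 1), (finrank F (Fil F θ c) : ℤ) =
      ∑ j, (R + 1 - θ j) := by
    simp only [finrank_Fil]
    rw [Finset.sum_comm]
    exact Finset.sum_congr rfl fun j _ => sum_count _ _ _ (hθ j).1 (by
      have := (hθ j).2
      omega)
  have h8 : A' R = ∑ j, (D + 1 - (θs j - R)) := by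
    rw [hA']
    simp only [hm3, finrank_Fil]
    rw [Finset.sum_comm]
    refine Finset.sum_congr rfl fun j _ => ?_
    have h9 : ∀ d : ℤ, (θs j ≤ R + d) = (θs j - R ≤ d) := fun d => by
      apply propext
      constructor <;> intro h <;> omega
    simp only [h9]
    have := hθs j
    exact sum_count _ _ _ (by omega) (by omega)
  rw [h7, h8]
  simp only [Finset.sum_sub_distrib, Finset.sum_add_distrib, Finset.sum_const, Finset.card_univ,
    nsmul_eq_mul]
  ring

/-- homogeneous leading parts map pieces into pieces -/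
theorem lead2_piece (M : Matrix ι ι F) (w : ℤ) (ρ σ ρs σs : ι → ℤ) (S T : Matrix ι ι F)
    (hf : ∀ i j, M i j ≠ 0 → 0 ≤ w + ρ i + σ j)
    (hfs : ∀ i j, (S * M * T) i j ≠ 0 → 0 ≤ w + ρs i + σs j)
    (ES ET : (ι → F) ≃ₗ[F] (ι → F)) (hES : ∀ x, ES x = S *ᵥ x) (hET : ∀ x, T *ᵥ (ET x) = x)
    (R : ℤ) (hρ : ∀ i, -R ≤ ρ i ∧ ρ i ≤ R) (d : ℤ) (x : ι → F)
    (hx : x ∈ Ufil σ σs ET R d) :
    lead2 w ρ σ M *ᵥ x ∈ Ufil (fun i => -ρ i) (fun i => -ρs i) ES R d := by
  have hle : Ufil σ σs ET R d ≤ (Ufil (fun i => -ρ i) (fun i => -ρs i) ES R d).comap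
      (lead2 w ρ σ M).mulVecLin := by
    refine Finset.sup_le fun c _ => ?_
    rintro _ ⟨y, ⟨hy1, hy2⟩, rfl⟩
    rw [Submodule.mem_comap]
    show lead2 w ρ σ M *ᵥ (blk σ c y) ∈ _
    have key : lead2 w ρ σ M *ᵥ (blk σ c y) = blk (fun i => -ρ i) (c + w) (M *ᵥ y) := by
      funext i
      rw [blk, mulVec, mulVec, dotProduct, dotProduct]
      split_ifs with hi
      · refine Finset.sum_congr rfl fun j _ => ?_
        rw [blk, lead2]
        by_cases hM : M i j = 0
        · rw [hM, ite_self, zero_mul, zero_mul]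
        · have h1 := hf i j hM
          by_cases hj : σ j = c
          · rw [if_pos (by omega), if_pos hj]
          · rw [if_neg hj, mul_zero, hy1 j (by omega), mul_zero]
      · refine Finset.sum_eq_zero fun j _ => ?_
        rw [blk, lead2]
        by_cases hj : σ j = c
        · rw [if_neg (by omega), zero_mul]
        · rw [if_neg hj, mul_zero]
    rw [key]
    by_cases hr : c + w ∈ Finset.Ico (-R) (R + 1)
    · have h1 : piece (fun i => -ρ i) (fun i => -ρs i) ES (c + w) (c + w + d) ≤
          Ufil (fun i => -ρ i) (fun i => -ρs i) ES R d :=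
        Finset.le_sup (f := fun c => piece (fun i => -ρ i) (fun i => -ρs i) ES c (c + d)) hr
      apply h1
      refine ⟨M *ᵥ y, ⟨fun i hi => ?_, ?_⟩, rfl⟩
      · rw [mulVec, dotProduct]
        refine Finset.sum_eq_zero fun j _ => ?_
        by_cases hM : M i j = 0
        · rw [hM, zero_mul]
        · have h2 := hf i j hM
          have hi' : c + w < -ρ i := hi
          rw [hy1 j (by omega), mul_zero]
      · show ES (M *ᵥ y) ∈ Fil F (fun i => -ρs i) (c + w + d)
        have h3 : ES (M *ᵥ y) = (S * M * T) *ᵥ (ET y) := by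
          rw [hES, ← Matrix.mulVec_mulVec, hET, Matrix.mulVec_mulVec]
        rw [h3]
        intro i hi
        have hi' : c + w + d < -ρs i := hi
        rw [mulVec, dotProduct]
        refine Finset.sum_eq_zero fun j _ => ?_
        by_cases hM : (S * M * T) i j = 0
        · rw [hM, zero_mul]
        · have h2 := hfs i j hM
          have h4 : (ET y) j = 0 := hy2 j (by omega)
          rw [h4, mul_zero]
    · have h1 : blk (fun i => -ρ i) (c + w) (M *ᵥ y) = 0 := by
        funext i
        rw [blk, if_neg]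
        · rfl
        · intro hi
          apply hr
          rw [Finset.mem_Ico]
          have := hρ i
          omega
      rw [h1]
      exact Submodule.zero_mem _
  exact hle hx

/-- Feasible potentials whose leading tuple has no shrunk subspace are optimal. -/
theorem dual_opt (M₀ : Matrix ι ι F) (M : κ → Matrix ι ι F) (w : κ → ℤ) (ρ σ ρs σs : ι → ℤ)
    (S T : Matrix ι ι F) (hS : S.det ≠ 0) (hT : T.det ≠ 0) (hf : Feas2 M₀ M w ρ σ)
    (hfs : Feas2 (S * M₀ * T) (fun k => S * M k * T) w ρs σs)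
    (hns : ¬ Shrunk (lead2 0 ρ σ M₀) (fun k => lead2 (w k) ρ σ (M k))) :
    ∑ c, ρ c + ∑ c, σ c ≤ ∑ c, ρs c + ∑ c, σs c := by
  classical
  set R : ℤ := ∑ i, (|ρ i| + |σ i| + |ρs i| + |σs i|) with hRdef
  have hterm : ∀ i, |ρ i| + |σ i| + |ρs i| + |σs i| ≤ R := fun i =>
    Finset.single_le_sum (f := fun i => |ρ i| + |σ i| + |ρs i| + |σs i|)
      (fun i _ => by positivity) (Finset.mem_univ i)
  have hR : 0 ≤ R := Finset.sum_nonneg fun i _ => by positivity
  have hb : ∀ i, (-R ≤ ρ i ∧ ρ i ≤ R) ∧ (-R ≤ σ i ∧ σ i ≤ R) ∧ (-R ≤ ρs i ∧ ρs i ≤ R) ∧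
      (-R ≤ σs i ∧ σs i ≤ R) := by
    intro i
    have h := hterm i
    have h1 := abs_nonneg (ρ i)
    have h2 := abs_nonneg (σ i)
    have h3 := abs_nonneg (ρs i)
    have h4 := abs_nonneg (σs i)
    exact ⟨abs_le.mp (by linarith), abs_le.mp (by linarith), abs_le.mp (by linarith),
      abs_le.mp (by linarith)⟩
  have hSu : IsUnit S.det := isUnit_iff_ne_zero.mpr hS
  have hTu : IsUnit T.det := isUnit_iff_ne_zero.mpr hT
  let ES : (ι → F) ≃ₗ[F] (ι → F) :=
    { S.mulVecLin with
      invFun := fun x => S⁻¹ *ᵥ x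
      left_inv := fun x => by
        show S⁻¹ *ᵥ (S *ᵥ x) = x
        rw [Matrix.mulVec_mulVec, Matrix.nonsing_inv_mul S hSu, Matrix.one_mulVec]
      right_inv := fun x => by
        show S *ᵥ (S⁻¹ *ᵥ x) = x
        rw [Matrix.mulVec_mulVec, Matrix.mul_nonsing_inv S hSu, Matrix.one_mulVec] }
  let ET : (ι → F) ≃ₗ[F] (ι → F) :=
    { T⁻¹.mulVecLin with
      invFun := fun x => T *ᵥ x
      left_inv := fun x => by
        show T *ᵥ (T⁻¹ *ᵥ x) = x
        rw [Matrix.mulVec_mulVec, Matrix.mul_nonsing_inv T hTu, Matrix.one_mulVec]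
      right_inv := fun x => by
        show T⁻¹ *ᵥ (T *ᵥ x) = x
        rw [Matrix.mulVec_mulVec, Matrix.nonsing_inv_mul T hTu, Matrix.one_mulVec] }
  have hES : ∀ x, ES x = S *ᵥ x := fun x => rfl
  have hET : ∀ x, T *ᵥ (ET x) = x := fun x => by
    show T *ᵥ (T⁻¹ *ᵥ x) = x
    rw [Matrix.mulVec_mulVec, Matrix.mul_nonsing_inv T hTu, Matrix.one_mulVec]
  have hle : ∀ d, (finrank F (Ufil σ σs ET R d) : ℤ) ≤
      finrank F (Ufil (fun i => -ρ i) (fun i => -ρs i) ES R d) := by
    intro d
    have h1 : imageSum (lead2 0 ρ σ M₀) (fun k => lead2 (w k) ρ σ (M k)) (Ufil σ σs ET R d) ≤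
        Ufil (fun i => -ρ i) (fun i => -ρs i) ES R d :=
      imageSum_le
        (fun x hx => lead2_piece M₀ 0 ρ σ ρs σs S T hf.1 hfs.1 ES ET hES hET R
          (fun i => (hb i).1) d x hx)
        (fun k x hx => lead2_piece (M k) (w k) ρ σ ρs σs S T (hf.2 k) (hfs.2 k) ES ET hES hET R
          (fun i => (hb i).1) d x hx)
    have h2 : finrank F (Ufil σ σs ET R d) ≤ finrank F (imageSum (lead2 0 ρ σ M₀)
        (fun k => lead2 (w k) ρ σ (M k)) (Ufil σ σs ET R d)) := by
      by_contra h
      exact hns ⟨_, not_le.mp h⟩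
    exact_mod_cast h2.trans (Submodule.finrank_mono h1)
  have h3 := dim_sum σ σs ET R hR (fun j => (hb j).2.1) (fun j => (hb j).2.2.2)
  have h4 := dim_sum (fun i => -ρ i) (fun i => -ρs i) ES R hR
    (fun j => by have := (hb j).1; constructor <;> linarith [this.1, this.2])
    (fun j => by have := (hb j).2.2.1; constructor <;> linarith [this.1, this.2])
  have h5 := Finset.sum_le_sum fun d (_ : d ∈ Finset.Ico (-(2 * R + 1)) (2 * R + 1)) => hle d
  rw [h3, h4, Finset.sum_neg_distrib, Finset.sum_neg_distrib] at h5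
  linarith

end

end Pool.Agent.Lib.MP_64d474_lc
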