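import Mathlib
import Pool.Agent.Lib.MP_64d474_lc.XnDual

/-!
Degenerations of a tuple of matrices with exact dual certificates.
-/

open Matrix Module MvPolynomial

set_option linter.unusedSectionVars false

namespace Pool.Agent.Lib.MP_64d474_lc

section

variable {F : Type*} [Field F] {ι κ : Type*} [Fintype ι] [DecidableEq ι] [Fintype κ]
  [DecidableEq κ]

/-- A dual certificate for the minimal weight of a monomial of the determinant. -/
def Cert (B₀ : Matrix ι ι F) (B : κ → Matrix ι ι F) (w : κ → ℤ) : Prop :=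
  ∃ (S T : Matrix ι ι F) (ρ σ : ι → ℤ), S.det ≠ 0 ∧ T.det ≠ 0 ∧
    Feas2 (S * B₀ * T) (fun k => S * B k * T) w ρ σ ∧
    ∃ d, coeff d (symb B₀ B).det ≠ 0 ∧ wt w d + (∑ c, ρ c + ∑ c, σ c) = 0

theorem mul_mul_inv (S A T : Matrix ι ι F) (hS : S.det ≠ 0) (hT : T.det ≠ 0)
    (S' T' : Matrix ι ι F) : (S' * S⁻¹) * (S * A * T) * (T⁻¹ * T') = S' * A * T' := by
  have h1 : S⁻¹ * S = 1 := Matrix.nonsing_inv_mul S (isUnit_iff_ne_zero.mpr hS)
  have h2 : T * T⁻¹ = 1 := Matrix.mul_nonsing_inv T (isUnit_iff_ne_zero.mpr hT)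
  calc (S' * S⁻¹) * (S * A * T) * (T⁻¹ * T') = S' * (S⁻¹ * S) * A * (T * T⁻¹) * T' := by
        simp only [Matrix.mul_assoc]
    _ = S' * A * T' := by rw [h1, h2, Matrix.mul_one, Matrix.mul_one]

/-- With an exact certificate, a degeneration without shrunk subspace is nonsingular. -/
theorem nonsing_of_cert (B₀ : Matrix ι ι F) (B : κ → Matrix ι ι F) (w : κ → ℤ)
    (hc : Cert B₀ B w) (S T : Matrix ι ι F) (ρ σ : ι → ℤ) (hS : S.det ≠ 0) (hT : T.det ≠ 0)
    (hf : Feas2 (S * B₀ * T) (fun k => S * B k * T) w ρ σ)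
    (hns : ¬ Shrunk (lead2 0 ρ σ (S * B₀ * T)) (fun k => lead2 (w k) ρ σ (S * B k * T))) :
    (symb (lead2 0 ρ σ (S * B₀ * T)) (fun k => lead2 (w k) ρ σ (S * B k * T))).det ≠ 0 := by
  obtain ⟨Ss, Ts, ρs, σs, hSs, hTs, hfs, d, hd, hwd⟩ := hc
  have hinv : ∀ A : Matrix ι ι F, A.det ≠ 0 → A⁻¹.det ≠ 0 := by
    intro A hA
    have h1 : A * A⁻¹ = 1 := Matrix.mul_nonsing_inv A (isUnit_iff_ne_zero.mpr hA)
    have h2 := congrArg Matrix.det h1
    rw [Matrix.det_mul, Matrix.det_one] at h2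
    exact right_ne_zero_of_mul (h2 ▸ one_ne_zero)
  have hopt := dual_opt (S * B₀ * T) (fun k => S * B k * T) w ρ σ ρs σs (Ss * S⁻¹) (T⁻¹ * Ts)
    (by rw [Matrix.det_mul]; exact mul_ne_zero hSs (hinv S hS))
    (by rw [Matrix.det_mul]; exact mul_ne_zero (hinv T hT) hTs) hf
    (by
      have e0 := mul_mul_inv S B₀ T hS hT Ss Ts
      have e1 : ∀ k, (Ss * S⁻¹) * (S * B k * T) * (T⁻¹ * Ts) = Ss * B k * Ts := fun k =>
        mul_mul_inv S (B k) T hS hT Ss Ts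
      refine ⟨?_, ?_⟩
      · rw [e0]; exact hfs.1
      · intro k
        simp only [e1]
        exact hfs.2 k) hns
  have hne : coeff d (symb (S * B₀ * T) (fun k => S * B k * T)).det ≠ 0 := by
    rw [det_symb_equiv, coeff_C_mul]
    exact mul_ne_zero (mul_ne_zero hS hT) hd
  have hnn := coeff_nonneg2 _ _ w ρ σ hf.1 hf.2 d hne
  have heq : wt w d + (∑ i, ρ i + ∑ i, σ i) = 0 := by linarith
  intro h0
  have h1 := coeff_lead2 (S * B₀ * T) (fun k => S * B k * T) w ρ σ hf.1 hf.2 d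
  rw [h0, coeff_zero, if_pos heq] at h1
  exact hne h1.symm

/-- A symbolic matrix `B₀ + ∑ x_k B_k` with labelled rows and columns. -/
structure GPres (F : Type*) [Field F] (ι κ Λ : Type*) [AddCommGroup Λ] where
  B₀ : Matrix ι ι F
  B : κ → Matrix ι ι F
  a : ι → Λ
  b : ι → Λ
  μ : κ → Λ
  hB₀ : ∀ i j, B₀ i j ≠ 0 → a i + b j = 0
  hB : ∀ k i j, B k i j ≠ 0 → a i + b j = μ k

variable {Λ : Type*} [AddCommGroup Λ] [DecidableEq Λ]

/-- the determinant -/
noncomputable def GPres.f (P : GPres F ι κ Λ) : MvPolynomial κ F := (symb P.B₀ P.B).det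

/-- `P` is a degeneration of the tuple. -/
def Degen (B₀ : Matrix ι ι F) (B : κ → Matrix ι ι F) (P : GPres F ι κ Λ) : Prop :=
  ∃ (S T : Matrix ι ι F) (ρ σ : ι → ℤ) (W : κ → ℤ), S.det ≠ 0 ∧ T.det ≠ 0 ∧
    (∀ k, 0 ≤ W k) ∧ Feas2 (S * B₀ * T) (fun k => S * B k * T) W ρ σ ∧
    P.B₀ = lead2 0 ρ σ (S * B₀ * T) ∧ (∀ k, P.B k = lead2 (W k) ρ σ (S * B k * T)) ∧
    (∀ i i', P.a i = P.a i' → ρ i = ρ i') ∧ (∀ j j', P.b j = P.b j' → σ j = σ j')

/-- Refinement. -/
structure GRefines (P' : GPres F ι κ (Λ × ℤ)) (P : GPres F ι κ Λ) (w : κ → ℤ) : Prop where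
  ha : ∀ i, (P'.a i).1 = P.a i
  hb : ∀ j, (P'.b j).1 = P.b j
  hμ : ∀ k, (P'.μ k).2 = -w k
  harc : ∀ k i j, P'.B k i j ≠ 0 → ∃ i' j', P.B k i' j' ≠ 0 ∧ P.a i = P.a i' ∧ P.b j = P.b j'

/-- composing two degenerations, one matrix -/
theorem compose_aux (X : Matrix ι ι F) (W w M : ℤ) (ρ σ ρ' σ' : ι → ℤ) (S' T' : Matrix ι ι F)
    (hS' : ∀ i i', S' i i' ≠ 0 → ρ i = ρ i') (hT' : ∀ j' j, T' j' j ≠ 0 → σ j' = σ j)
    (hf : ∀ i j, X i j ≠ 0 → 0 ≤ W + ρ i + σ j)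
    (hf' : ∀ i j, (S' * lead2 W ρ σ X * T') i j ≠ 0 → 0 ≤ w + ρ' i + σ' j)
    (hM : ∀ i j, |w| + |ρ' i| + |σ' j| < M) :
    (∀ i j, (S' * X * T') i j ≠ 0 → 0 ≤ (M * W + w) + (M * ρ i + ρ' i) + (M * σ j + σ' j)) ∧
    lead2 (M * W + w) (fun i => M * ρ i + ρ' i) (fun j => M * σ j + σ' j) (S' * X * T') =
      lead2 w ρ' σ' (S' * lead2 W ρ σ X * T') := by
  have e1 : ∀ i j, W + ρ i + σ j = 0 → (S' * lead2 W ρ σ X * T') i j = (S' * X * T') i j := by
    intro i j h0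
    rw [equiv_apply, equiv_apply]
    simp only [dotProduct, mulVec, Finset.mul_sum]
    refine Finset.sum_congr rfl fun p _ => Finset.sum_congr rfl fun q _ => ?_
    by_cases hp : S' i p = 0
    · rw [hp, zero_mul, zero_mul]
    · by_cases hq : T' q j = 0
      · simp only [hq, mul_zero]
      · have g1 := hS' i p hp
        have g2 := hT' q j hq
        have : lead2 W ρ σ X p q = X p q := by
          rw [lead2, if_pos (by omega)]
        rw [this]
  have e2 : ∀ i j, W + ρ i + σ j ≠ 0 → (S' * lead2 W ρ σ X * T') i j = 0 := by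
    intro i j h0
    by_contra hne
    obtain ⟨i', j', h1, h2, h3⟩ := equiv_ne hne
    have h4 := (lead2_ne h2).1
    have g1 := hS' i i' h1
    have g2 := hT' j' j h3
    omega
  have e3 : ∀ i j, (S' * X * T') i j ≠ 0 → 0 ≤ W + ρ i + σ j := by
    intro i j hne
    obtain ⟨i', j', h1, h2, h3⟩ := equiv_ne hne
    have h4 := hf i' j' h2
    have g1 := hS' i i' h1
    have g2 := hT' j' j h3
    omega
  have e4 : ∀ i j, (M * W + w) + (M * ρ i + ρ' i) + (M * σ j + σ' j) =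
      M * (W + ρ i + σ j) + (w + ρ' i + σ' j) := fun i j => by ring
  have e5 : ∀ i j, 1 ≤ W + ρ i + σ j → 0 < M * (W + ρ i + σ j) + (w + ρ' i + σ' j) := by
    intro i j h
    have h1 := hM i j
    have h2 := neg_abs_le w
    have h3 := neg_abs_le (ρ' i)
    have h4 := neg_abs_le (σ' j)
    have h5 := abs_nonneg w
    have h6 := abs_nonneg (ρ' i)
    have h7 := abs_nonneg (σ' j)
    have h8 : M ≤ M * (W + ρ i + σ j) := le_mul_of_one_le_right (by linarith) h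
    linarith
  constructor
  · intro i j hne
    rw [e4]
    rcases eq_or_lt_of_le (e3 i j hne) with h | h
    · rw [← h, mul_zero, zero_add]
      apply hf'
      rw [e1 i j h.symm]
      exact hne
    · exact (e5 i j h).le
  · ext i j
    rw [lead2, lead2, e4]
    by_cases hz : (S' * X * T') i j = 0
    · rw [hz, ite_self]
      by_cases h0 : W + ρ i + σ j = 0
      · rw [e1 i j h0, hz, ite_self]
      · rw [e2 i j h0, ite_self]
    · rcases eq_or_lt_of_le (e3 i j hz) with h | h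
      · rw [e1 i j h.symm, ← h, mul_zero, zero_add]
      · rw [if_neg (e5 i j h).ne', e2 i j h.ne', ite_self]

/-- Passing to the leading form for new weights. -/
theorem GPres.stage [CharZero F] (hsep : Sep Λ) (B₀ : Matrix ι ι F) (B : κ → Matrix ι ι F)
    (hcert : ∀ w : κ → ℤ, (∀ k, 0 ≤ w k) → Cert B₀ B w) (P : GPres F ι κ Λ)
    (hP : Degen B₀ B P) (hf : P.f ≠ 0) (w : κ → ℤ) (hw0 : ∀ k, 0 ≤ w k) :
    ∃ P' : GPres F ι κ (Λ × ℤ), Degen B₀ B P' ∧ P'.f ≠ 0 ∧ GRefines P' P w ∧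
      ∃ μ : ℤ, (∀ d, coeff d P.f ≠ 0 → μ ≤ wt w d) ∧
        (∀ d, coeff d P'.f ≠ 0 ↔ coeff d P.f ≠ 0 ∧ wt w d = μ) := by
  classical
  let Q : ℤ → Prop := fun z => ∃ (S T : Matrix ι ι F) (ρ σ : ι → ℤ), S.det ≠ 0 ∧ T.det ≠ 0 ∧
    (∀ c d, S c d ≠ 0 → P.a c = P.a d) ∧ (∀ c d, T c d ≠ 0 → P.b c = P.b d) ∧
    Feas2 (S * P.B₀ * T) (fun k => S * P.B k * T) w ρ σ ∧ ∑ c, ρ c + ∑ c, σ c = z
  obtain ⟨d₀, hd₀⟩ := MvPolynomial.exists_coeff_ne_zero hf
  have hcoef : ∀ (S T : Matrix ι ι F) (ρ σ : ι → ℤ), S.det ≠ 0 → T.det ≠ 0 →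
      Feas2 (S * P.B₀ * T) (fun k => S * P.B k * T) w ρ σ →
      (∀ d, coeff d P.f ≠ 0 → 0 ≤ wt w d + (∑ c, ρ c + ∑ c, σ c)) ∧
      (∀ d, coeff d (symb (lead2 0 ρ σ (S * P.B₀ * T)) (fun k => lead2 (w k) ρ σ
        (S * P.B k * T))).det =
          if wt w d + (∑ c, ρ c + ∑ c, σ c) = 0 then S.det * T.det * coeff d P.f else 0) := by
    intro S T ρ σ hS hT hF
    have hdet : (symb (S * P.B₀ * T) (fun k => S * P.B k * T)).det =
        C (S.det * T.det) * P.f := det_symb_equiv S T P.B₀ P.B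
    refine ⟨fun d hd => ?_, fun d => ?_⟩
    · refine coeff_nonneg2 _ _ w ρ σ hF.1 hF.2 d ?_
      rw [hdet, coeff_C_mul]
      exact mul_ne_zero (mul_ne_zero hS hT) hd
    · rw [coeff_lead2 _ _ w ρ σ hF.1 hF.2 d, hdet, coeff_C_mul]
  have hbdd : ∃ bb : ℤ, ∀ z, Q z → bb ≤ z := by
    refine ⟨- wt w d₀, ?_⟩
    rintro z ⟨S, T, ρ, σ, hS, hT, _, _, hF, rfl⟩
    have := (hcoef S T ρ σ hS hT hF).1 d₀ hd₀
    linarith
  have hone : ∀ (γ : ι → Λ) (c d : ι), (1 : Matrix ι ι F) c d ≠ 0 → γ c = γ d := by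
    intro γ c d hcd
    by_contra hne
    apply hcd
    rw [Matrix.one_apply_ne]
    rintro rfl
    exact hne rfl
  have hinh : ∃ z, Q z := by
    refine ⟨_, 1, 1, fun _ => ∑ k, |w k|, fun _ => 0, ?_, ?_, hone _, hone _, ?_, rfl⟩
    · rw [Matrix.det_one]; exact one_ne_zero
    · rw [Matrix.det_one]; exact one_ne_zero
    · have hnn : 0 ≤ ∑ k, |w k| := Finset.sum_nonneg fun k _ => abs_nonneg _
      refine ⟨fun c c' _ => by linarith, fun k c c' _ => ?_⟩
      have h1 : |w k| ≤ ∑ k, |w k| :=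
        Finset.single_le_sum (f := fun k => |w k|) (fun k _ => abs_nonneg _) (Finset.mem_univ k)
      have h2 := neg_abs_le (w k)
      show 0 ≤ w k + ∑ k, |w k| + 0
      linarith
  obtain ⟨z, ⟨S', T', ρ', σ', hS', hT', hSa, hTb, hF', hz⟩, hmin⟩ :=
    Int.exists_least_of_bdd hbdd hinh
  obtain ⟨S, T, ρ, σ, W, hS, hT, hW0, hFeas, hPB₀, hPB, hρa, hσb⟩ := hP
  -- labels of the transformed tuple
  have hL₀ : ∀ i j, (S' * P.B₀ * T') i j ≠ 0 → P.a i + P.b j = 0 := by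
    intro i j h
    obtain ⟨i', j', h1, h2, h3⟩ := equiv_ne h
    rw [hSa i i' h1, ← hTb j' j h3]
    exact P.hB₀ i' j' h2
  have hL : ∀ k i j, (S' * P.B k * T') i j ≠ 0 → P.a i + P.b j = P.μ k := by
    intro k i j h
    obtain ⟨i', j', h1, h2, h3⟩ := equiv_ne h
    rw [hSa i i' h1, ← hTb j' j h3]
    exact P.hB k i' j' h2
  set N₀ := lead2 0 ρ' σ' (S' * P.B₀ * T') with hN₀
  set N : κ → Matrix ι ι F := fun k => lead2 (w k) ρ' σ' (S' * P.B k * T') with hN
  have hns : ¬ Shrunk N₀ N := by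
    intro hsh
    obtain ⟨X, Y, ρ₁, σ₁, hX, hY, hXa, hYb, hF₁, hlt⟩ := improve2 hsep P.a P.b
      (S' * P.B₀ * T') hL₀ (fun k => S' * P.B k * T') P.μ hL w ρ' σ' hF' hsh
    have hassoc : ∀ A : Matrix ι ι F, X * S' * A * (T' * Y) = X * (S' * A * T') * Y := by
      intro A
      simp only [Matrix.mul_assoc]
    have hQ : Q (∑ c, ρ₁ c + ∑ c, σ₁ c) := by
      refine ⟨X * S', T' * Y, ρ₁, σ₁, ?_, ?_, ?_, ?_, ?_, rfl⟩
      · rw [Matrix.det_mul]; exact mul_ne_zero hX hS'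
      · rw [Matrix.det_mul]; exact mul_ne_zero hT' hY
      · intro c d h
        rw [Matrix.mul_apply] at h
        obtain ⟨e, _, he⟩ := Finset.exists_ne_zero_of_sum_ne_zero h
        rw [hXa c e (left_ne_zero_of_mul he)]
        exact hSa e d (right_ne_zero_of_mul he)
      · intro c d h
        rw [Matrix.mul_apply] at h
        obtain ⟨e, _, he⟩ := Finset.exists_ne_zero_of_sum_ne_zero h
        rw [hTb c e (left_ne_zero_of_mul he)]
        exact hYb e d (right_ne_zero_of_mul he)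
      · rw [hassoc]
        simp only [hassoc]
        exact hF₁
    have := hmin _ hQ
    linarith
  -- the combined degeneration
  set M : ℤ := 1 + ∑ k, |w k| + ∑ i, |ρ' i| + ∑ j, |σ' j| with hMdef
  have hρle : ∀ i, |ρ' i| ≤ ∑ i, |ρ' i| := fun i =>
    Finset.single_le_sum (f := fun i => |ρ' i|) (fun i _ => abs_nonneg _) (Finset.mem_univ i)
  have hσle : ∀ i, |σ' i| ≤ ∑ i, |σ' i| := fun i =>
    Finset.single_le_sum (f := fun i => |σ' i|) (fun i _ => abs_nonneg _) (Finset.mem_univ i)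
  have hwle : ∀ k, |w k| ≤ ∑ k, |w k| := fun k =>
    Finset.single_le_sum (f := fun k => |w k|) (fun k _ => abs_nonneg _) (Finset.mem_univ k)
  have hM0 : ∀ i j, |(0 : ℤ)| + |ρ' i| + |σ' j| < M := by
    intro i j
    have h1 := hρle i
    have h2 := hσle j
    have h3 : 0 ≤ ∑ k, |w k| := Finset.sum_nonneg fun k _ => abs_nonneg _
    rw [abs_zero]
    linarith
  have hMk : ∀ k i j, |w k| + |ρ' i| + |σ' j| < M := by
    intro k i j
    have h1 := hρle i
    have h2 := hσle j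
    have h3 := hwle k
    linarith
  have hSρ : ∀ i i', S' i i' ≠ 0 → ρ i = ρ i' := fun i i' h => hρa i i' (hSa i i' h)
  have hTσ : ∀ j' j, T' j' j ≠ 0 → σ j' = σ j := fun j' j h => hσb j' j (hTb j' j h)
  have c0 := compose_aux (S * B₀ * T) 0 0 M ρ σ ρ' σ' S' T' hSρ hTσ hFeas.1
    (by rw [← hPB₀]; exact hF'.1) hM0
  have ck := fun k => compose_aux (S * B k * T) (W k) (w k) M ρ σ ρ' σ' S' T' hSρ hTσ
    (hFeas.2 k) (by rw [← hPB]; exact hF'.2 k) (hMk k)
  have hassoc : ∀ A : Matrix ι ι F, S' * S * A * (T * T') = S' * (S * A * T) * T' := by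
    intro A
    simp only [Matrix.mul_assoc]
  rw [← hPB₀] at c0
  simp only [← hPB] at ck
  rw [mul_zero, add_zero] at c0
  have hSS : (S' * S).det ≠ 0 := by rw [Matrix.det_mul]; exact mul_ne_zero hS' hS
  have hTT : (T * T').det ≠ 0 := by rw [Matrix.det_mul]; exact mul_ne_zero hT hT'
  have hFc : Feas2 (S' * S * B₀ * (T * T')) (fun k => S' * S * B k * (T * T'))
      (fun k => M * W k + w k) (fun i => M * ρ i + ρ' i) (fun j => M * σ j + σ' j) := by
    refine ⟨?_, ?_⟩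
    · rw [hassoc]; exact c0.1
    · intro k
      simp only [hassoc]
      exact (ck k).1
  have hMpos : 0 ≤ M := (abs_nonneg (0 : ℤ)).trans (by
    have h1 : 0 ≤ ∑ k, |w k| := Finset.sum_nonneg fun k _ => abs_nonneg _
    have h2 : 0 ≤ ∑ i, |ρ' i| := Finset.sum_nonneg fun k _ => abs_nonneg _
    have h3 : 0 ≤ ∑ i, |σ' i| := Finset.sum_nonneg fun k _ => abs_nonneg _
    rw [abs_zero, hMdef]
    linarith)
  have hWc : ∀ k, 0 ≤ M * W k + w k := fun k =>
    add_nonneg (mul_nonneg hMpos (hW0 k)) (hw0 k)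
  have hdet : (symb N₀ N).det ≠ 0 := by
    have h1 := nonsing_of_cert B₀ B (fun k => M * W k + w k) (hcert _ hWc) (S' * S) (T * T')
      (fun i => M * ρ i + ρ' i) (fun j => M * σ j + σ' j) hSS hTT hFc (by
        rw [hassoc]
        simp only [hassoc]
        rw [c0.2]
        simp only [(ck _).2]
        exact hns)
    rw [hassoc] at h1
    simp only [hassoc] at h1
    rw [c0.2] at h1
    simp only [(ck _).2] at h1
    exact h1
  let P' : GPres F ι κ (Λ × ℤ) :=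
    { B₀ := N₀
      B := N
      a := fun i => (P.a i, ρ' i)
      b := fun j => (P.b j, σ' j)
      μ := fun k => (P.μ k, -w k)
      hB₀ := fun i j h => by
        have := lead2_homog hL₀ 0 ρ' σ' i j h
        rw [this]
        rfl
      hB := fun k i j h => lead2_homog (hL k) (w k) ρ' σ' i j h }
  refine ⟨P', ⟨S' * S, T * T', fun i => M * ρ i + ρ' i, fun j => M * σ j + σ' j,
    fun k => M * W k + w k, hSS, hTT, hWc, hFc, ?_, ?_, ?_, ?_⟩, hdet, ⟨fun _ => rfl, fun _ => rfl,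
    fun _ => rfl, ?_⟩, - (∑ c, ρ' c + ∑ c, σ' c), ?_, ?_⟩
  · rw [hassoc]; exact c0.2.symm
  · intro k
    rw [hassoc]; exact (ck k).2.symm
  · intro i i' h
    have h1 : P.a i = P.a i' := congrArg Prod.fst h
    have h2 : ρ' i = ρ' i' := congrArg Prod.snd h
    show M * ρ i + ρ' i = M * ρ i' + ρ' i'
    rw [hρa i i' h1, h2]
  · intro i i' h
    have h1 : P.b i = P.b i' := congrArg Prod.fst h
    have h2 : σ' i = σ' i' := congrArg Prod.snd h
    show M * σ i + σ' i = M * σ i' + σ' i'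
    rw [hσb i i' h1, h2]
  · intro k i j h
    obtain ⟨i', j', h1, h2, h3⟩ := equiv_ne (lead2_ne h).2
    exact ⟨i', j', h2, hSa i i' h1, (hTb j' j h3).symm⟩
  · intro d hd
    have := (hcoef S' T' ρ' σ' hS' hT' hF').1 d hd
    linarith
  · intro d
    have h1 := (hcoef S' T' ρ' σ' hS' hT' hF').2 d
    have h2 : coeff d P'.f = coeff d (symb N₀ N).det := rfl
    rw [h2, h1]
    constructor
    · intro h
      split_ifs at h with h3
      · exact ⟨right_ne_zero_of_mul h, by linarith⟩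
      · exact absurd rfl h
    · rintro ⟨h3, h4⟩
      rw [if_pos (by linarith)]
      exact mul_ne_zero (mul_ne_zero hS' hT') h3

end

end Pool.Agent.Lib.MP_64d474_lc
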