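import Mathlib
import Pool.Agent.Lib.MP_64d474_lc.XnWalk
import Pool.Agent.Lib.MP_64d474_lc.WnEnd

/-!
If there are no nontrivial closed walks, the determinant is a single monomial.
-/

open Matrix Module MvPolynomial

set_option linter.unusedSectionVars false

namespace Pool.Agent.Lib.MP_64d474_lc

section

variable {F : Type*} [Field F] {ι κ : Type*} [Fintype ι] [DecidableEq ι] [Fintype κ]
  [DecidableEq κ] {Λ : Type*} [AddCommGroup Λ] [DecidableEq Λ]

theorem GPres.walk (P : GPres F ι κ Λ) (G : ℕ → Λ) (V : ℕ → κ → ℤ) (hv : ∀ i, G i ∈ P.verts)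
    (hstep : ∀ i, (G i = G (i + 1) ∧ V i = 0) ∨ P.arc (G i) (G (i + 1)) (V i)) :
    ∀ s i h, h ≤ 2 ^ s → P.Q s (G i) (G (i + h)) (∑ l ∈ Finset.range h, V (i + l)) := by
  intro s
  induction s with
  | zero =>
    intro i h hh
    rw [pow_zero] at hh
    refine ⟨hv i, ?_⟩
    rcases Nat.le_one_iff_eq_zero_or_eq_one.mp hh with rfl | rfl
    · left
      exact ⟨rfl, by rw [Finset.sum_range_zero]⟩
    · rw [Finset.sum_range_one, add_zero]
      exact hstep i
  | succ s ih =>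
    intro i h hh
    rw [pow_succ] at hh
    obtain ⟨h₁, h₂, rfl, e1, e2⟩ : ∃ h₁ h₂, h = h₁ + h₂ ∧ h₁ ≤ 2 ^ s ∧ h₂ ≤ 2 ^ s :=
      ⟨min h (2 ^ s), h - min h (2 ^ s), by omega, by omega, by omega⟩
    have q2 := ih (i + h₁) h₂ e2
    rw [add_assoc] at q2
    refine ⟨G (i + h₁), _, _, ih i h₁ e1, q2, ?_⟩
    rw [Finset.sum_range_add]
    simp only [add_assoc]

/-- Without nontrivial closed walks there is only one monomial. -/
theorem GPres.single_monomial (P : GPres F ι κ Λ) {L : ℕ} (hcl : P.clean L)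
    (hL : 2 * Fintype.card ι ≤ 2 ^ L) {d d' : κ →₀ ℕ} (hd : coeff d P.f ≠ 0)
    (hd' : coeff d' P.f ≠ 0) : d = d' := by
  obtain ⟨σ, φ, h1, h2⟩ := term_of_coeff hd
  obtain ⟨σ', φ', h1', h2'⟩ := term_of_coeff hd'
  set τ : Equiv.Perm ι := σ'⁻¹ * σ with hτ
  have hστ : ∀ j, σ' (τ j) = σ j := by
    intro j
    rw [hτ, Equiv.Perm.mul_apply]
    exact σ'.apply_symm_apply _
  have stepA : ∀ j, (P.b j = -P.a (σ j) ∧ ez (φ j) = (0 : κ → ℤ)) ∨
      P.arc (P.b j) (-P.a (σ j)) (ez (φ j)) := by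
    intro j
    have hj := h2 j
    cases hφ : φ j with
    | none =>
      rw [hφ] at hj
      left
      refine ⟨?_, rfl⟩
      exact eq_neg_of_add_eq_zero_right (P.hB₀ _ _ hj)
    | some k =>
      rw [hφ] at hj
      right
      exact ⟨k, σ j, j, hj, Or.inl ⟨rfl, rfl, rfl⟩⟩
  have stepB : ∀ j, (-P.a (σ j) = P.b (τ j) ∧ -ez (φ' (τ j)) = (0 : κ → ℤ)) ∨
      P.arc (-P.a (σ j)) (P.b (τ j)) (-ez (φ' (τ j))) := by
    intro j
    have hj := h2' (τ j)
    rw [hστ] at hj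
    cases hφ : φ' (τ j) with
    | none =>
      rw [hφ] at hj
      left
      refine ⟨?_, neg_zero⟩
      exact (eq_neg_of_add_eq_zero_right (P.hB₀ _ _ hj)).symm
    | some k =>
      rw [hφ] at hj
      right
      refine ⟨k, σ j, τ j, hj, Or.inr ⟨?_, rfl, rfl⟩⟩
      show -(Pi.single k 1 : κ → ℤ) = _
      rw [Pi.single_neg]
  have hzero : ∑ i, (ez (φ i) - ez (φ' (τ i)) : κ → ℤ) = 0 := by
    apply sum_orbits τ
    intro i
    obtain ⟨p, hp0, hp, hpi⟩ := exists_period τ i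
    refine ⟨p, hp0, hpi, ?_⟩
    let G : ℕ → Λ := fun l => if l % 2 = 0 then P.b ((τ ^ (l / 2)) i)
      else -P.a (σ ((τ ^ (l / 2)) i))
    let V : ℕ → κ → ℤ := fun l => if l % 2 = 0 then ez (φ ((τ ^ (l / 2)) i))
      else -ez (φ' (τ ((τ ^ (l / 2)) i)))
    have hG0 : ∀ t, G (2 * t) = P.b ((τ ^ t) i) := by
      intro t
      show (if (2 * t) % 2 = 0 then _ else _) = _
      rw [if_pos (by omega), show 2 * t / 2 = t by omega]
    have hG1 : ∀ t, G (2 * t + 1) = -P.a (σ ((τ ^ t) i)) := by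
      intro t
      show (if (2 * t + 1) % 2 = 0 then _ else _) = _
      rw [if_neg (by omega), show (2 * t + 1) / 2 = t by omega]
    have hV0 : ∀ t, V (2 * t) = ez (φ ((τ ^ t) i)) := by
      intro t
      show (if (2 * t) % 2 = 0 then _ else _) = _
      rw [if_pos (by omega), show 2 * t / 2 = t by omega]
    have hV1 : ∀ t, V (2 * t + 1) = -ez (φ' (τ ((τ ^ t) i))) := by
      intro t
      show (if (2 * t + 1) % 2 = 0 then _ else _) = _
      rw [if_neg (by omega), show (2 * t + 1) / 2 = t by omega]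
    have hpow : ∀ t, (τ ^ (t + 1)) i = τ ((τ ^ t) i) := by
      intro t
      rw [pow_succ', Equiv.Perm.mul_apply]
    have hcase : ∀ l, (∃ t, l = 2 * t) ∨ ∃ t, l = 2 * t + 1 := fun l => by
      rcases Nat.even_or_odd l with ⟨t, ht⟩ | ⟨t, ht⟩
      · exact Or.inl ⟨t, by omega⟩
      · exact Or.inr ⟨t, ht⟩
    have hv : ∀ l, G l ∈ P.verts := by
      intro l
      rcases hcase l with ⟨t, rfl⟩ | ⟨t, rfl⟩
      · rw [hG0]; exact (P.mem_verts _).1
      · rw [hG1]; exact (P.mem_verts _).2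
    have hstep : ∀ l, (G l = G (l + 1) ∧ V l = 0) ∨ P.arc (G l) (G (l + 1)) (V l) := by
      intro l
      rcases hcase l with ⟨t, rfl⟩ | ⟨t, rfl⟩
      · rw [hG0, hG1, hV0]
        exact stepA _
      · rw [show 2 * t + 1 + 1 = 2 * (t + 1) by ring, hG0, hG1, hV1, hpow]
        exact stepB _
    have hQ := P.walk G V hv hstep L 0 (2 * p) (by omega)
    rw [zero_add, hG0, hpi, show G 0 = P.b i from hG0 0] at hQ
    have hz := hcl _ _ hQ
    rw [← hz]
    simp only [zero_add]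
    clear hz hQ hpi hp hp0
    induction p with
    | zero => simp
    | succ p ih =>
      rw [Finset.sum_range_succ, ih, show 2 * (p + 1) = 2 * p + 1 + 1 by ring,
        Finset.sum_range_succ, Finset.sum_range_succ, hV0, hV1]
      abel
  have hfin : ∑ i, (ez (φ i) : κ → ℤ) = ∑ i, ez (φ' i) := by
    rw [Finset.sum_sub_distrib, Equiv.sum_comp τ (fun i => (ez (φ' i) : κ → ℤ))] at hzero
    exact sub_eq_zero.mp hzero
  ext k
  have e1 := h1 k
  have e2 := h1' k
  rw [hfin, ← e2] at e1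
  exact_mod_cast e1

end

end Pool.Agent.Lib.MP_64d474_lc
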