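import Mathlib
import Pool.Agent.Lib.MP_64d474_lc.XnWalk

/-!
Walks of a given length in the label graph, and their potentials.
-/

open Matrix Module MvPolynomial

set_option linter.unusedSectionVars false

namespace Pool.Agent.Lib.MP_64d474_lc

section

variable {F : Type*} [Field F] {ι κ : Type*} [Fintype ι] [DecidableEq ι] [Fintype κ]
  [DecidableEq κ] {Λ : Type*} [AddCommGroup Λ] [DecidableEq Λ]

/-- walks of length at most `l` -/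
def GPres.Wk (P : GPres F ι κ Λ) : ℕ → Λ → Λ → (κ → ℤ) → Prop
  | 0, g, g', z => g ∈ P.verts ∧ g = g' ∧ z = 0
  | l + 1, g, g', z => ∃ h z₁ z₂, P.Wk l g h z₁ ∧ ((h = g' ∧ z₂ = 0) ∨ P.arc h g' z₂) ∧
      z = z₁ + z₂

theorem GPres.Wk_verts (P : GPres F ι κ Λ) {l : ℕ} {g g' : Λ} {z : κ → ℤ} (h : P.Wk l g g' z) :
    g ∈ P.verts ∧ g' ∈ P.verts := by
  induction l generalizing g' z with
  | zero =>
    obtain ⟨h1, rfl, -⟩ := h
    exact ⟨h1, h1⟩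
  | succ l ih =>
    obtain ⟨h, z₁, z₂, h1, h2, -⟩ := h
    refine ⟨(ih h1).1, ?_⟩
    rcases h2 with ⟨rfl, -⟩ | h2
    · exact (ih h1).2
    · exact (P.arc_verts h2).2

theorem GPres.Wk_one (P : GPres F ι κ Λ) {g g' : Λ} {z : κ → ℤ} (h : P.arc g g' z) :
    P.Wk 1 g g' z :=
  ⟨g, 0, z, ⟨(P.arc_verts h).1, rfl, rfl⟩, Or.inr h, (zero_add z).symm⟩

theorem GPres.Wk_succ (P : GPres F ι κ Λ) {l : ℕ} {g g' : Λ} {z : κ → ℤ} (h : P.Wk l g g' z) :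
    P.Wk (l + 1) g g' z :=
  ⟨g', z, 0, h, Or.inl ⟨rfl, rfl⟩, (add_zero z).symm⟩

theorem GPres.Wk_mono (P : GPres F ι κ Λ) {l l' : ℕ} (hl : l ≤ l') {g g' : Λ} {z : κ → ℤ}
    (h : P.Wk l g g' z) : P.Wk l' g g' z := by
  induction hl with
  | refl => exact h
  | step _ ih => exact P.Wk_succ ih

theorem GPres.Wk_trans (P : GPres F ι κ Λ) {l l' : ℕ} {g h g' : Λ} {z z' : κ → ℤ}
    (h1 : P.Wk l g h z) (h2 : P.Wk l' h g' z') : P.Wk (l + l') g g' (z + z') := by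
  induction l' generalizing g' z' with
  | zero =>
    obtain ⟨-, rfl, rfl⟩ := h2
    rw [add_zero, add_zero]
    exact h1
  | succ l' ih =>
    obtain ⟨h', z₁, z₂, q1, q2, rfl⟩ := h2
    exact ⟨h', z + z₁, z₂, ih q1, q2, by rw [add_assoc]⟩

theorem GPres.Wk_rev (P : GPres F ι κ Λ) {l : ℕ} {g g' : Λ} {z : κ → ℤ} (h : P.Wk l g g' z) :
    P.Wk l g' g (-z) := by
  induction l generalizing g' z with
  | zero =>
    obtain ⟨h1, rfl, rfl⟩ := h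
    exact ⟨h1, rfl, neg_zero⟩
  | succ l ih =>
    obtain ⟨h, z₁, z₂, h1, h2, rfl⟩ := h
    have e1 := ih h1
    have e2 : P.Wk 1 g' h (-z₂) := by
      rcases h2 with ⟨rfl, rfl⟩ | h2
      · rw [neg_zero]
        exact P.Wk_succ ⟨(P.Wk_verts h1).2, rfl, rfl⟩
      · exact P.Wk_one (P.arc_rev h2)
    have e3 := P.Wk_trans e2 e1
    rw [add_comm 1 l, ← neg_add, add_comm z₂ z₁] at e3
    exact e3

theorem GPres.Wk_split (P : GPres F ι κ Λ) {l : ℕ} : ∀ {l' : ℕ} {g g' : Λ} {z : κ → ℤ},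
    P.Wk (l + l') g g' z → ∃ h z₁ z₂, P.Wk l g h z₁ ∧ P.Wk l' h g' z₂ ∧ z = z₁ + z₂ := by
  intro l'
  induction l' with
  | zero =>
    intro g g' z h
    exact ⟨g', z, 0, h, ⟨(P.Wk_verts h).2, rfl, rfl⟩, (add_zero z).symm⟩
  | succ l' ih =>
    intro g g' z h
    obtain ⟨h', z₁, z₂, q1, q2, rfl⟩ := h
    obtain ⟨h'', y₁, y₂, r1, r2, rfl⟩ := ih q1
    exact ⟨h'', y₁, y₂ + z₂, r1, ⟨h', y₂, z₂, r2, q2, rfl⟩, by rw [add_assoc]⟩

theorem GPres.Wk_Q (P : GPres F ι κ Λ) : ∀ (s l : ℕ) {g g' : Λ} {z : κ → ℤ}, l ≤ 2 ^ s →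
    P.Wk l g g' z → P.Q s g g' z := by
  intro s
  induction s with
  | zero =>
    intro l g g' z hl h
    rw [pow_zero] at hl
    have h1 : P.Wk 1 g g' z := P.Wk_mono hl h
    obtain ⟨h', z₁, z₂, ⟨q0, rfl, rfl⟩, q2, rfl⟩ := h1
    rw [zero_add]
    exact ⟨q0, q2⟩
  | succ s ih =>
    intro l g g' z hl h
    rw [pow_succ] at hl
    have h1 : P.Wk (2 ^ s + 2 ^ s) g g' z := P.Wk_mono (by omega) h
    obtain ⟨h', z₁, z₂, q1, q2, rfl⟩ := P.Wk_split h1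
    exact ⟨h', z₁, z₂, ih _ le_rfl q1, ih _ le_rfl q2, rfl⟩

theorem GPres.Wk_unique (P : GPres F ι κ Λ) {s l l' : ℕ} (hc : P.clean s) (hl : l + l' ≤ 2 ^ s)
    {g g' : Λ} {z z' : κ → ℤ} (h : P.Wk l g g' z) (h' : P.Wk l' g g' z') : z = z' := by
  have h1 := P.Wk_trans h (P.Wk_rev h')
  have h2 := hc _ _ (P.Wk_Q s _ hl h1)
  rw [← sub_eq_add_neg] at h2
  exact sub_eq_zero.mp h2

end

end Pool.Agent.Lib.MP_64d474_lc
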