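import Mathlib
import Pool.Agent.Lib.MP_64d474_lc.YnWalk

/-!
Region growing: if short closed walks are trivial, the matrix with all variables set to one has
rank at least almost half of the noncommutative rank.
-/

open Matrix Module MvPolynomial

set_option linter.unusedSectionVars false

namespace Pool.Agent.Lib.MP_64d474_lc

section

variable {F : Type*} [Field F] {ι κ : Type*} [Fintype ι] [DecidableEq ι] [Fintype κ]
  [DecidableEq κ] {Λ : Type*} [AddCommGroup Λ] [DecidableEq Λ]

/-- vectors supported on a set of coordinates -/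
def suppS (F : Type*) [Field F] {ι : Type*} (J : Finset ι) : Submodule F (ι → F) where
  carrier := {q | ∀ j, j ∉ J → q j = 0}
  add_mem' := by
    intro p q hp hq j hj
    rw [Pi.add_apply, hp j hj, hq j hj, add_zero]
  zero_mem' := fun _ _ => rfl
  smul_mem' := by
    intro c q hq j hj
    rw [Pi.smul_apply, hq j hj, smul_zero]

theorem mem_suppS {J : Finset ι} {q : ι → F} : q ∈ suppS F J ↔ ∀ j, j ∉ J → q j = 0 := Iff.rfl

theorem finrank_map_add_inf {V W : Type*} [AddCommGroup V] [Module F V] [FiniteDimensional F V]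
    [AddCommGroup W] [Module F W] (f : V →ₗ[F] W) (U : Submodule F V) :
    finrank F (U.map f) + finrank F (U ⊓ LinearMap.ker f : Submodule F V) = finrank F U := by
  have h := LinearMap.finrank_range_add_finrank_ker (f.domRestrict U)
  have h1 : LinearMap.range (f.domRestrict U) = U.map f := LinearMap.range_domRestrict U f
  have h2 : finrank F (LinearMap.ker (f.domRestrict U)) =
      finrank F (U ⊓ LinearMap.ker f : Submodule F V) := by
    have e : (LinearMap.ker (f.domRestrict U)).map U.subtype = U ⊓ LinearMap.ker f := by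
      ext x
      constructor
      · rintro ⟨y, hy, rfl⟩
        exact ⟨y.2, by simpa using hy⟩
      · rintro ⟨hx, hx'⟩
        exact ⟨⟨x, hx⟩, by simpa using hx', rfl⟩
    rw [← e]
    exact (LinearEquiv.finrank_eq (Submodule.equivMapOfInjective U.subtype
      U.injective_subtype _))
  rw [h1, h2] at h
  exact h

/-- the coordinates in `J` -/
def cutL (F : Type*) [Field F] {ι : Type*} [DecidableEq ι] (J : Finset ι) :
    (ι → F) →ₗ[F] (ι → F) where
  toFun q := fun j => if j ∈ J then q j else 0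
  map_add' p q := by
    funext j
    simp only [Pi.add_apply]
    split_ifs
    · rfl
    · rw [add_zero]
  map_smul' c q := by
    funext j
    simp only [Pi.smul_apply, smul_eq_mul, RingHom.id_apply]
    split_ifs
    · rfl
    · rw [mul_zero]

theorem cutL_apply (J : Finset ι) (q : ι → F) (j : ι) :
    cutL F J q j = if j ∈ J then q j else 0 := rfl

theorem cutL_mem (J : Finset ι) (q : ι → F) : cutL F J q ∈ suppS F J := by
  intro j hj
  rw [cutL_apply, if_neg hj]

theorem finrank_suppS (J : Finset ι) : finrank F (suppS F J) = J.card := by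
  classical
  let e : (suppS F J) ≃ₗ[F] (J → F) :=
    { toFun := fun q j => q.1 j.1
      map_add' := fun _ _ => rfl
      map_smul' := fun _ _ => rfl
      invFun := fun q => ⟨fun j => if h : j ∈ J then q ⟨j, h⟩ else 0, fun j hj => dif_neg hj⟩
      left_inv := by
        intro q
        apply Subtype.ext
        funext j
        show (if h : j ∈ J then q.1 j else 0) = q.1 j
        split_ifs with h
        · rfl
        · exact (q.2 j h).symm
      right_inv := by
        intro q
        funext j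
        show (if h : (j : ι) ∈ J then q ⟨j, h⟩ else 0) = q j
        rw [dif_pos j.2] }
  rw [e.finrank_eq, Module.finrank_fintype_fun_eq_card, Fintype.card_coe]

/-- The total matrix. -/
def GPres.tot (P : GPres F ι κ Λ) : Matrix ι ι F := P.B₀ + ∑ k, P.B k

/-- adjacency of rows and columns -/
def GPres.adj (P : GPres F ι κ Λ) (i j : ι) : Prop := P.B₀ i j ≠ 0 ∨ ∃ k, P.B k i j ≠ 0

theorem GPres.tot_apply (P : GPres F ι κ Λ) (i j : ι) :
    P.tot i j = P.B₀ i j + ∑ k, P.B k i j := by
  rw [GPres.tot, Matrix.add_apply, Matrix.sum_apply]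

theorem GPres.tot_of_not_adj (P : GPres F ι κ Λ) {i j : ι} (h : ¬ P.adj i j) :
    P.tot i j = 0 := by
  rw [GPres.adj, not_or, not_not, not_exists] at h
  rw [P.tot_apply, h.1, zero_add]
  exact Finset.sum_eq_zero fun k _ => not_not.mp (h.2 k)

/-- the rows meeting a set of columns -/
noncomputable def GPres.rowsN (P : GPres F ι κ Λ) (S : Finset ι) : Finset ι := by
  classical
  exact Finset.univ.filter fun i => ∃ j ∈ S, P.adj i j

/-- one growing step -/
noncomputable def GPres.grow (P : GPres F ι κ Λ) (C S : Finset ι) : Finset ι := by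
  classical
  exact S ∪ C.filter fun j => ∃ i ∈ P.rowsN S, P.adj i j

/-- balls -/
noncomputable def GPres.ball (P : GPres F ι κ Λ) (C : Finset ι) (j₀ : ι) : ℕ → Finset ι
  | 0 => {j₀}
  | l + 1 => P.grow C (P.ball C j₀ l)

theorem GPres.mem_rowsN (P : GPres F ι κ Λ) {S : Finset ι} {i : ι} :
    i ∈ P.rowsN S ↔ ∃ j ∈ S, P.adj i j := by
  classical
  rw [GPres.rowsN, Finset.mem_filter]
  exact ⟨fun h => h.2, fun h => ⟨Finset.mem_univ i, h⟩⟩

theorem GPres.mem_grow (P : GPres F ι κ Λ) {C S : Finset ι} {j : ι} :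
    j ∈ P.grow C S ↔ j ∈ S ∨ (j ∈ C ∧ ∃ i ∈ P.rowsN S, P.adj i j) := by
  classical
  rw [GPres.grow, Finset.mem_union, Finset.mem_filter]

theorem GPres.ball_sub (P : GPres F ι κ Λ) {C : Finset ι} {j₀ : ι} (h : j₀ ∈ C) (l : ℕ) :
    P.ball C j₀ l ⊆ C := by
  induction l with
  | zero =>
    intro j hj
    rw [GPres.ball, Finset.mem_singleton] at hj
    rwa [hj]
  | succ l ih =>
    intro j hj
    rw [GPres.ball, P.mem_grow] at hj
    rcases hj with hj | hj
    · exact ih hj
    · exact hj.1

theorem GPres.ball_mono (P : GPres F ι κ Λ) (C : Finset ι) (j₀ : ι) (l : ℕ) :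
    P.ball C j₀ l ⊆ P.ball C j₀ (l + 1) := by
  intro j hj
  rw [GPres.ball, P.mem_grow]
  exact Or.inl hj

theorem GPres.adj_step (P : GPres F ι κ Λ) {i j : ι} (h : P.adj i j) :
    ∃ z, P.Wk 1 (P.b j) (-P.a i) z := by
  rcases h with h | ⟨k, h⟩
  · refine ⟨0, P.Wk_succ ⟨(P.mem_verts j).1, ?_, rfl⟩⟩
    exact eq_neg_of_add_eq_zero_right (P.hB₀ i j h)
  · exact ⟨Pi.single k 1, P.Wk_one ⟨k, i, j, h, Or.inl ⟨rfl, rfl, rfl⟩⟩⟩

theorem GPres.rows_walk (P : GPres F ι κ Λ) {C : Finset ι} {j₀ : ι} {l : ℕ}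
    (hb : ∀ j ∈ P.ball C j₀ l, ∃ z, P.Wk (2 * l) (P.b j₀) (P.b j) z) {i : ι}
    (hi : i ∈ P.rowsN (P.ball C j₀ l)) : ∃ z, P.Wk (2 * l + 1) (P.b j₀) (-P.a i) z := by
  obtain ⟨j, hj, hadj⟩ := P.mem_rowsN.mp hi
  obtain ⟨z, hz⟩ := hb j hj
  obtain ⟨z', hz'⟩ := P.adj_step hadj
  exact ⟨z + z', P.Wk_trans hz hz'⟩

theorem GPres.ball_walk (P : GPres F ι κ Λ) {C : Finset ι} {j₀ : ι} (l : ℕ) :
    ∀ j ∈ P.ball C j₀ l, ∃ z, P.Wk (2 * l) (P.b j₀) (P.b j) z := by
  induction l with
  | zero =>
    intro j hj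
    rw [GPres.ball, Finset.mem_singleton] at hj
    subst hj
    exact ⟨0, (P.mem_verts j).1, rfl, rfl⟩
  | succ l ih =>
    intro j hj
    rw [GPres.ball, P.mem_grow] at hj
    rcases hj with hj | ⟨-, i, hi, hadj⟩
    · obtain ⟨z, hz⟩ := ih j hj
      exact ⟨z, P.Wk_mono (by omega) hz⟩
    · obtain ⟨z, hz⟩ := P.rows_walk ih hi
      obtain ⟨z', hz'⟩ := P.adj_step hadj
      have := P.Wk_trans hz (P.Wk_rev hz')
      exact ⟨_, P.Wk_mono (by omega) this⟩

/-- Entries in a set with consistent potentials. -/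
theorem GPres.entry (P : GPres F ι κ Λ) {i j : ι} {ψ φ : κ → ℤ}
    (h0 : P.B₀ i j ≠ 0 → ψ = φ) (h1 : ∀ k, P.B k i j ≠ 0 → ψ = φ + Pi.single k 1) (k : κ) :
    P.B k i j = (((ψ k - φ k : ℤ)) : F) * P.tot i j := by
  by_cases hadj : P.adj i j
  · rcases hadj with h | ⟨k₁, h⟩
    · have e := h0 h
      have hz : ∀ k', P.B k' i j = 0 := by
        intro k'
        by_contra hne
        have e1 := h1 k' hne
        rw [e] at e1
        have e2 := congrFun e1 k'
        rw [Pi.add_apply, Pi.single_eq_same] at e2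
        omega
      rw [hz k, e, sub_self, Int.cast_zero, zero_mul]
    · have e := h1 k₁ h
      have hz : ∀ k', k' ≠ k₁ → P.B k' i j = 0 := by
        intro k' hk'
        by_contra hne
        have e1 := h1 k' hne
        rw [e] at e1
        have e2 := congrFun e1 k'
        rw [Pi.add_apply, Pi.add_apply, Pi.single_eq_same, Pi.single_eq_of_ne hk'] at e2
        omega
      have hz0 : P.B₀ i j = 0 := by
        by_contra hne
        have e1 := h0 hne
        rw [e] at e1
        have e2 := congrFun e1 k₁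
        rw [Pi.add_apply, Pi.single_eq_same] at e2
        omega
      have ht : P.tot i j = P.B k₁ i j := by
        rw [P.tot_apply, hz0, zero_add]
        refine Finset.sum_eq_single k₁ (fun k' _ hk' => hz k' hk') ?_
        intro h; exact absurd (Finset.mem_univ _) h
      rw [ht, e, Pi.add_apply, add_sub_cancel_left]
      by_cases hk : k = k₁
      · subst hk
        rw [Pi.single_eq_same, Int.cast_one, one_mul]
      · rw [Pi.single_eq_of_ne hk, Int.cast_zero, zero_mul, hz k hk]
  · rw [P.tot_of_not_adj hadj, mul_zero]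
    rw [GPres.adj, not_or, not_not, not_exists] at hadj
    exact not_not.mp (hadj.2 k)

/-- The kernel of one cluster. -/
theorem GPres.cluster (P : GPres F ι κ Λ) (hns : ¬ Shrunk P.B₀ P.B) (J₀ J I : Finset ι)
    (hJ : J₀ ⊆ J) (hI : ∀ i j, j ∈ J₀ → P.adj i j → i ∈ I) (φ ψ : ι → κ → ℤ)
    (h0 : ∀ i ∈ I, ∀ j ∈ J, P.B₀ i j ≠ 0 → ψ i = φ j)
    (h1 : ∀ i ∈ I, ∀ j ∈ J, ∀ k, P.B k i j ≠ 0 → ψ i = φ j + Pi.single k 1) :
    2 * finrank F (suppS F J ⊓ LinearMap.ker ((cutL F I).comp P.tot.mulVecLin) :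
      Submodule F (ι → F)) + J₀.card ≤ 2 * J.card := by
  classical
  set τ := (cutL F I).comp P.tot.mulVecLin with hτ
  set L := (suppS F J ⊓ LinearMap.ker τ : Submodule F (ι → F)) with hL
  set L₀ := (suppS F J₀ ⊓ LinearMap.ker τ : Submodule F (ι → F)) with hL₀
  have hkerτ : ∀ q : ι → F, q ∈ LinearMap.ker τ ↔ ∀ i ∈ I, (P.tot *ᵥ q) i = 0 := by
    intro q
    rw [LinearMap.mem_ker]
    constructor
    · intro h i hi
      have := congrFun h i
      rw [hτ, LinearMap.comp_apply, cutL_apply, if_pos hi] at this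
      exact this
    · intro h
      funext i
      rw [hτ, LinearMap.comp_apply, cutL_apply]
      split_ifs with hi
      · exact h i hi
      · rfl
  -- images of the kernel
  have hsub : ∀ q ∈ L₀, ∀ k, P.B k *ᵥ q = τ (fun j => -((φ j k : ℤ) : F) * q j) := by
    intro q hq k
    obtain ⟨hq1, hq2'⟩ := hq
    have hq2 := (hkerτ q).mp hq2'
    funext i
    rw [hτ, LinearMap.comp_apply, cutL_apply]
    split_ifs with hi
    · have e0 := hq2 i hi
      rw [mulVec, dotProduct] at e0
      rw [mulVec, dotProduct, Matrix.mulVecLin_apply, mulVec, dotProduct]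
      have e1 : ∀ j, P.B k i j * q j = ((ψ i k : ℤ) : F) * (P.tot i j * q j) +
          P.tot i j * (-((φ j k : ℤ) : F) * q j) := by
        intro j
        by_cases hj : j ∈ J₀
        · rw [P.entry (ψ := ψ i) (φ := φ j) (h0 i hi j (hJ hj)) (h1 i hi j (hJ hj)) k]
          push_cast
          ring
        · rw [hq1 j hj]
          ring
      rw [Finset.sum_congr rfl fun j _ => e1 j, Finset.sum_add_distrib, ← Finset.mul_sum, e0,
        mul_zero, zero_add]
    · rw [mulVec, dotProduct]
      refine Finset.sum_eq_zero fun j _ => ?_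
      by_cases hj : j ∈ J₀
      · have : P.B k i j = 0 := by
          by_contra hne
          exact hi (hI i j hj (Or.inr ⟨k, hne⟩))
        rw [this, zero_mul]
      · rw [hq1 j hj, mul_zero]
  have hmemY : ∀ q ∈ L₀, ∀ k, P.B k *ᵥ q ∈ (suppS F J).map τ := by
    intro q hq k
    rw [hsub q hq k]
    refine Submodule.mem_map_of_mem ?_
    intro j hj
    show -((φ j k : ℤ) : F) * q j = 0
    rw [hq.1 j (fun h => hj (hJ h)), mul_zero]
  have hmemY0 : ∀ q ∈ L₀, P.B₀ *ᵥ q ∈ (suppS F J).map τ := by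
    intro q hq
    have e : P.B₀ *ᵥ q = - ∑ k, P.B k *ᵥ q := by
      have e1 : P.tot *ᵥ q = P.B₀ *ᵥ q + ∑ k, P.B k *ᵥ q := by
        rw [GPres.tot, Matrix.add_mulVec, Matrix.sum_mulVec]
      have e2 : P.tot *ᵥ q = 0 := by
        funext i
        by_cases hi : i ∈ I
        · exact (hkerτ q).mp hq.2 i hi
        · rw [mulVec, dotProduct]
          refine Finset.sum_eq_zero fun j _ => ?_
          by_cases hj : j ∈ J₀
          · rw [P.tot_of_not_adj (fun h => hi (hI i j hj h)), zero_mul]
          · rw [hq.1 j hj, mul_zero]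
      rw [e1] at e2
      exact eq_neg_of_add_eq_zero_left e2
    rw [e]
    exact Submodule.neg_mem _ (Submodule.sum_mem _ fun k _ => hmemY q hq k)
  have hZ : imageSum P.B₀ P.B L₀ ≤ (suppS F J).map τ :=
    imageSum_le hmemY0 fun k q hq => hmemY q hq k
  have r1 := Submodule.finrank_mono hZ
  have r2 : finrank F L₀ ≤ finrank F (imageSum P.B₀ P.B L₀) := by
    by_contra h
    exact hns ⟨L₀, not_le.mp h⟩
  have r3 := finrank_map_add_inf τ (suppS F J)
  rw [finrank_suppS] at r3
  -- restriction
  have r4 := finrank_map_add_inf (cutL F (J \ J₀)) L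
  have r5 : finrank F (L.map (cutL F (J \ J₀))) ≤ (J \ J₀).card := by
    rw [← finrank_suppS (F := F) (J \ J₀)]
    apply Submodule.finrank_mono
    rintro _ ⟨q, -, rfl⟩
    exact cutL_mem _ q
  have r6 : finrank F (L ⊓ LinearMap.ker (cutL F (J \ J₀)) : Submodule F (ι → F)) ≤
      finrank F L₀ := by
    apply Submodule.finrank_mono
    rintro q ⟨⟨hq1, hq2⟩, hq3⟩
    refine ⟨?_, hq2⟩
    intro j hj
    by_cases hjJ : j ∈ J
    · have := congrFun (LinearMap.mem_ker.mp hq3) j
      rw [cutL_apply, if_pos (Finset.mem_sdiff.mpr ⟨hjJ, hj⟩)] at this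
      exact this
    · exact hq1 j hjJ
  have r7 : (J \ J₀).card + J₀.card = J.card := Finset.card_sdiff_add_card_eq_card hJ
  have r8 : finrank F ((suppS F J).map τ) + finrank F L = J.card := r3
  omega

/-- Potentials of a cluster. -/
theorem GPres.potentials (P : GPres F ι κ Λ) {s l : ℕ} (hc : P.clean s) (hl : 4 * l + 4 ≤ 2 ^ s)
    (C : Finset ι) (j₀ : ι) :
    ∃ φ ψ : ι → κ → ℤ,
      (∀ i ∈ P.rowsN (P.ball C j₀ l), ∀ j ∈ P.ball C j₀ (l + 1), P.B₀ i j ≠ 0 → ψ i = φ j) ∧
      (∀ i ∈ P.rowsN (P.ball C j₀ l), ∀ j ∈ P.ball C j₀ (l + 1), ∀ k, P.B k i j ≠ 0 →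
        ψ i = φ j + Pi.single k 1) := by
  classical
  have hφ : ∀ j, ∃ z : κ → ℤ, j ∈ P.ball C j₀ (l + 1) →
      P.Wk (2 * (l + 1)) (P.b j₀) (P.b j) z := by
    intro j
    by_cases hj : j ∈ P.ball C j₀ (l + 1)
    · obtain ⟨z, hz⟩ := P.ball_walk (l + 1) j hj
      exact ⟨z, fun _ => hz⟩
    · exact ⟨0, fun h => absurd h hj⟩
  have hψ : ∀ i, ∃ z : κ → ℤ, i ∈ P.rowsN (P.ball C j₀ l) →
      P.Wk (2 * l + 1) (P.b j₀) (-P.a i) z := by
    intro i
    by_cases hi : i ∈ P.rowsN (P.ball C j₀ l)
    · obtain ⟨z, hz⟩ := P.rows_walk (P.ball_walk l) hi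
      exact ⟨z, fun _ => hz⟩
    · exact ⟨0, fun h => absurd h hi⟩
  choose φ hφ using hφ
  choose ψ hψ using hψ
  refine ⟨φ, ψ, ?_, ?_⟩
  · intro i hi j hj h
    have e1 := hφ j hj
    have e2 := hψ i hi
    have e3 : P.b j = -P.a i := eq_neg_of_add_eq_zero_right (P.hB₀ i j h)
    rw [← e3] at e2
    exact P.Wk_unique hc (by omega) e2 e1
  · intro i hi j hj k h
    have e1 := hφ j hj
    have e2 := hψ i hi
    have e3 := P.Wk_trans e1 (P.Wk_one ⟨k, i, j, h, Or.inl ⟨rfl, rfl, rfl⟩⟩)
    exact P.Wk_unique hc (by omega) e2 e3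

/-- A ball that does not grow much. -/
theorem GPres.slow (P : GPres F ι κ Λ) {T a b : ℕ} (hT : 1 ≤ T)
    (hab : Fintype.card ι * b ^ T ≤ a ^ T) (C : Finset ι) (j₀ : ι) :
    ∃ l, l < T ∧ b * (P.ball C j₀ (l + 1)).card ≤ a * (P.ball C j₀ l).card := by
  by_contra hcon
  push Not at hcon
  have hb : 0 < b := by
    rcases Nat.eq_zero_or_pos b with h | h
    · have := hcon 0 (by omega)
      rw [h, zero_mul] at this
      omega
    · exact h
  have hind : ∀ l, l ≤ T → a ^ l ≤ b ^ l * (P.ball C j₀ l).card ∧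
      (1 ≤ l → a ^ l < b ^ l * (P.ball C j₀ l).card) := by
    intro l
    induction l with
    | zero =>
      intro _
      refine ⟨?_, fun h => by omega⟩
      rw [pow_zero, pow_zero, GPres.ball, Finset.card_singleton, mul_one]
    | succ l ih =>
      intro hl
      have h1 := (ih (by omega)).1
      have h2 := hcon l (by omega)
      have h3 : a ^ (l + 1) < b ^ (l + 1) * (P.ball C j₀ (l + 1)).card := by
        calc a ^ (l + 1) = a * a ^ l := by rw [pow_succ]; ring
          _ ≤ a * (b ^ l * (P.ball C j₀ l).card) := Nat.mul_le_mul_left a h1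
          _ = b ^ l * (a * (P.ball C j₀ l).card) := by ring
          _ < b ^ l * (b * (P.ball C j₀ (l + 1)).card) :=
              Nat.mul_lt_mul_of_pos_left h2 (Nat.pow_pos hb)
          _ = _ := by rw [pow_succ]; ring
      exact ⟨h3.le, fun _ => h3⟩
  have h1 := (hind T le_rfl).2 hT
  have h2 : (P.ball C j₀ T).card ≤ Fintype.card ι := Finset.card_le_univ _
  have h3 : b ^ T * (P.ball C j₀ T).card ≤ b ^ T * Fintype.card ι := Nat.mul_le_mul_left _ h2
  have h4 : b ^ T * Fintype.card ι = Fintype.card ι * b ^ T := mul_comm _ _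
  omega

/-- The kernel supported on a set of columns. -/
theorem GPres.ker_bound (P : GPres F ι κ Λ) (hns : ¬ Shrunk P.B₀ P.B) {s T a b : ℕ}
    (hc : P.clean s) (hT : 1 ≤ T) (hTs : 4 * T ≤ 2 ^ s)
    (hab : Fintype.card ι * b ^ T ≤ a ^ T) : ∀ (N : ℕ) (C : Finset ι), C.card = N →
    2 * a * finrank F (suppS F C ⊓ LinearMap.ker P.tot.mulVecLin : Submodule F (ι → F)) +
      b * C.card ≤ 2 * a * C.card := by
  classical
  intro N
  induction N using Nat.strong_induction_on with
  | _ N ih =>
    intro C hC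
    rcases C.eq_empty_or_nonempty with rfl | ⟨j₀, hj₀⟩
    · have h0 : finrank F (suppS F (∅ : Finset ι) ⊓ LinearMap.ker P.tot.mulVecLin :
          Submodule F (ι → F)) ≤ finrank F (suppS F (∅ : Finset ι)) :=
        Submodule.finrank_mono inf_le_left
      rw [finrank_suppS, Finset.card_empty] at h0
      rw [Finset.card_empty, Nat.le_zero.mp h0]
      simp
    · obtain ⟨l, hl, hslow⟩ := P.slow hT hab C j₀
      set J₀ := P.ball C j₀ l with hJ₀
      set J := P.ball C j₀ (l + 1) with hJ
      set I := P.rowsN J₀ with hI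
      have hJsub : J₀ ⊆ J := P.ball_mono C j₀ l
      have hJC : J ⊆ C := P.ball_sub hj₀ (l + 1)
      have hJ₀pos : 0 < J.card := by
        have h1 : ∀ l, j₀ ∈ P.ball C j₀ l := by
          intro l
          induction l with
          | zero => exact Finset.mem_singleton_self _
          | succ l ih => exact P.ball_mono C j₀ l ih
        exact Finset.card_pos.mpr ⟨j₀, h1 _⟩
      obtain ⟨φ, ψ, hφ, hψ⟩ := P.potentials hc (show 4 * l + 4 ≤ 2 ^ s by omega) C j₀
      have hclu := P.cluster hns J₀ J I hJsub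
        (fun i j hj hadj => P.mem_rowsN.mpr ⟨j, hj, hadj⟩) φ ψ hφ hψ
      set C' := C \ J with hC'
      have hcard : C'.card + J.card = C.card := Finset.card_sdiff_add_card_eq_card hJC
      have hih := ih C'.card (by omega) C' rfl
      set L := (suppS F C ⊓ LinearMap.ker P.tot.mulVecLin : Submodule F (ι → F)) with hL
      have r1 := finrank_map_add_inf (cutL F J) L
      have r2 : finrank F (L.map (cutL F J)) ≤ finrank F (suppS F J ⊓
          LinearMap.ker ((cutL F I).comp P.tot.mulVecLin) : Submodule F (ι → F)) := by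
        apply Submodule.finrank_mono
        rintro _ ⟨q, ⟨hq1, hq2⟩, rfl⟩
        refine ⟨cutL_mem _ q, ?_⟩
        show cutL F J q ∈ LinearMap.ker ((cutL F I).comp P.tot.mulVecLin)
        rw [LinearMap.mem_ker]
        funext i
        rw [LinearMap.comp_apply, cutL_apply]
        split_ifs with hi
        · have e0 : (P.tot *ᵥ q) i = 0 := congrFun (LinearMap.mem_ker.mp hq2) i
          rw [Matrix.mulVecLin_apply, mulVec, dotProduct, Pi.zero_apply]
          rw [mulVec, dotProduct] at e0
          rw [← e0]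
          refine Finset.sum_congr rfl fun j _ => ?_
          rw [cutL_apply]
          split_ifs with hj
          · rfl
          · by_cases hjC : j ∈ C
            · have : ¬ P.adj i j := by
                intro hadj
                apply hj
                rw [hJ, GPres.ball, P.mem_grow]
                exact Or.inr ⟨hjC, i, hi, hadj⟩
              rw [P.tot_of_not_adj this, zero_mul, zero_mul]
            · rw [hq1 j hjC]
        · rfl
      have r3 : finrank F (L ⊓ LinearMap.ker (cutL F J) : Submodule F (ι → F)) ≤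
          finrank F (suppS F C' ⊓ LinearMap.ker P.tot.mulVecLin : Submodule F (ι → F)) := by
        apply Submodule.finrank_mono
        rintro q ⟨⟨hq1, hq2⟩, hq3⟩
        refine ⟨?_, hq2⟩
        intro j hj
        by_cases hjC : j ∈ C
        · have hjJ : j ∈ J := by
            by_contra h
            exact hj (Finset.mem_sdiff.mpr ⟨hjC, h⟩)
          have := congrFun (LinearMap.mem_ker.mp hq3) j
          rw [cutL_apply, if_pos hjJ] at this
          exact this
        · exact hq1 j hjC
      set d1 := finrank F (suppS F J ⊓ LinearMap.ker ((cutL F I).comp P.tot.mulVecLin) :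
        Submodule F (ι → F))
      set d2 := finrank F (suppS F C' ⊓ LinearMap.ker P.tot.mulVecLin : Submodule F (ι → F))
      have r4 : finrank F L ≤ d1 + d2 := by omega
      have r5 : a * (2 * d1 + J₀.card) ≤ a * (2 * J.card) := Nat.mul_le_mul_left a hclu
      have r6 : 2 * a * finrank F L ≤ 2 * a * (d1 + d2) := Nat.mul_le_mul_left _ r4
      rw [← hcard]
      nlinarith

/-- If all short closed walks are trivial, the total matrix has large rank. -/
theorem GPres.rank_bound (P : GPres F ι κ Λ) (hns : ¬ Shrunk P.B₀ P.B) {s T a b : ℕ}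
    (hc : P.clean s) (hT : 1 ≤ T) (hTs : 4 * T ≤ 2 ^ s)
    (hab : Fintype.card ι * b ^ T ≤ a ^ T) :
    b * Fintype.card ι ≤ 2 * a * P.tot.rank := by
  have h := P.ker_bound hns hc hT hTs hab (Finset.univ : Finset ι).card Finset.univ rfl
  have h1 : (suppS F (Finset.univ : Finset ι) ⊓ LinearMap.ker P.tot.mulVecLin :
      Submodule F (ι → F)) = LinearMap.ker P.tot.mulVecLin := by
    apply inf_eq_right.mpr
    intro q _ j hj
    exact absurd (Finset.mem_univ j) hj
  rw [h1, Finset.card_univ] at h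
  have h2 := LinearMap.finrank_range_add_finrank_ker P.tot.mulVecLin
  rw [Module.finrank_fintype_fun_eq_card] at h2
  have h3 : finrank F (LinearMap.range P.tot.mulVecLin) = P.tot.rank := rfl
  rw [h3] at h2
  rw [← h2] at h ⊢
  nlinarith

end

end Pool.Agent.Lib.MP_64d474_lc
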