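import Mathlib
import Pool.Agent.Lib.MP_64d474_lc.XnStage
import Pool.Agent.Lib.MP_64d474_lc.QnChain

/-!
Degenerations of a tuple without shrunk subspace, together with comparable weights.
-/

open Matrix Module MvPolynomial

set_option linter.unusedSectionVars false

namespace Pool.Agent.Lib.MP_64d474_lc

section

variable {F : Type*} [Field F] {ι κ : Type*} [Fintype ι] [DecidableEq ι] [Fintype κ]
  [DecidableEq κ] {Λ : Type*} [AddCommGroup Λ] [DecidableEq Λ]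

/-- A tuple without shrunk subspace has an optimal leading tuple without shrunk subspace. -/
theorem GPres.opt [CharZero F] (hsep : Sep Λ) (P : GPres F ι κ Λ) (hns : ¬ Shrunk P.B₀ P.B)
    (w : κ → ℤ) :
    ∃ (S T : Matrix ι ι F) (ρ σ : ι → ℤ), S.det ≠ 0 ∧ T.det ≠ 0 ∧
      (∀ c d, S c d ≠ 0 → P.a c = P.a d) ∧ (∀ c d, T c d ≠ 0 → P.b c = P.b d) ∧
      Feas2 (S * P.B₀ * T) (fun k => S * P.B k * T) w ρ σ ∧
      ¬ Shrunk (lead2 0 ρ σ (S * P.B₀ * T)) (fun k => lead2 (w k) ρ σ (S * P.B k * T)) := by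
  classical
  let Q : ℤ → Prop := fun z => ∃ (S T : Matrix ι ι F) (ρ σ : ι → ℤ), S.det ≠ 0 ∧ T.det ≠ 0 ∧
    (∀ c d, S c d ≠ 0 → P.a c = P.a d) ∧ (∀ c d, T c d ≠ 0 → P.b c = P.b d) ∧
    Feas2 (S * P.B₀ * T) (fun k => S * P.B k * T) w ρ σ ∧ ∑ c, ρ c + ∑ c, σ c = z
  have hnn : 0 ≤ ∑ k, |w k| := Finset.sum_nonneg fun k _ => abs_nonneg _
  have hwle : ∀ k, |w k| ≤ ∑ k, |w k| := fun k =>
    Finset.single_le_sum (f := fun k => |w k|) (fun k _ => abs_nonneg _) (Finset.mem_univ k)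
  have hbdd : ∃ bb : ℤ, ∀ z, Q z → bb ≤ z := by
    refine ⟨- (Fintype.card ι * ∑ k, |w k|), ?_⟩
    rintro z ⟨S, T, ρ, σ, hS, hT, _, _, hF, rfl⟩
    have h0 : ∀ A : Matrix ι ι F, lead2 0 (fun _ => 0) (fun _ => 0) A = A := by
      intro A
      ext i j
      rw [lead2, if_pos (by norm_num)]
    have hopt := dual_opt P.B₀ P.B (fun _ => 0) (fun _ => 0) (fun _ => 0)
      (fun i => ρ i + ∑ k, |w k|) σ S T hS hT
      ⟨fun i j _ => by norm_num, fun k i j _ => by norm_num⟩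
      ⟨fun i j h => by
          have := hF.1 i j h
          show 0 ≤ 0 + (ρ i + ∑ k, |w k|) + σ j
          linarith, fun k i j h => by
          have h1 := hF.2 k i j h
          have h2 := hwle k
          have h3 := le_abs_self (w k)
          show 0 ≤ 0 + (ρ i + ∑ k, |w k|) + σ j
          linarith⟩
      (by
        rw [h0]
        simp only [h0]
        exact hns)
    have e1 : ∑ c, (ρ c + ∑ k, |w k|) = ∑ c, ρ c + Fintype.card ι * ∑ k, |w k| := by
      rw [Finset.sum_add_distrib, Finset.sum_const, Finset.card_univ, nsmul_eq_mul]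
    have e2 : ∑ _c : ι, (0 : ℤ) = 0 := Finset.sum_const_zero
    rw [e1, e2] at hopt
    linarith
  have hone : ∀ (γ : ι → Λ) (c d : ι), (1 : Matrix ι ι F) c d ≠ 0 → γ c = γ d := by
    intro γ c d hcd
    by_contra hne
    apply hcd
    rw [Matrix.one_apply_ne]
    rintro rfl
    exact hne rfl
  have hinh : ∃ z, Q z := by
    refine ⟨_, 1, 1, fun _ => ∑ k, |w k|, fun _ => 0, ?_, ?_, hone _, hone _, ?_, rfl⟩
    · rw [Matrix.det_one]; exact one_ne_zero
    · rw [Matrix.det_one]; exact one_ne_zero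
    · refine ⟨fun c c' _ => by linarith, fun k c c' _ => ?_⟩
      have h1 := hwle k
      have h2 := neg_abs_le (w k)
      show 0 ≤ w k + ∑ k, |w k| + 0
      linarith
  obtain ⟨z, ⟨S', T', ρ', σ', hS', hT', hSa, hTb, hF', hz⟩, hmin⟩ :=
    Int.exists_least_of_bdd hbdd hinh
  refine ⟨S', T', ρ', σ', hS', hT', hSa, hTb, hF', ?_⟩
  have hL₀ : ∀ i j, (S' * P.B₀ * T') i j ≠ 0 → P.a i + P.b j = 0 := by
    intro i j h
    obtain ⟨i', j', h1, h2, h3⟩ := equiv_ne h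
    rw [hSa i i' h1, ← hTb j' j h3]
    exact P.hB₀ i' j' h2
  have hL : ∀ k i j, (S' * P.B k * T') i j ≠ 0 → P.a i + P.b j = P.μ k := by
    intro k i j h
    obtain ⟨i', j', h1, h2, h3⟩ := equiv_ne h
    rw [hSa i i' h1, ← hTb j' j h3]
    exact P.hB k i' j' h2
  intro hsh
  obtain ⟨X, Y, ρ₁, σ₁, hX, hY, hXa, hYb, hF₁, hlt⟩ := improve2 hsep P.a P.b
    (S' * P.B₀ * T') hL₀ (fun k => S' * P.B k * T') P.μ hL w ρ' σ' hF' hsh
  have hassoc : ∀ A : Matrix ι ι F, X * S' * A * (T' * Y) = X * (S' * A * T') * Y := by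
    intro A
    simp only [Matrix.mul_assoc]
  have hQ : Q (∑ c, ρ₁ c + ∑ c, σ₁ c) := by
    refine ⟨X * S', T' * Y, ρ₁, σ₁, ?_, ?_, ?_, ?_, ?_, rfl⟩
    · rw [Matrix.det_mul]; exact mul_ne_zero hX hS'
    · rw [Matrix.det_mul]; exact mul_ne_zero hT' hY
    · intro c d h
      rw [Matrix.mul_apply] at h
      obtain ⟨e, _, he⟩ := Finset.exists_ne_zero_of_sum_ne_zero h
      rw [hXa c e (left_ne_zero_of_mul he)]
      exact hSa e d (right_ne_zero_of_mul he)
    · intro c d h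
      rw [Matrix.mul_apply] at h
      obtain ⟨e, _, he⟩ := Finset.exists_ne_zero_of_sum_ne_zero h
      rw [hTb c e (left_ne_zero_of_mul he)]
      exact hYb e d (right_ne_zero_of_mul he)
    · rw [hassoc]
      simp only [hassoc]
      exact hF₁
  have := hmin _ hQ
  linarith

/-- Two weights order the exponents of degree at most `n` in the same way. -/
def Compat (n : ℕ) (W V : κ → ℤ) : Prop :=
  ∀ d d' : κ →₀ ℕ, ∑ k, d k ≤ n → ∑ k, d' k ≤ n → (wt W d < wt W d' ↔ wt V d < wt V d')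

theorem Compat.eq_iff {n : ℕ} {W V : κ → ℤ} (h : Compat n W V) {d d' : κ →₀ ℕ}
    (hd : ∑ k, d k ≤ n) (hd' : ∑ k, d' k ≤ n) : wt W d = wt W d' ↔ wt V d = wt V d' := by
  have h1 := h d d' hd hd'
  have h2 := h d' d hd' hd
  constructor
  · intro e
    rcases lt_trichotomy (wt V d) (wt V d') with h3 | h3 | h3
    · exact absurd (h1.mpr h3) (by rw [e]; exact lt_irrefl _)
    · exact h3
    · exact absurd (h2.mpr h3) (by rw [e]; exact lt_irrefl _)
  · intro e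
    rcases lt_trichotomy (wt W d) (wt W d') with h3 | h3 | h3
    · exact absurd (h1.mp h3) (by rw [e]; exact lt_irrefl _)
    · exact h3
    · exact absurd (h2.mp h3) (by rw [e]; exact lt_irrefl _)

theorem wt_comb (M : ℤ) (W w : κ → ℤ) (d : κ →₀ ℕ) :
    wt (fun k => M * W k + w k) d = M * wt W d + wt w d := by
  rw [wt, wt, wt, Finset.mul_sum, ← Finset.sum_add_distrib]
  exact Finset.sum_congr rfl fun k _ => by ring

theorem lt_comb_iff {M A A' x x' : ℤ} (hx : 0 ≤ x) (hx' : 0 ≤ x') (hxM : x < M) (hxM' : x' < M) :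
    M * A + x < M * A' + x' ↔ A < A' ∨ (A = A' ∧ x < x') := by
  constructor
  · intro h
    rcases lt_trichotomy A A' with h1 | h1 | h1
    · exact Or.inl h1
    · right
      subst h1
      exact ⟨rfl, by linarith⟩
    · exfalso
      have h2 : A' + 1 ≤ A := h1
      have h3 : M * (A' + 1) ≤ M * A := mul_le_mul_of_nonneg_left h2 (by linarith)
      linarith
  · rintro (h1 | ⟨rfl, h1⟩)
    · have h2 : A + 1 ≤ A' := h1
      have h3 : M * (A + 1) ≤ M * A' := mul_le_mul_of_nonneg_left h2 (by linarith)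
      linarith
    · linarith

theorem Compat.step {n : ℕ} {W V : κ → ℤ} (h : Compat n W V) (w : κ → ℤ) (M N : ℤ)
    (hNM : N ≤ M) (hw : ∀ d : κ →₀ ℕ, ∑ k, d k ≤ n → 0 ≤ wt w d ∧ wt w d < N) :
    Compat n (fun k => M * W k + w k) (fun k => N * V k + w k) := by
  intro d d' hd hd'
  obtain ⟨a1, a2⟩ := hw d hd
  obtain ⟨b1, b2⟩ := hw d' hd'
  rw [wt_comb, wt_comb, wt_comb, wt_comb, lt_comb_iff a1 b1 (by linarith) (by linarith),
    lt_comb_iff a1 b1 a2 b2, h d d' hd hd', h.eq_iff hd hd']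

/-- `P` is a degeneration of the tuple, for a weight comparable with `V`. -/
def Link (n : ℕ) (B₀ : Matrix ι ι F) (B : κ → Matrix ι ι F) (P : GPres F ι κ Λ)
    (V : κ → ℤ) : Prop :=
  ∃ (S T : Matrix ι ι F) (ρ σ : ι → ℤ) (W : κ → ℤ), S.det ≠ 0 ∧ T.det ≠ 0 ∧
    Feas2 (S * B₀ * T) (fun k => S * B k * T) W ρ σ ∧
    P.B₀ = lead2 0 ρ σ (S * B₀ * T) ∧ (∀ k, P.B k = lead2 (W k) ρ σ (S * B k * T)) ∧
    (∀ i i', P.a i = P.a i' → ρ i = ρ i') ∧ (∀ j j', P.b j = P.b j' → σ j = σ j') ∧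
    Compat n W V

/-- Passing to the leading form for new weights. -/
theorem GPres.stage3 [CharZero F] (hsep : Sep Λ) (n : ℕ) (B₀ : Matrix ι ι F)
    (B : κ → Matrix ι ι F) (P : GPres F ι κ Λ) (V : κ → ℤ) (hP : Link n B₀ B P V)
    (hns : ¬ Shrunk P.B₀ P.B) (w : κ → ℤ) (N : ℤ)
    (hw : ∀ d : κ →₀ ℕ, ∑ k, d k ≤ n → 0 ≤ wt w d ∧ wt w d < N) :
    ∃ P' : GPres F ι κ (Λ × ℤ), Link n B₀ B P' (fun k => N * V k + w k) ∧
      ¬ Shrunk P'.B₀ P'.B ∧ GRefines P' P w := by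
  classical
  obtain ⟨S', T', ρ', σ', hS', hT', hSa, hTb, hF', hns'⟩ := P.opt hsep hns w
  obtain ⟨S, T, ρ, σ, W, hS, hT, hFeas, hPB₀, hPB, hρa, hσb, hcomp⟩ := hP
  have hL₀ : ∀ i j, (S' * P.B₀ * T') i j ≠ 0 → P.a i + P.b j = 0 := by
    intro i j h
    obtain ⟨i', j', h1, h2, h3⟩ := equiv_ne h
    rw [hSa i i' h1, ← hTb j' j h3]
    exact P.hB₀ i' j' h2
  have hL : ∀ k i j, (S' * P.B k * T') i j ≠ 0 → P.a i + P.b j = P.μ k := by
    intro k i j h
    obtain ⟨i', j', h1, h2, h3⟩ := equiv_ne h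
    rw [hSa i i' h1, ← hTb j' j h3]
    exact P.hB k i' j' h2
  set N₀ := lead2 0 ρ' σ' (S' * P.B₀ * T') with hN₀
  set Nk : κ → Matrix ι ι F := fun k => lead2 (w k) ρ' σ' (S' * P.B k * T') with hNk
  set M : ℤ := |N| + 1 + ∑ k, |w k| + ∑ i, |ρ' i| + ∑ j, |σ' j| with hMdef
  have hρle : ∀ i, |ρ' i| ≤ ∑ i, |ρ' i| := fun i =>
    Finset.single_le_sum (f := fun i => |ρ' i|) (fun i _ => abs_nonneg _) (Finset.mem_univ i)
  have hσle : ∀ i, |σ' i| ≤ ∑ i, |σ' i| := fun i =>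
    Finset.single_le_sum (f := fun i => |σ' i|) (fun i _ => abs_nonneg _) (Finset.mem_univ i)
  have hwle : ∀ k, |w k| ≤ ∑ k, |w k| := fun k =>
    Finset.single_le_sum (f := fun k => |w k|) (fun k _ => abs_nonneg _) (Finset.mem_univ k)
  have hnn1 : 0 ≤ ∑ k, |w k| := Finset.sum_nonneg fun k _ => abs_nonneg _
  have hnn2 : 0 ≤ ∑ i, |ρ' i| := Finset.sum_nonneg fun k _ => abs_nonneg _
  have hnn3 : 0 ≤ ∑ i, |σ' i| := Finset.sum_nonneg fun k _ => abs_nonneg _
  have hNabs : N ≤ |N| := le_abs_self N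
  have hNnn : 0 ≤ |N| := abs_nonneg N
  have hM0 : ∀ i j, |(0 : ℤ)| + |ρ' i| + |σ' j| < M := by
    intro i j
    have h1 := hρle i
    have h2 := hσle j
    rw [abs_zero]
    linarith
  have hMk : ∀ k i j, |w k| + |ρ' i| + |σ' j| < M := by
    intro k i j
    have h1 := hρle i
    have h2 := hσle j
    have h3 := hwle k
    linarith
  have hSρ : ∀ i i', S' i i' ≠ 0 → ρ i = ρ i' := fun i i' h => hρa i i' (hSa i i' h)
  have hTσ : ∀ j' j, T' j' j ≠ 0 → σ j' = σ j := fun j' j h => hσb j' j (hTb j' j h)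
  have c0 := compose_aux (S * B₀ * T) 0 0 M ρ σ ρ' σ' S' T' hSρ hTσ hFeas.1
    (by rw [← hPB₀]; exact hF'.1) hM0
  have ck := fun k => compose_aux (S * B k * T) (W k) (w k) M ρ σ ρ' σ' S' T' hSρ hTσ
    (hFeas.2 k) (by rw [← hPB]; exact hF'.2 k) (hMk k)
  have hassoc : ∀ A : Matrix ι ι F, S' * S * A * (T * T') = S' * (S * A * T) * T' := by
    intro A
    simp only [Matrix.mul_assoc]
  rw [← hPB₀] at c0
  simp only [← hPB] at ck
  rw [mul_zero, add_zero] at c0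
  have hSS : (S' * S).det ≠ 0 := by rw [Matrix.det_mul]; exact mul_ne_zero hS' hS
  have hTT : (T * T').det ≠ 0 := by rw [Matrix.det_mul]; exact mul_ne_zero hT hT'
  have hFc : Feas2 (S' * S * B₀ * (T * T')) (fun k => S' * S * B k * (T * T'))
      (fun k => M * W k + w k) (fun i => M * ρ i + ρ' i) (fun j => M * σ j + σ' j) := by
    refine ⟨?_, ?_⟩
    · rw [hassoc]; exact c0.1
    · intro k
      simp only [hassoc]
      exact (ck k).1
  let P' : GPres F ι κ (Λ × ℤ) :=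
    { B₀ := N₀
      B := Nk
      a := fun i => (P.a i, ρ' i)
      b := fun j => (P.b j, σ' j)
      μ := fun k => (P.μ k, -w k)
      hB₀ := fun i j h => by
        have := lead2_homog hL₀ 0 ρ' σ' i j h
        rw [this]
        rfl
      hB := fun k i j h => lead2_homog (hL k) (w k) ρ' σ' i j h }
  refine ⟨P', ⟨S' * S, T * T', fun i => M * ρ i + ρ' i, fun j => M * σ j + σ' j,
    fun k => M * W k + w k, hSS, hTT, hFc, ?_, ?_, ?_, ?_, ?_⟩, hns', ⟨fun _ => rfl,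
    fun _ => rfl, fun _ => rfl, ?_⟩⟩
  · rw [hassoc]; exact c0.2.symm
  · intro k
    rw [hassoc]; exact (ck k).2.symm
  · intro i i' h
    have h1 : P.a i = P.a i' := congrArg Prod.fst h
    have h2 : ρ' i = ρ' i' := congrArg Prod.snd h
    show M * ρ i + ρ' i = M * ρ i' + ρ' i'
    rw [hρa i i' h1, h2]
  · intro i i' h
    have h1 : P.b i = P.b i' := congrArg Prod.fst h
    have h2 : σ' i = σ' i' := congrArg Prod.snd h
    show M * σ i + σ' i = M * σ i' + σ' i'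
    rw [hσb i i' h1, h2]
  · exact hcomp.step w M N (by linarith) hw
  · intro k i j h
    obtain ⟨i', j', h1, h2, h3⟩ := equiv_ne (lead2_ne h).2
    exact ⟨i', j', h2, hSa i i' h1, (hTb j' j h3).symm⟩

end

end Pool.Agent.Lib.MP_64d474_lc
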