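import Mathlib
import Pool.Agent.Lib.MP_64d474_lc.YnStage
import Pool.Agent.Lib.MP_64d474_lc.YnBall
import Pool.Agent.Lib.MP_64d474_lc.XnChain

/-!
A bounded number of passages to leading forms.
-/

open Matrix Module MvPolynomial

set_option linter.unusedSectionVars false

namespace Pool.Agent.Lib.MP_64d474_lc

section

variable {F : Type*} [Field F] [CharZero F] {ι : Type*} [Fintype ι] [DecidableEq ι] {m : ℕ}

/-- the exponent with digits `b i ^ k mod p` -/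
def dig (p N : ℕ) {s : ℕ} (b : Fin s → ℕ) (k : Fin m) : ℕ :=
  ∑ i, (b i ^ (k : ℕ) % p) * N ^ (i : ℕ)

theorem dig_cons (p N : ℕ) {s : ℕ} (b₀ : ℕ) (b : Fin s → ℕ) (k : Fin m) :
    ((dig p N (Fin.cons b₀ b : Fin (s + 1) → ℕ) k : ℕ) : ℤ) =
      (N : ℤ) * ((dig p N b k : ℕ) : ℤ) + hw p b₀ k := by
  rw [dig, dig, Fin.sum_univ_succ, hw]
  simp only [Fin.cons_zero, Fin.cons_succ, Fin.val_zero, pow_zero, mul_one, Fin.val_succ]
  push_cast
  rw [Finset.mul_sum, add_comm]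
  congr 1
  refine Finset.sum_congr rfl fun i _ => ?_
  rw [pow_succ]
  ring

theorem wt_hw_bound {n p N b : ℕ} (hp : 0 < p) (hN : n * p < N) (d : Fin m →₀ ℕ)
    (hd : ∑ k, d k ≤ n) : 0 ≤ wt (hw p b) d ∧ wt (hw p b) d < N := by
  constructor
  · exact Finset.sum_nonneg fun k _ => mul_nonneg (hw_nonneg p b k) (Int.natCast_nonneg _)
  · have h1 : wt (hw p b) d ≤ ∑ k, (p : ℤ) * (d k : ℤ) := by
      refine Finset.sum_le_sum fun k _ => ?_
      refine mul_le_mul_of_nonneg_right ?_ (Int.natCast_nonneg _)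
      rw [hw]
      exact_mod_cast (Nat.mod_lt _ hp).le
    rw [← Finset.mul_sum] at h1
    have h2 : (p : ℤ) * ∑ k, (d k : ℤ) ≤ n * p := by
      have : (∑ k, (d k : ℤ)) ≤ n := by exact_mod_cast hd
      nlinarith
    have h3 : (n : ℤ) * p < N := by exact_mod_cast hN
    linarith

theorem clean_next3 {Λ : Type} [AddCommGroup Λ] [DecidableEq Λ] (hsep : Sep Λ) {n : ℕ}
    (A₀ : Matrix ι ι F) (A : Fin m → Matrix ι ι F) (P : GPres F ι (Fin m) Λ) {p N q : ℕ}
    (b : Fin q → ℕ) (hP : Link n A₀ A P (fun k => ((dig p N b k : ℕ) : ℤ)))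
    (hns : ¬ Shrunk P.B₀ P.B) (hp : p.Prime) (hN : n * p < N) {s : ℕ} (hs : 2 ^ s < p)
    (Z : Finset (Fin m → ℤ)) (hZc : Z.card * m < p) (hZ : ∀ g z, P.Q s g g z → z ∈ Z) :
    ∃ b₀ < p, ∃ P' : GPres F ι (Fin m) (Λ × ℤ),
      Link n A₀ A P' (fun k => ((dig p N (Fin.cons b₀ b : Fin (q + 1) → ℕ) k : ℕ) : ℤ)) ∧
      ¬ Shrunk P'.B₀ P'.B ∧ P'.clean s := by
  classical
  let Z' := Z.filter fun z => ∃ g, P.Q s g g z
  obtain ⟨b₀, hb, hbz⟩ := exists_hash m p hp Z' (by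
    intro z hz k
    obtain ⟨g, hg⟩ := (Finset.mem_filter.mp hz).2
    have h1 := P.Q_bound hg k
    have h2 : ((2 : ℤ) ^ s) < p := by exact_mod_cast hs
    linarith) (by
    refine lt_of_le_of_lt (Nat.mul_le_mul_right m ?_) hZc
    exact Finset.card_filter_le _ _)
  obtain ⟨P', hP', hns', href⟩ := P.stage3 hsep n A₀ A _ hP hns (hw p b₀) (N : ℤ)
    (fun d hd => wt_hw_bound hp.pos hN d hd)
  refine ⟨b₀, hb, P', ?_, hns', ?_⟩
  · have e : (fun k : Fin m => ((dig p N (Fin.cons b₀ b : Fin (q + 1) → ℕ) k : ℕ) : ℤ)) =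
        fun k : Fin m => (N : ℤ) * ((dig p N b k : ℕ) : ℤ) + hw p b₀ k := by
      funext k
      exact dig_cons p N b₀ b k
    rw [e]
    exact hP'
  · intro g z hQ
    by_contra hz
    have h1 := href.Q hQ
    have h2 := href.closed hQ
    exact hbz z (Finset.mem_filter.mpr ⟨hZ _ _ h1, _, h1⟩) hz h2

theorem chain3 {n p N : ℕ} (hn : Fintype.card ι ≤ n) (hp : p.Prime) (hN : n * p < N)
    (hp1 : (2 * m + 1) ^ 2 * m < p) (hp2 : (2 * n) ^ 4 * m < p) (A₀ : Matrix ι ι F)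
    (A : Fin m → Matrix ι ι F) (hns : ¬ Shrunk A₀ A) : ∀ s : ℕ, 2 ^ (s + 1) < p →
    ∃ b : Fin (s + 1) → ℕ, (∀ i, b i < p) ∧ ∃ (Λ : Type) (_ : AddCommGroup Λ)
      (_ : DecidableEq Λ) (P : GPres F ι (Fin m) Λ), Sep Λ ∧
      Link n A₀ A P (fun k => ((dig p N b k : ℕ) : ℤ)) ∧ ¬ Shrunk P.B₀ P.B ∧
      P.clean (s + 1) := by
  intro s
  induction s with
  | zero =>
    intro hs
    obtain ⟨Z, hZc, hZ⟩ := (ofTuple A₀ A).count_one
    rw [Fintype.card_fin] at hZc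
    have h0 : Link n A₀ A (ofTuple A₀ A)
        (fun k => ((dig p N (fun i : Fin 0 => (0 : ℕ)) k : ℕ) : ℤ)) := by
      have h : ∀ A : Matrix ι ι F, A = lead2 0 (fun _ => 0) (fun _ => 0) (1 * A * 1) := by
        intro A
        rw [Matrix.one_mul, Matrix.mul_one]
        ext i j
        rw [lead2, if_pos (by norm_num)]
      refine ⟨1, 1, fun _ => 0, fun _ => 0, fun _ => 0, ?_, ?_, ⟨?_, ?_⟩, h _, fun k => h _,
        fun _ _ _ => rfl, fun _ _ _ => rfl, ?_⟩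
      · rw [Matrix.det_one]; exact one_ne_zero
      · rw [Matrix.det_one]; exact one_ne_zero
      · intro i j _
        norm_num
      · intro k i j _
        norm_num
      · intro d d' _ _
        have e : (fun k : Fin m => ((dig p N (fun i : Fin 0 => (0 : ℕ)) k : ℕ) : ℤ)) =
            fun _ => 0 := by
          funext k
          rw [dig, Fin.sum_univ_zero]
          rfl
        rw [e]
    obtain ⟨b₀, hb, P', hP', hns', hcl⟩ := clean_next3 sep_int A₀ A (ofTuple A₀ A)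
      (fun i : Fin 0 => (0 : ℕ)) h0 hns hp hN (s := 1) hs Z
      (lt_of_le_of_lt (Nat.mul_le_mul_right m hZc) hp1) hZ
    refine ⟨Fin.cons b₀ fun i : Fin 0 => (0 : ℕ), ?_, ℤ × ℤ, inferInstance, inferInstance, P',
      sep_int.prod, hP', hns', hcl⟩
    intro i
    refine Fin.cases ?_ (fun i => i.elim0) i
    rw [Fin.cons_zero]
    exact hb
  | succ s ih =>
    intro hs
    obtain ⟨b, hb, Λ, i1, i2, P, hsep, hP, hns', hcl⟩ := ih
      (lt_of_le_of_lt (Nat.pow_le_pow_right (by norm_num) (by omega)) hs)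
    obtain ⟨Z, hZc, hZ⟩ := P.count_succ hcl
    obtain ⟨b₀, hb₀, P', hP', hns'', hcl'⟩ := clean_next3 hsep A₀ A P b hP hns' hp hN
      (s := s + 2) hs Z (by
        refine lt_of_le_of_lt (Nat.mul_le_mul_right m (hZc.trans ?_)) hp2
        exact Nat.pow_le_pow_left (Nat.mul_le_mul_left 2 hn) 4) hZ
    refine ⟨Fin.cons b₀ b, ?_, Λ × ℤ, inferInstance, inferInstance, P', hsep.prod, hP', hns'',
      hcl'⟩
    intro i
    refine Fin.cases ?_ (fun i => ?_) i
    · rw [Fin.cons_zero]; exact hb₀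
    · rw [Fin.cons_succ]; exact hb i

end

end Pool.Agent.Lib.MP_64d474_lc
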