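import Mathlib
import Pool.Agent.Lib.MP_64d474_lc.YnChain

/-!
From a degeneration to a point on a monomial curve.
-/

open Matrix Module MvPolynomial

set_option linter.unusedSectionVars false

namespace Pool.Agent.Lib.MP_64d474_lc

section

theorem exists_rows {F : Type*} [Field F] {α β : Type*} [Fintype α] [Fintype β]
    [DecidableEq α] [DecidableEq β] (A : Matrix α β F) (r : ℕ) (hr : A.rank = r) :
    ∃ a : Fin r → α, (A.submatrix a id).rank = r := by
  classical
  obtain ⟨κ, a, ha, hsp, hli⟩ := exists_linearIndependent' F (fun i => A i)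
  have hfin : Finite κ := Finite.of_injective a ha
  have : Fintype κ := Fintype.ofFinite κ
  have hrank : Fintype.card κ = A.rank := by
    rw [Matrix.rank_eq_finrank_span_row]
    have h1 := finrank_span_eq_card hli
    rw [← h1, hsp]
    rfl
  have hC : ∀ i, ∃ c : κ → F, ∑ k, c k • A (a k) = A i := by
    intro i
    have h1 : A i ∈ Submodule.span F (Set.range ((fun i => A i) ∘ a)) := by
      rw [hsp]
      exact Submodule.subset_span ⟨i, rfl⟩
    rw [Submodule.mem_span_range_iff_exists_fun] at h1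
    exact h1
  choose C hC' using hC
  have e1 : A = (Matrix.of C : Matrix α κ F) * A.submatrix a id := by
    ext i j
    rw [Matrix.mul_apply]
    have := congrFun (hC' i) j
    rw [Finset.sum_apply] at this
    rw [← this]
    rfl
  have h2 : A.rank ≤ (A.submatrix a id).rank := by
    conv_lhs => rw [e1]
    exact Matrix.rank_mul_le_right _ _
  have h3 := Matrix.rank_submatrix_le A a id
  let e : Fin r ≃ κ := Fintype.equivOfCardEq (by rw [Fintype.card_fin, hrank, hr])
  refine ⟨a ∘ e, ?_⟩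
  have e2 : A.submatrix (a ∘ e) id = (A.submatrix a id).submatrix e (Equiv.refl β) := rfl
  rw [e2, Matrix.rank_submatrix]
  omega

theorem det_ne_zero_of_rank {F : Type*} [Field F] {r : ℕ} (A : Matrix (Fin r) (Fin r) F)
    (h : A.rank = r) : A.det ≠ 0 := by
  intro h0
  obtain ⟨v, hv, hAv⟩ := Matrix.exists_mulVec_eq_zero_iff.mpr h0
  have h7 : A.mulVecLin.ker ≠ ⊥ := by
    rw [Submodule.ne_bot_iff]
    exact ⟨v, hAv, hv⟩
  have h8 := LinearMap.finrank_range_add_finrank_ker A.mulVecLin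
  rw [Module.finrank_fintype_fun_eq_card, Fintype.card_fin] at h8
  have h9 : 0 < finrank F A.mulVecLin.ker := by
    rw [Nat.pos_iff_ne_zero]
    intro h
    exact h7 (Submodule.finrank_eq_zero.mp h)
  rw [Matrix.rank] at h
  omega

theorem exists_minor {F : Type*} [Field F] {α β : Type*} [Fintype α] [Fintype β]
    [DecidableEq α] [DecidableEq β] (A : Matrix α β F) :
    ∃ (a : Fin A.rank → α) (b : Fin A.rank → β), (A.submatrix a b).det ≠ 0 := by
  obtain ⟨a, ha⟩ := exists_rows A A.rank rfl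
  have h1 : ((A.submatrix a id)ᵀ).rank = A.rank := by rw [Matrix.rank_transpose, ha]
  obtain ⟨b, hb⟩ := exists_rows (A.submatrix a id)ᵀ A.rank h1
  refine ⟨a, b, det_ne_zero_of_rank _ ?_⟩
  have e : A.submatrix a b = (((A.submatrix a id)ᵀ).submatrix b id)ᵀ := rfl
  rw [e, Matrix.rank_transpose, hb]

variable {F : Type*} [Field F] [CharZero F] {ι : Type*} [Fintype ι] [DecidableEq ι] {m : ℕ}

theorem wt_nw (V : Fin m → ℕ) (d : Fin m →₀ ℕ) :
    wt (fun k => ((V k : ℕ) : ℤ)) d = ((nw V d : ℕ) : ℤ) := by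
  rw [wt, nw]
  push_cast
  rfl

theorem exists_point2 (g : MvPolynomial (Fin m) F) (W : Fin m → ℤ) (V : Fin m → ℕ) (n D : ℕ)
    (hcomp : Compat n W (fun k => ((V k : ℕ) : ℤ)))
    (hdeg : ∀ d, coeff d g ≠ 0 → ∑ k, d k ≤ n) (μ : ℤ)
    (hsum : ∑ d ∈ g.support, (if wt W d = μ then coeff d g else 0) ≠ 0)
    (hD : ∀ d, coeff d g ≠ 0 → nw V d ≤ D) :
    ∃ t ≤ D, eval (fun k => ((t ^ V k : ℕ) : F)) g ≠ 0 := by
  classical
  obtain ⟨d₀, hd₀, hd₀'⟩ := Finset.exists_ne_zero_of_sum_ne_zero hsum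
  have hd₁ : wt W d₀ = μ := by
    by_contra h
    rw [if_neg h] at hd₀'
    exact hd₀' rfl
  have hd₂ : coeff d₀ g ≠ 0 := MvPolynomial.mem_support_iff.mp hd₀
  let G : Polynomial F := ∑ d' ∈ g.support, Polynomial.C (coeff d' g) * Polynomial.X ^ nw V d'
  have hG : G ≠ 0 := by
    intro h0
    have h1 := congrArg (fun q : Polynomial F => q.coeff (nw V d₀)) h0
    simp only [G, Polynomial.finsetSum_coeff, Polynomial.coeff_C_mul, Polynomial.coeff_X_pow,
      Polynomial.coeff_zero] at h1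
    apply hsum
    refine Eq.trans ?_ h1
    refine Finset.sum_congr rfl fun d hd => ?_
    have hd' : coeff d g ≠ 0 := MvPolynomial.mem_support_iff.mp hd
    have h2 := hcomp.eq_iff (hdeg d hd') (hdeg d₀ hd₂)
    rw [wt_nw, wt_nw, hd₁] at h2
    by_cases h3 : wt W d = μ
    · have h4 : nw V d = nw V d₀ := by exact_mod_cast h2.mp h3
      rw [if_pos h3, if_pos h4.symm, mul_one]
    · have h4 : nw V d₀ ≠ nw V d := fun h => h3 (h2.mpr (by exact_mod_cast h.symm))
      rw [if_neg h3, if_neg h4, mul_zero]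
  have hGdeg : G.natDegree ≤ D := by
    refine Polynomial.natDegree_sum_le_of_forall_le _ _ fun d' hd' => ?_
    exact (Polynomial.natDegree_C_mul_X_pow_le _ _).trans (hD d' (MvPolynomial.mem_support_iff.mp hd'))
  have heval : ∀ t : F, G.eval t = eval (fun k => t ^ V k) g := by
    intro t
    rw [eval_eq']
    simp only [G, Polynomial.eval_finsetSum, Polynomial.eval_mul, Polynomial.eval_C,
      Polynomial.eval_pow, Polynomial.eval_X]
    refine Finset.sum_congr rfl fun d' _ => ?_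
    congr 1
    rw [nw, ← Finset.prod_pow_eq_pow_sum]
    refine Finset.prod_congr rfl fun k _ => ?_
    rw [← pow_mul]
  by_contra hcon
  push Not at hcon
  apply hG
  apply Polynomial.eq_zero_of_natDegree_lt_card_of_eval_eq_zero' G
    ((Finset.range (D + 1)).map ⟨(Nat.cast : ℕ → F), Nat.cast_injective⟩)
  · intro x hx
    rw [Finset.mem_map] at hx
    obtain ⟨t, ht, rfl⟩ := hx
    rw [Finset.mem_range] at ht
    show G.eval ((t : ℕ) : F) = 0
    rw [heval, ← hcon t (by omega)]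
    push_cast
    rfl
  · rw [Finset.card_map, Finset.card_range]
    omega

theorem nw_dig_lt {n p N : ℕ} (hp : 0 < p) (hN : n * p < N) (d : Fin m →₀ ℕ)
    (hd : ∑ k, d k ≤ n) : ∀ (s : ℕ) (b : Fin s → ℕ), nw (dig p N b) d < N ^ s := by
  intro s
  induction s with
  | zero =>
    intro b
    rw [pow_zero, nw]
    simp [dig]
  | succ s ih =>
    intro b
    have h1 := ih (Fin.tail b)
    have e : (nw (dig p N b) d : ℤ) = N * nw (dig p N (Fin.tail b)) d + wt (hw p (b 0)) d := by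
      rw [← wt_nw, ← wt_nw, ← wt_comb]
      congr 1
      funext k
      rw [← dig_cons, Fin.cons_self_tail]
    obtain ⟨-, h2⟩ := wt_hw_bound (b := b 0) hp hN d hd
    have h3 : (nw (dig p N (Fin.tail b)) d : ℤ) + 1 ≤ (N : ℤ) ^ s := by exact_mod_cast h1
    have h4 : (N : ℤ) * (nw (dig p N (Fin.tail b)) d + 1) ≤ N * N ^ s :=
      mul_le_mul_of_nonneg_left h3 (Int.natCast_nonneg _)
    have h5 : (nw (dig p N b) d : ℤ) < (N : ℤ) ^ (s + 1) := by
      rw [e, pow_succ]
      linarith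
    exact_mod_cast h5

/-- The rank on the monomial curve is at least the rank of the degeneration. -/
theorem link_point {Λ : Type} [AddCommGroup Λ] [DecidableEq Λ] {n p N : ℕ}
    (hn : Fintype.card ι ≤ n) (hp : 0 < p) (hN : n * p < N) (A₀ : Matrix ι ι F)
    (A : Fin m → Matrix ι ι F) (P : GPres F ι (Fin m) Λ) {s : ℕ} (b : Fin s → ℕ)
    (hP : Link n A₀ A P (fun k => ((dig p N b k : ℕ) : ℤ))) :
    ∃ t < N ^ s, P.tot.rank ≤
      (A₀ + ∑ k : Fin m, ((t ^ dig p N b k : ℕ) : F) • A k).rank := by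
  classical
  obtain ⟨S, T, ρ, σ, W, hS, hT, hF, hP₀, hPk, -, -, hcomp⟩ := hP
  obtain ⟨r, hr, I, J, hIJ⟩ : ∃ r, P.tot.rank = r ∧ ∃ (I : Fin r → ι) (J : Fin r → ι),
      (P.tot.submatrix I J).det ≠ 0 := ⟨_, rfl, exists_minor P.tot⟩
  set M₀ : Matrix (Fin r) (Fin r) F := (S * A₀ * T).submatrix I J with hM₀
  set M : Fin m → Matrix (Fin r) (Fin r) F := fun k => (S * A k * T).submatrix I J with hM
  have f0 : ∀ i j, M₀ i j ≠ 0 → 0 ≤ 0 + (ρ ∘ I) i + (σ ∘ J) j := fun i j h => hF.1 _ _ h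
  have f1 : ∀ k i j, M k i j ≠ 0 → 0 ≤ W k + (ρ ∘ I) i + (σ ∘ J) j := fun k i j h =>
    hF.2 k _ _ h
  set g := (symb M₀ M).det with hg
  set gN := (symb (lead2 0 (ρ ∘ I) (σ ∘ J) M₀) (fun k => lead2 (W k) (ρ ∘ I) (σ ∘ J)
    (M k))).det with hgN
  have hrn : r ≤ n := by
    have h1 := Matrix.rank_le_card_width P.tot
    omega
  have hdeg : ∀ d, coeff d g ≠ 0 → ∑ k, d k ≤ n := by
    intro d hd
    have := coeff_degree M₀ M d hd
    rw [Fintype.card_fin] at this
    omega
  have hev : eval (fun _ => (1 : F)) gN ≠ 0 := by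
    have e1 : (fun i j => eval (fun _ => (1 : F)) (symb (lead2 0 (ρ ∘ I) (σ ∘ J) M₀)
        (fun k => lead2 (W k) (ρ ∘ I) (σ ∘ J) (M k)) i j)) = P.tot.submatrix I J := by
      have e2 := eval_symb (lead2 0 (ρ ∘ I) (σ ∘ J) M₀)
        (fun k => lead2 (W k) (ρ ∘ I) (σ ∘ J) (M k)) (fun _ => (1 : F))
      have e3 : P.tot.submatrix I J = lead2 0 (ρ ∘ I) (σ ∘ J) M₀ +
          ∑ k, (1 : F) • lead2 (W k) (ρ ∘ I) (σ ∘ J) (M k) := by
        ext i j
        rw [Matrix.submatrix_apply, P.tot_apply, Matrix.add_apply, Matrix.sum_apply, hP₀]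
        congr 1
        refine Finset.sum_congr rfl fun k _ => ?_
        rw [one_smul, hPk]
        rfl
      rw [e3, ← e2]
      rfl
    rw [hgN, RingHom.map_det]
    have e4 : (RingHom.mapMatrix (eval fun _ => (1 : F))) (symb (lead2 0 (ρ ∘ I) (σ ∘ J) M₀)
        (fun k => lead2 (W k) (ρ ∘ I) (σ ∘ J) (M k))) = P.tot.submatrix I J := e1
    rw [e4]
    exact hIJ
  set μ : ℤ := -(∑ i, (ρ ∘ I) i + ∑ j, (σ ∘ J) j) with hμ
  have hcoef : ∀ d, coeff d gN = if wt W d = μ then coeff d g else 0 := by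
    intro d
    rw [hgN, coeff_lead2 M₀ M W (ρ ∘ I) (σ ∘ J) f0 f1 d]
    by_cases h : wt W d = μ
    · rw [if_pos h, if_pos (by rw [h, hμ]; ring)]
    · rw [if_neg h, if_neg (fun h' => h (by rw [hμ]; linarith))]
  have hsum : ∑ d ∈ g.support, (if wt W d = μ then coeff d g else 0) ≠ 0 := by
    intro h0
    apply hev
    rw [eval_eq', ← h0]
    have hsub : gN.support ⊆ g.support := by
      intro d hd
      rw [MvPolynomial.mem_support_iff, hcoef] at hd
      rw [MvPolynomial.mem_support_iff]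
      split_ifs at hd with h
      · exact hd
      · exact absurd rfl hd
    rw [Finset.sum_subset hsub (fun d _ hd => by
      rw [MvPolynomial.notMem_support_iff.mp hd, zero_mul])]
    refine Finset.sum_congr rfl fun d _ => ?_
    rw [hcoef]
    simp
  obtain ⟨t, ht, hevt⟩ := exists_point2 g W (dig p N b) n (N ^ s - 1) hcomp hdeg μ hsum
    (fun d hd => Nat.le_sub_one_of_lt (nw_dig_lt hp hN d (hdeg d hd) s b))
  have hNs : 0 < N ^ s := Nat.pow_pos (by omega)
  refine ⟨t, by omega, ?_⟩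
  rw [hr]
  have e5 : eval (fun k => ((t ^ dig p N b k : ℕ) : F)) g =
      ((S * (A₀ + ∑ k : Fin m, ((t ^ dig p N b k : ℕ) : F) • A k) * T).submatrix I J).det := by
    rw [hg, RingHom.map_det]
    congr 1
    rw [RingHom.mapMatrix_apply, eval_symb]
    ext i j
    rw [Matrix.mul_add, Matrix.add_mul, Matrix.mul_sum, Matrix.sum_mul, Matrix.submatrix_apply,
      Matrix.add_apply, Matrix.sum_apply, Matrix.add_apply, Matrix.sum_apply]
    congr 1
    refine Finset.sum_congr rfl fun k _ => ?_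
    rw [Matrix.mul_smul, Matrix.smul_mul]
    rfl
  rw [e5] at hevt
  have h6 := Matrix.rank_of_det_ne_zero hevt
  rw [Fintype.card_fin] at h6
  rw [← h6]
  exact (Matrix.rank_submatrix_le _ _ _).trans
    ((Matrix.rank_mul_le_left _ _).trans (Matrix.rank_mul_le_right _ _))

end

end Pool.Agent.Lib.MP_64d474_lc
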