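import Mathlib
import Pool.Agent.Lib.MP_64d474_lc.RankTools

/-!
The rank form of the min-max theorem, obtained from the nonsingularity form by bordering.
-/

open Matrix MvPolynomial Module

namespace Pool.Agent.Lib.MP_64d474_lc

variable {F : Type*} [Field F]

/-- `M` in the upper left corner, zeros elsewhere -/
def corner {n t : ℕ} (M : Matrix (Fin n) (Fin n) F) :
    Matrix (Fin n ⊕ Fin t) (Fin n ⊕ Fin t) F :=
  fromBlocks M 0 0 0

theorem corner_isSymm {n t : ℕ} (M : Matrix (Fin n) (Fin n) F) (hM : M.IsSymm) :
    (corner M : Matrix (Fin n ⊕ Fin t) (Fin n ⊕ Fin t) F).IsSymm := by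
  unfold Matrix.IsSymm corner
  rw [fromBlocks_transpose, hM.eq]
  simp

theorem corner_mulVec_inl {n t : ℕ} (M : Matrix (Fin n) (Fin n) F) (u : Fin n ⊕ Fin t → F)
    (a : Fin n) : ((corner M) *ᵥ u) (Sum.inl a) = (M *ᵥ (fun i => u (Sum.inl i))) a := by
  simp [corner, mulVec, dotProduct, Fintype.sum_sum_type]

theorem corner_mulVec_inr {n t : ℕ} (M : Matrix (Fin n) (Fin n) F) (u : Fin n ⊕ Fin t → F)
    (a : Fin t) : ((corner M) *ᵥ u) (Sum.inr a) = 0 := by
  simp [corner, mulVec, dotProduct, Fintype.sum_sum_type]

theorem corner_witt {n t : ℕ} (M : Matrix (Fin n) (Fin n) F) (hM : WittLeOne M) :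
    WittLeOne (corner M : Matrix (Fin n ⊕ Fin t) (Fin n ⊕ Fin t) F) := by
  have key : ∀ x y : Fin n ⊕ Fin t → F,
      x ⬝ᵥ (corner M) *ᵥ y = (fun i => x (Sum.inl i)) ⬝ᵥ M *ᵥ (fun i => y (Sum.inl i)) := by
    intro x y
    rw [dotProduct, Fintype.sum_sum_type]
    simp only [corner_mulVec_inl, corner_mulVec_inr, mul_zero, Finset.sum_const_zero, add_zero]
    rfl
  intro u v h1 h2 h3 a b
  rw [key] at h1 h2 h3
  rcases a with a | a <;> rcases b with b | b <;>
    simp only [corner_mulVec_inl, corner_mulVec_inr, mul_zero, zero_mul]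
  exact hM _ _ h1 h2 h3 a b

/-- the hyperbolic plane `e_i f_jᵀ + f_j e_iᵀ` -/
def hyp {n t : ℕ} (i : Fin n) (j : Fin t) : Matrix (Fin n ⊕ Fin t) (Fin n ⊕ Fin t) F :=
  fromBlocks 0 (Matrix.single i j 1) (Matrix.single j i 1) 0

theorem hyp_isSymm {n t : ℕ} (i : Fin n) (j : Fin t) :
    (hyp i j : Matrix (Fin n ⊕ Fin t) (Fin n ⊕ Fin t) F).IsSymm := by
  unfold Matrix.IsSymm hyp
  rw [fromBlocks_transpose]
  simp

theorem hyp_mulVec {n t : ℕ} (i : Fin n) (j : Fin t) (u : Fin n ⊕ Fin t → F) :
    (hyp i j : Matrix (Fin n ⊕ Fin t) (Fin n ⊕ Fin t) F) *ᵥ u =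
      u (Sum.inr j) • Pi.single (Sum.inl i) 1 + u (Sum.inl i) • Pi.single (Sum.inr j) 1 := by
  funext a
  rcases a with a | a
  · simp only [hyp, mulVec, dotProduct, Fintype.sum_sum_type, fromBlocks_apply₁₁,
      fromBlocks_apply₁₂, Matrix.zero_apply, zero_mul, Finset.sum_const_zero, zero_add,
      Pi.add_apply, Pi.smul_apply, smul_eq_mul]
    rw [Finset.sum_eq_single j]
    · by_cases h : a = i
      · subst h; simp
      · simp [h, Ne.symm h]
    · intro b _ hb
      simp [Ne.symm hb]
    · simp
  · simp only [hyp, mulVec, dotProduct, Fintype.sum_sum_type, fromBlocks_apply₂₁,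
      fromBlocks_apply₂₂, Matrix.zero_apply, zero_mul, Finset.sum_const_zero, add_zero,
      Pi.add_apply, Pi.smul_apply, smul_eq_mul]
    rw [Finset.sum_eq_single i]
    · by_cases h : a = j
      · subst h; simp
      · simp [h, Ne.symm h]
    · intro b _ hb
      simp [Ne.symm hb]
    · simp

theorem hyp_witt [CharZero F] {n t : ℕ} (i : Fin n) (j : Fin t) :
    WittLeOne (hyp i j : Matrix (Fin n ⊕ Fin t) (Fin n ⊕ Fin t) F) := by
  intro u v h1 h2 h3 a b
  have key : ∀ x y : Fin n ⊕ Fin t → F,
      x ⬝ᵥ (hyp i j : Matrix (Fin n ⊕ Fin t) (Fin n ⊕ Fin t) F) *ᵥ y =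
        x (Sum.inl i) * y (Sum.inr j) + x (Sum.inr j) * y (Sum.inl i) := by
    intro x y
    rw [hyp_mulVec]
    simp only [dotProduct_add, dotProduct_smul, dotProduct_single, mul_one, smul_eq_mul]
    ring
  rw [key] at h1 h2 h3
  have hdet : u (Sum.inr j) * v (Sum.inl i) = u (Sum.inl i) * v (Sum.inr j) := by
    have e1 : u (Sum.inl i) * u (Sum.inr j) = 0 := by
      have : (2 : F) * (u (Sum.inl i) * u (Sum.inr j)) = 0 := by linear_combination h1
      exact (mul_eq_zero.mp this).resolve_left two_ne_zero
    rcases mul_eq_zero.mp e1 with h | h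
    · rw [h] at h2 ⊢
      linear_combination h2
    · rw [h] at h2 ⊢
      linear_combination -h2
  rw [hyp_mulVec, hyp_mulVec]
  simp only [Pi.add_apply, Pi.smul_apply, smul_eq_mul]
  linear_combination ((Pi.single (Sum.inl i) 1 : Fin n ⊕ Fin t → F) a *
    (Pi.single (Sum.inr j) 1 : Fin n ⊕ Fin t → F) b -
    (Pi.single (Sum.inl i) 1 : Fin n ⊕ Fin t → F) b *
    (Pi.single (Sum.inr j) 1 : Fin n ⊕ Fin t → F) a) * hdet

/-- Nonsingularity form: if the symbolic matrix is singular there is a shrunk subspace. -/
theorem exists_shrunk_of_det [CharZero F] {ι κ : Type*} [Fintype ι] [DecidableEq ι] [Fintype κ]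
    [DecidableEq κ] (B₀ : Matrix ι ι F) (B : κ → Matrix ι ι F)
    (h₀ : B₀.IsSymm) (hB : ∀ k, (B k).IsSymm) (hW : ∀ k, WittLeOne (B k))
    (hdet : ∀ c : κ → F, (B₀ + ∑ k, c k • B k).det = 0) :
    ∃ U : Submodule F (ι → F), finrank F (imageSum B₀ B U) < finrank F U := by
  have h1 : (symb B₀ B).det = 0 := by
    refine MvPolynomial.funext fun c => ?_
    rw [RingHom.map_det, RingHom.mapMatrix_apply, eval_symb, hdet c, map_zero]
  obtain ⟨q, hq, hAq⟩ := Matrix.exists_mulVec_eq_zero_iff.mpr h1
  exact ⟨_, exists_shrunk B₀ B h₀ hB hW q hq hAq⟩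

/-- Rank form. -/
theorem exists_rank_point [CharZero F] {n : ℕ} {κ : Type*} [Fintype κ] [DecidableEq κ]
    (B₀ : Matrix (Fin n) (Fin n) F) (B : κ → Matrix (Fin n) (Fin n) F)
    (h₀ : B₀.IsSymm) (hB : ∀ k, (B k).IsSymm) (hW : ∀ k, WittLeOne (B k)) (r : ℕ)
    (hU : ∀ U : Submodule F (Fin n → F), r + finrank F U ≤ n + finrank F (imageSum B₀ B U)) :
    ∃ c : κ → F, r ≤ (B₀ + ∑ k, c k • B k).rank := by
  classical
  have hrn : r ≤ n := by
    have := hU ⊥
    have hb : imageSum B₀ B (⊥ : Submodule F (Fin n → F)) = ⊥ := by simp [imageSum]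
    rw [hb, finrank_bot] at this
    omega
  obtain ⟨t, ht⟩ : ∃ t, t = n - r := ⟨_, rfl⟩
  let B₀' : Matrix (Fin n ⊕ Fin t) (Fin n ⊕ Fin t) F := corner B₀
  let B' : κ ⊕ (Fin n × Fin t) → Matrix (Fin n ⊕ Fin t) (Fin n ⊕ Fin t) F :=
    Sum.elim (fun k => corner (B k)) (fun p => hyp p.1 p.2)
  have h₀' : B₀'.IsSymm := corner_isSymm _ h₀
  have hB' : ∀ k, (B' k).IsSymm := by
    rintro (k | p)
    · exact corner_isSymm _ (hB k)
    · exact hyp_isSymm _ _
  have hW' : ∀ k, WittLeOne (B' k) := by
    rintro (k | p)
    · exact corner_witt _ (hW k)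
    · exact hyp_witt _ _
  by_cases hdet : ∀ c : κ ⊕ (Fin n × Fin t) → F, (B₀' + ∑ k, c k • B' k).det = 0
  · exfalso
    obtain ⟨U', hU'⟩ := exists_shrunk_of_det B₀' B' h₀' hB' hW' hdet
    -- the coordinate inclusions
    let inl : (Fin n → F) →ₗ[F] (Fin n ⊕ Fin t → F) :=
      { toFun := fun x => Sum.elim x 0
        map_add' := by intro x y; funext a; rcases a with a | a <;> simp
        map_smul' := by intro c x; funext a; rcases a with a | a <;> simp }
    let inr : (Fin t → F) →ₗ[F] (Fin n ⊕ Fin t → F) :=
      { toFun := fun x => Sum.elim 0 x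
        map_add' := by intro x y; funext a; rcases a with a | a <;> simp
        map_smul' := by intro c x; funext a; rcases a with a | a <;> simp }
    have hinl_inj : Function.Injective inl := by
      intro x y hxy
      funext a
      simpa [inl] using congrFun hxy (Sum.inl a)
    have hinr_inj : Function.Injective inr := by
      intro x y hxy
      funext a
      simpa [inr] using congrFun hxy (Sum.inr a)
    have hmemhyp : ∀ u ∈ U', ∀ (i : Fin n) (j : Fin t),
        u (Sum.inr j) • (Pi.single (Sum.inl i) 1 : Fin n ⊕ Fin t → F) +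
          u (Sum.inl i) • Pi.single (Sum.inr j) 1 ∈ imageSum B₀' B' U' := by
      intro u hu i j
      have h1 : (hyp i j : Matrix (Fin n ⊕ Fin t) (Fin n ⊕ Fin t) F) *ᵥ u ∈
          U'.map (B' (Sum.inr (i, j))).mulVecLin := ⟨u, hu, rfl⟩
      rw [hyp_mulVec] at h1
      exact Submodule.mem_sup_right (Submodule.mem_iSup_of_mem (Sum.inr (i, j)) h1)
    have hcard : finrank F (Fin n ⊕ Fin t → F) = n + t := by
      rw [Module.finrank_pi, Fintype.card_sum, Fintype.card_fin, Fintype.card_fin]
    -- range of inl / inr
    have hinl_single : ∀ S : Submodule F (Fin n ⊕ Fin t → F),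
        (∀ i : Fin n, (Pi.single (Sum.inl i) 1 : Fin n ⊕ Fin t → F) ∈ S) →
        LinearMap.range inl ≤ S := by
      rintro S hS _ ⟨x, rfl⟩
      have : inl x = ∑ i, x i • (Pi.single (Sum.inl i) 1 : Fin n ⊕ Fin t → F) := by
        funext a
        rcases a with a | a
        · simp [inl, Finset.sum_apply, Pi.single_apply]
        · simp [inl, Finset.sum_apply]
      rw [this]
      exact Submodule.sum_mem _ fun i _ => Submodule.smul_mem _ _ (hS i)
    have hinr_single : ∀ S : Submodule F (Fin n ⊕ Fin t → F),
        (∀ j : Fin t, (Pi.single (Sum.inr j) 1 : Fin n ⊕ Fin t → F) ∈ S) →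
        LinearMap.range inr ≤ S := by
      rintro S hS _ ⟨x, rfl⟩
      have : inr x = ∑ j, x j • (Pi.single (Sum.inr j) 1 : Fin n ⊕ Fin t → F) := by
        funext a
        rcases a with a | a
        · simp [inr, Finset.sum_apply]
        · simp [inr, Finset.sum_apply, Pi.single_apply]
      rw [this]
      exact Submodule.sum_mem _ fun i _ => Submodule.smul_mem _ _ (hS i)
    by_cases hw : ∀ u ∈ U', ∀ j : Fin t, u (Sum.inr j) = 0
    · -- U' lives in the first block
      let U : Submodule F (Fin n → F) := U'.comap inl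
      have hUU' : U.map inl = U' := by
        apply le_antisymm
        · exact Submodule.map_comap_le _ _
        · intro u hu
          refine ⟨fun i => u (Sum.inl i), ?_, ?_⟩
          · change inl (fun i => u (Sum.inl i)) ∈ U'
            have : inl (fun i => u (Sum.inl i)) = u := by
              funext a
              rcases a with a | a
              · simp [inl]
              · simp [inl, hw u hu a]
            rw [this]; exact hu
          · funext a
            rcases a with a | a
            · simp [inl]
            · simp [inl, hw u hu a]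
      have hfU : finrank F U' = finrank F U := by
        conv_lhs => rw [← hUU']
        exact (LinearEquiv.finrank_eq (Submodule.equivMapOfInjective inl hinl_inj U)).symm
      have hne : ∃ u ∈ U', u ≠ 0 := by
        by_contra hcon
        push Not at hcon
        have : U' = ⊥ := by
          rw [eq_bot_iff]
          intro u hu
          exact (Submodule.mem_bot F).mpr (hcon u hu)
        rw [this, finrank_bot] at hU'
        omega
      obtain ⟨u, hu, hune⟩ := hne
      obtain ⟨i, hi⟩ : ∃ i : Fin n, u (Sum.inl i) ≠ 0 := by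
        by_contra hcon
        push Not at hcon
        apply hune
        funext a
        rcases a with a | a
        · exact hcon a
        · exact hw u hu a
      have hR : LinearMap.range inr ≤ imageSum B₀' B' U' := by
        apply hinr_single
        intro j
        have h1 := hmemhyp u hu i j
        rw [hw u hu j, zero_smul, zero_add] at h1
        have h2 := Submodule.smul_mem _ (u (Sum.inl i))⁻¹ h1
        rwa [smul_smul, inv_mul_cancel₀ hi, one_smul] at h2
      have hL : (imageSum B₀ B U).map inl ≤ imageSum B₀' B' U' := by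
        have hcor : ∀ M : Matrix (Fin n) (Fin n) F, ∀ x : Fin n → F,
            (corner M : Matrix (Fin n ⊕ Fin t) (Fin n ⊕ Fin t) F) *ᵥ (inl x) = inl (M *ᵥ x) := by
          intro M x
          funext a
          rcases a with a | a
          · rw [corner_mulVec_inl]; rfl
          · rw [corner_mulVec_inr]; rfl
        rw [imageSum, Submodule.map_sup, Submodule.map_iSup]
        refine sup_le ?_ (iSup_le fun k => ?_)
        · rintro _ ⟨_, ⟨x, hx, rfl⟩, rfl⟩
          refine Submodule.mem_sup_left ⟨inl x, hx, ?_⟩
          exact hcor B₀ x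
        · rintro _ ⟨_, ⟨x, hx, rfl⟩, rfl⟩
          refine Submodule.mem_sup_right (Submodule.mem_iSup_of_mem (Sum.inl k) ⟨inl x, hx, ?_⟩)
          exact hcor (B k) x
      have hdisj : (imageSum B₀ B U).map inl ⊓ LinearMap.range inr = ⊥ := by
        rw [eq_bot_iff]
        rintro z ⟨⟨x, _, hx⟩, ⟨y, hy⟩⟩
        rw [Submodule.mem_bot]
        funext a
        rcases a with a | a
        · have := congrFun hy (Sum.inl a)
          simpa [inr] using this.symm
        · have := congrFun hx (Sum.inr a)
          simpa [inl] using this.symm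
      have hsum := Submodule.finrank_sup_add_finrank_inf_eq ((imageSum B₀ B U).map inl)
        (LinearMap.range inr)
      rw [hdisj, finrank_bot, add_zero] at hsum
      have h1 : finrank F ((imageSum B₀ B U).map inl) = finrank F (imageSum B₀ B U) :=
        (LinearEquiv.finrank_eq (Submodule.equivMapOfInjective inl hinl_inj _)).symm
      have h2 : finrank F (LinearMap.range inr) = t := by
        rw [LinearMap.finrank_range_of_inj hinr_inj, Module.finrank_pi, Fintype.card_fin]
      have h3 : finrank F ((imageSum B₀ B U).map inl ⊔ LinearMap.range inr : Submodule F _) ≤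
          finrank F (imageSum B₀' B' U') := Submodule.finrank_mono (sup_le hL hR)
      have h4 := hU U
      omega
    · push Not at hw
      obtain ⟨u₁, hu₁, j₀, hj₀⟩ := hw
      by_cases hx : ∀ u ∈ U', ∀ i : Fin n, u (Sum.inl i) = 0
      · have hR : LinearMap.range inl ≤ imageSum B₀' B' U' := by
          apply hinl_single
          intro i
          have h1 := hmemhyp u₁ hu₁ i j₀
          rw [hx u₁ hu₁ i, zero_smul, add_zero] at h1
          have h2 := Submodule.smul_mem _ (u₁ (Sum.inr j₀))⁻¹ h1
          rwa [smul_smul, inv_mul_cancel₀ hj₀, one_smul] at h2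
        have hU'le : U' ≤ LinearMap.range inr := by
          intro u hu
          refine ⟨fun j => u (Sum.inr j), ?_⟩
          funext a
          rcases a with a | a
          · simp [inr, hx u hu a]
          · simp [inr]
        have h1 : finrank F (LinearMap.range inr) = t := by
          rw [LinearMap.finrank_range_of_inj hinr_inj, Module.finrank_pi, Fintype.card_fin]
        have h2 : finrank F (LinearMap.range inl) = n := by
          rw [LinearMap.finrank_range_of_inj hinl_inj, Module.finrank_pi, Fintype.card_fin]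
        have h3 := Submodule.finrank_mono hU'le
        have h4 := Submodule.finrank_mono hR
        omega
      · push Not at hx
        obtain ⟨u₂, hu₂, i₀, hi₀⟩ := hx
        obtain ⟨u, hu, hui, huj⟩ : ∃ u ∈ U', u (Sum.inl i₀) ≠ 0 ∧ u (Sum.inr j₀) ≠ 0 := by
          by_cases h1 : u₁ (Sum.inl i₀) = 0
          · by_cases h2 : u₂ (Sum.inr j₀) = 0
            · refine ⟨u₁ + u₂, U'.add_mem hu₁ hu₂, ?_, ?_⟩
              · simpa [h1] using hi₀
              · simpa [h2] using hj₀
            · exact ⟨u₂, hu₂, hi₀, h2⟩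
          · exact ⟨u₁, hu₁, h1, hj₀⟩
        -- codimension at most one
        set S := imageSum B₀' B' U' ⊔ Submodule.span F {(Pi.single (Sum.inl i₀) 1 :
          Fin n ⊕ Fin t → F)} with hS
        have hi₀S : (Pi.single (Sum.inl i₀) 1 : Fin n ⊕ Fin t → F) ∈ S :=
          Submodule.mem_sup_right (Submodule.mem_span_singleton_self _)
        have hfS : ∀ j, (Pi.single (Sum.inr j) 1 : Fin n ⊕ Fin t → F) ∈ S := by
          intro j
          have h1 : u (Sum.inr j) • (Pi.single (Sum.inl i₀) 1 : Fin n ⊕ Fin t → F) +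
              u (Sum.inl i₀) • Pi.single (Sum.inr j) 1 ∈ S :=
            Submodule.mem_sup_left (hmemhyp u hu i₀ j)
          have h2 : u (Sum.inl i₀) • (Pi.single (Sum.inr j) 1 : Fin n ⊕ Fin t → F) ∈ S := by
            have := S.sub_mem h1 (S.smul_mem (u (Sum.inr j)) hi₀S)
            simpa using this
          have h3 := S.smul_mem (u (Sum.inl i₀))⁻¹ h2
          rwa [smul_smul, inv_mul_cancel₀ hui, one_smul] at h3
        have heS : ∀ i, (Pi.single (Sum.inl i) 1 : Fin n ⊕ Fin t → F) ∈ S := by
          intro i
          have h1 : u (Sum.inr j₀) • (Pi.single (Sum.inl i) 1 : Fin n ⊕ Fin t → F) +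
              u (Sum.inl i) • Pi.single (Sum.inr j₀) 1 ∈ S :=
            Submodule.mem_sup_left (hmemhyp u hu i j₀)
          have h2 : u (Sum.inr j₀) • (Pi.single (Sum.inl i) 1 : Fin n ⊕ Fin t → F) ∈ S := by
            have := S.sub_mem h1 (S.smul_mem (u (Sum.inl i)) (hfS j₀))
            simpa using this
          have h3 := S.smul_mem (u (Sum.inr j₀))⁻¹ h2
          rwa [smul_smul, inv_mul_cancel₀ huj, one_smul] at h3
        have htop : ∀ T : Submodule F (Fin n ⊕ Fin t → F),
            (∀ i, (Pi.single (Sum.inl i) 1 : Fin n ⊕ Fin t → F) ∈ T) →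
            (∀ j, (Pi.single (Sum.inr j) 1 : Fin n ⊕ Fin t → F) ∈ T) → T = ⊤ := by
          intro T h1 h2
          rw [eq_top_iff]
          intro x _
          have : x = inl (fun i => x (Sum.inl i)) + inr (fun j => x (Sum.inr j)) := by
            funext a
            rcases a with a | a <;> simp [inl, inr]
          rw [this]
          exact T.add_mem (hinl_single T h1 ⟨_, rfl⟩) (hinr_single T h2 ⟨_, rfl⟩)
        have hStop : S = ⊤ := htop S heS hfS
        have h1 : finrank F S ≤ finrank F (imageSum B₀' B' U') + 1 := by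
          refine (Submodule.finrank_add_le_finrank_add_finrank _ _).trans ?_
          have hne : (Pi.single (Sum.inl i₀) 1 : Fin n ⊕ Fin t → F) ≠ 0 := by
            intro h0
            have := congrFun h0 (Sum.inl i₀)
            simp at this
          rw [finrank_span_singleton hne]
        rw [hStop, finrank_top, hcard] at h1
        have h2 : finrank F U' ≤ n + t := by
          rw [← hcard]; exact Submodule.finrank_le _
        have hU'top : U' = ⊤ := by
          apply Submodule.eq_top_of_finrank_eq
          rw [hcard]; omega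
        have hWtop : imageSum B₀' B' U' = ⊤ := by
          apply htop
          · intro i
            have h3 := hmemhyp (Pi.single (Sum.inr j₀) 1) (by rw [hU'top]; trivial) i j₀
            simpa using h3
          · intro j
            have h3 := hmemhyp (Pi.single (Sum.inl i₀) 1) (by rw [hU'top]; trivial) i₀ j
            simpa using h3
        rw [hWtop, hU'top] at hU'
        exact lt_irrefl _ hU'
  · push Not at hdet
    obtain ⟨c, hc⟩ := hdet
    refine ⟨fun k => c (Sum.inl k), ?_⟩
    by_contra hcon
    push Not at hcon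
    set A : Matrix (Fin n) (Fin n) F := B₀ + ∑ k, c (Sum.inl k) • B k with hA
    let g : (Fin n → F) →ₗ[F] (Fin t → F) :=
      (Matrix.of fun (j : Fin t) (i : Fin n) => c (Sum.inr (i, j))).mulVecLin
    have h1 : finrank F (LinearMap.range A.mulVecLin) + finrank F (LinearMap.ker A.mulVecLin) =
        finrank F (Fin n → F) := LinearMap.finrank_range_add_finrank_ker _
    rw [Module.finrank_pi, Fintype.card_fin] at h1
    have h2 : A.rank = finrank F (LinearMap.range A.mulVecLin) := rfl
    have h3 : t < finrank F (LinearMap.ker A.mulVecLin) := by omega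
    have h4 : ¬ Function.Injective (g ∘ₗ (LinearMap.ker A.mulVecLin).subtype) := by
      intro hinj
      have := LinearMap.finrank_le_finrank_of_injective hinj
      rw [Module.finrank_pi, Fintype.card_fin] at this
      omega
    rw [injective_iff_map_eq_zero] at h4
    push Not at h4
    obtain ⟨⟨x, hxk⟩, hgx, hxne⟩ := h4
    have hgx' : ∀ j, ∑ i, c (Sum.inr (i, j)) * x i = 0 := by
      intro j
      have := congrFun hgx j
      simpa [g, mulVec, dotProduct] using this
    have hAx : A *ᵥ x = 0 := hxk
    apply hc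
    rw [← Matrix.exists_mulVec_eq_zero_iff]
    refine ⟨Sum.elim x 0, ?_, ?_⟩
    · intro h0
      apply hxne
      apply Subtype.ext
      funext i
      simpa using congrFun h0 (Sum.inl i)
    · rw [Fintype.sum_sum_type, Matrix.add_mulVec, Matrix.add_mulVec]
      simp only [B', Sum.elim_inl, Sum.elim_inr, Matrix.sum_mulVec, Matrix.smul_mulVec, B₀']
      funext a
      rcases a with a | a
      · simp only [Pi.add_apply, Finset.sum_apply, Pi.smul_apply, corner_mulVec_inl, smul_eq_mul,
          hyp_mulVec, Sum.elim_inl, Sum.elim_inr, Pi.zero_apply, zero_mul, zero_add]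
        have h5 := congrFun hAx a
        rw [hA, Matrix.add_mulVec, Matrix.sum_mulVec] at h5
        simp only [Pi.add_apply, Finset.sum_apply, Matrix.smul_mulVec, Pi.smul_apply,
          smul_eq_mul, Pi.zero_apply] at h5
        have h6 : ∑ p : Fin n × Fin t, c (Sum.inr p) * (x p.1 *
            (Pi.single (Sum.inr p.2) 1 : Fin n ⊕ Fin t → F) (Sum.inl a)) = 0 := by
          refine Finset.sum_eq_zero fun p _ => ?_
          simp
        rw [h6, add_zero]
        exact h5
      · simp only [Pi.add_apply, Finset.sum_apply, Pi.smul_apply, corner_mulVec_inr, smul_eq_mul,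
          hyp_mulVec, Sum.elim_inl, Sum.elim_inr, Pi.zero_apply, zero_mul, zero_add, mul_zero,
          Finset.sum_const_zero]
        rw [Fintype.sum_prod_type]
        have h6 := hgx' a
        rw [← h6]
        refine Finset.sum_congr rfl fun i _ => ?_
        rw [Finset.sum_eq_single a]
        · simp
        · intro b _ hb
          simp [Ne.symm hb]
        · simp

end Pool.Agent.Lib.MP_64d474_lc
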