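import Mathlib
import Pool.Agent.Lib.MP_64d474_lc.XnStage

/-!
The associated graded space of a subspace with respect to a filtration by potentials.
-/

open Matrix Module

set_option linter.unusedSectionVars false

namespace Pool.Agent.Lib.MP_64d474_lc

section

variable {F : Type*} [Field F] {ι κ : Type*} [Fintype ι] [DecidableEq ι] [Fintype κ]
  [DecidableEq κ]

/-- the component in degree `c` of the graded space of `N` -/
def gpc (θ : ι → ℤ) (N : Submodule F (ι → F)) (c : ℤ) : Submodule F (ι → F) :=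
  (Fil F θ c ⊓ N).map (blkL θ c)

theorem gpc_le (θ : ι → ℤ) (N : Submodule F (ι → F)) (c : ℤ) : gpc θ N c ≤ bsp F θ c := by
  rintro _ ⟨x, -, rfl⟩ j hj
  show blk θ c x j = 0
  rw [blk, if_neg hj]

theorem gpc_mono (θ : ι → ℤ) {N N' : Submodule F (ι → F)} (h : N ≤ N') (c : ℤ) :
    gpc θ N c ≤ gpc θ N' c :=
  Submodule.map_mono (inf_le_inf_left _ h)

theorem finrank_gpc (θ : ι → ℤ) (N : Submodule F (ι → F)) (c : ℤ) :
    (finrank F (gpc θ N c) : ℤ) = (finrank F (Fil F θ c ⊓ N : Submodule F (ι → F)) : ℤ) -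
      finrank F (Fil F θ (c - 1) ⊓ N : Submodule F (ι → F)) := by
  set L : Submodule F (ι → F) := Fil F θ c ⊓ N with hL
  have h1 := LinearMap.finrank_range_add_finrank_ker ((blkL (F := F) θ c).domRestrict L)
  have h2 : LinearMap.range ((blkL (F := F) θ c).domRestrict L) = gpc θ N c := by
    rw [LinearMap.range_domRestrict]
    rfl
  have h3 : finrank F (LinearMap.ker ((blkL (F := F) θ c).domRestrict L)) =
      finrank F (Fil F θ (c - 1) ⊓ N : Submodule F (ι → F)) := by
    have h4 : (LinearMap.ker ((blkL (F := F) θ c).domRestrict L)).map L.subtype =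
        Fil F θ (c - 1) ⊓ N := by
      ext x
      constructor
      · rintro ⟨⟨y, hy⟩, hk, rfl⟩
        have hk' : blk θ c y = 0 := hk
        refine ⟨fun j hj => ?_, hy.2⟩
        show y j = 0
        by_cases hjc : θ j = c
        · have := congrFun hk' j
          rw [blk, if_pos hjc] at this
          exact this
        · exact hy.1 j (by omega)
      · rintro ⟨hx1, hx2⟩
        have hx : x ∈ L := ⟨fun j hj => hx1 j (by omega), hx2⟩
        refine ⟨⟨x, hx⟩, ?_, rfl⟩
        show blk θ c x = 0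
        funext j
        rw [blk]
        split_ifs with hj
        · exact hx1 j (by omega)
        · rfl
    rw [← h4, Submodule.finrank_map_subtype_eq]
  rw [h2, h3] at h1
  omega

theorem Fil_eq_bot (θ : ι → ℤ) (R c : ℤ) (hθ : ∀ j, -R ≤ θ j) (hc : c < -R) :
    Fil F θ c = ⊥ := by
  rw [eq_bot_iff]
  intro x hx
  rw [Submodule.mem_bot]
  funext j
  exact hx j (by have := hθ j; omega)

theorem Fil_eq_top (θ : ι → ℤ) (R c : ℤ) (hθ : ∀ j, θ j ≤ R) (hc : R ≤ c) :
    Fil F θ c = ⊤ := by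
  rw [eq_top_iff]
  intro x _ j hj
  have := hθ j
  omega

theorem Fil_mono (θ : ι → ℤ) {c d : ℤ} (h : c ≤ d) : Fil F θ c ≤ Fil F θ d :=
  fun _ hx j hj => hx j (by omega)

theorem sum_Fil (θ : ι → ℤ) (R : ℤ) (hθ : ∀ j, -R ≤ θ j ∧ θ j ≤ R) :
    ∑ c ∈ Finset.Ico (-R) (R + 1), (finrank F (Fil F θ c) : ℤ) =
      Fintype.card ι * (R + 1) - ∑ j, θ j := by
  have h7 : ∑ c ∈ Finset.Ico (-R) (R + 1), (finrank F (Fil F θ c) : ℤ) =
      ∑ j, (R + 1 - θ j) := by
    simp only [finrank_Fil]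
    rw [Finset.sum_comm]
    exact Finset.sum_congr rfl fun j _ => sum_count _ _ _ (hθ j).1 (by
      have := (hθ j).2
      omega)
  rw [h7]
  simp only [Finset.sum_sub_distrib, Finset.sum_const, Finset.card_univ, nsmul_eq_mul]

/-- the graded space of `N` -/
noncomputable def grS (θ : ι → ℤ) (R : ℤ) (N : Submodule F (ι → F)) : Submodule F (ι → F) :=
  (Finset.Ico (-R) (R + 1)).sup (gpc θ N)

theorem grS_mono (θ : ι → ℤ) (R : ℤ) {N N' : Submodule F (ι → F)} (h : N ≤ N') :
    grS θ R N ≤ grS θ R N' :=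
  Finset.sup_mono_fun fun c _ => gpc_mono θ h c

theorem gpc_le_grS (θ : ι → ℤ) (R : ℤ) (hθ : ∀ j, -R ≤ θ j ∧ θ j ≤ R) (N : Submodule F (ι → F))
    (c : ℤ) : gpc θ N c ≤ grS θ R N := by
  by_cases hc : c ∈ Finset.Ico (-R) (R + 1)
  · exact Finset.le_sup (f := gpc θ N) hc
  · rintro _ ⟨x, -, rfl⟩
    have : blkL (F := F) θ c x = 0 := by
      funext j
      show blk θ c x j = 0
      rw [blk, if_neg]
      rintro rfl
      apply hc
      rw [Finset.mem_Ico]
      have := hθ j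
      omega
    rw [this]
    exact Submodule.zero_mem _

theorem finrank_grS (θ : ι → ℤ) (R : ℤ) (hR : 0 ≤ R) (hθ : ∀ j, -R ≤ θ j ∧ θ j ≤ R)
    (N : Submodule F (ι → F)) : finrank F (grS θ R N) = finrank F N := by
  have h1 : (finrank F (grS θ R N) : ℤ) = finrank F N := by
    rw [grS, finrank_sup_bsp θ _ (gpc_le θ N)]
    push_cast
    rw [Finset.sum_congr rfl fun c _ => finrank_gpc θ N c,
      telescope (fun c => (finrank F (Fil F θ c ⊓ N : Submodule F (ι → F)) : ℤ)) (-R) (R + 1)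
        (by omega)]
    rw [Fil_eq_bot θ R (-R - 1) (fun j => (hθ j).1) (by omega),
      Fil_eq_top θ R (R + 1 - 1) (fun j => (hθ j).2) (by omega), bot_inf_eq, finrank_bot,
      top_inf_eq]
    simp
  exact_mod_cast h1

theorem grS_bot (θ : ι → ℤ) (R : ℤ) : grS θ R (⊥ : Submodule F (ι → F)) = ⊥ := by
  rw [grS, Finset.sup_eq_bot_iff]
  intro c _
  rw [gpc, inf_bot_eq, Submodule.map_bot]

theorem grS_top (θ : ι → ℤ) (R : ℤ) (hR : 0 ≤ R) (hθ : ∀ j, -R ≤ θ j ∧ θ j ≤ R) :
    grS θ R (⊤ : Submodule F (ι → F)) = ⊤ := by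
  apply Submodule.eq_top_of_finrank_eq
  rw [finrank_grS θ R hR hθ, finrank_top]

/-- leading parts map graded components into graded components -/
theorem lead2_gpc (M : Matrix ι ι F) (w : ℤ) (ρ σ : ι → ℤ)
    (hf : ∀ i j, M i j ≠ 0 → 0 ≤ w + ρ i + σ j) (N E : Submodule F (ι → F))
    (hNE : ∀ x ∈ N, M *ᵥ x ∈ E) (c : ℤ) (x : ι → F) (hx : x ∈ gpc σ N c) :
    lead2 w ρ σ M *ᵥ x ∈ gpc (fun i => -ρ i) E (c + w) := by
  obtain ⟨y, ⟨hy1, hy2⟩, rfl⟩ := hx
  show lead2 w ρ σ M *ᵥ (blk σ c y) ∈ _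
  refine ⟨M *ᵥ y, ⟨fun i hi => ?_, hNE y hy2⟩, ?_⟩
  · rw [mulVec, dotProduct]
    refine Finset.sum_eq_zero fun j _ => ?_
    by_cases hM : M i j = 0
    · rw [hM, zero_mul]
    · have h2 := hf i j hM
      have hi' : c + w < -ρ i := hi
      rw [hy1 j (by omega), mul_zero]
  · symm
    show lead2 w ρ σ M *ᵥ (blk σ c y) = blk (fun i => -ρ i) (c + w) (M *ᵥ y)
    funext i
    rw [blk, mulVec, mulVec, dotProduct, dotProduct]
    split_ifs with hi
    · refine Finset.sum_congr rfl fun j _ => ?_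
      rw [blk, lead2]
      by_cases hM : M i j = 0
      · rw [hM, ite_self, zero_mul, zero_mul]
      · have h1 := hf i j hM
        by_cases hj : σ j = c
        · rw [if_pos (by omega), if_pos hj]
        · rw [if_neg hj, mul_zero, hy1 j (by omega), mul_zero]
    · refine Finset.sum_eq_zero fun j _ => ?_
      rw [blk, lead2]
      by_cases hj : σ j = c
      · rw [if_neg (by omega), zero_mul]
      · rw [if_neg hj, mul_zero]

/-- leading parts map graded spaces into graded spaces -/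
theorem lead2_grS (M : Matrix ι ι F) (w : ℤ) (ρ σ : ι → ℤ)
    (hf : ∀ i j, M i j ≠ 0 → 0 ≤ w + ρ i + σ j) (R : ℤ) (hρ : ∀ i, -R ≤ ρ i ∧ ρ i ≤ R)
    (N E : Submodule F (ι → F))
    (hNE : ∀ x ∈ N, M *ᵥ x ∈ E) (x : ι → F) (hx : x ∈ grS σ R N) :
    lead2 w ρ σ M *ᵥ x ∈ grS (fun i => -ρ i) R E := by
  have hle : grS σ R N ≤ (grS (fun i => -ρ i) R E).comap (lead2 w ρ σ M).mulVecLin := by
    refine Finset.sup_le fun c _ y hy => ?_
    rw [Submodule.mem_comap]
    exact gpc_le_grS (fun i => -ρ i) R (fun i => by have := hρ i; constructor <;> linarith) E _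
      (lead2_gpc M w ρ σ hf N E hNE c y hy)
  exact hle hx

/-- the part of the graded spaces of the members of a filtration in relative position `d` -/
noncomputable def UG (θ : ι → ℤ) (R : ℤ) (N : ℤ → Submodule F (ι → F)) (d : ℤ) : Submodule F (ι → F) :=
  (Finset.Ico (-R) (R + 1)).sup fun c => gpc θ (N (c + d)) c

theorem lead2_UG (M : Matrix ι ι F) (w : ℤ) (ρ σ : ι → ℤ)
    (hf : ∀ i j, M i j ≠ 0 → 0 ≤ w + ρ i + σ j) (R : ℤ) (hρ : ∀ i, -R ≤ ρ i ∧ ρ i ≤ R)
    (N E : ℤ → Submodule F (ι → F)) (hNE : ∀ t, ∀ x ∈ N t, M *ᵥ x ∈ E (t + w)) (d : ℤ)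
    (x : ι → F) (hx : x ∈ UG σ R N d) :
    lead2 w ρ σ M *ᵥ x ∈ UG (fun i => -ρ i) R E d := by
  have hle : UG σ R N d ≤ (UG (fun i => -ρ i) R E d).comap (lead2 w ρ σ M).mulVecLin := by
    refine Finset.sup_le fun c _ y hy => ?_
    rw [Submodule.mem_comap]
    have h1 := lead2_gpc M w ρ σ hf (N (c + d)) (E (c + d + w)) (hNE (c + d)) c y hy
    have h0 : c + d + w = c + w + d := by ring
    rw [h0] at h1
    by_cases hr : c + w ∈ Finset.Ico (-R) (R + 1)
    · exact Finset.le_sup (f := fun c => gpc (fun i => -ρ i) (E (c + d)) c) hr h1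
    · have h2 : (lead2 w ρ σ M) *ᵥ y = 0 := by
        have h3 := gpc_le _ _ _ h1
        funext i
        refine h3 i ?_
        intro hi
        apply hr
        rw [Finset.mem_Ico]
        have := hρ i
        have hi' : -ρ i = c + w := hi
        omega
      rw [Matrix.mulVecLin_apply, h2]
      exact Submodule.zero_mem _
  exact hle hx

/-- the sum of the dimensions of the relative positions -/
theorem sum_UG (θ : ι → ℤ) (R : ℤ) (hR : 0 ≤ R) (hθ : ∀ j, -R ≤ θ j ∧ θ j ≤ R)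
    (N : ℤ → Submodule F (ι → F)) (hN0 : ∀ t, t < -R → N t = ⊥) (hN1 : ∀ t, R ≤ t → N t = ⊤) :
    ∑ d ∈ Finset.Ico (-(2 * R + 1)) (2 * R + 1), (finrank F (UG θ R N d) : ℤ) =
      ∑ t ∈ Finset.Ico (-R) (R + 1), (finrank F (N t) : ℤ) + Fintype.card ι * R +
        ∑ j, θ j := by
  set D := 2 * R + 1 with hD
  set m : ℤ → ℤ → ℤ := fun c e => finrank F (Fil F θ c ⊓ N e : Submodule F (ι → F)) with hm
  have hm0 : ∀ c e, e < -R → m c e = 0 := by
    intro c e he
    rw [hm]
    simp only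
    rw [hN0 e he, inf_bot_eq, finrank_bot]
    rfl
  have hm1 : ∀ c e, R ≤ e → m c e = finrank F (Fil F θ c) := by
    intro c e he
    rw [hm]
    simp only
    rw [hN1 e he, inf_top_eq]
  have hm2 : ∀ c e, c < -R → m c e = 0 := by
    intro c e he
    rw [hm]
    simp only
    rw [Fil_eq_bot θ R c (fun j => (hθ j).1) he, bot_inf_eq, finrank_bot]
    rfl
  have hm3 : ∀ e, m R e = finrank F (N e) := by
    intro e
    rw [hm]
    simp only
    rw [Fil_eq_top θ R R (fun j => (hθ j).2) le_rfl, top_inf_eq]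
  have h1 : ∀ d, (finrank F (UG θ R N d) : ℤ) =
      ∑ c ∈ Finset.Ico (-R) (R + 1), (m c (c + d) - m (c - 1) (c + d)) := by
    intro d
    rw [UG, finrank_sup_bsp θ _ (fun c => gpc_le θ (N (c + d)) c)]
    push_cast
    exact Finset.sum_congr rfl fun c _ => finrank_gpc θ (N (c + d)) c
  simp only [h1]
  rw [Finset.sum_comm]
  set A : ℤ → ℤ := fun c => ∑ d ∈ Finset.Ico (-D) D, m c (c + d) with hA
  set A' : ℤ → ℤ := fun c => ∑ d ∈ Finset.Ico (-D + 1) (D + 1), m c (c + d) with hA'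
  have h2 : ∀ c, ∑ d ∈ Finset.Ico (-D) D, (m c (c + d) - m (c - 1) (c + d)) =
      (A c - A' c) + (A' c - A' (c - 1)) := by
    intro c
    rw [Finset.sum_sub_distrib]
    have h3 : ∑ d ∈ Finset.Ico (-D) D, m (c - 1) (c + d) = A' (c - 1) := by
      have := Finset.sum_Ico_add' (fun d => m (c - 1) (c - 1 + d)) (-D) D 1
      rw [hA']
      simp only
      rw [← this]
      refine Finset.sum_congr rfl fun d _ => ?_
      congr 1
      ring
    rw [h3]
    ring
  simp only [h2]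
  rw [Finset.sum_add_distrib, telescope A' (-R) (R + 1) (by omega)]
  have h4 : ∀ c ∈ Finset.Ico (-R) (R + 1), A c - A' c = -(finrank F (Fil F θ c) : ℤ) := by
    intro c hc
    rw [Finset.mem_Ico] at hc
    have h5 := one_step (fun d => m c (c + d)) (-D) D (by omega)
    rw [hA, hA']
    simp only
    rw [h5, hm0 c _ (by omega), hm1 c _ (by omega)]
    ring
  rw [Finset.sum_congr rfl h4, Finset.sum_neg_distrib, sum_Fil θ R hθ]
  have h6 : A' (-R - 1) = 0 := by
    rw [hA']
    exact Finset.sum_eq_zero fun d _ => hm2 _ _ (by omega)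
  rw [h6, sub_zero, add_sub_cancel_right]
  have h8 : A' R = ∑ t ∈ Finset.Ico (-R) (R + 1), (finrank F (N t) : ℤ) +
      Fintype.card ι * (2 * R + 1) := by
    rw [hA']
    simp only [hm3]
    have h9 : ∑ d ∈ Finset.Ico (-D + 1) (D + 1), (finrank F (N (R + d)) : ℤ) =
        ∑ t ∈ Finset.Ico (-D + 1 + R) (D + 1 + R), (finrank F (N t) : ℤ) := by
      rw [← Finset.sum_Ico_add' (fun t => (finrank F (N t) : ℤ)) (-D + 1) (D + 1) R]
      exact Finset.sum_congr rfl fun d _ => by rw [add_comm R d]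
    rw [h9, ← Finset.Ico_union_Ico_eq_Ico (show -D + 1 + R ≤ R + 1 by omega)
      (show R + 1 ≤ D + 1 + R by omega),
      Finset.sum_union (Finset.Ico_disjoint_Ico_consecutive _ _ _)]
    have e1 : -D + 1 + R = -R := by omega
    rw [e1]
    congr 1
    have h10 : ∀ t ∈ Finset.Ico (R + 1) (D + 1 + R), (finrank F (N t) : ℤ) =
        Fintype.card ι := by
      intro t ht
      rw [Finset.mem_Ico] at ht
      rw [hN1 t (by omega), finrank_top, finrank_fintype_fun_eq_card]
    rw [Finset.sum_congr rfl h10, Finset.sum_const, Int.card_Ico, nsmul_eq_mul]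
    have e2 : D + 1 + R - (R + 1) = D := by ring
    rw [e2, hD]
    have e3 : ((2 * R + 1).toNat : ℤ) = 2 * R + 1 := Int.toNat_of_nonneg (by omega)
    rw [e3]
    ring
  rw [h8]
  ring

end

end Pool.Agent.Lib.MP_64d474_lc
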