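import Mathlib
import Pool.Agent.Lib.MP_64d474_lc.HnFil

/-!
Chains of subspaces for weighted tuples of matrices.
-/

open Matrix Module

set_option linter.unusedSectionVars false

namespace Pool.Agent.Lib.MP_64d474_lc

section

variable {F : Type*} [Field F] {ι κ : Type*} [Fintype ι] [DecidableEq ι] [Fintype κ]
  [DecidableEq κ]

/-- There are filtrations `N`, `E` of the space with `M k (N t) ≤ E (t + w k)` and value at
least `v`. -/
def HasChain {κ : Type*} (M : κ → Matrix ι ι F) (w : κ → ℤ) (v : ℤ) : Prop :=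
  ∃ (R : ℤ) (N E : ℤ → Submodule F (ι → F)), 0 ≤ R ∧ (∀ t, t < -R → N t = ⊥ ∧ E t = ⊥) ∧
    (∀ t, R ≤ t → N t = ⊤ ∧ E t = ⊤) ∧ (∀ k t, ∀ x ∈ N t, M k *ᵥ x ∈ E (t + w k)) ∧
    v ≤ ∑ t ∈ Finset.Ico (-R) (R + 1), ((finrank F (N t) : ℤ) - finrank F (E t))

/-- the range of a chain can be enlarged -/
theorem chain_enlarge (R R' : ℤ) (N E : ℤ → Submodule F (ι → F)) (hRR : R ≤ R')
    (h0 : ∀ t, t < -R → N t = ⊥ ∧ E t = ⊥) (h1 : ∀ t, R ≤ t → N t = ⊤ ∧ E t = ⊤) :
    ∑ t ∈ Finset.Ico (-R) (R + 1), ((finrank F (N t) : ℤ) - finrank F (E t)) =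
      ∑ t ∈ Finset.Ico (-R') (R' + 1), ((finrank F (N t) : ℤ) - finrank F (E t)) := by
  refine Finset.sum_subset (fun t ht => ?_) fun t _ ht => ?_
  · rw [Finset.mem_Ico] at ht ⊢
    omega
  · rw [Finset.mem_Ico] at ht
    by_cases h : t < -R
    · rw [(h0 t h).1, (h0 t h).2, sub_self]
    · rw [(h1 t (by omega)).1, (h1 t (by omega)).2, sub_self]

theorem HasChain.mono {κ : Type*} {M : κ → Matrix ι ι F} {w : κ → ℤ} {v v' : ℤ}
    (h : HasChain M w v) (hv : v' ≤ v) : HasChain M w v' := by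
  obtain ⟨R, N, E, hR, h0, h1, h2, h3⟩ := h
  exact ⟨R, N, E, hR, h0, h1, h2, hv.trans h3⟩

theorem HasChain.comp {κ κ' : Type*} {M : κ → Matrix ι ι F} {w : κ → ℤ} {v : ℤ}
    (h : HasChain M w v) (f : κ' → κ) : HasChain (fun k => M (f k)) (fun k => w (f k)) v := by
  obtain ⟨R, N, E, hR, h0, h1, h2, h3⟩ := h
  exact ⟨R, N, E, hR, h0, h1, fun k => h2 (f k), h3⟩

/-- chains can be transported by equivalences -/
theorem HasChain.equiv {κ : Type*} {M : κ → Matrix ι ι F} {w : κ → ℤ} {v : ℤ}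
    (h : HasChain M w v) (S T : Matrix ι ι F) (hS : S.det ≠ 0) (hT : T.det ≠ 0) :
    HasChain (fun k => S * M k * T) w v := by
  obtain ⟨R, N, E, hR, h0, h1, h2, h3⟩ := h
  have hSu : IsUnit S.det := isUnit_iff_ne_zero.mpr hS
  have hTu : IsUnit T.det := isUnit_iff_ne_zero.mpr hT
  let ES : (ι → F) ≃ₗ[F] (ι → F) :=
    { S.mulVecLin with
      invFun := fun x => S⁻¹ *ᵥ x
      left_inv := fun x => by
        show S⁻¹ *ᵥ (S *ᵥ x) = x
        rw [Matrix.mulVec_mulVec, Matrix.nonsing_inv_mul S hSu, Matrix.one_mulVec]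
      right_inv := fun x => by
        show S *ᵥ (S⁻¹ *ᵥ x) = x
        rw [Matrix.mulVec_mulVec, Matrix.mul_nonsing_inv S hSu, Matrix.one_mulVec] }
  let ET : (ι → F) ≃ₗ[F] (ι → F) :=
    { T.mulVecLin with
      invFun := fun x => T⁻¹ *ᵥ x
      left_inv := fun x => by
        show T⁻¹ *ᵥ (T *ᵥ x) = x
        rw [Matrix.mulVec_mulVec, Matrix.nonsing_inv_mul T hTu, Matrix.one_mulVec]
      right_inv := fun x => by
        show T *ᵥ (T⁻¹ *ᵥ x) = x
        rw [Matrix.mulVec_mulVec, Matrix.mul_nonsing_inv T hTu, Matrix.one_mulVec] }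
  have hES : ∀ x, ES x = S *ᵥ x := fun x => rfl
  have hET : ∀ x, ET x = T *ᵥ x := fun x => rfl
  refine ⟨R, fun t => (N t).comap ET.toLinearMap, fun t => (E t).map ES.toLinearMap, hR, ?_, ?_, ?_,
    ?_⟩
  · intro t ht
    obtain ⟨e1, e2⟩ := h0 t ht
    simp only [e1, e2]
    exact ⟨by rw [Submodule.comap_bot]; exact LinearMap.ker_eq_bot.mpr ET.injective,
      Submodule.map_bot _⟩
  · intro t ht
    obtain ⟨e1, e2⟩ := h1 t ht
    simp only [e1, e2]
    exact ⟨Submodule.comap_top _, by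
      rw [Submodule.map_top]; exact LinearMap.range_eq_top.mpr ES.surjective⟩
  · intro k t x hx
    have h4 := h2 k t _ hx
    refine ⟨_, h4, ?_⟩
    show S *ᵥ (M k *ᵥ (T *ᵥ x)) = (S * M k * T) *ᵥ x
    rw [Matrix.mulVec_mulVec, Matrix.mulVec_mulVec]
  · refine h3.trans (le_of_eq (Finset.sum_congr rfl fun t _ => ?_))
    have e1 : finrank F ((N t).comap ET.toLinearMap) = finrank F (N t) := by
      rw [Submodule.comap_equiv_eq_map_symm]
      exact LinearEquiv.finrank_map_eq ET.symm (N t)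
    have e2 : finrank F ((E t).map ES.toLinearMap) = finrank F (E t) :=
      LinearEquiv.finrank_map_eq ES (E t)
    rw [e1, e2]

/-- a bound for potentials -/
theorem exists_bound (ρ σ : ι → ℤ) (R₀ : ℤ) : ∃ R : ℤ, 0 ≤ R ∧ R₀ ≤ R ∧
    (∀ i, -R ≤ ρ i ∧ ρ i ≤ R) ∧ ∀ i, -R ≤ σ i ∧ σ i ≤ R := by
  refine ⟨|R₀| + ∑ i, (|ρ i| + |σ i|), ?_, ?_, ?_, ?_⟩
  · positivity
  · have h1 : 0 ≤ ∑ i, (|ρ i| + |σ i|) := Finset.sum_nonneg fun i _ => by positivity
    have h2 := le_abs_self R₀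
    linarith
  all_goals
    intro i
    have hterm : |ρ i| + |σ i| ≤ ∑ i, (|ρ i| + |σ i|) :=
      Finset.single_le_sum (f := fun i => |ρ i| + |σ i|) (fun i _ => by positivity)
        (Finset.mem_univ i)
    have h1 := abs_nonneg (ρ i)
    have h2 := abs_nonneg (σ i)
    have h3 := abs_nonneg R₀
    exact abs_le.mp (by linarith)

/-- chains of a tuple induce chains of its leading tuples -/
theorem HasChain.lead {κ : Type*} {M : κ → Matrix ι ι F} {w' : κ → ℤ} {v : ℤ}
    (h : HasChain M w' v) (w : κ → ℤ) (ρ σ : ι → ℤ)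
    (hf : ∀ k i j, M k i j ≠ 0 → 0 ≤ w k + ρ i + σ j) :
    HasChain (fun k => lead2 (w k) ρ σ (M k)) w' v := by
  obtain ⟨R₀, N, E, hR₀, h0, h1, h2, h3⟩ := h
  obtain ⟨R, hR, hRR, hρ, hσ⟩ := exists_bound ρ σ R₀
  have hρ' : ∀ i, -R ≤ -ρ i ∧ -ρ i ≤ R := fun i => by
    have := hρ i
    constructor <;> linarith
  refine ⟨R, fun t => grS σ R (N t), fun t => grS (fun i => -ρ i) R (E t), hR, ?_, ?_, ?_, ?_⟩
  · intro t ht
    obtain ⟨e1, e2⟩ := h0 t (by omega)
    simp only [e1, e2]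
    exact ⟨grS_bot _ _, grS_bot _ _⟩
  · intro t ht
    obtain ⟨e1, e2⟩ := h1 t (by omega)
    simp only [e1, e2]
    exact ⟨grS_top _ _ hR hσ, grS_top _ _ hR hρ'⟩
  · intro k t x hx
    exact lead2_grS (M k) (w k) ρ σ (hf k) R hρ (N t) (E (t + w' k)) (h2 k t) x hx
  · rw [chain_enlarge R₀ R N E hRR h0 h1] at h3
    refine h3.trans (le_of_eq (Finset.sum_congr rfl fun t _ => ?_))
    rw [finrank_grS σ R hR hσ, finrank_grS _ R hR hρ']

/-- the value of a chain is at most the value of optimal potentials -/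
theorem HasChain.le_of_feas {M : κ → Matrix ι ι F} {w : κ → ℤ} {v : ℤ}
    (h : HasChain M w v) (ρ σ : ι → ℤ)
    (hf : ∀ k i j, M k i j ≠ 0 → 0 ≤ w k + ρ i + σ j)
    (hns : ¬ Shrunk 0 (fun k => lead2 (w k) ρ σ (M k))) :
    v ≤ -(∑ i, ρ i + ∑ j, σ j) := by
  obtain ⟨R₀, N, E, hR₀, h0, h1, h2, h3⟩ := h
  obtain ⟨R, hR, hRR, hρ, hσ⟩ := exists_bound ρ σ R₀
  have hρ' : ∀ i, -R ≤ -ρ i ∧ -ρ i ≤ R := fun i => by
    have := hρ i
    constructor <;> linarith
  rw [chain_enlarge R₀ R N E hRR h0 h1] at h3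
  have hle : ∀ d, (finrank F (UG σ R N d) : ℤ) ≤ finrank F (UG (fun i => -ρ i) R E d) := by
    intro d
    have e1 : imageSum 0 (fun k => lead2 (w k) ρ σ (M k)) (UG σ R N d) ≤
        UG (fun i => -ρ i) R E d :=
      imageSum_le (fun x _ => by rw [Matrix.zero_mulVec]; exact Submodule.zero_mem _)
        (fun k x hx => lead2_UG (M k) (w k) ρ σ (hf k) R hρ N E (h2 k) d x hx)
    have e2 : finrank F (UG σ R N d) ≤ finrank F (imageSum 0
        (fun k => lead2 (w k) ρ σ (M k)) (UG σ R N d)) := by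
      by_contra hcon
      exact hns ⟨_, not_le.mp hcon⟩
    exact_mod_cast e2.trans (Submodule.finrank_mono e1)
  have e3 := sum_UG σ R hR hσ N (fun t ht => (h0 t (by omega)).1) (fun t ht => (h1 t (by omega)).1)
  have e4 := sum_UG (fun i => -ρ i) R hR hρ' E (fun t ht => (h0 t (by omega)).2)
    (fun t ht => (h1 t (by omega)).2)
  have e5 := Finset.sum_le_sum fun d (_ : d ∈ Finset.Ico (-(2 * R + 1)) (2 * R + 1)) => hle d
  rw [e3, e4, Finset.sum_neg_distrib] at e5
  rw [Finset.sum_sub_distrib] at h3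
  linarith

/-- potentials give chains -/
theorem hasChain_of_feas {κ : Type*} (M : κ → Matrix ι ι F) (w : κ → ℤ) (ρ σ : ι → ℤ)
    (hf : ∀ k i j, M k i j ≠ 0 → 0 ≤ w k + ρ i + σ j) :
    HasChain M w (-(∑ i, ρ i + ∑ j, σ j)) := by
  obtain ⟨R, hR, -, hρ, hσ⟩ := exists_bound ρ σ 0
  have hρ' : ∀ i, -R ≤ -ρ i ∧ -ρ i ≤ R := fun i => by
    have := hρ i
    constructor <;> linarith
  refine ⟨R, fun t => Fil F σ t, fun t => Fil F (fun i => -ρ i) t, hR, ?_, ?_, ?_, ?_⟩
  · intro t ht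
    exact ⟨Fil_eq_bot σ R t (fun j => (hσ j).1) ht, Fil_eq_bot _ R t (fun j => (hρ' j).1) ht⟩
  · intro t ht
    exact ⟨Fil_eq_top σ R t (fun j => (hσ j).2) ht, Fil_eq_top _ R t (fun j => (hρ' j).2) ht⟩
  · intro k t x hx i hi
    rw [mulVec, dotProduct]
    refine Finset.sum_eq_zero fun j _ => ?_
    by_cases hM : M k i j = 0
    · rw [hM, zero_mul]
    · have e := hf k i j hM
      have hi' : t + w k < -ρ i := hi
      rw [hx j (by omega), mul_zero]
  · rw [Finset.sum_sub_distrib, sum_Fil σ R hσ, sum_Fil (fun i => -ρ i) R hρ',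
      Finset.sum_neg_distrib]
    apply le_of_eq
    ring

variable {Λ : Type*} [AddCommGroup Λ] [DecidableEq Λ]

/-- existence of optimal potentials respecting the labels, for weights at most one -/
theorem exists_opt [CharZero F] (hsep : Sep Λ) (a b : ι → Λ) (M : κ → Matrix ι ι F) (μ : κ → Λ)
    (hM : ∀ k i j, M k i j ≠ 0 → a i + b j = μ k) (w : κ → ℤ) (hw0 : ∀ k, 0 ≤ w k)
    (hw1 : ∀ k, w k ≤ 1) (hns : ¬ Shrunk 0 M) :
    ∃ (S T : Matrix ι ι F) (ρ σ : ι → ℤ), S.det ≠ 0 ∧ T.det ≠ 0 ∧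
      (∀ c d, S c d ≠ 0 → a c = a d) ∧ (∀ c d, T c d ≠ 0 → b c = b d) ∧
      (∀ k i j, (S * M k * T) i j ≠ 0 → 0 ≤ w k + ρ i + σ j) ∧
      ¬ Shrunk 0 (fun k => lead2 (w k) ρ σ (S * M k * T)) := by
  classical
  let Q : ℤ → Prop := fun z => ∃ (S T : Matrix ι ι F) (ρ σ : ι → ℤ), S.det ≠ 0 ∧ T.det ≠ 0 ∧
    (∀ c d, S c d ≠ 0 → a c = a d) ∧ (∀ c d, T c d ≠ 0 → b c = b d) ∧
    (∀ k i j, (S * M k * T) i j ≠ 0 → 0 ≤ w k + ρ i + σ j) ∧ ∑ c, ρ c + ∑ c, σ c = z
  have hz0 : ∀ S T : Matrix ι ι F, S * 0 * T = 0 := fun S T => by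
    rw [Matrix.mul_zero, Matrix.zero_mul]
  have hbdd : ∃ bb : ℤ, ∀ z, Q z → bb ≤ z := by
    refine ⟨∑ _i : ι, (-1 : ℤ) + ∑ _i : ι, 0, ?_⟩
    rintro z ⟨S, T, ρ, σ, hS, hT, _, _, hF, rfl⟩
    refine dual_opt 0 M (fun _ => 1) (fun _ => -1) (fun _ => 0) ρ σ S T hS hT
      ⟨fun i j h => absurd rfl h, fun k i j _ => by norm_num⟩ ⟨fun i j h => ?_, fun k i j h => ?_⟩
      ?_
    · rw [hz0] at h
      exact absurd rfl h
    · have h1 := hF k i j h
      have h2 := hw1 k
      linarith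
    · have e1 : lead2 0 (fun _ => -1) (fun _ => 0) (0 : Matrix ι ι F) = 0 := by
        ext i j
        rw [lead2]
        simp
      have e2 : ∀ k, lead2 1 (fun _ => -1) (fun _ => 0) (M k) = M k := by
        intro k
        ext i j
        rw [lead2, if_pos (by norm_num)]
      rw [e1]
      simp only [e2]
      exact hns
  have hone : ∀ (γ : ι → Λ) (c d : ι), (1 : Matrix ι ι F) c d ≠ 0 → γ c = γ d := by
    intro γ c d hcd
    by_contra hne
    apply hcd
    rw [Matrix.one_apply_ne]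
    rintro rfl
    exact hne rfl
  have hinh : ∃ z, Q z := by
    refine ⟨_, 1, 1, fun _ => 0, fun _ => 0, ?_, ?_, hone _, hone _, ?_, rfl⟩
    · rw [Matrix.det_one]; exact one_ne_zero
    · rw [Matrix.det_one]; exact one_ne_zero
    · intro k i j _
      have := hw0 k
      linarith
  obtain ⟨z, ⟨S', T', ρ', σ', hS', hT', hSa, hTb, hF', hz⟩, hmin⟩ :=
    Int.exists_least_of_bdd hbdd hinh
  refine ⟨S', T', ρ', σ', hS', hT', hSa, hTb, hF', ?_⟩
  intro hsh
  have hL : ∀ k i j, (S' * M k * T') i j ≠ 0 → a i + b j = μ k := by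
    intro k i j h
    obtain ⟨i', j', h1, h2, h3⟩ := equiv_ne h
    rw [hSa i i' h1, ← hTb j' j h3]
    exact hM k i' j' h2
  have e0 : lead2 0 ρ' σ' (0 : Matrix ι ι F) = 0 := by
    ext i j
    rw [lead2]
    simp
  obtain ⟨X, Y, ρ₁, σ₁, hX, hY, hXa, hYb, hF₁, hlt⟩ := improve2 hsep a b
    0 (fun i j h => absurd rfl h) (fun k => S' * M k * T') μ hL w ρ' σ'
    ⟨fun i j h => absurd rfl h, hF'⟩ (by rw [e0]; exact hsh)
  have hassoc : ∀ A : Matrix ι ι F, X * S' * A * (T' * Y) = X * (S' * A * T') * Y := by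
    intro A
    simp only [Matrix.mul_assoc]
  have hQ : Q (∑ c, ρ₁ c + ∑ c, σ₁ c) := by
    refine ⟨X * S', T' * Y, ρ₁, σ₁, ?_, ?_, ?_, ?_, ?_, rfl⟩
    · rw [Matrix.det_mul]; exact mul_ne_zero hX hS'
    · rw [Matrix.det_mul]; exact mul_ne_zero hT' hY
    · intro c d h
      rw [Matrix.mul_apply] at h
      obtain ⟨e, _, he⟩ := Finset.exists_ne_zero_of_sum_ne_zero h
      rw [hXa c e (left_ne_zero_of_mul he)]
      exact hSa e d (right_ne_zero_of_mul he)
    · intro c d h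
      rw [Matrix.mul_apply] at h
      obtain ⟨e, _, he⟩ := Finset.exists_ne_zero_of_sum_ne_zero h
      rw [hTb c e (left_ne_zero_of_mul he)]
      exact hYb e d (right_ne_zero_of_mul he)
    · intro k
      rw [hassoc]
      exact hF₁.2 k
  have := hmin _ hQ
  linarith

/-- A graded tuple without shrunk subspace: the part of degree one has small corank. -/
theorem corank_le (α : κ → Matrix ι ι F) {κ' : Type*} [Fintype κ'] [DecidableEq κ']
    (C : κ' → Matrix ι ι F) (ρ σ : ι → ℤ) (hα : ∀ k i j, α k i j ≠ 0 → ρ i + σ j = 0)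
    (hC : ∀ k i j, C k i j ≠ 0 → 1 + ρ i + σ j = 0)
    (hns : ¬ Shrunk 0 (Sum.elim α C)) (Z : Submodule F (ι → F)) :
    (finrank F Z : ℤ) ≤ finrank F (imageSum 0 C Z) + (Fintype.card ι + (∑ i, ρ i + ∑ j, σ j)) := by
  obtain ⟨R₀, hR₀, -, hρ₀, hσ₀⟩ := exists_bound ρ σ 0
  set R := R₀ + 1 with hRdef
  have hR : 0 ≤ R := by omega
  have hρ : ∀ i, -R ≤ ρ i ∧ ρ i ≤ R := fun i => by have := hρ₀ i; omega
  have hσ : ∀ i, -R ≤ σ i ∧ σ i ≤ R := fun i => by have := hσ₀ i; omega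
  have hρ' : ∀ i, -R ≤ -ρ i ∧ -ρ i ≤ R := fun i => by
    have := hρ i
    constructor <;> linarith
  set Y := imageSum 0 C Z with hY
  -- the subspaces
  have key : ∀ t : ℤ, (finrank F (Fil F σ (t - 1)) : ℤ) + finrank F (gpc σ Z t) ≤
      finrank F (Fil F (fun i => -ρ i) t) + finrank F (gpc (fun i => -ρ i) Y (t + 1)) := by
    intro t
    set U : Submodule F (ι → F) := Fil F σ (t - 1) ⊔ gpc σ Z t with hU
    have h1 : finrank F U = finrank F (Fil F σ (t - 1)) + finrank F (gpc σ Z t) := by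
      have h2 := Submodule.finrank_sup_add_finrank_inf_eq (Fil F σ (t - 1)) (gpc σ Z t)
      have h3 : Fil F σ (t - 1) ⊓ gpc σ Z t = ⊥ := by
        rw [eq_bot_iff]
        rintro x ⟨hx1, hx2⟩
        rw [Submodule.mem_bot]
        funext j
        by_cases hj : σ j = t
        · exact hx1 j (by omega)
        · exact gpc_le _ _ _ hx2 j hj
      rw [h3, finrank_bot, add_zero] at h2
      exact h2
    have h4 : imageSum 0 (Sum.elim α C) U ≤
        Fil F (fun i => -ρ i) t ⊔ gpc (fun i => -ρ i) Y (t + 1) := by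
      refine imageSum_le (fun x _ => by rw [Matrix.zero_mulVec]; exact Submodule.zero_mem _) ?_
      have hsub : ∀ x ∈ U, x ∈ Fil F σ t := by
        intro x hx
        have : U ≤ Fil F σ t := by
          refine sup_le (Fil_mono σ (by omega)) ?_
          intro y hy j hj
          exact gpc_le _ _ _ hy j (by omega)
        exact this hx
      rintro (k | k) x hx
      · refine Submodule.mem_sup_left ?_
        intro i hi
        have hi' : t < -ρ i := hi
        show (α k *ᵥ x) i = 0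
        rw [mulVec, dotProduct]
        refine Finset.sum_eq_zero fun j _ => ?_
        by_cases hM : α k i j = 0
        · rw [hM, zero_mul]
        · have e := hα k i j hM
          rw [hsub x hx j (by omega), mul_zero]
      · obtain ⟨y, hy, z, hz, rfl⟩ := Submodule.mem_sup.mp hx
        rw [Matrix.mulVec_add]
        refine Submodule.add_mem _ (Submodule.mem_sup_left ?_) (Submodule.mem_sup_right ?_)
        · intro i hi
          have hi' : t < -ρ i := hi
          show (C k *ᵥ y) i = 0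
          rw [mulVec, dotProduct]
          refine Finset.sum_eq_zero fun j _ => ?_
          by_cases hM : C k i j = 0
          · rw [hM, zero_mul]
          · have e := hC k i j hM
            rw [hy j (by omega), mul_zero]
        · have e1 : lead2 1 ρ σ (C k) = C k := by
            ext i j
            rw [lead2]
            split_ifs with h
            · rfl
            · by_contra hne
              exact h (hC k i j (fun e => hne e.symm))
          have e2 := lead2_gpc (C k) 1 ρ σ (fun i j h => (hC k i j h).ge) Z Y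
            (fun x hx => mem_imageSum k hx) t z hz
          rw [e1] at e2
          exact e2
    have h5 : finrank F U ≤ finrank F (imageSum 0 (Sum.elim α C) U) := by
      by_contra hcon
      exact hns ⟨_, not_le.mp hcon⟩
    have h6 := Submodule.finrank_mono h4
    have h7 := Submodule.finrank_add_le_finrank_add_finrank (Fil F (fun i => -ρ i) t)
      (gpc (fun i => -ρ i) Y (t + 1))
    rw [h1] at h5
    exact_mod_cast h5.trans (h6.trans h7)
  have hsum := Finset.sum_le_sum fun t (_ : t ∈ Finset.Ico (-R) (R + 1)) => key t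
  rw [Finset.sum_add_distrib, Finset.sum_add_distrib] at hsum
  have s1 : ∑ t ∈ Finset.Ico (-R) (R + 1), (finrank F (gpc σ Z t) : ℤ) = finrank F Z := by
    have := finrank_grS σ R hR hσ Z
    rw [grS, finrank_sup_bsp σ _ (gpc_le σ Z)] at this
    exact_mod_cast this
  have s2 : ∑ t ∈ Finset.Ico (-R) (R + 1), (finrank F (gpc (fun i => -ρ i) Y (t + 1)) : ℤ) ≤
      finrank F Y := by
    have h1 := finrank_grS (fun i => -ρ i) (R + 1) (by omega)
      (fun i => by have := hρ' i; omega) Y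
    rw [grS, finrank_sup_bsp _ _ (gpc_le _ Y)] at h1
    have h2 : ∑ t ∈ Finset.Ico (-R) (R + 1), finrank F (gpc (fun i => -ρ i) Y (t + 1)) =
        ∑ t ∈ Finset.Ico (-R + 1) (R + 1 + 1), finrank F (gpc (fun i => -ρ i) Y t) :=
      Finset.sum_Ico_add' (fun t => finrank F (gpc (fun i => -ρ i) Y t)) (-R) (R + 1) 1
    have h3 : ∑ t ∈ Finset.Ico (-R + 1) (R + 1 + 1), finrank F (gpc (fun i => -ρ i) Y t) ≤
        ∑ t ∈ Finset.Ico (-(R + 1)) (R + 1 + 1), finrank F (gpc (fun i => -ρ i) Y t) :=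
      Finset.sum_le_sum_of_subset (fun t ht => by
        rw [Finset.mem_Ico] at ht ⊢
        omega)
    rw [← h2, h1] at h3
    exact_mod_cast h3
  have s3 := sum_Fil (F := F) (fun i => -ρ i) R hρ'
  have s4 : ∑ t ∈ Finset.Ico (-R) (R + 1), (finrank F (Fil F σ (t - 1)) : ℤ) =
      Fintype.card ι * R - ∑ j, σ j := by
    have h1 : ∀ t : ℤ, Fil F σ (t - 1) = Fil F (fun j => σ j + 1) t := by
      intro t
      ext x
      constructor
      · intro h j hj
        have hj' : t < σ j + 1 := hj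
        exact h j (by omega)
      · intro h j hj
        exact h j (by show t < σ j + 1; omega)
    have h2 : ∑ t ∈ Finset.Ico (-R) (R + 1), (finrank F (Fil F σ (t - 1)) : ℤ) =
        ∑ t ∈ Finset.Ico (-R) (R + 1), (finrank F (Fil F (fun j => σ j + 1) t) : ℤ) :=
      Finset.sum_congr rfl fun t _ => by rw [h1 t]
    rw [h2, sum_Fil (fun j => σ j + 1) R (fun j => by have := hσ₀ j; omega)]
    simp only [Finset.sum_add_distrib, Finset.sum_const, Finset.card_univ, nsmul_eq_mul]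
    ring
  rw [s1, s3, s4, Finset.sum_neg_distrib] at hsum
  have e : (Fintype.card ι : ℤ) * (R + 1) = Fintype.card ι * R + Fintype.card ι := by ring
  rw [e] at hsum
  linarith

end

end Pool.Agent.Lib.MP_64d474_lc
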