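import Mathlib
import Pool.Agent.Lib.MP_64d474_lc.HnChain

/-!
Bordered matrices and the expansion of `det (M + ∑ Y_k p_k q_kᵀ)`.
-/

open Matrix Module MvPolynomial

set_option linter.unusedSectionVars false

namespace Pool.Agent.Lib.MP_64d474_lc

section

variable {F : Type*} [Field F] {ι K : Type*} [Fintype ι] [DecidableEq ι] [Fintype K]
  [DecidableEq K]

/-- The matrix `M` bordered by the columns `p k` and the rows `q k`, `k ∈ T`, is nonsingular. -/
def Good (M : Matrix ι ι F) (p q : K → ι → F) (T : Finset K) : Prop :=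
  ∀ (x : ι → F) (z : K → F), (∀ k, k ∉ T → z k = 0) → (∀ k ∈ T, q k ⬝ᵥ x = 0) →
    M *ᵥ x + ∑ k, z k • p k = 0 → x = 0 ∧ z = 0

/-- the determinant as a multilinear function of the lower rows -/
noncomputable def fixDet {ι K : Type*} [Fintype ι] [DecidableEq ι] [Fintype K]
    [hdK : DecidableEq K] {R : Type*} [CommRing R] (A₁ : ι → ι ⊕ K → R) :
    MultilinearMap R (fun _ : K => ι ⊕ K → R) R where
  toFun r := Matrix.det (Matrix.of (Sum.elim A₁ r))
  map_update_add' := by
    intro inst r k x y
    obtain rfl : inst = hdK := Subsingleton.elim _ _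
    have h1 : ∀ v, (Matrix.of (Sum.elim A₁ (Function.update r k v)) :
        Matrix (ι ⊕ K) (ι ⊕ K) R) =
        Matrix.updateRow (Matrix.of (Sum.elim A₁ r)) (Sum.inr k) v := by
      intro v
      have h2 := Sum.update_elim_inr (f := A₁) (g := r) (i := k) (x := v)
      ext i j
      rw [Matrix.of_apply]
      have h3 := congrFun (congrFun h2 i) j
      rw [Matrix.updateRow]
      convert! h3.symm
    rw [h1, h1, h1, Matrix.det_updateRow_add]
  map_update_smul' := by
    intro inst r k c x
    obtain rfl : inst = hdK := Subsingleton.elim _ _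
    have h1 : ∀ v, (Matrix.of (Sum.elim A₁ (Function.update r k v)) :
        Matrix (ι ⊕ K) (ι ⊕ K) R) =
        Matrix.updateRow (Matrix.of (Sum.elim A₁ r)) (Sum.inr k) v := by
      intro v
      have h2 := Sum.update_elim_inr (f := A₁) (g := r) (i := k) (x := v)
      ext i j
      rw [Matrix.of_apply]
      have h3 := congrFun (congrFun h2 i) j
      rw [Matrix.updateRow]
      convert! h3.symm
    rw [h1, h1, Matrix.det_updateRow_smul, smul_eq_mul]

theorem fixDet_apply {R : Type*} [CommRing R] (A₁ : ι → ι ⊕ K → R) (r : K → ι ⊕ K → R) :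
    fixDet A₁ r = Matrix.det (Matrix.of (Sum.elim A₁ r)) := rfl

/-- the lower rows of the bordered matrix -/
def lowR (q : K → ι → F) (T : Finset K) : K → ι ⊕ K → F :=
  T.piecewise (fun k => Sum.elim (q k) 0) fun k => Sum.elim 0 (Pi.single k 1)

/-- the upper rows of the bordered matrix -/
def upR (M : Matrix ι ι F) (p : K → ι → F) : ι → ι ⊕ K → F :=
  fun i => Sum.elim (M i) fun k => -p k i

/-- the bordered matrix -/
def BT (M : Matrix ι ι F) (p q : K → ι → F) (T : Finset K) : Matrix (ι ⊕ K) (ι ⊕ K) F :=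
  Matrix.of (Sum.elim (upR M p) (lowR q T))

theorem BT_mulVec_inl (M : Matrix ι ι F) (p q : K → ι → F) (T : Finset K) (y : ι ⊕ K → F) (i : ι) :
    (BT M p q T *ᵥ y) (Sum.inl i) =
      (M *ᵥ (y ∘ Sum.inl) + ∑ k, (-y (Sum.inr k)) • p k) i := by
  rw [mulVec, dotProduct, Fintype.sum_sum_type, Pi.add_apply, Finset.sum_apply, mulVec, dotProduct]
  congr 1
  refine Finset.sum_congr rfl fun k _ => ?_
  show -p k i * y (Sum.inr k) = -y (Sum.inr k) * p k i
  ring

theorem BT_mulVec_inr (M : Matrix ι ι F) (p q : K → ι → F) (T : Finset K) (y : ι ⊕ K → F) (k : K) :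
    (BT M p q T *ᵥ y) (Sum.inr k) =
      if k ∈ T then q k ⬝ᵥ (y ∘ Sum.inl) else y (Sum.inr k) := by
  rw [mulVec]
  show lowR q T k ⬝ᵥ y = _
  rw [lowR, dotProduct, Fintype.sum_sum_type]
  split_ifs with h
  · rw [Finset.piecewise_eq_of_mem _ _ _ h]
    simp [dotProduct]
  · rw [Finset.piecewise_eq_of_notMem _ _ _ h]
    simp [Pi.single_apply]

theorem good_iff_BT (M : Matrix ι ι F) (p q : K → ι → F) (T : Finset K) :
    Good M p q T ↔ (BT M p q T).det ≠ 0 := by
  constructor
  · intro h h0
    obtain ⟨y, hy, hy0⟩ := Matrix.exists_mulVec_eq_zero_iff.mpr h0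
    have h1 := h (y ∘ Sum.inl) (fun k => -y (Sum.inr k)) (fun k hk => by
        have := congrFun hy0 (Sum.inr k)
        rw [BT_mulVec_inr, if_neg hk] at this
        rw [this]
        simp) (fun k hk => by
        have := congrFun hy0 (Sum.inr k)
        rwa [BT_mulVec_inr, if_pos hk] at this) (by
        funext i
        have := congrFun hy0 (Sum.inl i)
        rwa [BT_mulVec_inl] at this)
    apply hy
    funext e
    rcases e with i | k
    · exact congrFun h1.1 i
    · have := congrFun h1.2 k
      simpa using this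
  · intro h x z hz hq hM
    have h1 : BT M p q T *ᵥ (Sum.elim x fun k => -z k) = 0 := by
      funext e
      rcases e with i | k
      · rw [BT_mulVec_inl]
        have h2 : (Sum.elim x fun k => -z k) ∘ Sum.inl = x := rfl
        rw [h2]
        have := congrFun hM i
        simpa using this
      · rw [BT_mulVec_inr]
        have h2 : (Sum.elim x fun k => -z k) ∘ Sum.inl = x := rfl
        rw [h2]
        split_ifs with hk
        · exact hq k hk
        · show -z k = 0
          rw [hz k hk, neg_zero]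
    have h3 : (Sum.elim x fun k => -z k : ι ⊕ K → F) = 0 := by
      by_contra hne
      exact h (Matrix.exists_mulVec_eq_zero_iff.mp ⟨_, hne, h1⟩)
    refine ⟨funext fun i => congrFun h3 (Sum.inl i), funext fun k => ?_⟩
    have := congrFun h3 (Sum.inr k)
    simpa using this

/-- exponent vector of a set -/
noncomputable def ind (T : Finset K) : K →₀ ℕ := ∑ k ∈ T, Finsupp.single k 1

theorem ind_apply (T : Finset K) (k : K) : ind T k = if k ∈ T then 1 else 0 := by
  rw [ind, Finsupp.finsetSum_apply]
  simp [Finsupp.single_apply]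

theorem ind_inj {T T' : Finset K} (h : ind T = ind T') : T = T' := by
  ext k
  have := DFunLike.congr_fun h k
  rw [ind_apply, ind_apply] at this
  by_cases h1 : k ∈ T <;> by_cases h2 : k ∈ T' <;> simp [h1, h2] at this ⊢

theorem wt_ind (w : K → ℤ) (T : Finset K) : wt w (ind T) = ∑ k ∈ T, w k := by
  rw [wt]
  simp only [ind_apply]
  simp

/-- the expansion of `det (M + ∑ Y_k p_k q_kᵀ)` -/
theorem det_symb_border (M : Matrix ι ι F) (p q : K → ι → F) :
    (symb M (fun k => vecMulVec (p k) (q k))).det =
      ∑ T : Finset K, monomial (ind T) (BT M p q T).det := by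
  set R := MvPolynomial K F
  set A₁ : ι → ι ⊕ K → R := fun i e => C (upR M p i e) with hA₁
  -- the Schur complement
  have h1 : (symb M (fun k => vecMulVec (p k) (q k))).det = fixDet A₁ ((fun k =>
      (X k : R) • (fun e => C ((Sum.elim (q k) 0 : ι ⊕ K → F) e))) +
      fun k => fun e => C ((Sum.elim 0 (Pi.single k 1) : ι ⊕ K → F) e)) := by
    rw [fixDet_apply]
    have h2 : (Matrix.of (Sum.elim A₁ ((fun k =>
        (X k : R) • (fun e => C ((Sum.elim (q k) 0 : ι ⊕ K → F) e))) +
        fun k => fun e => C ((Sum.elim 0 (Pi.single k 1) : ι ⊕ K → F) e))) :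
          Matrix (ι ⊕ K) (ι ⊕ K) R) =
        Matrix.fromBlocks (M.map C) (Matrix.of fun i k => C (-p k i))
          (Matrix.of fun k j => (X k : R) * C (q k j)) 1 := by
      refine Matrix.ext fun e e' => ?_
      rcases e with i | k <;> rcases e' with j | l
      · rfl
      · rfl
      · show X k * C (q k j) + C 0 = X k * C (q k j)
        rw [map_zero, add_zero]
      · show X k * C 0 + C ((Pi.single k 1 : K → F) l) = (1 : Matrix K K R) k l
        rw [map_zero, mul_zero, zero_add, Matrix.one_apply, Pi.single_apply]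
        by_cases h : l = k
        · rw [if_pos h, if_pos h.symm, map_one]
        · rw [if_neg h, if_neg (fun e => h e.symm), map_zero]
    rw [h2, Matrix.det_fromBlocks_one₂₂]
    congr 1
    refine Matrix.ext fun i j => ?_
    rw [symb, Matrix.add_apply, Matrix.sum_apply, Matrix.sub_apply, Matrix.mul_apply,
      sub_eq_add_neg, ← Finset.sum_neg_distrib]
    congr 1
    refine Finset.sum_congr rfl fun k _ => ?_
    rw [Matrix.smul_apply, Matrix.map_apply, vecMulVec_apply, Matrix.of_apply, Matrix.of_apply,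
      smul_eq_mul, map_mul, map_neg]
    ring
  rw [h1, MultilinearMap.map_add_univ]
  refine Finset.sum_congr rfl fun T _ => ?_
  have h3 : (T.piecewise (fun k => (X k : R) • (fun e => C ((Sum.elim (q k) 0 : ι ⊕ K → F) e)))
      fun k => fun e => C ((Sum.elim 0 (Pi.single k 1) : ι ⊕ K → F) e) : K → ι ⊕ K → R) =
      T.piecewise (fun k => (X k : R) • (fun e => C (lowR q T k e)))
        fun k => fun e => C (lowR q T k e) := by
    funext k
    by_cases hk : k ∈ T
    · rw [Finset.piecewise_eq_of_mem _ _ _ hk, Finset.piecewise_eq_of_mem _ _ _ hk, lowR,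
        Finset.piecewise_eq_of_mem _ _ _ hk]
    · rw [Finset.piecewise_eq_of_notMem _ _ _ hk, Finset.piecewise_eq_of_notMem _ _ _ hk, lowR,
        Finset.piecewise_eq_of_notMem _ _ _ hk]
  rw [h3, MultilinearMap.map_piecewise_smul, fixDet_apply]
  have h4 : (Matrix.of (Sum.elim A₁ fun k => fun e => C (lowR q T k e)) :
      Matrix (ι ⊕ K) (ι ⊕ K) R) = (BT M p q T).map C := by
    ext e e'
    rcases e with i | k
    · rfl
    · rfl
  have h5 : ((BT M p q T).map (C : F → R)).det = C (BT M p q T).det := (RingHom.map_det C _).symm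
  rw [h4, h5, smul_eq_mul, mul_comm, ind]
  have h6 : ∀ T : Finset K, (∏ k ∈ T, (X k : R)) = monomial (∑ k ∈ T, Finsupp.single k 1) 1 := by
    intro T
    rw [MvPolynomial.monomial_sum_one]
    rfl
  rw [h6, C_mul_monomial, mul_one]

theorem coeff_border (M : Matrix ι ι F) (p q : K → ι → F) (T : Finset K) :
    coeff (ind T) (symb M (fun k => vecMulVec (p k) (q k))).det = (BT M p q T).det := by
  rw [det_symb_border, coeff_sum, Finset.sum_eq_single T]
  · rw [coeff_monomial, if_pos rfl]
  · intro T' _ hT'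
    rw [coeff_monomial, if_neg]
    exact fun h => hT' (ind_inj h)
  · intro h
    exact absurd (Finset.mem_univ T) h

theorem good_iff_coeff (M : Matrix ι ι F) (p q : K → ι → F) (T : Finset K) :
    Good M p q T ↔ coeff (ind T) (symb M (fun k => vecMulVec (p k) (q k))).det ≠ 0 := by
  rw [good_iff_BT, coeff_border]

theorem exists_good (M : Matrix ι ι F) (p q : K → ι → F) (d : K →₀ ℕ)
    (hd : coeff d (symb M (fun k => vecMulVec (p k) (q k))).det ≠ 0) :
    ∃ T, Good M p q T ∧ d = ind T := by
  have h := hd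
  rw [det_symb_border, coeff_sum] at h
  obtain ⟨T, _, hT⟩ := Finset.exists_ne_zero_of_sum_ne_zero h
  rw [coeff_monomial] at hT
  split_ifs at hT with h1
  · refine ⟨T, ?_, h1.symm⟩
    rw [good_iff_BT]
    exact hT
  · exact absurd rfl hT

theorem good_empty (M : Matrix ι ι F) (p q : K → ι → F) : Good M p q ∅ ↔ M.det ≠ 0 := by
  constructor
  · intro h h0
    obtain ⟨y, hy, hy0⟩ := Matrix.exists_mulVec_eq_zero_iff.mpr h0
    have := h y 0 (fun _ _ => rfl) (fun k hk => absurd hk (Finset.notMem_empty k)) (by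
      rw [hy0]
      simp)
    exact hy this.1
  · intro h x z hz _ hM
    have hz0 : z = 0 := funext fun k => hz k (Finset.notMem_empty k)
    refine ⟨?_, hz0⟩
    by_contra hne
    apply h
    apply Matrix.exists_mulVec_eq_zero_iff.mp
    refine ⟨x, hne, ?_⟩
    rw [hz0] at hM
    simpa using hM

/-- the symmetric form of the bordered matrix -/
def Bord (M : Matrix ι ι F) (p q : K → ι → F) (T : Finset K) : Matrix (ι ⊕ K) (ι ⊕ K) F :=
  Matrix.fromBlocks M (Matrix.of fun i k => if k ∈ T then p k i else 0)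
    (Matrix.of fun k j => if k ∈ T then q k j else 0)
    (Matrix.diagonal fun k => if k ∈ T then 0 else 1)

theorem Bord_transpose (M : Matrix ι ι F) (p q : K → ι → F) (T : Finset K) :
    (Bord M p q T)ᵀ = Bord Mᵀ q p T := by
  rw [Bord, Matrix.fromBlocks_transpose, Matrix.diagonal_transpose]
  rfl

theorem Bord_mulVec_inl (M : Matrix ι ι F) (p q : K → ι → F) (T : Finset K) (y : ι ⊕ K → F)
    (i : ι) : (Bord M p q T *ᵥ y) (Sum.inl i) =
      (M *ᵥ (y ∘ Sum.inl)) i + ∑ k ∈ T, y (Sum.inr k) * p k i := by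
  rw [Bord, Matrix.fromBlocks_mulVec]
  show (M *ᵥ (y ∘ Sum.inl)) i + _ = _
  congr 1
  rw [mulVec, dotProduct, ← Finset.sum_subset (Finset.subset_univ T)]
  · refine Finset.sum_congr rfl fun k hk => ?_
    rw [Matrix.of_apply, if_pos hk, mul_comm]
    rfl
  · intro k _ hk
    rw [Matrix.of_apply, if_neg hk, zero_mul]

theorem Bord_mulVec_inr (M : Matrix ι ι F) (p q : K → ι → F) (T : Finset K) (y : ι ⊕ K → F)
    (k : K) : (Bord M p q T *ᵥ y) (Sum.inr k) =
      if k ∈ T then q k ⬝ᵥ (y ∘ Sum.inl) else y (Sum.inr k) := by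
  rw [Bord, Matrix.fromBlocks_mulVec]
  show ((Matrix.of fun k j => if k ∈ T then q k j else 0) *ᵥ (y ∘ Sum.inl)) k +
    ((Matrix.diagonal fun k => if k ∈ T then 0 else 1) *ᵥ (y ∘ Sum.inr)) k = _
  rw [Matrix.mulVec_diagonal, mulVec, dotProduct]
  split_ifs with h
  · rw [zero_mul, add_zero, dotProduct]
    refine Finset.sum_congr rfl fun j _ => ?_
    rw [Matrix.of_apply, if_pos h]
  · rw [one_mul]
    have : ∑ j, (Matrix.of fun k j => if k ∈ T then q k j else 0 : Matrix K ι F) k j *
        (y ∘ Sum.inl) j = 0 := Finset.sum_eq_zero fun j _ => by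
      rw [Matrix.of_apply, if_neg h, zero_mul]
    rw [this, zero_add]
    rfl

theorem good_iff_Bord (M : Matrix ι ι F) (p q : K → ι → F) (T : Finset K) :
    Good M p q T ↔ (Bord M p q T).det ≠ 0 := by
  have hsum : ∀ (z : K → F), (∀ k, k ∉ T → z k = 0) → ∀ i, (∑ k, z k • p k) i =
      ∑ k ∈ T, z k * p k i := by
    intro z hz i
    rw [Finset.sum_apply, ← Finset.sum_subset (Finset.subset_univ T)]
    · rfl
    · intro k _ hk
      rw [hz k hk, zero_smul]
      rfl
  constructor
  · intro h h0
    obtain ⟨y, hy, hy0⟩ := Matrix.exists_mulVec_eq_zero_iff.mpr h0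
    have hz : ∀ k, k ∉ T → y (Sum.inr k) = 0 := fun k hk => by
      have := congrFun hy0 (Sum.inr k)
      rwa [Bord_mulVec_inr, if_neg hk] at this
    have h1 := h (y ∘ Sum.inl) (fun k => y (Sum.inr k)) hz (fun k hk => by
        have := congrFun hy0 (Sum.inr k)
        rwa [Bord_mulVec_inr, if_pos hk] at this) (by
        funext i
        have := congrFun hy0 (Sum.inl i)
        rw [Bord_mulVec_inl] at this
        rw [Pi.add_apply, hsum _ hz]
        exact this)
    apply hy
    funext e
    rcases e with i | k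
    · exact congrFun h1.1 i
    · exact congrFun h1.2 k
  · intro h x z hz hq hM
    have h1 : Bord M p q T *ᵥ (Sum.elim x z) = 0 := by
      funext e
      rcases e with i | k
      · rw [Bord_mulVec_inl]
        have := congrFun hM i
        rw [Pi.add_apply, hsum z hz] at this
        exact this
      · rw [Bord_mulVec_inr]
        split_ifs with hk
        · exact hq k hk
        · exact hz k hk
    have h3 : (Sum.elim x z : ι ⊕ K → F) = 0 := by
      by_contra hne
      exact h (Matrix.exists_mulVec_eq_zero_iff.mp ⟨_, hne, h1⟩)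
    exact ⟨funext fun i => congrFun h3 (Sum.inl i), funext fun k => congrFun h3 (Sum.inr k)⟩

theorem good_transpose (M : Matrix ι ι F) (p q : K → ι → F) (T : Finset K) :
    Good Mᵀ q p T ↔ Good M p q T := by
  rw [good_iff_Bord, good_iff_Bord, ← Bord_transpose, Matrix.det_transpose]

end

end Pool.Agent.Lib.MP_64d474_lc
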