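import Mathlib
import Pool.Agent.Lib.MP_64d474_lc.XnShrunk
import Pool.Agent.Lib.MP_64d474_lc.YnBall
import Pool.Agent.Lib.MP_64d474_lc.RankTools

/-!
Every tuple has a compression without shrunk subspace whose size is the noncommutative rank.
-/

open Matrix Module

set_option linter.unusedSectionVars false

namespace Pool.Agent.Lib.MP_64d474_lc

section

variable {F : Type*} [Field F] {ι κ : Type*} [Fintype ι] [DecidableEq ι] [Fintype κ]
  [DecidableEq κ]

theorem imageSum_bot (B₀ : Matrix ι ι F) (B : κ → Matrix ι ι F) : imageSum B₀ B ⊥ = ⊥ := by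
  rw [imageSum]
  simp only [Submodule.map_bot, iSup_bot, sup_bot_eq]

/-- submodularity -/
theorem submod (B₀ : Matrix ι ι F) (B : κ → Matrix ι ι F) (K X Y : Submodule F (ι → F)) :
    finrank F (imageSum B₀ B (X ⊔ Y) ⊔ K : Submodule F (ι → F)) +
      finrank F (imageSum B₀ B (X ⊓ Y) ⊔ K : Submodule F (ι → F)) ≤
    finrank F (imageSum B₀ B X ⊔ K : Submodule F (ι → F)) +
      finrank F (imageSum B₀ B Y ⊔ K : Submodule F (ι → F)) := by
  have h1 : imageSum B₀ B (X ⊔ Y) ⊔ K = (imageSum B₀ B X ⊔ K) ⊔ (imageSum B₀ B Y ⊔ K) := by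
    rw [imageSum_sup, sup_sup_sup_comm, sup_idem]
  have h2 : imageSum B₀ B (X ⊓ Y) ⊔ K ≤ (imageSum B₀ B X ⊔ K) ⊓ (imageSum B₀ B Y ⊔ K) :=
    le_inf (sup_le_sup_right (imageSum_mono B₀ B inf_le_left) K)
      (sup_le_sup_right (imageSum_mono B₀ B inf_le_right) K)
  have h3 := Submodule.finrank_sup_add_finrank_inf_eq (imageSum B₀ B X ⊔ K)
    (imageSum B₀ B Y ⊔ K)
  have h4 := Submodule.finrank_mono h2
  rw [h1]
  omega

/-- Cutting down the columns. -/
theorem cut_columns (B₀ : Matrix ι ι F) (B : κ → Matrix ι ι F) (c : ℕ)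
    (hc : ∀ X : Submodule F (ι → F), finrank F X ≤ finrank F (imageSum B₀ B X) + c)
    (hcn : c ≤ Fintype.card ι) :
    ∀ j, j ≤ c → ∃ V : Submodule F (ι → F), finrank F V = Fintype.card ι - j ∧
      ∀ X ≤ V, finrank F X ≤ finrank F (imageSum B₀ B X) + (c - j) := by
  classical
  intro j
  induction j with
  | zero =>
    intro _
    refine ⟨⊤, ?_, fun X _ => hc X⟩
    rw [finrank_top, Module.finrank_fintype_fun_eq_card, Nat.sub_zero]
  | succ j ih =>
    intro hj
    obtain ⟨V, hV, hX⟩ := ih (by omega)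
    -- tight subspaces
    let tight : Submodule F (ι → F) → Prop := fun X =>
      X ≤ V ∧ finrank F X = finrank F (imageSum B₀ B X) + (c - j)
    have hex : ∃ x ∈ V, x ≠ 0 ∧ ∀ X, tight X → x ∈ X := by
      by_cases ht : ∃ X, tight X
      · have hmin : ∃ d, ∃ X, tight X ∧ finrank F X = d := by
          obtain ⟨X, h⟩ := ht
          exact ⟨_, X, h, rfl⟩
        obtain ⟨X₀, ⟨hX₀V, hX₀⟩, hd⟩ := Nat.find_spec hmin
        have hX₀ne : X₀ ≠ ⊥ := by
          intro h
          rw [h, imageSum_bot, finrank_bot] at hX₀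
          omega
        obtain ⟨x, hx, hx0⟩ := (Submodule.ne_bot_iff X₀).mp hX₀ne
        refine ⟨x, hX₀V hx, hx0, ?_⟩
        rintro X ⟨hXV, hXt⟩
        -- the intersection is tight
        have h1 := submod B₀ B ⊥ X X₀
        rw [sup_bot_eq, sup_bot_eq, sup_bot_eq, sup_bot_eq] at h1
        have h2 := Submodule.finrank_sup_add_finrank_inf_eq X X₀
        have h3 := hX (X ⊔ X₀) (sup_le hXV hX₀V)
        have h4 := hX (X ⊓ X₀) (inf_le_left.trans hXV)
        have h5 : tight (X ⊓ X₀) := ⟨inf_le_left.trans hXV, by omega⟩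
        have h6 := Nat.find_min' hmin ⟨_, h5, rfl⟩
        have h7 : X ⊓ X₀ = X₀ := Submodule.eq_of_le_of_finrank_le inf_le_right (by omega)
        have h8 : X₀ ≤ X := by rw [← h7]; exact inf_le_left
        exact h8 hx
      · have hVne : V ≠ ⊥ := by
          intro h
          rw [h, finrank_bot] at hV
          omega
        obtain ⟨x, hx, hx0⟩ := (Submodule.ne_bot_iff V).mp hVne
        exact ⟨x, hx, hx0, fun X h => absurd ⟨X, h⟩ ht⟩
    obtain ⟨x, hxV, hx0, hxt⟩ := hex
    obtain ⟨f, hf⟩ : ∃ f : (ι → F) →ₗ[F] F, f x ≠ 0 := by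
      obtain ⟨i, hi⟩ := Function.ne_iff.mp hx0
      exact ⟨LinearMap.proj i, hi⟩
    refine ⟨V ⊓ LinearMap.ker f, ?_, ?_⟩
    · have h1 := finrank_map_add_inf f V
      have h2 : finrank F (V.map f) = 1 := by
        have h3 : V.map f = ⊤ := by
          rw [eq_top_iff]
          intro y _
          refine ⟨(y * (f x)⁻¹) • x, Submodule.smul_mem _ _ hxV, ?_⟩
          rw [map_smul, smul_eq_mul, mul_assoc, inv_mul_cancel₀ hf, mul_one]
        rw [h3, finrank_top, Module.finrank_self]
      omega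
    · intro X hXle
      have h1 := hX X (hXle.trans inf_le_left)
      have h2 : ¬ tight X := by
        intro ht
        exact hf (LinearMap.mem_ker.mp (hXle (hxt X ht)).2)
      have h3 : finrank F X ≠ finrank F (imageSum B₀ B X) + (c - j) := fun h =>
        h2 ⟨hXle.trans inf_le_left, h⟩
      omega

/-- Cutting down the rows. -/
theorem cut_rows (B₀ : Matrix ι ι F) (B : κ → Matrix ι ι F) (V : Submodule F (ι → F))
    (hV : ∀ X ≤ V, finrank F X ≤ finrank F (imageSum B₀ B X)) :
    ∀ j, j + finrank F V ≤ Fintype.card ι → ∃ K : Submodule F (ι → F), finrank F K = j ∧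
      ∀ X ≤ V, finrank F X + j ≤ finrank F (imageSum B₀ B X ⊔ K : Submodule F (ι → F)) := by
  classical
  intro j
  induction j with
  | zero =>
    intro _
    refine ⟨⊥, finrank_bot F _, fun X hX => ?_⟩
    rw [sup_bot_eq]
    exact hV X hX
  | succ j ih =>
    intro hj
    obtain ⟨K, hK, hX⟩ := ih (by omega)
    let tight : Submodule F (ι → F) → Prop := fun X =>
      X ≤ V ∧ finrank F (imageSum B₀ B X ⊔ K : Submodule F (ι → F)) = finrank F X + j
    have hbot : tight ⊥ := by
      refine ⟨bot_le, ?_⟩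
      rw [imageSum_bot, bot_sup_eq, hK, finrank_bot, zero_add]
    have hmin : ∃ d, ∃ X, tight X ∧ finrank F V - finrank F X = d := ⟨_, ⊥, hbot, rfl⟩
    obtain ⟨X₀, ⟨hX₀V, hX₀⟩, hd⟩ := Nat.find_spec hmin
    have hX₀le : finrank F X₀ ≤ finrank F V := Submodule.finrank_mono hX₀V
    have hall : ∀ X, tight X → X ≤ X₀ := by
      rintro X ⟨hXV, hXt⟩
      have h1 := submod B₀ B K X X₀
      have h2 := Submodule.finrank_sup_add_finrank_inf_eq X X₀
      have h3 := hX (X ⊔ X₀) (sup_le hXV hX₀V)
      have h4 := hX (X ⊓ X₀) (inf_le_left.trans hXV)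
      have h5 : tight (X ⊔ X₀) := ⟨sup_le hXV hX₀V, by omega⟩
      have h6 := Nat.find_min' hmin ⟨_, h5, rfl⟩
      have h7 : finrank F (X ⊔ X₀ : Submodule F (ι → F)) ≤ finrank F V :=
        Submodule.finrank_mono (sup_le hXV hX₀V)
      have h8 : X₀ = X ⊔ X₀ := Submodule.eq_of_le_of_finrank_le le_sup_right (by omega)
      rw [h8]
      exact le_sup_left
    have hne : imageSum B₀ B X₀ ⊔ K ≠ ⊤ := by
      intro h
      rw [h, finrank_top, Module.finrank_fintype_fun_eq_card] at hX₀
      omega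
    obtain ⟨y, hy⟩ : ∃ y, y ∉ imageSum B₀ B X₀ ⊔ K := by
      by_contra h
      push Not at h
      exact hne (eq_top_iff.mpr fun y _ => h y)
    have hgrow : ∀ Z : Submodule F (ι → F), y ∉ Z →
        finrank F (Z ⊔ F ∙ y : Submodule F (ι → F)) = finrank F Z + 1 := by
      intro Z hZ
      have hy0 : y ≠ 0 := fun h => hZ (h ▸ Z.zero_mem)
      have h1 := Submodule.finrank_sup_add_finrank_inf_eq Z (F ∙ y)
      have h2 : Z ⊓ F ∙ y = ⊥ := by
        rw [eq_bot_iff]
        rintro z ⟨hz1, hz2⟩
        obtain ⟨a, rfl⟩ := Submodule.mem_span_singleton.mp hz2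
        by_cases ha : a = 0
        · rw [ha, zero_smul]; exact Submodule.zero_mem _
        · exfalso
          apply hZ
          have := Z.smul_mem a⁻¹ hz1
          rwa [smul_smul, inv_mul_cancel₀ ha, one_smul] at this
      rw [h2, finrank_bot, finrank_span_singleton hy0] at h1
      omega
    refine ⟨K ⊔ F ∙ y, ?_, ?_⟩
    · rw [hgrow K (fun h => hy (Submodule.mem_sup_right h)), hK]
    · intro X hXV
      have h1 := hX X hXV
      rw [← sup_assoc]
      by_cases hyX : y ∈ imageSum B₀ B X ⊔ K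
      · have h2 : ¬ tight X := by
          intro ht
          exact hy (sup_le_sup_right (imageSum_mono B₀ B (hall X ht)) K hyX)
        have h3 : finrank F (imageSum B₀ B X ⊔ K : Submodule F (ι → F)) ≠ finrank F X + j :=
          fun h => h2 ⟨hXV, h⟩
        have h4 : finrank F (imageSum B₀ B X ⊔ K : Submodule F (ι → F)) ≤
            finrank F (imageSum B₀ B X ⊔ K ⊔ F ∙ y : Submodule F (ι → F)) :=
          Submodule.finrank_mono le_sup_left
        omega
      · rw [hgrow _ hyX]
        omega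

theorem imageSum_conj {r : ℕ} (S : Matrix (Fin r) ι F) (T : Matrix ι (Fin r) F)
    (B₀ : Matrix ι ι F) (B : κ → Matrix ι ι F) (Y : Submodule F (Fin r → F)) :
    imageSum (S * B₀ * T) (fun k => S * B k * T) Y =
      (imageSum B₀ B (Y.map T.mulVecLin)).map S.mulVecLin := by
  have h : ∀ A : Matrix ι ι F, Y.map (S * A * T).mulVecLin =
      ((Y.map T.mulVecLin).map A.mulVecLin).map S.mulVecLin := by
    intro A
    rw [Matrix.mulVecLin_mul, Matrix.mulVecLin_mul, Submodule.map_comp, Submodule.map_comp]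
  rw [imageSum, imageSum, Submodule.map_sup, Submodule.map_iSup, h]
  simp only [h]

/-- A compression without shrunk subspace of the size of the noncommutative rank. -/
theorem exists_compression (B₀ : Matrix ι ι F) (B : κ → Matrix ι ι F) :
    ∃ (U : Submodule F (ι → F)) (r : ℕ) (S : Matrix (Fin r) ι F) (T : Matrix ι (Fin r) F),
      Fintype.card ι + finrank F (imageSum B₀ B U) = finrank F U + r ∧ r ≤ Fintype.card ι ∧
      ¬ Shrunk (S * B₀ * T) (fun k => S * B k * T) := by
  classical
  -- the largest deficiency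
  have hbd : ∀ X : Submodule F (ι → F), finrank F X ≤ Fintype.card ι := fun X => by
    have := Submodule.finrank_le X
    rwa [Module.finrank_fintype_fun_eq_card] at this
  have hex : ∃ d, ∃ X : Submodule F (ι → F),
      Fintype.card ι + finrank F (imageSum B₀ B X) - finrank F X = d := ⟨_, ⊥, rfl⟩
  obtain ⟨U, hU⟩ := Nat.find_spec hex
  set r := Nat.find hex with hr
  have hUle := hbd U
  have hrn : r ≤ Fintype.card ι := by
    refine (Nat.find_min' hex ⟨⊥, rfl⟩).trans ?_
    rw [imageSum_bot, finrank_bot]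
    omega
  have hmin : ∀ X : Submodule F (ι → F),
      finrank F X ≤ finrank F (imageSum B₀ B X) + (Fintype.card ι - r) := by
    intro X
    have h1 := Nat.find_min' hex ⟨X, rfl⟩
    have h2 := hbd X
    omega
  obtain ⟨V, hV, hVX⟩ := cut_columns B₀ B (Fintype.card ι - r) hmin (by omega)
    (Fintype.card ι - r) le_rfl
  have hV' : finrank F V = r := by omega
  have hVX' : ∀ X ≤ V, finrank F X ≤ finrank F (imageSum B₀ B X) := by
    intro X hX
    have := hVX X hX
    omega
  obtain ⟨K, hK, hKX⟩ := cut_rows B₀ B V hVX' (Fintype.card ι - r) (by omega)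
  -- the compression
  let bV : Basis (Fin r) F V := Module.finBasisOfFinrankEq F V hV'
  let eV : (Fin r → F) ≃ₗ[F] V := bV.equivFun.symm
  let T : Matrix ι (Fin r) F := LinearMap.toMatrix' (V.subtype.comp eV.toLinearMap)
  have hT : T.mulVecLin = V.subtype.comp eV.toLinearMap := by
    apply LinearMap.ext
    intro x
    rw [Matrix.mulVecLin_apply, ← Matrix.toLin'_apply]
    rw [Matrix.toLin'_toMatrix']
  have hquot : finrank F ((ι → F) ⧸ K) = r := by
    have h1 := Submodule.finrank_quotient_add_finrank K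
    rw [Module.finrank_fintype_fun_eq_card] at h1
    omega
  let bQ : Basis (Fin r) F ((ι → F) ⧸ K) := Module.finBasisOfFinrankEq F _ hquot
  let eQ : ((ι → F) ⧸ K) ≃ₗ[F] (Fin r → F) := bQ.equivFun
  let S : Matrix (Fin r) ι F := LinearMap.toMatrix' (eQ.toLinearMap.comp K.mkQ)
  have hS : S.mulVecLin = eQ.toLinearMap.comp K.mkQ := by
    apply LinearMap.ext
    intro x
    rw [Matrix.mulVecLin_apply, ← Matrix.toLin'_apply]
    rw [Matrix.toLin'_toMatrix']
  refine ⟨U, r, S, T, by omega, hrn, ?_⟩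
  rintro ⟨Y, hY⟩
  rw [imageSum_conj] at hY
  set X := Y.map T.mulVecLin with hX
  have hXV : X ≤ V := by
    rintro _ ⟨y, -, rfl⟩
    rw [hT]
    exact (eV y).2
  have hXY : finrank F X = finrank F Y := by
    have hinj : Function.Injective T.mulVecLin := by
      rw [hT]
      exact V.injective_subtype.comp eV.injective
    exact (Submodule.equivMapOfInjective T.mulVecLin hinj Y).finrank_eq.symm
  have h1 := hKX X hXV
  have h2 := finrank_map_add_inf S.mulVecLin (imageSum B₀ B X)
  have hker : LinearMap.ker S.mulVecLin = K := by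
    rw [hS, LinearMap.ker_comp, LinearEquiv.ker, Submodule.comap_bot, Submodule.ker_mkQ]
  rw [hker] at h2
  have h3 := Submodule.finrank_sup_add_finrank_inf_eq (imageSum B₀ B X) K
  omega

end

end Pool.Agent.Lib.MP_64d474_lc
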