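import Mathlib
import Pool.Agent.Lib.MP_64d474_lc.YnPoint
import Pool.Agent.Lib.MP_64d474_lc.YnCompress

/-!
A point on one of the explicit monomial curves at which the rank is at least almost half of the
noncommutative rank.
-/

open Matrix Module MvPolynomial

set_option linter.unusedSectionVars false

namespace Pool.Agent.Lib.MP_64d474_lc

section

theorem exists_prime_window3 (n m s : ℕ) : ∃ p, p.Prime ∧ p ≤ 32 * (n + m + 2 ^ s) ^ 5 ∧
    (2 * m + 1) ^ 2 * m < p ∧ (2 * n) ^ 4 * m < p ∧ 2 ^ s < p := by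
  set M := n + m + 2 ^ s with hM
  have h2s : 1 ≤ 2 ^ s := Nat.one_le_two_pow
  have hM1 : 1 ≤ M := by omega
  obtain ⟨p, hp, h1, h2⟩ := Nat.exists_prime_lt_and_le_two_mul (16 * M ^ 5) (by positivity)
  refine ⟨p, hp, by linarith, ?_, ?_, ?_⟩
  · refine lt_of_le_of_lt ?_ h1
    calc (2 * m + 1) ^ 2 * m ≤ (2 * M) ^ 2 * M :=
          Nat.mul_le_mul (Nat.pow_le_pow_left (by omega) 2) (by omega)
      _ = 4 * M ^ 3 := by ring
      _ ≤ 16 * M ^ 5 := Nat.mul_le_mul (by norm_num) (Nat.pow_le_pow_right hM1 (by norm_num))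
  · refine lt_of_le_of_lt ?_ h1
    calc (2 * n) ^ 4 * m ≤ (2 * M) ^ 4 * M :=
          Nat.mul_le_mul (Nat.pow_le_pow_left (by omega) 4) (by omega)
      _ = 16 * M ^ 5 := by ring
  · refine lt_of_le_of_lt ?_ h1
    calc 2 ^ s ≤ M := by omega
      _ ≤ M ^ 5 := Nat.le_self_pow (by norm_num) M
      _ ≤ 16 * M ^ 5 := by omega

variable {F : Type*} [Field F] [CharZero F] {ι : Type*} [Fintype ι] [DecidableEq ι] {m : ℕ}

theorem approx_point {n s : ℕ} (hn : Fintype.card ι ≤ n) (A₀ : Matrix ι ι F)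
    (A : Fin m → Matrix ι ι F) (hns : ¬ Shrunk A₀ A) :
    ∃ p ≤ 32 * (n + m + 2 ^ s) ^ 5, p.Prime ∧ ∃ b : Fin s → ℕ, (∀ i, b i < p) ∧
      ∃ t < (n * (32 * (n + m + 2 ^ s) ^ 5) + 1) ^ s, ∀ T a c : ℕ, 1 ≤ T → 4 * T ≤ 2 ^ s →
        n * c ^ T ≤ a ^ T → c * Fintype.card ι ≤ 2 * a *
          (A₀ + ∑ k : Fin m, ((t ^ dig p (n * (32 * (n + m + 2 ^ s) ^ 5) + 1) b k : ℕ) : F) •
            A k).rank := by
  obtain ⟨p, hp, hpR, hp1, hp2, hp3⟩ := exists_prime_window3 n m s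
  set N := n * (32 * (n + m + 2 ^ s) ^ 5) + 1 with hN
  have hNp : n * p < N := by
    rw [hN]
    exact Nat.lt_succ_of_le (Nat.mul_le_mul_left n hpR)
  cases s with
  | zero =>
    refine ⟨p, hpR, hp, fun i => i.elim0, fun i => i.elim0, 0, by simp, ?_⟩
    intro T a c h1 h2
    rw [pow_zero] at h2
    omega
  | succ s =>
    obtain ⟨b, hb, Λ, i1, i2, P, -, hP, hns', hcl⟩ := chain3 hn hp hNp hp1 hp2 A₀ A hns s hp3
    obtain ⟨t, ht, hrank⟩ := link_point hn hp.pos hNp A₀ A P b hP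
    refine ⟨p, hpR, hp, b, hb, t, ht, ?_⟩
    intro T a c h1 h2 h3
    have h4 : Fintype.card ι * c ^ T ≤ a ^ T := (Nat.mul_le_mul_right _ hn).trans h3
    exact (P.rank_bound hns' hcl h1 h2 h4).trans (Nat.mul_le_mul_left _ hrank)

end

end Pool.Agent.Lib.MP_64d474_lc
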