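import Mathlib
import Pool.Agent.Lib.MP_64d474_lc.HnChain
import Pool.Agent.Lib.MP_64d474_lc.YnFinal

/-!
The entropy of a labelling, and the rank of a matrix whose blocks are strictly triangular.
-/

open Matrix Module

set_option linter.unusedSectionVars false

namespace Pool.Agent.Lib.MP_64d474_lc

section

variable {E Λ : Type*} [Fintype E] [DecidableEq Λ]

/-- the number of elements with label `g` -/
def bsz (l : E → Λ) (g : Λ) : ℕ := (Finset.univ.filter fun e => l e = g).card

theorem bsz_pos (l : E → Λ) (e : E) : 0 < bsz l (l e) := by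
  rw [bsz, Finset.card_pos]
  exact ⟨e, Finset.mem_filter.mpr ⟨Finset.mem_univ e, rfl⟩⟩

/-- the entropy of a labelling -/
noncomputable def ent (l : E → Λ) : ℝ := ∑ e, Real.log (bsz l (l e))

theorem ent_nonneg (l : E → Λ) : 0 ≤ ent l := by
  refine Finset.sum_nonneg fun e _ => Real.log_nonneg ?_
  exact_mod_cast bsz_pos l e

/-- The entropy drops when the labelling is refined. -/
theorem ent_drop (l : E → Λ) (h : E → ℤ) (r : ℕ)
    (hr : ∀ h₀ : Λ → ℤ, r ≤ (Finset.univ.filter fun e => h e ≠ h₀ (l e)).card) :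
    ent (fun e => ((l e, h e) : Λ × ℤ)) + r ≤ ent l := by
  classical
  set l' : E → Λ × ℤ := fun e => (l e, h e) with hl'
  have hex : ∀ g : Λ, ∃ c : ℤ, ∀ c' : ℤ, bsz l' (g, c') ≤ bsz l' (g, c) := by
    intro g
    obtain ⟨D, ⟨c, hc⟩, hD⟩ := Int.exists_greatest_of_bdd
      (P := fun z => ∃ c : ℤ, (bsz l' (g, c) : ℤ) = z) ⟨Fintype.card E, by
        rintro z ⟨c, rfl⟩
        exact_mod_cast (Finset.card_filter_le _ _)⟩ ⟨_, 0, rfl⟩
    refine ⟨c, fun c' => ?_⟩
    have := hD _ ⟨c', rfl⟩
    rw [← hc] at this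
    exact_mod_cast this
  choose h₀ hh₀ using hex
  have hterm : ∀ e, Real.log (bsz l' (l' e)) + (1 - (bsz l' (l e, h₀ (l e)) : ℝ) / bsz l (l e)) ≤
      Real.log (bsz l (l e)) := by
    intro e
    have h1 : (0 : ℝ) < bsz l' (l' e) := by exact_mod_cast bsz_pos l' e
    have h2 : (0 : ℝ) < bsz l (l e) := by exact_mod_cast bsz_pos l e
    have h3 := Real.log_le_sub_one_of_pos (div_pos h1 h2)
    rw [Real.log_div h1.ne' h2.ne'] at h3
    have h4 : (bsz l' (l' e) : ℝ) / bsz l (l e) ≤ (bsz l' (l e, h₀ (l e)) : ℝ) / bsz l (l e) := by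
      refine div_le_div_of_nonneg_right ?_ h2.le
      exact_mod_cast hh₀ (l e) (h e)
    linarith
  have hsum := Finset.sum_le_sum fun e (_ : e ∈ Finset.univ) => hterm e
  rw [Finset.sum_add_distrib] at hsum
  have h5 : ∑ e, (1 - (bsz l' (l e, h₀ (l e)) : ℝ) / bsz l (l e)) =
      ((Finset.univ.filter fun e => h e ≠ h₀ (l e)).card : ℝ) := by
    rw [Finset.sum_sub_distrib]
    have h6 : ∑ e, (bsz l' (l e, h₀ (l e)) : ℝ) / bsz l (l e) =
        ((Finset.univ.filter fun e => h e = h₀ (l e)).card : ℝ) := by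
      rw [Finset.sum_comp (fun g => (bsz l' (g, h₀ g) : ℝ) / bsz l g) l]
      rw [Finset.card_eq_sum_card_fiberwise (f := l) (t := Finset.univ.image l)
        (fun e _ => Finset.mem_image_of_mem l (Finset.mem_univ e))]
      push_cast
      refine Finset.sum_congr rfl fun g hg => ?_
      obtain ⟨e, -, rfl⟩ := Finset.mem_image.mp hg
      have h2 : (0 : ℝ) < bsz l (l e) := by exact_mod_cast bsz_pos l e
      have h7 : (Finset.univ.filter fun e' => l e' = l e).card = bsz l (l e) := rfl
      rw [h7, nsmul_eq_mul, mul_div_cancel₀ _ h2.ne']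
      norm_cast
      rw [bsz]
      congr 1
      ext e'
      simp only [hl', Finset.mem_filter, Finset.mem_univ, true_and, Prod.mk.injEq]
      constructor
      · rintro ⟨h1, h2⟩
        exact ⟨by rw [h1]; exact h2, h1⟩
      · rintro ⟨h1, h2⟩
        exact ⟨h2, by rw [← h2]; exact h1⟩
    rw [h6, Finset.sum_const, nsmul_eq_mul, mul_one]
    have h8 := Finset.card_filter_add_card_filter_not (s := (Finset.univ : Finset E))
      (fun e => h e = h₀ (l e))
    have h9 : ((Finset.univ : Finset E).card : ℝ) =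
        ((Finset.univ.filter fun e => h e = h₀ (l e)).card : ℝ) +
        ((Finset.univ.filter fun e => ¬ h e = h₀ (l e)).card : ℝ) := by
      exact_mod_cast h8.symm
    rw [h9]
    ring
  have h10 : (r : ℝ) ≤ ((Finset.univ.filter fun e => h e ≠ h₀ (l e)).card : ℝ) := by
    exact_mod_cast hr h₀
  rw [h5] at hsum
  have h11 : ent l' = ∑ e, Real.log (bsz l' (l' e)) := rfl
  have h12 : ent l = ∑ e, Real.log (bsz l (l e)) := rfl
  rw [h11, h12]
  linarith

end

section

variable {F : Type*} [Field F] {ι κ : Type*} [Fintype ι] [DecidableEq ι] [Fintype κ]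
  [DecidableEq κ]

/-- a matrix whose nonzero entries are covered by few rows and columns -/
theorem rank_le_cover (M : Matrix ι ι F) (P Q : ι → Prop) [DecidablePred P] [DecidablePred Q]
    (h : ∀ i j, M i j ≠ 0 → P i ∨ Q j) :
    M.rank ≤ (Finset.univ.filter P).card + (Finset.univ.filter Q).card := by
  have h1 := rank_add_finrank_le M (bsp F (fun j => decide (Q j)) false)
    (bsp F (fun i => decide (P i)) true) (by
      rintro _ ⟨x, hx, rfl⟩ i hi
      rw [Matrix.mulVecLin_apply, mulVec, dotProduct]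
      refine Finset.sum_eq_zero fun j _ => ?_
      by_cases hM : M i j = 0
      · rw [hM, zero_mul]
      · rcases h i j hM with h2 | h2
        · exact absurd (decide_eq_true h2) hi
        · rw [hx j, mul_zero]
          show decide (Q j) ≠ false
          simp [h2])
  rw [finrank_bsp, finrank_bsp, Fintype.card_subtype, Fintype.card_subtype] at h1
  have h2 : (Finset.univ.filter fun j => decide (Q j) = false).card =
      (Finset.univ.filter fun j => ¬ Q j).card := by
    congr 1
    ext j
    simp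
  have h3 : (Finset.univ.filter fun i => decide (P i) = true).card =
      (Finset.univ.filter P).card := by
    congr 1
    ext j
    simp
  rw [h2, h3] at h1
  have h4 := Finset.card_filter_add_card_filter_not (s := (Finset.univ : Finset ι)) Q
  rw [Finset.card_univ] at h4
  omega

/-- the labels of the rows and columns -/
def rcl {Λ : Type*} [AddCommGroup Λ] (a b : ι → Λ) (μ : Λ) : ι ⊕ ι → Λ :=
  Sum.elim a fun j => μ - b j

/-- the rank of a homogeneous matrix without entries of negative potential -/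
theorem rank_le_rcl {Λ : Type*} [AddCommGroup Λ] [DecidableEq Λ] (a b : ι → Λ) (μ : Λ)
    (M : Matrix ι ι F) (hM : ∀ i j, M i j ≠ 0 → a i + b j = μ) (ρ σ : ι → ℤ)
    (hf : ∀ i j, M i j ≠ 0 → 0 ≤ 0 + ρ i + σ j) (h₀ : Λ → ℤ) :
    M.rank ≤ (Finset.univ.filter fun e : ι ⊕ ι =>
      (Sum.elim ρ fun j => -1 - σ j) e ≠ h₀ (rcl a b μ e)).card := by
  classical
  refine (rank_le_cover M (fun i => ρ i ≠ h₀ (a i)) (fun j => -1 - σ j ≠ h₀ (μ - b j))
    fun i j hij => ?_).trans ?_
  · by_contra hcon
    push Not at hcon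
    have h1 := hM i j hij
    have h2 := hf i j hij
    have h3 : μ - b j = a i := by rw [← h1, add_sub_cancel_right]
    rw [h3] at hcon
    omega
  · rw [← Finset.card_map (Function.Embedding.inl : ι ↪ ι ⊕ ι),
      ← Finset.card_map (Function.Embedding.inr : ι ↪ ι ⊕ ι),
      ← Finset.card_union_of_disjoint]
    · refine Finset.card_le_card ?_
      intro e he
      rw [Finset.mem_union, Finset.mem_map, Finset.mem_map] at he
      rw [Finset.mem_filter]
      refine ⟨Finset.mem_univ _, ?_⟩
      rcases he with ⟨i, hi, rfl⟩ | ⟨i, hi, rfl⟩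
      · exact (Finset.mem_filter.mp hi).2
      · exact (Finset.mem_filter.mp hi).2
    · rw [Finset.disjoint_left]
      intro e he he'
      rw [Finset.mem_map] at he he'
      obtain ⟨i, -, rfl⟩ := he
      obtain ⟨j, -, hj⟩ := he'
      exact Sum.inr_ne_inl hj

end

end Pool.Agent.Lib.MP_64d474_lc
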