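import Mathlib
import Pool.Agent.Lib.MP_64d474_lc.HnEntropy

/-!
A few points of an approximating set span a space without long chains.
-/

open Matrix Module

set_option linter.unusedSectionVars false

namespace Pool.Agent.Lib.MP_64d474_lc

section

variable {F : Type*} [Field F] {ι : Type*} [Fintype ι] [DecidableEq ι] {m : ℕ}

/-- The set `S` approximates the noncommutative rank of all families indexed by `ι` within the
factor `κ`. -/
def NcApprox (ι : Type*) [Fintype ι] [DecidableEq ι] (S : Set (Fin m → F)) (κ : ℕ) : Prop :=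
  ∀ C : Fin m → Matrix ι ι F, ∃ a ∈ S, ∃ U : Submodule F (ι → F),
    Fintype.card ι + finrank F (imageSum 0 C U) ≤ finrank F U + κ * (∑ k, a k • C k).rank

/-- the weights: `0` on the left and `1` on the right -/
def w01 {τ : Type*} {m : ℕ} : τ ⊕ Fin m → ℤ := Sum.elim (fun _ => 0) fun _ => 1

/-- the value of the family at a point -/
def evC (C : Fin m → Matrix ι ι F) (v : Fin m → F) : Matrix ι ι F := ∑ k, v k • C k

omit [DecidableEq ι] in
theorem evC_ne {C : Fin m → Matrix ι ι F} {v : Fin m → F} {i j : ι} (h : evC C v i j ≠ 0) :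
    ∃ k, C k i j ≠ 0 := by
  rw [evC, Matrix.sum_apply] at h
  obtain ⟨k, _, hk⟩ := Finset.exists_ne_zero_of_sum_ne_zero h
  exact ⟨k, right_ne_zero_of_mul hk⟩

theorem evC_equiv (C : Fin m → Matrix ι ι F) (v : Fin m → F) (S T : Matrix ι ι F) :
    S * evC C v * T = evC (fun k => S * C k * T) v := by
  rw [evC, evC, Matrix.mul_sum, Matrix.sum_mul]
  refine Finset.sum_congr rfl fun k _ => ?_
  rw [Matrix.mul_smul, Matrix.smul_mul]

theorem evC_lead2 (C : Fin m → Matrix ι ι F) (v : Fin m → F) (w : ℤ) (ρ σ : ι → ℤ) :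
    lead2 w ρ σ (evC C v) = evC (fun k => lead2 w ρ σ (C k)) v := by
  ext i j
  rw [lead2, evC, evC, Matrix.sum_apply, Matrix.sum_apply]
  split_ifs with h
  · refine Finset.sum_congr rfl fun k _ => ?_
    rw [Matrix.smul_apply, Matrix.smul_apply, lead2, if_pos h]
  · symm
    refine Finset.sum_eq_zero fun k _ => ?_
    rw [Matrix.smul_apply, lead2, if_neg h, smul_zero]

theorem shrunk_of_comp {κ κ' : Type*} [Fintype κ] [DecidableEq κ] [Fintype κ'] [DecidableEq κ']
    (M : κ → Matrix ι ι F) (f : κ' → κ) (h : Shrunk 0 M) : Shrunk 0 (fun k => M (f k)) := by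
  obtain ⟨U, hU⟩ := h
  refine ⟨U, lt_of_le_of_lt (Submodule.finrank_mono ?_) hU⟩
  exact imageSum_le (fun x _ => by rw [Matrix.zero_mulVec]; exact Submodule.zero_mem _)
    (fun k x hx => mem_imageSum (f k) hx)

theorem phase_aux [CharZero F] (S : Set (Fin m → F)) (κ D : ℕ) (hS : NcApprox ι S κ) :
    ∀ (J : ℕ) (Λ : Type) [AddCommGroup Λ] [DecidableEq Λ], Sep Λ → ∀ (τ : Type) [Fintype τ]
      [DecidableEq τ] (α : τ → Matrix ι ι F) (C : Fin m → Matrix ι ι F) (a b : ι → Λ) (ν : τ → Λ)
      (μ : Λ), (∀ t i j, α t i j ≠ 0 → a i + b j = ν t) →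
      (∀ k i j, C k i j ≠ 0 → a i + b j = μ) → ¬ Shrunk 0 (Sum.elim α C) →
      (∀ Z : Submodule F (ι → F), finrank F Z ≤ finrank F (imageSum 0 C Z) + D) →
      (∀ v : Fin J → Fin m → F, (∀ i, v i ∈ S) →
        HasChain (Sum.elim (Sum.elim α fun i => evC C (v i)) C) w01
          ((Fintype.card ι : ℤ) - D)) →
      (J : ℝ) * ((Fintype.card ι : ℝ) - D) ≤ κ * ent (rcl a b μ) := by
  classical
  intro J
  induction J with
  | zero =>
    intro Λ _ _ hsep τ _ _ α C a b ν μ hα hC hns hcor hch
    rw [Nat.cast_zero, zero_mul]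
    exact mul_nonneg (Nat.cast_nonneg _) (ent_nonneg _)
  | succ J ih =>
    intro Λ _ _ hsep τ _ _ α C a b ν μ hα hC hns hcor hch
    obtain ⟨a₁, ha₁, U, hU⟩ := hS C
    have hr : Fintype.card ι ≤ D + κ * (evC C a₁).rank := by
      have := hcor U
      have h2 : (evC C a₁).rank = (∑ k, a₁ k • C k).rank := rfl
      rw [h2]
      omega
    -- the enlarged tuple
    set M : (τ ⊕ Unit) ⊕ Fin m → Matrix ι ι F := Sum.elim (Sum.elim α fun _ => evC C a₁) C with hM
    have hML : ∀ k i j, M k i j ≠ 0 → a i + b j =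
        (Sum.elim (Sum.elim ν fun _ => μ) fun _ => μ : (τ ⊕ Unit) ⊕ Fin m → Λ) k := by
      rintro ((t | u) | k) i j h
      · exact hα t i j h
      · obtain ⟨k, hk⟩ := evC_ne h
        exact hC k i j hk
      · exact hC k i j h
    have hMns : ¬ Shrunk 0 M := by
      intro hsh
      apply hns
      have := shrunk_of_comp M (Sum.map Sum.inl id : τ ⊕ Fin m → (τ ⊕ Unit) ⊕ Fin m) hsh
      have e : (fun k => M ((Sum.map Sum.inl id : τ ⊕ Fin m → (τ ⊕ Unit) ⊕ Fin m) k)) =
          Sum.elim α C := by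
        funext k
        rcases k with k | k <;> rfl
      rwa [e] at this
    obtain ⟨X, Y, ρ, σ, hX, hY, hXa, hYb, hF, hns'⟩ := exists_opt hsep a b M _ hML w01
      (by rintro (k | k) <;> simp [w01]) (by rintro (k | k) <;> simp [w01]) hMns
    -- the new state
    set α' : τ ⊕ Unit → Matrix ι ι F := fun t =>
      lead2 0 ρ σ (X * (Sum.elim α fun _ => evC C a₁) t * Y) with hα'
    set C' : Fin m → Matrix ι ι F := fun k => lead2 1 ρ σ (X * C k * Y) with hC'
    have hel : (fun k => lead2 (w01 k) ρ σ (X * M k * Y)) = Sum.elim α' C' := by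
      funext k
      rcases k with k | k <;> rfl
    rw [hel] at hns'
    have hL₀ : ∀ t i j, (X * (Sum.elim α fun _ => evC C a₁) t * Y) i j ≠ 0 → a i + b j =
        (Sum.elim ν fun _ => μ : τ ⊕ Unit → Λ) t := by
      intro t i j h
      obtain ⟨i', j', h1, h2, h3⟩ := equiv_ne h
      rw [hXa i i' h1, ← hYb j' j h3]
      exact hML (Sum.inl t) i' j' h2
    have hL₁ : ∀ k i j, (X * C k * Y) i j ≠ 0 → a i + b j = μ := by
      intro k i j h
      obtain ⟨i', j', h1, h2, h3⟩ := equiv_ne h
      rw [hXa i i' h1, ← hYb j' j h3]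
      exact hC k i' j' h2
    -- the chain of the enlarged tuple
    have hval : ((Fintype.card ι : ℤ) - D) ≤ -(∑ i, ρ i + ∑ j, σ j) := by
      have h1 := hch (fun _ => a₁) (fun _ => ha₁)
      have h2 := (h1.comp (Sum.map (Sum.map id fun _ => 0) id :
        (τ ⊕ Unit) ⊕ Fin m → (τ ⊕ Fin (J + 1)) ⊕ Fin m)).equiv X Y hX hY
      have e1 : (fun k => X * (Sum.elim (Sum.elim α fun _ : Fin (J + 1) => evC C a₁) C)
          ((Sum.map (Sum.map id fun _ => 0) id :
          (τ ⊕ Unit) ⊕ Fin m → (τ ⊕ Fin (J + 1)) ⊕ Fin m) k) * Y) = fun k => X * M k * Y := by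
        funext k
        rcases k with (k | k) | k <;> rfl
      have e2 : (fun k => w01 ((Sum.map (Sum.map id fun _ => 0) id :
          (τ ⊕ Unit) ⊕ Fin m → (τ ⊕ Fin (J + 1)) ⊕ Fin m) k)) = w01 := by
        funext k
        rcases k with (k | k) | k <;> rfl
      rw [e1, e2] at h2
      exact h2.le_of_feas ρ σ hF (by rw [hel]; exact hns')
    -- the entropy
    have hent : ent (rcl (fun i => ((a i, ρ i) : Λ × ℤ)) (fun j => (b j, σ j)) (μ, -1)) +
        (evC C a₁).rank ≤ ent (rcl a b μ) := by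
      have e1 : rcl (fun i => ((a i, ρ i) : Λ × ℤ)) (fun j => (b j, σ j)) (μ, -1) =
          fun e => ((rcl a b μ e, (Sum.elim ρ fun j => -1 - σ j) e) : Λ × ℤ) := by
        funext e
        rcases e with e | e <;> rfl
      rw [e1]
      refine ent_drop _ _ _ fun h₀ => ?_
      have h1 := rank_le_rcl a b μ (X * evC C a₁ * Y)
        (fun i j h => hL₀ (Sum.inr ()) i j h) ρ σ (fun i j h => hF (Sum.inl (Sum.inr ())) i j h) h₀
      have h2 : (X * evC C a₁ * Y).rank = (evC C a₁).rank := by
        rw [Matrix.rank_mul_eq_left_of_isUnit_det _ _ (isUnit_iff_ne_zero.mpr hY),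
          Matrix.rank_mul_eq_right_of_isUnit_det _ _ (isUnit_iff_ne_zero.mpr hX)]
      rw [h2] at h1
      exact h1
    -- induction
    have hind := ih (Λ × ℤ) hsep.prod (τ ⊕ Unit) α' C' (fun i => (a i, ρ i)) (fun j => (b j, σ j))
      (fun t => ((Sum.elim ν fun _ => μ : τ ⊕ Unit → Λ) t, -0)) (μ, -1)
      (fun t i j h => lead2_homog (hL₀ t) 0 ρ σ i j h)
      (fun k i j h => lead2_homog (hL₁ k) 1 ρ σ i j h) hns'
      (fun Z => by
        have h1 := corank_le α' C' ρ σ (fun t i j h => by
            have := (lead2_ne h).1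
            linarith)
          (fun k i j h => (lead2_ne h).1) hns' Z
        have h2 : (finrank F Z : ℤ) ≤ finrank F (imageSum 0 C' Z) + D := by linarith
        exact_mod_cast h2)
      (fun v hv => by
        have h1 := hch (Fin.cons a₁ v) (fun i => by
          refine Fin.cases ha₁ (fun i => ?_) i
          exact hv i)
        set f : ((τ ⊕ Unit) ⊕ Fin J) ⊕ Fin m → (τ ⊕ Fin (J + 1)) ⊕ Fin m :=
          Sum.map (Sum.elim (Sum.map id fun _ => 0) fun i => Sum.inr i.succ) id with hf
        have h2 := (h1.comp f).equiv X Y hX hY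
        have h3 := h2.lead (Sum.elim (Sum.elim (fun _ => 0) fun _ => 1) fun _ => 1) ρ σ (by
          rintro (((t | u) | i) | k) p q h
          · exact hF (Sum.inl (Sum.inl t)) p q h
          · exact hF (Sum.inl (Sum.inr u)) p q h
          · have h4 : (X * evC C (v i) * Y) p q ≠ 0 := h
            rw [evC_equiv] at h4
            obtain ⟨k, hk⟩ := evC_ne h4
            exact hF (Sum.inr k) p q hk
          · exact hF (Sum.inr k) p q h)
        have e1 : (fun k => w01 (f k)) = (w01 : ((τ ⊕ Unit) ⊕ Fin J) ⊕ Fin m → ℤ) := by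
          funext k
          rcases k with ((k | k) | k) | k <;> rfl
        have e2 : (fun k => lead2 ((Sum.elim (Sum.elim (fun _ => 0) fun _ => 1) fun _ => 1 :
            ((τ ⊕ Unit) ⊕ Fin J) ⊕ Fin m → ℤ) k) ρ σ (X * (Sum.elim (Sum.elim α fun i =>
              evC C ((Fin.cons a₁ v : Fin (J + 1) → Fin m → F) i)) C) (f k) * Y)) =
            Sum.elim (Sum.elim α' fun i => evC C' (v i)) C' := by
          funext k
          rcases k with ((k | k) | i) | k
          · rfl
          · rfl
          · show lead2 1 ρ σ (X * evC C (v i) * Y) = evC C' (v i)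
            rw [evC_equiv, evC_lead2]
          · rfl
        rw [e1] at h3
        exact e2 ▸ h3)
    have hκ : (0 : ℝ) ≤ κ := Nat.cast_nonneg _
    have h5 := mul_le_mul_of_nonneg_left hent hκ
    have h6 : (Fintype.card ι : ℝ) ≤ D + κ * ((evC C a₁).rank : ℝ) := by exact_mod_cast hr
    push_cast
    rw [mul_add] at h5
    linarith

/-- A few points of an approximating set span a space without long chains. -/
theorem phase [CharZero F] (S : Set (Fin m → F)) (κ D J : ℕ) (hS : NcApprox ι S κ)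
    (C : Fin m → Matrix ι ι F) (hns : ¬ Shrunk 0 C)
    (hJ : κ * (2 * Fintype.card ι * Real.log (2 * Fintype.card ι)) <
      J * ((Fintype.card ι : ℝ) - D)) :
    ∃ v : Fin J → Fin m → F, (∀ i, v i ∈ S) ∧
      ¬ HasChain (Sum.elim (fun i => evC C (v i)) C) w01 ((Fintype.card ι : ℤ) - D) := by
  by_contra hcon
  push Not at hcon
  have h0 : ∀ Z : Submodule F (ι → F), finrank F Z ≤ finrank F (imageSum 0 C Z) := by
    intro Z
    by_contra hcon
    exact hns ⟨Z, not_le.mp hcon⟩
  have h1 := phase_aux (F := F) (ι := ι) S κ D hS J ℤ sep_int Empty (fun t => t.elim) C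
    (fun _ => 0) (fun _ => 0) (fun t => t.elim) 0 (fun t => t.elim) (fun _ _ _ _ => rfl)
    (fun hsh => hns (by
      have := shrunk_of_comp (Sum.elim (fun t : Empty => (t.elim : Matrix ι ι F)) C)
        (Sum.inr : Fin m → Empty ⊕ Fin m) hsh
      exact this))
    (fun Z => (h0 Z).trans (Nat.le_add_right _ _))
    (fun v hv => by
      have h2 := (hcon v hv).comp (Sum.map (Sum.elim (fun t => t.elim) id) id :
        (Empty ⊕ Fin J) ⊕ Fin m → Fin J ⊕ Fin m)
      have e1 : (fun k => w01 ((Sum.map (Sum.elim (fun t => t.elim) id) id :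
          (Empty ⊕ Fin J) ⊕ Fin m → Fin J ⊕ Fin m) k)) =
          (w01 : (Empty ⊕ Fin J) ⊕ Fin m → ℤ) := by
        funext k
        rcases k with (k | k) | k
        · exact k.elim
        · rfl
        · rfl
      have e2 : (fun k => (Sum.elim (fun i => evC C (v i)) C)
          ((Sum.map (Sum.elim (fun t => t.elim) id) id :
          (Empty ⊕ Fin J) ⊕ Fin m → Fin J ⊕ Fin m) k)) =
          Sum.elim (Sum.elim (fun t => t.elim) fun i => evC C (v i)) C := by
        funext k
        rcases k with (k | k) | k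
        · exact k.elim
        · rfl
        · rfl
      rw [e1, e2] at h2
      exact h2)
  have h2 : ent (rcl (fun _ : ι => (0 : ℤ)) (fun _ : ι => (0 : ℤ)) 0) =
      2 * Fintype.card ι * Real.log (2 * Fintype.card ι) := by
    have h3 : ∀ e, rcl (fun _ : ι => (0 : ℤ)) (fun _ : ι => (0 : ℤ)) 0 e = 0 := by
      intro e
      rcases e with e | e
      · rfl
      · exact sub_zero 0
    have h4 : ∀ e, bsz (rcl (fun _ : ι => (0 : ℤ)) (fun _ : ι => (0 : ℤ)) 0)
        (rcl (fun _ : ι => (0 : ℤ)) (fun _ : ι => (0 : ℤ)) 0 e) = 2 * Fintype.card ι := by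
      intro e
      rw [bsz]
      rw [Finset.filter_true_of_mem (fun e' _ => by rw [h3, h3]), Finset.card_univ,
        Fintype.card_sum]
      ring
    rw [ent]
    simp only [h4]
    rw [Finset.sum_const, Finset.card_univ, Fintype.card_sum, nsmul_eq_mul]
    push_cast
    ring
  rw [h2] at h1
  linarith

end

end Pool.Agent.Lib.MP_64d474_lc
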