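import Mathlib
import Pool.Agent.Lib.MP_64d474_lc.XnStage
import Pool.Agent.Lib.MP_64d474_lc.WnStage

/-!
Classes of tuples with exact weighted duality: symmetric tuples whose coefficient matrices have
Witt index at most one, and tuples of matrices of rank at most one.
-/

open Matrix Module MvPolynomial

set_option linter.unusedSectionVars false

namespace Pool.Agent.Lib.MP_64d474_lc

section

variable {F : Type*} [Field F] {ι κ : Type*} [Fintype ι] [DecidableEq ι] [Fintype κ]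
  [DecidableEq κ] {Λ : Type*} [AddCommGroup Λ] [DecidableEq Λ]

/-- Exact symmetric dual solutions respecting the labels. -/
theorem witt_dual [CharZero F] (hsep : Sep Λ) (P : WPres F ι κ Λ) (hf : P.f ≠ 0) (w : κ → ℤ) :
    ∃ (S : Matrix ι ι F) (ρ : ι → ℤ), S.det ≠ 0 ∧ (∀ c d, S c d ≠ 0 → P.β c = P.β d) ∧
      FeasW (S * P.B₀ * Sᵀ) (fun k => S * P.B k * Sᵀ) w ρ ∧
      ∃ d, coeff d P.f ≠ 0 ∧ wt w d + ∑ c, ρ c = 0 := by
  classical
  let Q : ℤ → Prop := fun z => ∃ (S : Matrix ι ι F) (ρ : ι → ℤ), S.det ≠ 0 ∧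
    (∀ c d, S c d ≠ 0 → P.β c = P.β d) ∧
    FeasW (S * P.B₀ * Sᵀ) (fun k => S * P.B k * Sᵀ) w ρ ∧ ∑ c, ρ c = z
  have hcoef : ∀ (S : Matrix ι ι F) (ρ : ι → ℤ), S.det ≠ 0 →
      FeasW (S * P.B₀ * Sᵀ) (fun k => S * P.B k * Sᵀ) w ρ →
      (∀ d, coeff d P.f ≠ 0 → 0 ≤ wt w d + ∑ c, ρ c) ∧
      (∀ d, coeff d (symb (lead 0 ρ (S * P.B₀ * Sᵀ)) (fun k => lead (2 * w k) ρ
        (S * P.B k * Sᵀ))).det =
          if wt w d + ∑ c, ρ c = 0 then S.det ^ 2 * coeff d P.f else 0) := by
    intro S ρ hS hF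
    have h0 : ∀ i j, (S * P.B₀ * Sᵀ) i j ≠ 0 → 0 ≤ ρ i + ρ j := by
      intro i j h
      have := hF.1 i j h
      linarith
    have h1 : ∀ k i j, (S * P.B k * Sᵀ) i j ≠ 0 → 0 ≤ 2 * w k + ρ i + ρ j := hF.2
    have hdet : (symb (S * P.B₀ * Sᵀ) (fun k => S * P.B k * Sᵀ)).det =
        C (S.det ^ 2) * P.f := det_symb_conj S P.B₀ P.B
    refine ⟨fun d hd => ?_, fun d => ?_⟩
    · have hd' : coeff d (symb (S * P.B₀ * Sᵀ) (fun k => S * P.B k * Sᵀ)).det ≠ 0 := by
        rw [hdet, coeff_C_mul]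
        exact mul_ne_zero (pow_ne_zero 2 hS) hd
      have := coeff_nonneg_wt _ _ (fun k => 2 * w k) ρ h0 h1 d hd'
      rw [wt_two] at this
      linarith
    · rw [coeff_lead _ _ (fun k => 2 * w k) ρ h0 h1 d, wt_two, hdet, coeff_C_mul]
      by_cases h : wt w d + ∑ c, ρ c = 0
      · rw [if_pos (by linarith), if_pos h]
      · rw [if_neg (fun h' => h (by linarith)), if_neg h]
  obtain ⟨d₀, hd₀⟩ := MvPolynomial.exists_coeff_ne_zero hf
  have hbdd : ∃ bb : ℤ, ∀ z, Q z → bb ≤ z := by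
    refine ⟨- wt w d₀, ?_⟩
    rintro z ⟨S, ρ, hS, _, hF, rfl⟩
    have := (hcoef S ρ hS hF).1 d₀ hd₀
    linarith
  have hinh : ∃ z, Q z := by
    refine ⟨_, 1, fun _ => ∑ k, |w k|, ?_, ?_, ?_, rfl⟩
    · rw [Matrix.det_one]; exact one_ne_zero
    · intro c d hcd
      by_contra hne
      apply hcd
      rw [Matrix.one_apply_ne]
      rintro rfl
      exact hne rfl
    · have hnn : 0 ≤ ∑ k, |w k| := Finset.sum_nonneg fun k _ => abs_nonneg _
      refine ⟨fun c c' _ => by linarith, fun k c c' _ => ?_⟩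
      have h1 : |w k| ≤ ∑ k, |w k| :=
        Finset.single_le_sum (f := fun k => |w k|) (fun k _ => abs_nonneg _) (Finset.mem_univ k)
      have h2 := neg_abs_le (w k)
      show 0 ≤ 2 * w k + ∑ k, |w k| + ∑ k, |w k|
      linarith
  obtain ⟨z, ⟨S, ρ, hS, hSβ, hF, hz⟩, hmin⟩ := Int.exists_least_of_bdd hbdd hinh
  have hsymm : (S * P.B₀ * Sᵀ).IsSymm := conj_isSymm S _ P.symm₀
  have hsymmk : ∀ k, (S * P.B k * Sᵀ).IsSymm := fun k => conj_isSymm S _ (P.symm k)
  have hwitt : ∀ k, WittLeOne (S * P.B k * Sᵀ) := fun k => witt_conj S _ (P.witt k)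
  have hBβ : ∀ c c', (S * P.B₀ * Sᵀ) c c' ≠ 0 → P.β c + P.β c' = 0 := by
    intro c c' h
    obtain ⟨d, d', h1, h2, h3⟩ := conj_ne hSβ h
    rw [h2, h3]
    exact P.hB₀ d d' h1
  have hBkβ : ∀ k c c', (S * P.B k * Sᵀ) c c' ≠ 0 → P.β c + P.β c' = P.μ k := by
    intro k c c' h
    obtain ⟨d, d', h1, h2, h3⟩ := conj_ne hSβ h
    rw [h2, h3]
    exact P.hB k d d' h1
  have hdet : (symb (lead 0 ρ (S * P.B₀ * Sᵀ)) (fun k => lead (2 * w k) ρ
      (S * P.B k * Sᵀ))).det ≠ 0 := by
    intro h0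
    obtain ⟨T, ρ', hT, hTβ, hF', hlt⟩ := improveW hsep P.β (S * P.B₀ * Sᵀ) hsymm hBβ
      (fun k => S * P.B k * Sᵀ) hsymmk hwitt P.μ hBkβ w ρ hF (by rw [mul_zero]; exact h0)
    have hQ : Q (∑ c, ρ' c) := by
      refine ⟨T * S, ρ', ?_, ?_, ?_, rfl⟩
      · rw [Matrix.det_mul]; exact mul_ne_zero hT hS
      · intro c d h
        rw [Matrix.mul_apply] at h
        obtain ⟨e, _, he⟩ := Finset.exists_ne_zero_of_sum_ne_zero h
        rw [hTβ c e (left_ne_zero_of_mul he)]
        exact hSβ e d (right_ne_zero_of_mul he)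
      · have e1 : ∀ M : Matrix ι ι F, T * S * M * (T * S)ᵀ = T * (S * M * Sᵀ) * Tᵀ := by
          intro M
          rw [Matrix.transpose_mul]
          simp only [Matrix.mul_assoc]
        rw [e1]
        simp only [e1]
        exact hF'
    have := hmin _ hQ
    linarith
  obtain ⟨d, hd⟩ := MvPolynomial.exists_coeff_ne_zero hdet
  rw [(hcoef S ρ hS hF).2 d] at hd
  split_ifs at hd with h1
  · exact ⟨S, ρ, hS, hSβ, hF, d, right_ne_zero_of_mul hd, h1⟩
  · exact absurd rfl hd

/-- Rounding. -/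
theorem half_split (w a b : ℤ) (h : 0 ≤ 2 * w + a + b) :
    0 ≤ w + ((a + 1) / 2) + (b / 2) := by
  omega

theorem half_split' (w a b : ℤ) (h : 0 ≤ 2 * w + a + b) :
    0 ≤ w + (a / 2) + ((b + 1) / 2) := by
  omega

/-- A nonsingular symmetric tuple with coefficient matrices of Witt index at most one has exact
dual certificates. -/
theorem cert_of_witt [CharZero F] (B₀ : Matrix ι ι F) (h₀ : B₀.IsSymm) (B : κ → Matrix ι ι F)
    (hB : ∀ k, (B k).IsSymm) (hW : ∀ k, WittLeOne (B k)) (hf : (symb B₀ B).det ≠ 0)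
    (w : κ → ℤ) : Cert B₀ B w := by
  let P : WPres F ι κ ℤ :=
    { B₀ := B₀
      B := B
      β := fun _ => 0
      μ := fun _ => 0
      symm₀ := h₀
      symm := hB
      witt := hW
      hB₀ := fun _ _ _ => rfl
      hB := fun _ _ _ _ => rfl }
  obtain ⟨S, ρ, hS, -, hF, d, hd, hsum⟩ := witt_dual sep_int P hf w
  refine ⟨S, Sᵀ, fun i => (ρ i + 1) / 2, fun j => ρ j / 2, hS, by rwa [Matrix.det_transpose],
    ⟨?_, ?_⟩, d, hd, ?_⟩
  · intro i j h
    exact half_split 0 _ _ (hF.1 i j h)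
  · intro k i j h
    exact half_split (w k) _ _ (hF.2 k i j h)
  · rw [← Finset.sum_add_distrib]
    have : ∑ i, ((ρ i + 1) / 2 + ρ i / 2) = ∑ i, ρ i :=
      Finset.sum_congr rfl fun i _ => by omega
    rw [this]
    exact hsum

/-- the symmetric matrix with off-diagonal blocks `A` and `Aᵀ` -/
def symz {R : Type*} [Zero R] (A : Matrix ι ι R) : Matrix (ι ⊕ ι) (ι ⊕ ι) R :=
  Matrix.fromBlocks 0 A Aᵀ 0

theorem symz_symm {R : Type*} [Zero R] (A : Matrix ι ι R) : (symz A).IsSymm := by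
  rw [Matrix.IsSymm, symz, Matrix.fromBlocks_transpose]
  simp

theorem symz_witt [CharZero F] (u v : ι → F) : WittLeOne (symz (vecMulVec u v)) := by
  have hm : ∀ x : ι ⊕ ι → F, symz (vecMulVec u v) *ᵥ x =
      Sum.elim (fun i => (v ⬝ᵥ (x ∘ Sum.inr)) * u i) (fun i => (u ⬝ᵥ (x ∘ Sum.inl)) * v i) := by
    intro x
    rw [symz, Matrix.fromBlocks_mulVec]
    funext c
    cases c with
    | inl i =>
      simp only [Sum.elim_inl, Pi.add_apply, Matrix.zero_mulVec, Pi.zero_apply, zero_add,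
        Matrix.mulVec, dotProduct, vecMulVec_apply, Finset.sum_mul]
      exact Finset.sum_congr rfl fun j _ => by ring
    | inr i =>
      simp only [Sum.elim_inr, Pi.add_apply, Matrix.zero_mulVec, Pi.zero_apply, add_zero,
        Matrix.mulVec, dotProduct, Matrix.transpose_apply, vecMulVec_apply, Finset.sum_mul]
      exact Finset.sum_congr rfl fun j _ => by ring
  have hd : ∀ x y : ι ⊕ ι → F, x ⬝ᵥ symz (vecMulVec u v) *ᵥ y =
      (v ⬝ᵥ (y ∘ Sum.inr)) * (u ⬝ᵥ (x ∘ Sum.inl)) +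
        (u ⬝ᵥ (y ∘ Sum.inl)) * (v ⬝ᵥ (x ∘ Sum.inr)) := by
    intro x y
    rw [hm]
    simp only [dotProduct, Fintype.sum_sum_type, Sum.elim_inl, Sum.elim_inr, Function.comp,
      Finset.mul_sum]
    congr 1
    · exact Finset.sum_congr rfl fun j _ => by ring
    · exact Finset.sum_congr rfl fun j _ => by ring
  intro x y h1 h2 h3 i j
  rw [hd] at h1 h2 h3
  rw [hm, hm]
  set a := u ⬝ᵥ (x ∘ Sum.inl)
  set b := v ⬝ᵥ (x ∘ Sum.inr)
  set a' := u ⬝ᵥ (y ∘ Sum.inl)
  set b' := v ⬝ᵥ (y ∘ Sum.inr)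
  have h0 : (b * a' - a * b') ^ 2 = 0 := by
    have e1 : a * b = 0 := by
      have : (2 : F) * (a * b) = 0 := by linear_combination h1
      exact (mul_eq_zero.mp this).resolve_left two_ne_zero
    have e2 : a' * b' = 0 := by
      have : (2 : F) * (a' * b') = 0 := by linear_combination h3
      exact (mul_eq_zero.mp this).resolve_left two_ne_zero
    linear_combination (b' * a + a' * b) * h2 - 4 * (a' * b') * e1
  have h4 : b * a' - a * b' = 0 := pow_eq_zero_iff (two_ne_zero) |>.mp h0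
  cases i with
  | inl i =>
    cases j with
    | inl j => simp only [Sum.elim_inl]; ring
    | inr j =>
      simp only [Sum.elim_inl, Sum.elim_inr]
      linear_combination (u i * v j) * h4
  | inr i =>
    cases j with
    | inl j =>
      simp only [Sum.elim_inl, Sum.elim_inr]
      linear_combination (-(v i * u j)) * h4
    | inr j => simp only [Sum.elim_inr]; ring

theorem symb_symz (B₀ : Matrix ι ι F) (B : κ → Matrix ι ι F) :
    symb (symz B₀) (fun k => symz (B k)) = symz (symb B₀ B) := by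
  ext i j
  cases i with
  | inl i =>
    cases j with
    | inl j => simp [symb, symz, Matrix.sum_apply]
    | inr j => simp [symb, symz, Matrix.sum_apply]
  | inr i =>
    cases j with
    | inl j => simp [symb, symz, Matrix.sum_apply]
    | inr j => simp [symb, symz, Matrix.sum_apply]

theorem det_symz {R : Type*} [CommRing R] (A : Matrix ι ι R) :
    (symz A).det * (symz (1 : Matrix ι ι R)).det = A.det * A.det := by
  rw [← Matrix.det_mul, symz, symz, Matrix.fromBlocks_multiply]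
  simp only [Matrix.zero_mul, Matrix.mul_zero, Matrix.transpose_one, Matrix.mul_one, zero_add,
    add_zero]
  rw [Matrix.det_fromBlocks_zero₂₁, Matrix.det_transpose]

/-- A nonsingular tuple of matrices of rank at most one (and an arbitrary constant matrix) has
exact dual certificates. -/
theorem cert_of_rank_one [CharZero F] (B₀ : Matrix ι ι F) (u v : κ → ι → F)
    (hf : (symb B₀ (fun k => vecMulVec (u k) (v k))).det ≠ 0) (w : κ → ℤ) :
    Cert B₀ (fun k => vecMulVec (u k) (v k)) w := by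
  classical
  set B : κ → Matrix ι ι F := fun k => vecMulVec (u k) (v k) with hB
  let β : ι ⊕ ι → ℤ := Sum.elim (fun _ => 1) (fun _ => -1)
  have hlab : ∀ (A : Matrix ι ι F) (c c' : ι ⊕ ι), symz A c c' ≠ 0 → β c + β c' = 0 := by
    intro A c c' h
    cases c with
    | inl i =>
      cases c' with
      | inl j => exact absurd (by simp [symz]) h
      | inr j => rfl
    | inr i =>
      cases c' with
      | inl j => rfl
      | inr j => exact absurd (by simp [symz]) h
  let P : WPres F (ι ⊕ ι) κ ℤ :=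
    { B₀ := symz B₀
      B := fun k => symz (B k)
      β := β
      μ := fun _ => 0
      symm₀ := symz_symm B₀
      symm := fun k => symz_symm (B k)
      witt := fun k => symz_witt (u k) (v k)
      hB₀ := hlab B₀
      hB := fun k => hlab (B k) }
  set M := symb B₀ B with hM
  have hPf : P.f * (symz (1 : Matrix ι ι (MvPolynomial κ F))).det = M.det * M.det := by
    rw [← det_symz, WPres.f]
    show (symb (symz B₀) (fun k => symz (B k))).det * _ = _
    rw [symb_symz]
  have hP0 : P.f ≠ 0 := by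
    intro h
    rw [h, zero_mul] at hPf
    exact mul_ne_zero hf hf hPf.symm
  obtain ⟨S, ρ, hS, hSβ, hF, d, hd, hsum⟩ := witt_dual sep_int P hP0 w
  -- the blocks of `S`
  set S₁ : Matrix ι ι F := S.toBlocks₁₁ with hS₁
  set S₂ : Matrix ι ι F := S.toBlocks₂₂ with hS₂
  have hSb : S = Matrix.fromBlocks S₁ 0 0 S₂ := by
    have h12 : S.toBlocks₁₂ = 0 := by
      ext i j
      by_contra hne
      have := hSβ (Sum.inl i) (Sum.inr j) hne
      exact absurd this (by show (1 : ℤ) ≠ -1; norm_num)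
    have h21 : S.toBlocks₂₁ = 0 := by
      ext i j
      by_contra hne
      have := hSβ (Sum.inr i) (Sum.inl j) hne
      exact absurd this (by show (-1 : ℤ) ≠ 1; norm_num)
    rw [← Matrix.fromBlocks_toBlocks S, h12, h21]
  have hdetS : S₁.det * S₂.det ≠ 0 := by
    rw [hSb, Matrix.det_fromBlocks_zero₂₁] at hS
    exact hS
  have hconj : ∀ A : Matrix ι ι F, S * symz A * Sᵀ = symz (S₁ * A * S₂ᵀ) := by
    intro A
    rw [hSb, symz, Matrix.fromBlocks_transpose, Matrix.fromBlocks_multiply,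
      Matrix.fromBlocks_multiply, symz]
    simp only [Matrix.zero_mul, Matrix.mul_zero, Matrix.transpose_zero, zero_add, add_zero,
      Matrix.transpose_mul, Matrix.transpose_transpose, Matrix.mul_assoc]
  have hent : ∀ (A : Matrix ι ι F) (i j : ι), (S₁ * A * S₂ᵀ) i j ≠ 0 →
      (S * symz A * Sᵀ) (Sum.inl i) (Sum.inr j) ≠ 0 := by
    intro A i j h
    rw [hconj, symz, Matrix.fromBlocks_apply₁₂]
    exact h
  set a : ι → ℤ := fun i => ρ (Sum.inl i) with ha
  set b : ι → ℤ := fun i => ρ (Sum.inr i) with hb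
  have f0 : ∀ i j, (S₁ * B₀ * S₂ᵀ) i j ≠ 0 → 0 ≤ 2 * 0 + a i + b j := fun i j h =>
    hF.1 _ _ (hent B₀ i j h)
  have fk : ∀ k i j, (S₁ * B k * S₂ᵀ) i j ≠ 0 → 0 ≤ 2 * w k + a i + b j := fun k i j h =>
    hF.2 k _ _ (hent (B k) i j h)
  have F1 : Feas2 (S₁ * B₀ * S₂ᵀ) (fun k => S₁ * B k * S₂ᵀ) w (fun i => (a i + 1) / 2)
      (fun j => b j / 2) :=
    ⟨fun i j h => half_split 0 _ _ (f0 i j h), fun k i j h => half_split (w k) _ _ (fk k i j h)⟩
  have F2 : Feas2 (S₁ * B₀ * S₂ᵀ) (fun k => S₁ * B k * S₂ᵀ) w (fun i => a i / 2)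
      (fun j => (b j + 1) / 2) :=
    ⟨fun i j h => half_split' 0 _ _ (f0 i j h), fun k i j h => half_split' (w k) _ _ (fk k i j h)⟩
  have hS2t : (S₂ᵀ).det ≠ 0 := by
    rw [Matrix.det_transpose]; exact right_ne_zero_of_mul hdetS
  -- a monomial of the square is a product of two monomials
  have hcd : coeff d (M.det * M.det) ≠ 0 := by
    have hdet1 : (symz (1 : Matrix ι ι (MvPolynomial κ F))).det =
        C ((symz (1 : Matrix ι ι F)).det) := by
      have : (symz (1 : Matrix ι ι (MvPolynomial κ F))) = (symz (1 : Matrix ι ι F)).map C := by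
        ext i j
        cases i with
        | inl i =>
          cases j with
          | inl j => simp [symz]
          | inr j =>
            simp only [symz, Matrix.fromBlocks_apply₁₂, Matrix.map_apply, Matrix.one_apply]
            split_ifs <;> simp
        | inr i =>
          cases j with
          | inl j =>
            simp only [symz, Matrix.fromBlocks_apply₂₁, Matrix.map_apply,
              Matrix.transpose_apply, Matrix.one_apply]
            split_ifs <;> simp
          | inr j => simp [symz]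
      rw [this]
      exact (RingHom.map_det C _).symm
    have h1 : (symz (1 : Matrix ι ι F)).det ≠ 0 := by
      have h2 := det_symz (1 : Matrix ι ι F)
      rw [Matrix.det_one, mul_one] at h2
      exact left_ne_zero_of_mul (h2 ▸ one_ne_zero)
    rw [← hPf, hdet1, mul_comm, coeff_C_mul]
    exact mul_ne_zero h1 hd
  obtain ⟨d1, d2, hd12, hc1, hc2⟩ : ∃ d1 d2, d1 + d2 = d ∧ coeff d1 M.det ≠ 0 ∧
      coeff d2 M.det ≠ 0 := by
    rw [coeff_mul] at hcd
    obtain ⟨x, hx, hne⟩ := Finset.exists_ne_zero_of_sum_ne_zero hcd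
    exact ⟨x.1, x.2, Finset.HasAntidiagonal.mem_antidiagonal.mp hx, left_ne_zero_of_mul hne,
      right_ne_zero_of_mul hne⟩
  have hsymbne : ∀ d', coeff d' M.det ≠ 0 →
      coeff d' (symb (S₁ * B₀ * S₂ᵀ) (fun k => S₁ * B k * S₂ᵀ)).det ≠ 0 := by
    intro d' h
    rw [det_symb_equiv, coeff_C_mul]
    exact mul_ne_zero (mul_ne_zero (left_ne_zero_of_mul hdetS) hS2t) h
  have n1 := coeff_nonneg2 _ _ w _ _ F1.1 F1.2 d1 (hsymbne d1 hc1)
  have n2 := coeff_nonneg2 _ _ w _ _ F2.1 F2.2 d2 (hsymbne d2 hc2)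
  have hwt : wt w d1 + wt w d2 + (∑ i, a i + ∑ j, b j) = 0 := by
    rw [← wt_add, hd12]
    rw [Fintype.sum_sum_type] at hsum
    exact hsum
  have hround : (∑ i, (a i + 1) / 2 + ∑ j, b j / 2) + (∑ i, a i / 2 + ∑ j, (b j + 1) / 2) =
      ∑ i, a i + ∑ j, b j := by
    have e1 : ∑ i, (a i + 1) / 2 + ∑ i, a i / 2 = ∑ i, a i := by
      rw [← Finset.sum_add_distrib]
      exact Finset.sum_congr rfl fun i _ => by omega
    have e2 : ∑ i, b i / 2 + ∑ i, (b i + 1) / 2 = ∑ i, b i := by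
      rw [← Finset.sum_add_distrib]
      exact Finset.sum_congr rfl fun i _ => by omega
    linarith
  exact ⟨S₁, S₂ᵀ, _, _, left_ne_zero_of_mul hdetS, hS2t, F1, d1, hc1, by linarith⟩

end

end Pool.Agent.Lib.MP_64d474_lc
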