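import Mathlib

/-!
Region growing at a point of the space: if the linear map `A` has the generalised inverse `G`,
then for every `B` the rank of `A + B` is at most `(1 + 1 / l)` times the rank of `A` plus the
ranks of the maps `Q B (G B)^i P`, `i < l`.
-/

open Module

namespace Pool.Agent.Lib.MP_64d474_lc

variable {F V : Type*} [Field F] [AddCommGroup V] [Module F V] [FiniteDimensional F V]

/-- the rank of an endomorphism -/
noncomputable def rk (f : Module.End F V) : ℕ := finrank F (LinearMap.range f)

/-- `G` is a reflexive generalised inverse of `A` -/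
structure GInv (A G : Module.End F V) : Prop where
  aga : A * G * A = A
  gag : G * A * G = G

omit [FiniteDimensional F V] in
theorem exists_ginv (A : Module.End F V) : ∃ G : Module.End F V, GInv A G := by
  obtain ⟨R, hR⟩ := (LinearMap.rangeRestrict A).exists_rightInverse_of_surjective
    (LinearMap.range_rangeRestrict A)
  obtain ⟨π, hπ⟩ := (LinearMap.range A).subtype.exists_leftInverse_of_injective
    (Submodule.ker_subtype _)
  have h1 : ∀ w, A (R w) = (w : V) := by
    intro w
    have := LinearMap.congr_fun hR w
    have h2 := congrArg Subtype.val this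
    simpa using h2
  have h2 : ∀ w : LinearMap.range A, π (w : V) = w := by
    intro w
    have := LinearMap.congr_fun hπ w
    simpa using this
  refine ⟨R ∘ₗ π, ⟨?_, ?_⟩⟩
  · ext v
    have h3 : π (A v) = ⟨A v, ⟨v, rfl⟩⟩ := h2 ⟨A v, ⟨v, rfl⟩⟩
    simp only [Module.End.mul_apply, LinearMap.comp_apply]
    rw [h3, h1]
  · ext v
    simp only [Module.End.mul_apply, LinearMap.comp_apply]
    rw [h1, h2]

/-- the region grown from the kernel of `A` -/
def growT (G P B : Module.End F V) : ℕ → Submodule F V
  | 0 => ⊥
  | i + 1 => (LinearMap.range P ⊔ (growT G P B i).map G).map B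

omit [FiniteDimensional F V] in
theorem growT_mono_succ (G P B : Module.End F V) (i : ℕ) :
    growT G P B i ≤ growT G P B (i + 1) := by
  induction i with
  | zero => exact bot_le
  | succ i ih => exact Submodule.map_mono (sup_le_sup_left (Submodule.map_mono ih) _)

omit [FiniteDimensional F V] in
theorem growT_mono (G P B : Module.End F V) : Monotone (growT G P B) :=
  monotone_nat_of_le_succ (growT_mono_succ G P B)

section

variable {A G : Module.End F V} (h : GInv A G)

include h

omit [FiniteDimensional F V] in
theorem GInv.ap : A * (1 - G * A) = 0 := by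
  rw [mul_sub, mul_one, ← mul_assoc, h.aga, sub_self]

omit [FiniteDimensional F V] in
theorem GInv.pg : (1 - G * A) * G = 0 := by
  rw [sub_mul, one_mul, h.gag, sub_self]

omit [FiniteDimensional F V] in
theorem GInv.qa : (1 - A * G) * A = 0 := by
  rw [sub_mul, one_mul, h.aga, sub_self]

omit [FiniteDimensional F V] in
theorem GInv.gq : G * (1 - A * G) = 0 := by
  rw [mul_sub, mul_one, ← mul_assoc, h.gag, sub_self]

omit [FiniteDimensional F V] in
theorem GInv.range_p : LinearMap.range (1 - G * A) = LinearMap.ker A := by
  apply le_antisymm
  · rintro _ ⟨v, rfl⟩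
    rw [LinearMap.mem_ker, ← Module.End.mul_apply, h.ap, LinearMap.zero_apply]
  · intro v hv
    rw [LinearMap.mem_ker] at hv
    refine ⟨v, ?_⟩
    rw [LinearMap.sub_apply, Module.End.one_apply, Module.End.mul_apply, hv, map_zero, sub_zero]

/-- one step of region growing -/
theorem GInv.grow_step (B : Module.End F V) (i : ℕ) :
    rk (A + B) + finrank F ((growT G (1 - G * A) B i).map G) ≤
      rk A + finrank F ((growT G (1 - G * A) B (i + 1)).map G) +
        finrank F ((growT G (1 - G * A) B (i + 1)).map (1 - A * G)) := by
  set P := 1 - G * A with hP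
  set Q := 1 - A * G with hQ
  set T := growT G P B i with hT
  set T' := growT G P B (i + 1) with hT'
  set D := LinearMap.range P ⊔ T.map G with hD
  have hT'D : T' = D.map B := rfl
  have hTT' : T ≤ T' := growT_mono_succ G P B i
  -- the image of `D`
  have h1 : D.map (A + B) ≤ (T'.map G).map A ⊔ T'.map Q := by
    rintro _ ⟨d, hd, rfl⟩
    have hBd : B d ∈ T' := ⟨d, hd, rfl⟩
    obtain ⟨p, hp, g, hg, rfl⟩ := Submodule.mem_sup.mp hd
    obtain ⟨t, ht, rfl⟩ := hg
    have hAp : A p = 0 := by
      rw [hP, h.range_p] at hp
      exact hp
    rw [LinearMap.add_apply]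
    refine Submodule.add_mem _ ?_ ?_
    · rw [map_add, hAp, zero_add]
      exact Submodule.mem_sup_left ⟨G t, ⟨t, hTT' ht, rfl⟩, rfl⟩
    · have e : B (p + G t) = A (G (B (p + G t))) + Q (B (p + G t)) := by
        rw [hQ, LinearMap.sub_apply, Module.End.one_apply, Module.End.mul_apply]
        abel
      rw [e]
      exact Submodule.add_mem _ (Submodule.mem_sup_left ⟨G (B (p + G t)), ⟨_, hBd, rfl⟩, rfl⟩)
        (Submodule.mem_sup_right ⟨_, hBd, rfl⟩)
  -- the dimension of `D`
  have h2 : finrank F D = finrank F (LinearMap.ker A) + finrank F (T.map G) := by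
    have hdis : Disjoint (LinearMap.range P) (T.map G) := by
      rw [Submodule.disjoint_def]
      rintro _ ⟨v, rfl⟩ hv
      obtain ⟨t, -, ht⟩ := hv
      have e1 : A (P v) = 0 := by
        rw [← Module.End.mul_apply, hP, h.ap, LinearMap.zero_apply]
      have e2 : G (A (G t)) = G t := by
        have := LinearMap.congr_fun h.gag t
        simpa [Module.End.mul_apply] using this
      rw [← ht, ← e2, ht, e1, map_zero]
    have := Submodule.finrank_sup_add_finrank_inf_eq (LinearMap.range P) (T.map G)
    rw [hdis.eq_bot, finrank_bot, add_zero] at this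
    rw [hD, this, hP, h.range_p]
  have h3 : finrank F (D.map (A + B)) ≤ finrank F (T'.map G) + finrank F (T'.map Q) := by
    refine (Submodule.finrank_mono h1).trans ((Submodule.finrank_add_le_finrank_add_finrank _ _).trans ?_)
    exact Nat.add_le_add_right (Submodule.finrank_map_le _ _) _
  have h4 : finrank F (LinearMap.range (A + B)) + finrank F (LinearMap.ker (A + B)) =
      finrank F V := LinearMap.finrank_range_add_finrank_ker _
  have h5 : finrank F (LinearMap.range A) + finrank F (LinearMap.ker A) = finrank F V :=
    LinearMap.finrank_range_add_finrank_ker _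
  have h6 : finrank F D ≤ finrank F (D.map (A + B)) + finrank F (LinearMap.ker (A + B)) := by
    have h7 := LinearMap.finrank_range_add_finrank_ker ((A + B).domRestrict D)
    have h8 : LinearMap.range ((A + B).domRestrict D) = D.map (A + B) :=
      LinearMap.range_domRestrict D _
    have h9 : finrank F (LinearMap.ker ((A + B).domRestrict D)) ≤
        finrank F (LinearMap.ker (A + B)) := by
      let g : LinearMap.ker ((A + B).domRestrict D) →ₗ[F] LinearMap.ker (A + B) :=
        (D.subtype.restrict (p := LinearMap.ker ((A + B).domRestrict D))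
          (q := LinearMap.ker (A + B)) (fun x hx => by simpa [LinearMap.mem_ker] using hx))
      refine LinearMap.finrank_le_finrank_of_injective (f := g) ?_
      intro x y hxy
      have := congrArg Subtype.val hxy
      apply Subtype.ext
      apply Subtype.ext
      simpa [g] using this
    rw [h8] at h7
    omega
  rw [rk, rk]
  omega

/-- region growing -/
theorem GInv.grow (B : Module.End F V) (l : ℕ) :
    l * rk (A + B) ≤ (l + 1) * rk A +
      l * finrank F ((growT G (1 - G * A) B l).map (1 - A * G)) := by
  have h1 : ∀ l : ℕ, l * rk (A + B) ≤ l * rk A + finrank F ((growT G (1 - G * A) B l).map G) +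
      l * finrank F ((growT G (1 - G * A) B l).map (1 - A * G)) := by
    intro l
    induction l with
    | zero => simp
    | succ l ih =>
      have h2 := h.grow_step B l
      have h3 : finrank F ((growT G (1 - G * A) B l).map (1 - A * G)) ≤
          finrank F ((growT G (1 - G * A) B (l + 1)).map (1 - A * G)) :=
        Submodule.finrank_mono (Submodule.map_mono (growT_mono_succ _ _ _ _))
      have h4 := Nat.mul_le_mul_left l h3
      rw [Nat.add_mul, Nat.add_mul, Nat.add_mul, one_mul, one_mul, one_mul]
      omega
  have h2 : finrank F ((growT G (1 - G * A) B l).map G) ≤ rk A := by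
    have e : G = G * A * G := h.gag.symm
    have h3 : (growT G (1 - G * A) B l).map G ≤ (LinearMap.range A).map G := by
      rintro _ ⟨t, -, rfl⟩
      refine ⟨A (G t), ⟨_, rfl⟩, ?_⟩
      have := LinearMap.congr_fun h.gag t
      simpa [Module.End.mul_apply] using this
    exact (Submodule.finrank_mono h3).trans (Submodule.finrank_map_le _ _)
  have h3 := h1 l
  rw [Nat.add_mul l 1, one_mul]
  omega

omit h in
/-- the region is covered by the images of the maps `B (G B)^i P` -/
theorem GInv.finrank_grow_le (B : Module.End F V) (l : ℕ) :
    finrank F ((growT G (1 - G * A) B l).map (1 - A * G)) ≤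
      ∑ i ∈ Finset.range l, rk ((1 - A * G) * (B * (G * B) ^ i) * (1 - G * A)) := by
  set P := 1 - G * A with hP
  set Q := 1 - A * G with hQ
  have h1 : ∀ l : ℕ, growT G P B l ≤
      (Finset.range l).sup fun i => LinearMap.range (B * (G * B) ^ i * P) := by
    intro l
    induction l with
    | zero => exact bot_le
    | succ l ih =>
      rw [growT]
      rintro _ ⟨d, hd, rfl⟩
      obtain ⟨p, hp, g, hg, rfl⟩ := Submodule.mem_sup.mp hd
      obtain ⟨t, ht, rfl⟩ := hg
      rw [map_add]
      refine Submodule.add_mem _ ?_ ?_
      · obtain ⟨v, rfl⟩ := hp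
        have h2 : LinearMap.range (B * (G * B) ^ 0 * P) ≤ (Finset.range (l + 1)).sup fun i =>
            LinearMap.range (B * (G * B) ^ i * P) :=
          Finset.le_sup (f := fun i => LinearMap.range (B * (G * B) ^ i * P))
            (Finset.mem_range.mpr (Nat.succ_pos l))
        refine h2 ⟨v, ?_⟩
        rw [pow_zero, mul_one]
        rfl
      · have h2 := ih ht
        have h3 : (((Finset.range l).sup fun i => LinearMap.range (B * (G * B) ^ i * P)).map
            (B * G)) ≤ (Finset.range (l + 1)).sup fun i =>
              LinearMap.range (B * (G * B) ^ i * P) := by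
          rw [Finset.sup_eq_iSup, Submodule.map_iSup]
          refine iSup_le fun i => ?_
          rw [Submodule.map_iSup]
          refine iSup_le fun hi => ?_
          rw [Finset.mem_range] at hi
          rintro _ ⟨_, ⟨v, rfl⟩, rfl⟩
          have h4 : LinearMap.range (B * (G * B) ^ (i + 1) * P) ≤
              (Finset.range (l + 1)).sup fun i => LinearMap.range (B * (G * B) ^ i * P) :=
            Finset.le_sup (f := fun i => LinearMap.range (B * (G * B) ^ i * P))
              (Finset.mem_range.mpr (Nat.succ_lt_succ hi))
          refine h4 ⟨v, ?_⟩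
          have e : B * (G * B) ^ (i + 1) * P = B * G * (B * (G * B) ^ i * P) := by
            rw [pow_succ']
            noncomm_ring
          rw [e]
          rfl
        exact h3 ⟨t, h2, rfl⟩
  have h2 : ∀ l : ℕ, finrank F (((Finset.range l).sup fun i =>
      LinearMap.range (B * (G * B) ^ i * P)).map Q) ≤
      ∑ i ∈ Finset.range l, rk (Q * (B * (G * B) ^ i) * P) := by
    intro l
    induction l with
    | zero =>
      rw [Finset.range_zero, Finset.sup_empty, Submodule.map_bot, finrank_bot]
      exact Nat.zero_le _
    | succ l ih =>
      rw [Finset.sum_range_succ, Finset.range_add_one, Finset.sup_insert, Submodule.map_sup]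
      refine (Submodule.finrank_add_le_finrank_add_finrank _ _).trans ?_
      rw [add_comm]
      refine Nat.add_le_add ih (le_of_eq ?_)
      rw [rk, ← LinearMap.range_comp]
      rfl
  exact (Submodule.finrank_mono (Submodule.map_mono (h1 l))).trans (h2 l)

end

end Pool.Agent.Lib.MP_64d474_lc
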