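import Mathlib
import Pool.Agent.Lib.MP_64d474_lc.ZnGrow
import Pool.Agent.Lib.MP_64d474_lc.YnBall

/-!
If the rank of `A + z B` exceeds the rank of `A` by at most `c` for all `z`, then the rank of
`Q B (G B)^i P` is at most `(i + 1) c`.
-/

open Module

namespace Pool.Agent.Lib.MP_64d474_lc

variable {F V W : Type*} [Field F] [AddCommGroup V] [Module F V] [FiniteDimensional F V]
  [AddCommGroup W] [Module F W] [FiniteDimensional F W]

omit [FiniteDimensional F V] in
/-- the rank of a pencil does not drop at a suitable nonzero value -/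
theorem exists_pencil_rank [Infinite F] (A B : V →ₗ[F] W) :
    ∃ z : F, z ≠ 0 ∧ finrank F (LinearMap.range A) ≤ finrank F (LinearMap.range (A + z • B)) := by
  classical
  set r := finrank F (LinearMap.range A) with hr
  obtain ⟨w, hw⟩ := exists_linearIndependent_of_le_finrank (R := F)
    (M := LinearMap.range A) (le_of_eq hr)
  have hx : ∀ i, ∃ x : V, A x = (w i : W) := fun i => (w i).2
  choose x hx using hx
  have hli : LinearIndependent F (fun i => A (x i)) := by
    have h1 := hw.map' (LinearMap.range A).subtype (Submodule.ker_subtype _)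
    have h2 : (fun i => A (x i)) = (LinearMap.range A).subtype ∘ w := funext fun i => hx i
    rw [h2]
    exact h1
  let T : (Fin r → F) →ₗ[F] V := Fintype.linearCombination F x
  have hT : ∀ y, T y = ∑ i, y i • x i := fun y => Fintype.linearCombination_apply _ _ _
  have hinj : LinearMap.ker (A ∘ₗ T) = ⊥ := by
    rw [LinearMap.ker_eq_bot']
    intro y hy
    rw [LinearMap.comp_apply, hT, map_sum] at hy
    simp only [map_smul] at hy
    funext i
    exact Fintype.linearIndependent_iff.mp hli y hy i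
  obtain ⟨g, hg⟩ := (A ∘ₗ T).exists_leftInverse_of_injective hinj
  let N : Matrix (Fin r) (Fin r) F := LinearMap.toMatrix' (g ∘ₗ B ∘ₗ T)
  let M : Matrix (Fin r) (Fin r) (Polynomial F) := 1 + (Polynomial.X : Polynomial F) • N.map Polynomial.C
  have hev : ∀ z : F, M.det.eval z = (1 + z • N).det := by
    intro z
    have : M.det.eval z = (Polynomial.evalRingHom z) M.det := rfl
    rw [this, RingHom.map_det]
    congr 1
    ext i j
    rw [RingHom.mapMatrix_apply, Matrix.map_apply]
    simp only [M, Matrix.add_apply, Matrix.smul_apply, Matrix.map_apply, map_add, smul_eq_mul,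
      Polynomial.coe_evalRingHom, Polynomial.eval_mul, Polynomial.eval_X,
      Polynomial.eval_C]
    congr 1
    by_cases hij : i = j
    · subst hij
      simp
    · simp [Matrix.one_apply_ne hij]
  have hM : M.det ≠ 0 := by
    intro h0
    have := hev 0
    rw [h0, Polynomial.eval_zero, zero_smul, add_zero, Matrix.det_one] at this
    exact zero_ne_one this
  have hMX : M.det * Polynomial.X ≠ 0 := mul_ne_zero hM Polynomial.X_ne_zero
  obtain ⟨z, hz⟩ : ∃ z : F, (M.det * Polynomial.X).eval z ≠ 0 := by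
    by_contra hcon
    push Not at hcon
    exact hMX (Polynomial.funext fun z => by rw [hcon z, Polynomial.eval_zero])
  rw [Polynomial.eval_mul, Polynomial.eval_X] at hz
  have hz0 : z ≠ 0 := right_ne_zero_of_mul hz
  have hz1 : (1 + z • N).det ≠ 0 := by
    rw [← hev]
    exact left_ne_zero_of_mul hz
  refine ⟨z, hz0, ?_⟩
  have e : 1 + z • N = LinearMap.toMatrix' (g ∘ₗ (A + z • B) ∘ₗ T) := by
    have e1 : g ∘ₗ (A + z • B) ∘ₗ T = LinearMap.id + z • (g ∘ₗ B ∘ₗ T) := by
      rw [← hg]
      ext y
      simp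
    rw [e1, map_add, map_smul, LinearMap.toMatrix'_id]
  have hinj2 : Function.Injective (g ∘ₗ (A + z • B) ∘ₗ T) := by
    have h1 : Function.Injective (Matrix.toLin' (1 + z • N)) := by
      rw [Matrix.toLin'_apply']
      exact Matrix.mulVec_injective_iff_isUnit.mpr
        ((Matrix.isUnit_iff_isUnit_det _).mpr (isUnit_iff_ne_zero.mpr hz1))
    rw [e, Matrix.toLin'_toMatrix'] at h1
    exact h1
  have h2 : finrank F (LinearMap.range (g ∘ₗ (A + z • B) ∘ₗ T)) = r := by
    rw [LinearMap.finrank_range_of_inj hinj2, Module.finrank_fin_fun]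
  rw [← h2]
  have h3 : LinearMap.range (g ∘ₗ (A + z • B) ∘ₗ T) ≤ (LinearMap.range (A + z • B)).map g := by
    rintro _ ⟨y, rfl⟩
    exact ⟨(A + z • B) (T y), ⟨_, rfl⟩, rfl⟩
  exact (Submodule.finrank_mono h3).trans (Submodule.finrank_map_le _ _)

omit [FiniteDimensional F V] in
/-- vectors that are in the range of `A + z B` for all nonzero `z` count for the rank -/
theorem exists_pencil_sup [Infinite F] (A B : V →ₗ[F] W) (U : Submodule F W)
    (hU : ∀ z : F, z ≠ 0 → U ≤ LinearMap.range (A + z • B)) :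
    ∃ z : F, finrank F (LinearMap.range A ⊔ U : Submodule F W) ≤
      finrank F (LinearMap.range (A + z • B)) := by
  obtain ⟨z, hz, h⟩ := exists_pencil_rank (U.mkQ ∘ₗ A) (U.mkQ ∘ₗ B)
  refine ⟨z, ?_⟩
  have h1 := finrank_map_add_inf U.mkQ (LinearMap.range (A + z • B))
  have h2 := finrank_map_add_inf U.mkQ (LinearMap.range A ⊔ U)
  rw [Submodule.ker_mkQ, inf_eq_right.mpr (hU z hz)] at h1
  rw [Submodule.ker_mkQ, inf_eq_right.mpr le_sup_right, Submodule.map_sup] at h2
  have h3 : U.map U.mkQ = ⊥ := Submodule.mkQ_map_self U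
  rw [h3, sup_bot_eq] at h2
  have h4 : U.mkQ ∘ₗ A + z • (U.mkQ ∘ₗ B) = U.mkQ ∘ₗ (A + z • B) := by
    ext v
    simp
  rw [h4, LinearMap.range_comp, LinearMap.range_comp] at h
  omega

section

variable {A G : Module.End F V} (h : GInv A G)

/-- the sum of the images of the maps `Q B (G B)^j P`, `j < i` -/
noncomputable def gainY (A G B : Module.End F V) (i : ℕ) : Submodule F V :=
  (Finset.range i).sup fun j => LinearMap.range ((1 - A * G) * (B * (G * B) ^ j) * (1 - G * A))

omit [FiniteDimensional F V] in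
theorem gainY_succ (A G B : Module.End F V) (i : ℕ) :
    gainY A G B (i + 1) =
      LinearMap.range ((1 - A * G) * (B * (G * B) ^ i) * (1 - G * A)) ⊔ gainY A G B i := by
  rw [gainY, Finset.range_add_one, Finset.sup_insert, gainY]

include h

omit [FiniteDimensional F V] in
theorem GInv.telescope (B : Module.End F V) (z : F) (i : ℕ) (v : V) :
    ∃ e : V, ∃ y ∈ gainY A G B i, (A + z • B) e =
      y + ((-z) ^ i * z) • (B * (G * B) ^ i * (1 - G * A)) v := by
  induction i with
  | zero =>
    refine ⟨(1 - G * A) v, 0, Submodule.zero_mem _, ?_⟩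
    rw [LinearMap.add_apply, ← Module.End.mul_apply, h.ap, LinearMap.zero_apply, pow_zero,
      one_mul, pow_zero, mul_one, LinearMap.smul_apply, Module.End.mul_apply]
  | succ i ih =>
    obtain ⟨e, y, hy, he⟩ := ih
    set x := (B * (G * B) ^ i * (1 - G * A)) v with hx
    have hx' : ((G * B) ^ (i + 1) * (1 - G * A)) v = G x := by
      rw [hx, ← Module.End.mul_apply, pow_succ']
      congr 1
    have hq : (1 - A * G) x ∈ gainY A G B (i + 1) := by
      rw [gainY_succ]
      refine Submodule.mem_sup_left ⟨v, ?_⟩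
      rw [hx, ← Module.End.mul_apply]
      congr 1
    refine ⟨e + (-z) ^ (i + 1) • ((G * B) ^ (i + 1) * (1 - G * A)) v,
      y + ((-z) ^ i * z) • (1 - A * G) x, ?_, ?_⟩
    · refine Submodule.add_mem _ ?_ (Submodule.smul_mem _ _ hq)
      rw [gainY_succ]
      exact Submodule.mem_sup_right hy
    · rw [map_add, he, map_smul, LinearMap.add_apply]
      have e1 : A (((G * B) ^ (i + 1) * (1 - G * A)) v) = x - (1 - A * G) x := by
        rw [hx', LinearMap.sub_apply, Module.End.one_apply, Module.End.mul_apply]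
        abel
      have e2 : (z • B) (((G * B) ^ (i + 1) * (1 - G * A)) v) =
          z • (B * (G * B) ^ (i + 1) * (1 - G * A)) v := by
        rw [LinearMap.smul_apply]
        rfl
      rw [e1, e2, smul_add, smul_sub, smul_smul]
      have e3 : (-z) ^ (i + 1) = -((-z) ^ i * z) := by ring
      have e4 : (-z) ^ (i + 1) * z = -((-z) ^ i * z) * z := by ring
      rw [e4, e3]
      module

/-- one more power contributes at most `c` -/
theorem GInv.gain_step [Infinite F] (B : Module.End F V) (c : ℕ)
    (hc : ∀ z : F, rk (A + z • B) ≤ rk A + c) (i : ℕ) :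
    finrank F (gainY A G B (i + 1)) ≤ finrank F (gainY A G B i) + c := by
  set Y := gainY A G B i with hY
  set Y' := gainY A G B (i + 1) with hY'
  set X := B * (G * B) ^ i * (1 - G * A) with hX
  have hYY : Y ≤ Y' := by
    rw [hY', gainY_succ]
    exact le_sup_right
  -- all these images are in the range of `Q`, which meets the range of `A` trivially
  have hQ : ∀ i, gainY A G B i ≤ LinearMap.range (1 - A * G) := by
    intro i
    rw [gainY, Finset.sup_le_iff]
    rintro j -
    rintro _ ⟨v, rfl⟩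
    exact ⟨(B * (G * B) ^ j * (1 - G * A)) v, by
      rw [← Module.End.mul_apply]; congr 1⟩
  have hdis : LinearMap.range A ⊓ Y' = ⊥ := by
    rw [eq_bot_iff]
    rintro x ⟨⟨v, hv⟩, hx⟩
    obtain ⟨w, hw⟩ := hQ _ hx
    have e1 : G x = 0 := by
      rw [← hw, ← Module.End.mul_apply, h.gq, LinearMap.zero_apply]
    have e2 : A (G (A v)) = A v := by
      have := LinearMap.congr_fun h.aga v
      simpa [Module.End.mul_apply] using this
    rw [Submodule.mem_bot, ← hv, ← e2, hv, e1, map_zero]
  obtain ⟨z, hz⟩ := exists_pencil_sup (Y.mkQ ∘ₗ A) (Y.mkQ ∘ₗ B) (LinearMap.range (Y.mkQ ∘ₗ X)) (by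
    intro z hz
    rintro _ ⟨v, rfl⟩
    obtain ⟨e, y, hy, he⟩ := h.telescope B z i v
    have hne : (-z) ^ i * z ≠ 0 := mul_ne_zero (pow_ne_zero _ (neg_ne_zero.mpr hz)) hz
    refine ⟨((-z) ^ i * z)⁻¹ • e, ?_⟩
    have e1 : Y.mkQ ∘ₗ A + z • (Y.mkQ ∘ₗ B) = Y.mkQ ∘ₗ (A + z • B) := by
      ext v
      simp
    rw [e1, LinearMap.comp_apply, map_smul, he, map_smul, map_add]
    have e2 : Y.mkQ y = 0 := by
      rw [Submodule.mkQ_apply, Submodule.Quotient.mk_eq_zero]
      exact hy
    rw [e2, zero_add, map_smul, smul_smul, inv_mul_cancel₀ hne, one_smul]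
    rfl)
  have e1 : Y.mkQ ∘ₗ A + z • (Y.mkQ ∘ₗ B) = Y.mkQ ∘ₗ (A + z • B) := by
    ext v
    simp
  rw [e1] at hz
  have h1 : finrank F (LinearMap.range (Y.mkQ ∘ₗ (A + z • B))) ≤ rk (A + z • B) := by
    rw [LinearMap.range_comp]
    exact Submodule.finrank_map_le _ _
  have h2 : (LinearMap.range A ⊔ Y').map Y.mkQ ≤
      LinearMap.range (Y.mkQ ∘ₗ A) ⊔ LinearMap.range (Y.mkQ ∘ₗ X) := by
    rw [Submodule.map_sup, ← LinearMap.range_comp]
    refine sup_le le_sup_left ?_
    rw [hY', gainY_succ, Submodule.map_sup]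
    refine sup_le ?_ ?_
    · rintro _ ⟨_, ⟨v, rfl⟩, rfl⟩
      have e3 : ((1 - A * G) * (B * (G * B) ^ i) * (1 - G * A)) v = X v - A (G (X v)) := by
        have e4 : (1 - A * G) * (B * (G * B) ^ i) * (1 - G * A) = X - A * (G * X) := by
          rw [hX]
          noncomm_ring
        rw [e4]
        rfl
      rw [e3, map_sub]
      exact Submodule.sub_mem _ (Submodule.mem_sup_right ⟨v, rfl⟩)
        (Submodule.mem_sup_left ⟨G (X v), rfl⟩)
    · rw [← hY]
      have h3 : Y.map Y.mkQ = ⊥ := Submodule.mkQ_map_self Y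
      rw [h3]
      exact bot_le
  have h3 := finrank_map_add_inf Y.mkQ (LinearMap.range A ⊔ Y')
  rw [Submodule.ker_mkQ, inf_eq_right.mpr (hYY.trans le_sup_right)] at h3
  have h4 := Submodule.finrank_sup_add_finrank_inf_eq (LinearMap.range A) Y'
  rw [hdis, finrank_bot, add_zero] at h4
  have h5 := Submodule.finrank_mono h2
  have h6 := hc z
  have h7 : rk A = finrank F (LinearMap.range A) := rfl
  omega

/-- the rank of `Q B (G B)^i P` is at most `(i + 1) c` -/
theorem GInv.gain [Infinite F] (B : Module.End F V) (c : ℕ)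
    (hc : ∀ z : F, rk (A + z • B) ≤ rk A + c) (i : ℕ) :
    rk ((1 - A * G) * (B * (G * B) ^ i) * (1 - G * A)) ≤ (i + 1) * c := by
  have h1 : ∀ i, finrank F (gainY A G B i) ≤ i * c := by
    intro i
    induction i with
    | zero =>
      rw [gainY, Finset.range_zero, Finset.sup_empty, finrank_bot]
      exact Nat.zero_le _
    | succ i ih =>
      have := h.gain_step B c hc i
      rw [Nat.add_mul, one_mul]
      omega
  refine le_trans ?_ (h1 (i + 1))
  rw [gainY_succ]
  exact Submodule.finrank_mono le_sup_left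

end

end Pool.Agent.Lib.MP_64d474_lc
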