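import Mathlib
import Pool.Agent.Lib.MP_64d474_lc.HnPhase
import Pool.Agent.Lib.MP_64d474_lc.HnBord
import Pool.Agent.Lib.MP_64d474_lc.ZnGain
import Pool.Agent.Lib.MP_64d474_lc.XnExamples

/-!
Chains for a subspace of a space spanned by matrices of rank one, from the chains of a generic
element.
-/

open Matrix Module MvPolynomial

set_option linter.unusedSectionVars false

namespace Pool.Agent.Lib.MP_64d474_lc

section

variable {F V W E : Type*} [Field F] [AddCommGroup V] [Module F V] [FiniteDimensional F V]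
  [AddCommGroup W] [Module F W] [FiniteDimensional F W] [AddCommGroup E] [Module F E]

omit [FiniteDimensional F V] in
/-- An element of largest rank of a linear family. -/
theorem exists_generic [Infinite F] (Ψ : E → V →ₗ[F] W)
    (hΨ : ∀ x y, ∀ z : F, Ψ (x + z • y) = Ψ x + z • Ψ y)
    (U : Submodule F E) : ∃ x₀ ∈ U, ∀ x ∈ U, (LinearMap.ker (Ψ x₀)).map (Ψ x) ≤
      LinearMap.range (Ψ x₀) := by
  classical
  obtain ⟨r, ⟨x₀, hx₀, hr⟩, hmax⟩ := Int.exists_greatest_of_bdd
    (P := fun r => ∃ x₀ ∈ U, (finrank F (LinearMap.range (Ψ x₀)) : ℤ) = r)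
    ⟨finrank F W, by
      rintro r ⟨x₀, _, rfl⟩
      exact_mod_cast Submodule.finrank_le _⟩ ⟨_, 0, U.zero_mem, rfl⟩
  refine ⟨x₀, hx₀, fun x hx => ?_⟩
  obtain ⟨z, hz⟩ := exists_pencil_sup (Ψ x₀) (Ψ x) ((LinearMap.ker (Ψ x₀)).map (Ψ x)) (by
    rintro z hz _ ⟨v, hv, rfl⟩
    refine ⟨z⁻¹ • v, ?_⟩
    have hv' : Ψ x₀ v = 0 := hv
    rw [LinearMap.add_apply, map_smul, hv', smul_zero, zero_add, LinearMap.smul_apply, map_smul,
      smul_smul, mul_inv_cancel₀ hz, one_smul])
  have h1 : (finrank F (LinearMap.range (Ψ (x₀ + z • x))) : ℤ) ≤ r :=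
    hmax _ ⟨_, U.add_mem hx₀ (U.smul_mem z hx), rfl⟩
  rw [hΨ, ← hr] at h1
  have h1' : finrank F (LinearMap.range (Ψ x₀ + z • Ψ x)) ≤ finrank F (LinearMap.range (Ψ x₀)) := by
    exact_mod_cast h1
  have h2 : LinearMap.range (Ψ x₀) =
      LinearMap.range (Ψ x₀) ⊔ (LinearMap.ker (Ψ x₀)).map (Ψ x) :=
    Submodule.eq_of_le_of_finrank_le le_sup_left (hz.trans h1')
  rw [h2]
  exact le_sup_right

end

section

variable {F : Type*} [Field F] {ι K : Type*} [Fintype ι] [DecidableEq ι] [Fintype K]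
  [DecidableEq K]

/-- the combination of matrices of rank one -/
def LL (p q : K → ι → F) (y : K → F) : Matrix ι ι F := ∑ k, y k • vecMulVec (p k) (q k)

theorem LL_mulVec (p q : K → ι → F) (y : K → F) (x : ι → F) :
    LL p q y *ᵥ x = ∑ k, (y k * (q k ⬝ᵥ x)) • p k := by
  rw [LL, Matrix.sum_mulVec]
  refine Finset.sum_congr rfl fun k _ => ?_
  rw [Matrix.smul_mulVec, Matrix.vecMulVec_mulVec, mul_smul]
  congr 1
  funext i
  simp [mul_comm]

theorem LL_add_smul (p q : K → ι → F) (y y' : K → F) (z : F) :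
    LL p q (y + z • y') = LL p q y + z • LL p q y' := by
  rw [LL, LL, LL, Finset.smul_sum, ← Finset.sum_add_distrib]
  refine Finset.sum_congr rfl fun k _ => ?_
  rw [Pi.add_apply, Pi.smul_apply, add_smul, smul_eq_mul, mul_smul]

/-- the vectors killed by `q k`, `k ∉ A` -/
def XA (q : K → ι → F) (A : Finset K) : Submodule F (ι → F) where
  carrier := {x | ∀ k, k ∉ A → q k ⬝ᵥ x = 0}
  add_mem' := fun {a b} ha hb k hk => by rw [dotProduct_add, ha k hk, hb k hk, add_zero]
  zero_mem' := fun k _ => dotProduct_zero _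
  smul_mem' := fun t {a} ha k hk => by rw [dotProduct_smul, ha k hk, smul_zero]

/-- the span of `p k`, `k ∈ A` -/
def WA (p : K → ι → F) (A : Finset K) : Submodule F (ι → F) :=
  Submodule.span F (p '' A)

theorem mem_WA {p : K → ι → F} {A : Finset K} {k : K} (hk : k ∈ A) : p k ∈ WA p A :=
  Submodule.subset_span ⟨k, hk, rfl⟩

theorem LL_mem_WA (p q : K → ι → F) (y : K → F) (A : Finset K) (x : ι → F) (hx : x ∈ XA q A) :
    LL p q y *ᵥ x ∈ WA p A := by
  rw [LL_mulVec]
  refine Submodule.sum_mem _ fun k _ => ?_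
  by_cases hk : k ∈ A
  · exact Submodule.smul_mem _ _ (mem_WA hk)
  · rw [hx k hk, mul_zero, zero_smul]
    exact Submodule.zero_mem _

/-- the elements of a subspace that are generic with respect to all pairs of sets -/
theorem exists_generic_LL [Infinite F] (p q : K → ι → F) (U : Submodule F (K → F)) :
    ∃ x₀ ∈ U, ∀ x ∈ U, ∀ A A' : Finset K, ∀ v ∈ XA q A, LL p q x₀ *ᵥ v ∈ WA p A' →
      ∃ u ∈ XA q A, LL p q x *ᵥ v - LL p q x₀ *ᵥ u ∈ WA p A' := by
  classical
  let Ψ : (K → F) → (∀ P : Finset K × Finset K, XA q P.1) →ₗ[F]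
      (∀ P : Finset K × Finset K, (ι → F) ⧸ WA p P.2) := fun x =>
    LinearMap.pi fun P => (WA p P.2).mkQ ∘ₗ (LL p q x).mulVecLin ∘ₗ (XA q P.1).subtype ∘ₗ
      LinearMap.proj P
  obtain ⟨x₀, hx₀, h⟩ := exists_generic Ψ (fun x y z => by
    apply LinearMap.ext
    intro v
    funext P
    show (WA p P.2).mkQ (LL p q (x + z • y) *ᵥ (v P : ι → F)) =
      (WA p P.2).mkQ (LL p q x *ᵥ (v P : ι → F)) + z • (WA p P.2).mkQ (LL p q y *ᵥ (v P : ι → F))
    rw [LL_add_smul, Matrix.add_mulVec, Matrix.smul_mulVec, map_add, map_smul]) U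
  refine ⟨x₀, hx₀, fun x hx A A' v hv hvA => ?_⟩
  let w : ∀ P : Finset K × Finset K, XA q P.1 := Pi.single (A, A') ⟨v, hv⟩
  have hwA : w (A, A') = ⟨v, hv⟩ := Pi.single_eq_same _ _
  have hw : Ψ x₀ w = 0 := by
    funext P
    show (WA p P.2).mkQ (LL p q x₀ *ᵥ (w P : ι → F)) = 0
    by_cases hP : P = (A, A')
    · subst hP
      rw [hwA, Submodule.mkQ_apply, Submodule.Quotient.mk_eq_zero]
      exact hvA
    · have : w P = 0 := Pi.single_eq_of_ne hP _
      rw [this, Submodule.coe_zero, Matrix.mulVec_zero, map_zero]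
  obtain ⟨u, hu⟩ := h x hx ⟨w, hw, rfl⟩
  refine ⟨(u (A, A') : ι → F), (u (A, A')).2, ?_⟩
  have h1 := congrFun hu (A, A')
  have h2 : (WA p A').mkQ (LL p q x₀ *ᵥ (u (A, A') : ι → F)) =
      (WA p A').mkQ (LL p q x *ᵥ (w (A, A') : ι → F)) := h1
  rw [hwA] at h2
  rw [← Submodule.Quotient.mk_eq_zero (WA p A'), ← Submodule.mkQ_apply, map_sub, h2, sub_self]

/-- dimensions of preimages -/
theorem finrank_preimage (f : (ι → F) →ₗ[F] (ι → F)) (X W : Submodule F (ι → F)) :
    finrank F (X ⊓ W.comap f : Submodule F (ι → F)) + finrank F (W ⊔ X.map f : Submodule F (ι → F)) =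
      finrank F X + finrank F W := by
  have h1 := LinearMap.finrank_range_add_finrank_ker ((W.mkQ ∘ₗ f).domRestrict X)
  have h2 : LinearMap.range ((W.mkQ ∘ₗ f).domRestrict X) = (W ⊔ X.map f).map W.mkQ := by
    rw [LinearMap.range_domRestrict, Submodule.map_comp, Submodule.map_sup,
      Submodule.mkQ_map_self, bot_sup_eq]
  have h3 : finrank F (LinearMap.ker ((W.mkQ ∘ₗ f).domRestrict X)) =
      finrank F (X ⊓ W.comap f : Submodule F (ι → F)) := by
    have h4 : (LinearMap.ker ((W.mkQ ∘ₗ f).domRestrict X)).map X.subtype = X ⊓ W.comap f := by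
      ext x
      constructor
      · rintro ⟨⟨y, hy⟩, hk, rfl⟩
        refine ⟨hy, ?_⟩
        have hk' : W.mkQ (f y) = 0 := hk
        rw [Submodule.mkQ_apply, Submodule.Quotient.mk_eq_zero] at hk'
        exact hk'
      · rintro ⟨hx1, hx2⟩
        refine ⟨⟨x, hx1⟩, ?_, rfl⟩
        show W.mkQ (f x) = 0
        rw [Submodule.mkQ_apply, Submodule.Quotient.mk_eq_zero]
        exact hx2
    rw [← h4, Submodule.finrank_map_subtype_eq]
  have h5 := finrank_map_add_inf W.mkQ (W ⊔ X.map f)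
  rw [Submodule.ker_mkQ, inf_eq_right.mpr (le_sup_left : W ≤ W ⊔ X.map f)] at h5
  rw [h2, h3] at h1
  omega

/-- A chain for a generic element gives a chain for the whole subspace. -/
theorem chain_of_generic (p q : K → ι → F) (y₀ : K → F) (hy₀ : (LL p q y₀).det ≠ 0)
    (U : Submodule F (K → F)) (x₀ : K → F)
    (hgen : ∀ x ∈ U, ∀ A A' : Finset K, ∀ v ∈ XA q A, LL p q x₀ *ᵥ v ∈ WA p A' →
      ∃ u ∈ XA q A, LL p q x *ᵥ v - LL p q x₀ *ᵥ u ∈ WA p A') (v : ℤ)
    (hch : HasChain (fun o : Option K => o.elim (LL p q x₀) fun k => vecMulVec (p k) (q k))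
      (fun o => o.elim 0 fun _ => 1) v)
    {κ : Type*} (M : κ → Matrix ι ι F) (w : κ → ℤ)
    (hM : ∀ k, (w k = 0 ∧ ∃ x ∈ U, M k = LL p q x) ∨ (w k = 1 ∧ ∃ y, M k = LL p q y)) :
    HasChain M w (2 * v - Fintype.card ι) := by
  classical
  obtain ⟨R, N, E, hR, h0, h1, h2, h3⟩ := hch
  set f := (LL p q x₀).mulVecLin with hf
  set A : ℤ → Finset K := fun t => Finset.univ.filter fun k => p k ∈ E (t + 1) with hA
  set X : ℤ → Submodule F (ι → F) := fun t => XA q (A t) with hX
  set W : ℤ → Submodule F (ι → F) := fun t => WA p (A t) with hW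
  have hWE : ∀ t, W t ≤ E (t + 1) := by
    intro t
    rw [hW]
    simp only
    rw [WA, Submodule.span_le]
    rintro _ ⟨k, hk, rfl⟩
    exact (Finset.mem_filter.mp hk).2
  have hNX : ∀ t, N t ≤ X t := by
    intro t x hx k hk
    by_contra hne
    apply hk
    rw [Finset.mem_filter]
    refine ⟨Finset.mem_univ k, ?_⟩
    have h4 := h2 (some k) t x hx
    have h5 : vecMulVec (p k) (q k) *ᵥ x ∈ E (t + 1) := h4
    rw [Matrix.vecMulVec_mulVec] at h5
    have h6 := Submodule.smul_mem (E (t + 1)) (q k ⬝ᵥ x)⁻¹ h5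
    convert h6 using 1
    funext i
    simp [hne]
  have hXW : ∀ t, finrank F (X t) ≤ finrank F (W t) := by
    intro t
    have hle : (X t).map (LL p q y₀).mulVecLin ≤ W t := by
      rintro _ ⟨x, hx, rfl⟩
      exact LL_mem_WA p q y₀ (A t) x hx
    have hinj : Function.Injective (LL p q y₀).mulVecLin :=
      Matrix.mulVec_injective_iff_isUnit.mpr
        ((Matrix.isUnit_iff_isUnit_det _).mpr (isUnit_iff_ne_zero.mpr hy₀))
    rw [(Submodule.equivMapOfInjective _ hinj (X t)).finrank_eq]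
    exact Submodule.finrank_mono hle
  have hbotW : ∀ t, t < -R - 1 → W t = ⊥ := by
    intro t ht
    rw [eq_bot_iff]
    refine (hWE t).trans ?_
    rw [(h0 (t + 1) (by omega)).2]
  have hbotX : ∀ t, t < -R - 1 → X t = ⊥ := by
    intro t ht
    have := hXW t
    rw [hbotW t ht, finrank_bot] at this
    exact Submodule.finrank_eq_zero.mp (Nat.le_zero.mp this)
  have htopA : ∀ t, R ≤ t + 1 → A t = Finset.univ := by
    intro t ht
    rw [hA]
    simp only
    rw [(h1 (t + 1) ht).2]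
    simp
  have htopX : ∀ t, R ≤ t + 1 → X t = ⊤ := by
    intro t ht
    rw [hX]
    simp only
    rw [htopA t ht, eq_top_iff]
    intro x _ k hk
    exact absurd (Finset.mem_univ k) hk
  have htopW : ∀ t, R ≤ t + 1 → W t = ⊤ := by
    intro t ht
    have := hXW t
    rw [htopX t ht, finrank_top] at this
    exact Submodule.eq_top_of_finrank_eq (le_antisymm (Submodule.finrank_le _) this)
  set N' : ℤ → Submodule F (ι → F) := fun t => X t ⊓ (W (t - 1)).comap f with hN'
  set E' : ℤ → Submodule F (ι → F) := fun t => W (t - 1) ⊔ (X t).map f with hE'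
  have hdim : ∀ t, finrank F (N' t) + finrank F (E' t) = finrank F (X t) + finrank F (W (t - 1)) :=
    fun t => finrank_preimage f (X t) (W (t - 1))
  have hlow : ∀ t, finrank F (N t) + finrank F (W (t - 1)) ≤ finrank F (N' t) + finrank F (E t) := by
    intro t
    have h4 := finrank_preimage f (N t) (W (t - 1))
    have h5 : finrank F (N t ⊓ (W (t - 1)).comap f : Submodule F (ι → F)) ≤ finrank F (N' t) :=
      Submodule.finrank_mono (inf_le_inf_right _ (hNX t))
    have h6 : finrank F (W (t - 1) ⊔ (N t).map f : Submodule F (ι → F)) ≤ finrank F (E t) := by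
      refine Submodule.finrank_mono (sup_le ?_ ?_)
      · have := hWE (t - 1)
        rwa [sub_add_cancel] at this
      · rintro _ ⟨x, hx, rfl⟩
        have h7 := h2 none t x hx
        have h8 : LL p q x₀ *ᵥ x ∈ E (t + 0) := h7
        rwa [add_zero] at h8
    omega
  refine ⟨R + 2, N', E', by omega, ?_, ?_, ?_, ?_⟩
  · intro t ht
    have e1 : X t = ⊥ := hbotX t (by omega)
    have e2 : W (t - 1) = ⊥ := hbotW _ (by omega)
    rw [hN', hE']
    simp only
    rw [e1, e2, bot_inf_eq, Submodule.map_bot, bot_sup_eq]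
    exact ⟨rfl, rfl⟩
  · intro t ht
    have e1 : X t = ⊤ := htopX t (by omega)
    have e2 : W (t - 1) = ⊤ := htopW _ (by omega)
    rw [hN', hE']
    simp only
    rw [e1, e2, Submodule.comap_top, top_inf_eq, top_sup_eq]
    exact ⟨rfl, rfl⟩
  · intro k t x hx
    rcases hM k with ⟨hw, x', hx', hMk⟩ | ⟨hw, y', hMk⟩
    · rw [hw, add_zero, hMk]
      obtain ⟨u, hu, hu'⟩ := hgen x' hx' (A t) (A (t - 1)) x hx.1 hx.2
      have e : LL p q x' *ᵥ x = (LL p q x' *ᵥ x - LL p q x₀ *ᵥ u) + LL p q x₀ *ᵥ u := by abel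
      rw [e]
      exact Submodule.add_mem_sup hu' ⟨u, hu, rfl⟩
    · rw [hw, hMk]
      refine Submodule.mem_sup_left ?_
      rw [add_sub_cancel_right]
      exact LL_mem_WA p q y' (A t) x hx.1
  · have h3' : v ≤ ∑ t ∈ Finset.Ico (-(R + 2)) (R + 2 + 1),
        ((finrank F (N t) : ℤ) - finrank F (E t)) := by
      rw [← chain_enlarge R (R + 2) N E (by omega) h0 h1]
      exact h3
    have hterm : ∀ t, 2 * ((finrank F (N t) : ℤ) - finrank F (E t)) -
        ((finrank F (W t) : ℤ) - finrank F (W (t - 1))) ≤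
          (finrank F (N' t) : ℤ) - finrank F (E' t) := by
      intro t
      have e1 := hdim t
      have e2 := hlow t
      have e3 := hXW t
      omega
    have hsum := Finset.sum_le_sum fun t (_ : t ∈ Finset.Ico (-(R + 2)) (R + 2 + 1)) => hterm t
    rw [Finset.sum_sub_distrib, ← Finset.mul_sum,
      telescope (fun t => (finrank F (W t) : ℤ)) (-(R + 2)) (R + 2 + 1) (by omega)] at hsum
    have e1 : (finrank F (W (R + 2 + 1 - 1)) : ℤ) ≤ Fintype.card ι := by
      have := Submodule.finrank_le (W (R + 2 + 1 - 1))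
      rw [finrank_fintype_fun_eq_card] at this
      exact_mod_cast this
    have e2 : (0 : ℤ) ≤ finrank F (W (-(R + 2) - 1)) := Nat.cast_nonneg _
    linarith

/-- the evaluation of a symbolic matrix -/
theorem eval_symb_det (B₀ : Matrix ι ι F) (B : K → Matrix ι ι F) (c : K → F) :
    eval c (symb B₀ B).det = (B₀ + ∑ k, c k • B k).det := by
  rw [RingHom.map_det]
  congr 1
  ext i j
  rw [RingHom.mapMatrix_apply, Matrix.map_apply, symb, Matrix.add_apply, Matrix.sum_apply,
    map_add, map_sum, Matrix.add_apply, Matrix.sum_apply]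
  simp

/-- A few points of an approximating set span a space that contains an element of small order. -/
theorem exists_small_order [CharZero F] {m : ℕ} (S : Set (Fin m → F)) (κ D J : ℕ)
    (hS : NcApprox ι S κ) (p q : K → ι → F) (Y : (Fin m → F) →ₗ[F] (K → F))
    (v₀ : Fin m → F) (hv₀ : (LL p q (Y v₀)).det ≠ 0)
    (hJ : κ * (2 * Fintype.card ι * Real.log (2 * Fintype.card ι)) <
      J * ((Fintype.card ι : ℝ) - D)) :
    ∃ v : Fin J → Fin m → F, (∀ i, v i ∈ S) ∧ ∃ x ∈ Submodule.span F (Set.range v),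
      ∃ T, Good (LL p q (Y x)) p q T ∧ 2 * T.card + D < 2 * Fintype.card ι := by
  classical
  set C : Fin m → Matrix ι ι F := fun k => LL p q (Y (Pi.single k 1)) with hC
  have hev : ∀ v, evC C v = LL p q (Y v) := by
    intro v
    have e0 : v = ∑ k, v k • (Pi.single k 1 : Fin m → F) := by
      funext j
      rw [Finset.sum_apply, Finset.sum_eq_single j]
      · rw [Pi.smul_apply, Pi.single_eq_same, smul_eq_mul, mul_one]
      · intro k _ hkj
        rw [Pi.smul_apply, Pi.single_eq_of_ne hkj.symm, smul_zero]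
      · intro h
        exact absurd (Finset.mem_univ j) h
    conv_rhs => rw [e0]
    rw [evC, map_sum, LL]
    simp only [hC, LL, map_smul, Finset.sum_apply, Pi.smul_apply, smul_eq_mul, Finset.sum_smul,
      Finset.smul_sum, smul_smul]
    exact Finset.sum_comm
  have hns : ¬ Shrunk 0 C := by
    rintro ⟨U, hU⟩
    have hinj : Function.Injective (LL p q (Y v₀)).mulVecLin :=
      Matrix.mulVec_injective_iff_isUnit.mpr
        ((Matrix.isUnit_iff_isUnit_det _).mpr (isUnit_iff_ne_zero.mpr hv₀))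
    have h1 : U.map (LL p q (Y v₀)).mulVecLin ≤ imageSum 0 C U := by
      rintro _ ⟨x, hx, rfl⟩
      rw [← hev, Matrix.mulVecLin_apply, evC, Matrix.sum_mulVec]
      refine Submodule.sum_mem _ fun k _ => ?_
      rw [Matrix.smul_mulVec]
      exact Submodule.smul_mem _ _ (mem_imageSum k hx)
    have h2 := Submodule.finrank_mono h1
    rw [← (Submodule.equivMapOfInjective _ hinj U).finrank_eq] at h2
    omega
  obtain ⟨v, hv, hno⟩ := phase S κ D J hS C hns hJ
  refine ⟨v, hv, ?_⟩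
  obtain ⟨x₀, hx₀, hgen⟩ := exists_generic_LL p q ((Submodule.span F (Set.range v)).map Y)
  obtain ⟨x, hx, rfl⟩ := hx₀
  refine ⟨x, hx, ?_⟩
  -- the certificate
  have hf : (symb (LL p q (Y x)) fun k => vecMulVec (p k) (q k)).det ≠ 0 := by
    intro h0
    have h1 := eval_symb_det (LL p q (Y x)) (fun k => vecMulVec (p k) (q k)) (Y v₀ - Y x)
    rw [h0, map_zero] at h1
    apply hv₀
    rw [h1]
    congr 1
    have h2 : Y v₀ = Y x + (1 : F) • (Y v₀ - Y x) := by
      rw [one_smul]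
      abel
    conv_lhs => rw [h2]
    rw [LL_add_smul, one_smul]
    rfl
  obtain ⟨X, Z, ρ, σ, hX, hZ, hF, d, hd, hwt⟩ := cert_of_rank_one (LL p q (Y x)) p q hf
    (fun _ => 1)
  obtain ⟨T, hT, rfl⟩ := exists_good _ p q d hd
  refine ⟨T, hT, ?_⟩
  rw [wt_ind, Finset.sum_const, nsmul_eq_mul, mul_one] at hwt
  by_contra hcon
  apply hno
  have hch1 := hasChain_of_feas (fun o : Option K => X * (o.elim (LL p q (Y x))
    fun k => vecMulVec (p k) (q k)) * Z) (fun o => o.elim 0 fun _ => 1) ρ σ (by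
      rintro (_ | k) i j h
      · exact hF.1 i j h
      · exact hF.2 k i j h)
  have hinv : ∀ A : Matrix ι ι F, A.det ≠ 0 → A⁻¹.det ≠ 0 := by
    intro A hA
    have h1 : A * A⁻¹ = 1 := Matrix.mul_nonsing_inv A (isUnit_iff_ne_zero.mpr hA)
    have h2 := congrArg Matrix.det h1
    rw [Matrix.det_mul, Matrix.det_one] at h2
    exact right_ne_zero_of_mul (h2 ▸ one_ne_zero)
  have hch2 := hch1.equiv X⁻¹ Z⁻¹ (hinv X hX) (hinv Z hZ)
  have e1 : (fun o : Option K => X⁻¹ * (X * (o.elim (LL p q (Y x))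
      fun k => vecMulVec (p k) (q k)) * Z) * Z⁻¹) = fun o => o.elim (LL p q (Y x))
        fun k => vecMulVec (p k) (q k) := by
    funext o
    have e2 : X⁻¹ * X = 1 := Matrix.nonsing_inv_mul X (isUnit_iff_ne_zero.mpr hX)
    have e3 : Z * Z⁻¹ = 1 := Matrix.mul_nonsing_inv Z (isUnit_iff_ne_zero.mpr hZ)
    rw [Matrix.mul_assoc, Matrix.mul_assoc, Matrix.mul_assoc, e3, Matrix.mul_one,
      ← Matrix.mul_assoc, e2, Matrix.one_mul]
  rw [e1] at hch2
  have hch3 := chain_of_generic p q (Y v₀) hv₀ _ (Y x) hgen _ hch2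
    (Sum.elim (fun i => evC C (v i)) C) w01 (by
      rintro (i | k)
      · left
        refine ⟨rfl, Y (v i), ⟨v i, Submodule.subset_span ⟨i, rfl⟩, rfl⟩, hev (v i)⟩
      · right
        exact ⟨rfl, Y (Pi.single k 1), rfl⟩)
  refine hch3.mono ?_
  have e4 : -(∑ i, ρ i + ∑ j, σ j) = (T.card : ℤ) := by linarith
  rw [e4]
  omega

end

end Pool.Agent.Lib.MP_64d474_lc
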