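import Mathlib
import Pool.Agent.Lib.MP_64d474_lc.HnRankOne

/-!
Contraction of a graded affine system to a homogeneous one.
-/

open Matrix Module MvPolynomial

set_option linter.unusedSectionVars false

namespace Pool.Agent.Lib.MP_64d474_lc

section

variable {F : Type*} [Field F] {ι K : Type*} [Fintype ι] [DecidableEq ι] [Fintype K]
  [DecidableEq K]

/-- the inverse of a homogeneous matrix is homogeneous -/
theorem inv_hom {E Γ : Type*} [Fintype E] [DecidableEq E] [DecidableEq Γ] (A : Matrix E E F)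
    (hA : A.det ≠ 0) (r c : E → Γ) (h : ∀ a b, A a b ≠ 0 → r a = c b) (a b : E)
    (hne : A⁻¹ b a ≠ 0) : r a = c b := by
  have hu : IsUnit A.det := isUnit_iff_ne_zero.mpr hA
  set v : E → F := fun b => A⁻¹ b a with hv
  set v' : E → F := fun b => if c b = r a then v b else 0 with hv'
  have h1 : A *ᵥ v = Pi.single a 1 := by
    have h2 := Matrix.mul_nonsing_inv A hu
    funext a'
    have h3 := congrFun (congrFun h2 a') a
    rw [Matrix.mul_apply] at h3
    rw [Pi.single_apply]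
    rw [Matrix.one_apply] at h3
    exact h3
  have h2 : A *ᵥ v' = Pi.single a 1 := by
    funext a'
    by_cases hr : r a' = r a
    · rw [← h1, mulVec, mulVec, dotProduct, dotProduct]
      refine Finset.sum_congr rfl fun b _ => ?_
      by_cases hAb : A a' b = 0
      · rw [hAb, zero_mul, zero_mul]
      · rw [hv']
        simp only
        rw [if_pos (by rw [← h a' b hAb, hr])]
    · have hne' : a' ≠ a := by
        rintro rfl
        exact hr rfl
      rw [Pi.single_eq_of_ne hne', mulVec, dotProduct]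
      refine Finset.sum_eq_zero fun b _ => ?_
      by_cases hAb : A a' b = 0
      · rw [hAb, zero_mul]
      · rw [hv']
        simp only
        rw [if_neg, mul_zero]
        intro hc
        exact hr ((h a' b hAb).trans hc)
  have hinj : Function.Injective A.mulVec :=
    Matrix.mulVec_injective_iff_isUnit.mpr ((Matrix.isUnit_iff_isUnit_det _).mpr hu)
  have h3 : v' = v := hinj (h2.trans h1.symm)
  by_contra hcon
  apply hne
  have h4 := congrFun h3 b
  rw [hv'] at h4
  simp only at h4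
  rw [if_neg (fun e => hcon e.symm)] at h4
  exact h4.symm

/-- the left vectors of the contraction -/
noncomputable def cp (M : Matrix ι ι F) (p q : K → ι → F) (S₀ J : Finset K) (k : K)
    (j : {k // k ∈ J}) : F := ∑ i, (Bord M p q S₀)⁻¹ (Sum.inr j.1) (Sum.inl i) * p k i

/-- the right vectors of the contraction -/
noncomputable def cq (M : Matrix ι ι F) (p q : K → ι → F) (S₀ J : Finset K) (k : K)
    (j : {k // k ∈ J}) : F := ∑ i, q k i * (Bord M p q S₀)⁻¹ (Sum.inl i) (Sum.inr j.1)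

variable {M : Matrix ι ι F} {p q : K → ι → F} {S₀ : Finset K}

theorem Bord_inl_inl (i j : ι) : Bord M p q S₀ (Sum.inl i) (Sum.inl j) = M i j := rfl

theorem Bord_inl_inr (i : ι) (k : K) : Bord M p q S₀ (Sum.inl i) (Sum.inr k) =
    if k ∈ S₀ then p k i else 0 := rfl

theorem Bord_inr_inl (i : ι) (k : K) : Bord M p q S₀ (Sum.inr k) (Sum.inl i) =
    if k ∈ S₀ then q k i else 0 := rfl

theorem Bord_inr_inr (k l : K) : Bord M p q S₀ (Sum.inr k) (Sum.inr l) =
    if k = l then (if k ∈ S₀ then 0 else 1) else 0 := by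
  rw [Bord, Matrix.fromBlocks_apply₂₂, Matrix.diagonal_apply]

theorem cp_of_mem (hg : Good M p q S₀) (J : Finset K) {k : K} (hk : k ∈ S₀)
    (j : {k // k ∈ J}) : cp M p q S₀ J k j = if j.1 = k then 1 else 0 := by
  have hu : IsUnit (Bord M p q S₀).det := isUnit_iff_ne_zero.mpr ((good_iff_Bord M p q S₀).mp hg)
  have h1 := congrFun (congrFun (Matrix.nonsing_inv_mul _ hu) (Sum.inr j.1)) (Sum.inr k)
  rw [Matrix.mul_apply, Fintype.sum_sum_type, Matrix.one_apply] at h1
  have h2 : ∑ l, (Bord M p q S₀)⁻¹ (Sum.inr j.1) (Sum.inr l) *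
      Bord M p q S₀ (Sum.inr l) (Sum.inr k) = 0 := by
    refine Finset.sum_eq_zero fun l _ => ?_
    rw [Bord_inr_inr]
    by_cases hl : l = k
    · subst hl
      rw [if_pos rfl, if_pos hk, mul_zero]
    · rw [if_neg hl, mul_zero]
  rw [h2, add_zero] at h1
  rw [cp]
  simp only [Bord_inl_inr, if_pos hk] at h1
  rw [h1]
  simp only [Sum.inr.injEq]

theorem cq_of_mem (hg : Good M p q S₀) (J : Finset K) {k : K} (hk : k ∈ S₀)
    (j : {k // k ∈ J}) : cq M p q S₀ J k j = if k = j.1 then 1 else 0 := by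
  have hu : IsUnit (Bord M p q S₀).det := isUnit_iff_ne_zero.mpr ((good_iff_Bord M p q S₀).mp hg)
  have h1 := congrFun (congrFun (Matrix.mul_nonsing_inv _ hu) (Sum.inr k)) (Sum.inr j.1)
  rw [Matrix.mul_apply, Fintype.sum_sum_type, Matrix.one_apply] at h1
  have h2 : ∑ l, Bord M p q S₀ (Sum.inr k) (Sum.inr l) *
      (Bord M p q S₀)⁻¹ (Sum.inr l) (Sum.inr j.1) = 0 := by
    refine Finset.sum_eq_zero fun l _ => ?_
    rw [Bord_inr_inr]
    by_cases hl : k = l
    · rw [if_pos hl, if_pos hk, zero_mul]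
    · rw [if_neg hl, zero_mul]
  rw [h2, add_zero] at h1
  rw [cq]
  simp only [Bord_inr_inl, if_pos hk] at h1
  rw [h1]
  simp only [Sum.inr.injEq]

/-- A graded system: potentials, labels of the elements. -/
structure Graded2 (M : Matrix ι ι F) (p q : K → ι → F) (ρ σ : ι → ℤ) (mk : K → ℤ)
    (β β' : ι → ℤ) (lab : K → ℤ) : Prop where
  hM : ∀ i j, M i j ≠ 0 → ρ i + σ j = 0
  hp : ∀ k i, p k i ≠ 0 → ρ i = mk k
  hq : ∀ k j, q k j ≠ 0 → 1 + mk k + σ j = 0
  lM : ∀ i j, M i j ≠ 0 → β i = β' j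
  lp : ∀ k i, p k i ≠ 0 → β i = lab k
  lq : ∀ k j, q k j ≠ 0 → β' j = lab k

variable {ρ σ : ι → ℤ} {mk : K → ℤ} {β β' : ι → ℤ} {lab : K → ℤ}

/-- homogeneity of the inverse of the bordered matrix -/
theorem Graded2.inv (h : Graded2 M p q ρ σ mk β β' lab) (hg : Good M p q S₀) (a b : ι ⊕ K)
    (hne : (Bord M p q S₀)⁻¹ b a ≠ 0) :
    (Sum.elim (fun i => (ρ i % 2, β i)) fun k => ((1 + mk k) % 2, lab k) : ι ⊕ K → ℤ × ℤ) a =
      (Sum.elim (fun j => (σ j % 2, β' j)) fun k =>
        (if k ∈ S₀ then mk k % 2 else (1 + mk k) % 2, lab k) : ι ⊕ K → ℤ × ℤ) b := by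
  refine inv_hom (Bord M p q S₀) ((good_iff_Bord M p q S₀).mp hg) _ _ ?_ a b hne
  rintro (i | k) (j | l) hab
  · rw [Bord_inl_inl] at hab
    have h1 := h.hM i j hab
    have h2 := h.lM i j hab
    refine Prod.ext ?_ h2
    show ρ i % 2 = σ j % 2
    omega
  · rw [Bord_inl_inr] at hab
    by_cases hl : l ∈ S₀
    · rw [if_pos hl] at hab
      have h1 := h.hp l i hab
      have h2 := h.lp l i hab
      refine Prod.ext ?_ h2
      show ρ i % 2 = if l ∈ S₀ then mk l % 2 else (1 + mk l) % 2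
      rw [if_pos hl, h1]
    · rw [if_neg hl] at hab
      exact absurd rfl hab
  · rw [Bord_inr_inl] at hab
    by_cases hl : k ∈ S₀
    · rw [if_pos hl] at hab
      have h1 := h.hq k j hab
      have h2 := h.lq k j hab
      refine Prod.ext ?_ h2.symm
      show (1 + mk k) % 2 = σ j % 2
      omega
    · rw [if_neg hl] at hab
      exact absurd rfl hab
  · rw [Bord_inr_inr] at hab
    split_ifs at hab with h1 h2
    · exact absurd rfl hab
    · subst h1
      refine Prod.ext ?_ rfl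
      show (1 + mk k) % 2 = if k ∈ S₀ then mk k % 2 else (1 + mk k) % 2
      rw [if_neg h2]
    · exact absurd rfl hab

theorem Graded2.cp_lab (h : Graded2 M p q ρ σ mk β β' lab) (hg : Good M p q S₀) (J : Finset K)
    (k : K) (j : {k // k ∈ J}) (hne : cp M p q S₀ J k j ≠ 0) : lab j.1 = lab k := by
  rw [cp] at hne
  obtain ⟨i, _, hi⟩ := Finset.exists_ne_zero_of_sum_ne_zero hne
  have h1 := congrArg Prod.snd (h.inv hg _ _ (left_ne_zero_of_mul hi))
  have h2 := h.lp k i (right_ne_zero_of_mul hi)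
  have h3 : β i = lab j.1 := h1
  rw [← h3, h2]

theorem Graded2.cq_lab (h : Graded2 M p q ρ σ mk β β' lab) (hg : Good M p q S₀) (J : Finset K)
    (k : K) (j : {k // k ∈ J}) (hne : cq M p q S₀ J k j ≠ 0) : lab j.1 = lab k := by
  rw [cq] at hne
  obtain ⟨i, _, hi⟩ := Finset.exists_ne_zero_of_sum_ne_zero hne
  have h1 := congrArg Prod.snd (h.inv hg _ _ (right_ne_zero_of_mul hi))
  have h2 := h.lq k i (left_ne_zero_of_mul hi)
  have h3 : lab j.1 = β' i := h1
  rw [h3, h2]

/-- the rows of the inverse that belong to `J` -/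
theorem Graded2.left_eq (h : Graded2 M p q ρ σ mk β β' lab) (hg : Good M p q S₀) (ε : ℤ)
    (j : K) (hj : j ∈ S₀) (hjε : mk j % 2 = ε) (k : K)
    (hne : (Bord M p q S₀)⁻¹ (Sum.inr j) (Sum.inr k) ≠ 0) : k ∈ S₀ ∧ mk k % 2 ≠ ε := by
  have h1 : (1 + mk k) % 2 = if j ∈ S₀ then mk j % 2 else (1 + mk j) % 2 :=
    congrArg Prod.fst (h.inv hg _ _ hne)
  rw [if_pos hj, hjε] at h1
  refine ⟨?_, by omega⟩
  by_contra hk
  have hu : IsUnit (Bord M p q S₀).det := isUnit_iff_ne_zero.mpr ((good_iff_Bord M p q S₀).mp hg)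
  have h2 := congrFun (congrFun (Matrix.nonsing_inv_mul _ hu) (Sum.inr j)) (Sum.inr k)
  have hjk : j ≠ k := by
    rintro rfl
    exact hk hj
  rw [Matrix.mul_apply, Matrix.one_apply_ne (fun e => hjk (Sum.inr.inj e)),
    Finset.sum_eq_single (Sum.inr k)] at h2
  · rw [Bord_inr_inr, if_pos rfl, if_neg hk, mul_one] at h2
    exact hne h2
  · rintro (i | l) _ hb
    · rw [Bord_inl_inr, if_neg hk, mul_zero]
    · rw [Bord_inr_inr, if_neg (fun e => hb (by rw [e])), mul_zero]
  · intro hb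
    exact absurd (Finset.mem_univ _) hb

theorem Graded2.right_eq (h : Graded2 M p q ρ σ mk β β' lab) (hg : Good M p q S₀) (ε : ℤ)
    (j : K) (hj : j ∈ S₀) (hjε : mk j % 2 = ε) (k : K)
    (hne : (Bord M p q S₀)⁻¹ (Sum.inr k) (Sum.inr j) ≠ 0) : k ∈ S₀ ∧ mk k % 2 ≠ ε := by
  have h1 : (1 + mk j) % 2 = if k ∈ S₀ then mk k % 2 else (1 + mk k) % 2 :=
    congrArg Prod.fst (h.inv hg _ _ hne)
  have hk : k ∈ S₀ := by
    by_contra hk
    have hu : IsUnit (Bord M p q S₀).det :=
      isUnit_iff_ne_zero.mpr ((good_iff_Bord M p q S₀).mp hg)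
    have h2 := congrFun (congrFun (Matrix.mul_nonsing_inv _ hu) (Sum.inr k)) (Sum.inr j)
    have hjk : k ≠ j := by
      rintro rfl
      exact hk hj
    rw [Matrix.mul_apply, Matrix.one_apply_ne (fun e => hjk (Sum.inr.inj e)),
      Finset.sum_eq_single (Sum.inr k)] at h2
    · rw [Bord_inr_inr, if_pos rfl, if_neg hk, one_mul] at h2
      exact hne h2
    · rintro (i | l) _ hb
      · rw [Bord_inr_inl, if_neg hk, zero_mul]
      · rw [Bord_inr_inr, if_neg (fun e => hb (by rw [e])), zero_mul]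
    · intro hb
      exact absurd (Finset.mem_univ _) hb
  rw [if_pos hk] at h1
  exact ⟨hk, by omega⟩

end

end Pool.Agent.Lib.MP_64d474_lc
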