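import Mathlib
import Pool.Agent.Lib.MP_64d474_lc.HnContract

/-!
Perturbation of a bordered matrix: a certificate for the contracted system gives a certificate for
a perturbation of the original system.
-/

open Matrix Module MvPolynomial

set_option linter.unusedSectionVars false

namespace Pool.Agent.Lib.MP_64d474_lc

section

variable {F V W : Type*} [Field F] [AddCommGroup V] [Module F V]
  [AddCommGroup W] [Module F W] [FiniteDimensional F W]

/-- vectors that are in the range of `A + z B` for all nonzero `z` count for the rank -/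
theorem exists_pencil_sup_ne [Infinite F] (A B : V →ₗ[F] W) (U : Submodule F W)
    (hU : ∀ z : F, z ≠ 0 → U ≤ LinearMap.range (A + z • B)) :
    ∃ z : F, z ≠ 0 ∧ finrank F (LinearMap.range A ⊔ U : Submodule F W) ≤
      finrank F (LinearMap.range (A + z • B)) := by
  obtain ⟨z, hz, h⟩ := exists_pencil_rank (U.mkQ ∘ₗ A) (U.mkQ ∘ₗ B)
  refine ⟨z, hz, ?_⟩
  have h1 := finrank_map_add_inf U.mkQ (LinearMap.range (A + z • B))
  have h2 := finrank_map_add_inf U.mkQ (LinearMap.range A ⊔ U)
  rw [Submodule.ker_mkQ, inf_eq_right.mpr (hU z hz)] at h1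
  rw [Submodule.ker_mkQ, inf_eq_right.mpr le_sup_right, Submodule.map_sup] at h2
  have h3 : U.map U.mkQ = ⊥ := Submodule.mkQ_map_self U
  rw [h3, sup_bot_eq] at h2
  have h4 : U.mkQ ∘ₗ A + z • (U.mkQ ∘ₗ B) = U.mkQ ∘ₗ (A + z • B) := by
    ext v
    simp
  rw [h4, LinearMap.range_comp, LinearMap.range_comp] at h
  omega

end

section

variable {F : Type*} [Field F] {ι K : Type*} [Fintype ι] [DecidableEq ι] [Fintype K]
  [DecidableEq K]

/-- a matrix with a general border -/
def gblk (M : Matrix ι ι F) (p q : K → ι → F) (P : Finset K) (d : K → F) :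
    Matrix (ι ⊕ K) (ι ⊕ K) F :=
  Matrix.fromBlocks M (Matrix.of fun i k => if k ∈ P then p k i else 0)
    (Matrix.of fun k j => if k ∈ P then q k j else 0) (Matrix.diagonal d)

theorem gblk_transpose (M : Matrix ι ι F) (p q : K → ι → F) (P : Finset K) (d : K → F) :
    (gblk M p q P d)ᵀ = gblk Mᵀ q p P d := by
  rw [gblk, Matrix.fromBlocks_transpose, Matrix.diagonal_transpose]
  rfl

theorem gblk_mulVec_inl (M : Matrix ι ι F) (p q : K → ι → F) (P : Finset K) (d : K → F)
    (y : ι ⊕ K → F) (i : ι) : (gblk M p q P d *ᵥ y) (Sum.inl i) =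
      (M *ᵥ (y ∘ Sum.inl)) i + ∑ k ∈ P, y (Sum.inr k) * p k i := by
  rw [gblk, Matrix.fromBlocks_mulVec]
  show (M *ᵥ (y ∘ Sum.inl)) i + _ = _
  congr 1
  rw [mulVec, dotProduct, ← Finset.sum_subset (Finset.subset_univ P)]
  · refine Finset.sum_congr rfl fun k hk => ?_
    rw [Matrix.of_apply, if_pos hk, mul_comm]
    rfl
  · intro k _ hk
    rw [Matrix.of_apply, if_neg hk, zero_mul]

theorem gblk_mulVec_inr (M : Matrix ι ι F) (p q : K → ι → F) (P : Finset K) (d : K → F)
    (y : ι ⊕ K → F) (k : K) : (gblk M p q P d *ᵥ y) (Sum.inr k) =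
      (if k ∈ P then q k ⬝ᵥ (y ∘ Sum.inl) else 0) + d k * y (Sum.inr k) := by
  rw [gblk, Matrix.fromBlocks_mulVec]
  show ((Matrix.of fun k j => if k ∈ P then q k j else 0) *ᵥ (y ∘ Sum.inl)) k +
    (Matrix.diagonal d *ᵥ (y ∘ Sum.inr)) k = _
  rw [Matrix.mulVec_diagonal, mulVec, dotProduct]
  congr 1
  split_ifs with h
  · rw [dotProduct]
    refine Finset.sum_congr rfl fun j _ => ?_
    rw [Matrix.of_apply, if_pos h]
  · refine Finset.sum_eq_zero fun j _ => ?_
    rw [Matrix.of_apply, if_neg h, zero_mul]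

/-- The perturbation lemma. -/
theorem good_perturb [Infinite F] (M : Matrix ι ι F) (p q : K → ι → F) (S₀ J : Finset K)
    (hg : Good M p q S₀) (hJ : J ⊆ S₀)
    (hr : ∀ j ∈ J, ∀ k, (Bord M p q S₀)⁻¹ (Sum.inr k) (Sum.inr j) ≠ 0 → k ∈ S₀ ∧ k ∉ J)
    (y : K → F) (T : Finset K)
    (hT : Good (LL (cp M p q S₀ J) (cq M p q S₀ J) y) (cp M p q S₀ J) (cq M p q S₀ J) T) :
    ∃ t : F, Good (M + t • LL p q y) p q ((S₀ \ J) ∪ T) := by
  classical
  set B := (Bord M p q S₀)⁻¹ with hB
  have hu : IsUnit (Bord M p q S₀).det := isUnit_iff_ne_zero.mpr ((good_iff_Bord M p q S₀).mp hg)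
  set R := S₀ \ J with hR
  have hcp0 : ∀ k ∈ R, cp M p q S₀ J k = 0 := by
    intro k hk
    rw [hR, Finset.mem_sdiff] at hk
    funext j
    rw [cp_of_mem hg J hk.1, if_neg]
    · rfl
    · intro e
      exact hk.2 (e ▸ j.2)
  -- the sets are disjoint
  have hdisj : ∀ k ∈ T, k ∉ R := by
    intro k hk hkR
    have h1 := (hT 0 (Pi.single k 1) (fun l hl' => by
      rw [Pi.single_apply, if_neg]
      rintro rfl
      exact hl' hk) (fun l _ => dotProduct_zero _) (by
      rw [Matrix.mulVec_zero, zero_add]
      refine Finset.sum_eq_zero fun l _ => ?_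
      by_cases hlk : l = k
      · rw [hlk, hcp0 k hkR, smul_zero]
      · rw [Pi.single_eq_of_ne hlk, zero_smul])).2
    have h2 := congrFun h1 k
    rw [Pi.single_eq_same] at h2
    exact one_ne_zero h2
  set d : K → F := fun k => if k ∈ R ∪ T then 0 else 1 with hd
  set f := gblk M p q R d with hf
  set g := gblk (LL p q y) p q T 0 with hgdef
  obtain ⟨z, hz0, hz⟩ := exists_pencil_sup_ne f.mulVecLin g.mulVecLin
    ((LinearMap.ker f.mulVecLin).map g.mulVecLin) (by
    rintro z hz _ ⟨v, hv, rfl⟩
    refine ⟨z⁻¹ • v, ?_⟩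
    have hv' : f.mulVecLin v = 0 := hv
    rw [LinearMap.add_apply, map_smul, hv', smul_zero, zero_add, LinearMap.smul_apply, map_smul,
      smul_smul, mul_inv_cancel₀ hz, one_smul])
  have htop : LinearMap.range f.mulVecLin ⊔ (LinearMap.ker f.mulVecLin).map g.mulVecLin = ⊤ := by
    by_contra hne
    obtain ⟨φ, hφ0, hφ⟩ := Submodule.exists_le_ker_of_lt_top _ (lt_top_iff_ne_top.mpr hne)
    set ξ : ι ⊕ K → F := fun e => φ (Pi.single e 1) with hξ
    have hφξ : ∀ v, φ v = ξ ⬝ᵥ v := by
      intro v
      have e0 : v = ∑ e, v e • (Pi.single e 1 : ι ⊕ K → F) := by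
        funext e'
        rw [Finset.sum_apply, Finset.sum_eq_single e']
        · rw [Pi.smul_apply, Pi.single_eq_same, smul_eq_mul, mul_one]
        · intro k _ hkj
          rw [Pi.smul_apply, Pi.single_eq_of_ne hkj.symm, smul_zero]
        · intro h
          exact absurd (Finset.mem_univ e') h
      conv_lhs => rw [e0]
      rw [map_sum, dotProduct]
      refine Finset.sum_congr rfl fun e _ => ?_
      rw [map_smul, smul_eq_mul, mul_comm]
    have h1 : fᵀ *ᵥ ξ = 0 := by
      funext e
      have h2 : φ (f.mulVecLin (Pi.single e 1)) = 0 :=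
        hφ (Submodule.mem_sup_left ⟨_, rfl⟩)
      rw [hφξ, Matrix.mulVecLin_apply, Matrix.dotProduct_mulVec, dotProduct_single, mul_one,
        ← Matrix.mulVec_transpose] at h2
      exact h2
    have h2 : ∀ v, f *ᵥ v = 0 → ξ ⬝ᵥ (g *ᵥ v) = 0 := by
      intro v hv
      have h3 : φ (g.mulVecLin v) = 0 := hφ (Submodule.mem_sup_right ⟨v, hv, rfl⟩)
      rwa [hφξ] at h3
    rw [hf, gblk_transpose] at h1
    set ξ₁ : ι → F := ξ ∘ Sum.inl with hξ₁
    have hinl : ∀ i, (Mᵀ *ᵥ ξ₁) i + ∑ k ∈ R, ξ (Sum.inr k) * q k i = 0 := by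
      intro i
      have := congrFun h1 (Sum.inl i)
      rwa [gblk_mulVec_inl] at this
    have hinr : ∀ k, (if k ∈ R then p k ⬝ᵥ ξ₁ else 0) + d k * ξ (Sum.inr k) = 0 := by
      intro k
      have := congrFun h1 (Sum.inr k)
      rwa [gblk_mulVec_inr] at this
    have hR0 : ∀ k ∈ R, p k ⬝ᵥ ξ₁ = 0 := by
      intro k hk
      have := hinr k
      rw [if_pos hk, hd] at this
      simp only at this
      rwa [if_pos (Finset.mem_union_left _ hk), zero_mul, add_zero] at this
    have hout : ∀ k, k ∉ R → k ∉ T → ξ (Sum.inr k) = 0 := by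
      intro k hk hk'
      have := hinr k
      rw [if_neg hk, hd] at this
      simp only at this
      rwa [if_neg (by rw [Finset.mem_union]; tauto), one_mul, zero_add] at this
    -- the coordinates of the functional
    set ν : {k // k ∈ J} → F := fun j => p j.1 ⬝ᵥ ξ₁ with hν
    set η : ι ⊕ K → F := Sum.elim ξ₁ fun k => if k ∈ R then ξ (Sum.inr k) else 0 with hη
    have hηB : (Bord M p q S₀)ᵀ *ᵥ η =
        (Sum.elim 0 (fun k => if k ∈ J then p k ⬝ᵥ ξ₁ else 0) : ι ⊕ K → F) := by
      rw [Bord_transpose]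
      funext e
      rcases e with i | k
      · rw [Bord_mulVec_inl]
        have h3 : ∑ k ∈ S₀, η (Sum.inr k) * q k i = ∑ k ∈ R, ξ (Sum.inr k) * q k i := by
          rw [← Finset.sum_subset (Finset.sdiff_subset : R ⊆ S₀)]
          · refine Finset.sum_congr rfl fun k hk => ?_
            show (if k ∈ R then ξ (Sum.inr k) else 0) * q k i = _
            rw [if_pos hk]
          · intro k _ hk
            show (if k ∈ R then ξ (Sum.inr k) else 0) * q k i = _
            rw [if_neg hk, zero_mul]
        rw [h3]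
        exact hinl i
      · rw [Bord_mulVec_inr]
        show _ = if k ∈ J then p k ⬝ᵥ ξ₁ else 0
        have h3 : η ∘ Sum.inl = ξ₁ := rfl
        rw [h3]
        by_cases hkS : k ∈ S₀
        · rw [if_pos hkS]
          by_cases hkJ : k ∈ J
          · rw [if_pos hkJ]
          · rw [if_neg hkJ, hR0 k (by rw [hR, Finset.mem_sdiff]; exact ⟨hkS, hkJ⟩)]
        · rw [if_neg hkS, if_neg (fun h => hkS (hJ h))]
          show (if k ∈ R then ξ (Sum.inr k) else 0) = 0
          rw [if_neg]
          rw [hR, Finset.mem_sdiff]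
          tauto
    have hηeq : ∀ e, η e = ∑ j : {k // k ∈ J}, B (Sum.inr j.1) e * ν j := by
      intro e
      have h3 : η = (Bᵀ) *ᵥ ((Bord M p q S₀)ᵀ *ᵥ η) := by
        rw [Matrix.mulVec_mulVec, ← Matrix.transpose_mul, hB, Matrix.mul_nonsing_inv _ hu,
          Matrix.transpose_one, Matrix.one_mulVec]
      rw [hηB] at h3
      have h4 := congrFun h3 e
      rw [h4, mulVec, dotProduct, Fintype.sum_sum_type]
      have h5 : ∑ x, Bᵀ e (Sum.inl x) *
          (Sum.elim 0 (fun k => if k ∈ J then p k ⬝ᵥ ξ₁ else 0) : ι ⊕ K → F) (Sum.inl x) = 0 :=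
        Finset.sum_eq_zero fun x _ => mul_zero _
      rw [h5, zero_add, ← Finset.sum_subset (Finset.subset_univ J), ← Finset.sum_coe_sort J]
      · refine Finset.sum_congr rfl fun j _ => ?_
        show B (Sum.inr j.1) e * (if j.1 ∈ J then p j.1 ⬝ᵥ ξ₁ else 0) = _
        rw [if_pos j.2]
      · intro k _ hk
        show B (Sum.inr k) e * (if k ∈ J then p k ⬝ᵥ ξ₁ else 0) = 0
        rw [if_neg hk, mul_zero]
    have hpν : ∀ k, p k ⬝ᵥ ξ₁ = cp M p q S₀ J k ⬝ᵥ ν := by
      intro k
      have h3 : ∀ i, ξ₁ i = ∑ j : {k // k ∈ J}, B (Sum.inr j.1) (Sum.inl i) * ν j :=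
        fun i => hηeq (Sum.inl i)
      rw [dotProduct, dotProduct]
      simp only [h3, cp, Finset.mul_sum, Finset.sum_mul]
      rw [Finset.sum_comm]
      refine Finset.sum_congr rfl fun j _ => Finset.sum_congr rfl fun i _ => ?_
      rw [← hB]
      ring
    -- the kernel of f
    have hker1 : ∀ k ∈ T, f *ᵥ (Pi.single (Sum.inr k) 1) = 0 := by
      intro k hk
      funext e
      rcases e with i | l
      · rw [hf, gblk_mulVec_inl]
        have h3 : ((Pi.single (Sum.inr k) 1 : ι ⊕ K → F) ∘ Sum.inl) = 0 := by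
          funext i
          show (Pi.single (Sum.inr k) 1 : ι ⊕ K → F) (Sum.inl i) = 0
          rw [Pi.single_eq_of_ne (by simp)]
        rw [h3, Matrix.mulVec_zero, Pi.zero_apply, zero_add]
        refine Finset.sum_eq_zero fun l hl' => ?_
        rw [Pi.single_eq_of_ne, zero_mul]
        intro e
        exact hdisj k hk (Sum.inr.inj e ▸ hl')
      · rw [hf, gblk_mulVec_inr]
        have h3 : ((Pi.single (Sum.inr k) 1 : ι ⊕ K → F) ∘ Sum.inl) = 0 := by
          funext i
          show (Pi.single (Sum.inr k) 1 : ι ⊕ K → F) (Sum.inl i) = 0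
          rw [Pi.single_eq_of_ne (by simp)]
        rw [h3, dotProduct_zero, ite_self, zero_add, Pi.zero_apply]
        by_cases hlk : l = k
        · subst hlk
          rw [hd]
          simp only
          rw [if_pos (Finset.mem_union_right _ hk), zero_mul]
        · rw [Pi.single_eq_of_ne (by simpa using hlk), mul_zero]
    have hker2 : ∀ j : {k // k ∈ J}, f *ᵥ (fun e => B e (Sum.inr j.1)) = 0 := by
      intro j
      have h3 : (Bord M p q S₀) *ᵥ (fun e => B e (Sum.inr j.1)) = Pi.single (Sum.inr j.1) 1 := by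
        have h4 := Matrix.mul_nonsing_inv _ hu
        funext e
        have h5 := congrFun (congrFun h4 e) (Sum.inr j.1)
        rw [Matrix.mul_apply, Matrix.one_apply] at h5
        rw [Pi.single_apply]
        exact h5
      have hzR : ∀ k, k ∉ R → B (Sum.inr k) (Sum.inr j.1) = 0 := by
        intro k hk
        by_contra hne
        apply hk
        rw [hR, Finset.mem_sdiff]
        exact hr j.1 j.2 k hne
      funext e
      rcases e with i | k
      · rw [hf, gblk_mulVec_inl]
        have h4 := congrFun h3 (Sum.inl i)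
        rw [Bord_mulVec_inl, Pi.single_eq_of_ne (by simp),
          ← Finset.sum_subset (Finset.sdiff_subset : R ⊆ S₀)] at h4
        · exact h4
        · intro k _ hk
          rw [hzR k hk, zero_mul]
      · rw [hf, gblk_mulVec_inr]
        have h4 := congrFun h3 (Sum.inr k)
        rw [Bord_mulVec_inr] at h4
        by_cases hk : k ∈ R
        · have hk' := hk
          rw [hR, Finset.mem_sdiff] at hk'
          rw [if_pos hk'.1, Pi.single_eq_of_ne] at h4
          · rw [if_pos hk, h4, zero_add, hd]
            simp only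
            rw [if_pos (Finset.mem_union_left _ hk), zero_mul]
            rfl
          · intro e
            rw [Sum.inr.inj e] at hk'
            exact hk'.2 j.2
        · rw [if_neg hk, zero_add, hzR k hk, mul_zero]
          rfl
    -- the contracted system
    have hT1 : ∀ k ∈ T, cp M p q S₀ J k ⬝ᵥ ν = 0 := by
      intro k hk
      have h3 := h2 _ (hker1 k hk)
      rw [← hpν]
      have h4 : g *ᵥ (Pi.single (Sum.inr k) 1) = Sum.elim (p k) 0 := by
        have h5 : ((Pi.single (Sum.inr k) 1 : ι ⊕ K → F) ∘ Sum.inl) = 0 := by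
          funext i
          show (Pi.single (Sum.inr k) 1 : ι ⊕ K → F) (Sum.inl i) = 0
          rw [Pi.single_eq_of_ne (by simp)]
        funext e
        rcases e with i | l
        · rw [hgdef, gblk_mulVec_inl, h5, Matrix.mulVec_zero, Pi.zero_apply, zero_add,
            Finset.sum_eq_single k]
          · rw [Pi.single_eq_same, one_mul]
            rfl
          · intro l _ hlk
            rw [Pi.single_eq_of_ne (by simpa using hlk), zero_mul]
          · intro h
            exact absurd hk h
        · rw [hgdef, gblk_mulVec_inr, h5, dotProduct_zero, ite_self, zero_add, Pi.zero_apply,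
            zero_mul]
          rfl
      rw [h4, dotProduct, Fintype.sum_sum_type] at h3
      have h5 : ∑ x, ξ (Sum.inr x) * (Sum.elim (p k) 0 : ι ⊕ K → F) (Sum.inr x) = 0 :=
        Finset.sum_eq_zero fun x _ => mul_zero _
      rw [h5, add_zero] at h3
      rw [← h3, dotProduct]
      refine Finset.sum_congr rfl fun i _ => ?_
      rw [mul_comm]
      rfl
    have hT2 : (LL (cp M p q S₀ J) (cq M p q S₀ J) y)ᵀ *ᵥ ν +
        ∑ k, (if k ∈ T then ξ (Sum.inr k) else 0) • cq M p q S₀ J k = 0 := by
      funext j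
      have h3 := h2 _ (hker2 j)
      have h4 : g *ᵥ (fun e => B e (Sum.inr j.1)) = Sum.elim
          (LL p q y *ᵥ fun i => B (Sum.inl i) (Sum.inr j.1))
          fun k => if k ∈ T then cq M p q S₀ J k j else 0 := by
        funext e
        rcases e with i | k
        · rw [hgdef, gblk_mulVec_inl]
          have h5 : ∑ k ∈ T, B (Sum.inr k) (Sum.inr j.1) * p k i = 0 := by
            refine Finset.sum_eq_zero fun k hk => ?_
            have h6 : B (Sum.inr k) (Sum.inr j.1) = 0 := by
              by_contra hne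
              apply hdisj k hk
              rw [hR, Finset.mem_sdiff]
              exact hr j.1 j.2 k hne
            rw [h6, zero_mul]
          rw [h5, add_zero]
          rfl
        · rw [hgdef, gblk_mulVec_inr, Pi.zero_apply, zero_mul, add_zero]
          rfl
      rw [h4, dotProduct, Fintype.sum_sum_type] at h3
      have h5 : ∑ i, ξ (Sum.inl i) * (Sum.elim (LL p q y *ᵥ fun i => B (Sum.inl i) (Sum.inr j.1))
          (fun k => if k ∈ T then cq M p q S₀ J k j else 0) : ι ⊕ K → F) (Sum.inl i) =
          ((LL (cp M p q S₀ J) (cq M p q S₀ J) y)ᵀ *ᵥ ν) j := by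
        show ξ₁ ⬝ᵥ (LL p q y *ᵥ fun i => B (Sum.inl i) (Sum.inr j.1)) = _
        rw [LL_mulVec]
        have h6 : ∀ k, q k ⬝ᵥ (fun i => B (Sum.inl i) (Sum.inr j.1)) = cq M p q S₀ J k j :=
          fun k => rfl
        simp only [h6]
        have h7 : (LL (cp M p q S₀ J) (cq M p q S₀ J) y)ᵀ =
            LL (cq M p q S₀ J) (cp M p q S₀ J) y := by
          rw [LL, Matrix.transpose_sum, LL]
          refine Finset.sum_congr rfl fun k _ => ?_
          rw [Matrix.transpose_smul, Matrix.transpose_vecMulVec]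
        rw [h7, LL_mulVec, Finset.sum_apply, dotProduct_sum]
        refine Finset.sum_congr rfl fun k _ => ?_
        rw [dotProduct_smul, Pi.smul_apply, dotProduct_comm, hpν, smul_eq_mul, smul_eq_mul]
        ring
      have h6 : ∑ k, ξ (Sum.inr k) * (Sum.elim (LL p q y *ᵥ fun i => B (Sum.inl i) (Sum.inr j.1))
          (fun k => if k ∈ T then cq M p q S₀ J k j else 0) : ι ⊕ K → F) (Sum.inr k) =
          (∑ k, (if k ∈ T then ξ (Sum.inr k) else 0) • cq M p q S₀ J k) j := by
        rw [Finset.sum_apply]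
        refine Finset.sum_congr rfl fun k _ => ?_
        show ξ (Sum.inr k) * (if k ∈ T then cq M p q S₀ J k j else 0) = _
        rw [Pi.smul_apply, smul_eq_mul]
        split_ifs
        · rfl
        · rw [mul_zero, zero_mul]
      rw [h5, h6] at h3
      exact h3
    have hfin := (good_transpose _ _ _ _).mpr hT ν (fun k => if k ∈ T then ξ (Sum.inr k) else 0)
      (fun k hk => if_neg hk) hT1 hT2
    have hν0 : ν = 0 := hfin.1
    have hη0 : ∀ e, η e = 0 := by
      intro e
      rw [hηeq, hν0]
      refine Finset.sum_eq_zero fun j _ => mul_zero _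
    have hξ0 : ξ = 0 := by
      funext e
      rcases e with i | k
      · exact hη0 (Sum.inl i)
      · by_cases hk : k ∈ R
        · have := hη0 (Sum.inr k)
          rw [hη, Sum.elim_inr, if_pos hk] at this
          exact this
        · by_cases hk' : k ∈ T
          · have := congrFun hfin.2 k
            simp only [if_pos hk'] at this
            exact this
          · exact hout k hk hk'
    apply hφ0
    apply LinearMap.ext
    intro v
    rw [hφξ, hξ0, zero_dotProduct]
    rfl
  rw [htop, finrank_top] at hz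
  -- the matrix f + z g is nonsingular
  have hsurj : LinearMap.range (f.mulVecLin + z • g.mulVecLin) = ⊤ :=
    Submodule.eq_top_of_finrank_eq (le_antisymm (Submodule.finrank_le _) hz)
  have hinj : Function.Injective (f.mulVecLin + z • g.mulVecLin) :=
    LinearMap.injective_iff_surjective.mpr (LinearMap.range_eq_top.mp hsurj)
  refine ⟨z, fun x w hw hq' hM => ?_⟩
  set w' : K → F := fun k => if k ∈ T then z⁻¹ * w k else w k with hw'
  have h1 : (f.mulVecLin + z • g.mulVecLin) (Sum.elim x w') = 0 := by
    rw [LinearMap.add_apply, LinearMap.smul_apply, Matrix.mulVecLin_apply, Matrix.mulVecLin_apply]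
    funext e
    rcases e with i | k
    · rw [Pi.add_apply, Pi.smul_apply, hf, hgdef, gblk_mulVec_inl, gblk_mulVec_inl]
      have h3 : (Sum.elim x w' : ι ⊕ K → F) ∘ Sum.inl = x := rfl
      rw [h3]
      have h4 := congrFun hM i
      rw [Pi.add_apply, Matrix.add_mulVec, Pi.add_apply, Matrix.smul_mulVec, Pi.smul_apply,
        Finset.sum_apply] at h4
      have h5 : ∑ k, (w k • p k) i = ∑ k ∈ R, (Sum.elim x w' : ι ⊕ K → F) (Sum.inr k) * p k i +
          z • ∑ k ∈ T, (Sum.elim x w' : ι ⊕ K → F) (Sum.inr k) * p k i := by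
        rw [← Finset.sum_subset (Finset.subset_univ (R ∪ T)),
          Finset.sum_union (Finset.disjoint_left.mpr fun k hk hk' => hdisj k hk' hk)]
        · congr 1
          · refine Finset.sum_congr rfl fun k hk => ?_
            show w k * p k i = (if k ∈ T then z⁻¹ * w k else w k) * p k i
            rw [if_neg (fun h => hdisj k h hk)]
          · rw [Finset.smul_sum]
            refine Finset.sum_congr rfl fun k hk => ?_
            show w k * p k i = z * ((if k ∈ T then z⁻¹ * w k else w k) * p k i)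
            rw [if_pos hk, ← mul_assoc, ← mul_assoc, mul_inv_cancel₀ hz0, one_mul]
        · intro k _ hk
          rw [hw k hk, zero_smul]
          rfl
      rw [h5] at h4
      have h6 : (0 : ι → F) i = 0 := rfl
      rw [h6] at h4
      show _ = (0 : F)
      rw [smul_add, ← h4]
      ring
    · rw [Pi.add_apply, Pi.smul_apply, hf, hgdef, gblk_mulVec_inr, gblk_mulVec_inr]
      have h3 : (Sum.elim x w' : ι ⊕ K → F) ∘ Sum.inl = x := rfl
      rw [h3, Pi.zero_apply, zero_mul, add_zero]
      have h4 : (if k ∈ R then q k ⬝ᵥ x else 0) = 0 := by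
        split_ifs with hk
        · exact hq' k (Finset.mem_union_left _ hk)
        · rfl
      have h5 : (if k ∈ T then q k ⬝ᵥ x else 0) = 0 := by
        split_ifs with hk
        · exact hq' k (Finset.mem_union_right _ hk)
        · rfl
      rw [h4, h5, smul_zero, zero_add, add_zero, Pi.zero_apply]
      show d k * (if k ∈ T then z⁻¹ * w k else w k) = 0
      rw [hd]
      simp only
      by_cases hk : k ∈ R ∪ T
      · rw [if_pos hk, zero_mul]
      · rw [if_neg hk, one_mul, hw k hk, mul_zero, ite_self]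
  have h2 : (Sum.elim x w' : ι ⊕ K → F) = 0 := hinj (by rw [h1, map_zero])
  refine ⟨funext fun i => congrFun h2 (Sum.inl i), funext fun k => ?_⟩
  have h3 : w' k = 0 := congrFun h2 (Sum.inr k)
  rw [hw'] at h3
  simp only at h3
  split_ifs at h3 with hk
  · exact (mul_eq_zero.mp h3).resolve_left (inv_ne_zero hz0)
  · exact h3

end

end Pool.Agent.Lib.MP_64d474_lc
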