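import Mathlib
import Pool.Agent.Lib.MP_64d474_lc.HnPert

/-!
Semicontinuity: a certificate for the leading system gives a certificate for the system.
-/

open Matrix Module MvPolynomial

set_option linter.unusedSectionVars false

namespace Pool.Agent.Lib.MP_64d474_lc

section

variable {F : Type*} [Field F] {ι K : Type*} [Fintype ι] [DecidableEq ι] [Fintype K]
  [DecidableEq K]

/-- leading part of the left vectors -/
def leadp (ρ : ι → ℤ) (mk : K → ℤ) (p : K → ι → F) : K → ι → F :=
  fun k i => if ρ i = mk k then p k i else 0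

/-- leading part of the right vectors -/
def leadq (σ : ι → ℤ) (mk : K → ℤ) (q : K → ι → F) : K → ι → F :=
  fun k j => if 1 + mk k + σ j = 0 then q k j else 0

theorem LL_apply (p q : K → ι → F) (y : K → F) (i j : ι) :
    LL p q y i j = ∑ k, y k * (p k i * q k j) := by
  rw [LL, Matrix.sum_apply]
  refine Finset.sum_congr rfl fun k _ => ?_
  rw [Matrix.smul_apply, vecMulVec_apply, smul_eq_mul]

theorem Bord_add_smul (M : Matrix ι ι F) (L : Matrix ι ι F) (p q : K → ι → F) (T : Finset K)
    (t : F) : Bord (M + t • L) p q T = Bord M p q T + t • Matrix.fromBlocks L 0 0 0 := by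
  rw [Bord, Bord, Matrix.fromBlocks_smul, Matrix.fromBlocks_add, smul_zero, smul_zero, smul_zero,
    add_zero, add_zero, add_zero]

theorem good_of_lead [Infinite F] (M : Matrix ι ι F) (p q : K → ι → F) (ρ σ : ι → ℤ)
    (mk : K → ℤ) (hM : ∀ i j, M i j ≠ 0 → 0 ≤ 0 + ρ i + σ j)
    (hp : ∀ k i, p k i ≠ 0 → mk k ≤ ρ i) (hq : ∀ k j, q k j ≠ 0 → 0 ≤ 1 + mk k + σ j)
    (y : K → F) (T : Finset K) (t : F)
    (hT : Good (lead2 0 ρ σ M + t • LL (leadp ρ mk p) (leadq σ mk q) y) (leadp ρ mk p)
      (leadq σ mk q) T) :
    ∃ s : F, Good (M + s • LL p q y) p q T := by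
  classical
  set ρ' : ι ⊕ K → ℤ := Sum.elim ρ fun k => if k ∈ T then 1 + mk k else 0 with hρ'
  set σ' : ι ⊕ K → ℤ := Sum.elim σ fun k => if k ∈ T then -mk k else 0 with hσ'
  set L : Matrix (ι ⊕ K) (ι ⊕ K) F := Matrix.fromBlocks (LL p q y) 0 0 0 with hL
  have h0 : ∀ e e', Bord M p q T e e' ≠ 0 → 0 ≤ 0 + ρ' e + σ' e' := by
    rintro (i | k) (j | l) h
    · exact hM i j h
    · rw [Bord_inl_inr] at h
      split_ifs at h with hl
      · have := hp l i h
        show 0 ≤ 0 + ρ i + (if l ∈ T then -mk l else 0)
        rw [if_pos hl]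
        linarith
      · exact absurd rfl h
    · rw [Bord_inr_inl] at h
      split_ifs at h with hl
      · have := hq k j h
        show 0 ≤ 0 + (if k ∈ T then 1 + mk k else 0) + σ j
        rw [if_pos hl]
        linarith
      · exact absurd rfl h
    · rw [Bord_inr_inr] at h
      split_ifs at h with h1 h2
      · exact absurd rfl h
      · subst h1
        show 0 ≤ 0 + (if k ∈ T then 1 + mk k else 0) + (if k ∈ T then -mk k else 0)
        rw [if_neg h2, if_neg h2]
        norm_num
      · exact absurd rfl h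
  have h1 : ∀ (_ : Unit) e e', L e e' ≠ 0 → 0 ≤ 1 + ρ' e + σ' e' := by
    rintro _ (i | k) (j | l) h
    · have h' : LL p q y i j ≠ 0 := h
      rw [LL_apply] at h'
      obtain ⟨k, _, hk⟩ := Finset.exists_ne_zero_of_sum_ne_zero h'
      have h2 := hp k i (left_ne_zero_of_mul (right_ne_zero_of_mul hk))
      have h3 := hq k j (right_ne_zero_of_mul (right_ne_zero_of_mul hk))
      show 0 ≤ 1 + ρ i + σ j
      linarith
    · exact absurd rfl h
    · exact absurd rfl h
    · exact absurd rfl h
  have e0 : lead2 0 ρ' σ' (Bord M p q T) =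
      Bord (lead2 0 ρ σ M) (leadp ρ mk p) (leadq σ mk q) T := by
    refine Matrix.ext fun e e' => ?_
    rcases e with i | k <;> rcases e' with j | l
    · rfl
    · rw [Bord_inl_inr, lead2, Bord_inl_inr, leadp]
      show (if 0 + ρ i + (if l ∈ T then -mk l else 0) = 0 then _ else 0) = _
      by_cases hl : l ∈ T
      · rw [if_pos hl, if_pos hl, if_pos hl]
        by_cases h2 : ρ i = mk l
        · rw [if_pos h2, if_pos (by omega)]
        · rw [if_neg h2, if_neg (by omega)]
      · rw [if_neg hl, if_neg hl, if_neg hl, ite_self]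
    · rw [Bord_inr_inl, lead2, Bord_inr_inl, leadq]
      show (if 0 + (if k ∈ T then 1 + mk k else 0) + σ j = 0 then _ else 0) = _
      by_cases hl : k ∈ T
      · rw [if_pos hl, if_pos hl, if_pos hl, zero_add]
      · rw [if_neg hl, if_neg hl, if_neg hl, ite_self]
    · rw [Bord_inr_inr, lead2, Bord_inr_inr]
      by_cases h1 : k = l
      · subst h1
        show (if 0 + (if k ∈ T then 1 + mk k else 0) + (if k ∈ T then -mk k else 0) = 0 then _
          else 0) = _
        by_cases hl : k ∈ T
        · rw [if_pos hl, if_pos hl, if_pos hl, if_pos rfl, ite_self]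
        · rw [if_neg hl, if_neg hl, if_neg hl, if_pos (by norm_num)]
      · rw [if_neg h1, ite_self]
  have e1 : lead2 1 ρ' σ' L =
      Matrix.fromBlocks (LL (leadp ρ mk p) (leadq σ mk q) y) 0 0 0 := by
    refine Matrix.ext fun e e' => ?_
    rcases e with i | k <;> rcases e' with j | l
    · show (if 1 + ρ i + σ j = 0 then LL p q y i j else 0) = LL (leadp ρ mk p) (leadq σ mk q) y i j
      rw [LL_apply, LL_apply]
      by_cases h2 : 1 + ρ i + σ j = 0
      · rw [if_pos h2]
        refine Finset.sum_congr rfl fun k _ => ?_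
        congr 1
        by_cases h3 : p k i * q k j = 0
        · rw [h3, leadp, leadq]
          split_ifs
          · exact h3.symm
          · rw [mul_zero]
          · rw [zero_mul]
          · rw [zero_mul]
        · have h4 := hp k i (left_ne_zero_of_mul h3)
          have h5 := hq k j (right_ne_zero_of_mul h3)
          rw [leadp, leadq, if_pos (by omega), if_pos (by omega)]
      · rw [if_neg h2]
        symm
        refine Finset.sum_eq_zero fun k _ => ?_
        rw [leadp, leadq]
        split_ifs with h3 h4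
        · omega
        · rw [mul_zero, mul_zero]
        · rw [zero_mul, mul_zero]
        · rw [zero_mul, mul_zero]
    · exact ite_self _
    · exact ite_self _
    · exact ite_self _
  rw [good_iff_Bord, Bord_add_smul] at hT
  have h2 : (symb (lead2 0 ρ' σ' (Bord M p q T)) (fun _ : Unit => lead2 1 ρ' σ' L)).det ≠ 0 := by
    intro h
    have h3 := eval_symb_det (lead2 0 ρ' σ' (Bord M p q T)) (fun _ : Unit => lead2 1 ρ' σ' L)
      (fun _ => t)
    rw [h, map_zero, Fintype.sum_unique, e0, e1] at h3
    exact hT h3.symm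
  obtain ⟨d, hd⟩ := MvPolynomial.exists_coeff_ne_zero h2
  rw [coeff_lead2 (Bord M p q T) (fun _ : Unit => L) (fun _ => 1) ρ' σ' h0 h1] at hd
  split_ifs at hd with h3
  · have h4 : (symb (Bord M p q T) (fun _ : Unit => L)).det ≠ 0 := by
      intro h
      rw [h, coeff_zero] at hd
      exact hd rfl
    have h5 : ∃ s : Unit → F, eval s (symb (Bord M p q T) (fun _ : Unit => L)).det ≠ 0 := by
      by_contra hcon
      push Not at hcon
      exact h4 (MvPolynomial.funext fun s => by rw [hcon s, map_zero])
    obtain ⟨s, hs⟩ := h5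
    rw [eval_symb_det, Fintype.sum_unique, hL, ← Bord_add_smul, ← good_iff_Bord] at hs
    exact ⟨_, hs⟩
  · exact absurd rfl hd

end

end Pool.Agent.Lib.MP_64d474_lc
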