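import Mathlib
import Pool.Agent.Lib.MP_64d474_lc.HnSemi

/-!
Optimal potentials for a labelled system of matrices of rank one.
-/

open Matrix Module MvPolynomial

set_option linter.unusedSectionVars false

namespace Pool.Agent.Lib.MP_64d474_lc

section

variable {F : Type*} [Field F] {ι K : Type*} [Fintype ι] [DecidableEq ι] [Fintype K]
  [DecidableEq K]

theorem mul_vmv (X Z : Matrix ι ι F) (p q : ι → F) :
    X * vecMulVec p q * Z = vecMulVec (X *ᵥ p) (Zᵀ *ᵥ q) := by
  rw [Matrix.mul_vecMulVec, Matrix.vecMulVec_mul, Matrix.mulVec_transpose]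

theorem good_equiv (M : Matrix ι ι F) (p q : K → ι → F) (X Z : Matrix ι ι F) (hX : X.det ≠ 0)
    (hZ : Z.det ≠ 0) (T : Finset K) :
    Good (X * M * Z) (fun k => X *ᵥ p k) (fun k => Zᵀ *ᵥ q k) T ↔ Good M p q T := by
  rw [good_iff_coeff, good_iff_coeff]
  have h1 := det_symb_equiv X Z M (fun k => vecMulVec (p k) (q k))
  simp only [mul_vmv] at h1
  rw [h1, coeff_C_mul]
  constructor
  · exact right_ne_zero_of_mul
  · exact mul_ne_zero (mul_ne_zero hX hZ)

theorem lead2_vmv (p q : K → ι → F) (ρ σ : ι → ℤ) (mk : K → ℤ)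
    (hp : ∀ k i, p k i ≠ 0 → mk k ≤ ρ i) (hq : ∀ k j, q k j ≠ 0 → 0 ≤ 1 + mk k + σ j) (k : K) :
    lead2 1 ρ σ (vecMulVec (p k) (q k)) = vecMulVec (leadp ρ mk p k) (leadq σ mk q k) := by
  refine Matrix.ext fun i j => ?_
  rw [lead2, vecMulVec_apply, vecMulVec_apply, leadp, leadq]
  by_cases h2 : 1 + ρ i + σ j = 0
  · rw [if_pos h2]
    by_cases h3 : p k i * q k j = 0
    · rw [h3]
      split_ifs
      · exact h3.symm
      · rw [mul_zero]
      · rw [zero_mul]
      · rw [zero_mul]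
    · have h4 := hp k i (left_ne_zero_of_mul h3)
      have h5 := hq k j (right_ne_zero_of_mul h3)
      rw [if_pos (by omega), if_pos (by omega)]
  · rw [if_neg h2]
    split_ifs with h3 h4
    · omega
    · rw [mul_zero]
    · rw [zero_mul]
    · rw [zero_mul]

/-- a nonsingular symbolic matrix has no shrunk subspace -/
theorem not_shrunk_of_det [Infinite F] (M : Matrix ι ι F) (B : K → Matrix ι ι F)
    (h : (symb M B).det ≠ 0) : ¬ Shrunk 0 (fun o : Option K => o.elim M B) := by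
  rintro ⟨U, hU⟩
  obtain ⟨c, hc⟩ : ∃ c : K → F, eval c (symb M B).det ≠ 0 := by
    by_contra hcon
    push Not at hcon
    exact h (MvPolynomial.funext fun s => by rw [hcon s, map_zero])
  rw [eval_symb_det] at hc
  have hinj : Function.Injective (M + ∑ k, c k • B k).mulVecLin :=
    Matrix.mulVec_injective_iff_isUnit.mpr
      ((Matrix.isUnit_iff_isUnit_det _).mpr (isUnit_iff_ne_zero.mpr hc))
  have h1 : U.map (M + ∑ k, c k • B k).mulVecLin ≤
      imageSum 0 (fun o : Option K => o.elim M B) U := by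
    rintro _ ⟨x, hx, rfl⟩
    rw [Matrix.mulVecLin_apply, Matrix.add_mulVec, Matrix.sum_mulVec]
    refine Submodule.add_mem _ (mem_imageSum (B := fun o : Option K => o.elim M B) none hx)
      (Submodule.sum_mem _ fun k _ => ?_)
    rw [Matrix.smul_mulVec]
    exact Submodule.smul_mem _ _ (mem_imageSum (B := fun o : Option K => o.elim M B) (some k) hx)
  have h2 := Submodule.finrank_mono h1
  rw [← (Submodule.equivMapOfInjective _ hinj U).finrank_eq] at h2
  omega

/-- Optimal potentials for a labelled system. -/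
theorem exists_graded [CharZero F] (M : Matrix ι ι F) (p q : K → ι → F) (β β' : ι → ℤ)
    (lab : K → ℤ) (lM : ∀ i j, M i j ≠ 0 → β i = β' j) (lp : ∀ k i, p k i ≠ 0 → β i = lab k)
    (lq : ∀ k j, q k j ≠ 0 → β' j = lab k) (hp0 : ∀ k, p k ≠ 0) (T₀ : Finset K)
    (hT₀ : Good M p q T₀) :
    ∃ (X Z : Matrix ι ι F) (ρ σ : ι → ℤ) (mk : K → ℤ) (S₀ : Finset K),
      X.det ≠ 0 ∧ Z.det ≠ 0 ∧
      (∀ i j, (X * M * Z) i j ≠ 0 → 0 ≤ 0 + ρ i + σ j) ∧
      (∀ k i, (X *ᵥ p k) i ≠ 0 → mk k ≤ ρ i) ∧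
      (∀ k j, (Zᵀ *ᵥ q k) j ≠ 0 → 0 ≤ 1 + mk k + σ j) ∧
      Good (lead2 0 ρ σ (X * M * Z)) (leadp ρ mk (fun k => X *ᵥ p k))
        (leadq σ mk (fun k => Zᵀ *ᵥ q k)) S₀ ∧
      Graded2 (lead2 0 ρ σ (X * M * Z)) (leadp ρ mk (fun k => X *ᵥ p k))
        (leadq σ mk (fun k => Zᵀ *ᵥ q k)) ρ σ mk β β' lab ∧
      S₀.card ≤ T₀.card := by
  classical
  set B : K → Matrix ι ι F := fun k => vecMulVec (p k) (q k) with hB
  have hc0 := (good_iff_coeff M p q T₀).mp hT₀
  have hdet : (symb M B).det ≠ 0 := by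
    intro h
    rw [hB] at h
    rw [h, coeff_zero] at hc0
    exact hc0 rfl
  obtain ⟨X, Z, ρ, σ, hX, hZ, hXβ, hZβ, hfeas, hns⟩ := exists_opt sep_int β (fun j => -β' j)
    (fun o : Option K => o.elim M B) (fun _ => 0) (by
      rintro (_ | k) i j h
      · have := lM i j h
        rw [this]
        ring
      · have h' : vecMulVec (p k) (q k) i j ≠ 0 := h
        rw [vecMulVec_apply] at h'
        rw [lp k i (left_ne_zero_of_mul h'), lq k j (right_ne_zero_of_mul h')]
        ring) (fun o => o.elim 0 fun _ => 1) (by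
      rintro (_ | k)
      · exact le_refl _
      · exact zero_le_one) (by
      rintro (_ | k)
      · exact zero_le_one
      · exact le_refl _) (not_shrunk_of_det M B hdet)
  set p₁ : K → ι → F := fun k => X *ᵥ p k with hp₁
  set q₁ : K → ι → F := fun k => Zᵀ *ᵥ q k with hq₁
  have hinjX : Function.Injective X.mulVec :=
    Matrix.mulVec_injective_iff_isUnit.mpr
      ((Matrix.isUnit_iff_isUnit_det _).mpr (isUnit_iff_ne_zero.mpr hX))
  have hp1 : ∀ k, p₁ k ≠ 0 := by
    intro k h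
    apply hp0 k
    apply hinjX
    rw [Matrix.mulVec_zero]
    exact h
  have hmin : ∀ k, ∃ i₀, p₁ k i₀ ≠ 0 ∧ ∀ i, p₁ k i ≠ 0 → ρ i₀ ≤ ρ i := by
    intro k
    have hne : (Finset.univ.filter fun i => p₁ k i ≠ 0).Nonempty := by
      obtain ⟨i, hi⟩ := Function.ne_iff.mp (hp1 k)
      exact ⟨i, Finset.mem_filter.mpr ⟨Finset.mem_univ i, hi⟩⟩
    obtain ⟨i₀, hi₀, hmin⟩ := Finset.exists_min_image _ ρ hne
    exact ⟨i₀, (Finset.mem_filter.mp hi₀).2, fun i hi =>
      hmin i (Finset.mem_filter.mpr ⟨Finset.mem_univ i, hi⟩)⟩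
  choose i₀ hi₀ hi₀min using hmin
  set mk : K → ℤ := fun k => ρ (i₀ k) with hmk
  have f0 : ∀ i j, (X * M * Z) i j ≠ 0 → 0 ≤ 0 + ρ i + σ j := fun i j h => hfeas none i j h
  have fk : ∀ k i j, (X * B k * Z) i j ≠ 0 → 0 ≤ 1 + ρ i + σ j := fun k i j h =>
    hfeas (some k) i j h
  have fp : ∀ k i, p₁ k i ≠ 0 → mk k ≤ ρ i := fun k i h => hi₀min k i h
  have fq : ∀ k j, q₁ k j ≠ 0 → 0 ≤ 1 + mk k + σ j := by
    intro k j h
    refine fk k (i₀ k) j ?_
    rw [hB, mul_vmv, vecMulVec_apply]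
    exact mul_ne_zero (hi₀ k) h
  have hns' : ¬ Shrunk (lead2 0 ρ σ (X * M * Z)) (fun k => lead2 1 ρ σ (X * B k * Z)) := by
    rintro ⟨U, hU⟩
    apply hns
    refine ⟨U, lt_of_le_of_lt (Submodule.finrank_mono ?_) hU⟩
    refine imageSum_le (fun x _ => ?_) ?_
    · rw [Matrix.zero_mulVec]
      exact Submodule.zero_mem _
    · rintro (_ | k) x hx
      · exact mem_imageSum_zero _ hx
      · exact mem_imageSum (B := fun k => lead2 1 ρ σ (X * B k * Z)) k hx
  have hlead := nonsing_of_cert M B (fun _ => 1) (cert_of_rank_one M p q hdet (fun _ => 1)) X Z ρ σ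
    hX hZ ⟨f0, fk⟩ hns'
  have hBl : (fun k => lead2 1 ρ σ (X * B k * Z)) =
      fun k => vecMulVec (leadp ρ mk p₁ k) (leadq σ mk q₁ k) := by
    funext k
    rw [hB, mul_vmv]
    exact lead2_vmv p₁ q₁ ρ σ mk fp fq k
  obtain ⟨d, hd⟩ := MvPolynomial.exists_coeff_ne_zero hlead
  have hd' := hd
  rw [coeff_lead2 (X * M * Z) (fun k => X * B k * Z) (fun _ => 1) ρ σ f0 fk] at hd'
  rw [hBl] at hd
  obtain ⟨S₀, hS₀, rfl⟩ := exists_good _ _ _ d hd
  refine ⟨X, Z, ρ, σ, mk, S₀, hX, hZ, f0, fp, fq, hS₀, ⟨?_, ?_, ?_, ?_, ?_, ?_⟩, ?_⟩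
  · intro i j h
    have := (lead2_ne h).1
    linarith
  · intro k i h
    rw [leadp] at h
    split_ifs at h with h1
    · exact h1
    · exact absurd rfl h
  · intro k j h
    rw [leadq] at h
    split_ifs at h with h1
    · exact h1
    · exact absurd rfl h
  · intro i j h
    obtain ⟨i', j', h1, h2, h3⟩ := equiv_ne (lead2_ne h).2
    rw [hXβ i i' h1, lM i' j' h2]
    have := hZβ j' j h3
    omega
  · intro k i h
    rw [leadp] at h
    split_ifs at h with h1
    · rw [mulVec, dotProduct] at h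
      obtain ⟨i', _, hi'⟩ := Finset.exists_ne_zero_of_sum_ne_zero h
      rw [hXβ i i' (left_ne_zero_of_mul hi')]
      exact lp k i' (right_ne_zero_of_mul hi')
    · exact absurd rfl h
  · intro k j h
    rw [leadq] at h
    split_ifs at h with h1
    · rw [mulVec, dotProduct] at h
      obtain ⟨j', _, hj'⟩ := Finset.exists_ne_zero_of_sum_ne_zero h
      have h2 := hZβ j' j (left_ne_zero_of_mul hj')
      have h3 := lq k j' (right_ne_zero_of_mul hj')
      omega
    · exact absurd rfl h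
  · split_ifs at hd' with h1
    · have h2 : coeff (ind T₀) (symb (X * M * Z) (fun k => X * B k * Z)).det ≠ 0 := by
        rw [det_symb_equiv, coeff_C_mul]
        exact mul_ne_zero (mul_ne_zero hX hZ) hc0
      have h3 := coeff_nonneg2 (X * M * Z) (fun k => X * B k * Z) (fun _ => 1) ρ σ f0 fk _ h2
      rw [wt_ind, Finset.sum_const, nsmul_eq_mul, mul_one] at h1 h3
      have h4 : (S₀.card : ℤ) ≤ T₀.card := by linarith
      exact_mod_cast h4
    · exact absurd rfl hd'

end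

end Pool.Agent.Lib.MP_64d474_lc
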