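import Mathlib
import Pool.Agent.Lib.MP_64d474_lc.HnPot

/-!
Points at which a block triangular system is nonsingular.
-/

open Matrix Module MvPolynomial

set_option linter.unusedSectionVars false

namespace Pool.Agent.Lib.MP_64d474_lc

section

variable {F : Type*} [Field F] {ι K : Type*} [Fintype ι] [DecidableEq ι] [Fintype K]
  [DecidableEq K] {m : ℕ}

theorem symb_apply_eval (B₀ : Matrix ι ι F) (C : K → Matrix ι ι F) (v : K → F) (i j : ι) :
    eval v (symb B₀ C i j) = (B₀ + ∑ k, v k • C k) i j := by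
  rw [symb, Matrix.add_apply, Matrix.sum_apply, map_add, map_sum, Matrix.add_apply,
    Matrix.sum_apply]
  simp

/-- blocks that are nonsingular somewhere are nonsingular simultaneously -/
theorem exists_block_point [Infinite F] {Λ : Type*} [LinearOrder Λ]
    (B₀ : Matrix ι ι F) (C : K → Matrix ι ι F) (lab : ι → Λ) (h0 : B₀.BlockTriangular lab)
    (hC : ∀ k, (C k).BlockTriangular lab)
    (h : ∀ c, ∃ v : K → F, ((B₀ + ∑ k, v k • C k).toSquareBlock lab c).det ≠ 0) :
    ∃ v : K → F, (B₀ + ∑ k, v k • C k).det ≠ 0 := by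
  classical
  have hb : (symb B₀ C).BlockTriangular lab := by
    intro i j hij
    rw [symb, Matrix.add_apply, Matrix.sum_apply, Matrix.map_apply, h0 hij, map_zero, zero_add]
    refine Finset.sum_eq_zero fun k _ => ?_
    rw [Matrix.smul_apply, Matrix.map_apply, hC k hij, map_zero, smul_zero]
  have hne : (symb B₀ C).det ≠ 0 := by
    rw [hb.det, Finset.prod_ne_zero_iff]
    intro c _ h1
    obtain ⟨v, hv⟩ := h c
    apply hv
    have h2 := congrArg (eval v) h1
    rw [map_zero, RingHom.map_det] at h2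
    rw [← h2]
    congr 1
    refine Matrix.ext fun i j => ?_
    rw [RingHom.mapMatrix_apply, Matrix.map_apply]
    show (B₀ + ∑ k, v k • C k) i.1 j.1 = eval v (symb B₀ C i.1 j.1)
    rw [symb_apply_eval]
  by_contra hcon
  push Not at hcon
  apply hne
  apply MvPolynomial.funext
  intro v
  rw [eval_symb_det, hcon v, map_zero]

theorem LL_expand (p q : K → ι → F) (Y : (Fin m → F) →ₗ[F] (K → F)) (v : Fin m → F) :
    ∑ k, v k • LL p q (Y (Pi.single k 1)) = LL p q (Y v) := by
  have e0 : v = ∑ k, v k • (Pi.single k 1 : Fin m → F) := by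
    funext j
    rw [Finset.sum_apply, Finset.sum_eq_single j]
    · rw [Pi.smul_apply, Pi.single_eq_same, smul_eq_mul, mul_one]
    · intro k _ hkj
      rw [Pi.smul_apply, Pi.single_eq_of_ne hkj.symm, smul_zero]
    · intro h
      exact absurd (Finset.mem_univ j) h
  conv_rhs => rw [e0]
  rw [map_sum, LL]
  simp only [LL, map_smul, Finset.sum_apply, Pi.smul_apply, smul_eq_mul, Finset.sum_smul,
    Finset.smul_sum, smul_smul]
  exact Finset.sum_comm

theorem LL_lab {p q : K → ι → F} {β β' : ι → ℤ} {lab : K → ℤ}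
    (hp : ∀ k i, p k i ≠ 0 → β i = lab k) (hq : ∀ k j, q k j ≠ 0 → β' j = lab k) (y : K → F)
    (i j : ι) (h : LL p q y i j ≠ 0) : β i = β' j := by
  rw [LL_apply] at h
  obtain ⟨k, _, hk⟩ := Finset.exists_ne_zero_of_sum_ne_zero h
  rw [hp k i (left_ne_zero_of_mul (right_ne_zero_of_mul hk)),
    hq k j (right_ne_zero_of_mul (right_ne_zero_of_mul hk))]

/-- The contracted system is nonsingular somewhere. -/
theorem exists_contract_point [Infinite F] {M : Matrix ι ι F} {p q : K → ι → F} {S₀ : Finset K}
    {ρ σ : ι → ℤ} {mk : K → ℤ} {β β' : ι → ℤ} {lab : K → ℤ}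
    (h : Graded2 M p q ρ σ mk β β' lab) (hg : Good M p q S₀) (J : Finset K) (hJ : J ⊆ S₀)
    (Y : (Fin m → F) →ₗ[F] (K → F))
    (hY : ∀ (c : ℤ) (η : K → F), ∃ v, ∀ k, lab k = c → Y v k = η k) :
    ∃ v, (LL (cp M p q S₀ J) (cq M p q S₀ J) (Y v)).det ≠ 0 := by
  classical
  have hlab : ∀ y : K → F, ∀ i j, LL (cp M p q S₀ J) (cq M p q S₀ J) y i j ≠ 0 →
      lab i.1 = lab j.1 := fun y i j hne =>
    LL_lab (β := fun i : {k // k ∈ J} => lab i.1) (β' := fun i : {k // k ∈ J} => lab i.1)
      (fun k i h' => h.cp_lab hg J k i h') (fun k i h' => h.cq_lab hg J k i h') y i j hne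
  have hbl : ∀ y : K → F, (LL (cp M p q S₀ J) (cq M p q S₀ J) y).BlockTriangular
      (fun i : {k // k ∈ J} => lab i.1) := by
    intro y i j hij
    by_contra hne
    exact absurd (hlab y i j hne) (ne_of_gt hij)
  obtain ⟨v, hv⟩ := exists_block_point (0 : Matrix {k // k ∈ J} {k // k ∈ J} F)
    (fun k : Fin m => LL (cp M p q S₀ J) (cq M p q S₀ J) (Y (Pi.single k 1)))
    (fun i : {k // k ∈ J} => lab i.1) (fun _ _ _ => rfl) (fun k => hbl _) (by
      intro c
      obtain ⟨v, hv⟩ := hY c fun k => if k ∈ J then 1 else 0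
      refine ⟨v, ?_⟩
      rw [zero_add, LL_expand]
      have h1 : (LL (cp M p q S₀ J) (cq M p q S₀ J) (Y v)).toSquareBlock
          (fun i : {k // k ∈ J} => lab i.1) c = 1 := by
        refine Matrix.ext fun i j => ?_
        have hi : lab i.1.1 = c := i.2
        have h2 : (LL (cp M p q S₀ J) (cq M p q S₀ J) (Y v)).toSquareBlock
            (fun i : {k // k ∈ J} => lab i.1) c i j =
            LL (cp M p q S₀ J) (cq M p q S₀ J) (Y v) i.1 j.1 := rfl
        rw [h2, LL_apply, Finset.sum_eq_single i.1.1]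
        · rw [hv _ hi, if_pos i.1.2, cp_of_mem hg J (hJ i.1.2), cq_of_mem hg J (hJ i.1.2),
            if_pos rfl, one_mul, one_mul, Matrix.one_apply]
          by_cases hij : i = j
          · rw [if_pos hij, if_pos (by rw [hij])]
          · rw [if_neg hij, if_neg]
            intro e
            exact hij (Subtype.ext (Subtype.ext e))
        · intro k _ hk
          by_cases hp : cp M p q S₀ J k i.1 = 0
          · rw [hp, zero_mul, mul_zero]
          · have h3 := h.cp_lab hg J k i.1 hp
            rw [hv k (by rw [← h3, hi])]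
            by_cases hkJ : k ∈ J
            · exfalso
              apply hp
              rw [cp_of_mem hg J (hJ hkJ), if_neg]
              exact fun e => hk e.symm
            · rw [if_neg hkJ, zero_mul]
        · intro h'
          exact absurd (Finset.mem_univ _) h'
      rw [h1, Matrix.det_one]
      exact one_ne_zero)
  rw [zero_add, LL_expand] at hv
  exact ⟨v, hv⟩

end

end Pool.Agent.Lib.MP_64d474_lc
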