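import Mathlib
import Pool.Agent.Lib.MP_64d474_lc.HnBlock

/-!
Phases that reduce the order of the system, and their iteration.
-/

open Matrix Module MvPolynomial

set_option linter.unusedSectionVars false

namespace Pool.Agent.Lib.MP_64d474_lc

section

variable {F : Type*} [Field F] {ι K : Type*} [Fintype ι] [DecidableEq ι] [Fintype K]
  [DecidableEq K] {m : ℕ}

theorem good_card {M : Matrix ι ι F} {p q : K → ι → F} {T : Finset K} (h : Good M p q T) :
    T.card ≤ Fintype.card ι := by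
  classical
  have hli : LinearIndependent F (fun k : T => p k.1) := by
    rw [Fintype.linearIndependent_iff]
    intro g hg k
    have h1 := (h 0 (fun k => if hk : k ∈ T then g ⟨k, hk⟩ else 0) (fun k hk => dif_neg hk)
      (fun k _ => dotProduct_zero _) (by
        rw [Matrix.mulVec_zero, zero_add, ← Finset.sum_subset (Finset.subset_univ T),
          ← Finset.sum_coe_sort T, ← hg]
        · refine Finset.sum_congr rfl fun k _ => ?_
          rw [dif_pos k.2]
        · intro k _ hk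
          rw [dif_neg hk, zero_smul])).2
    have h2 := congrFun h1 k.1
    simp only [dif_pos k.2] at h2
    exact h2
  have h1 := hli.fintype_card_le_finrank
  rw [finrank_fintype_fun_eq_card, Fintype.card_coe] at h1
  exact h1

theorem LL_equiv (p q : K → ι → F) (X Z : Matrix ι ι F) (y : K → F) :
    LL (fun k => X *ᵥ p k) (fun k => Zᵀ *ᵥ q k) y = X * LL p q y * Z := by
  rw [LL, LL, Matrix.mul_sum, Matrix.sum_mul]
  refine Finset.sum_congr rfl fun k _ => ?_
  rw [Matrix.mul_smul, Matrix.smul_mul, mul_vmv]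

theorem LL_smul (p q : K → ι → F) (y : K → F) (s : F) : LL p q (s • y) = s • LL p q y := by
  rw [LL, LL, Finset.smul_sum]
  refine Finset.sum_congr rfl fun k _ => ?_
  rw [Pi.smul_apply, smul_eq_mul, mul_smul]

theorem LL_add (p q : K → ι → F) (y y' : K → F) : LL p q (y + y') = LL p q y + LL p q y' := by
  have := LL_add_smul p q y y' 1
  rwa [one_smul, one_smul] at this

theorem LL_zero (p q : K → ι → F) : LL p q 0 = 0 := by
  rw [LL]
  refine Finset.sum_eq_zero fun k _ => ?_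
  rw [Pi.zero_apply, zero_smul]

/-- from the leading system back to the original one -/
theorem good_of_lead_equiv [Infinite F] (M : Matrix ι ι F) (p q : K → ι → F) (X Z : Matrix ι ι F)
    (hX : X.det ≠ 0) (hZ : Z.det ≠ 0) (ρ σ : ι → ℤ)
    (mk : K → ℤ) (hM : ∀ i j, (X * M * Z) i j ≠ 0 → 0 ≤ 0 + ρ i + σ j)
    (hp : ∀ k i, (X *ᵥ p k) i ≠ 0 → mk k ≤ ρ i)
    (hq : ∀ k j, (Zᵀ *ᵥ q k) j ≠ 0 → 0 ≤ 1 + mk k + σ j)
    (y : K → F) (T : Finset K) (t : F)
    (hT : Good (lead2 0 ρ σ (X * M * Z) + t • LL (leadp ρ mk (fun k => X *ᵥ p k))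
      (leadq σ mk (fun k => Zᵀ *ᵥ q k)) y) (leadp ρ mk (fun k => X *ᵥ p k))
      (leadq σ mk (fun k => Zᵀ *ᵥ q k)) T) :
    ∃ s : F, Good (M + LL p q (s • y)) p q T := by
  obtain ⟨s, hs⟩ := good_of_lead (X * M * Z) (fun k => X *ᵥ p k) (fun k => Zᵀ *ᵥ q k) ρ σ mk hM hp
    hq y T t hT
  refine ⟨s, ?_⟩
  rw [← good_equiv (M + LL p q (s • y)) p q X Z hX hZ, LL_smul, Matrix.mul_add, Matrix.add_mul,
    Matrix.mul_smul, Matrix.smul_mul, ← LL_equiv]
  exact hs

end

/-- One phase. -/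
theorem phase_step {F : Type*} [Field F] [CharZero F] {ι K : Type} [Fintype ι] [DecidableEq ι]
    [Fintype K] [DecidableEq K] {m : ℕ} (S : Set (Fin m → F)) (κ J n : ℕ)
    (hS : ∀ (E : Type) [Fintype E] [DecidableEq E], Fintype.card E ≤ n → NcApprox E S κ)
    (hJ : ∀ c : ℕ, 1 ≤ c → c ≤ n →
      κ * (2 * (c : ℝ) * Real.log (2 * c)) < J * ((c : ℝ) - (c / 2 : ℕ)))
    (M : Matrix ι ι F) (p q : K → ι → F) (β β' : ι → ℤ) (lab : K → ℤ)
    (lM : ∀ i j, M i j ≠ 0 → β i = β' j) (lp : ∀ k i, p k i ≠ 0 → β i = lab k)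
    (lq : ∀ k j, q k j ≠ 0 → β' j = lab k) (hp0 : ∀ k, p k ≠ 0)
    (Y : (Fin m → F) →ₗ[F] (K → F))
    (hY : ∀ (c : ℤ) (η : K → F), ∃ v, ∀ k, lab k = c → Y v k = η k)
    (hn : Fintype.card ι ≤ n) (T₀ : Finset K) (hT₀ : Good M p q T₀) :
    ∃ v : Fin J → Fin m → F, (∀ i, v i ∈ S) ∧ ∃ x ∈ Submodule.span F (Set.range v),
      ∃ T, Good (M + LL p q (Y x)) p q T ∧ 8 * T.card ≤ 7 * T₀.card := by
  classical
  obtain ⟨X, Z, ρ, σ, mk, S₀, hX, hZ, fM, fp, fq, hgood, hgr, hcard⟩ :=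
    exists_graded M p q β β' lab lM lp lq hp0 T₀ hT₀
  set M₁ := lead2 0 ρ σ (X * M * Z) with hM₁
  set p₁ := leadp ρ mk (fun k => X *ᵥ p k) with hp₁
  set q₁ := leadq σ mk (fun k => Zᵀ *ᵥ q k) with hq₁
  rcases Finset.eq_empty_or_nonempty S₀ with he | hne
  · subst he
    obtain ⟨a, ha, -⟩ := hS (Fin 0) (by rw [Fintype.card_fin]; exact Nat.zero_le _) 0
    refine ⟨fun _ => a, fun _ => ha, 0, Submodule.zero_mem _, ∅, ?_, ?_⟩
    · obtain ⟨s, hs⟩ := good_of_lead_equiv M p q X Z hX hZ ρ σ mk fM fp fq 0 ∅ 0 (by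
        rw [zero_smul, add_zero]
        exact hgood)
      rw [map_zero]
      rw [smul_zero] at hs
      exact hs
    · rw [Finset.card_empty]
      exact Nat.zero_le _
  · -- the parity class
    obtain ⟨ε, hε⟩ : ∃ ε : ℤ, S₀.card ≤ 2 * (S₀.filter fun k => mk k % 2 = ε).card := by
      by_contra hcon
      push Not at hcon
      have h0 := hcon 0
      have h1 := hcon 1
      have h2 := Finset.card_filter_add_card_filter_not (s := S₀) (fun k => mk k % 2 = 0)
      have h3 : (S₀.filter fun k => ¬ mk k % 2 = 0) = S₀.filter fun k => mk k % 2 = 1 := by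
        refine Finset.filter_congr fun k _ => ?_
        omega
      rw [h3] at h2
      omega
    set J₀ := S₀.filter fun k => mk k % 2 = ε with hJ₀
    have hJS : J₀ ⊆ S₀ := Finset.filter_subset _ _
    have hc1 : 1 ≤ J₀.card := by
      have := hne.card_pos
      omega
    have hcn : J₀.card ≤ n :=
      (Finset.card_le_card hJS).trans (hcard.trans ((good_card hT₀).trans hn))
    obtain ⟨v₀, hv₀⟩ := exists_contract_point hgr hgood J₀ hJS Y hY
    have hEcard : Fintype.card {k // k ∈ J₀} = J₀.card := Fintype.card_coe J₀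
    obtain ⟨v, hv, x, hx, T, hT, hTc⟩ := exists_small_order (ι := {k // k ∈ J₀}) S κ (J₀.card / 2) J
      (hS {k // k ∈ J₀} (by rw [hEcard]; exact hcn)) (cp M₁ p₁ q₁ S₀ J₀) (cq M₁ p₁ q₁ S₀ J₀) Y v₀
      hv₀ (by
        rw [hEcard]
        exact hJ _ hc1 hcn)
    obtain ⟨t, ht⟩ := good_perturb M₁ p₁ q₁ S₀ J₀ hgood hJS (by
      intro j hj k hk
      have h1 := hgr.right_eq hgood ε j (hJS hj) (Finset.mem_filter.mp hj).2 k hk
      exact ⟨h1.1, fun h => h1.2 (Finset.mem_filter.mp h).2⟩) (Y x) T hT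
    obtain ⟨s, hs⟩ := good_of_lead_equiv M p q X Z hX hZ ρ σ mk fM fp fq _ _ t ht
    refine ⟨v, hv, s • x, Submodule.smul_mem _ _ hx, (S₀ \ J₀) ∪ T, ?_, ?_⟩
    · rw [map_smul]
      exact hs
    · rw [hEcard] at hTc
      have h1 : ((S₀ \ J₀) ∪ T).card ≤ (S₀ \ J₀).card + T.card := Finset.card_union_le _ _
      have h2 : (S₀ \ J₀).card + J₀.card = S₀.card := Finset.card_sdiff_add_card_eq_card hJS
      omega

/-- The iteration of the phases. -/
theorem phase_loop {F : Type*} [Field F] [CharZero F] {ι K : Type} [Fintype ι] [DecidableEq ι]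
    [Fintype K] [DecidableEq K] {m : ℕ} (S : Set (Fin m → F)) (κ J n : ℕ)
    (hS : ∀ (E : Type) [Fintype E] [DecidableEq E], Fintype.card E ≤ n → NcApprox E S κ)
    (hJ : ∀ c : ℕ, 1 ≤ c → c ≤ n →
      κ * (2 * (c : ℝ) * Real.log (2 * c)) < J * ((c : ℝ) - (c / 2 : ℕ)))
    (M : Matrix ι ι F) (p q : K → ι → F) (β β' : ι → ℤ) (lab : K → ℤ)
    (lM : ∀ i j, M i j ≠ 0 → β i = β' j) (lp : ∀ k i, p k i ≠ 0 → β i = lab k)
    (lq : ∀ k j, q k j ≠ 0 → β' j = lab k) (hp0 : ∀ k, p k ≠ 0)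
    (Y : (Fin m → F) →ₗ[F] (K → F))
    (hY : ∀ (c : ℤ) (η : K → F), ∃ v, ∀ k, lab k = c → Y v k = η k)
    (hn : Fintype.card ι ≤ n) (T₀ : Finset K) (hT₀ : Good M p q T₀) (L : ℕ) :
    ∃ v : Fin (L * J) → Fin m → F, (∀ i, v i ∈ S) ∧ ∃ x ∈ Submodule.span F (Set.range v),
      ∃ T, Good (M + LL p q (Y x)) p q T ∧ 8 ^ L * T.card ≤ 7 ^ L * T₀.card := by
  classical
  induction L with
  | zero =>
    refine ⟨fun i => (Fin.cast (Nat.zero_mul J) i).elim0,
      fun i => (Fin.cast (Nat.zero_mul J) i).elim0, 0, Submodule.zero_mem _, T₀, ?_, ?_⟩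
    · rw [map_zero, LL_zero, add_zero]
      exact hT₀
    · rw [pow_zero, pow_zero]
  | succ L ih =>
    obtain ⟨v, hv, x, hx, T, hT, hTc⟩ := ih
    obtain ⟨v', hv', x', hx', T', hT', hTc'⟩ := phase_step S κ J n hS hJ (M + LL p q (Y x)) p q β β'
      lab (by
        intro i j h
        by_cases h1 : M i j = 0
        · have h2 : LL p q (Y x) i j ≠ 0 := by
            intro h3
            apply h
            rw [Matrix.add_apply, h1, h3, add_zero]
          exact LL_lab lp lq (Y x) i j h2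
        · exact lM i j h1) lp lq hp0 Y hY hn T hT
    have hlen : (L + 1) * J = L * J + J := Nat.succ_mul L J
    refine ⟨fun i => Fin.append v v' (Fin.cast hlen i), ?_, x + x', ?_, T', ?_, ?_⟩
    · have happ : ∀ i, Fin.append v v' i ∈ S := by
        intro i
        refine Fin.addCases (motive := fun i => Fin.append v v' i ∈ S) (fun j => ?_)
          (fun j => ?_) i
        · rw [Fin.append_left]
          exact hv j
        · rw [Fin.append_right]
          exact hv' j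
      exact fun i => happ _
    · refine Submodule.add_mem _ ?_ ?_
      · refine Submodule.span_mono ?_ hx
        rintro _ ⟨i, rfl⟩
        refine ⟨Fin.cast hlen.symm (Fin.castAdd J i), ?_⟩
        show Fin.append v v' (Fin.cast hlen (Fin.cast hlen.symm (Fin.castAdd J i))) = v i
        rw [Fin.cast_cast, Fin.cast_eq_self, Fin.append_left]
      · refine Submodule.span_mono ?_ hx'
        rintro _ ⟨i, rfl⟩
        refine ⟨Fin.cast hlen.symm (Fin.natAdd (L * J) i), ?_⟩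
        show Fin.append v v' (Fin.cast hlen (Fin.cast hlen.symm (Fin.natAdd (L * J) i))) = v' i
        rw [Fin.cast_cast, Fin.cast_eq_self, Fin.append_right]
    · rw [map_add, LL_add, ← add_assoc]
      exact hT'
    · calc 8 ^ (L + 1) * T'.card = 8 ^ L * (8 * T'.card) := by ring
        _ ≤ 8 ^ L * (7 * T.card) := Nat.mul_le_mul_left _ hTc'
        _ = 7 * (8 ^ L * T.card) := by ring
        _ ≤ 7 * (7 ^ L * T₀.card) := Nat.mul_le_mul_left _ hTc
        _ = 7 ^ (L + 1) * T₀.card := by ring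

/-- After enough phases the matrix is nonsingular. -/
theorem phase_final {F : Type*} [Field F] [CharZero F] {ι K : Type} [Fintype ι] [DecidableEq ι]
    [Fintype K] [DecidableEq K] {m : ℕ} (S : Set (Fin m → F)) (κ J L n : ℕ)
    (hS : ∀ (E : Type) [Fintype E] [DecidableEq E], Fintype.card E ≤ n → NcApprox E S κ)
    (hJ : ∀ c : ℕ, 1 ≤ c → c ≤ n →
      κ * (2 * (c : ℝ) * Real.log (2 * c)) < J * ((c : ℝ) - (c / 2 : ℕ)))
    (hL : 7 ^ L * n < 8 ^ L)
    (M : Matrix ι ι F) (p q : K → ι → F) (β β' : ι → ℤ) (lab : K → ℤ)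
    (lM : ∀ i j, M i j ≠ 0 → β i = β' j) (lp : ∀ k i, p k i ≠ 0 → β i = lab k)
    (lq : ∀ k j, q k j ≠ 0 → β' j = lab k) (hp0 : ∀ k, p k ≠ 0)
    (Y : (Fin m → F) →ₗ[F] (K → F))
    (hY : ∀ (c : ℤ) (η : K → F), ∃ v, ∀ k, lab k = c → Y v k = η k)
    (hn : Fintype.card ι ≤ n) (y₀ : K → F) (hy₀ : (M + LL p q y₀).det ≠ 0) :
    ∃ v : Fin (L * J) → Fin m → F, (∀ i, v i ∈ S) ∧ ∃ x ∈ Submodule.span F (Set.range v),
      (M + LL p q (Y x)).det ≠ 0 := by
  classical
  have hdet : (symb M (fun k => vecMulVec (p k) (q k))).det ≠ 0 := by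
    intro h
    have h1 := eval_symb_det M (fun k => vecMulVec (p k) (q k)) y₀
    rw [h, map_zero] at h1
    exact hy₀ h1.symm
  obtain ⟨d, hd⟩ := MvPolynomial.exists_coeff_ne_zero hdet
  obtain ⟨T₀, hT₀, -⟩ := exists_good M p q d hd
  obtain ⟨v, hv, x, hx, T, hT, hTc⟩ := phase_loop S κ J n hS hJ M p q β β' lab lM lp lq hp0 Y hY hn
    T₀ hT₀ L
  refine ⟨v, hv, x, hx, ?_⟩
  have hT0 : T = ∅ := by
    by_contra hne
    have h1 : 1 ≤ T.card := (Finset.nonempty_iff_ne_empty.mpr hne).card_pos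
    have h2 : T₀.card ≤ n := (good_card hT₀).trans hn
    have h3 : 8 ^ L * 1 ≤ 7 ^ L * n :=
      (Nat.mul_le_mul_left _ h1).trans (hTc.trans (Nat.mul_le_mul_left _ h2))
    omega
  rw [hT0] at hT
  exact (good_empty _ p q).mp hT

end Pool.Agent.Lib.MP_64d474_lc
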