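import Mathlib
import Pool.Agent.Lib.MP_64d474_lc.ZnGrow

/-!
Polarisation: if a set `S` of points approximates the rank of every linear family up to the factor
`κ`, then for every multilinear map `L` and point `y` there are `a₁, …, a_d ∈ S` and a partial sum
`a` of them such that the rank of `L (y, …, y)` is at most `(2 κ) ^ d` times that of `L (a, …, a)`.
-/

open Module

namespace Pool.Agent.Lib.MP_64d474_lc

variable {F V E : Type*} [Field F] [AddCommGroup V] [Module F V] [FiniteDimensional F V]
  [AddCommGroup E] [Module F E]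

theorem rk_add_le (f g : Module.End F V) : rk (f + g) ≤ rk f + rk g := by
  have h : LinearMap.range (f + g) ≤ LinearMap.range f ⊔ LinearMap.range g := by
    rintro _ ⟨v, rfl⟩
    exact Submodule.add_mem_sup ⟨v, rfl⟩ ⟨v, rfl⟩
  exact (Submodule.finrank_mono h).trans (Submodule.finrank_add_le_finrank_add_finrank _ _)

omit [FiniteDimensional F V] in
theorem rk_zero : rk (0 : Module.End F V) = 0 := by
  rw [rk, LinearMap.range_zero, finrank_bot]

theorem rk_sum_le {α : Type*} (s : Finset α) (f : α → Module.End F V) :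
    rk (∑ i ∈ s, f i) ≤ ∑ i ∈ s, rk (f i) := by
  classical
  induction s using Finset.induction_on with
  | empty => rw [Finset.sum_empty, Finset.sum_empty, rk_zero]
  | insert a s ha ih =>
    rw [Finset.sum_insert ha, Finset.sum_insert ha]
    exact (rk_add_le _ _).trans (Nat.add_le_add_left ih _)

theorem rk_smul_le (c : F) (f : Module.End F V) : rk (c • f) ≤ rk f := by
  refine Submodule.finrank_mono ?_
  rintro _ ⟨v, rfl⟩
  exact ⟨c • v, by rw [map_smul, LinearMap.smul_apply]⟩

theorem rk_smul (c : F) (hc : c ≠ 0) (f : Module.End F V) : rk (c • f) = rk f := by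
  apply le_antisymm (rk_smul_le c f)
  have h := rk_smul_le c⁻¹ (c • f)
  rwa [smul_smul, inv_mul_cancel₀ hc, one_smul] at h

/-- `S` approximates the rank of linear families of endomorphisms of `V` up to the factor `κ` -/
def RankApprox (V : Type*) [AddCommGroup V] [Module F V] (S : Set E) (κ : ℕ) : Prop :=
  ∀ (C : E →ₗ[F] Module.End F V) (y : E), ∃ a ∈ S, rk (C y) ≤ κ * rk (C a)

omit [FiniteDimensional F V] in
theorem RankApprox.replace {S : Set E} {κ : ℕ} (h : RankApprox (F := F) V S κ) {d : ℕ}
    (M : MultilinearMap F (fun _ : Fin d => E) (Module.End F V)) (v : Fin d → E)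
    (s : Finset (Fin d)) : ∃ v' : Fin d → E, (∀ j ∈ s, v' j ∈ S) ∧ (∀ j, j ∉ s → v' j = v j) ∧
      rk (M v) ≤ κ ^ s.card * rk (M v') := by
  classical
  induction s using Finset.induction_on with
  | empty => exact ⟨v, fun j hj => absurd hj (Finset.notMem_empty j), fun _ _ => rfl, by simp⟩
  | insert j s hj ih =>
    obtain ⟨v', h1, h2, h3⟩ := ih
    obtain ⟨a, haS, ha⟩ := h (M.toLinearMap v' j) (v' j)
    rw [MultilinearMap.toLinearMap_apply, MultilinearMap.toLinearMap_apply,
      Function.update_eq_self] at ha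
    refine ⟨Function.update v' j a, ?_, ?_, ?_⟩
    · intro k hk
      by_cases hkj : k = j
      · subst hkj
        rw [Function.update_self]
        exact haS
      · rw [Function.update_of_ne hkj]
        exact h1 k (Finset.mem_of_mem_insert_of_ne hk hkj)
    · intro k hk
      rw [Finset.mem_insert, not_or] at hk
      rw [Function.update_of_ne hk.1]
      exact h2 k hk.2
    · rw [Finset.card_insert_of_notMem hj, pow_succ, mul_assoc]
      exact h3.trans (Nat.mul_le_mul_left _ ha)

/-- the symmetrisation of a multilinear map -/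
noncomputable def symL {N : Type*} [AddCommGroup N] [Module F N] {d : ℕ}
    (L : MultilinearMap F (fun _ : Fin d => E) N) : MultilinearMap F (fun _ : Fin d => E) N :=
  ∑ σ : Equiv.Perm (Fin d), L.domDomCongr σ

theorem symL_apply {N : Type*} [AddCommGroup N] [Module F N] {d : ℕ}
    (L : MultilinearMap F (fun _ : Fin d => E) N) (v : Fin d → E) :
    symL L v = ∑ σ : Equiv.Perm (Fin d), L fun i => v (σ i) := by
  rw [symL, sum_apply]
  rfl

/-- the polarisation identity -/
theorem polarisation {N : Type*} [AddCommGroup N] [Module F N] {d : ℕ}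
    (L : MultilinearMap F (fun _ : Fin d => E) N) (v : Fin d → E) :
    symL L v = ∑ T : Finset (Fin d), ((-1 : ℤ) ^ T.card) • L fun _ => ∑ j ∈ Tᶜ, v j := by
  classical
  have h1 : ∀ T : Finset (Fin d), L (fun _ => ∑ j ∈ Tᶜ, v j) =
      ∑ f : Fin d → Fin d, if T ⊆ (Finset.univ.image f)ᶜ then L (fun i => v (f i)) else 0 := by
    intro T
    rw [MultilinearMap.map_sum_finset L (fun _ j => v j) (fun _ => Tᶜ), ← Finset.sum_filter]
    refine Finset.sum_congr ?_ fun _ _ => rfl
    ext f
    simp only [Fintype.mem_piFinset, Finset.mem_compl, Finset.mem_filter, Finset.mem_univ,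
      true_and, Finset.subset_iff, Finset.mem_image, not_exists]
    constructor
    · intro hf x hx i hi
      exact hf i (hi ▸ hx)
    · intro hf i hi
      exact hf hi i rfl
  simp_rw [h1, Finset.smul_sum]
  rw [Finset.sum_comm]
  have h2 : ∀ f : Fin d → Fin d, (∑ T : Finset (Fin d), ((-1 : ℤ) ^ T.card) •
      (if T ⊆ (Finset.univ.image f)ᶜ then L (fun i => v (f i)) else 0)) =
      if Function.Bijective f then L (fun i => v (f i)) else 0 := by
    intro f
    have h3 : (∑ T : Finset (Fin d), ((-1 : ℤ) ^ T.card) •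
        (if T ⊆ (Finset.univ.image f)ᶜ then L (fun i => v (f i)) else 0)) =
        (∑ T ∈ (Finset.univ.image f)ᶜ.powerset, (-1 : ℤ) ^ T.card) • L (fun i => v (f i)) := by
      rw [Finset.sum_smul]
      have h4 : (Finset.univ.image f)ᶜ.powerset =
          Finset.univ.filter fun T => T ⊆ (Finset.univ.image f)ᶜ := by
        ext T
        simp
      rw [h4, Finset.sum_filter]
      refine Finset.sum_congr rfl fun T _ => ?_
      split_ifs
      · rfl
      · rw [smul_zero]
    rw [h3, Finset.sum_powerset_neg_one_pow_card]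
    by_cases hf : Function.Bijective f
    · rw [if_pos hf, if_pos, one_smul]
      rw [Finset.compl_eq_empty_iff]
      exact Finset.image_univ_of_surjective hf.2
    · rw [if_neg hf, if_neg, zero_smul]
      intro h0
      apply hf
      rw [Finset.compl_eq_empty_iff] at h0
      refine (Fintype.bijective_iff_surjective_and_card f).mpr ⟨fun y => ?_, rfl⟩
      have hy : y ∈ Finset.univ.image f := by
        rw [h0]
        exact Finset.mem_univ y
      obtain ⟨x, -, hx⟩ := Finset.mem_image.mp hy
      exact ⟨x, hx⟩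
  rw [Finset.sum_congr rfl fun f _ => h2 f, ← Finset.sum_filter, symL_apply]
  refine (Finset.sum_bij (fun f h => Equiv.ofBijective f (Finset.mem_filter.mp h).2) ?_ ?_ ?_ ?_).symm
  · intro f _
    exact Finset.mem_univ _
  · intro f hf g hg hfg
    have := congrArg (fun e : Equiv.Perm (Fin d) => (e : Fin d → Fin d)) hfg
    simpa using this
  · intro σ _
    refine ⟨σ, Finset.mem_filter.mpr ⟨Finset.mem_univ _, σ.bijective⟩, ?_⟩
    ext i
    rfl
  · intro f _
    rfl

/-- approximation of the value of a multilinear map on the diagonal -/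
theorem RankApprox.diag [CharZero F] {S : Set E} {κ : ℕ} (h : RankApprox (F := F) V S κ) {d : ℕ}
    (L : MultilinearMap F (fun _ : Fin d => E) (Module.End F V)) (y : E) :
    ∃ a : Fin d → E, (∀ j, a j ∈ S) ∧ ∃ T : Finset (Fin d),
      rk (L fun _ => y) ≤ (2 * κ) ^ d * rk (L fun _ => ∑ j ∈ T, a j) := by
  classical
  obtain ⟨a, ha, -, h1⟩ := h.replace (symL L) (fun _ => y) Finset.univ
  refine ⟨a, fun j => ha j (Finset.mem_univ j), ?_⟩
  have h2 : rk (symL L fun _ => y) = rk (L fun _ => y) := by
    rw [symL_apply, Finset.sum_const, Finset.card_univ, Fintype.card_perm, Fintype.card_fin,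
      ← Nat.cast_smul_eq_nsmul F]
    exact rk_smul _ (Nat.cast_ne_zero.mpr (Nat.factorial_ne_zero d)) _
  rw [h2, Finset.card_univ, Fintype.card_fin] at h1
  obtain ⟨T, -, hT⟩ := Finset.exists_max_image (Finset.univ : Finset (Finset (Fin d)))
    (fun T => rk (L fun _ => ∑ j ∈ Tᶜ, a j)) ⟨∅, Finset.mem_univ _⟩
  refine ⟨Tᶜ, ?_⟩
  have h3 : rk (symL L a) ≤ 2 ^ d * rk (L fun _ => ∑ j ∈ Tᶜ, a j) := by
    rw [polarisation]
    refine (rk_sum_le _ _).trans ?_
    calc ∑ T' : Finset (Fin d), rk (((-1 : ℤ) ^ T'.card) • L fun _ => ∑ j ∈ T'ᶜ, a j)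
        ≤ ∑ _T' : Finset (Fin d), rk (L fun _ => ∑ j ∈ Tᶜ, a j) := by
          refine Finset.sum_le_sum fun T' _ => ?_
          rw [← Int.cast_smul_eq_zsmul F]
          exact (rk_smul_le _ _).trans (hT T' (Finset.mem_univ _))
      _ = 2 ^ d * rk (L fun _ => ∑ j ∈ Tᶜ, a j) := by
          rw [Finset.sum_const, Finset.card_univ, Fintype.card_finset, Fintype.card_fin,
            smul_eq_mul]
  calc rk (L fun _ => y) ≤ κ ^ d * rk (symL L a) := h1
    _ ≤ κ ^ d * (2 ^ d * rk (L fun _ => ∑ j ∈ Tᶜ, a j)) := Nat.mul_le_mul_left _ h3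
    _ = (2 * κ) ^ d * rk (L fun _ => ∑ j ∈ Tᶜ, a j) := by rw [mul_pow]; ring

/-- the multilinear map `(y₀, …, y_i) ↦ Q (B y₀) G (B y₁) ⋯ G (B y_i) P` -/
noncomputable def walkL (B : E →ₗ[F] Module.End F V) (G P Q : Module.End F V) (i : ℕ) :
    MultilinearMap F (fun _ : Fin (i + 1) => E) (Module.End F V) :=
  (LinearMap.mulLeftRight F (Q, P)).compMultilinearMap
    ((MultilinearMap.mkPiAlgebraFin F (i + 1) (Module.End F V)).compLinearMap
      (Fin.cons B fun _ : Fin i => (LinearMap.mulLeft F G).comp B))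

omit [FiniteDimensional F V] in
theorem walkL_diag (B : E →ₗ[F] Module.End F V) (G P Q : Module.End F V) (i : ℕ) (y : E) :
    walkL B G P Q i (fun _ => y) = Q * (B y * (G * B y) ^ i) * P := by
  rw [walkL, LinearMap.compMultilinearMap_apply, MultilinearMap.compLinearMap_apply,
    MultilinearMap.mkPiAlgebraFin_apply, List.ofFn_succ, List.prod_cons]
  simp only [Fin.cons_zero, Fin.cons_succ, LinearMap.comp_apply, LinearMap.mulLeft_apply,
    List.ofFn_const, List.prod_replicate, LinearMap.mulLeftRight_apply]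

theorem RankApprox.walk [CharZero F] {S : Set E} {κ : ℕ} (h : RankApprox (F := F) V S κ)
    (B : E →ₗ[F] Module.End F V) (G P Q : Module.End F V) (i : ℕ) (y : E) :
    ∃ a : Fin (i + 1) → E, (∀ j, a j ∈ S) ∧ ∃ T : Finset (Fin (i + 1)),
      rk (Q * (B y * (G * B y) ^ i) * P) ≤ (2 * κ) ^ (i + 1) *
        rk (Q * (B (∑ j ∈ T, a j) * (G * B (∑ j ∈ T, a j)) ^ i) * P) := by
  obtain ⟨a, ha, T, hT⟩ := h.diag (walkL B G P Q i) y
  rw [walkL_diag, walkL_diag] at hT
  exact ⟨a, ha, T, hT⟩

end Pool.Agent.Lib.MP_64d474_lc
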