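import Mathlib
import Pool.Agent.Lib.MP_64d474_lc.ZnGain
import Pool.Agent.Lib.MP_64d474_lc.ZnPolar
import Pool.Agent.Lib.MP_64d474_lc.RankTools

/-!
Amplification: from a set of points that approximates the rank of every linear family up to a
constant factor `κ`, the sums of `q ^ 5 * (2 * κ) ^ q` multiples of its points approximate the rank
up to the factor `1 - 1 / q`.
-/

open Module

namespace Pool.Agent.Lib.MP_64d474_lc

/-- the sums `∑ z_j a_j` of `N` terms with `a_j ∈ X` and `z_j ≤ n` -/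
def sums (n : ℕ) {m : ℕ} (X : Finset (Fin m → ℕ)) (N : ℕ) : Finset (Fin m → ℕ) :=
  (Fintype.piFinset fun _ : Fin N => X ×ˢ Finset.range (n + 1)).image
    fun f => ∑ j, (f j).2 • (f j).1

variable {n m : ℕ} {X : Finset (Fin m → ℕ)}

theorem mem_sums {N : ℕ} {h : Fin m → ℕ} : h ∈ sums n X N ↔
    ∃ (a : Fin N → Fin m → ℕ) (z : Fin N → ℕ), (∀ j, a j ∈ X) ∧ (∀ j, z j ≤ n) ∧
      h = ∑ j, z j • a j := by
  rw [sums, Finset.mem_image]
  constructor
  · rintro ⟨f, hf, rfl⟩
    rw [Fintype.mem_piFinset] at hf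
    exact ⟨fun j => (f j).1, fun j => (f j).2, fun j => (Finset.mem_product.mp (hf j)).1,
      fun j => Nat.lt_succ_iff.mp (Finset.mem_range.mp (Finset.mem_product.mp (hf j)).2), rfl⟩
  · rintro ⟨a, z, ha, hz, rfl⟩
    refine ⟨fun j => (a j, z j), ?_, rfl⟩
    rw [Fintype.mem_piFinset]
    exact fun j => Finset.mem_product.mpr ⟨ha j, Finset.mem_range.mpr (Nat.lt_succ_iff.mpr (hz j))⟩

theorem card_sums_le (N : ℕ) : (sums n X N).card ≤ (X.card * (n + 1)) ^ N := by
  refine Finset.card_image_le.trans ?_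
  rw [Fintype.card_piFinset]
  simp only [Finset.card_product, Finset.card_range, Finset.prod_const, Finset.card_univ,
    Fintype.card_fin]
  exact le_rfl

theorem sums_add {N N' : ℕ} {h h' : Fin m → ℕ} (hh : h ∈ sums n X N) (hh' : h' ∈ sums n X N') :
    h + h' ∈ sums n X (N + N') := by
  obtain ⟨a, z, ha, hz, rfl⟩ := mem_sums.mp hh
  obtain ⟨a', z', ha', hz', rfl⟩ := mem_sums.mp hh'
  refine mem_sums.mpr ⟨Fin.append a a', Fin.append z z', ?_, ?_, ?_⟩
  · intro j
    refine Fin.addCases (fun j => ?_) (fun j => ?_) j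
    · rw [Fin.append_left]
      exact ha j
    · rw [Fin.append_right]
      exact ha' j
  · intro j
    refine Fin.addCases (fun j => ?_) (fun j => ?_) j
    · rw [Fin.append_left]
      exact hz j
    · rw [Fin.append_right]
      exact hz' j
  · rw [Fin.sum_univ_add]
    simp only [Fin.append_left, Fin.append_right]

theorem sums_mul {d : ℕ} (a : Fin d → Fin m → ℕ) (ha : ∀ j, a j ∈ X) (T : Finset (Fin d)) (z : ℕ)
    (hz : z ≤ n) : z • ∑ j ∈ T, a j ∈ sums n X d := by
  classical
  refine mem_sums.mpr ⟨a, fun j => if j ∈ T then z else 0, ha, fun j => ?_, ?_⟩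
  · dsimp only
    split_ifs
    · exact hz
    · exact Nat.zero_le _
  · rw [Finset.smul_sum]
    rw [← Finset.sum_subset (Finset.subset_univ T)]
    · refine Finset.sum_congr rfl fun j hj => ?_
      dsimp only
      rw [if_pos hj]
    · intro j _ hj
      dsimp only
      rw [if_neg hj, zero_smul]

theorem zero_mem_sums (hX : X.Nonempty) (N : ℕ) : (0 : Fin m → ℕ) ∈ sums n X N := by
  obtain ⟨a, ha⟩ := hX
  refine mem_sums.mpr ⟨fun _ => a, fun _ => 0, fun _ => ha, fun _ => Nat.zero_le _, ?_⟩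
  simp

theorem sums_mono (hX : X.Nonempty) {N N' : ℕ} (h : N ≤ N') : sums n X N ⊆ sums n X N' := by
  intro x hx
  obtain ⟨d, rfl⟩ := Nat.exists_eq_add_of_le h
  have := sums_add hx (zero_mem_sums (n := n) hX d)
  rwa [add_zero] at this

/-- the vector of a natural point -/
def castV (F : Type*) [Field F] {m : ℕ} (h : Fin m → ℕ) : Fin m → F := fun k => (h k : F)

section

variable {F : Type*} [Field F]

theorem castV_add (h h' : Fin m → ℕ) : castV F (h + h') = castV F h + castV F h' := by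
  funext k
  simp [castV]

theorem castV_smul (z : ℕ) (h : Fin m → ℕ) : castV F (z • h) = (z : F) • castV F h := by
  funext k
  simp [castV]

theorem castV_sum {α : Type*} (T : Finset α) (a : α → Fin m → ℕ) :
    castV F (∑ j ∈ T, a j) = ∑ j ∈ T, castV F (a j) := by
  funext k
  simp [castV, Finset.sum_apply]

theorem rk_toLin' {ι : Type*} [Fintype ι] [DecidableEq ι] (M : Matrix ι ι F) :
    rk (Matrix.toLin' M) = M.rank := rfl

theorem rk_eq_rank {ι : Type*} [Fintype ι] [DecidableEq ι] (f : Module.End F (ι → F)) :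
    rk f = (LinearMap.toMatrix' f).rank := by
  rw [← rk_toLin', Matrix.toLin'_toMatrix']

theorem rk_le_card {ι : Type*} [Fintype ι] (f : Module.End F (ι → F)) :
    rk f ≤ Fintype.card ι := by
  rw [rk]
  refine (Submodule.finrank_le _).trans ?_
  rw [Module.finrank_pi]

/-- a pencil attains its rank at one of the numbers `0, …, n` -/
theorem exists_grid_pencil [CharZero F] (A B : Module.End F (Fin n → F)) (z : F) :
    ∃ z' : ℕ, z' ≤ n ∧ rk (A + z • B) ≤ rk (A + (z' : F) • B) := by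
  have h1 : rk (A + z • B) ≤ n := by
    have := rk_le_card (A + z • B)
    rwa [Fintype.card_fin] at this
  obtain ⟨c, hc, h2⟩ := exists_grid_point (κ := Unit) (LinearMap.toMatrix' A)
    (fun _ => LinearMap.toMatrix' B) (rk (A + z • B)) n h1 (fun _ => z) (by
      rw [rk_eq_rank]
      simp)
  refine ⟨c (), hc _, h2.trans (le_of_eq ?_)⟩
  rw [rk_eq_rank]
  simp

/-- one round of the scheme -/
theorem RankApprox.round [CharZero F] {κ : ℕ} (hκ : 1 ≤ κ)
    (hX : RankApprox (F := F) (Fin n → F) {x | ∃ a ∈ X, x = castV F a} κ)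
    (A₀ : Module.End F (Fin n → F)) (B : (Fin m → F) →ₗ[F] Module.End F (Fin n → F))
    (l N c : ℕ) (h : Fin m → ℕ) (hh : h ∈ sums n X N) (hXne : X.Nonempty)
    (hc : ∀ h' ∈ sums n X (N + l), rk (A₀ + B (castV F h')) ≤ rk (A₀ + B (castV F h)) + c)
    (x : Fin m → F) :
    l * rk (A₀ + B x) ≤ (l + 1) * rk (A₀ + B (castV F h)) + l * (l ^ 2 * (2 * κ) ^ l * c) := by
  set A := A₀ + B (castV F h) with hA
  obtain ⟨G, hG⟩ := exists_ginv A
  set y := x - castV F h with hy
  have e1 : A₀ + B x = A + B y := by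
    rw [hA, hy, map_sub]
    abel
  rw [e1]
  refine (hG.grow (B y) l).trans (Nat.add_le_add_left (Nat.mul_le_mul_left _ ?_) _)
  refine (GInv.finrank_grow_le (A := A) (G := G) (B y) l).trans ?_
  have h1 : ∀ i ∈ Finset.range l, rk ((1 - A * G) * (B y * (G * B y) ^ i) * (1 - G * A)) ≤
      l * (2 * κ) ^ l * c := by
    intro i hi
    rw [Finset.mem_range] at hi
    obtain ⟨a, ha, T, hT⟩ := hX.walk B G (1 - G * A) (1 - A * G) i y
    choose b hb hab using ha
    have e2 : ∑ j ∈ T, a j = castV F (∑ j ∈ T, b j) := by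
      rw [castV_sum]
      exact Finset.sum_congr rfl fun j _ => hab j
    rw [e2] at hT
    have h2 : ∀ z : F, rk (A + z • B (castV F (∑ j ∈ T, b j))) ≤ rk A + c := by
      intro z
      obtain ⟨z', hz', h3⟩ := exists_grid_pencil A (B (castV F (∑ j ∈ T, b j))) z
      refine h3.trans ?_
      have h4 : h + z' • ∑ j ∈ T, b j ∈ sums n X (N + l) :=
        sums_mono hXne (Nat.add_le_add_left hi N) (sums_add hh (sums_mul b hb T z' hz'))
      have h5 := hc _ h4
      rw [castV_add, castV_smul, map_add, map_smul, ← add_assoc] at h5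
      exact h5
    have h3 := hG.gain (B (castV F (∑ j ∈ T, b j))) c h2 i
    calc _ ≤ (2 * κ) ^ (i + 1) * ((i + 1) * c) := hT.trans (Nat.mul_le_mul_left _ h3)
      _ ≤ (2 * κ) ^ l * (l * c) := Nat.mul_le_mul (Nat.pow_le_pow_right (by omega) hi)
          (Nat.mul_le_mul_right _ hi)
      _ = l * (2 * κ) ^ l * c := by ring
  calc _ ≤ ∑ _i ∈ Finset.range l, l * (2 * κ) ^ l * c := Finset.sum_le_sum h1
    _ = l ^ 2 * (2 * κ) ^ l * c := by
      rw [Finset.sum_const, Finset.card_range, smul_eq_mul]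
      ring

end

/-- the recursion of the scheme -/
theorem scheme_recursion (q C ρ : ℕ) (u : ℕ → ℕ) (hu : Monotone u)
    (h : ∀ j, q * ρ ≤ (q + 1) * u j + q * (C * (u (j + 1) - u j))) :
    (q - 1) * ρ ≤ q * u (q ^ 2 * C) := by
  rcases Nat.eq_zero_or_pos q with rfl | hq
  · simp
  obtain ⟨p, rfl⟩ : ∃ p, q = p + 1 := ⟨q - 1, by omega⟩
  rw [Nat.add_sub_cancel]
  by_contra hcon
  push Not at hcon
  set R := (p + 1) ^ 2 * C with hR
  -- every round gains
  have h1 : ∀ j, j ≤ R → ρ ≤ R * (u (j + 1) - u j) := by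
    intro j hj
    have h2 : (p + 1) * u j ≤ p * ρ := (Nat.mul_le_mul_left _ (hu hj)).trans hcon.le
    have h3 := Nat.mul_le_mul_left (p + 1) (h j)
    have h4 : (p + 1) * ((p + 1 + 1) * u j + (p + 1) * (C * (u (j + 1) - u j))) =
        (p + 2) * ((p + 1) * u j) + R * (u (j + 1) - u j) := by
      rw [hR]
      ring
    rw [h4] at h3
    have h5 : (p + 2) * ((p + 1) * u j) ≤ (p + 2) * (p * ρ) := Nat.mul_le_mul_left _ h2
    have h6 : (p + 1) * ((p + 1) * ρ) = (p + 2) * (p * ρ) + ρ := by ring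
    omega
  have h2 : ∀ j, j ≤ R → j * ρ ≤ R * (u j - u 0) := by
    intro j
    induction j with
    | zero => intro _; simp
    | succ j ih =>
      intro hj
      have h3 := ih (by omega)
      have h4 := h1 j (by omega)
      have h5 : u (j + 1) - u 0 = (u j - u 0) + (u (j + 1) - u j) := by
        have h6 : u 0 ≤ u j := hu (Nat.zero_le j)
        have h7 : u j ≤ u (j + 1) := hu (Nat.le_succ j)
        omega
      rw [h5, Nat.mul_add, Nat.add_mul, one_mul]
      omega
  have h3 := h2 R le_rfl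
  rcases Nat.eq_zero_or_pos R with h0 | h0
  · have h4 := h1 0 (Nat.zero_le _)
    rw [h0, zero_mul] at h4
    have : ρ = 0 := by omega
    rw [this, mul_zero] at hcon
    exact absurd hcon (Nat.not_lt_zero _)
  · have h4 : ρ ≤ u R - u 0 := Nat.le_of_mul_le_mul_left h3 h0
    have h5 : ρ ≤ u R := h4.trans (Nat.sub_le _ _)
    have h6 : p * ρ ≤ (p + 1) * u R := Nat.mul_le_mul (Nat.le_succ p) h5
    omega

/-- the amplification theorem -/
theorem RankApprox.amplify {F : Type*} [Field F] [CharZero F] {κ : ℕ} (hκ : 1 ≤ κ)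
    (hXne : X.Nonempty)
    (hX : RankApprox (F := F) (Fin n → F) {x | ∃ a ∈ X, x = castV F a} κ)
    (A₀ : Module.End F (Fin n → F)) (B : (Fin m → F) →ₗ[F] Module.End F (Fin n → F))
    (q : ℕ) : ∃ h ∈ sums n X (q ^ 5 * (2 * κ) ^ q), ∀ x : Fin m → F,
      (q - 1) * rk (A₀ + B x) ≤ q * rk (A₀ + B (castV F h)) := by
  classical
  set C := q ^ 2 * (2 * κ) ^ q with hC
  set v : (Fin m → ℕ) → ℕ := fun h => rk (A₀ + B (castV F h)) with hv
  set u : ℕ → ℕ := fun j => (sums n X (j * q)).sup v with hu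
  have hne : ∀ N, (sums n X N).Nonempty := fun N => ⟨0, zero_mem_sums hXne N⟩
  have hmono : Monotone u := by
    intro j j' hj
    exact Finset.sup_mono (sums_mono hXne (Nat.mul_le_mul_right _ hj))
  obtain ⟨h, hh, hmax⟩ := Finset.exists_mem_eq_sup (sums n X (q ^ 2 * C * q)) (hne _) v
  have eN : q ^ 2 * C * q = q ^ 5 * (2 * κ) ^ q := by
    rw [hC]
    ring
  refine ⟨h, by rw [← eN]; exact hh, fun x => ?_⟩
  have e1 : rk (A₀ + B (castV F h)) = u (q ^ 2 * C) := hmax.symm
  rw [e1]
  refine scheme_recursion q C (rk (A₀ + B x)) u hmono fun j => ?_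
  obtain ⟨g, hg, hgmax⟩ := Finset.exists_mem_eq_sup (sums n X (j * q)) (hne _) v
  have e2 : u j = rk (A₀ + B (castV F g)) := hgmax
  have h3 := hX.round hκ A₀ B q (j * q) (u (j + 1) - u j) g hg hXne (by
    intro h' hh'
    rw [← e2]
    have h4 : rk (A₀ + B (castV F h')) ≤ u (j + 1) := by
      have e3 : j * q + q = (j + 1) * q := by ring
      rw [e3] at hh'
      exact Finset.le_sup (f := v) hh'
    have h5 : u j ≤ u (j + 1) := hmono (Nat.le_succ j)
    omega) x
  rw [← e2] at h3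
  exact h3

end Pool.Agent.Lib.MP_64d474_lc
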