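import Mathlib
import Pool.Agent.Lib.MP_64d474_lc.YnFinal
import Pool.Agent.Lib.MP_64d474_lc.ZnScheme

/-!
An explicit set of points that approximates the rank of every linear family of `n × n` matrices
within the factor `4`, in the form needed for the amplification.
-/

open Matrix Module

namespace Pool.Agent.Lib.MP_64d474_lc

/-- an upper bound for the primes and for the bases that are used -/
def baseBound (n m s : ℕ) : ℕ := 32 * (n + m + 2 ^ s) ^ 5

/-- the `k`-th exponent for the prime `p` and the bases `b`: the number with the digits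
`b i ^ k mod p` to the radix `n * baseBound n m s + 1` -/
def baseWeight (n m s p : ℕ) (b : Fin s → ℕ) (k : Fin m) : ℕ :=
  ∑ i, (b i ^ (k : ℕ) % p) * (n * baseBound n m s + 1) ^ (i : ℕ)

/-- the points `(t ^ baseWeight n m s p b k)` for the primes `p ≤ baseBound n m s`, the `s`-tuples
of bases `b i ≤ baseBound n m s` and the numbers `t < (n * baseBound n m s + 1) ^ s` -/
def baseSet (n m s : ℕ) : Finset (Fin m → ℕ) :=
  (((Finset.range (baseBound n m s + 1)).filter Nat.Prime) ×ˢ
    (Fintype.piFinset fun _ : Fin s => Finset.range (baseBound n m s + 1)) ×ˢ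
      Finset.range ((n * baseBound n m s + 1) ^ s)).image
    fun q k => q.2.2 ^ baseWeight n m s q.1 q.2.1 k

theorem baseBound_lt (n m s : ℕ) : baseBound n m s + 1 ≤ 33 * (n + m + 2 ^ s) ^ 6 ∧
    n * baseBound n m s + 1 ≤ 33 * (n + m + 2 ^ s) ^ 6 := by
  rw [baseBound]
  have h2s : 1 ≤ 2 ^ s := Nat.one_le_two_pow
  set M := n + m + 2 ^ s with hM
  have hM1 : 1 ≤ M := by omega
  have h5 : 1 ≤ M ^ 5 := Nat.one_le_pow _ _ hM1
  have h6 : M ^ 5 ≤ M ^ 6 := Nat.pow_le_pow_right hM1 (by norm_num)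
  have hn : n + 1 ≤ M := by omega
  have h7 := Nat.mul_le_mul_right (M ^ 5) hn
  have h8 : M * M ^ 5 = M ^ 6 := by ring
  rw [h8] at h7
  constructor
  · omega
  · have h9 : (n + 1) * M ^ 5 = n * M ^ 5 + M ^ 5 := by ring
    have h10 : n * (32 * M ^ 5) = 32 * (n * M ^ 5) := by ring
    rw [h9] at h7
    rw [h10]
    omega

theorem baseWeight_lt (n m s p : ℕ) (hp : p.Prime) (hpR : p ≤ baseBound n m s) (b : Fin s → ℕ)
    (k : Fin m) : baseWeight n m s p b k < (33 * (n + m + 2 ^ s) ^ 6) ^ s := by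
  obtain ⟨h1, h2⟩ := baseBound_lt n m s
  set A := 33 * (n + m + 2 ^ s) ^ 6 with hA
  have hA1 : 1 ≤ A := by omega
  have h3 : baseWeight n m s p b k ≤ ∑ i : Fin s, (A - 1) * A ^ (i : ℕ) := by
    refine Finset.sum_le_sum fun i _ => Nat.mul_le_mul ?_ (Nat.pow_le_pow_left h2 _)
    have := Nat.mod_lt (b i ^ (k : ℕ)) hp.pos
    omega
  have h4 : ∀ L : ℕ, ∑ i : Fin L, (A - 1) * A ^ (i : ℕ) + 1 = A ^ L := by
    intro L
    induction L with
    | zero => simp
    | succ L ih =>
      rw [Fin.sum_univ_castSucc]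
      simp only [Fin.val_castSucc, Fin.val_last]
      have h5 : (A - 1) * A ^ L + A ^ L = A ^ (L + 1) := by
        obtain ⟨c, hc⟩ : ∃ c, A = c + 1 := ⟨A - 1, by omega⟩
        rw [hc, Nat.add_sub_cancel]
        ring
      omega
  have := h4 s
  omega

theorem card_baseSet_le (n m s : ℕ) :
    (baseSet n m s).card ≤ (33 * (n + m + 2 ^ s) ^ 6) ^ (2 * s + 1) := by
  obtain ⟨h1, h2⟩ := baseBound_lt n m s
  set A := 33 * (n + m + 2 ^ s) ^ 6 with hA
  refine Finset.card_image_le.trans ?_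
  rw [Finset.card_product, Finset.card_product, Fintype.card_piFinset]
  simp only [Finset.card_range, Finset.prod_const, Finset.card_univ, Fintype.card_fin]
  have e1 : ((Finset.range (baseBound n m s + 1)).filter Nat.Prime).card ≤ A := by
    refine (Finset.card_filter_le _ _).trans ?_
    rw [Finset.card_range]
    exact h1
  have e2 : (baseBound n m s + 1) ^ s ≤ A ^ s := Nat.pow_le_pow_left h1 _
  have e3 : (n * baseBound n m s + 1) ^ s ≤ A ^ s := Nat.pow_le_pow_left h2 _
  calc _ ≤ A * (A ^ s * A ^ s) := Nat.mul_le_mul e1 (Nat.mul_le_mul e2 e3)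
    _ = A ^ (2 * s + 1) := by
      rw [← pow_add, ← pow_succ']
      congr 1
      omega

theorem baseSet_le (n m s : ℕ) : ∀ h ∈ baseSet n m s, ∀ k,
    h k ≤ ((33 * (n + m + 2 ^ s) ^ 6) ^ s) ^ ((33 * (n + m + 2 ^ s) ^ 6) ^ s) := by
  obtain ⟨h1, h2⟩ := baseBound_lt n m s
  intro h hh k
  rw [baseSet, Finset.mem_image] at hh
  obtain ⟨⟨p, b, t⟩, hq, rfl⟩ := hh
  rw [Finset.mem_product, Finset.mem_product, Finset.mem_filter, Finset.mem_range,
    Finset.mem_range] at hq
  obtain ⟨⟨hpR, hp⟩, -, ht⟩ := hq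
  have hpR' : p ≤ baseBound n m s := Nat.lt_succ_iff.mp hpR
  have hw := baseWeight_lt n m s p hp hpR' b k
  set A := 33 * (n + m + 2 ^ s) ^ 6 with hA
  have hA0 : 0 < A := by omega
  have ht2 : t ≤ A ^ s := ht.le.trans (Nat.pow_le_pow_left h2 _)
  calc t ^ baseWeight n m s p b k ≤ (A ^ s) ^ baseWeight n m s p b k := Nat.pow_le_pow_left ht2 _
    _ ≤ _ := Nat.pow_le_pow_right (Nat.pow_pos hA0) hw.le

/-- the points of `baseSet` approximate the rank within the factor `4` -/
theorem baseSet_approx {F : Type*} [Field F] [CharZero F] (n m s T : ℕ) (hT : 1 ≤ T)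
    (hTs : 4 * T ≤ 2 ^ s) (hnT : n ≤ 2 ^ T) :
    RankApprox (F := F) (Fin n → F) {x : Fin m → F | ∃ a ∈ baseSet n m s, x = castV F a} 4 := by
  classical
  intro C y
  set B : Fin m → Matrix (Fin n) (Fin n) F :=
    fun k => LinearMap.toMatrix' (C (Pi.single k 1)) with hB
  have hC : ∀ x : Fin m → F, rk (C x) = (0 + ∑ k, x k • B k).rank := by
    intro x
    have e0 : x = ∑ k, x k • (Pi.single k 1 : Fin m → F) := by
      funext j
      rw [Finset.sum_apply, Finset.sum_eq_single j]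
      · rw [Pi.smul_apply, Pi.single_eq_same, smul_eq_mul, mul_one]
      · intro k _ hkj
        rw [Pi.smul_apply, Pi.single_eq_of_ne hkj.symm, smul_zero]
      · intro h
        exact absurd (Finset.mem_univ j) h
    have e1 : C x = ∑ k, x k • C (Pi.single k 1) := by
      conv_lhs => rw [e0]
      rw [map_sum]
      exact Finset.sum_congr rfl fun k _ => map_smul _ _ _
    rw [rk_eq_rank, e1, map_sum, zero_add]
    simp only [map_smul, hB]
  obtain ⟨U, r, S, T₀, hU, hr, hns⟩ := exists_compression (0 : Matrix (Fin n) (Fin n) F) B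
  rw [Fintype.card_fin] at hU hr
  obtain ⟨p, hp, hpr, b, hb, t, ht, h⟩ := approx_point (n := n) (s := s)
    (by rw [Fintype.card_fin]; exact hr) (S * (0 : Matrix (Fin n) (Fin n) F) * T₀)
    (fun k => S * B k * T₀) hns
  refine ⟨castV F (fun k => t ^ baseWeight n m s p b k), ⟨_, ?_, rfl⟩, ?_⟩
  · rw [baseSet, Finset.mem_image]
    refine ⟨⟨p, b, t⟩, ?_, rfl⟩
    rw [Finset.mem_product, Finset.mem_product, Finset.mem_filter, Finset.mem_range,
      Finset.mem_range, Fintype.mem_piFinset]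
    refine ⟨⟨Nat.lt_succ_of_le hp, hpr⟩, fun i => ?_, ht⟩
    rw [Finset.mem_range]
    exact lt_of_lt_of_le (hb i) (hp.trans (Nat.le_succ _))
  · have h3 := h T 2 1 hT hTs (by simpa using hnT)
    rw [Fintype.card_fin] at h3
    have e : S * (0 : Matrix (Fin n) (Fin n) F) * T₀ + ∑ k : Fin m, ((t ^ dig p (n * (32 * (n + m + 2 ^ s) ^ 5) + 1) b k :
        ℕ) : F) • (S * B k * T₀) =
        S * (0 + ∑ k : Fin m, ((t ^ baseWeight n m s p b k : ℕ) : F) • B k) * T₀ := by
      rw [Matrix.mul_add, Matrix.add_mul, Matrix.mul_sum, Matrix.sum_mul]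
      congr 1
      refine Finset.sum_congr rfl fun k _ => ?_
      rw [Matrix.mul_smul, Matrix.smul_mul]
      rfl
    rw [e] at h3
    have h4 : (S * (0 + ∑ k : Fin m, ((t ^ baseWeight n m s p b k : ℕ) : F) • B k) * T₀).rank ≤
        (0 + ∑ k : Fin m, ((t ^ baseWeight n m s p b k : ℕ) : F) • B k).rank :=
      (Matrix.rank_mul_le_left _ _).trans (Matrix.rank_mul_le_right _ _)
    have h5 := rank_add_finrank_le (0 + ∑ k, y k • B k) U (imageSum 0 B U) (by
      rintro _ ⟨u, hu, rfl⟩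
      rw [Matrix.mulVecLin_apply, Matrix.add_mulVec, Matrix.sum_mulVec]
      refine Submodule.add_mem _ (mem_imageSum_zero B hu) (Submodule.sum_mem _ fun k _ => ?_)
      rw [Matrix.smul_mulVec]
      exact Submodule.smul_mem _ _ (mem_imageSum k hu))
    rw [Fintype.card_fin] at h5
    rw [hC, hC]
    have h6 : (0 + ∑ k : Fin m, castV F (fun k => t ^ baseWeight n m s p b k) k • B k).rank =
        (0 + ∑ k : Fin m, ((t ^ baseWeight n m s p b k : ℕ) : F) • B k).rank := rfl
    rw [h6]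
    omega

theorem baseSet_nonempty (n m s : ℕ) : (baseSet n m s).Nonempty := by
  rw [baseSet, Finset.image_nonempty, Finset.nonempty_product, Finset.nonempty_product]
  have h1 : 1 ≤ (n + m + 2 ^ s) ^ 5 := Nat.one_le_pow _ _ (by
    have : 1 ≤ 2 ^ s := Nat.one_le_two_pow
    omega)
  refine ⟨⟨2, ?_⟩, ⟨fun _ => 0, ?_⟩, ⟨0, ?_⟩⟩
  · rw [Finset.mem_filter, Finset.mem_range, baseBound]
    exact ⟨by omega, Nat.prime_two⟩
  · rw [Fintype.mem_piFinset]
    intro i
    rw [Finset.mem_range]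
    exact Nat.succ_pos _
  · rw [Finset.mem_range]
    exact Nat.pow_pos (Nat.succ_pos _)

end Pool.Agent.Lib.MP_64d474_lc
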