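import Mathlib
import Pool.Agent.Lib.MP_64d474_lc.ZnBase

/-!
Bounds for the coordinates and the number of the points of the scheme.
-/

namespace Pool.Agent.Lib.MP_64d474_lc

theorem sums_coord_le {D N Q m : ℕ} {X : Finset (Fin m → ℕ)} (hX : ∀ a ∈ X, ∀ k, a k ≤ Q) :
    ∀ h ∈ sums D X N, ∀ k, h k ≤ N * (D * Q) := by
  intro h hh k
  obtain ⟨a, z, ha, hz, rfl⟩ := mem_sums.mp hh
  rw [Finset.sum_apply]
  refine (Finset.sum_le_card_nsmul Finset.univ _ (D * Q) ?_).trans ?_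
  · intro j _
    rw [Pi.smul_apply, smul_eq_mul]
    exact Nat.mul_le_mul (hz j) (hX _ (ha j) k)
  · rw [Finset.card_univ, Fintype.card_fin, smul_eq_mul]

theorem baseSet_le_of_le {D m s M : ℕ} (hM : 33 * (D + m + 2 ^ s) ^ 6 ≤ M) :
    ∀ h ∈ baseSet D m s, ∀ k, h k ≤ (M ^ s) ^ (M ^ s) := by
  intro h hh k
  have h0 : 1 ≤ 2 ^ s := Nat.one_le_two_pow
  have hM0 : 0 < M := lt_of_lt_of_le (by positivity) hM
  refine (baseSet_le D m s h hh k).trans ?_
  generalize 33 * (D + m + 2 ^ s) ^ 6 = K at hM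
  have h1 : K ^ s ≤ M ^ s := Nat.pow_le_pow_left hM s
  exact (Nat.pow_le_pow_left h1 _).trans (Nat.pow_le_pow_right (Nat.pow_pos hM0) h1)

theorem card_sums_baseSet_le {D m s M N : ℕ} (hM : 33 * (D + m + 2 ^ s) ^ 6 ≤ M)
    (hD : D + 1 ≤ M) : (sums D (baseSet D m s) N).card ≤ M ^ ((2 * s + 2) * N) := by
  refine (card_sums_le _).trans ?_
  have h1 : (baseSet D m s).card * (D + 1) ≤ M ^ (2 * s + 2) := by
    calc (baseSet D m s).card * (D + 1) ≤ M ^ (2 * s + 1) * M :=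
        Nat.mul_le_mul ((card_baseSet_le D m s).trans (Nat.pow_le_pow_left hM _)) hD
      _ = M ^ (2 * s + 2) := by rw [← pow_succ]
  calc ((baseSet D m s).card * (D + 1)) ^ N ≤ (M ^ (2 * s + 2)) ^ N := Nat.pow_le_pow_left h1 _
    _ = M ^ ((2 * s + 2) * N) := (pow_mul _ _ _).symm

end Pool.Agent.Lib.MP_64d474_lc
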