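import Mathlib
import Pool.Agent.Lib.MP_64d474_lc.HnLoop
import Pool.Agent.Lib.MP_64d474_lc.ZnBase
import Pool.Agent.Lib.MP_64d474_lc.ZtBounds

/-!
The base set approximates the noncommutative rank within the factor four; the numbers of phases and
of points.
-/

open Matrix Module MvPolynomial

set_option linter.unusedSectionVars false

namespace Pool.Agent.Lib.MP_64d474_lc

/-- the points of the base set, in the field -/
def baseF (F : Type*) [Field F] (n m s : ℕ) : Set (Fin m → F) :=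
  {x | ∃ a ∈ baseSet n m s, x = castV F a}

theorem baseSet_ncApprox {F : Type*} [Field F] [CharZero F] {n m s T : ℕ} (hT : 1 ≤ T)
    (hTs : 4 * T ≤ 2 ^ s) (hnT : n ≤ 2 ^ T) (E : Type) [Fintype E] [DecidableEq E]
    (hE : Fintype.card E ≤ n) : NcApprox E (baseF F n m s) 4 := by
  classical
  intro B
  obtain ⟨U, r, S, T₀, hU, hr, hns⟩ := exists_compression (0 : Matrix E E F) B
  obtain ⟨p, hp, hpr, b, hb, t, ht, h⟩ := approx_point (n := n) (s := s)
    (by rw [Fintype.card_fin]; exact hr.trans hE) (S * (0 : Matrix E E F) * T₀)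
    (fun k => S * B k * T₀) hns
  refine ⟨castV F (fun k => t ^ baseWeight n m s p b k), ⟨_, ?_, rfl⟩, U, ?_⟩
  · rw [baseSet, Finset.mem_image]
    refine ⟨⟨p, b, t⟩, ?_, rfl⟩
    rw [Finset.mem_product, Finset.mem_product, Finset.mem_filter, Finset.mem_range,
      Finset.mem_range, Fintype.mem_piFinset]
    refine ⟨⟨Nat.lt_succ_of_le hp, hpr⟩, fun i => ?_, ht⟩
    rw [Finset.mem_range]
    exact lt_of_lt_of_le (hb i) (hp.trans (Nat.le_succ _))
  · have h3 := h T 2 1 hT hTs (by simpa using hnT)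
    rw [Fintype.card_fin] at h3
    have e : S * (0 : Matrix E E F) * T₀ + ∑ k : Fin m,
        ((t ^ dig p (n * (32 * (n + m + 2 ^ s) ^ 5) + 1) b k : ℕ) : F) • (S * B k * T₀) =
        S * (0 + ∑ k : Fin m, ((t ^ baseWeight n m s p b k : ℕ) : F) • B k) * T₀ := by
      rw [Matrix.mul_add, Matrix.add_mul, Matrix.mul_sum, Matrix.sum_mul]
      congr 1
      refine Finset.sum_congr rfl fun k _ => ?_
      rw [Matrix.mul_smul, Matrix.smul_mul]
      rfl
    rw [e] at h3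
    have h4 : (S * (0 + ∑ k : Fin m, ((t ^ baseWeight n m s p b k : ℕ) : F) • B k) * T₀).rank ≤
        (0 + ∑ k : Fin m, ((t ^ baseWeight n m s p b k : ℕ) : F) • B k).rank :=
      (Matrix.rank_mul_le_left _ _).trans (Matrix.rank_mul_le_right _ _)
    rw [zero_add] at h4
    have h6 : (∑ k : Fin m, castV F (fun k => t ^ baseWeight n m s p b k) k • B k).rank =
        (∑ k : Fin m, ((t ^ baseWeight n m s p b k : ℕ) : F) • B k).rank := rfl
    rw [h6, hU]
    rw [zero_add] at h3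
    omega

theorem pow_phase (n : ℕ) : 7 ^ (6 * (Nat.log 2 n + 1)) * n < 8 ^ (6 * (Nat.log 2 n + 1)) := by
  set l := Nat.log 2 n with hl
  have h1 : n < 2 ^ (l + 1) := Nat.lt_pow_succ_log_self (by norm_num) n
  calc 7 ^ (6 * (l + 1)) * n < 7 ^ (6 * (l + 1)) * 2 ^ (l + 1) :=
        Nat.mul_lt_mul_of_pos_left h1 (Nat.pow_pos (by norm_num))
    _ = (7 ^ 6 * 2) ^ (l + 1) := by rw [pow_mul, mul_pow]
    _ ≤ (8 ^ 6) ^ (l + 1) := Nat.pow_le_pow_left (by norm_num) _
    _ = 8 ^ (6 * (l + 1)) := (pow_mul _ _ _).symm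

theorem log_phase (n c : ℕ) (hc : 1 ≤ c) (hcn : c ≤ n) :
    ((4 : ℕ) : ℝ) * (2 * (c : ℝ) * Real.log (2 * c)) <
      ((24 * (Nat.log 2 n + 1) : ℕ) : ℝ) * ((c : ℝ) - (c / 2 : ℕ)) := by
  set l := Nat.log 2 n with hl
  have h1 : n < 2 ^ (l + 1) := Nat.lt_pow_succ_log_self (by norm_num) n
  have hc0 : (0 : ℝ) < c := by exact_mod_cast hc
  have h2 : (2 * (c : ℝ)) < 2 ^ (l + 2) := by
    have h3 : 2 * c < 2 ^ (l + 2) := by
      rw [pow_succ]
      omega
    exact_mod_cast h3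
  have h3 : Real.log (2 * c) < (l + 2) * Real.log 2 := by
    have h4 := Real.log_lt_log (by positivity) h2
    rw [Real.log_pow] at h4
    push_cast at h4
    exact h4
  have h4 : Real.log 2 < 0.6931471808 := Real.log_two_lt_d9
  have h5 : Real.log (2 * c) < 0.7 * (l + 2) := by
    have h6 : (0 : ℝ) ≤ l := Nat.cast_nonneg l
    nlinarith
  have h6 : (((c / 2 : ℕ)) : ℝ) ≤ c / 2 := by
    rw [le_div_iff₀ (by norm_num)]
    have : c / 2 * 2 ≤ c := Nat.div_mul_le_self c 2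
    exact_mod_cast this
  have h7 : (0 : ℝ) ≤ l := Nat.cast_nonneg l
  push_cast
  have h8 : 4 * (2 * (c : ℝ) * Real.log (2 * c)) < 8 * c * (0.7 * (l + 2)) := by
    have := mul_lt_mul_of_pos_left h5 (show (0 : ℝ) < 8 * c by positivity)
    linarith
  have h9 : 8 * (c : ℝ) * (0.7 * (l + 2)) ≤ 24 * ((l : ℝ) + 1) * (c / 2) := by
    nlinarith [mul_nonneg hc0.le h7]
  have h10 : 24 * ((l : ℝ) + 1) * ((c : ℝ) / 2) ≤ 24 * ((l : ℝ) + 1) * ((c : ℝ) - (c / 2 : ℕ)) :=
    mul_le_mul_of_nonneg_left (by linarith) (by positivity)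
  exact lt_of_lt_of_le h8 (h9.trans h10)

end Pool.Agent.Lib.MP_64d474_lc
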