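import Mathlib
import Pool.Agent.Lib.MP_64d474_lc.HnBase

/-!
Linear algebra for the reduction to labelled systems of matrices of rank one.
-/

open Matrix Module

set_option linter.unusedSectionVars false

namespace Pool.Agent.Lib.MP_64d474_lc

section

variable {F : Type*} [Field F]

theorem hn_rank_one_form {ι : Type*} [Fintype ι] [DecidableEq ι] (A : Matrix ι ι F)
    (h : A.rank ≤ 1) : ∃ u v : ι → F, A = vecMulVec u v := by
  rw [Matrix.rank, finrank_le_one_iff] at h
  obtain ⟨w, hw⟩ := h
  have h1 : ∀ j, ∃ c : F, c • (w : ι → F) = A *ᵥ Pi.single j 1 := by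
    intro j
    obtain ⟨c, hc⟩ := hw ⟨A *ᵥ Pi.single j 1, ⟨_, rfl⟩⟩
    exact ⟨c, congrArg Subtype.val hc⟩
  choose c hc using h1
  refine ⟨w, c, ?_⟩
  ext i j
  have h2 := congrFun (hc j) i
  rw [Matrix.mulVec_single_one] at h2
  rw [vecMulVec_apply]
  have h3 : c j * (w : ι → F) i = A i j := h2
  rw [← h3, mul_comm]

/-- a basis of a subspace chosen among generators -/
theorem exists_basis_of_gen {X : Type*} [AddCommGroup X] [Module F X] [FiniteDimensional F X]
    (W : Submodule F X) (G : Set X) (hG : W ≤ Submodule.span F {x | x ∈ W ∧ x ∈ G}) :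
    ∃ t : Fin (finrank F W) → X, (∀ e, t e ∈ W ∧ t e ∈ G) ∧ LinearIndependent F t ∧
      Submodule.span F (Set.range t) = W := by
  classical
  obtain ⟨b, hb, hspan, hli⟩ := exists_linearIndependent F {x | x ∈ W ∧ x ∈ G}
  have hW : Submodule.span F {x | x ∈ W ∧ x ∈ G} = W :=
    le_antisymm (Submodule.span_le.mpr fun x hx => hx.1) hG
  have hfin : Finite b := hli.finite
  haveI : Fintype b := Fintype.ofFinite b
  have hspan' : Submodule.span F (Set.range ((↑) : b → X)) = W := by
    rw [Subtype.range_coe, hspan, hW]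
  have hcard : Fintype.card b = finrank F W := by
    rw [← hspan', finrank_span_eq_card hli]
  let e : Fin (finrank F W) ≃ b := (finCongr hcard.symm).trans (Fintype.equivFin b).symm
  refine ⟨fun i => (e i : X), fun i => hb (e i).2, hli.comp e e.injective, ?_⟩
  have h1 : Set.range (fun i => (e i : X)) = Set.range ((↑) : b → X) := by
    ext x
    constructor
    · rintro ⟨i, rfl⟩
      exact ⟨e i, rfl⟩
    · rintro ⟨y, rfl⟩
      exact ⟨e.symm y, by simp⟩
  rw [h1, hspan']

/-- coordinates with respect to a linearly independent family -/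
theorem exists_coords {X : Type*} [AddCommGroup X] [Module F X] {d : ℕ} (t : Fin d → X)
    (hli : LinearIndependent F t) :
    ∃ φ : X →ₗ[F] (Fin d → F), (∀ s : Fin d → F, φ (∑ e, s e • t e) = s) ∧
      ∀ w ∈ Submodule.span F (Set.range t), ∑ e, φ w e • t e = w := by
  obtain ⟨φ, hφ⟩ := (Fintype.linearCombination F t).exists_leftInverse_of_injective
    (LinearMap.ker_eq_bot.mpr (by
      intro s s' hs
      rw [Fintype.linearCombination_apply, Fintype.linearCombination_apply] at hs
      have h1 : ∑ e, (s e - s' e) • t e = 0 := by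
        simp only [sub_smul, Finset.sum_sub_distrib, hs, sub_self]
      have h2 := Fintype.linearIndependent_iff.mp hli _ h1
      funext e
      exact sub_eq_zero.mp (h2 e)))
  have h1 : ∀ s : Fin d → F, φ (∑ e, s e • t e) = s := by
    intro s
    have := LinearMap.congr_fun hφ s
    rwa [LinearMap.comp_apply, Fintype.linearCombination_apply, LinearMap.id_apply] at this
  refine ⟨φ, h1, fun w hw => ?_⟩
  obtain ⟨s, rfl⟩ := (Submodule.mem_span_range_iff_exists_fun F).mp hw
  rw [h1]

/-- A subspace of codimension at most `c` has a complement that is spanned by at most `c`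
coordinate vectors. -/
theorem exists_coord_proj {m c : ℕ} (V' : Submodule F (Fin m → F)) (hV : m ≤ finrank F V' + c) :
    ∃ (C : Finset (Fin m)) (π : (Fin m → F) →ₗ[F] (Fin m → F)), C.card ≤ c ∧ (∀ x, π x ∈ V') ∧
      (∀ v ∈ V', π v = v) ∧ ∀ x, ∀ k, k ∉ C → (x - π x) k = 0 := by
  classical
  obtain ⟨κ, a, ha, hspan, hli⟩ := exists_linearIndependent' F
    (fun k : Fin m => V'.mkQ (Pi.single k 1))
  haveI : Finite κ := Finite.of_injective a ha
  haveI : Fintype κ := Fintype.ofFinite κ
  have hE : ∀ x : Fin m → F, x = ∑ k, x k • (Pi.single k 1 : Fin m → F) := by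
    intro x
    funext j
    rw [Finset.sum_apply, Finset.sum_eq_single j]
    · rw [Pi.smul_apply, Pi.single_eq_same, smul_eq_mul, mul_one]
    · intro k _ hkj
      rw [Pi.smul_apply, Pi.single_eq_of_ne hkj.symm, smul_zero]
    · intro h
      exact absurd (Finset.mem_univ j) h
  have htop : ⊤ ≤ Submodule.span F (Set.range ((fun k : Fin m => V'.mkQ (Pi.single k 1)) ∘ a)) := by
    rw [hspan]
    intro y _
    obtain ⟨x, rfl⟩ := V'.mkQ_surjective y
    rw [hE x, map_sum]
    refine Submodule.sum_mem _ fun k _ => ?_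
    rw [map_smul]
    exact Submodule.smul_mem _ _ (Submodule.subset_span ⟨k, rfl⟩)
  let b := Basis.mk hli htop
  let g : (Fin m → F) →ₗ[F] (Fin m → F) :=
    (Fintype.linearCombination F fun k : κ => (Pi.single (a k) 1 : Fin m → F)) ∘ₗ
      (b.equivFun : ((Fin m → F) ⧸ V') ≃ₗ[F] (κ → F)).toLinearMap ∘ₗ V'.mkQ
  have hg : ∀ x, g x = ∑ k : κ, b.equivFun (V'.mkQ x) k • (Pi.single (a k) 1 : Fin m → F) := by
    intro x
    show Fintype.linearCombination F _ _ = _
    rw [Fintype.linearCombination_apply]
    rfl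
  refine ⟨Finset.univ.image a, LinearMap.id - g, ?_, ?_, ?_, ?_⟩
  · refine Finset.card_image_le.trans ?_
    have h1 : finrank F ((Fin m → F) ⧸ V') = Fintype.card κ := Module.finrank_eq_card_basis b
    have h2 := Submodule.finrank_quotient_add_finrank V'
    rw [finrank_fintype_fun_eq_card, Fintype.card_fin] at h2
    rw [Finset.card_univ]
    omega
  · intro x
    rw [← Submodule.Quotient.mk_eq_zero, ← Submodule.mkQ_apply, LinearMap.sub_apply,
      LinearMap.id_apply, map_sub, hg, map_sum]
    simp only [map_smul]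
    have h1 : ∑ k : κ, b.equivFun (V'.mkQ x) k • V'.mkQ (Pi.single (a k) 1 : Fin m → F) =
        V'.mkQ x := by
      conv_rhs => rw [← b.sum_equivFun (V'.mkQ x)]
      refine Finset.sum_congr rfl fun k _ => ?_
      rw [Basis.mk_apply]
      rfl
    rw [h1, sub_self]
  · intro v hv
    rw [LinearMap.sub_apply, LinearMap.id_apply, hg]
    have h1 : V'.mkQ v = 0 := by
      rw [Submodule.mkQ_apply, Submodule.Quotient.mk_eq_zero]
      exact hv
    rw [h1, map_zero]
    simp
  · intro x k hk
    rw [LinearMap.sub_apply, LinearMap.id_apply, sub_sub_cancel, hg, Finset.sum_apply]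
    refine Finset.sum_eq_zero fun l _ => ?_
    rw [Pi.smul_apply, Pi.single_eq_of_ne, smul_zero]
    rintro rfl
    exact hk (Finset.mem_image_of_mem a (Finset.mem_univ l))

end

end Pool.Agent.Lib.MP_64d474_lc
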