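import Mathlib
import Pool.Agent.Lib.MP_64d474_lc.HnProj

/-!
The hitting set for block triangular systems whose diagonal blocks contain large subspaces that are
spanned by matrices of rank one.
-/

open Matrix Module MvPolynomial

set_option linter.unusedSectionVars false

namespace Pool.Agent.Lib.MP_64d474_lc

section

variable {F : Type*} [Field F]

/-- the linear map that sends `x` to the diagonal block of `∑ x_k A_k` with label `b` -/
def blockMap {r m : ℕ} (A : Fin m → Matrix (Fin r) (Fin r) F) (β : Fin r → ℕ) (b : ℕ) :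
    (Fin m → F) →ₗ[F] Matrix (Fin r) (Fin r) F where
  toFun x := Matrix.of fun i j => if β i = b ∧ β j = b then (∑ k, x k • A k) i j else 0
  map_add' x y := by
    refine Matrix.ext fun i j => ?_
    rw [Matrix.add_apply, Matrix.of_apply, Matrix.of_apply, Matrix.of_apply]
    split_ifs
    · simp only [Pi.add_apply, add_smul, Finset.sum_add_distrib, Matrix.add_apply]
    · rw [add_zero]
  map_smul' z x := by
    refine Matrix.ext fun i j => ?_
    rw [RingHom.id_apply, Matrix.smul_apply, Matrix.of_apply, Matrix.of_apply]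
    split_ifs
    · simp only [Pi.smul_apply, smul_assoc, ← Finset.smul_sum, Matrix.smul_apply]
    · rw [smul_zero]

/-- the subspace is spanned by its elements of rank at most one -/
def RankOneSpanned {r : ℕ} (W : Submodule F (Matrix (Fin r) (Fin r) F)) : Prop :=
  W ≤ Submodule.span F {M | M ∈ W ∧ M.rank ≤ 1}

/-- block diagonal part -/
def bdiag {r : ℕ} (β : Fin r → ℕ) (M : Matrix (Fin r) (Fin r) F) : Matrix (Fin r) (Fin r) F :=
  Matrix.of fun i j => if β i = β j then M i j else 0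

theorem bdiag_add {r : ℕ} (β : Fin r → ℕ) (M N : Matrix (Fin r) (Fin r) F) :
    bdiag β (M + N) = bdiag β M + bdiag β N := by
  refine Matrix.ext fun i j => ?_
  rw [Matrix.add_apply, bdiag, bdiag, bdiag, Matrix.of_apply, Matrix.of_apply, Matrix.of_apply]
  split_ifs
  · rfl
  · rw [add_zero]

theorem det_bdiag {r : ℕ} (β : Fin r → ℕ) (M : Matrix (Fin r) (Fin r) F)
    (hM : ∀ i j, M i j ≠ 0 → β i ≤ β j) : (bdiag β M).det = M.det := by
  classical
  have h1 : M.BlockTriangular β := by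
    intro i j hij
    by_contra h
    exact absurd (hM i j h) (not_le.mpr hij)
  have h2 : (bdiag β M).BlockTriangular β := by
    intro i j hij
    rw [bdiag, Matrix.of_apply, if_neg (ne_of_gt hij)]
  rw [h1.det, h2.det]
  refine Finset.prod_congr rfl fun b _ => ?_
  congr 1
  refine Matrix.ext fun i j => ?_
  show bdiag β M i.1 j.1 = M i.1 j.1
  rw [bdiag, Matrix.of_apply, if_pos]
  rw [i.2, j.2]

theorem mem_sums_sparse {n m c : ℕ} {X : Finset (Fin m → ℕ)} (hX : X.Nonempty)
    (C : Finset (Fin m)) (hC : C.card ≤ c) (hXC : ∀ k ∈ C, (Pi.single k 1 : Fin m → ℕ) ∈ X)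
    (z : Fin m → ℕ) (hz : ∀ k, z k ≤ n) :
    (∑ k ∈ C, z k • (Pi.single k 1 : Fin m → ℕ)) ∈ sums n X c := by
  classical
  refine sums_mono hX hC ?_
  revert hXC
  clear hC
  induction C using Finset.induction with
  | empty =>
    intro _
    rw [Finset.sum_empty]
    exact zero_mem_sums hX _
  | insert k C hk ih =>
    intro hXC
    rw [Finset.sum_insert hk, Finset.card_insert_of_notMem hk, add_comm C.card 1]
    refine sums_add ?_ (ih fun l hl => hXC l (Finset.mem_insert_of_mem hl))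
    refine mem_sums.mpr ⟨fun _ => Pi.single k 1, fun _ => z k,
      fun _ => hXC k (Finset.mem_insert_self k C), fun _ => hz k, ?_⟩
    rw [Fin.sum_univ_one]

end

/-- The core of the hitting set theorem. -/
theorem hidden_core {F : Type*} [Field F] [CharZero F] {n m c r s : ℕ} (hrn : r ≤ n)
    (hs : 4 * (Nat.log 2 n + 1) ≤ 2 ^ s)
    (A₀ : Matrix (Fin r) (Fin r) F) (A : Fin m → Matrix (Fin r) (Fin r) F)
    (V' : Submodule F (Fin m → F)) (hV : m ≤ finrank F V' + c) (β : Fin r → ℕ)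
    (h0 : ∀ i j, A₀ i j ≠ 0 → β i ≤ β j) (hA : ∀ k i j, A k i j ≠ 0 → β i ≤ β j)
    (hrk : ∀ b, RankOneSpanned (V'.map (blockMap A β b)))
    (x₀ : Fin m → F) (hx₀ : (A₀ + ∑ k, x₀ k • A k).det ≠ 0)
    (X : Finset (Fin m → ℕ)) (hX : X.Nonempty) (hXe : ∀ k, (Pi.single k 1 : Fin m → ℕ) ∈ X) :
    ∃ f ∈ sums n X c, ∃ g ∈ sums n (baseSet n m s)
      (6 * (Nat.log 2 n + 1) * (24 * (Nat.log 2 n + 1))),
      (A₀ + ∑ k, ((f + g) k : F) • A k).det ≠ 0 := by
  classical
  set l := Nat.log 2 n with hl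
  obtain ⟨C, π, hC, hπV, hπid, hπC⟩ := exists_coord_proj V' hV
  set w₀ : Fin m → F := x₀ - π x₀ with hw₀
  set M := bdiag β (A₀ + ∑ k, w₀ k • A k) with hM
  -- bases of the diagonal blocks
  have hbas : ∀ b, ∃ t : Fin (finrank F (V'.map (blockMap A β b))) → Matrix (Fin r) (Fin r) F,
      (∀ e, t e ∈ V'.map (blockMap A β b) ∧ t e ∈ {M : Matrix (Fin r) (Fin r) F | M.rank ≤ 1}) ∧
        LinearIndependent F t ∧
        Submodule.span F (Set.range t) = V'.map (blockMap A β b) := fun b =>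
    exists_basis_of_gen _ _ (hrk b)
  choose t ht hli hspan using hbas
  have hco : ∀ b, ∃ φ : Matrix (Fin r) (Fin r) F →ₗ[F] (Fin (finrank F (V'.map (blockMap A β b))) →
      F), (∀ z, φ (∑ e, z e • t b e) = z) ∧
      ∀ w ∈ Submodule.span F (Set.range (t b)), ∑ e, φ w e • t b e = w := fun b =>
    exists_coords (t b) (hli b)
  choose φ hφ1 hφ2 using hco
  have hform : ∀ b e, ∃ u v : Fin r → F, t b e = vecMulVec u v := fun b e =>
    hn_rank_one_form _ (ht b e).2
  choose u v huv using hform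
  have ht0 : ∀ b e, t b e ≠ 0 := fun b e => (hli b).ne_zero e
  have htsupp : ∀ b e i j, t b e i j ≠ 0 → β i = b ∧ β j = b := by
    intro b e i j h
    obtain ⟨y, -, hy⟩ := (ht b e).1
    by_contra hcon
    apply h
    rw [← hy]
    show (if β i = b ∧ β j = b then _ else _) = _
    rw [if_neg hcon]
  let K : Type := (b : (Finset.univ.image β : Finset ℕ)) ×
    Fin (finrank F (V'.map (blockMap A β b.1)))
  let p : K → Fin r → F := fun k => u k.1.1 k.2
  let q : K → Fin r → F := fun k => v k.1.1 k.2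
  let lab : K → ℤ := fun k => (k.1.1 : ℤ)
  let Y : (Fin m → F) →ₗ[F] (K → F) := LinearMap.pi fun k : K =>
    LinearMap.proj k.2 ∘ₗ φ k.1.1 ∘ₗ blockMap A β k.1.1 ∘ₗ π
  have hYapp : ∀ x (k : K), Y x k = φ k.1.1 (blockMap A β k.1.1 (π x)) k.2 := fun x k => rfl
  have hpq : ∀ (k : K) i j, p k i * q k j = t k.1.1 k.2 i j := by
    intro k i j
    rw [huv, vecMulVec_apply]
  have hnz : ∀ k : K, ∃ i j, t k.1.1 k.2 i j ≠ 0 := by
    intro k
    by_contra hcon
    push Not at hcon
    exact ht0 k.1.1 k.2 (Matrix.ext hcon)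
  have lp : ∀ (k : K) i, p k i ≠ 0 → ((β i : ℕ) : ℤ) = lab k := by
    intro k i h
    obtain ⟨i', j', hij⟩ := hnz k
    rw [← hpq] at hij
    have h1 := (htsupp k.1.1 k.2 i j' (by
      rw [← hpq]
      exact mul_ne_zero h (right_ne_zero_of_mul hij))).1
    show ((β i : ℕ) : ℤ) = ((k.1.1 : ℕ) : ℤ)
    rw [h1]
  have lq : ∀ (k : K) j, q k j ≠ 0 → ((β j : ℕ) : ℤ) = lab k := by
    intro k j h
    obtain ⟨i', j', hij⟩ := hnz k
    rw [← hpq] at hij
    have h1 := (htsupp k.1.1 k.2 i' j (by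
      rw [← hpq]
      exact mul_ne_zero (left_ne_zero_of_mul hij) h)).2
    show ((β j : ℕ) : ℤ) = ((k.1.1 : ℕ) : ℤ)
    rw [h1]
  have hp0 : ∀ k : K, p k ≠ 0 := by
    intro k h
    obtain ⟨i', j', hij⟩ := hnz k
    rw [← hpq, h, Pi.zero_apply, zero_mul] at hij
    exact hij rfl
  have lM : ∀ i j, M i j ≠ 0 → ((β i : ℕ) : ℤ) = ((β j : ℕ) : ℤ) := by
    intro i j h
    by_contra hcon
    apply h
    rw [hM, bdiag, Matrix.of_apply, if_neg]
    intro e
    exact hcon (by rw [e])
  have hY : ∀ (c : ℤ) (η : K → F), ∃ x, ∀ k : K, lab k = c → Y x k = η k := by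
    intro c η
    by_cases hc : ∃ b : (Finset.univ.image β : Finset ℕ), ((b.1 : ℕ) : ℤ) = c
    · obtain ⟨b, hb⟩ := hc
      have h1 : ∑ e, η ⟨b, e⟩ • t b.1 e ∈ V'.map (blockMap A β b.1) :=
        Submodule.sum_mem _ fun e _ => Submodule.smul_mem _ _ (ht b.1 e).1
      obtain ⟨x, hx, hxe⟩ := h1
      refine ⟨x, ?_⟩
      rintro ⟨b', e⟩ hk
      have hbb : b' = b := by
        apply Subtype.ext
        have h2 : ((b'.1 : ℕ) : ℤ) = c := hk
        exact_mod_cast h2.trans hb.symm
      subst hbb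
      rw [hYapp]
      show φ b'.1 (blockMap A β b'.1 (π x)) e = η ⟨b', e⟩
      rw [hπid x hx, hxe, hφ1]
    · refine ⟨0, fun k hk => ?_⟩
      exact absurd ⟨k.1, hk⟩ hc
  have hLL : ∀ x, LL p q (Y x) = bdiag β (∑ k, (π x) k • A k) := by
    intro x
    refine Matrix.ext fun i j => ?_
    rw [LL_apply, bdiag, Matrix.of_apply]
    have h1 : ∑ k : K, Y x k * (p k i * q k j) =
        ∑ b : (Finset.univ.image β : Finset ℕ), (blockMap A β b.1 (π x)) i j := by
      rw [Fintype.sum_sigma]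
      refine Finset.sum_congr rfl fun b _ => ?_
      have h2 := hφ2 b.1 (blockMap A β b.1 (π x)) (by
        rw [hspan]
        exact ⟨π x, hπV x, rfl⟩)
      conv_rhs => rw [← h2]
      rw [Matrix.sum_apply]
      refine Finset.sum_congr rfl fun e _ => ?_
      rw [Matrix.smul_apply, smul_eq_mul, hpq, hYapp]
    rw [h1, Finset.sum_coe_sort (Finset.univ.image β) fun b => (blockMap A β b (π x)) i j]
    have h3 : ∀ b, (blockMap A β b (π x)) i j =
        if β i = b ∧ β j = b then (∑ k, (π x) k • A k) i j else 0 := fun b => rfl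
    rw [Finset.sum_eq_single (β i)]
    · rw [h3]
      by_cases hij : β i = β j
      · rw [if_pos ⟨rfl, hij.symm⟩, if_pos hij]
      · rw [if_neg (fun h => hij h.2.symm), if_neg hij]
    · intro b _ hb
      rw [h3, if_neg]
      exact fun h => hb h.1.symm
    · intro h
      exact absurd (Finset.mem_image_of_mem β (Finset.mem_univ i)) h
  have hsum : ∀ y y' : Fin m → F, ∑ k, (y + y') k • A k = ∑ k, y k • A k + ∑ k, y' k • A k := by
    intro y y'
    rw [← Finset.sum_add_distrib]
    exact Finset.sum_congr rfl fun k _ => by rw [Pi.add_apply, add_smul]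
  have htri : ∀ y : Fin m → F, ∀ i j, (A₀ + ∑ k, y k • A k) i j ≠ 0 → β i ≤ β j := by
    intro y i j h
    by_cases h1 : A₀ i j = 0
    · rw [Matrix.add_apply, h1, zero_add, Matrix.sum_apply] at h
      obtain ⟨k, _, hk⟩ := Finset.exists_ne_zero_of_sum_ne_zero h
      rw [Matrix.smul_apply] at hk
      exact hA k i j (right_ne_zero_of_mul hk)
    · exact h0 i j h1
  have hdet : ∀ x, (M + LL p q (Y x)).det = (A₀ + ∑ k, (w₀ + π x) k • A k).det := by
    intro x
    rw [hLL, hM, ← bdiag_add, det_bdiag, hsum, add_assoc]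
    rw [add_assoc, ← hsum]
    exact htri _
  have hy₀ : (M + LL p q (Y x₀)).det ≠ 0 := by
    rw [hdet, hw₀, sub_add_cancel]
    exact hx₀
  obtain ⟨a, ha, x, hx, hfin⟩ := phase_final (baseF F n m s) 4 (24 * (l + 1)) (6 * (l + 1)) n
    (fun E _ _ hE => baseSet_ncApprox (T := l + 1) (Nat.succ_pos _) hs
      (Nat.lt_pow_succ_log_self (by norm_num) n).le E hE)
    (fun c h1 h2 => log_phase n c h1 h2) (pow_phase n) M p q (fun i => ((β i : ℕ) : ℤ))
    (fun i => ((β i : ℕ) : ℤ)) lab lM lp lq hp0 Y hY (by rw [Fintype.card_fin]; exact hrn)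
    (Y x₀) hy₀
  rw [hdet] at hfin
  choose a' ha' haa using ha
  obtain ⟨z, hz⟩ := (Submodule.mem_span_range_iff_exists_fun F).mp hx
  set w₁ : Fin m → F := w₀ - (x - π x) with hw₁
  have hw₁C : ∀ k, k ∉ C → w₁ k = 0 := by
    intro k hk
    rw [hw₁, Pi.sub_apply, hπC x k hk, hw₀, hπC x₀ k hk, sub_zero]
  have hxw : w₀ + π x = w₁ + x := by
    rw [hw₁]
    abel
  rw [hxw] at hfin
  -- the grid
  let N := 6 * (l + 1) * (24 * (l + 1))
  let B' : Fin N ⊕ {k // k ∈ C} → Matrix (Fin r) (Fin r) F :=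
    Sum.elim (fun i => ∑ k, a i k • A k) fun k => A k.1
  have hB' : ∀ (y : Fin N → F) (w : Fin m → F), (∀ k, k ∉ C → w k = 0) →
      ∑ o, (Sum.elim y (fun k => w k.1) : Fin N ⊕ {k // k ∈ C} → F) o • B' o =
        ∑ k, (w + ∑ i, y i • a i) k • A k := by
    intro y w hw
    rw [Fintype.sum_sum_type, hsum, add_comm]
    congr 1
    · show ∑ k : {k // k ∈ C}, w k.1 • A k.1 = _
      rw [Finset.sum_coe_sort C fun k => w k • A k, Finset.sum_subset (Finset.subset_univ C)]
      intro k _ hk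
      rw [hw k hk, zero_smul]
    · show ∑ i, y i • ∑ k, a i k • A k = _
      simp only [Finset.sum_apply, Pi.smul_apply, smul_eq_mul, Finset.sum_smul, Finset.smul_sum,
        smul_smul]
      exact Finset.sum_comm
  have hrank : r ≤ (A₀ + ∑ o, (Sum.elim z (fun k => w₁ k.1) : Fin N ⊕ {k // k ∈ C} → F) o •
      B' o).rank := by
    rw [hB' z w₁ hw₁C, hz, Matrix.rank_of_det_ne_zero hfin, Fintype.card_fin]
  obtain ⟨c', hc', hr'⟩ := exists_grid_point A₀ B' r n hrn _ hrank
  set zf : Fin m → ℕ := fun k => if hk : k ∈ C then c' (Sum.inr ⟨k, hk⟩) else 0 with hzf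
  refine ⟨∑ k ∈ C, zf k • (Pi.single k 1 : Fin m → ℕ), mem_sums_sparse hX C hC
    (fun k _ => hXe k) zf (fun k => ?_), ∑ i : Fin N, c' (Sum.inl i) • a' i,
    mem_sums.mpr ⟨a', fun i => c' (Sum.inl i), ha', fun i => hc' _, rfl⟩, ?_⟩
  · rw [hzf]
    simp only
    split_ifs
    · exact hc' _
    · exact Nat.zero_le _
  · have e1 : ∑ k, ((((∑ k ∈ C, zf k • (Pi.single k 1 : Fin m → ℕ)) +
        ∑ i : Fin N, c' (Sum.inl i) • a' i) k : ℕ) : F) • A k =
        ∑ o, (c' o : F) • B' o := by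
      have e2 : (fun o => (c' o : F)) = (Sum.elim (fun i => (c' (Sum.inl i) : F))
          (fun k : {k // k ∈ C} => ((zf k.1 : ℕ) : F)) : Fin N ⊕ {k // k ∈ C} → F) := by
        funext o
        rcases o with i | k
        · rfl
        · show ((c' (Sum.inr k) : ℕ) : F) = ((zf k.1 : ℕ) : F)
          rw [hzf]
          simp only
          rw [dif_pos k.2]
      have e3 := hB' (fun i => (c' (Sum.inl i) : F)) (fun k => ((zf k : ℕ) : F)) (by
        intro k hk
        rw [hzf]
        simp only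
        rw [dif_neg hk, Nat.cast_zero])
      have e4 : ∑ o, (c' o : F) • B' o = ∑ o, (Sum.elim (fun i => (c' (Sum.inl i) : F))
          (fun k : {k // k ∈ C} => ((zf k.1 : ℕ) : F)) : Fin N ⊕ {k // k ∈ C} → F) o • B' o :=
        Finset.sum_congr rfl fun o _ => by rw [congrFun e2 o]
      rw [e4, e3]
      refine Finset.sum_congr rfl fun k _ => ?_
      congr 1
      rw [Pi.add_apply, Pi.add_apply, Nat.cast_add]
      congr 1
      · rw [Finset.sum_apply]
        have e5 : ∀ k' ∈ C, (zf k' • (Pi.single k' 1 : Fin m → ℕ)) k =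
            if k = k' then zf k else 0 := by
          intro k' _
          rw [Pi.smul_apply, Pi.single_apply, smul_eq_mul, mul_ite, mul_one, mul_zero]
          by_cases h : k = k'
          · rw [if_pos h, if_pos h, h]
          · rw [if_neg h, if_neg h]
        rw [Finset.sum_congr rfl e5, Finset.sum_ite_eq]
        by_cases hk : k ∈ C
        · rw [if_pos hk]
        · rw [if_neg hk, hzf]
          simp only
          rw [dif_neg hk]
      · rw [Finset.sum_apply, Finset.sum_apply, Nat.cast_sum]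
        refine Finset.sum_congr rfl fun i _ => ?_
        rw [Pi.smul_apply, Pi.smul_apply, smul_eq_mul, smul_eq_mul, Nat.cast_mul, haa i]
        rfl
    rw [e1]
    obtain ⟨P, Q, hPQ⟩ := exists_minor_of_le_rank _ r hr'
    rw [Matrix.det_mul, Matrix.det_mul] at hPQ
    exact right_ne_zero_of_mul (left_ne_zero_of_mul hPQ)

end Pool.Agent.Lib.MP_64d474_lc
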