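import Mathlib

/-!
Polynomial functions of bounded degree on a vector space, defined inductively, and their basic
properties: restriction to lines, differences, divisibility by linear forms, and the fact that a
nonzero polynomial function of degree at most `r` on `K^m` does not vanish on the simplex grid.
-/

open Polynomial

namespace Pool.Agent.Lib.MP_64d474_lc

/-- `PD e f`: `f` is a polynomial function of degree at most `e`. -/
inductive PD {K V : Type*} [Field K] [AddCommGroup V] [Module K V] : ℤ → (V → K) → Prop
  | zero (e : ℤ) : PD e (fun _ => 0)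
  | const (c : K) : PD 0 (fun _ => c)
  | add {e : ℤ} {f g : V → K} : PD e f → PD e g → PD e (fun x => f x + g x)
  | mul {e : ℤ} {f : V → K} (a : V →ₗ[K] K) : PD e f → PD (e + 1) (fun x => a x * f x)
  | mono {e e' : ℤ} {f : V → K} : PD e f → e ≤ e' → PD e' f

namespace PD

variable {K V V' : Type*} [Field K] [AddCommGroup V] [Module K V] [AddCommGroup V'] [Module K V']

theorem congr {e : ℤ} {f g : V → K} (hf : PD e f) (h : ∀ x, g x = f x) : PD e g := by
  have : g = f := funext h
  rw [this]; exact hf

theorem neg_zero {e : ℤ} {f : V → K} (hf : PD e f) (he : e < 0) : ∀ x, f x = 0 := by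
  induction hf with
  | zero e => intro x; rfl
  | const c => exact absurd he (lt_irrefl 0)
  | add _ _ ihf ihg => intro x; simp only [ihf he x, ihg he x, add_zero]
  | mul a _ ih => intro x; simp only [ih (by omega) x, mul_zero]
  | mono _ h ih => exact ih (lt_of_le_of_lt h he)

theorem comp {e : ℤ} {f : V → K} (hf : PD e f) (L : V' →ₗ[K] V) : PD e (fun x => f (L x)) := by
  induction hf with
  | zero e => exact PD.zero e
  | const c => exact PD.const c
  | add _ _ ihf ihg => exact PD.add ihf ihg
  | mul a _ ih => exact PD.mul (a.comp L) ih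
  | mono _ h ih => exact PD.mono ih h

theorem smul {e : ℤ} {f : V → K} (hf : PD e f) (c : K) : PD e (fun x => c * f x) := by
  induction hf with
  | zero e => exact (PD.zero e).congr fun x => by rw [mul_zero]
  | const d => exact (PD.const (c * d)).congr fun x => rfl
  | add _ _ ihf ihg => exact (PD.add ihf ihg).congr fun x => by rw [mul_add]
  | mul a _ ih => exact (PD.mul a ih).congr fun x => by rw [mul_left_comm]
  | mono _ h ih => exact PD.mono ih h

theorem sum {ι : Type*} (s : Finset ι) {e : ℤ} {f : ι → V → K} (hf : ∀ i ∈ s, PD e (f i)) :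
    PD e (fun x => ∑ i ∈ s, f i x) := by
  classical
  induction s using Finset.induction_on with
  | empty => exact (PD.zero e).congr fun x => by rw [Finset.sum_empty]
  | insert i s hi ih =>
    refine (PD.add (hf i (Finset.mem_insert_self i s))
      (ih fun j hj => hf j (Finset.mem_insert_of_mem hj))).congr fun x => ?_
    rw [Finset.sum_insert hi]

theorem prod {ι : Type*} (s : Finset ι) (a : ι → V →ₗ[K] K) :
    PD (s.card : ℤ) (fun x => ∏ i ∈ s, a i x) := by
  classical
  induction s using Finset.induction_on with
  | empty => exact (PD.const 1).congr fun x => by rw [Finset.prod_empty]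
  | insert i s hi ih =>
    rw [Finset.card_insert_of_notMem hi]
    refine ((PD.mul (a i) ih).mono ?_).congr fun x => ?_
    · push_cast; exact le_rfl
    · rw [Finset.prod_insert hi]

/-- Expansion along a direction. -/
theorem expand {e : ℤ} {f : V → K} (hf : PD e f) (w : V) :
    ∃ G : V → K[X], (∀ h s, (G h).eval s = f (h + s • w)) ∧
      ∀ j : ℕ, PD (e - j) (fun h => (G h).coeff j) := by
  induction hf with
  | zero e =>
    exact ⟨fun _ => 0, fun h s => by rw [eval_zero], fun j =>
      (PD.zero _).congr fun x => by rw [coeff_zero]⟩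
  | const c =>
    refine ⟨fun _ => C c, fun h s => by rw [eval_C], fun j => ?_⟩
    cases j with
    | zero => exact ((PD.const c).mono (by simp)).congr fun x => by rw [coeff_C_zero]
    | succ j => exact (PD.zero _).congr fun x => by rw [coeff_C_succ]
  | add _ _ ihf ihg =>
    obtain ⟨G, hG1, hG2⟩ := ihf
    obtain ⟨G', hG1', hG2'⟩ := ihg
    exact ⟨fun h => G h + G' h, fun h s => by rw [eval_add, hG1, hG1'], fun j =>
      (PD.add (hG2 j) (hG2' j)).congr fun x => by rw [coeff_add]⟩
  | @mul e f a _ ih =>
    obtain ⟨G, hG1, hG2⟩ := ih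
    refine ⟨fun h => C (a h) * G h + C (a w) * (X * G h), fun h s => ?_, fun j => ?_⟩
    · rw [eval_add, eval_mul, eval_mul, eval_mul, eval_C, eval_C, eval_X, hG1]
      simp only [map_add, map_smul, smul_eq_mul]
      ring
    · cases j with
      | zero =>
        refine ((PD.mul a (hG2 0)).mono (by push_cast; omega)).congr fun x => ?_
        rw [coeff_add, coeff_C_mul, coeff_C_mul, mul_coeff_zero, coeff_X_zero, zero_mul, mul_zero,
          add_zero]
      | succ j =>
        refine (PD.add ((PD.mul a (hG2 (j + 1))).mono (e' := e + 1 - ((j + 1 : ℕ) : ℤ)) ?_)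
          (((hG2 j).smul (a w)).mono ?_)).congr fun x => ?_
        · push_cast; omega
        · push_cast; omega
        · rw [coeff_add, coeff_C_mul, coeff_C_mul, coeff_X_mul]
  | mono _ h ih =>
    obtain ⟨G, hG1, hG2⟩ := ih
    exact ⟨G, hG1, fun j => (hG2 j).mono (by omega)⟩

theorem line {e : ℤ} {f : V → K} (hf : PD e f) (x v : V) :
    ∃ q : K[X], ∀ s, q.eval s = f (x + s • v) := by
  obtain ⟨G, hG1, _⟩ := hf.expand v
  exact ⟨G x, fun s => hG1 x s⟩

/-- Shift. -/
theorem shift {e : ℤ} {f : V → K} (hf : PD e f) (v : V) : PD e (fun x => f (x + v)) := by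
  induction hf with
  | zero e => exact PD.zero e
  | const c => exact PD.const c
  | add _ _ ihf ihg => exact PD.add ihf ihg
  | @mul e f a _ ih =>
    refine (PD.add (PD.mul a ih) ((ih.smul (a v)).mono (by omega))).congr fun x => ?_
    simp only [map_add, add_mul]
  | mono _ h ih => exact PD.mono ih h

/-- Difference. -/
theorem diff {e : ℤ} {f : V → K} (hf : PD e f) (v : V) :
    PD (e - 1) (fun x => f (x + v) - f x) := by
  induction hf with
  | zero e => exact (PD.zero _).congr fun x => by rw [sub_zero]
  | const c => exact (PD.zero _).congr fun x => by rw [sub_self]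
  | add _ _ ihf ihg => exact (PD.add ihf ihg).congr fun x => by ring
  | @mul e f a hf ih =>
    refine (PD.add ((PD.mul a ih).mono (e' := e + 1 - 1) (by omega))
      (((hf.shift v).smul (a v)).mono (by omega))).congr fun x => ?_
    simp only [map_add]
    ring
  | mono _ h ih => exact PD.mono ih (by omega)

/-- Division by a linear form: universal identity. -/
theorem divide_aux {e : ℤ} {f : V → K} (hf : PD e f) (b : V →ₗ[K] K) (w : V) :
    ∃ q : V → K, PD (e - 1) q ∧ ∀ x, f x - f (x - b x • w) = b x * q x := by
  have hπ : ∀ x, (LinearMap.id - b.smulRight w : V →ₗ[K] V) x = x - b x • w := by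
    intro x
    rw [LinearMap.sub_apply, LinearMap.id_apply, LinearMap.smulRight_apply]
  induction hf with
  | zero e => exact ⟨fun _ => 0, PD.zero _, fun x => by rw [sub_self, mul_zero]⟩
  | const c => exact ⟨fun _ => 0, PD.zero _, fun x => by rw [sub_self, mul_zero]⟩
  | add _ _ ihf ihg =>
    obtain ⟨q, hq1, hq2⟩ := ihf
    obtain ⟨q', hq1', hq2'⟩ := ihg
    exact ⟨fun x => q x + q' x, PD.add hq1 hq1', fun x => by
      rw [mul_add, ← hq2, ← hq2']; ring⟩
  | @mul e f a hf ih =>
    obtain ⟨q, hq1, hq2⟩ := ih
    refine ⟨fun x => a x * q x + a w * f (x - b x • w), ?_, fun x => ?_⟩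
    · refine PD.add ((PD.mul a hq1).mono (by omega)) ?_
      refine (((hf.comp (LinearMap.id - b.smulRight w)).smul (a w)).mono (by omega)).congr
        fun x => ?_
      rw [hπ]
    · have h := hq2 x
      simp only [map_sub, map_smul, smul_eq_mul]
      linear_combination (a x) * h
  | mono _ h ih =>
    obtain ⟨q, hq1, hq2⟩ := ih
    exact ⟨q, hq1.mono (by omega), hq2⟩

/-- Products of polynomial functions vanish only if a factor does. -/
theorem exists_both_ne_zero [Infinite K] {e e' : ℤ} {f g : V → K} (hf : PD e f) (hg : PD e' g)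
    (E : Submodule K V) (h1 : ∃ x ∈ E, f x ≠ 0) (h2 : ∃ x ∈ E, g x ≠ 0) :
    ∃ x ∈ E, f x ≠ 0 ∧ g x ≠ 0 := by
  obtain ⟨x, hx, hfx⟩ := h1
  obtain ⟨y, hy, hgy⟩ := h2
  obtain ⟨p, hp⟩ := hf.line x (y - x)
  obtain ⟨q, hq⟩ := hg.line x (y - x)
  have hp0 : p ≠ 0 := by
    rintro rfl
    have := hp 0
    rw [eval_zero, zero_smul, add_zero] at this
    exact hfx this.symm
  have hq0 : q ≠ 0 := by
    rintro rfl
    have := hq 1
    rw [eval_zero, one_smul, add_sub_cancel] at this
    exact hgy this.symm
  have hpq : p * q ≠ 0 := mul_ne_zero hp0 hq0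
  obtain ⟨s, hs⟩ : ∃ s, (p * q).eval s ≠ 0 := by
    by_contra hcon
    push Not at hcon
    exact hpq (Polynomial.funext fun s => by rw [hcon s, eval_zero])
  rw [eval_mul] at hs
  refine ⟨x + s • (y - x), E.add_mem hx (E.smul_mem s (E.sub_mem hy hx)), ?_, ?_⟩
  · rw [← hp]; exact left_ne_zero_of_mul hs
  · rw [← hq]; exact right_ne_zero_of_mul hs

/-- The simplex grid lemma. -/
theorem exists_simplex_point [CharZero K] {m : ℕ} (r : ℕ) :
    ∀ {f : (Fin m → K) → K}, PD (r : ℤ) f → (∃ x, f x ≠ 0) →
      ∃ g : Fin m → ℕ, ∑ k, g k ≤ r ∧ f (fun k => (g k : K)) ≠ 0 := by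
  -- vanishing differences imply constancy
  have key : ∀ {e : ℤ} {f : (Fin m → K) → K}, PD e f →
      (∀ (k : Fin m) x, f (x + Pi.single k 1) - f x = 0) → ∀ x, f x = f 0 := by
    intro e f hf hper x
    have h1 : ∀ (k : Fin m) (x : Fin m → K) (s : K), f (x + s • Pi.single k 1) = f x := by
      intro k x s
      obtain ⟨q, hq⟩ := hf.line x (Pi.single k 1)
      have hnat : ∀ j : ℕ, q.eval (j : K) = f x := by
        intro j
        rw [hq]
        induction j with
        | zero => rw [Nat.cast_zero, zero_smul, add_zero]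
        | succ j ih =>
          rw [Nat.cast_succ, add_smul, one_smul, ← add_assoc]
          have := hper k (x + (j : K) • Pi.single k 1)
          rw [sub_eq_zero] at this
          rw [this, ih]
      have hqC : q - C (f x) = 0 := by
        apply Polynomial.eq_zero_of_infinite_isRoot
        refine Set.Infinite.mono ?_ (Set.infinite_range_of_injective
          (Nat.cast_injective (R := K)))
        rintro _ ⟨j, rfl⟩
        change (q - C (f x)).eval (j : K) = 0
        rw [eval_sub, hnat, eval_C, sub_self]
      rw [← hq, sub_eq_zero.mp hqC, eval_C]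
    have h2 : ∀ S : Finset (Fin m), f (∑ k ∈ S, x k • Pi.single k 1) = f 0 := by
      intro S
      induction S using Finset.induction_on with
      | empty => rw [Finset.sum_empty]
      | insert k S hk ih =>
        rw [Finset.sum_insert hk, add_comm, h1, ih]
    have h3 : ∑ k ∈ (Finset.univ : Finset (Fin m)), x k • (Pi.single k 1 : Fin m → K) = x := by
      funext j
      rw [Finset.sum_apply, Finset.sum_eq_single j]
      · rw [Pi.smul_apply, Pi.single_eq_same, smul_eq_mul, mul_one]
      · intro k _ hkj
        rw [Pi.smul_apply, Pi.single_eq_of_ne hkj.symm, smul_zero]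
      · intro h; exact absurd (Finset.mem_univ j) h
    rw [← h2 Finset.univ, h3]
  induction r with
  | zero =>
    intro f hf ⟨x, hx⟩
    refine ⟨fun _ => 0, by simp, ?_⟩
    have h := key hf (fun k x => (hf.diff (Pi.single k 1)).neg_zero (by simp) x) x
    have h0 : (fun k : Fin m => ((0 : ℕ) : K)) = 0 := by funext k; simp
    rw [h0, ← h]
    exact hx
  | succ r ih =>
    intro f hf ⟨x, hx⟩
    by_contra hcon
    push Not at hcon
    apply hx
    have hdiff : ∀ (k : Fin m) x, f (x + Pi.single k 1) - f x = 0 := by
      intro k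
      by_contra hne
      push Not at hne
      have hd : PD (r : ℤ) (fun x => f (x + Pi.single k 1) - f x) :=
        (hf.diff (Pi.single k 1)).mono (by push_cast; omega)
      obtain ⟨g, hg, hg0⟩ := ih hd hne
      apply hg0
      have e1 : ((fun j => (g j : K)) + Pi.single k 1 : Fin m → K) =
          fun j => ((g j + (Pi.single k 1 : Fin m → ℕ) j : ℕ) : K) := by
        funext j
        rw [Pi.add_apply, Nat.cast_add]
        by_cases hjk : j = k
        · subst hjk; rw [Pi.single_eq_same, Pi.single_eq_same, Nat.cast_one]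
        · rw [Pi.single_eq_of_ne hjk, Pi.single_eq_of_ne hjk, Nat.cast_zero]
      rw [e1, hcon _ ?_, hcon g (by omega), sub_zero]
      rw [Finset.sum_add_distrib, Finset.sum_pi_single']
      simp
      omega
    rw [key hf hdiff x]
    have h0 := hcon (fun _ => 0) (by simp)
    have h1 : (fun k : Fin m => ((0 : ℕ) : K)) = 0 := by funext k; simp
    rw [h1] at h0
    exact h0

end PD

end Pool.Agent.Lib.MP_64d474_lc
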