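import Mathlib
import Pool.Agent.Lib.MP_64d474_lc.PolyFun

/-!
The class `PC l c e` of polynomial functions `∑_S (∏_{i ∉ S} l_i) g_S`, with `|S| ≤ c` and
`deg g_S ≤ e + |S|`, its behaviour under expansion along a direction, and divisibility by products
of linear forms.
-/

open Polynomial

namespace Pool.Agent.Lib.MP_64d474_lc

section

variable {K V : Type*} [Field K] [AddCommGroup V] [Module K V]

/-- The class of functions `∑_S (∏_{i ∉ S} l_i) g_S`, `|S| ≤ c`, `deg g_S ≤ e + |S|`. -/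
def PC : List (V →ₗ[K] K) → ℤ → ℤ → (V → K) → Prop
  | [], c, e, f => PD e f ∧ (c < 0 → ∀ x, f x = 0)
  | a :: l, c, e, f => ∃ f1 f2 : V → K, PC l c e f1 ∧ PC l (c - 1) (e + 1) f2 ∧
      ∀ x, f x = a x * f1 x + f2 x

theorem PC.zero : ∀ (l : List (V →ₗ[K] K)) (c e : ℤ), PC l c e (fun _ => 0)
  | [], c, e => ⟨PD.zero e, fun _ _ => rfl⟩
  | a :: l, c, e => ⟨fun _ => 0, fun _ => 0, PC.zero l c e, PC.zero l _ _, fun x => by simp⟩

theorem PC.congr {l : List (V →ₗ[K] K)} {c e : ℤ} {f g : V → K} (hf : PC l c e f)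
    (h : ∀ x, g x = f x) : PC l c e g := by
  have : g = f := funext h
  rw [this]; exact hf

theorem PC.add : ∀ {l : List (V →ₗ[K] K)} {c e : ℤ} {f g : V → K}, PC l c e f → PC l c e g →
    PC l c e (fun x => f x + g x)
  | [], c, e, f, g, hf, hg => ⟨PD.add hf.1 hg.1, fun hc x => by
      show f x + g x = 0
      rw [hf.2 hc x, hg.2 hc x, add_zero]⟩
  | a :: l, c, e, f, g, ⟨f1, f2, h1, h2, h3⟩, ⟨g1, g2, k1, k2, k3⟩ =>
      ⟨fun x => f1 x + g1 x, fun x => f2 x + g2 x, PC.add h1 k1, PC.add h2 k2, fun x => by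
        show f x + g x = a x * (f1 x + g1 x) + (f2 x + g2 x)
        rw [h3, k3]; ring⟩

theorem PC.smul (s : K) : ∀ {l : List (V →ₗ[K] K)} {c e : ℤ} {f : V → K}, PC l c e f →
    PC l c e (fun x => s * f x)
  | [], c, e, f, hf => ⟨hf.1.smul s, fun hc x => by
      show s * f x = 0
      rw [hf.2 hc x, mul_zero]⟩
  | a :: l, c, e, f, ⟨f1, f2, h1, h2, h3⟩ =>
      ⟨fun x => s * f1 x, fun x => s * f2 x, PC.smul s h1, PC.smul s h2, fun x => by
        show s * f x = a x * (s * f1 x) + s * f2 x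
        rw [h3]; ring⟩

theorem PC.mono : ∀ {l : List (V →ₗ[K] K)} {c e c' e' : ℤ} {f : V → K}, PC l c e f →
    c ≤ c' → e ≤ e' → PC l c' e' f
  | [], c, e, c', e', f, hf, hc, he => ⟨hf.1.mono he, fun h x => hf.2 (lt_of_le_of_lt hc h) x⟩
  | a :: l, c, e, c', e', f, ⟨f1, f2, h1, h2, h3⟩, hc, he =>
      ⟨f1, f2, PC.mono h1 hc he, PC.mono h2 (by omega) (by omega), h3⟩

theorem PC.eq_zero : ∀ {l : List (V →ₗ[K] K)} {c e : ℤ} {f : V → K}, PC l c e f → c < 0 →
    ∀ x, f x = 0
  | [], c, e, f, hf, hc => hf.2 hc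
  | a :: l, c, e, f, ⟨f1, f2, h1, h2, h3⟩, hc => fun x => by
      rw [h3, PC.eq_zero h1 hc, PC.eq_zero h2 (by omega), mul_zero, add_zero]

theorem PC.toPD : ∀ {l : List (V →ₗ[K] K)} {c e : ℤ} {f : V → K}, PC l c e f →
    PD ((l.length : ℤ) + e) f
  | [], c, e, f, hf => hf.1.mono (by simp)
  | a :: l, c, e, f, ⟨f1, f2, h1, h2, h3⟩ => by
      refine (PD.add ((PD.mul a (PC.toPD h1)).mono ?_) ((PC.toPD h2).mono ?_)).congr h3
      · rw [List.length_cons]; push_cast; omega
      · rw [List.length_cons]; push_cast; omega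

open Classical in
/-- Number of members of a list of linear forms vanishing on `H`. -/
noncomputable def cnt (H : Submodule K V) (l : List (V →ₗ[K] K)) : ℕ :=
  l.countP (fun a => decide (∀ h ∈ H, a h = 0))

theorem cnt_cons_pos (H : Submodule K V) (a : V →ₗ[K] K) (l : List (V →ₗ[K] K))
    (h : ∀ h ∈ H, a h = 0) : cnt H (a :: l) = cnt H l + 1 := by
  unfold cnt
  rw [List.countP_cons_of_pos (by simpa using h)]

theorem cnt_cons_neg (H : Submodule K V) (a : V →ₗ[K] K) (l : List (V →ₗ[K] K))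
    (h : ¬ ∀ h ∈ H, a h = 0) : cnt H (a :: l) = cnt H l := by
  unfold cnt
  rw [List.countP_cons_of_neg (by simpa using h)]

/-- Expansion along a direction, relative to a subspace. -/
theorem PC.expand (H : Submodule K V) (w : V) :
    ∀ (l : List (V →ₗ[K] K)), ∃ (l' : List (V →ₗ[K] K)) (μ : ℕ), μ = cnt H l ∧
      (l'.length + μ = l.length) ∧ (∀ a ∈ l', a ∈ l ∧ ∃ h ∈ H, a h ≠ 0) ∧
      ∀ {c e : ℤ} {f : V → K}, PC l c e f →
        ∃ G : V → K[X], (∀ h ∈ H, ∀ s, (G h).eval s = f (h + s • w)) ∧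
          ∀ j : ℕ, PC l' (c - (μ - j)) (e + (μ - j)) (fun h => (G h).coeff j) := by
  classical
  intro l
  induction l with
  | nil =>
    refine ⟨[], 0, by simp [cnt], rfl, fun a ha => absurd ha (List.not_mem_nil), ?_⟩
    intro c e f hf
    by_cases hc : c < 0
    · refine ⟨fun _ => 0, fun h _ s => by rw [eval_zero, hf.2 hc], fun j => ?_⟩
      exact (PC.zero _ _ _).congr fun x => by rw [coeff_zero]
    · obtain ⟨G, hG1, hG2⟩ := hf.1.expand w
      refine ⟨G, fun h _ s => hG1 h s, fun j => ⟨(hG2 j).mono ?_, fun hcj => ?_⟩⟩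
      · push_cast; omega
      · push_cast at hcj; omega
  | cons a l ih =>
    obtain ⟨l', μ, hcount, hlen, hmem, hexp⟩ := ih
    by_cases ha : ∀ h ∈ H, a h = 0
    · refine ⟨l', μ + 1, by rw [cnt_cons_pos H a l ha, hcount], by rw [List.length_cons]; omega,
        fun b hb => ⟨List.mem_cons_of_mem a (hmem b hb).1, (hmem b hb).2⟩, ?_⟩
      · intro c e f ⟨f1, f2, h1, h2, h3⟩
        obtain ⟨G1, hG1, hG1'⟩ := hexp h1
        obtain ⟨G2, hG2, hG2'⟩ := hexp h2
        refine ⟨fun h => C (a w) * (X * G1 h) + G2 h, fun h hh s => ?_, fun j => ?_⟩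
        · rw [eval_add, eval_mul, eval_mul, eval_C, eval_X, hG1 h hh, hG2 h hh, h3, map_add,
            map_smul, smul_eq_mul, ha h hh]
          ring
        · cases j with
          | zero =>
            refine ((hG2' 0).mono ?_ ?_).congr fun x => ?_
            · push_cast; omega
            · push_cast; omega
            · rw [coeff_add, coeff_C_mul, mul_coeff_zero, coeff_X_zero, zero_mul, mul_zero,
                zero_add]
          | succ j =>
            refine (PC.add (((hG1' j).smul (a w)).mono ?_ ?_) ((hG2' (j + 1)).mono ?_ ?_)).congr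
              fun x => ?_
            · push_cast; omega
            · push_cast; omega
            · push_cast; omega
            · push_cast; omega
            · rw [coeff_add, coeff_C_mul, coeff_X_mul]
    · refine ⟨a :: l', μ, by rw [cnt_cons_neg H a l ha, hcount],
        by rw [List.length_cons, List.length_cons]; omega, fun b hb => ?_, ?_⟩
      · rcases List.mem_cons.mp hb with rfl | hb
        · refine ⟨List.mem_cons_self, ?_⟩
          push Not at ha
          exact ha
        · exact ⟨List.mem_cons_of_mem a (hmem b hb).1, (hmem b hb).2⟩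
      · intro c e f ⟨f1, f2, h1, h2, h3⟩
        obtain ⟨G1, hG1, hG1'⟩ := hexp h1
        obtain ⟨G2, hG2, hG2'⟩ := hexp h2
        refine ⟨fun h => C (a h) * G1 h + (C (a w) * (X * G1 h) + G2 h), fun h hh s => ?_,
          fun j => ?_⟩
        · rw [eval_add, eval_add, eval_mul, eval_mul, eval_mul, eval_C, eval_C, eval_X, hG1 h hh,
            hG2 h hh, h3, map_add, map_smul, smul_eq_mul]
          ring
        · cases j with
          | zero =>
            refine ⟨fun h => (G1 h).coeff 0, fun h => (G2 h).coeff 0, hG1' 0,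
              (hG2' 0).mono ?_ ?_, fun x => ?_⟩
            · push_cast; omega
            · push_cast; omega
            · show (C (a x) * G1 x + (C (a w) * (X * G1 x) + G2 x)).coeff 0 = _
              rw [coeff_add, coeff_add, coeff_C_mul, coeff_C_mul, mul_coeff_zero, coeff_X_zero,
                zero_mul, mul_zero, zero_add]
          | succ j =>
            refine ⟨fun h => (G1 h).coeff (j + 1),
              fun h => a w * (G1 h).coeff j + (G2 h).coeff (j + 1), hG1' (j + 1),
              PC.add (((hG1' j).smul (a w)).mono ?_ ?_) ((hG2' (j + 1)).mono ?_ ?_), fun x => ?_⟩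
            · push_cast; omega
            · push_cast; omega
            · push_cast; omega
            · push_cast; omega
            · show (C (a x) * G1 x + (C (a w) * (X * G1 x) + G2 x)).coeff (j + 1) = _
              rw [coeff_add, coeff_add, coeff_C_mul, coeff_C_mul, coeff_X_mul]

/-- Division by a linear form on a subspace. -/
theorem PD.divide {e : ℤ} {f : V → K} (hf : PD e f) (E : Submodule K V) (b : V →ₗ[K] K) (w : V)
    (hw : w ∈ E) (hbw : b w = 1) (h0 : ∀ x ∈ E, b x = 0 → f x = 0) :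
    ∃ q : V → K, PD (e - 1) q ∧ ∀ x ∈ E, f x = b x * q x := by
  obtain ⟨q, hq1, hq2⟩ := hf.divide_aux b w
  refine ⟨q, hq1, fun x hx => ?_⟩
  rw [← hq2 x, h0 (x - b x • w) (E.sub_mem hx (E.smul_mem _ hw)), sub_zero]
  rw [map_sub, map_smul, smul_eq_mul, hbw, mul_one, sub_self]

/-- Divisibility by a power of a linear form on a subspace. -/
def DivE (E : Submodule K V) (b : V →ₗ[K] K) (μ : ℕ) (f : V → K) : Prop :=
  ∃ (q : V → K) (e : ℤ), PD e q ∧ ∀ x ∈ E, f x = b x ^ μ * q x

/-- Exact valuation. -/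
theorem PD.valuation {e : ℤ} {f : V → K} (hf : PD e f) (E : Submodule K V) (b : V →ₗ[K] K)
    (w : V) (hw : w ∈ E) (hbw : b w = 1) (μ : ℕ) :
    DivE E b μ f ∨ ∃ v < μ, ∃ (q : V → K) (e : ℤ), PD e q ∧ (∀ x ∈ E, f x = b x ^ v * q x) ∧
      ∃ h ∈ E, b h = 0 ∧ q h ≠ 0 := by
  induction μ with
  | zero => exact Or.inl ⟨f, e, hf, fun x _ => by rw [pow_zero, one_mul]⟩
  | succ μ ih =>
    rcases ih with ⟨q, e', hq, hqf⟩ | ⟨v, hv, hrest⟩
    · by_cases h0 : ∀ x ∈ E, b x = 0 → q x = 0
      · obtain ⟨q', hq', hqq⟩ := hq.divide E b w hw hbw h0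
        refine Or.inl ⟨q', _, hq', fun x hx => ?_⟩
        rw [hqf x hx, hqq x hx, pow_succ]
        ring
      · push Not at h0
        obtain ⟨h, hh, hbh, hqh⟩ := h0
        exact Or.inr ⟨μ, Nat.lt_succ_self μ, q, e', hq, hqf, h, hh, hbh, hqh⟩
    · exact Or.inr ⟨v, hv.trans (Nat.lt_succ_self μ), hrest⟩

/-- Comparison of orders of vanishing. -/
theorem order_contradiction [Infinite K] {P Q : K[X]} {v μ : ℕ} (hv : v < μ) (hP : P.eval 0 ≠ 0)
    (h : ∀ s : K, s ^ v * P.eval s = s ^ μ * Q.eval s) : False := by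
  have h1 : X ^ v * P = X ^ μ * Q := by
    apply Polynomial.funext
    intro s
    rw [eval_mul, eval_mul, eval_pow, eval_pow, eval_X, h s]
  obtain ⟨k, rfl⟩ := Nat.exists_eq_add_of_lt hv
  have h2 : P = X ^ (k + 1) * Q := by
    have hX : (X ^ v : K[X]) ≠ 0 := pow_ne_zero _ X_ne_zero
    apply mul_left_cancel₀ hX
    rw [h1, ← mul_assoc, ← pow_add, add_assoc]
  apply hP
  rw [h2, eval_mul, eval_pow, eval_X, zero_pow (Nat.succ_ne_zero k), zero_mul]

/-- Removing one factor. -/
theorem DivE.of_mul [Infinite K] {E : Submodule K V} {a b : V →ₗ[K] K} {f f' : V → K} {e' : ℤ}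
    (hf' : PD e' f') (ha : ∃ w ∈ E, a w = 1) (hb : ∃ x ∈ E, b x ≠ 0)
    (hff : ∀ x ∈ E, f x = b x * f' x) (μ : ℕ)
    (h1 : (∃ h ∈ E, a h = 0 ∧ b h ≠ 0) → DivE E a μ f)
    (h2 : (∀ h ∈ E, a h = 0 → b h = 0) → DivE E a (μ + 1) f) : DivE E a μ f' := by
  obtain ⟨w, hw, haw⟩ := ha
  rcases hf'.valuation E a w hw haw μ with h | ⟨v, hv, q, e, hq, hqf, h, hh, hah, hqh⟩
  · exact h
  exfalso
  by_cases hcase : ∀ h ∈ E, a h = 0 → b h = 0
  · obtain ⟨q2, e2, hq2, hqf2⟩ := h2 hcase
    -- b = b w * a on E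
    have hba : ∀ x ∈ E, b x = b w * a x := by
      intro x hx
      have h3 := hcase (x - a x • w) (E.sub_mem hx (E.smul_mem _ hw)) (by
        rw [map_sub, map_smul, smul_eq_mul, haw, mul_one, sub_self])
      rw [map_sub, map_smul, smul_eq_mul, sub_eq_zero] at h3
      rw [h3, mul_comm]
    have hbw : b w ≠ 0 := by
      obtain ⟨x, hx, hbx⟩ := hb
      intro h0
      apply hbx
      rw [hba x hx, h0, zero_mul]
    obtain ⟨P, hP⟩ := hq.line h w
    obtain ⟨Q, hQ⟩ := hq2.line h w
    apply order_contradiction (P := C (b w) * P) (Q := Q) (v := v + 1) (μ := μ + 1) (by omega)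
    · rw [eval_mul, eval_C, hP, zero_smul, add_zero]
      exact mul_ne_zero hbw hqh
    · intro s
      have hx : h + s • w ∈ E := E.add_mem hh (E.smul_mem s hw)
      have hax : a (h + s • w) = s := by
        rw [map_add, map_smul, smul_eq_mul, haw, hah, zero_add, mul_one]
      have e1 := hqf2 _ hx
      rw [hff _ hx, hqf _ hx, hba _ hx, hax] at e1
      rw [eval_mul, eval_C, hP, hQ, ← e1]
      ring
  · push Not at hcase
    obtain ⟨q2, e2, hq2, hqf2⟩ := h1 (by
      obtain ⟨h, hh, h3, h4⟩ := hcase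
      exact ⟨h, hh, h3, h4⟩)
    obtain ⟨y, hy, hay, hby⟩ := hcase
    obtain ⟨z, hz, hqz, hbz⟩ := PD.exists_both_ne_zero hq
      ((PD.mul b (PD.const 1)).congr (g := fun x => b x) fun x => by simp)
      (E ⊓ LinearMap.ker a) ⟨h, ⟨hh, LinearMap.mem_ker.mpr hah⟩, hqh⟩
      ⟨y, ⟨hy, LinearMap.mem_ker.mpr hay⟩, hby⟩
    obtain ⟨P, hP⟩ := hq.line z w
    obtain ⟨Q, hQ⟩ := hq2.line z w
    have haz : a z = 0 := LinearMap.mem_ker.mp hz.2
    apply order_contradiction (P := (C (b z) + C (b w) * X) * P) (Q := Q) hv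
    · rw [eval_mul, eval_add, eval_mul, eval_C, eval_C, eval_X, mul_zero, add_zero, hP, zero_smul,
        add_zero]
      exact mul_ne_zero hbz hqz
    · intro s
      have hx : z + s • w ∈ E := E.add_mem hz.1 (E.smul_mem s hw)
      have hax : a (z + s • w) = s := by
        rw [map_add, map_smul, smul_eq_mul, haw, haz, zero_add, mul_one]
      have e1 := hqf2 _ hx
      rw [hff _ hx, hqf _ hx, hax] at e1
      rw [eval_mul, eval_add, eval_mul, eval_C, eval_C, eval_X, hP, hQ, ← e1]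
      rw [map_add, map_smul, smul_eq_mul]
      ring

/-- Division by a product of linear forms. -/
theorem PD.divide_list [Infinite K] (E : Submodule K V) :
    ∀ (l : List (V →ₗ[K] K)) {e : ℤ} {f : V → K}, PD e f → (∀ a ∈ l, ∃ x ∈ E, a x ≠ 0) →
      (∀ b ∈ l, DivE E b (cnt (E ⊓ LinearMap.ker b) l) f) →
      ∃ p : V → K, PD (e - l.length) p ∧ ∀ x ∈ E, f x = (l.map fun a => a x).prod * p x := by
  intro l
  induction l with
  | nil =>
    intro e f hf _ _
    exact ⟨f, hf.mono (by simp), fun x _ => by simp⟩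
  | cons b l ih =>
    intro e f hf hne hdiv
    have hnorm : ∀ a ∈ b :: l, ∃ w ∈ E, a w = 1 := by
      intro a ha
      obtain ⟨x, hx, hax⟩ := hne a ha
      exact ⟨(a x)⁻¹ • x, E.smul_mem _ hx, by rw [map_smul, smul_eq_mul, inv_mul_cancel₀ hax]⟩
    obtain ⟨w, hw, hbw⟩ := hnorm b List.mem_cons_self
    have hvan : ∀ x ∈ E, b x = 0 → f x = 0 := by
      intro x hx hbx
      obtain ⟨q, e', hq, hqf⟩ := hdiv b List.mem_cons_self
      rw [hqf x hx, hbx, zero_pow, zero_mul]
      rw [cnt_cons_pos (E ⊓ LinearMap.ker b) b l fun h hh => LinearMap.mem_ker.mp hh.2]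
      exact Nat.succ_ne_zero _
    obtain ⟨f', hf', hff⟩ := hf.divide E b w hw hbw hvan
    obtain ⟨p, hp, hpf⟩ := ih hf' (fun a ha => hne a (List.mem_cons_of_mem b ha)) (by
      intro a ha
      apply DivE.of_mul hf' (hnorm a (List.mem_cons_of_mem b ha)) (hne b List.mem_cons_self) hff
      · rintro ⟨h, hh, hah, hbh⟩
        have := hdiv a (List.mem_cons_of_mem b ha)
        rw [cnt_cons_neg] at this
        · exact this
        · push Not
          exact ⟨h, ⟨hh, LinearMap.mem_ker.mpr hah⟩, hbh⟩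
      · intro hab
        have := hdiv a (List.mem_cons_of_mem b ha)
        rw [cnt_cons_pos] at this
        · exact this
        · intro h hh
          exact hab h hh.1 (LinearMap.mem_ker.mp hh.2))
    refine ⟨p, hp.mono ?_, fun x hx => ?_⟩
    · rw [List.length_cons]; push_cast; omega
    · rw [hff x hx, hpf x hx, List.map_cons, List.prod_cons, mul_assoc]

end

end Pool.Agent.Lib.MP_64d474_lc
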