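import Mathlib
import Pool.Agent.Lib.MP_64d474_lc.PolyClass

/-!
Structure theorem for the class `PC l c e`, and the resulting explicit test points.
-/

open Polynomial

namespace Pool.Agent.Lib.MP_64d474_lc

section

variable {K V : Type*} [Field K] [AddCommGroup V] [Module K V]

/-- Independence of a list of linear forms on a subspace. -/
def Ind : Submodule K V → List (V →ₗ[K] K) → Prop
  | _, [] => True
  | W, b :: bs => (∃ x ∈ W, b x ≠ 0) ∧ Ind (W ⊓ LinearMap.ker b) bs

theorem Ind.mono : ∀ {bs : List (V →ₗ[K] K)} {W W' : Submodule K V}, Ind W bs → W ≤ W' →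
    Ind W' bs
  | [], _, _, _, _ => trivial
  | _ :: _, _, _, ⟨⟨x, hx, hbx⟩, h2⟩, hle =>
      ⟨⟨x, hle hx, hbx⟩, Ind.mono h2 (inf_le_inf_right _ hle)⟩

theorem PC.structure [Infinite K] (c : ℕ) :
    ∀ (c' : ℤ), c' < c → ∀ (E : Submodule K V) (l : List (V →ₗ[K] K)) (e : ℤ) (f : V → K),
      PC l c' e f → (∃ x ∈ E, f x ≠ 0) → (∀ a ∈ l, ∃ x ∈ E, a x ≠ 0) →
      ∃ (bs l' : List (V →ₗ[K] K)) (p : V → K), (bs.length : ℤ) ≤ c' ∧ l'.length ≤ l.length ∧
        PD (e + c') p ∧ Ind E bs ∧ (∃ x ∈ E, (∀ b ∈ bs, b x = 0) ∧ p x ≠ 0) ∧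
        (∀ a ∈ l', ∃ x ∈ E, (∀ b ∈ bs, b x = 0) ∧ a x ≠ 0) ∧
        ∀ W : Submodule K V, W ≤ E → Ind W bs →
          (∃ x ∈ W, (∀ b ∈ bs, b x = 0) ∧ p x ≠ 0 ∧ ∀ a ∈ l', a x ≠ 0) → ∃ x ∈ W, f x ≠ 0 := by
  induction c with
  | zero =>
    intro c' hc' E l e f hf ⟨x, _, hx⟩
    exact absurd (hf.eq_zero (by exact_mod_cast hc') x) hx
  | succ c ih =>
    intro c' hc' E l e f hf hne hl
    have hc0 : 0 ≤ c' := by
      by_contra hcon
      obtain ⟨x, _, hx⟩ := hne
      exact hx (hf.eq_zero (by omega) x)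
    by_cases hall : ∀ b ∈ l, DivE E b (cnt (E ⊓ LinearMap.ker b) l) f
    · obtain ⟨p, hp, hpf⟩ := PD.divide_list E l hf.toPD hl hall
      refine ⟨[], l, p, by simpa using hc0, le_rfl, hp.mono (by omega), trivial, ?_, ?_, ?_⟩
      · obtain ⟨x, hx, hfx⟩ := hne
        refine ⟨x, hx, fun b hb => absurd hb List.not_mem_nil, ?_⟩
        rw [hpf x hx] at hfx
        exact right_ne_zero_of_mul hfx
      · intro a ha
        obtain ⟨x, hx, hax⟩ := hl a ha
        exact ⟨x, hx, fun b hb => absurd hb List.not_mem_nil, hax⟩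
      · intro W hW _ ⟨x, hx, _, hpx, hax⟩
        refine ⟨x, hx, ?_⟩
        rw [hpf x (hW hx)]
        refine mul_ne_zero (List.prod_ne_zero ?_) hpx
        intro h0
        obtain ⟨a, ha, ha0⟩ := List.mem_map.mp h0
        exact hax a ha ha0
    · push Not at hall
      obtain ⟨b, hb, hndiv⟩ := hall
      obtain ⟨x0, hx0, hbx0⟩ := hl b hb
      have hw : (b x0)⁻¹ • x0 ∈ E := E.smul_mem _ hx0
      have hbw : b ((b x0)⁻¹ • x0) = 1 := by
        rw [map_smul, smul_eq_mul, inv_mul_cancel₀ hbx0]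
      set w := (b x0)⁻¹ • x0
      rcases hf.toPD.valuation E b w hw hbw (cnt (E ⊓ LinearMap.ker b) l) with
        h | ⟨v, hv, q, e2, hq, hqf, h, hh, hbh, hqh⟩
      · exact absurd h hndiv
      obtain ⟨l1, μ, hμ, hlen, hmem, hexp⟩ := PC.expand (E ⊓ LinearMap.ker b) w l
      obtain ⟨G, hG1, hG2⟩ := hexp hf
      rw [← hμ] at hv
      have hcoef : ∀ y ∈ E ⊓ LinearMap.ker b, (G y).coeff v = q y := by
        intro y hy
        have hby : b y = 0 := LinearMap.mem_ker.mp hy.2
        obtain ⟨Q, hQ⟩ := hq.line y w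
        have hGQ : G y = X ^ v * Q := by
          apply Polynomial.funext
          intro s
          rw [hG1 y hy, hqf _ (E.add_mem hy.1 (E.smul_mem s hw)), map_add, map_smul, hby, hbw,
            smul_eq_mul, mul_one, zero_add, eval_mul, eval_pow, eval_X, hQ]
        have h1 : (X ^ v * Q).coeff v = Q.coeff 0 := by
          have := coeff_X_pow_mul Q v 0
          rwa [zero_add] at this
        rw [hGQ, h1, coeff_zero_eq_eval_zero, hQ, zero_smul, add_zero]
      obtain ⟨bs, l', p, hbs, hl', hp, hind, hpn, han, hmain⟩ := ih (c' - (μ - v)) (by omega)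
        (E ⊓ LinearMap.ker b) l1 (e + (μ - v)) (fun y => (G y).coeff v) (hG2 v)
        ⟨h, ⟨hh, LinearMap.mem_ker.mpr hbh⟩, by
          show (G h).coeff v ≠ 0
          rw [hcoef h ⟨hh, LinearMap.mem_ker.mpr hbh⟩]; exact hqh⟩
        (fun a ha => (hmem a ha).2)
      refine ⟨b :: bs, l', p, ?_, by omega, hp.mono (by omega), ⟨⟨x0, hx0, hbx0⟩, hind⟩, ?_, ?_,
        ?_⟩
      · rw [List.length_cons]; push_cast; omega
      · obtain ⟨x, hx, hbx, hpx⟩ := hpn
        refine ⟨x, hx.1, fun b' hb' => ?_, hpx⟩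
        rcases List.mem_cons.mp hb' with rfl | hb'
        · exact LinearMap.mem_ker.mp hx.2
        · exact hbx b' hb'
      · intro a ha
        obtain ⟨x, hx, hbx, hax⟩ := han a ha
        refine ⟨x, hx.1, fun b' hb' => ?_, hax⟩
        rcases List.mem_cons.mp hb' with rfl | hb'
        · exact LinearMap.mem_ker.mp hx.2
        · exact hbx b' hb'
      · intro W hW ⟨⟨z, hz, hbz⟩, hind'⟩ ⟨x, hx, hbx, hpx, hax⟩
        have hxb : b x = 0 := hbx b List.mem_cons_self
        obtain ⟨y, hy, hfy⟩ := hmain (W ⊓ LinearMap.ker b) (inf_le_inf_right _ hW) hind'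
          ⟨x, ⟨hx, LinearMap.mem_ker.mpr hxb⟩, fun b' hb' =>
            hbx b' (List.mem_cons_of_mem b hb'), hpx, hax⟩
        have hqy : q y ≠ 0 := by
          rw [← hcoef y ⟨hW hy.1, hy.2⟩]; exact hfy
        have hby : b y = 0 := LinearMap.mem_ker.mp hy.2
        obtain ⟨Q, hQ⟩ := hq.line y z
        have hQ0 : X * Q ≠ 0 := by
          apply mul_ne_zero X_ne_zero
          rintro rfl
          apply hqy
          have := hQ 0
          rw [eval_zero, zero_smul, add_zero] at this
          exact this.symm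
        obtain ⟨s, hs⟩ : ∃ s, (X * Q).eval s ≠ 0 := by
          by_contra hcon
          push Not at hcon
          exact hQ0 (Polynomial.funext fun s => by rw [hcon s, eval_zero])
        rw [eval_mul, eval_X, hQ] at hs
        have hmemW : y + s • z ∈ W := W.add_mem hy.1 (W.smul_mem s hz)
        refine ⟨y + s • z, hmemW, ?_⟩
        rw [hqf _ (hW hmemW), map_add, map_smul, hby, zero_add, smul_eq_mul]
        exact mul_ne_zero (pow_ne_zero _ (mul_ne_zero (left_ne_zero_of_mul hs) hbz))
          (right_ne_zero_of_mul hs)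

/-- Selection of few spanning vectors and the associated projection. -/
theorem Ind.exists_selection {ι : Type*} :
    ∀ (bs : List (V →ₗ[K] K)) (γ : ι → V), Ind (Submodule.span K (Set.range γ)) bs →
      ∃ (ss : List ι) (π : V →ₗ[K] V), ss.length = bs.length ∧ (∀ x, ∀ b ∈ bs, b (π x) = 0) ∧
        (∀ x, (∀ b ∈ bs, b x = 0) → π x = x) ∧
        (∀ x, x - π x ∈ Submodule.span K (γ '' {s | s ∈ ss})) ∧
        Ind (Submodule.span K (γ '' {s | s ∈ ss})) bs
  | [], γ, _ => ⟨[], LinearMap.id, rfl, fun x b hb => absurd hb List.not_mem_nil,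
      fun x _ => rfl, fun x => by
        rw [LinearMap.id_apply, sub_self]; exact Submodule.zero_mem _, trivial⟩
  | b :: bs, γ, ⟨⟨x0, hx0, hbx0⟩, hind⟩ => by
      have hs1 : ∃ s, b (γ s) ≠ 0 := by
        by_contra hcon
        push Not at hcon
        apply hbx0
        have hle : Submodule.span K (Set.range γ) ≤ LinearMap.ker b := by
          rw [Submodule.span_le]
          rintro _ ⟨s, rfl⟩
          exact LinearMap.mem_ker.mpr (hcon s)
        exact LinearMap.mem_ker.mp (hle hx0)
      obtain ⟨s1, hs1⟩ := hs1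
      set π1 : V →ₗ[K] V := LinearMap.id - b.smulRight ((b (γ s1))⁻¹ • γ s1) with hπ1
      have hπ1a : ∀ x, π1 x = x - b x • ((b (γ s1))⁻¹ • γ s1) := by
        intro x
        rw [hπ1, LinearMap.sub_apply, LinearMap.id_apply, LinearMap.smulRight_apply]
      have hbπ1 : ∀ x, b (π1 x) = 0 := by
        intro x
        rw [hπ1a, map_sub, map_smul, map_smul, smul_eq_mul, smul_eq_mul, inv_mul_cancel₀ hs1,
          mul_one, sub_self]
      have hπ1id : ∀ x, b x = 0 → π1 x = x := by
        intro x hx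
        rw [hπ1a, hx, zero_smul, sub_zero]
      have hle : Submodule.span K (Set.range γ) ⊓ LinearMap.ker b ≤
          Submodule.span K (Set.range fun s => π1 (γ s)) := by
        intro x hx
        have h1 : π1 x = x := hπ1id x (LinearMap.mem_ker.mp hx.2)
        have h2 : π1 x ∈ (Submodule.span K (Set.range γ)).map π1 :=
          Submodule.mem_map_of_mem hx.1
        rw [Submodule.map_span, h1] at h2
        refine Submodule.span_mono ?_ h2
        rintro _ ⟨_, ⟨s, rfl⟩, rfl⟩
        exact ⟨s, rfl⟩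
      obtain ⟨ss, π, hlen, hker, hid, hsub, hind2⟩ :=
        Ind.exists_selection bs (fun s => π1 (γ s)) (hind.mono hle)
      -- the span of the projected vectors is contained in the span of the vectors
      have hspan : Submodule.span K ((fun s => π1 (γ s)) '' {s | s ∈ ss}) ≤
          Submodule.span K (γ '' {s | s ∈ s1 :: ss}) ⊓ LinearMap.ker b := by
        rw [Submodule.span_le]
        rintro _ ⟨s, hs, rfl⟩
        refine ⟨?_, LinearMap.mem_ker.mpr (hbπ1 _)⟩
        show π1 (γ s) ∈ Submodule.span K (γ '' {s | s ∈ s1 :: ss})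
        rw [hπ1a]
        refine Submodule.sub_mem _ (Submodule.subset_span ⟨s, List.mem_cons_of_mem s1 hs, rfl⟩)
          (Submodule.smul_mem _ _ (Submodule.smul_mem _ _
            (Submodule.subset_span ⟨s1, List.mem_cons_self, rfl⟩)))
      refine ⟨s1 :: ss, π.comp π1, by rw [List.length_cons, List.length_cons, hlen], ?_, ?_, ?_,
        ⟨⟨γ s1, Submodule.subset_span ⟨s1, List.mem_cons_self, rfl⟩, hs1⟩, hind2.mono hspan⟩⟩
      · intro x b' hb'
        rcases List.mem_cons.mp hb' with rfl | hb'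
        · rw [LinearMap.comp_apply]
          have h1 := hspan (hsub (π1 x))
          have h2 : b' (π1 x - π (π1 x)) = 0 := LinearMap.mem_ker.mp h1.2
          rw [map_sub, hbπ1, zero_sub, neg_eq_zero] at h2
          exact h2
        · exact hker (π1 x) b' hb'
      · intro x hx
        rw [LinearMap.comp_apply, hπ1id x (hx b List.mem_cons_self)]
        exact hid x fun b' hb' => hx b' (List.mem_cons_of_mem b hb')
      · intro x
        rw [LinearMap.comp_apply]
        have h1 := (hspan (hsub (π1 x))).1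
        have h2 : x - π1 x ∈ Submodule.span K (γ '' {s | s ∈ s1 :: ss}) := by
          rw [hπ1a, sub_sub_cancel]
          exact Submodule.smul_mem _ _ (Submodule.smul_mem _ _
            (Submodule.subset_span ⟨s1, List.mem_cons_self, rfl⟩))
        have := Submodule.add_mem _ h2 h1
        rwa [sub_add_sub_cancel] at this

end

end Pool.Agent.Lib.MP_64d474_lc
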