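import Mathlib
import Pool.Agent.Lib.MP_64d474_lc.PolyMain

/-!
Explicit test points for functions of the class `PC l r 0` on `K^m`.
-/

open Polynomial

namespace Pool.Agent.Lib.MP_64d474_lc

section

variable {K : Type*} [Field K]

/-- The moment curve. -/
def mc (K : Type*) [Field K] (m : ℕ) (s : ℕ) : Fin m → K := fun k => (s : K) ^ (k : ℕ)

theorem exists_nat_nonroot [CharZero K] (P : K[X]) (hP : P ≠ 0) (N : ℕ) (h : P.natDegree ≤ N) :
    ∃ s ≤ N, P.eval (s : K) ≠ 0 := by
  classical
  by_contra hcon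
  push Not at hcon
  apply hP
  apply Polynomial.eq_zero_of_natDegree_lt_card_of_eval_eq_zero' P
    ((Finset.range (N + 1)).image (fun s : ℕ => (s : K)))
  · intro x hx
    obtain ⟨s, hs, rfl⟩ := Finset.mem_image.mp hx
    exact hcon s (by rw [Finset.mem_range] at hs; omega)
  · rw [Finset.card_image_of_injective _ Nat.cast_injective, Finset.card_range]
    omega

/-- The polynomial of a linear form along the moment curve. -/
noncomputable def mcPoly {m : ℕ} (φ : (Fin m → K) →ₗ[K] K) : K[X] :=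
  ∑ k : Fin m, C (φ (Pi.single k 1)) * X ^ (k : ℕ)

theorem linear_apply {m : ℕ} (φ : (Fin m → K) →ₗ[K] K) (x : Fin m → K) :
    φ x = ∑ k, x k * φ (Pi.single k 1) := by
  have h3 : ∑ k, x k • (Pi.single k 1 : Fin m → K) = x := by
    funext j
    rw [Finset.sum_apply, Finset.sum_eq_single j]
    · rw [Pi.smul_apply, Pi.single_eq_same, smul_eq_mul, mul_one]
    · intro k _ hkj
      rw [Pi.smul_apply, Pi.single_eq_of_ne hkj.symm, smul_zero]
    · intro h; exact absurd (Finset.mem_univ j) h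
  conv_lhs => rw [← h3]
  rw [map_sum]
  refine Finset.sum_congr rfl fun k _ => ?_
  rw [map_smul, smul_eq_mul]

theorem mcPoly_eval {m : ℕ} (φ : (Fin m → K) →ₗ[K] K) (s : ℕ) :
    (mcPoly φ).eval (s : K) = φ (mc K m s) := by
  rw [mcPoly, eval_finsetSum, linear_apply]
  refine Finset.sum_congr rfl fun k _ => ?_
  rw [eval_mul, eval_C, eval_pow, eval_X, mc, mul_comm]

theorem mcPoly_natDegree {m : ℕ} (φ : (Fin m → K) →ₗ[K] K) : (mcPoly φ).natDegree ≤ m - 1 := by
  rw [mcPoly]
  refine Polynomial.natDegree_sum_le_of_forall_le _ _ fun k _ => ?_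
  refine (natDegree_C_mul_X_pow_le _ _).trans ?_
  have := k.2
  omega

theorem mcPoly_coeff {m : ℕ} (φ : (Fin m → K) →ₗ[K] K) (k : Fin m) :
    (mcPoly φ).coeff k = φ (Pi.single k 1) := by
  rw [mcPoly, finsetSum_coeff, Finset.sum_eq_single k]
  · rw [coeff_C_mul, coeff_X_pow_self, mul_one]
  · intro j _ hj
    rw [coeff_C_mul, coeff_X_pow, if_neg, mul_zero]
    intro h
    exact hj (Fin.ext h.symm)
  · intro h; exact absurd (Finset.mem_univ k) h

theorem mcPoly_ne_zero {m : ℕ} (φ : (Fin m → K) →ₗ[K] K) (hφ : φ ≠ 0) : mcPoly φ ≠ 0 := by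
  intro h
  apply hφ
  refine LinearMap.ext fun x => ?_
  rw [linear_apply, LinearMap.zero_apply]
  refine Finset.sum_eq_zero fun k _ => ?_
  rw [← mcPoly_coeff, h, coeff_zero, mul_zero]

theorem span_mc [CharZero K] (m : ℕ) :
    Submodule.span K (Set.range (fun s : Fin m => mc K m s)) = ⊤ := by
  have hli : LinearIndependent K (fun s : Fin m => mc K m s) := by
    have h1 : (Matrix.vandermonde (fun s : Fin m => ((s : ℕ) : K))).det ≠ 0 := by
      rw [Matrix.det_vandermonde_ne_zero_iff]
      intro a b hab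
      exact Fin.ext (Nat.cast_injective hab)
    exact Matrix.linearIndependent_rows_of_det_ne_zero h1
  apply hli.span_eq_top_of_card_eq_finrank'
  rw [Fintype.card_fin, Module.finrank_fin_fun]

theorem exists_mc_ne [CharZero K] {m : ℕ} (L : List ((Fin m → K) →ₗ[K] K))
    (hL : ∀ φ ∈ L, φ ≠ 0) : ∃ s ≤ L.length * (m - 1), ∀ φ ∈ L, φ (mc K m s) ≠ 0 := by
  have h0 : (L.map mcPoly).prod ≠ 0 := by
    apply List.prod_ne_zero
    intro h
    obtain ⟨φ, hφ, h1⟩ := List.mem_map.mp h
    exact mcPoly_ne_zero φ (hL φ hφ) h1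
  have hdeg : ∀ L : List ((Fin m → K) →ₗ[K] K),
      (L.map mcPoly).prod.natDegree ≤ L.length * (m - 1) := by
    intro L
    induction L with
    | nil => simp
    | cons a L ih =>
      rw [List.map_cons, List.prod_cons, List.length_cons]
      refine natDegree_mul_le.trans ?_
      have := mcPoly_natDegree a
      calc _ ≤ (m - 1) + L.length * (m - 1) := add_le_add this ih
        _ = (L.length + 1) * (m - 1) := by ring
  obtain ⟨s, hs, hs0⟩ := exists_nat_nonroot _ h0 _ (hdeg L)
  refine ⟨s, hs, fun φ hφ h => hs0 ?_⟩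
  rw [← Polynomial.coe_evalRingHom, map_list_prod, List.map_map]
  apply List.prod_eq_zero
  refine List.mem_map.mpr ⟨φ, hφ, ?_⟩
  rw [Function.comp_apply, Polynomial.coe_evalRingHom, mcPoly_eval, h]

theorem PC.exists_point [CharZero K] {m : ℕ} (n r : ℕ) (hn : 0 < n)
    (l : List ((Fin m → K) →ₗ[K] K)) (hl : l.length = n) (f : (Fin m → K) → K)
    (hf : PC l r 0 f) (hne : ∃ x, f x ≠ 0) :
    ∃ (s : Fin (r + 1) → ℕ) (g : Fin m → ℕ) (y0 : ℕ) (y : Fin (r + 1) → ℕ),
      (∀ j, s j ≤ n * (m - 1)) ∧ ∑ k, g k ≤ r ∧ y0 + ∑ j, y j ≤ n ∧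
      f (fun k => ((y0 * g k + ∑ j, y j * s j ^ (k : ℕ) : ℕ) : K)) ≠ 0 := by
  classical
  -- remove the zero linear forms
  obtain ⟨l1, μ, -, hlen1, hmem1, hexp1⟩ := PC.expand (⊤ : Submodule K (Fin m → K)) 0 l
  obtain ⟨G, hG1, hG2⟩ := hexp1 hf
  have hf1 : PC l1 ((r : ℤ) - μ) μ f := by
    refine ((hG2 0).mono ?_ ?_).congr fun x => ?_
    · push_cast; omega
    · push_cast; omega
    · have := hG1 x Submodule.mem_top 0
      rw [zero_smul, add_zero] at this
      rw [coeff_zero_eq_eval_zero, this]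
  obtain ⟨bs, l', p, hbs, hl', hp, hind, ⟨xp, -, hxpb, hpx⟩, han, hmain⟩ :=
    PC.structure (r + 1) ((r : ℤ) - μ) (by push_cast; omega) ⊤ l1 μ f hf1
      (by obtain ⟨x, hx⟩ := hne; exact ⟨x, Submodule.mem_top, hx⟩) (fun a ha => (hmem1 a ha).2)
  obtain ⟨ss, π, hss, hker, hid, hsub, hind2⟩ := Ind.exists_selection bs
    (fun s : Fin m => mc K m s) (hind.mono (by rw [span_mc]))
  -- the point g
  have hpπ : PD (r : ℤ) (fun x => p (π x)) := (hp.comp π).mono (by omega)
  obtain ⟨g, hg, hgp⟩ := PD.exists_simplex_point r hpπ ⟨xp, by rw [hid xp hxpb]; exact hpx⟩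
  -- the last parameter
  obtain ⟨sl, hsl, hsl0⟩ := exists_mc_ne (l'.map fun a => a.comp π) (by
    intro φ hφ
    obtain ⟨a, ha, rfl⟩ := List.mem_map.mp hφ
    obtain ⟨x, -, hxb, hax⟩ := han a ha
    intro h0
    apply hax
    have := LinearMap.congr_fun h0 x
    rwa [LinearMap.comp_apply, hid x hxb, LinearMap.zero_apply] at this)
  rw [List.length_map] at hsl
  -- a good point on the line
  obtain ⟨P, hP⟩ := hp.line (π fun k => (g k : K)) (π (mc K m sl))
  have hR : P * (l'.map fun a => C (a (π fun k => (g k : K))) +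
      C (a (π (mc K m sl))) * X).prod ≠ 0 := by
    apply mul_ne_zero
    · rintro rfl
      have := hP 0
      rw [eval_zero, zero_smul, add_zero] at this
      exact hgp this.symm
    · apply List.prod_ne_zero
      intro h
      obtain ⟨a, ha, h1⟩ := List.mem_map.mp h
      have h2 := hsl0 (a.comp π) (List.mem_map.mpr ⟨a, ha, rfl⟩)
      apply h2
      have h3 : (C (a (π fun k => (g k : K))) + C (a (π (mc K m sl))) * X).coeff 1 = 0 := by
        rw [h1, coeff_zero]
      rw [coeff_add, coeff_C_mul, coeff_X_one, mul_one, coeff_C, if_neg one_ne_zero,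
        zero_add] at h3
      exact h3
  obtain ⟨lam, hlam⟩ : ∃ s, (P * (l'.map fun a => C (a (π fun k => (g k : K))) +
      C (a (π (mc K m sl))) * X).prod).eval s ≠ 0 := by
    by_contra hcon
    push Not at hcon
    exact hR (Polynomial.funext fun s => by rw [hcon s, eval_zero])
  rw [eval_mul, hP] at hlam
  -- the parameters
  set LL : List ℕ := ss.map (fun s : Fin m => (s : ℕ)) ++ [sl] with hLL
  have hLLlen : LL.length ≤ r + 1 := by
    rw [hLL, List.length_append, List.length_map, List.length_singleton]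
    omega
  have hlen' : l'.length ≤ n := by omega
  have hLLle : ∀ t ∈ LL, t ≤ n * (m - 1) := by
    intro t ht
    rw [hLL, List.mem_append, List.mem_singleton] at ht
    rcases ht with ht | rfl
    · obtain ⟨s, _, rfl⟩ := List.mem_map.mp ht
      have := s.2
      calc (s : ℕ) ≤ 1 * (m - 1) := by omega
        _ ≤ n * (m - 1) := Nat.mul_le_mul_right _ hn
    · exact hsl.trans (Nat.mul_le_mul_right _ hlen')
  set s : Fin (r + 1) → ℕ := fun j => LL.getD j 0 with hs
  have hsle : ∀ j, s j ≤ n * (m - 1) := by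
    intro j
    rw [hs]
    by_cases hj : (j : ℕ) < LL.length
    · rw [show (fun j : Fin (r + 1) => LL.getD j 0) j = LL.getD j 0 from rfl,
        List.getD_eq_getElem _ _ hj]
      exact hLLle _ (List.getElem_mem hj)
    · rw [show (fun j : Fin (r + 1) => LL.getD j 0) j = LL.getD j 0 from rfl,
        List.getD_eq_default _ _ (by omega)]
      exact Nat.zero_le _
  have hsmem : ∀ t ∈ LL, ∃ j, s j = t := by
    intro t ht
    obtain ⟨i, hi, rfl⟩ := List.mem_iff_getElem.mp ht
    refine ⟨⟨i, by omega⟩, ?_⟩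
    rw [hs]
    show LL.getD i 0 = _
    rw [List.getD_eq_getElem _ _ hi]
  set vec : Fin (r + 2) → (Fin m → K) :=
    Fin.cons (fun k => (g k : K)) (fun j => mc K m (s j)) with hvec
  set W := Submodule.span K (Set.range vec) with hW
  have hgW : (fun k => (g k : K)) ∈ W := Submodule.subset_span ⟨0, by rw [hvec, Fin.cons_zero]⟩
  have htW : ∀ t ∈ LL, mc K m t ∈ W := by
    intro t ht
    obtain ⟨j, rfl⟩ := hsmem t ht
    exact Submodule.subset_span ⟨j.succ, by rw [hvec, Fin.cons_succ]⟩
  have hWle : Submodule.span K ((fun s : Fin m => mc K m s) '' {s | s ∈ ss}) ≤ W := by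
    rw [Submodule.span_le]
    rintro _ ⟨t, ht, rfl⟩
    apply htW
    rw [hLL, List.mem_append]
    exact Or.inl (List.mem_map.mpr ⟨t, ht, rfl⟩)
  have hslW : mc K m sl ∈ W := htW sl (by rw [hLL, List.mem_append]; exact Or.inr (by simp))
  have hπW : ∀ x ∈ W, π x ∈ W := by
    intro x hx
    have := W.sub_mem hx (hWle (hsub x))
    rwa [sub_sub_cancel] at this
  obtain ⟨x, hx, hfx⟩ := hmain W le_top (hind2.mono hWle)
    ⟨π (fun k => (g k : K)) + lam • π (mc K m sl),
      W.add_mem (hπW _ hgW) (W.smul_mem _ (hπW _ hslW)), fun b hb => by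
        rw [map_add, map_smul, hker _ b hb, hker _ b hb, smul_zero, add_zero],
      left_ne_zero_of_mul hlam, fun a ha h0 => by
        apply right_ne_zero_of_mul hlam
        rw [← Polynomial.coe_evalRingHom, map_list_prod, List.map_map]
        apply List.prod_eq_zero
        refine List.mem_map.mpr ⟨a, ha, ?_⟩
        rw [Function.comp_apply, Polynomial.coe_evalRingHom, eval_add, eval_mul, eval_C, eval_C,
          eval_X, ← h0, map_add, map_smul, smul_eq_mul, mul_comm]⟩
  -- the final grid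
  have hPDn : PD ((n : ℕ) : ℤ) (fun y => f (Fintype.linearCombination K vec y)) :=
    (hf.toPD.comp _).mono (by rw [hl]; omega)
  obtain ⟨Y, hY, hfY⟩ := PD.exists_simplex_point n hPDn (by
    rw [hW, ← Fintype.range_linearCombination] at hx
    obtain ⟨y, rfl⟩ := hx
    exact ⟨y, hfx⟩)
  refine ⟨s, g, Y 0, fun j => Y j.succ, hsle, hg, by rwa [Fin.sum_univ_succ] at hY, ?_⟩
  convert hfY using 2
  rw [Fintype.linearCombination_apply, Fin.sum_univ_succ, hvec]
  funext k
  rw [Pi.add_apply, Finset.sum_apply, Pi.smul_apply, Fin.cons_zero, smul_eq_mul]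
  push_cast
  congr 1

end

end Pool.Agent.Lib.MP_64d474_lc
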