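import Mathlib
import Pool.Agent.Lib.MP_64d474_lc.ZnGain

/-!
Block Toeplitz operators of a pencil `A + λ M`: multiplication by `A + λ M` modulo `λ ^ i`.
-/

open Module

namespace Pool.Agent.Lib.MP_64d474_lc

variable {F V : Type*} [Field F] [AddCommGroup V] [Module F V]

/-- multiplication by `A + λ M` on the `i`-tuples of coefficients modulo `λ ^ i` -/
def toep (A M : Module.End F V) : (i : ℕ) → Module.End F (Fin i → V)
  | 0 => 0
  | i + 1 => LinearMap.pi (Fin.cases (A ∘ₗ LinearMap.proj 0)
      (fun k : Fin i => A ∘ₗ LinearMap.proj k.succ + M ∘ₗ LinearMap.proj k.castSucc))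

theorem toep_zero (A M : Module.End F V) (i : ℕ) (u : Fin (i + 1) → V) :
    toep A M (i + 1) u 0 = A (u 0) := rfl

theorem toep_succ (A M : Module.End F V) (i : ℕ) (u : Fin (i + 1) → V) (k : Fin i) :
    toep A M (i + 1) u k.succ = A (u k.succ) + M (u k.castSucc) := rfl

/-- the map on tuples induced by `B` -/
def mapV (B : Module.End F V) (i : ℕ) : Module.End F (Fin i → V) :=
  LinearMap.pi fun k => B ∘ₗ LinearMap.proj k

theorem mapV_apply (B : Module.End F V) (i : ℕ) (u : Fin i → V) (k : Fin i) :
    mapV B i u k = B (u k) := rfl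

theorem toep_add_smul (A M B : Module.End F V) (z : F) (i : ℕ) :
    toep (A + z • B) M i = toep A M i + z • mapV B i := by
  cases i with
  | zero => exact Subsingleton.elim _ _
  | succ i =>
    refine LinearMap.ext fun u => funext fun k => ?_
    refine Fin.cases ?_ (fun k => ?_) k
    · rfl
    · rw [LinearMap.add_apply, Pi.add_apply, toep_succ, toep_succ, LinearMap.smul_apply,
        Pi.smul_apply, mapV_apply, LinearMap.add_apply, LinearMap.smul_apply]
      abel

/-- the first `i` coefficients of the product depend on the first `i` coefficients -/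
theorem init_toep (A M : Module.End F V) (i : ℕ) (u : Fin (i + 1) → V) (k : Fin i) :
    toep A M (i + 1) u k.castSucc = toep A M i (fun j => u j.castSucc) k := by
  cases i with
  | zero => exact k.elim0
  | succ i =>
    refine Fin.cases ?_ (fun k => ?_) k
    · rfl
    · rfl

/-- multiplication by `λ` -/
theorem toep_cons (A M : Module.End F V) (i : ℕ) (u : Fin i → V) :
    toep A M (i + 1) (Fin.cons 0 u : Fin (i + 1) → V) = Fin.cons 0 (toep A M i u) := by
  cases i with
  | zero =>
    funext k
    refine Fin.cases ?_ (fun k => k.elim0) k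
    rw [toep_zero, Fin.cons_zero, Fin.cons_zero, map_zero]
  | succ i =>
    funext k
    refine Fin.cases ?_ (fun k => ?_) k
    · rw [toep_zero, Fin.cons_zero, Fin.cons_zero, map_zero]
    · rw [toep_succ, Fin.cons_succ, Fin.cons_succ]
      refine Fin.cases ?_ (fun k => ?_) k
      · rw [toep_zero, Fin.castSucc_zero, Fin.cons_zero, map_zero, add_zero]
      · rw [toep_succ, ← Fin.succ_castSucc, Fin.cons_succ]

/-- dropping the last coordinate -/
def initL (F V : Type*) [Field F] [AddCommGroup V] [Module F V] (i : ℕ) :
    (Fin (i + 1) → V) →ₗ[F] (Fin i → V) :=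
  LinearMap.pi fun k => LinearMap.proj k.castSucc

theorem initL_apply (i : ℕ) (u : Fin (i + 1) → V) (k : Fin i) :
    initL F V i u k = u k.castSucc := rfl

/-- the vectors that occur as a last coefficient after vanishing ones -/
def lastS (A M : Module.End F V) (i : ℕ) : Submodule F V :=
  (LinearMap.range (toep A M (i + 1))).comap (LinearMap.single F (fun _ => V) (Fin.last i))

theorem mem_lastS (A M : Module.End F V) (i : ℕ) (w : V) :
    w ∈ lastS A M i ↔ ∃ u : Fin (i + 1) → V, toep A M (i + 1) u = Pi.single (Fin.last i) w :=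
  Iff.rfl

theorem lastS_mono (A M : Module.End F V) (i : ℕ) : lastS A M i ≤ lastS A M (i + 1) := by
  intro w hw
  obtain ⟨u, hu⟩ := (mem_lastS A M i w).mp hw
  refine (mem_lastS A M (i + 1) w).mpr ⟨Fin.cons 0 u, ?_⟩
  rw [toep_cons, hu]
  funext k
  refine Fin.cases ?_ (fun k => ?_) k
  · rw [Fin.cons_zero, Pi.single_eq_of_ne]
    exact (Fin.last_pos).ne
  · rw [Fin.cons_succ, ← Fin.succ_last]
    by_cases hk : k = Fin.last i
    · rw [hk, Pi.single_eq_same, Pi.single_eq_same]
    · rw [Pi.single_eq_of_ne hk, Pi.single_eq_of_ne]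
      exact fun h => hk (Fin.succ_injective _ h)

section

variable [FiniteDimensional F V]

/-- the rank of the Toeplitz operator -/
noncomputable def tt (A M : Module.End F V) (i : ℕ) : ℕ := rk (toep A M i)

omit [FiniteDimensional F V] in
theorem tt_zero (A M : Module.End F V) : tt A M 0 = 0 := by
  rw [tt, rk]
  exact finrank_zero_of_subsingleton

theorem tt_succ (A M : Module.End F V) (i : ℕ) :
    tt A M (i + 1) = tt A M i + finrank F (lastS A M i) := by
  have h1 := finrank_map_add_inf (initL F V i) (LinearMap.range (toep A M (i + 1)))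
  have h2 : (LinearMap.range (toep A M (i + 1))).map (initL F V i) =
      LinearMap.range (toep A M i) := by
    apply le_antisymm
    · rintro _ ⟨_, ⟨u, rfl⟩, rfl⟩
      refine ⟨fun j => u j.castSucc, ?_⟩
      funext k
      rw [initL_apply, init_toep]
    · rintro _ ⟨u, rfl⟩
      refine ⟨_, ⟨Fin.snoc u 0, rfl⟩, ?_⟩
      have e : (fun j : Fin i => (Fin.snoc u 0 : Fin (i + 1) → V) j.castSucc) = u :=
        funext fun j => Fin.snoc_castSucc (α := fun _ => V) _ _ _
      funext k
      rw [initL_apply, init_toep, e]
  have h3 : finrank F (LinearMap.range (toep A M (i + 1)) ⊓ LinearMap.ker (initL F V i) :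
      Submodule F (Fin (i + 1) → V)) = finrank F (lastS A M i) := by
    have e : (lastS A M i).map (LinearMap.single F (fun _ => V) (Fin.last i)) =
        LinearMap.range (toep A M (i + 1)) ⊓ LinearMap.ker (initL F V i) := by
      apply le_antisymm
      · rintro _ ⟨w, hw, rfl⟩
        refine ⟨hw, ?_⟩
        rw [SetLike.mem_coe, LinearMap.mem_ker]
        funext k
        rw [initL_apply, LinearMap.single_apply, Pi.single_eq_of_ne (Fin.castSucc_lt_last k).ne]
        rfl
      · rintro x ⟨hx, hx'⟩
        rw [SetLike.mem_coe, LinearMap.mem_ker] at hx'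
        have e2 : (LinearMap.single F (fun _ => V) (Fin.last i)) (x (Fin.last i)) = x := by
          funext k
          rw [LinearMap.single_apply]
          refine Fin.lastCases ?_ (fun k => ?_) k
          · rw [Pi.single_eq_same]
          · rw [Pi.single_eq_of_ne (Fin.castSucc_lt_last k).ne]
            have := congrFun hx' k
            rw [initL_apply] at this
            exact this.symm
        refine ⟨x (Fin.last i), ?_, e2⟩
        rw [SetLike.mem_coe, lastS, Submodule.mem_comap, e2]
        exact hx
    rw [← e]
    refine (LinearEquiv.finrank_eq (Submodule.equivMapOfInjective _ ?_ _)).symm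
    intro a b hab
    have := congrFun hab (Fin.last i)
    simpa using this
  rw [h2, h3] at h1
  rw [tt, tt, rk, rk]
  omega

omit [FiniteDimensional F V] in
theorem lastS_zero (A M : Module.End F V) : lastS A M 0 = LinearMap.range A := by
  apply le_antisymm
  · intro w hw
    obtain ⟨u, hu⟩ := (mem_lastS A M 0 w).mp hw
    have := congrFun hu 0
    rw [toep_zero] at this
    refine ⟨u 0, this.trans ?_⟩
    exact Pi.single_eq_same (M := fun _ => V) (0 : Fin 1) w
  · rintro _ ⟨v, rfl⟩
    refine (mem_lastS A M 0 _).mpr ⟨fun _ => v, ?_⟩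
    funext k
    refine Fin.cases ?_ (fun k => k.elim0) k
    rw [toep_zero]
    exact (Pi.single_eq_same (M := fun _ => V) (0 : Fin 1) (A v)).symm

theorem tt_one (A M : Module.End F V) : tt A M 1 = rk A := by
  rw [tt_succ, tt_zero, lastS_zero, zero_add, rk]

/-- the ranks are convex -/
theorem tt_convex (A M : Module.End F V) (i : ℕ) :
    2 * tt A M (i + 1) ≤ tt A M (i + 2) + tt A M i := by
  have h1 := tt_succ A M i
  have h2 := tt_succ A M (i + 1)
  have h3 := Submodule.finrank_mono (lastS_mono A M i)
  have h4 : tt A M (i + 1 + 1) = tt A M (i + 2) := rfl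
  omega

end

end Pool.Agent.Lib.MP_64d474_lc
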