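import Mathlib
import Pool.Agent.Lib.MP_64d474_lc.ZtToep
import Pool.Agent.Lib.MP_64d474_lc.PolyGrid

/-!
Ranks of pencils of linear maps at special values of the parameter.
-/

open Module

namespace Pool.Agent.Lib.MP_64d474_lc

variable {F V W : Type*} [Field F] [AddCommGroup V] [Module F V]
  [AddCommGroup W] [Module F W] [FiniteDimensional F W]

/-- outside the zeros of a nonzero polynomial of small degree the rank of a pencil is at least its
rank at a given value -/
theorem pencil_poly (A B : V →ₗ[F] W) (z₀ : F) :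
    ∃ p : Polynomial F, p.eval z₀ ≠ 0 ∧
      p.natDegree ≤ finrank F (LinearMap.range (A + z₀ • B)) ∧
      ∀ z, p.eval z ≠ 0 → finrank F (LinearMap.range (A + z₀ • B)) ≤
        finrank F (LinearMap.range (A + z • B)) := by
  classical
  set r := finrank F (LinearMap.range (A + z₀ • B)) with hr
  obtain ⟨w, hw⟩ := exists_linearIndependent_of_le_finrank (R := F)
    (M := LinearMap.range (A + z₀ • B)) (le_of_eq hr)
  have hx : ∀ i, ∃ x : V, (A + z₀ • B) x = (w i : W) := fun i => (w i).2
  choose x hx using hx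
  have hli : LinearIndependent F (fun i => (A + z₀ • B) (x i)) := by
    have h1 := hw.map' (LinearMap.range (A + z₀ • B)).subtype (Submodule.ker_subtype _)
    have h2 : (fun i => (A + z₀ • B) (x i)) = (LinearMap.range (A + z₀ • B)).subtype ∘ w :=
      funext fun i => hx i
    rw [h2]
    exact h1
  let T : (Fin r → F) →ₗ[F] V := Fintype.linearCombination F x
  have hT : ∀ y, T y = ∑ i, y i • x i := fun y => Fintype.linearCombination_apply _ _ _
  have hinj : LinearMap.ker ((A + z₀ • B) ∘ₗ T) = ⊥ := by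
    rw [LinearMap.ker_eq_bot']
    intro y hy
    rw [LinearMap.comp_apply, hT, map_sum] at hy
    simp only [map_smul] at hy
    funext i
    exact Fintype.linearIndependent_iff.mp hli y hy i
  obtain ⟨g, hg⟩ := ((A + z₀ • B) ∘ₗ T).exists_leftInverse_of_injective hinj
  let NA : Matrix (Fin r) (Fin r) F := LinearMap.toMatrix' (g ∘ₗ A ∘ₗ T)
  let NB : Matrix (Fin r) (Fin r) F := LinearMap.toMatrix' (g ∘ₗ B ∘ₗ T)
  have e : ∀ z : F, NA + z • NB = LinearMap.toMatrix' (g ∘ₗ (A + z • B) ∘ₗ T) := by
    intro z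
    have e1 : g ∘ₗ (A + z • B) ∘ₗ T = g ∘ₗ A ∘ₗ T + z • (g ∘ₗ B ∘ₗ T) := by
      ext y
      simp
    rw [e1, map_add, map_smul]
  let M : Matrix (Fin r) (Fin r) (Polynomial F) :=
    (Polynomial.X : Polynomial F) • NB.map Polynomial.C + NA.map Polynomial.C
  have hev : ∀ z : F, M.det.eval z = (NA + z • NB).det := by
    intro z
    have : M.det.eval z = (Polynomial.evalRingHom z) M.det := rfl
    rw [this, RingHom.map_det]
    congr 1
    ext i j
    rw [RingHom.mapMatrix_apply, Matrix.map_apply]
    simp only [M, Matrix.add_apply, Matrix.smul_apply, Matrix.map_apply, map_add, smul_eq_mul,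
      Polynomial.coe_evalRingHom, Polynomial.eval_mul, Polynomial.eval_X,
      Polynomial.eval_C]
    ring
  refine ⟨M.det, ?_, ?_, ?_⟩
  · rw [hev, e]
    have h1 : g ∘ₗ (A + z₀ • B) ∘ₗ T = LinearMap.id := hg
    rw [h1, LinearMap.toMatrix'_id, Matrix.det_one]
    exact one_ne_zero
  · have := Polynomial.natDegree_det_X_add_C_le NB NA
    rw [Fintype.card_fin] at this
    exact this
  · intro z hz
    rw [hev] at hz
    have hinj2 : Function.Injective (g ∘ₗ (A + z • B) ∘ₗ T) := by
      have h1 : Function.Injective (Matrix.toLin' (NA + z • NB)) := by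
        rw [Matrix.toLin'_apply']
        exact Matrix.mulVec_injective_iff_isUnit.mpr
          ((Matrix.isUnit_iff_isUnit_det _).mpr (isUnit_iff_ne_zero.mpr hz))
      rw [e, Matrix.toLin'_toMatrix'] at h1
      exact h1
    have h2 : finrank F (LinearMap.range (g ∘ₗ (A + z • B) ∘ₗ T)) = r := by
      rw [LinearMap.finrank_range_of_inj hinj2, Module.finrank_fin_fun]
    rw [← h2]
    have h3 : LinearMap.range (g ∘ₗ (A + z • B) ∘ₗ T) ≤ (LinearMap.range (A + z • B)).map g := by
      rintro _ ⟨y, rfl⟩
      exact ⟨(A + z • B) (T y), ⟨_, rfl⟩, rfl⟩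
    exact (Submodule.finrank_mono h3).trans (Submodule.finrank_map_le _ _)

/-- the rank does not drop at a suitable value outside a given finite set -/
theorem exists_pencil_avoid [Infinite F] (A B : V →ₗ[F] W) (s : Finset F) :
    ∃ z : F, z ∉ s ∧ finrank F (LinearMap.range A) ≤
      finrank F (LinearMap.range (A + z • B)) := by
  classical
  obtain ⟨p, hp, -, h⟩ := pencil_poly A B 0
  have hp0 : p ≠ 0 := by
    rintro rfl
    exact hp Polynomial.eval_zero
  obtain ⟨z, hz⟩ := Infinite.exists_notMem_finset (s ∪ p.roots.toFinset)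
  rw [Finset.mem_union, not_or] at hz
  refine ⟨z, hz.1, ?_⟩
  have h1 := h z (by
    intro h0
    exact hz.2 (Multiset.mem_toFinset.mpr ((Polynomial.mem_roots hp0).mpr h0)))
  rwa [zero_smul, add_zero] at h1

/-- the rank at a given value is attained at a small natural number -/
theorem exists_pencil_nat [CharZero F] (A B : V →ₗ[F] W) (z₀ : F) :
    ∃ z : ℕ, z ≤ finrank F (LinearMap.range (A + z₀ • B)) ∧
      finrank F (LinearMap.range (A + z₀ • B)) ≤
        finrank F (LinearMap.range (A + (z : F) • B)) := by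
  obtain ⟨p, hp, hd, h⟩ := pencil_poly A B z₀
  have hp0 : p ≠ 0 := by
    rintro rfl
    exact hp Polynomial.eval_zero
  obtain ⟨z, hz, hz0⟩ := exists_nat_nonroot p hp0 _ hd
  exact ⟨z, hz, h z hz0⟩

section

variable [FiniteDimensional F V]

omit [FiniteDimensional F V] in
/-- the product of the pencil with a tuple, evaluated at `z` -/
theorem toep_eval (A M : Module.End F V) (i : ℕ) (u : Fin (i + 1) → V) (z : F) :
    ∑ k : Fin (i + 1), z ^ (k : ℕ) • toep A M (i + 1) u k +
      z ^ (i + 1) • M (u (Fin.last i)) =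
      (A + z • M) (∑ k : Fin (i + 1), z ^ (k : ℕ) • u k) := by
  have h1 : ∑ k : Fin (i + 1), z ^ (k : ℕ) • toep A M (i + 1) u k =
      ∑ k : Fin (i + 1), z ^ (k : ℕ) • A (u k) +
        ∑ k : Fin i, z ^ ((k : ℕ) + 1) • M (u k.castSucc) := by
    rw [Fin.sum_univ_succ, Fin.sum_univ_succ (f := fun k : Fin (i + 1) => z ^ (k : ℕ) • A (u k))]
    simp only [Fin.val_zero, pow_zero, one_smul, toep_zero, Fin.val_succ, toep_succ, smul_add,
      Finset.sum_add_distrib]
    abel
  have h2 : ∑ k : Fin i, z ^ ((k : ℕ) + 1) • M (u k.castSucc) +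
      z ^ (i + 1) • M (u (Fin.last i)) = ∑ k : Fin (i + 1), z ^ ((k : ℕ) + 1) • M (u k) := by
    rw [Fin.sum_univ_castSucc (f := fun k : Fin (i + 1) => z ^ ((k : ℕ) + 1) • M (u k))]
    simp only [Fin.val_castSucc, Fin.val_last]
  rw [h1, add_assoc, h2, LinearMap.add_apply, LinearMap.smul_apply, map_sum, map_sum,
    Finset.smul_sum]
  congr 1
  · exact Finset.sum_congr rfl fun k _ => (map_smul _ _ _).symm
  · refine Finset.sum_congr rfl fun k _ => ?_
    rw [map_smul, smul_smul, pow_succ']

/-- the increments of the ranks are bounded by the generic rank of the pencil -/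
theorem finrank_lastS_le [Infinite F] (A M : Module.End F V) (i : ℕ) (s : Finset F) :
    ∃ z : F, z ∉ s ∧ finrank F (lastS A M i) ≤ rk (A + z • M) := by
  classical
  let K : Submodule F (Fin (i + 1) → V) := (LinearMap.range
    (LinearMap.single F (fun _ : Fin (i + 1) => V) (Fin.last i))).comap (toep A M (i + 1))
  let A' : K →ₗ[F] V := LinearMap.proj (Fin.last i) ∘ₗ toep A M (i + 1) ∘ₗ K.subtype
  let M' : K →ₗ[F] V := M ∘ₗ LinearMap.proj (Fin.last i) ∘ₗ K.subtype
  have hK : ∀ u : K, toep A M (i + 1) (u : Fin (i + 1) → V) =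
      Pi.single (Fin.last i) (A' u) := by
    intro u
    obtain ⟨w, hw⟩ := u.2
    have h1 : A' u = toep A M (i + 1) (u : Fin (i + 1) → V) (Fin.last i) := rfl
    rw [h1, ← hw, LinearMap.single_apply, Pi.single_eq_same]
  have hA' : LinearMap.range A' = lastS A M i := by
    apply le_antisymm
    · rintro _ ⟨u, rfl⟩
      exact (mem_lastS A M i _).mpr ⟨u, hK u⟩
    · intro w hw
      obtain ⟨u, hu⟩ := (mem_lastS A M i w).mp hw
      refine ⟨⟨u, ⟨w, ?_⟩⟩, ?_⟩
      · rw [LinearMap.single_apply, hu]
      · have h1 : A' ⟨u, ⟨w, by rw [LinearMap.single_apply, hu]⟩⟩ =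
          toep A M (i + 1) u (Fin.last i) := rfl
        rw [h1, hu, Pi.single_eq_same]
  obtain ⟨z, hz, h⟩ := exists_pencil_avoid A' M' (insert 0 s)
  rw [Finset.mem_insert, not_or] at hz
  refine ⟨z, hz.2, ?_⟩
  rw [hA'] at h
  refine h.trans (Submodule.finrank_mono ?_)
  rintro _ ⟨u, rfl⟩
  have h1 := toep_eval A M i (u : Fin (i + 1) → V) z
  rw [hK u] at h1
  have h2 : ∑ k : Fin (i + 1), z ^ (k : ℕ) •
      (Pi.single (Fin.last i) (A' u) : Fin (i + 1) → V) k = z ^ i • A' u := by
    rw [Finset.sum_eq_single (Fin.last i)]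
    · rw [Pi.single_eq_same, Fin.val_last]
    · intro k _ hk
      rw [Pi.single_eq_of_ne hk, smul_zero]
    · intro h0
      exact absurd (Finset.mem_univ _) h0
  rw [h2] at h1
  have hzi : z ^ i ≠ 0 := pow_ne_zero _ hz.1
  refine ⟨(z ^ i)⁻¹ • ∑ k : Fin (i + 1), z ^ (k : ℕ) • (u : Fin (i + 1) → V) k, ?_⟩
  rw [map_smul, ← h1, smul_add, smul_smul, inv_mul_cancel₀ hzi, one_smul, smul_smul, pow_succ,
    ← mul_assoc, inv_mul_cancel₀ hzi, one_mul]
  rfl

/-- the rank of the Toeplitz operator is at most `i` times the generic rank -/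
theorem tt_le [Infinite F] (A M : Module.End F V) (ρ : ℕ) (s : Finset F)
    (h : ∀ z, z ∉ s → rk (A + z • M) ≤ ρ) (i : ℕ) : tt A M i ≤ i * ρ := by
  induction i with
  | zero => rw [tt_zero, zero_mul]
  | succ i ih =>
    obtain ⟨z, hz, h1⟩ := finrank_lastS_le A M i s
    rw [tt_succ, Nat.add_mul, one_mul]
    exact Nat.add_le_add ih (h1.trans (h z hz))

/-- dropping the first coordinate -/
def tailL (F V : Type*) [Field F] [AddCommGroup V] [Module F V] (i : ℕ) :
    (Fin (i + 1) → V) →ₗ[F] (Fin i → V) :=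
  LinearMap.pi fun k => LinearMap.proj k.succ

omit [FiniteDimensional F V] in
theorem tailL_apply (i : ℕ) (u : Fin (i + 1) → V) (k : Fin i) :
    tailL F V i u k = u k.succ := rfl

/-- the rank of the Toeplitz operator of length `l + 1` is at least `l` times the rank of `M` -/
theorem mul_rk_le_tt (A M : Module.End F V) (l : ℕ) : l * rk M ≤ tt A M (l + 1) := by
  have h1 : ∀ l : ℕ, l * rk M ≤
      finrank F (LinearMap.range (tailL F V l ∘ₗ toep A M (l + 1))) := by
    intro l
    induction l with
    | zero => rw [zero_mul]; exact Nat.zero_le _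
    | succ l ih =>
      set p := tailL F V (l + 1) ∘ₗ toep A M (l + 1 + 1) with hp
      have hpa : ∀ u k, p u k = A (u k.succ) + M (u k.castSucc) := fun u k => rfl
      have h2 := finrank_map_add_inf (tailL F V l) (LinearMap.range p)
      have h3 : LinearMap.range (tailL F V l ∘ₗ toep A M (l + 1)) ≤
          (LinearMap.range p).map (tailL F V l) := by
        rintro _ ⟨u, rfl⟩
        refine ⟨_, ⟨Fin.cons 0 u, rfl⟩, ?_⟩
        funext k
        rw [tailL_apply, hpa, LinearMap.comp_apply, tailL_apply, toep_succ, Fin.cons_succ,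
          ← Fin.succ_castSucc, Fin.cons_succ]
      have h4 : (LinearMap.range M).map (LinearMap.single F (fun _ : Fin (l + 1) => V) 0) ≤
          LinearMap.range p ⊓ LinearMap.ker (tailL F V l) := by
        rintro _ ⟨_, ⟨v, rfl⟩, rfl⟩
        refine ⟨⟨Fin.cons v 0, ?_⟩, ?_⟩
        · funext k
          rw [hpa, Fin.cons_succ, LinearMap.single_apply]
          refine Fin.cases ?_ (fun k => ?_) k
          · rw [Fin.castSucc_zero, Fin.cons_zero, Pi.single_eq_same, Pi.zero_apply, map_zero,
              zero_add]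
          · rw [← Fin.succ_castSucc, Fin.cons_succ, Pi.single_eq_of_ne (Fin.succ_ne_zero k),
              Pi.zero_apply, Pi.zero_apply, map_zero, map_zero, add_zero]
        · rw [SetLike.mem_coe, LinearMap.mem_ker]
          funext k
          rw [tailL_apply, LinearMap.single_apply, Pi.single_eq_of_ne (Fin.succ_ne_zero k)]
          rfl
      have h5 : finrank F ((LinearMap.range M).map
          (LinearMap.single F (fun _ : Fin (l + 1) => V) 0)) = rk M := by
        refine (LinearEquiv.finrank_eq (Submodule.equivMapOfInjective _ ?_ _)).symm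
        intro a b hab
        have := congrFun hab 0
        simpa using this
      have h6 := Submodule.finrank_mono h3
      have h7 := Submodule.finrank_mono h4
      rw [Nat.add_mul, one_mul]
      omega
  refine (h1 l).trans ?_
  rw [LinearMap.range_comp, tt, rk]
  exact Submodule.finrank_map_le _ _

end

end Pool.Agent.Lib.MP_64d474_lc
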