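import Mathlib
import Pool.Agent.Lib.MP_64d474_lc.ZtPencil
import Pool.Agent.Lib.MP_64d474_lc.ZnPolar

/-!
The first-order gain of the Toeplitz operators: `rank (Q E P) ≥ t (i + 1) - 2 t i + t (i - 1)`, where
`E` is induced by `M - A` and `P`, `Q` are the projections that belong to the Toeplitz operator of
length `i`.  (Clebsch–Gordan: multiplication by `λ + ε` on `K[λ, ε] / (λ ^ i, ε ^ 2)` has the blocks
`i + 1` and `i - 1`.)
-/

open Module

namespace Pool.Agent.Lib.MP_64d474_lc

variable {F V : Type*} [Field F] [AddCommGroup V] [Module F V]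

/-- ranks in an exact sequence of operators -/
theorem rk_exact {U W Q : Type*} [AddCommGroup U] [Module F U] [AddCommGroup W] [Module F W]
    [AddCommGroup Q] [Module F Q] [FiniteDimensional F U] [FiniteDimensional F W]
    [FiniteDimensional F Q]
    (fU : Module.End F U) (fW : Module.End F W) (fQ : Module.End F Q) (α : U →ₗ[F] W)
    (β : W →ₗ[F] Q) (hα : Function.Injective α) (hβ : Function.Surjective β)
    (h0 : ∀ u, β (α u) = 0) (h1 : ∀ u, fW (α u) = α (fU u)) (h2 : ∀ w, β (fW w) = fQ (β w)) :
    rk fU + rk fQ ≤ rk fW := by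
  have h3 := finrank_map_add_inf β (LinearMap.range fW)
  have h4 : LinearMap.range fQ ≤ (LinearMap.range fW).map β := by
    rintro _ ⟨q, rfl⟩
    obtain ⟨w, rfl⟩ := hβ q
    exact ⟨fW w, ⟨w, rfl⟩, h2 w⟩
  have h5 : (LinearMap.range fU).map α ≤ LinearMap.range fW ⊓ LinearMap.ker β := by
    rintro _ ⟨_, ⟨u, rfl⟩, rfl⟩
    exact ⟨⟨α u, h1 u⟩, h0 _⟩
  have h6 : finrank F ((LinearMap.range fU).map α) = rk fU :=
    (LinearEquiv.finrank_eq (Submodule.equivMapOfInjective α hα _)).symm
  have h7 := Submodule.finrank_mono h4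
  have h8 := Submodule.finrank_mono h5
  have h9 : rk fQ = finrank F (LinearMap.range fQ) := rfl
  have h10 : rk fW = finrank F (LinearMap.range fW) := rfl
  omega

/-- the operator `(u, v) ↦ (T u, E u + T v)` -/
def dbl {W : Type*} [AddCommGroup W] [Module F W] (T E : Module.End F W) : Module.End F (W × W) :=
  LinearMap.prod (T ∘ₗ LinearMap.fst F W W) (E ∘ₗ LinearMap.fst F W W + T ∘ₗ LinearMap.snd F W W)

theorem dbl_apply {W : Type*} [AddCommGroup W] [Module F W] (T E : Module.End F W) (x : W × W) :
    dbl T E x = (T x.1, E x.1 + T x.2) := rfl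

theorem rk_mul_le_left {W : Type*} [AddCommGroup W] [Module F W] [FiniteDimensional F W]
    (f g : Module.End F W) : rk (f * g) ≤ rk f := by
  refine Submodule.finrank_mono ?_
  rintro _ ⟨v, rfl⟩
  exact ⟨g v, rfl⟩

theorem rk_mul_le_right {W : Type*} [AddCommGroup W] [Module F W] [FiniteDimensional F W]
    (f g : Module.End F W) : rk (f * g) ≤ rk g := by
  have h : LinearMap.range (f * g) ≤ (LinearMap.range g).map f := by
    rintro _ ⟨v, rfl⟩
    exact ⟨g v, ⟨v, rfl⟩, rfl⟩
  exact (Submodule.finrank_mono h).trans (Submodule.finrank_map_le _ _)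

/-- the rank of `dbl T E` is at most `2 rank T + rank (Q E P)` -/
theorem rk_dbl_le {W : Type*} [AddCommGroup W] [Module F W] [FiniteDimensional F W]
    (T E G : Module.End F W) :
    rk (dbl T E) ≤ 2 * rk T + rk ((1 - T * G) * E * (1 - G * T)) := by
  set X := (1 - T * G) * E * (1 - G * T) with hX
  let L : Module.End F (W × W) := LinearMap.prod (LinearMap.fst F W W)
    (((1 - T * G) * E * G) ∘ₗ LinearMap.fst F W W + LinearMap.snd F W W)
  let R : Module.End F (W × W) := LinearMap.prod (LinearMap.fst F W W)
    ((G * E) ∘ₗ LinearMap.fst F W W + LinearMap.snd F W W)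
  have e : dbl T E = L * (dbl T X * R) := by
    refine LinearMap.ext fun x => ?_
    rw [Module.End.mul_apply, Module.End.mul_apply]
    refine Prod.ext rfl ?_
    change E x.1 + T x.2 = (((1 - T * G) * E * G) (T x.1)) + (X x.1 + T ((G * E) x.1 + x.2))
    have e1 : E = ((1 - T * G) * E * G) * T + X + T * (G * E) := by
      rw [hX]
      noncomm_ring
    conv_lhs => rw [e1]
    rw [map_add T]
    simp only [LinearMap.add_apply, Module.End.mul_apply]
    abel
  rw [e]
  refine (rk_mul_le_right _ _).trans ((rk_mul_le_left _ _).trans ?_)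
  let D₁ : Module.End F (W × W) := LinearMap.prodMap T T
  let D₂ : Module.End F (W × W) := LinearMap.inr F W W ∘ₗ X ∘ₗ LinearMap.fst F W W
  have e2 : dbl T X = D₁ + D₂ := by
    refine LinearMap.ext fun x => ?_
    refine Prod.ext ?_ ?_
    · change T x.1 = T x.1 + 0
      rw [add_zero]
    · change X x.1 + T x.2 = T x.2 + X x.1
      rw [add_comm]
  rw [e2]
  refine (rk_add_le _ _).trans (Nat.add_le_add ?_ ?_)
  · have h1 : LinearMap.range D₁ ≤ (LinearMap.range T).map (LinearMap.inl F W W) ⊔
        (LinearMap.range T).map (LinearMap.inr F W W) := by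
      rintro _ ⟨x, rfl⟩
      have e3 : D₁ x = LinearMap.inl F W W (T x.1) + LinearMap.inr F W W (T x.2) := by
        refine Prod.ext ?_ ?_
        · change T x.1 = T x.1 + 0
          rw [add_zero]
        · change T x.2 = 0 + T x.2
          rw [zero_add]
      rw [e3]
      exact Submodule.add_mem_sup ⟨_, ⟨_, rfl⟩, rfl⟩ ⟨_, ⟨_, rfl⟩, rfl⟩
    refine (Submodule.finrank_mono h1).trans
      ((Submodule.finrank_add_le_finrank_add_finrank _ _).trans ?_)
    rw [two_mul]
    exact Nat.add_le_add (Submodule.finrank_map_le _ _) (Submodule.finrank_map_le _ _)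
  · have h1 : LinearMap.range D₂ ≤ (LinearMap.range X).map (LinearMap.inr F W W) := by
      rintro _ ⟨x, rfl⟩
      exact ⟨_, ⟨x.1, rfl⟩, rfl⟩
    exact (Submodule.finrank_mono h1).trans (Submodule.finrank_map_le _ _)

/-- the Clebsch–Gordan inequality -/
theorem tt_add_tt_le [CharZero F] [FiniteDimensional F V] (A M : Module.End F V) (j : ℕ) :
    tt A M (j + 2) + tt A M j ≤ rk (dbl (toep A M (j + 1)) (mapV M (j + 1))) := by
  let α : (Fin (j + 2) → V) →ₗ[F] (Fin (j + 1) → V) × (Fin (j + 1) → V) :=
    LinearMap.prod (LinearMap.pi fun k => LinearMap.proj k.castSucc)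
      (LinearMap.pi fun k => ((((k : ℕ) + 1 : ℕ)) : F) • LinearMap.proj k.succ)
  let β : (Fin (j + 1) → V) × (Fin (j + 1) → V) →ₗ[F] (Fin j → V) :=
    LinearMap.pi fun k => LinearMap.proj k.castSucc ∘ₗ LinearMap.snd F _ _ -
      ((((k : ℕ) + 1 : ℕ)) : F) • (LinearMap.proj k.succ ∘ₗ LinearMap.fst F _ _)
  have hα1 : ∀ f k, (α f).1 k = f k.castSucc := fun _ _ => rfl
  have hα2 : ∀ f k, (α f).2 k = ((((k : ℕ) + 1 : ℕ)) : F) • f k.succ := fun _ _ => rfl
  have hβ' : ∀ x k, β x k = x.2 k.castSucc - ((((k : ℕ) + 1 : ℕ)) : F) • x.1 k.succ :=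
    fun _ _ => rfl
  refine rk_exact (toep A M (j + 2)) _ (toep A M j) α β ?_ ?_ ?_ ?_ ?_
  · rw [injective_iff_map_eq_zero]
    intro f hf
    have h1 := congrArg Prod.fst hf
    have h2 := congrArg Prod.snd hf
    funext k
    refine Fin.lastCases ?_ (fun k => ?_) k
    · have h3 := congrFun h2 (Fin.last j)
      rw [hα2, Fin.succ_last] at h3
      exact (smul_eq_zero.mp h3).resolve_left (Nat.cast_ne_zero.mpr (Nat.succ_ne_zero _))
    · have h3 := congrFun h1 k
      rw [hα1] at h3
      exact h3
  · intro y
    refine ⟨(0, Fin.snoc y 0), ?_⟩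
    funext k
    rw [hβ']
    dsimp only
    rw [Pi.zero_apply, smul_zero, sub_zero]
    exact Fin.snoc_castSucc (α := fun _ => V) _ _ _
  · intro f
    funext k
    rw [hβ', hα1, hα2, Fin.succ_castSucc, Fin.val_castSucc, sub_self]
    rfl
  · intro f
    rw [dbl_apply]
    refine Prod.ext ?_ ?_
    · funext k
      rw [hα1, init_toep]
      rfl
    · funext k
      rw [hα2, toep_succ]
      dsimp only
      rw [Pi.add_apply, mapV_apply, hα1]
      refine Fin.cases ?_ (fun k => ?_) k
      · rw [toep_zero, hα2, Fin.val_zero, zero_add, Nat.cast_one, one_smul, one_smul,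
          Fin.castSucc_zero]
        abel
      · rw [toep_succ, hα2, hα2, Fin.val_succ, map_smul, map_smul, Fin.val_castSucc,
          Fin.succ_castSucc]
        push_cast
        module
  · rintro ⟨u, v⟩
    rw [dbl_apply]
    funext k
    rw [hβ']
    dsimp only
    rw [Pi.add_apply, mapV_apply, toep_succ]
    cases j with
    | zero => exact k.elim0
    | succ j =>
      refine Fin.cases ?_ (fun k => ?_) k
      · rw [toep_zero, hβ', Fin.castSucc_zero, toep_zero, Fin.val_zero, zero_add, Nat.cast_one,
          map_sub, map_smul]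
        dsimp only
        module
      · rw [toep_succ, hβ', hβ', ← Fin.succ_castSucc, toep_succ, Fin.val_succ, map_sub, map_sub,
          map_smul, map_smul, Fin.val_castSucc, Fin.succ_castSucc]
        dsimp only
        push_cast
        module

/-- multiplication by `λ` -/
def shV (F V : Type*) [Field F] [AddCommGroup V] [Module F V] (i : ℕ) : Module.End F (Fin i → V) :=
  toep 0 1 i

theorem toep_eq (A M : Module.End F V) (i : ℕ) : toep A M i = mapV A i + mapV M i * shV F V i := by
  cases i with
  | zero => exact Subsingleton.elim _ _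
  | succ i =>
    refine LinearMap.ext fun u => funext fun k => ?_
    rw [LinearMap.add_apply, Pi.add_apply, mapV_apply, Module.End.mul_apply, mapV_apply, shV]
    refine Fin.cases ?_ (fun k => ?_) k
    · rw [toep_zero, toep_zero, LinearMap.zero_apply, map_zero, add_zero]
    · rw [toep_succ, toep_succ, LinearMap.zero_apply, zero_add, Module.End.one_apply]

theorem mapV_shV (B : Module.End F V) (i : ℕ) : mapV B i * shV F V i = shV F V i * mapV B i := by
  cases i with
  | zero => exact Subsingleton.elim _ _
  | succ i =>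
    refine LinearMap.ext fun u => funext fun k => ?_
    rw [Module.End.mul_apply, Module.End.mul_apply, mapV_apply, shV]
    refine Fin.cases ?_ (fun k => ?_) k
    · rw [toep_zero, toep_zero, LinearMap.zero_apply, LinearMap.zero_apply, map_zero]
    · rw [toep_succ, toep_succ, LinearMap.zero_apply, LinearMap.zero_apply, zero_add, zero_add,
        Module.End.one_apply, Module.End.one_apply, mapV_apply]

theorem one_add_shV_injective (i : ℕ) :
    Function.Injective ((1 + shV F V i : Module.End F (Fin i → V))) := by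
  cases i with
  | zero => exact fun a b _ => Subsingleton.elim a b
  | succ i =>
    rw [injective_iff_map_eq_zero]
    intro u hu
    funext k
    induction k using Fin.induction with
    | zero =>
      have h := congrFun hu 0
      rw [LinearMap.add_apply, Pi.add_apply, Module.End.one_apply, shV, toep_zero,
        LinearMap.zero_apply, add_zero] at h
      exact h
    | succ k ih =>
      have h := congrFun hu k.succ
      rw [LinearMap.add_apply, Pi.add_apply, Module.End.one_apply, shV, toep_succ,
        LinearMap.zero_apply, zero_add, Module.End.one_apply, ih] at h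
      rw [Pi.zero_apply, add_zero] at h
      exact h

theorem mapV_sub (A B : Module.End F V) (i : ℕ) : mapV (A - B) i = mapV A i - mapV B i := rfl

/-- the twist from `M` to `M - A` -/
theorem rk_dbl_twist [FiniteDimensional F V] (A M : Module.End F V) (i : ℕ) :
    rk (dbl (toep A M i) (mapV M i)) ≤ rk (dbl (toep A M i) (mapV (M - A) i)) := by
  set T := toep A M i with hT
  set S := shV F V i with hS
  have hTS : T * S = S * T := by
    rw [hT, toep_eq, add_mul, mul_add, mapV_shV, ← mul_assoc, ← mapV_shV M, mul_assoc]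
  let Ψ : Module.End F ((Fin i → V) × (Fin i → V)) := LinearMap.prod (LinearMap.fst F _ _)
    ((1 + S) ∘ₗ LinearMap.snd F _ _ + LinearMap.fst F _ _)
  let Θ : Module.End F ((Fin i → V) × (Fin i → V)) := LinearMap.prodMap 1 (1 + S)
  have e : Θ * dbl T (mapV M i) = dbl T (mapV (M - A) i) * Ψ := by
    refine LinearMap.ext fun x => ?_
    refine Prod.ext rfl ?_
    change (1 + S) (mapV M i x.1 + T x.2) = mapV (M - A) i x.1 + T ((1 + S) x.2 + x.1)
    have e1 : (1 + S) (mapV M i x.1) = mapV (M - A) i x.1 + T x.1 := by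
      have e2 : (1 + S) * mapV M i = mapV (M - A) i + T := by
        rw [hT, toep_eq, mapV_sub, add_mul, one_mul, ← mapV_shV M]
        abel
      exact LinearMap.congr_fun e2 x.1
    have e3 : (1 + S) (T x.2) = T ((1 + S) x.2) := by
      have e4 : (1 + S) * T = T * (1 + S) := by
        rw [add_mul, mul_add, one_mul, mul_one, hTS]
      exact LinearMap.congr_fun e4 x.2
    rw [map_add, map_add, e1, e3]
    abel
  have hΘ : Function.Injective Θ := by
    intro x y hxy
    have h1 := congrArg Prod.fst hxy
    have h2 := congrArg Prod.snd hxy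
    exact Prod.ext h1 (one_add_shV_injective i h2)
  have h1 : rk (dbl T (mapV M i)) = rk (Θ * dbl T (mapV M i)) := by
    rw [rk, rk]
    have h2 : LinearMap.range (Θ * dbl T (mapV M i)) =
        (LinearMap.range (dbl T (mapV M i))).map Θ := LinearMap.range_comp _ _
    rw [h2]
    exact LinearEquiv.finrank_eq (Submodule.equivMapOfInjective Θ hΘ _)
  rw [h1, e]
  exact rk_mul_le_left _ _

/-- the first-order gain -/
theorem tt_gain [CharZero F] [FiniteDimensional F V] (A M : Module.End F V) (j : ℕ)
    (G : Module.End F (Fin (j + 1) → V)) :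
    tt A M (j + 2) + tt A M j ≤ 2 * tt A M (j + 1) +
      rk ((1 - toep A M (j + 1) * G) * mapV (M - A) (j + 1) * (1 - G * toep A M (j + 1))) :=
  (tt_add_tt_le A M j).trans ((rk_dbl_twist A M (j + 1)).trans (rk_dbl_le _ _ _))

end Pool.Agent.Lib.MP_64d474_lc
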