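import Mathlib
import Pool.Agent.Lib.MP_64d474_lc.ZtChain
import Pool.Agent.Lib.MP_64d474_lc.ZnScheme

/-!
Amplification with polynomially many terms: from a set of points that approximates the rank of every
linear family up to a constant factor `κ`, the sums of `4 κ q ^ 2` multiples of its points
approximate the rank up to the factor `1 - 1 / q`.
-/

open Module

namespace Pool.Agent.Lib.MP_64d474_lc

section blocks

variable {F : Type*} [Field F] {C : Type*} [Fintype C] {W : C → Type*}
  [∀ c, AddCommGroup (W c)] [∀ c, Module F (W c)]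

/-- block diagonal operators -/
def bdg (f : ∀ c, Module.End F (W c)) : Module.End F (∀ c, W c) :=
  LinearMap.pi fun c => f c ∘ₗ LinearMap.proj c

omit [Fintype C] in
theorem bdg_apply (f : ∀ c, Module.End F (W c)) (x : ∀ c, W c) (c : C) :
    bdg f x c = f c (x c) := rfl

omit [Fintype C] in
theorem bdg_mul (f g : ∀ c, Module.End F (W c)) : bdg f * bdg g = bdg fun c => f c * g c := rfl

omit [Fintype C] in
theorem bdg_sub (f g : ∀ c, Module.End F (W c)) : bdg f - bdg g = bdg fun c => f c - g c := rfl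

omit [Fintype C] in
theorem bdg_one : (1 : Module.End F (∀ c, W c)) = bdg fun _ => 1 := rfl

theorem rk_bdg [∀ c, FiniteDimensional F (W c)] (f : ∀ c, Module.End F (W c)) :
    rk (bdg f) = ∑ c, rk (f c) := by
  classical
  have e : LinearMap.range (bdg f) ≃ₗ[F] ∀ c, LinearMap.range (f c) :=
    { toFun := fun x c => ⟨x.1 c, by
        obtain ⟨y, hy⟩ := x.2
        exact ⟨y c, by rw [← hy]; rfl⟩⟩
      invFun := fun y => ⟨fun c => (y c).1, by
        have h : ∀ c, ∃ v, f c v = (y c).1 := fun c => (y c).2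
        choose v hv using h
        exact ⟨v, funext hv⟩⟩
      left_inv := fun x => rfl
      right_inv := fun y => rfl
      map_add' := fun x y => rfl
      map_smul' := fun a x => rfl }
  rw [rk, e.finrank_eq, Module.finrank_pi_fintype]
  rfl

omit [Fintype C] in
theorem GInv.bdgInv {T G : ∀ c, Module.End F (W c)} (h : ∀ c, GInv (T c) (G c)) :
    GInv (bdg T) (bdg G) := by
  constructor
  · rw [bdg_mul, bdg_mul]
    congr 1
    funext c
    exact (h c).aga
  · rw [bdg_mul, bdg_mul]
    congr 1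
    funext c
    exact (h c).gag

end blocks

/-- the approximation property passes to spaces of smaller dimension -/
theorem RankApprox.of_le {F V V' E : Type*} [Field F] [AddCommGroup V] [Module F V]
    [FiniteDimensional F V] [AddCommGroup V'] [Module F V'] [FiniteDimensional F V']
    [AddCommGroup E] [Module F E] {S : Set E} {κ : ℕ} (h : RankApprox (F := F) V' S κ)
    (hd : finrank F V ≤ finrank F V') : RankApprox (F := F) V S κ := by
  classical
  let e : V ≃ₗ[F] (Fin (finrank F V) → F) := (finBasis F V).equivFun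
  let e' : V' ≃ₗ[F] (Fin (finrank F V') → F) := (finBasis F V').equivFun
  let π₀ : (Fin (finrank F V') → F) →ₗ[F] (Fin (finrank F V) → F) :=
    LinearMap.funLeft F F (Fin.castLE hd)
  have hπ₀ : Function.Surjective π₀ :=
    LinearMap.funLeft_surjective_of_injective F F _ (Fin.castLE_injective hd)
  let π : V' →ₗ[F] V := e.symm.toLinearMap ∘ₗ π₀ ∘ₗ e'.toLinearMap
  have hπ : Function.Surjective π :=
    e.symm.surjective.comp (hπ₀.comp e'.surjective)
  obtain ⟨i, hi⟩ := π.exists_rightInverse_of_surjective (LinearMap.range_eq_top.mpr hπ)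
  have hinj : Function.Injective i := by
    intro a b hab
    have h1 := LinearMap.congr_fun hi a
    have h2 := LinearMap.congr_fun hi b
    rw [LinearMap.comp_apply, hab] at h1
    rw [LinearMap.comp_apply, h1] at h2
    exact h2
  intro C y
  let C' : E →ₗ[F] Module.End F V' :=
    { toFun := fun x => i ∘ₗ C x ∘ₗ π
      map_add' := fun a b => by ext v; simp
      map_smul' := fun c a => by ext v; simp }
  have hC : ∀ x, rk (C' x) = rk (C x) := by
    intro x
    have h1 : LinearMap.range (C' x) = (LinearMap.range (C x)).map i := by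
      apply le_antisymm
      · rintro _ ⟨v, rfl⟩
        exact ⟨_, ⟨π v, rfl⟩, rfl⟩
      · rintro _ ⟨_, ⟨v, rfl⟩, rfl⟩
        obtain ⟨w, rfl⟩ := hπ v
        exact ⟨w, rfl⟩
    rw [rk, h1, rk]
    exact (LinearEquiv.finrank_eq (Submodule.equivMapOfInjective i hinj _)).symm
  obtain ⟨a, ha, h1⟩ := h C' y
  rw [hC, hC] at h1
  exact ⟨a, ha, h1⟩

/-- discrete integration of a convex sequence -/
theorem convex_bound (t : ℕ → ℕ) (l g : ℕ) (h0 : t 0 = 0)
    (hc : ∀ i, 2 * t (i + 1) ≤ t (i + 2) + t i)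
    (hg : ∑ i ∈ Finset.range l, (t (i + 2) + t i) ≤ 2 * ∑ i ∈ Finset.range l, t (i + 1) + g) :
    t (l + 1) ≤ (l + 1) * t 1 + l * g := by
  have hd : ∀ i j : ℕ, i ≤ j → (t (i + 1) : ℤ) - t i ≤ t (j + 1) - t j := by
    intro i j hij
    induction hij with
    | refl => exact le_rfl
    | step _ ih =>
      rename_i k _
      have h3 := hc k
      have h2 : (t (k.succ + 1) : ℤ) = t (k + 2) := rfl
      have h4 : (t k.succ : ℤ) = t (k + 1) := rfl
      rw [h2, h4]
      omega
  have h1 : ∀ l : ℕ, (∑ i ∈ Finset.range l, ((t (i + 2) : ℤ) + t i)) -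
      2 * ∑ i ∈ Finset.range l, (t (i + 1) : ℤ) = (t (l + 1) - t l) - (t 1 - t 0) := by
    intro l
    induction l with
    | zero => simp
    | succ l ih =>
      rw [Finset.sum_range_succ, Finset.sum_range_succ]
      have h2 : t (l + 1 + 1) = t (l + 2) := rfl
      rw [h2]
      linarith
  have h2 : ∀ j : ℕ, j ≤ l → (t (j + 1) : ℤ) ≤ t 1 + j * (t (l + 1) - t l) := by
    intro j
    induction j with
    | zero => intro _; simp
    | succ j ih =>
      intro hj
      have h3 := ih (by omega)
      have h4 := hd (j + 1) l hj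
      push_cast
      have h5 : (t (j + 1 + 1) : ℤ) ≤ t (j + 1) + (t (l + 1) - t l) := by linarith
      have h6 : ((j : ℤ) + 1) * (t (l + 1) - t l) = j * (t (l + 1) - t l) + (t (l + 1) - t l) := by
        ring
      rw [h6]
      linarith
  have h3 := h2 l le_rfl
  have h4 := h1 l
  have h5 : (∑ i ∈ Finset.range l, ((t (i + 2) : ℤ) + t i)) ≤
      2 * ∑ i ∈ Finset.range l, (t (i + 1) : ℤ) + g := by
    have := hg
    zify at this
    exact this
  have h6 : (t (l + 1) : ℤ) - t l ≤ t 1 + g := by
    rw [h0] at h4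
    push_cast at h4
    linarith
  have h7 : (l : ℤ) * (t (l + 1) - t l) ≤ l * (t 1 + g) :=
    mul_le_mul_of_nonneg_left h6 (Int.natCast_nonneg l)
  zify
  have h8 : ((l : ℤ) + 1) * t 1 + l * g = t 1 + l * (t 1 + g) := by ring
  rw [h8]
  linarith

section

variable {F V : Type*} [Field F] [CharZero F] [AddCommGroup V] [Module F V]
  [FiniteDimensional F V] {m : ℕ} {X : Finset (Fin m → ℕ)}

/-- the space of the block Toeplitz operators of the lengths `1, …, l` -/
abbrev TSpace (V : Type*) (l : ℕ) : Type _ := (i : Fin l) → Fin ((i : ℕ) + 1) → V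

/-- the sum of the ranks of the block Toeplitz operators of the lengths `1, …, l` -/
noncomputable def pot (A M : Module.End F V) (l : ℕ) : ℕ :=
  rk (bdg (W := fun i : Fin l => Fin ((i : ℕ) + 1) → V) fun i => toep A M ((i : ℕ) + 1))

omit [CharZero F] in
theorem pot_eq (A M : Module.End F V) (l : ℕ) :
    pot A M l = ∑ i ∈ Finset.range l, tt A M (i + 1) := by
  rw [pot, rk_bdg, Finset.sum_range]
  rfl

/-- one round of the scheme -/
theorem RankApprox.round2 {κ l : ℕ} {S : Set (Fin m → F)}
    (hX : RankApprox (F := F) (TSpace V l) S κ) (A M : Module.End F V)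
    (B : (Fin m → F) →ₗ[F] Module.End F V) (y : Fin m → F) (hy : B y = M - A) (c : ℕ)
    (hc : ∀ a ∈ S, ∀ z : F, pot (A + z • B a) M l ≤ pot A M l + c) :
    l * rk M ≤ (l + 1) * rk A + l * (κ * c) := by
  classical
  choose G hG using fun i : Fin l => exists_ginv (toep A M ((i : ℕ) + 1))
  set T : (i : Fin l) → Module.End F (Fin ((i : ℕ) + 1) → V) :=
    fun i => toep A M ((i : ℕ) + 1) with hT
  have hbG : GInv (bdg T) (bdg G) := GInv.bdgInv hG
  let Em : (Fin m → F) →ₗ[F] Module.End F (TSpace V l) :=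
    { toFun := fun x => bdg fun i : Fin l => mapV (B x) ((i : ℕ) + 1)
      map_add' := fun a b => by
        refine LinearMap.ext fun x => funext fun i => funext fun k => ?_
        rw [LinearMap.add_apply, Pi.add_apply, bdg_apply, bdg_apply, bdg_apply, Pi.add_apply,
          mapV_apply, mapV_apply, mapV_apply, map_add, LinearMap.add_apply]
      map_smul' := fun a b => by
        refine LinearMap.ext fun x => funext fun i => funext fun k => ?_
        rw [RingHom.id_apply, LinearMap.smul_apply, Pi.smul_apply, bdg_apply, bdg_apply,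
          Pi.smul_apply, mapV_apply, mapV_apply, map_smul, LinearMap.smul_apply] }
  have hEm : ∀ x, Em x = bdg fun i : Fin l => mapV (B x) ((i : ℕ) + 1) := fun _ => rfl
  let Cm : (Fin m → F) →ₗ[F] Module.End F (TSpace V l) :=
    LinearMap.mulLeftRight F (1 - bdg T * bdg G, 1 - bdg G * bdg T) ∘ₗ Em
  have hCm : ∀ x, Cm x = (1 - bdg T * bdg G) * Em x * (1 - bdg G * bdg T) := fun _ => rfl
  obtain ⟨a, ha, h1⟩ := hX Cm y
  -- the gain at the point `a`
  have h2 : rk (Cm a) ≤ c := by
    have h3 := hbG.gain (Em a) c (by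
      intro z
      have h4 := hc a ha z
      rw [pot, pot] at h4
      have h5 : bdg T + z • Em a = bdg (W := fun i : Fin l => Fin ((i : ℕ) + 1) → V)
          fun i => toep (A + z • B a) M ((i : ℕ) + 1) := by
        refine LinearMap.ext fun x => funext fun i => ?_
        rw [bdg_apply, toep_add_smul]
        rfl
      rw [h5]
      exact h4) 0
    rw [pow_zero, mul_one, zero_add, one_mul] at h3
    rw [hCm]
    exact h3
  -- the generic gain
  have h3 : rk (Cm y) = ∑ i : Fin l, rk ((1 - T i * G i) * mapV (M - A) ((i : ℕ) + 1) *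
      (1 - G i * T i)) := by
    rw [hCm, hEm, hy, bdg_mul, bdg_mul, bdg_one, bdg_sub, bdg_sub, bdg_mul, bdg_mul, rk_bdg]
  have h4 : ∑ i ∈ Finset.range l, (tt A M (i + 2) + tt A M i) ≤
      2 * ∑ i ∈ Finset.range l, tt A M (i + 1) + rk (Cm y) := by
    rw [h3, Finset.mul_sum, Finset.sum_range, Finset.sum_range, ← Finset.sum_add_distrib]
    exact Finset.sum_le_sum fun i _ => tt_gain A M i (G i)
  have h5 := convex_bound (tt A M) l (rk (Cm y)) (tt_zero A M) (tt_convex A M) h4
  rw [tt_one] at h5
  refine (mul_rk_le_tt A M l).trans (h5.trans ?_)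
  exact Nat.add_le_add_left (Nat.mul_le_mul_left _ (h1.trans (Nat.mul_le_mul_left _ h2))) _

end

/-- the recursion of the scheme -/
theorem scheme_recursion2 (q κ ρ R N : ℕ) (u : ℕ → ℕ) (hu : Monotone u) (hq : 1 ≤ q)
    (hκ : 1 ≤ κ) (hN : N = 4 * κ * q ^ 2)
    (h : ∀ j, j < N → 2 * q * ρ ≤ (2 * q + 1) * R + 2 * q * (κ * (u (j + 1) - u j)))
    (hr : u N ≤ u 0 + 2 * q * ρ) : (q - 1) * ρ ≤ q * R := by
  obtain ⟨p, rfl⟩ : ∃ p, q = p + 1 := ⟨q - 1, by omega⟩
  rw [Nat.add_sub_cancel]
  by_contra hcon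
  push Not at hcon
  have h1 : ∀ j, j < N → (p + 2) * ρ + 1 ≤ 2 * (p + 1) ^ 2 * κ * (u (j + 1) - u j) := by
    intro j hj
    have h2 := Nat.mul_le_mul_left (p + 1) (h j hj)
    have h3 : (p + 1) * ((2 * (p + 1) + 1) * R + 2 * (p + 1) * (κ * (u (j + 1) - u j))) =
        (2 * p + 3) * ((p + 1) * R) + 2 * (p + 1) ^ 2 * κ * (u (j + 1) - u j) := by ring
    rw [h3] at h2
    have h4 : (2 * p + 3) * ((p + 1) * R + 1) ≤ (2 * p + 3) * (p * ρ) :=
      Nat.mul_le_mul_left _ hcon
    have h5 : (p + 1) * (2 * (p + 1) * ρ) = (2 * p + 3) * (p * ρ) + (p + 2) * ρ := by ring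
    have h6 : (2 * p + 3) * ((p + 1) * R + 1) = (2 * p + 3) * ((p + 1) * R) + (2 * p + 3) := by
      ring
    rw [h5] at h2
    rw [h6] at h4
    omega
  have h2 : ∀ j, j ≤ N → j * ((p + 2) * ρ + 1) ≤ 2 * (p + 1) ^ 2 * κ * (u j - u 0) := by
    intro j
    induction j with
    | zero => intro _; simp
    | succ j ih =>
      intro hj
      have h3 := ih (by omega)
      have h4 := h1 j (by omega)
      have h5 : u (j + 1) - u 0 = (u j - u 0) + (u (j + 1) - u j) := by
        have h6 : u 0 ≤ u j := hu (Nat.zero_le j)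
        have h7 : u j ≤ u (j + 1) := hu (Nat.le_succ j)
        omega
      rw [h5]
      calc (j + 1) * ((p + 2) * ρ + 1) = j * ((p + 2) * ρ + 1) + ((p + 2) * ρ + 1) := by ring
        _ ≤ 2 * (p + 1) ^ 2 * κ * (u j - u 0) + 2 * (p + 1) ^ 2 * κ * (u (j + 1) - u j) :=
            Nat.add_le_add h3 h4
        _ = 2 * (p + 1) ^ 2 * κ * (u j - u 0 + (u (j + 1) - u j)) := (Nat.mul_add _ _ _).symm
  have h3 := h2 N le_rfl
  have h4 : u N - u 0 ≤ 2 * (p + 1) * ρ := by omega
  have h5 : 2 * (p + 1) ^ 2 * κ * (u N - u 0) ≤ 2 * (p + 1) ^ 2 * κ * (2 * (p + 1) * ρ) :=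
    Nat.mul_le_mul_left _ h4
  have h6 : 2 * (p + 1) ^ 2 * κ * (2 * (p + 1) * ρ) = N * ((p + 1) * ρ) := by
    rw [hN]
    ring
  rw [h6] at h5
  have hN0 : 0 < N := by
    rw [hN]
    positivity
  have h7 : (p + 2) * ρ + 1 ≤ (p + 1) * ρ := Nat.le_of_mul_le_mul_left (h3.trans h5) hN0
  have h8 : (p + 2) * ρ = (p + 1) * ρ + ρ := by ring
  omega

/-- the amplification theorem -/
theorem RankApprox.amplify2 {F V : Type*} [Field F] [CharZero F] [AddCommGroup V] [Module F V]
    [FiniteDimensional F V] {m : ℕ} {X : Finset (Fin m → ℕ)} {κ q D : ℕ} (hκ : 1 ≤ κ)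
    (hXne : X.Nonempty)
    (hX : RankApprox (F := F) (TSpace V (2 * q)) {x | ∃ a ∈ X, x = castV F a} κ)
    (hD : finrank F (TSpace V (2 * q)) ≤ D)
    (A₀ : Module.End F V) (B : (Fin m → F) →ₗ[F] Module.End F V) :
    ∃ h ∈ sums D X (4 * κ * q ^ 2), ∀ x : Fin m → F,
      (q - 1) * rk (A₀ + B x) ≤ q * rk (A₀ + B (castV F h)) := by
  classical
  rcases Nat.eq_zero_or_pos q with rfl | hq
  · exact ⟨0, zero_mem_sums hXne _, fun x => by simp⟩
  -- a point at which the rank is maximal
  obtain ⟨xs, hxs⟩ : ∃ xs : Fin m → F, ∀ x, rk (A₀ + B x) ≤ rk (A₀ + B xs) := by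
    have hb : BddAbove (Set.range fun x : Fin m → F => rk (A₀ + B x)) :=
      ⟨finrank F V, by rintro _ ⟨x, rfl⟩; exact Submodule.finrank_le _⟩
    obtain ⟨xs, hxs⟩ := Nat.sSup_mem (Set.range_nonempty fun x : Fin m → F => rk (A₀ + B x)) hb
    exact ⟨xs, fun x => by
      have := le_csSup hb ⟨x, rfl⟩
      rw [← hxs] at this
      exact this⟩
  set M := A₀ + B xs with hM
  set ρ := rk M with hρ
  set l := 2 * q with hl
  set N := 4 * κ * q ^ 2 with hN
  set P : (Fin m → ℕ) → ℕ := fun h => pot (A₀ + B (castV F h)) M l with hP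
  set R : (Fin m → ℕ) → ℕ := fun h => rk (A₀ + B (castV F h)) with hR
  have hne : ∀ N, (sums D X N).Nonempty := fun N => ⟨0, zero_mem_sums hXne N⟩
  obtain ⟨h, hh, hmax⟩ := Finset.exists_mem_eq_sup (sums D X N) (hne _) R
  refine ⟨h, hh, fun x => (Nat.mul_le_mul_left _ (hxs x)).trans ?_⟩
  have hmono : Monotone fun j => (sums D X j).sup P := by
    intro j j' hj
    exact Finset.sup_mono (sums_mono hXne hj)
  refine scheme_recursion2 q κ ρ (R h) N (fun j => (sums D X j).sup P) hmono hq hκ hN ?_ ?_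
  · intro j hj
    obtain ⟨g, hg, hgmax⟩ := Finset.exists_mem_eq_sup (sums D X j) (hne _) P
    have e1 : (sums D X j).sup P = P g := hgmax
    have h3 := hX.round2 (A₀ + B (castV F g)) M B (xs - castV F g) (by
      rw [hM, map_sub]
      abel) ((sums D X (j + 1)).sup P - (sums D X j).sup P) (by
      rintro _ ⟨a, ha, rfl⟩ z
      -- pass to a natural value
      set T : Module.End F (TSpace V l) := bdg (W := fun i : Fin l => Fin ((i : ℕ) + 1) → V)
        (fun i => toep (A₀ + B (castV F g)) M ((i : ℕ) + 1)) with hT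
      set E : Module.End F (TSpace V l) := bdg (W := fun i : Fin l => Fin ((i : ℕ) + 1) → V)
        (fun i => mapV (B (castV F a)) ((i : ℕ) + 1)) with hE
      have h5 : ∀ z : F, pot (A₀ + B (castV F g) + z • B (castV F a)) M l = rk (T + z • E) := by
        intro z
        have h6 : T + z • E = bdg (W := fun i : Fin l => Fin ((i : ℕ) + 1) → V)
            fun i => toep (A₀ + B (castV F g) + z • B (castV F a)) M ((i : ℕ) + 1) := by
          refine LinearMap.ext fun x => funext fun i => ?_
          rw [bdg_apply, toep_add_smul]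
          rfl
        rw [pot, h6]
      obtain ⟨z', hz', h6⟩ := exists_pencil_nat T E z
      have hz'D : z' ≤ D := hz'.trans ((Submodule.finrank_le _).trans hD)
      have h7 : g + z' • a ∈ sums D X (j + 1) := by
        refine sums_add hg (mem_sums.mpr ⟨fun _ => a, fun _ => z', fun _ => ha,
          fun _ => hz'D, ?_⟩)
        rw [Fin.sum_univ_one]
      have h8 : P (g + z' • a) ≤ (sums D X (j + 1)).sup P := Finset.le_sup (f := P) h7
      have h9 : P (g + z' • a) = rk (T + (z' : F) • E) := by
        rw [← h5, hP]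
        dsimp only
        rw [castV_add, castV_smul, map_add, map_smul, ← add_assoc]
      have h10 : (sums D X j).sup P ≤ (sums D X (j + 1)).sup P := hmono (Nat.le_succ j)
      rw [h5 z, ← show P g = pot (A₀ + B (castV F g)) M l from rfl, ← e1]
      have h11 : rk (T + z • E) ≤ rk (T + (z' : F) • E) := h6
      rw [← h9] at h11
      omega)
    have h4 : R g ≤ R h := by
      have h5 : g ∈ sums D X N := sums_mono hXne hj.le hg
      have h6 := Finset.le_sup (f := R) h5
      rw [hmax] at h6
      exact h6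
    exact h3.trans (Nat.add_le_add_right (Nat.mul_le_mul_left _ h4) _)
  · -- the potential increases by at most `l ρ` in total
    have h1 : (sums D X N).sup P ≤ ∑ i ∈ Finset.range l, (i + 1) * ρ := by
      refine Finset.sup_le fun g _ => ?_
      rw [hP]
      dsimp only
      rw [pot_eq]
      refine Finset.sum_le_sum fun i _ => ?_
      refine tt_le _ _ ρ {-1} (fun z hz => ?_) (i + 1)
      rw [Finset.mem_singleton] at hz
      have hz1 : 1 + z ≠ 0 := fun h0 => hz (by linear_combination h0)
      have e1 : A₀ + B (castV F g) + z • M = (1 + z) •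
          (A₀ + B ((1 + z)⁻¹ • (castV F g + z • xs))) := by
        rw [hM, map_smul, map_add, map_smul, smul_add (1 + z), smul_smul (1 + z),
          mul_inv_cancel₀ hz1, one_smul]
        module
      rw [e1, rk_smul _ hz1]
      exact hxs _
    have h2 : ∑ i ∈ Finset.range l, i * ρ ≤ (sums D X 0).sup P := by
      obtain ⟨g, hg⟩ := hne 0
      refine le_trans ?_ (Finset.le_sup (f := P) hg)
      rw [hP]
      dsimp only
      rw [pot_eq]
      exact Finset.sum_le_sum fun i _ => mul_rk_le_tt _ M i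
    have h3 : ∑ i ∈ Finset.range l, (i + 1) * ρ = ∑ i ∈ Finset.range l, i * ρ + l * ρ := by
      have h4 : ∀ i ∈ Finset.range l, (i + 1) * ρ = i * ρ + ρ := fun i _ => by ring
      rw [Finset.sum_congr rfl h4, Finset.sum_add_distrib, Finset.sum_const, Finset.card_range,
        smul_eq_mul]
    have h5 : l * ρ = 2 * q * ρ := by rw [hl]
    omega

/-- the dimension of the space of the Toeplitz operators -/
theorem finrank_TSpace (F : Type*) [Field F] (n q : ℕ) :
    finrank F (TSpace (Fin n → F) (2 * q)) = n * (q * (2 * q + 1)) := by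
  have h1 : ∀ l : ℕ, finrank F (TSpace (Fin n → F) l) = ∑ i ∈ Finset.range l, (i + 1) * n := by
    intro l
    rw [Module.finrank_pi_fintype, Finset.sum_range]
    refine Finset.sum_congr rfl fun i _ => ?_
    rw [Module.finrank_pi_fintype]
    simp
  have h2 : ∀ l : ℕ, 2 * ∑ i ∈ Finset.range l, (i + 1) * n = n * (l * (l + 1)) := by
    intro l
    induction l with
    | zero => simp
    | succ l ih =>
      rw [Finset.sum_range_succ, Nat.mul_add, ih]
      ring
  have h3 := h2 (2 * q)
  rw [h1]
  have h4 : n * (2 * q * (2 * q + 1)) = 2 * (n * (q * (2 * q + 1))) := by ring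
  omega

end Pool.Agent.Lib.MP_64d474_lc
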