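import Mathlib
import Pool.Agent.Lib.MP_64d474_lc.Op.Types

/-!
# Hitting sets for symbolic matrices, in terms of their diagonal blocks in unknown bases

The data: a field `K` of characteristic 2, an additive injective map `φ : K → (ℤ/2)^l` and distinct
elements `α_1, …, α_m` of `K` (`IsCode φ α`).  The set `signSet φ α` consists of the vectors
`((-1) ^ (u · φ (α_k) + v · φ (α_k ^ 3)))_k`, where `u, v` run over `(ℤ/2)^l`.

Let `L = ⌊log₂ n⌋ + 1`.  The set `hits φ α n c e` consists of all sums of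
`N = 108 L ^ 2 + 3 c (c + L) + 3 e ^ 2 (e + L)` terms `z a` with `a ∈ signSet φ α` and
`0 ≤ z ≤ n`.  It has at most `(4 ^ l (n + 1)) ^ N` elements.

Let `F` be a field of characteristic zero, `B₀, …, B_m` matrices of size `n × n` over `F`, `r ≤ n`,
`S ∈ F ^ (r × n)` and `T ∈ F ^ (n × r)`.  Suppose that the matrices `S B_k T`, `0 ≤ k ≤ m`, are
block upper triangular for a labelling `β` of the indices, and that
`S (B₀ + ∑ x_k B_k) T` is nonsingular for some `x`.  Suppose that every diagonal block is of one of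
the following types.

* `RankOneType`: there is a subspace `V` of `F ^ m` of codimension at most `c`, which may depend on
  the block, such that the blocks of the matrices `∑ x_k S B_k T`, `x ∈ V`, are spanned by those of
  rank at most one.
* The size of the block is at most `e`.
* `SymmetricType`: the blocks of the matrices `S (B₀ + ∑ x_k B_k) T` are symmetric, and one of them
  is nonsingular and has no totally isotropic subspace of dimension larger than `ν`, where
  `2 ν + 1 ≤ e`.
* `IndexType`: for some `y` the block `M` of `S (B₀ + ∑ y_k B_k) T` is nonsingular, and for every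
  integer vector `h` the matrix `M⁻¹ D`, where `D` is the block of `S (B₀ + ∑ h_k B_k) T`, satisfies
  `rank (M⁻¹ D) ^ (e + 1) = rank (M⁻¹ D) ^ e`.

Then `S (B₀ + ∑ h_k B_k) T` is nonsingular for some `h` in `hits φ α n c e`.  The set depends
neither on the field nor on any of the matrices, subspaces, labels and types.
-/

open Matrix Module

namespace Pool.Agent.Old.MP_64d474_lc.CompositionFactors

open Pool.Agent.Lib.MP_64d474_lc.Op

/-- the number of terms -/
def terms (n c e : ℕ) : ℕ :=
  108 * (Nat.log 2 n + 1) ^ 2 + 3 * c * (c + (Nat.log 2 n + 1)) +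
    3 * e ^ 2 * (e + (Nat.log 2 n + 1))

/-- the hitting set -/
def hits {K : Type} [Field K] {l m : ℕ} (φ : K → Fin l → ZMod 2) (α : Fin m → K)
    (n c e : ℕ) : Finset (Fin m → ℤ) :=
  sums n (signSet φ α) (terms n c e)

/-- the diagonal block with label `b` of `A₀ + ∑ x_k A_k` -/
def block {F : Type*} [Field F] {r m : ℕ} (A₀ : Matrix (Fin r) (Fin r) F)
    (A : Fin m → Matrix (Fin r) (Fin r) F) (β : Fin r → ℕ) (b : ℕ) (x : Fin m → F) :
    Matrix {i // β i = b} {i // β i = b} F :=
  (A₀ + ∑ k, x k • A k).submatrix (fun i => i.1) fun i => i.1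

/-- on a subspace of codimension at most `c` the block of `∑ x_k A_k` is spanned by its values of
rank at most one -/
def RankOneType {F : Type*} [Field F] {r m : ℕ} (c : ℕ) (A : Fin m → Matrix (Fin r) (Fin r) F)
    (β : Fin r → ℕ) (b : ℕ) : Prop :=
  ∃ V : Submodule F (Fin m → F), m ≤ finrank F V + c ∧
    ∀ x ∈ V, block 0 A β b x ∈ Submodule.span F {M | M.rank ≤ 1 ∧ ∃ y ∈ V, block 0 A β b y = M}

/-- the blocks are symmetric, and one of them is nonsingular and has no large totally isotropic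
subspace -/
def SymmetricType {F : Type*} [Field F] {r m : ℕ} (e : ℕ) (A₀ : Matrix (Fin r) (Fin r) F)
    (A : Fin m → Matrix (Fin r) (Fin r) F) (β : Fin r → ℕ) (b : ℕ) : Prop :=
  (∀ x, (block A₀ A β b x)ᵀ = block A₀ A β b x) ∧ ∃ (y : Fin m → F) (ν : ℕ), 2 * ν + 1 ≤ e ∧
    (block A₀ A β b y).det ≠ 0 ∧ ∀ U : Submodule F ({i // β i = b} → F),
      (∀ u ∈ U, ∀ v ∈ U, u ⬝ᵥ (block A₀ A β b y *ᵥ v) = 0) → finrank F U ≤ ν

/-- the kernels of the powers of the matrices `M⁻¹ D` do not grow from the exponent `e` on -/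
def IndexType {F : Type*} [Field F] {r m : ℕ} (e : ℕ) (A₀ : Matrix (Fin r) (Fin r) F)
    (A : Fin m → Matrix (Fin r) (Fin r) F) (β : Fin r → ℕ) (b : ℕ) : Prop :=
  ∃ y : Fin m → F, (block A₀ A β b y).det ≠ 0 ∧ ∀ h : Fin m → ℤ,
    (((block A₀ A β b y)⁻¹ * block A₀ A β b fun k => (h k : F)) ^ (e + 1)).rank =
      (((block A₀ A β b y)⁻¹ * block A₀ A β b fun k => (h k : F)) ^ e).rank

theorem result.{u} :
    (∀ (K : Type) [Field K] [CharP K 2] (l m : ℕ) (φ : K → Fin l → ZMod 2) (α : Fin m → K),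
      IsCode φ α → ∀ n c e : ℕ,
        (hits φ α n c e).card ≤ (4 ^ l * (n + 1)) ^ terms n c e ∧
        (∀ h ∈ hits φ α n c e, ∀ k, |h k| ≤ terms n c e * n) ∧
        ∀ (F : Type u) [Field F] [CharZero F] (B₀ : Matrix (Fin n) (Fin n) F)
          (B : Fin m → Matrix (Fin n) (Fin n) F) (r : ℕ) (S : Matrix (Fin r) (Fin n) F)
          (T : Matrix (Fin n) (Fin r) F) (β : Fin r → ℕ), r ≤ n →
          (∀ i j, (S * B₀ * T) i j ≠ 0 → β i ≤ β j) →
          (∀ k i j, (S * B k * T) i j ≠ 0 → β i ≤ β j) →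
          (∀ b, RankOneType c (fun k => S * B k * T) β b ∨ Fintype.card {i // β i = b} ≤ e ∨
            SymmetricType e (S * B₀ * T) (fun k => S * B k * T) β b ∨
            IndexType e (S * B₀ * T) (fun k => S * B k * T) β b) →
          (∃ x : Fin m → F, (S * (B₀ + ∑ k, x k • B k) * T).det ≠ 0) →
          ∃ h ∈ hits φ α n c e, (S * (B₀ + ∑ k, (h k : F) • B k) * T).det ≠ 0) ∧
    ∀ m : ℕ, 1 ≤ m → ∃ (K : Type) (_ : Field K) (_ : CharP K 2) (l : ℕ)
      (φ : K → Fin l → ZMod 2) (α : Fin m → K), IsCode φ α ∧ 2 ^ l ≤ 2 * m := by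
  classical
  refine ⟨?_, fun m hm => exists_code m hm⟩
  intro K _ _ l m φ α hcode n c e
  refine ⟨(card_sums_le _).trans (Nat.pow_le_pow_left (Nat.mul_le_mul_right _
      (card_signSet_le φ α)) _), sums_coord_le (abs_signSet φ α), ?_⟩
  intro F _ _ B₀ B r S T β hr h0 hB htype hx
  obtain ⟨x₀, hx₀⟩ := hx
  have hmul : ∀ y : Fin m → F, S * (B₀ + ∑ k, y k • B k) * T =
      S * B₀ * T + ∑ k, y k • (S * B k * T) := by
    intro y
    rw [Matrix.mul_add, Matrix.add_mul, Matrix.mul_sum, Matrix.sum_mul]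
    congr 1
    refine Finset.sum_congr rfl fun k _ => ?_
    rw [Matrix.mul_smul, Matrix.smul_mul]
  set A₀ := S * B₀ * T with hA₀
  set A : Fin m → Matrix (Fin r) (Fin r) F := fun k => S * B k * T with hA
  rw [hmul] at hx₀
  have hblock : ∀ b x, block A₀ A β b x = (A₀ + ∑ k, x k • A k).toSquareBlock β b := by
    intro b x
    rfl
  have htri : ∀ y : Fin m → F, (A₀ + ∑ k, y k • A k).BlockTriangular β := by
    intro y i j hij
    by_contra h
    refine absurd ?_ (not_le.mpr hij)
    by_cases h1 : A₀ i j = 0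
    · rw [Matrix.add_apply, h1, zero_add, Matrix.sum_apply] at h
      obtain ⟨k, _, hk⟩ := Finset.exists_ne_zero_of_sum_ne_zero h
      rw [Matrix.smul_apply] at hk
      exact hB k i j (right_ne_zero_of_mul hk)
    · exact h0 i j h1
  obtain ⟨h, hh, hdet⟩ := comp_core hcode (c := c) (e := e) hr A₀ A β h0 hB (by
    intro b
    rcases htype b with h1 | h1 | h1 | h1
    · left
      obtain ⟨V, hV, h2⟩ := h1
      refine ⟨V, hV, fun x hx => ?_⟩
      have h3 := h2 x hx
      have h4 : ∀ x, block 0 A β b x = (∑ k, x k • A k).toSquareBlock β b := by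
        intro x
        show (0 + ∑ k, x k • A k).toSquareBlock β b = _
        rw [zero_add]
      rw [h4] at h3
      simp only [h4] at h3
      exact h3
    · right
      refine ⟨x₀, ?_, fun h => rank_pow_card _ h1⟩
      by_cases hb : b ∈ Finset.univ.image β
      · rw [(htri x₀).det, Finset.prod_ne_zero_iff] at hx₀
        exact hx₀ b hb
      · haveI : IsEmpty {i // β i = b} :=
          ⟨fun i => hb (Finset.mem_image.mpr ⟨i.1, Finset.mem_univ _, i.2⟩)⟩
        rw [Matrix.det_isEmpty]
        exact one_ne_zero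
    · right
      obtain ⟨hsymm, y, ν, hν, hdet, hiso⟩ := h1
      refine ⟨y, hdet, fun h => ?_⟩
      have h2 := stIndex F {i // β i = b} (block A₀ A β b fun k => (h k : F)) (block A₀ A β b y) ν
        (hsymm _) (hsymm y) hdet hiso
      exact rank_pow_stable _ h2.ge hν
    · right
      obtain ⟨y, hdet, h2⟩ := h1
      exact ⟨y, hdet, fun h => (h2 h).ge⟩) x₀ hx₀
  refine ⟨h, hh, ?_⟩
  rw [hmul]
  exact hdet

end Pool.Agent.Old.MP_64d474_lc.CompositionFactors
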