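import Mathlib

/-!
The derivative of a determinant of a matrix of polynomials, and invariance of the first order
variation under commutators.
-/

open Matrix Polynomial

namespace Pool.Agent.Lib.MP_64d474_lc

/-- Jacobi's formula for matrices of polynomials. -/
theorem derivative_det {S : Type*} [CommRing S] {n : Type*} [Fintype n] [DecidableEq n]
    (A : Matrix n n S[X]) :
    derivative A.det = (A.adjugate * A.map derivative).trace := by
  have h1 : (A.adjugate * A.map derivative).trace =
      ∑ i, (A.updateCol i (fun j => derivative (A j i))).det := by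
    rw [Matrix.trace]
    refine Finset.sum_congr rfl fun i _ => ?_
    rw [← Matrix.cramer_apply, Matrix.cramer_eq_adjugate_mulVec]
    rw [Matrix.diag_apply, Matrix.mul_apply, Matrix.mulVec, dotProduct]
    rfl
  rw [h1, Matrix.det_apply, Polynomial.derivative_sum]
  simp_rw [Matrix.det_apply]
  rw [Finset.sum_comm]
  refine Finset.sum_congr rfl fun σ _ => ?_
  rw [← Finset.smul_sum]
  have h2 : derivative (Equiv.Perm.sign σ • ∏ i, A (σ i) i) =
      Equiv.Perm.sign σ • derivative (∏ i, A (σ i) i) := by
    rcases Int.units_eq_one_or (Equiv.Perm.sign σ) with h | h <;> simp [h]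
  rw [h2, Polynomial.derivative_prod_finset]
  congr 1
  refine Finset.sum_congr rfl fun i _ => ?_
  rw [← Finset.mul_prod_erase Finset.univ (fun j => (A.updateCol i
    (fun j => derivative (A j i))) (σ j) j) (Finset.mem_univ i)]
  rw [Matrix.updateCol_self, mul_comm]
  congr 1
  refine Finset.prod_congr rfl fun j hj => ?_
  rw [Matrix.updateCol_ne (Finset.ne_of_mem_erase hj)]

/-- The first order variation of the determinant in the direction `P M + M Q`. -/
theorem trace_adjugate_mul_symmetry {S : Type*} [CommRing S] {n : Type*} [Fintype n]
    [DecidableEq n] (M P Q : Matrix n n S) :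
    (M.adjugate * (P * M + M * Q)).trace = (P.trace + Q.trace) * M.det := by
  rw [Matrix.mul_add, Matrix.trace_add]
  have h1 : (M.adjugate * (P * M)).trace = (M * M.adjugate * P).trace := by
    rw [← Matrix.mul_assoc, Matrix.trace_mul_comm, ← Matrix.mul_assoc]
  have h2 : (M.adjugate * (M * Q)).trace = (M.adjugate * M * Q).trace := by
    rw [← Matrix.mul_assoc]
  rw [h1, h2, Matrix.mul_adjugate, Matrix.adjugate_mul, Matrix.smul_mul, Matrix.smul_mul,
    Matrix.one_mul, Matrix.one_mul, Matrix.trace_smul, Matrix.trace_smul, smul_eq_mul,
    smul_eq_mul]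
  ring

/-- Taylor expansion: the derivative of `r ↦ det (M + r N)`. -/
theorem derivative_det_affine {S : Type*} [CommRing S] {n : Type*} [Fintype n] [DecidableEq n]
    (M N : Matrix n n S) (s : S) :
    (derivative (M.map C + (X : S[X]) • N.map C).det).eval s =
      ((M + s • N).adjugate * N).trace := by
  rw [derivative_det]
  have hmap : (M.map C + (X : S[X]) • N.map C).map derivative = N.map C := by
    ext i j : 2
    simp
  rw [hmap]
  have heval : (M.map C + (X : S[X]) • N.map C).map (eval s) = M + s • N := by
    ext i j
    simp only [Matrix.map_apply, Matrix.add_apply, Matrix.smul_apply, smul_eq_mul, eval_add,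
      eval_C, eval_mul, eval_X]
  have key : ∀ P : Matrix n n S[X], P.trace.eval s = (P.map (eval s)).trace := by
    intro P
    simp [Matrix.trace, Polynomial.eval_finsetSum]
  rw [key]
  have hm : ((M.map C + (X : S[X]) • N.map C).adjugate * N.map C).map (eval s) =
      ((M.map C + (X : S[X]) • N.map C).map (eval s)).adjugate * (N.map C).map (eval s) := by
    have h := (evalRingHom s).map_adjugate (M.map C + (X : S[X]) • N.map C)
    change ((evalRingHom s).mapMatrix _) = _
    rw [map_mul, RingHom.map_adjugate]
    rfl
  rw [hm, heval]
  congr 2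
  ext i j
  simp

end Pool.Agent.Lib.MP_64d474_lc
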