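import Mathlib
import Pool.Agent.Lib.MP_64d474_lc.DetDeriv

/-!
The slice lemma: if `x ∈ U ≤ V` and every element of `V` is of the form `u + (P x + x Q)` with
`u ∈ U` and `P V + V Q ⊆ V` (meaning `P w + w Q ∈ V` for `w ∈ V`), then the determinant vanishes
on `V` as soon as it vanishes on `U`.
-/

open Matrix Polynomial

namespace Pool.Agent.Lib.MP_64d474_lc

/-- Extracting a coefficient of a polynomial in two variables. -/
theorem exists_coeff_polynomial {F : Type*} [Field F] (G : F[X][X]) (k : ℕ) :
    ∃ q : F[X], (∀ c : F, q.eval c = (G.eval (C c)).coeff k) ∧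
      (∀ c : F, (derivative q).eval c = ((derivative G).eval (C c)).coeff k) := by
  induction G using Polynomial.induction_on' with
  | add p q hp hq =>
    obtain ⟨a, ha1, ha2⟩ := hp
    obtain ⟨b, hb1, hb2⟩ := hq
    refine ⟨a + b, fun c => ?_, fun c => ?_⟩
    · rw [eval_add, eval_add, coeff_add, ha1, hb1]
    · rw [derivative_add, derivative_add, eval_add, eval_add, coeff_add, ha2, hb2]
  | monomial j a =>
    refine ⟨monomial j (a.coeff k), fun c => ?_, fun c => ?_⟩
    · rw [eval_monomial, eval_monomial, ← C_pow, coeff_mul_C]
    · rw [derivative_monomial, derivative_monomial, eval_monomial, eval_monomial, ← C_pow,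
        coeff_mul_C, ← C_eq_natCast, coeff_mul_C]

section

variable {F : Type*} [Field F] {n : Type*} [Fintype n] [DecidableEq n]

/-- The matrix `x + X v` over the polynomial ring. -/
noncomputable def line (x v : Matrix n n F) : Matrix n n F[X] := x.map C + (X : F[X]) • v.map C

theorem line_add_smul (x v w : Matrix n n F) (c : F) :
    line x v + (C c) • ((X : F[X]) • w.map C) = line x (v + c • w) := by
  ext i j : 2
  simp only [line, Matrix.add_apply, Matrix.smul_apply, Matrix.map_apply, smul_eq_mul, C_add,
    C_mul]
  rw [mul_add, add_assoc, mul_left_comm]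

theorem eval_det_line (x v : Matrix n n F) (c : F) :
    (line x v).det.eval c = (x + c • v).det := by
  have h := (evalRingHom c).map_det (line x v)
  rw [coe_evalRingHom] at h
  rw [h]
  congr 1
  ext i j
  simp only [line, RingHom.mapMatrix_apply, Matrix.map_apply, Matrix.add_apply, Matrix.smul_apply,
    smul_eq_mul, coe_evalRingHom, eval_add, eval_C, eval_mul, eval_X]

theorem coeff_variation [Infinite F] (V : Submodule F (Matrix n n F)) (x : Matrix n n F) (k : ℕ)
    (hk : ∀ v ∈ V, (line x v).det.coeff k = 0) (v w : Matrix n n F) (hv : v ∈ V) (hw : w ∈ V) :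
    ((X : F[X]) * ((line x v).adjugate * w.map C).trace).coeff k = 0 := by
  obtain ⟨q, hq1, hq2⟩ := exists_coeff_polynomial
    (((line x v).map C + (X : F[X][X]) • ((X : F[X]) • w.map C).map C).det) k
  have hq : q = 0 := by
    apply Polynomial.funext
    intro c
    rw [hq1, eval_zero]
    have h := (evalRingHom (C c)).map_det
      ((line x v).map C + (X : F[X][X]) • ((X : F[X]) • w.map C).map C)
    rw [coe_evalRingHom] at h
    rw [h]
    have h2 : (evalRingHom (C c)).mapMatrix
        ((line x v).map C + (X : F[X][X]) • ((X : F[X]) • w.map C).map C) =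
        line x (v + c • w) := by
      rw [← line_add_smul]
      ext i j : 2
      simp only [RingHom.mapMatrix_apply, Matrix.map_apply, Matrix.add_apply, Matrix.smul_apply,
        smul_eq_mul, coe_evalRingHom, eval_add, eval_C, eval_mul, eval_X]
    rw [h2]
    exact hk _ (V.add_mem hv (V.smul_mem c hw))
  have h0 := hq2 0
  rw [hq, derivative_zero, eval_zero] at h0
  rw [derivative_det_affine] at h0
  rw [C_0, zero_smul, add_zero, Matrix.mul_smul, Matrix.trace_smul, smul_eq_mul] at h0
  exact h0.symm

/-- Symmetry identity on a line. -/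
theorem symmetry_line (x v P Q : Matrix n n F) :
    ((line x v).adjugate * (P * x + x * Q).map C).trace =
      C (P.trace + Q.trace) * (line x v).det -
        (X : F[X]) * ((line x v).adjugate * (P * v + v * Q).map C).trace := by
  have h := trace_adjugate_mul_symmetry (line x v) (P.map C) (Q.map C)
  have h2 : P.map C * line x v + line x v * Q.map C =
      (P * x + x * Q).map C + (X : F[X]) • (P * v + v * Q).map C := by
    have e : ∀ P Q : Matrix n n F, (P * Q).map (C : F →+* F[X]) = P.map C * Q.map C := by
      intro P Q
      exact Matrix.map_mul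
    have e2 : ∀ P Q : Matrix n n F, (P + Q).map (C : F →+* F[X]) = P.map C + Q.map C := by
      intro P Q
      ext i j : 2
      simp
    rw [line, e2, e2, e, e, e, e, Matrix.mul_add, Matrix.add_mul, Matrix.mul_smul,
      Matrix.smul_mul, smul_add]
    abel
  rw [h2, Matrix.mul_add, Matrix.trace_add, Matrix.mul_smul, Matrix.trace_smul, smul_eq_mul] at h
  have ht : (P.map (C : F →+* F[X])).trace + (Q.map (C : F →+* F[X])).trace =
      C (P.trace + Q.trace) := by
    simp [Matrix.trace]
  rw [ht] at h
  exact eq_sub_of_add_eq h

/-- **Slice lemma.** -/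
theorem det_eq_zero_of_slice [CharZero F] (V U : Submodule F (Matrix n n F)) (x : Matrix n n F)
    (hUV : U ≤ V) (hx : x ∈ U) (hU : ∀ u ∈ U, u.det = 0)
    (hslice : ∀ v ∈ V, ∃ u ∈ U, ∃ P Q : Matrix n n F, (∀ w ∈ V, P * w + w * Q ∈ V) ∧
      v = u + (P * x + x * Q)) :
    ∀ v ∈ V, v.det = 0 := by
  have key : ∀ k : ℕ, ∀ v ∈ V, (line x v).det.coeff k = 0 := by
    intro k
    induction k with
    | zero =>
      intro v _
      rw [Polynomial.coeff_zero_eq_eval_zero, eval_det_line, zero_smul, add_zero]
      exact hU x hx
    | succ k ih =>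
      intro v hv
      obtain ⟨u, hu, P, Q, hK, hvu⟩ := hslice v hv
      set w := P * x + x * Q with hw
      have hwV : w ∈ V := hK x (hUV hx)
      obtain ⟨q, hq1, hq2⟩ := exists_coeff_polynomial
        (((line x u).map C + (X : F[X][X]) • ((X : F[X]) • w.map C).map C).det) (k + 1)
      have hder : derivative q = 0 := by
        apply Polynomial.funext
        intro c
        rw [hq2, eval_zero, derivative_det_affine, line_add_smul, Matrix.mul_smul,
          Matrix.trace_smul, smul_eq_mul]
        have hcV : u + c • w ∈ V := V.add_mem (hUV hu) (V.smul_mem c hwV)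
        rw [hw, symmetry_line, coeff_X_mul, coeff_sub, coeff_C_mul, ← hw, ih _ hcV, mul_zero,
          coeff_variation V x k ih _ _ hcV (hK _ hcV), sub_zero]
      have hconst : ∀ c : F, q.eval c = q.eval 0 := by
        intro c
        have h1 : q = C (q.coeff 0) := Polynomial.eq_C_of_derivative_eq_zero hder
        rw [h1, eval_C, eval_C]
      have heval : ∀ c : F, q.eval c = (line x (u + c • w)).det.coeff (k + 1) := by
        intro c
        rw [hq1]
        have h := (evalRingHom (C c)).map_det
          ((line x u).map C + (X : F[X][X]) • ((X : F[X]) • w.map C).map C)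
        rw [coe_evalRingHom] at h
        rw [h]
        congr 2
        rw [← line_add_smul]
        ext i j : 2
        simp only [RingHom.mapMatrix_apply, Matrix.map_apply, Matrix.add_apply, Matrix.smul_apply,
          smul_eq_mul, coe_evalRingHom, eval_add, eval_C, eval_mul, eval_X]
      have h0 : q.eval 0 = 0 := by
        rw [heval, zero_smul, add_zero]
        have hz : (line x u).det = 0 := by
          apply Polynomial.funext
          intro c
          rw [eval_det_line, eval_zero]
          exact hU _ (U.add_mem hx (U.smul_mem c hu))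
        rw [hz, coeff_zero]
      have h1 := heval 1
      rw [hconst 1, h0, one_smul] at h1
      rw [hvu]
      exact h1.symm
  intro v hv
  have h := key (Fintype.card n) v hv
  rw [line, add_comm, Polynomial.coeff_det_X_add_C_card] at h
  exact h

end

end Pool.Agent.Lib.MP_64d474_lc
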