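import Mathlib
import Pool.Agent.Lib.MP_64d474_lc.Slice

/-!
Spaces of square matrices closed under double commutators: Engel parts are again closed, and the
determinant vanishes on the space iff it vanishes on an Engel part.
-/

open Matrix

namespace Pool.Agent.Lib.MP_64d474_lc

section

variable {F : Type*} [Field F] {n : Type*} [Fintype n] [DecidableEq n]

/-- The map `z ↦ x z - z x`, as a linear map. -/
def adMap (x : Matrix n n F) : Module.End F (Matrix n n F) where
  toFun z := x * z - z * x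
  map_add' a b := by rw [mul_add, add_mul]; abel
  map_smul' c a := by
    rw [Matrix.mul_smul, Matrix.smul_mul, RingHom.id_apply, smul_sub]

theorem adMap_apply (x z : Matrix n n F) : adMap x z = x * z - z * x := rfl

theorem iterate_eq_pow (x y : Matrix n n F) (k : ℕ) :
    (fun z => x * z - z * x)^[k] y = ((adMap x) ^ k) y := by
  rw [Module.End.pow_apply]
  rfl

attribute [local instance 100] LieRing.ofAssociativeRing in
theorem mem_engel_iff' (x y : Matrix n n F) :
    y ∈ LieSubalgebra.engel F x ↔ ∃ k, ((adMap x) ^ k) y = 0 := by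
  rw [LieSubalgebra.mem_engel_iff]
  have h : (LieAlgebra.ad F (Matrix n n F) x : Module.End F (Matrix n n F)) = adMap x := by
    ext z : 1
    rw [LieAlgebra.ad_apply, LieRing.of_associative_ring_bracket, adMap_apply]
  rw [h]

attribute [local instance 100] LieRing.ofAssociativeRing in
theorem commutator_mem_engel (x y z : Matrix n n F) (hy : ∃ k, ((adMap x) ^ k) y = 0)
    (hz : ∃ k, ((adMap x) ^ k) z = 0) : ∃ k, ((adMap x) ^ k) (y * z - z * y) = 0 := by
  rw [← mem_engel_iff'] at hy hz ⊢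
  have := (LieSubalgebra.engel F x).lie_mem hy hz
  rwa [LieRing.of_associative_ring_bracket] at this

/-- Closure under the double commutators `[x, [x, y]]`. -/
def DoubleClosed (V : Submodule F (Matrix n n F)) : Prop :=
  ∀ x ∈ V, ∀ y ∈ V, x * (x * y - y * x) - (x * y - y * x) * x ∈ V

theorem DoubleClosed.triple [CharZero F] {V : Submodule F (Matrix n n F)} (hV : DoubleClosed V)
    {x y z : Matrix n n F} (hx : x ∈ V) (hy : y ∈ V) (hz : z ∈ V) :
    x * (y * z - z * y) - (y * z - z * y) * x ∈ V := by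
  -- polarisation
  have pol : ∀ a b c : Matrix n n F, a ∈ V → b ∈ V → c ∈ V →
      (a * (b * c - c * b) - (b * c - c * b) * a) +
        (b * (a * c - c * a) - (a * c - c * a) * b) ∈ V := by
    intro a b c ha hb hc
    have h1 := hV (a + b) (V.add_mem ha hb) c hc
    have h2 := hV a ha c hc
    have h3 := hV b hb c hc
    have h4 := V.sub_mem (V.sub_mem h1 h2) h3
    convert h4 using 1
    noncomm_ring
  have h1 := pol x y z hx hy hz
  have h2 := pol x z y hx hz hy
  -- 3 [x,[y,z]] = ([x,[y,z]] + [y,[x,z]]) - ([x,[z,y]] + [z,[x,y]]) + Jacobi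
  have h3 : (3 : F) • (x * (y * z - z * y) - (y * z - z * y) * x) ∈ V := by
    have h4 := V.sub_mem h1 h2
    convert h4 using 1
    have e3 : (3 : F) • (x * (y * z - z * y) - (y * z - z * y) * x) =
        (x * (y * z - z * y) - (y * z - z * y) * x) +
        (x * (y * z - z * y) - (y * z - z * y) * x) +
        (x * (y * z - z * y) - (y * z - z * y) * x) := by
      module
    rw [e3]
    noncomm_ring
  have h5 := V.smul_mem ((3 : F)⁻¹) h3
  rwa [smul_smul, inv_mul_cancel₀ (by norm_num), one_smul] at h5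

theorem DoubleClosed.engel [CharZero F] {V B : Submodule F (Matrix n n F)} (hV : DoubleClosed V)
    {x : Matrix n n F} (hB : ∀ y, y ∈ B ↔ y ∈ V ∧ ∃ k : ℕ, ((adMap x) ^ k) y = 0) :
    DoubleClosed B := by
  intro y hy z hz
  rw [hB] at hy hz ⊢
  refine ⟨hV y hy.1 z hz.1, ?_⟩
  exact commutator_mem_engel x _ _ hy.2 (commutator_mem_engel x _ _ hy.2 hz.2)

/-- The determinant vanishes on `V` if it vanishes on the Engel part of `V` at `x ∈ V`. -/
theorem DoubleClosed.det_eq_zero_of_engel [CharZero F] {V B : Submodule F (Matrix n n F)}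
    (hV : DoubleClosed V) {x : Matrix n n F} (hx : x ∈ V)
    (hB : ∀ y, y ∈ B ↔ y ∈ V ∧ ∃ k : ℕ, ((adMap x) ^ k) y = 0)
    (hdet : ∀ y ∈ B, y.det = 0) : ∀ y ∈ V, y.det = 0 := by
  have hBV : B ≤ V := fun y hy => ((hB y).1 hy).1
  have hxB : x ∈ B := by
    rw [hB]
    refine ⟨hx, 1, ?_⟩
    rw [pow_one, adMap_apply, sub_self]
  have hT : ∀ v ∈ V, ((adMap x) ^ 2) v ∈ V := by
    intro v hv
    rw [pow_two, Module.End.mul_apply, adMap_apply, adMap_apply]
    exact hV x hx v hv
  refine det_eq_zero_of_slice V B x hBV hxB hdet ?_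
  intro v hv
  obtain ⟨T, hTv⟩ : ∃ T : Module.End F V, ∀ w : V, (T w : Matrix n n F) =
      ((adMap x) ^ 2) (w : Matrix n n F) :=
    ⟨((adMap x) ^ 2).restrict hT, fun w => rfl⟩
  have hTk : ∀ (k : ℕ) (w : V), ((T ^ k) w : Matrix n n F) =
      (((adMap x) ^ 2) ^ k) (w : Matrix n n F) := by
    intro k
    induction k with
    | zero => intro w; simp
    | succ k ih =>
      intro w
      rw [pow_succ, Module.End.mul_apply, ih, pow_succ ((adMap x) ^ 2) k, Module.End.mul_apply,
        hTv]
  obtain ⟨N, hN1, hN⟩ := ((LinearMap.eventually_isCompl_ker_pow_range_pow T).and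
    (Filter.eventually_ge_atTop 1)).exists
  have hsup := hN1.sup_eq_top
  have hvt : (⟨v, hv⟩ : V) ∈ LinearMap.ker (T ^ N) ⊔ LinearMap.range (T ^ N) := by
    rw [hsup]; exact Submodule.mem_top
  obtain ⟨e, he, r, hr, her⟩ := Submodule.mem_sup.mp hvt
  obtain ⟨s, rfl⟩ := hr
  obtain ⟨N', rfl⟩ := Nat.exists_eq_add_of_le hN
  rw [add_comm 1 N', pow_succ', Module.End.mul_apply] at her
  obtain ⟨s', hs'⟩ : ∃ s' : V, s' = (T ^ N') s := ⟨_, rfl⟩
  rw [← hs'] at her
  have hs'V : (s' : Matrix n n F) ∈ V := s'.2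
  have her' : (e : Matrix n n F) + ((adMap x) ^ 2) (s' : Matrix n n F) = v := by
    have h1 := congrArg Subtype.val her
    rw [← hTv]
    exact h1
  have heV : (e : Matrix n n F) ∈ V := e.2
  refine ⟨e, ?_, -(x * s' - s' * x), x * s' - s' * x, ?_, ?_⟩
  · rw [hB]
    refine ⟨heV, 2 * (1 + N'), ?_⟩
    rw [LinearMap.mem_ker] at he
    have h2 := congrArg Subtype.val he
    rw [hTk, ← pow_mul] at h2
    exact h2
  · intro w hw
    have h := hV.triple hw hx hs'V
    convert h using 1
    rw [neg_mul]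
    abel
  · rw [← her', pow_two, Module.End.mul_apply, adMap_apply, adMap_apply, neg_mul]
    abel

/-- One step of the reduction: pass to the Engel part of an element. -/
def EngelStep (A B : Submodule F (Matrix n n F)) : Prop :=
  ∃ x ∈ A, ∀ y, y ∈ B ↔ y ∈ A ∧ ∃ k : ℕ, (fun z => x * z - z * x)^[k] y = 0

theorem DoubleClosed.chain [CharZero F] {V W : Submodule F (Matrix n n F)}
    (hV : DoubleClosed V)
    (h : Relation.ReflTransGen
      (fun A B : Submodule F (Matrix n n F) =>
        ∃ x ∈ A, ∀ y, y ∈ B ↔ y ∈ A ∧ ∃ k : ℕ, (fun z => x * z - z * x)^[k] y = 0) V W) :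
    DoubleClosed W ∧ W ≤ V ∧ ((∀ y ∈ W, y.det = 0) → ∀ y ∈ V, y.det = 0) := by
  induction h with
  | refl => exact ⟨hV, le_rfl, fun h => h⟩
  | tail _ hstep ih =>
    obtain ⟨h1, h2, h3⟩ := ih
    obtain ⟨x, hx, hB⟩ := hstep
    simp only [iterate_eq_pow] at hB
    refine ⟨h1.engel hB, fun y hy => h2 ((hB y).1 hy).1, fun h => h3 ?_⟩
    exact h1.det_eq_zero_of_engel hx hB h

end

end Pool.Agent.Lib.MP_64d474_lc
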