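import Mathlib
import Pool.Agent.Lib.MP_64d474_lc.LTSFitting

/-!
The terminal stage: if a double-closed space of matrices is spanned by `b_1, …, b_d` and every
`b_i + b_j` acts nilpotently on the space by commutators, then the determinant restricted to the
space is a product of linear forms.
-/

open Matrix Module

namespace Pool.Agent.Lib.MP_64d474_lc

/-- Determinants on modules of solvable Lie algebras are products of linear forms. -/
theorem exists_weights {K L : Type*} [Field K] [CharZero K] [IsAlgClosed K] [LieRing L]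
    [LieAlgebra K L] [LieAlgebra.IsSolvable L] :
    ∀ (k : ℕ) (M : Type _) [AddCommGroup M] [Module K M] [FiniteDimensional K M]
      [LieRingModule L M] [LieModule K L M], finrank K M = k →
      ∃ s : Multiset (Module.Dual K L), ∀ x : L,
        LinearMap.det (LieModule.toEnd K L M x) = (s.map (fun χ => χ x)).prod := by
  intro k
  induction k using Nat.strong_induction_on with
  | _ k ih =>
    intro M _ _ _ _ _ hk
    rcases Nat.eq_zero_or_pos k with hk0 | hkpos
    · refine ⟨0, fun x => ?_⟩
      rw [Multiset.map_zero, Multiset.prod_zero]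
      exact LinearMap.det_eq_one_of_finrank_eq_zero (by rw [hk, hk0]) _
    · have : Nontrivial M := Module.nontrivial_of_finrank_pos (R := K) (by rw [hk]; exact hkpos)
      obtain ⟨χ, hχ⟩ := LieModule.exists_nontrivial_weightSpace_of_isSolvable K L M
      set W : LieSubmodule K L M := LieModule.weightSpace M χ with hW
      have hWpos : 0 < finrank K W := Module.finrank_pos
      have hq : finrank K (M ⧸ W) < k := by
        have h1 := Submodule.finrank_quotient_add_finrank W.toSubmodule
        have h2 : finrank K (M ⧸ W) = finrank K (M ⧸ W.toSubmodule) := rfl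
        have h3 : finrank K W = finrank K W.toSubmodule := rfl
        omega
      obtain ⟨s, hs⟩ := ih (finrank K (M ⧸ W)) hq (M ⧸ W) rfl
      refine ⟨s + Multiset.replicate (finrank K W) χ, fun x => ?_⟩
      have hinv : W.toSubmodule ≤ W.toSubmodule.comap (LieModule.toEnd K L M x) := by
        intro m hm
        exact W.lie_mem hm
      rw [LinearMap.det_eq_det_mul_det W.toSubmodule (LieModule.toEnd K L M x) hinv]
      have h1 : LinearMap.det ((LieModule.toEnd K L M x).restrict hinv) =
          (χ x) ^ (finrank K W) := by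
        have : (LieModule.toEnd K L M x).restrict hinv = (χ x) • (1 : Module.End K W) := by
          ext ⟨m, hm⟩
          rw [hW, LieSubmodule.mem_toSubmodule, LieModule.mem_weightSpace] at hm
          exact hm x
        rw [this, LinearMap.det_smul, map_one, mul_one]
        rfl
      have h2 : LinearMap.det (W.toSubmodule.mapQ W.toSubmodule (LieModule.toEnd K L M x) hinv) =
          LinearMap.det (LieModule.toEnd K L (M ⧸ W) x) := by
        congr 1
      rw [h1, h2, hs x, Multiset.map_add, Multiset.prod_add, Multiset.map_replicate,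
        Multiset.prod_replicate, mul_comm]

section

attribute [local instance 100] LieRing.ofAssociativeRing

variable {K : Type*} [Field K] [CharZero K] {n : Type*} [Fintype n] [DecidableEq n]

/-- The span of the commutators. -/
def commSpan (V : Submodule K (Matrix n n K)) : Submodule K (Matrix n n K) :=
  Submodule.span K {h | ∃ v ∈ V, ∃ w ∈ V, h = v * w - w * v}

theorem commSpan_comm {V : Submodule K (Matrix n n K)} (hV : DoubleClosed V)
    {h v : Matrix n n K} (hh : h ∈ commSpan V) (hv : v ∈ V) : h * v - v * h ∈ V := by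
  induction hh using Submodule.span_induction with
  | mem h hh =>
    obtain ⟨a, ha, b, hb, rfl⟩ := hh
    have := V.neg_mem (hV.triple hv ha hb)
    convert this using 1
    abel
  | zero => rw [zero_mul, mul_zero, sub_zero]; exact V.zero_mem
  | add a b _ _ iha ihb =>
    have := V.add_mem iha ihb
    convert this using 1
    rw [add_mul, mul_add]
    abel
  | smul c a _ iha =>
    have := V.smul_mem c iha
    convert this using 1
    rw [Matrix.smul_mul, Matrix.mul_smul, smul_sub]

theorem commSpan_closed {V : Submodule K (Matrix n n K)} (hV : DoubleClosed V)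
    {h h' : Matrix n n K} (hh : h ∈ commSpan V) (hh' : h' ∈ commSpan V) :
    h * h' - h' * h ∈ commSpan V := by
  induction hh' using Submodule.span_induction with
  | mem h' hh' =>
    obtain ⟨a, ha, b, hb, rfl⟩ := hh'
    have h1 : (h * a - a * h) * b - b * (h * a - a * h) ∈ commSpan V :=
      Submodule.subset_span ⟨_, commSpan_comm hV hh ha, _, hb, rfl⟩
    have h2 : a * (h * b - b * h) - (h * b - b * h) * a ∈ commSpan V :=
      Submodule.subset_span ⟨_, ha, _, commSpan_comm hV hh hb, rfl⟩
    have := (commSpan V).add_mem h1 h2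
    convert this using 1
    noncomm_ring
  | zero => rw [zero_mul, mul_zero, sub_zero]; exact Submodule.zero_mem _
  | add a b _ _ iha ihb =>
    have := (commSpan V).add_mem iha ihb
    convert this using 1
    rw [add_mul, mul_add]
    abel
  | smul c a _ iha =>
    have := (commSpan V).smul_mem c iha
    convert this using 1
    rw [Matrix.smul_mul, Matrix.mul_smul, smul_sub]

/-- The graded Lie algebra attached to a double-closed space, inside a product. -/
def ltsAlg (V : Submodule K (Matrix n n K)) (hV : DoubleClosed V) :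
    LieSubalgebra K (Matrix n n K × Matrix n n K) where
  carrier := {p | ∃ h ∈ commSpan V, ∃ v ∈ V, p = (h + v, h - v)}
  add_mem' := by
    rintro _ _ ⟨h, hh, v, hv, rfl⟩ ⟨h', hh', v', hv', rfl⟩
    refine ⟨h + h', Submodule.add_mem _ hh hh', v + v', V.add_mem hv hv', ?_⟩
    rw [Prod.mk_add_mk]
    congr 1 <;> abel
  zero_mem' := ⟨0, Submodule.zero_mem _, 0, V.zero_mem, by rw [add_zero, sub_zero]; rfl⟩
  smul_mem' := by
    rintro c _ ⟨h, hh, v, hv, rfl⟩
    refine ⟨c • h, Submodule.smul_mem _ c hh, c • v, V.smul_mem c hv, ?_⟩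
    rw [Prod.smul_mk, smul_add, smul_sub]
  lie_mem' := by
    rintro _ _ ⟨h, hh, v, hv, rfl⟩ ⟨h', hh', v', hv', rfl⟩
    refine ⟨(h * h' - h' * h) + (v * v' - v' * v), ?_, (h * v' - v' * h) - (h' * v - v * h'),
      ?_, ?_⟩
    · exact Submodule.add_mem _ (commSpan_closed hV hh hh')
        (Submodule.subset_span ⟨v, hv, v', hv', rfl⟩)
    · exact V.sub_mem (commSpan_comm hV hh hv') (commSpan_comm hV hh' hv)
    · rw [LieAlgebra.Prod.bracket_apply, LieRing.of_associative_ring_bracket,
        LieRing.of_associative_ring_bracket]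
      congr 1 <;> noncomm_ring

/-- The odd part. -/
def oddPart (V : Submodule K (Matrix n n K)) (hV : DoubleClosed V) : V →ₗ[K] ltsAlg V hV where
  toFun v := ⟨((v : Matrix n n K), -(v : Matrix n n K)), 0, Submodule.zero_mem _, v, v.2, by
    rw [zero_add, zero_sub]⟩
  map_add' a b := by
    apply Subtype.ext
    simp only [Submodule.coe_add, neg_add]
    rfl
  map_smul' c a := by
    apply Subtype.ext
    simp only [Submodule.coe_smul, RingHom.id_apply]
    rw [← smul_neg]
    rfl

/-- The even part. -/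
def evenPart (V : Submodule K (Matrix n n K)) (hV : DoubleClosed V) :
    commSpan V →ₗ[K] ltsAlg V hV where
  toFun h := ⟨((h : Matrix n n K), (h : Matrix n n K)), h, h.2, 0, V.zero_mem, by
    rw [add_zero, sub_zero]⟩
  map_add' a b := by
    apply Subtype.ext
    simp only [Submodule.coe_add]
    rfl
  map_smul' c a := by
    apply Subtype.ext
    simp only [Submodule.coe_smul, RingHom.id_apply]
    rfl

theorem exists_parts (V : Submodule K (Matrix n n K)) (hV : DoubleClosed V)
    (x : ltsAlg V hV) : ∃ (h : commSpan V) (v : V), x = evenPart V hV h + oddPart V hV v := by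
  obtain ⟨x, h, hh, v, hv, rfl⟩ := x
  refine ⟨⟨h, hh⟩, ⟨v, hv⟩, ?_⟩
  apply Subtype.ext
  change (h + v, h - v) = (h, h) + (v, -v)
  rw [Prod.mk_add_mk, sub_eq_add_neg]

/-- The swap automorphism. -/
def swapAut (V : Submodule K (Matrix n n K)) (hV : DoubleClosed V) :
    ltsAlg V hV ≃ₗ⁅K⁆ ltsAlg V hV where
  toFun x := ⟨(x.1.2, x.1.1), by
    obtain ⟨x, h, hh, v, hv, rfl⟩ := x
    exact ⟨h, hh, -v, V.neg_mem hv, by rw [sub_neg_eq_add, ← sub_eq_add_neg]⟩⟩
  invFun x := ⟨(x.1.2, x.1.1), by
    obtain ⟨x, h, hh, v, hv, rfl⟩ := x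
    exact ⟨h, hh, -v, V.neg_mem hv, by rw [sub_neg_eq_add, ← sub_eq_add_neg]⟩⟩
  left_inv x := rfl
  right_inv x := rfl
  map_add' x y := rfl
  map_smul' c x := rfl
  map_lie' := by
    intro x y
    rfl

theorem swap_even (V : Submodule K (Matrix n n K)) (hV : DoubleClosed V) (h : commSpan V) :
    swapAut V hV (evenPart V hV h) = evenPart V hV h := rfl

theorem swap_odd (V : Submodule K (Matrix n n K)) (hV : DoubleClosed V) (v : V) :
    swapAut V hV (oddPart V hV v) = - oddPart V hV v := by
  apply Subtype.ext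
  change (-(v : Matrix n n K), (v : Matrix n n K)) = -((v : Matrix n n K), -(v : Matrix n n K))
  rw [Prod.neg_mk, neg_neg]

theorem killing_even_odd (V : Submodule K (Matrix n n K)) (hV : DoubleClosed V)
    (h : commSpan V) (v : V) :
    killingForm K (ltsAlg V hV) (evenPart V hV h) (oddPart V hV v) = 0 := by
  have h1 := LieAlgebra.killingForm_of_equiv_apply (swapAut V hV) (evenPart V hV h)
    (oddPart V hV v)
  rw [swap_even, swap_odd, map_neg] at h1
  have h2 : (2 : K) * killingForm K (ltsAlg V hV) (evenPart V hV h) (oddPart V hV v) = 0 := by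
    linear_combination -h1
  exact (mul_eq_zero.mp h2).resolve_left (by norm_num)

theorem ad_odd_pow (V : Submodule K (Matrix n n K)) (hV : DoubleClosed V) (v : V)
    (x : ltsAlg V hV) (k : ℕ) :
    ((((LieAlgebra.ad K (ltsAlg V hV) (oddPart V hV v)) ^ k) x : ltsAlg V hV) :
      Matrix n n K × Matrix n n K) =
      (((adMap (v : Matrix n n K)) ^ k) x.1.1, ((adMap (-(v : Matrix n n K))) ^ k) x.1.2) := by
  induction k with
  | zero => rfl
  | succ k ih =>
    rw [pow_succ', Module.End.mul_apply, LieAlgebra.ad_apply, LieSubalgebra.coe_bracket, ih,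
      LieAlgebra.Prod.bracket_apply, pow_succ', Module.End.mul_apply, pow_succ',
      Module.End.mul_apply, adMap_apply, adMap_apply]
    rfl

theorem adMap_neg_pow (v x : Matrix n n K) (k : ℕ) :
    ((adMap (-v)) ^ k) x = (-1 : K) ^ k • ((adMap v) ^ k) x := by
  induction k with
  | zero => simp
  | succ k ih =>
    rw [pow_succ' (adMap (-v)) k, Module.End.mul_apply, ih, map_smul, adMap_apply,
      pow_succ' (adMap v) k, Module.End.mul_apply, adMap_apply, pow_succ' (-1 : K) k, neg_mul,
      mul_neg, mul_smul, neg_smul, one_smul, ← smul_neg]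
    congr 1
    abel

theorem killing_odd_self (V : Submodule K (Matrix n n K)) (hV : DoubleClosed V) (v : V)
    (hnil : ∀ w ∈ V, ∃ k, ((adMap (v : Matrix n n K)) ^ k) w = 0) :
    killingForm K (ltsAlg V hV) (oddPart V hV v) (oddPart V hV v) = 0 := by
  have hH : ∀ h ∈ commSpan V, ∃ k, ((adMap (v : Matrix n n K)) ^ k) h = 0 := by
    intro h hh
    rw [← mem_engel_iff']
    have hle : commSpan V ≤ (LieSubalgebra.engel K (v : Matrix n n K)).toSubmodule := by
      rw [commSpan, Submodule.span_le]
      rintro _ ⟨a, ha, b, hb, rfl⟩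
      have := commutator_mem_engel _ _ _ (hnil a ha) (hnil b hb)
      rw [← mem_engel_iff'] at this
      exact this
    exact hle hh
  have hall : IsNilpotent (LieAlgebra.ad K (ltsAlg V hV) (oddPart V hV v)) := by
    rw [Module.End.isNilpotent_iff_of_finite]
    intro x
    obtain ⟨x, h, hh, w, hw, rfl⟩ := x
    have hsum : ∃ k, ((adMap (v : Matrix n n K)) ^ k) (h + w) = 0 := by
      rw [← mem_engel_iff']
      exact (LieSubalgebra.engel K (v : Matrix n n K)).add_mem
        ((mem_engel_iff' _ _).2 (hH h hh)) ((mem_engel_iff' _ _).2 (hnil w hw))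
    have hdiff : ∃ k, ((adMap (v : Matrix n n K)) ^ k) (h - w) = 0 := by
      rw [← mem_engel_iff']
      exact (LieSubalgebra.engel K (v : Matrix n n K)).sub_mem
        ((mem_engel_iff' _ _).2 (hH h hh)) ((mem_engel_iff' _ _).2 (hnil w hw))
    obtain ⟨k1, hk1⟩ := hsum
    obtain ⟨k2, hk2⟩ := hdiff
    refine ⟨k1 + k2, ?_⟩
    apply Subtype.ext
    rw [ad_odd_pow, adMap_neg_pow]
    have e1 : ((adMap (v : Matrix n n K)) ^ (k1 + k2)) (h + w) = 0 := by
      rw [add_comm, pow_add, Module.End.mul_apply, hk1, map_zero]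
    have e2 : ((adMap (v : Matrix n n K)) ^ (k1 + k2)) (h - w) = 0 := by
      rw [pow_add, Module.End.mul_apply, hk2, map_zero]
    change (((adMap (v : Matrix n n K)) ^ (k1 + k2)) (h + w),
      (-1 : K) ^ (k1 + k2) • ((adMap (v : Matrix n n K)) ^ (k1 + k2)) (h - w)) = 0
    rw [e1, e2, smul_zero]
    rfl
  rw [killingForm_apply_apply]
  have h2 : IsNilpotent (LieAlgebra.ad K (ltsAlg V hV) (oddPart V hV v) ∘ₗ
      LieAlgebra.ad K (ltsAlg V hV) (oddPart V hV v)) := by
    have := (Commute.refl (LieAlgebra.ad K (ltsAlg V hV) (oddPart V hV v))).isNilpotent_mul_left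
      hall
    exact this
  exact (LinearMap.isNilpotent_trace_of_isNilpotent h2).eq_zero

/-- A linear form on a submodule spanned by a set vanishes if it vanishes on the set. -/
theorem linearForm_eq_zero_of_span {E : Type*} [AddCommGroup E] [Module K E]
    (W : Submodule K E) (S : Set E) (hS : Submodule.span K S = W) (f : W →ₗ[K] K)
    (hf : ∀ (s : E) (hs : s ∈ W), s ∈ S → f ⟨s, hs⟩ = 0) (w : W) : f w = 0 := by
  subst hS
  obtain ⟨w, hw⟩ := w
  induction hw using Submodule.span_induction with
  | mem w hw => exact hf w _ hw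
  | zero => exact map_zero f
  | add p q hp hq ihp ihq =>
    have : f ⟨p + q, Submodule.add_mem _ hp hq⟩ = f ⟨p, hp⟩ + f ⟨q, hq⟩ :=
      map_add f ⟨p, hp⟩ ⟨q, hq⟩
    rw [this, ihp, ihq, add_zero]
  | smul c p hp ihp =>
    have : f ⟨c • p, Submodule.smul_mem _ c hp⟩ = c • f ⟨p, hp⟩ := map_smul f c ⟨p, hp⟩
    rw [this, ihp, smul_zero]

/-- Bilinear version of polarisation: a symmetric bilinear form on a spanned submodule. -/
theorem bilin_eq_zero_of_span {E : Type*} [AddCommGroup E] [Module K E]
    (W : Submodule K E) {d : ℕ} (b : Fin d → E) (hb : Submodule.span K (Set.range b) = W)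
    (hbW : ∀ i, b i ∈ W) (B : W →ₗ[K] W →ₗ[K] K) (hsymm : ∀ v w, B v w = B w v)
    (hself : ∀ i j, B (⟨b i, hbW i⟩ + ⟨b j, hbW j⟩) (⟨b i, hbW i⟩ + ⟨b j, hbW j⟩) = 0)
    (v w : W) : B v w = 0 := by
  have hself1 : ∀ i, B ⟨b i, hbW i⟩ ⟨b i, hbW i⟩ = 0 := by
    intro i
    have h := hself i i
    rw [map_add, map_add, LinearMap.add_apply] at h
    have h4 : (4 : K) * B ⟨b i, hbW i⟩ ⟨b i, hbW i⟩ = 0 := by
      linear_combination h
    exact (mul_eq_zero.mp h4).resolve_left (by norm_num)
  have hpair : ∀ i j, B ⟨b i, hbW i⟩ ⟨b j, hbW j⟩ = 0 := by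
    intro i j
    have h := hself i j
    rw [map_add, map_add, LinearMap.add_apply, LinearMap.add_apply, hself1 i,
      hself1 j, hsymm ⟨b j, hbW j⟩ ⟨b i, hbW i⟩] at h
    have h2 : (2 : K) * B ⟨b i, hbW i⟩ ⟨b j, hbW j⟩ = 0 := by
      linear_combination h
    exact (mul_eq_zero.mp h2).resolve_left (by norm_num)
  have h1 : ∀ i (w : W), B ⟨b i, hbW i⟩ w = 0 := by
    intro i w
    refine linearForm_eq_zero_of_span W (Set.range b) hb (B ⟨b i, hbW i⟩) ?_ w
    rintro _ hs ⟨j, rfl⟩
    exact hpair i j
  rw [hsymm]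
  refine linearForm_eq_zero_of_span W (Set.range b) hb (B w) ?_ v
  rintro _ hs ⟨j, rfl⟩
  rw [hsymm]
  exact h1 j w

theorem lie_odd_odd (V : Submodule K (Matrix n n K)) (hV : DoubleClosed V) {v w : Matrix n n K}
    (hv : v ∈ V) (hw : w ∈ V) (h : v * w - w * v ∈ commSpan V) :
    ⁅oddPart V hV ⟨v, hv⟩, oddPart V hV ⟨w, hw⟩⁆ = evenPart V hV ⟨v * w - w * v, h⟩ := by
  apply Subtype.ext
  change (v * w - w * v, (-v) * (-w) - (-w) * (-v)) = (v * w - w * v, v * w - w * v)
  rw [neg_mul_neg, neg_mul_neg]

theorem lie_odd_even (V : Submodule K (Matrix n n K)) (hV : DoubleClosed V) {w : Matrix n n K}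
    (hw : w ∈ V) (h : commSpan V) :
    ⁅oddPart V hV ⟨w, hw⟩, evenPart V hV h⁆ =
      - oddPart V hV ⟨(h : Matrix n n K) * w - w * h, commSpan_comm hV h.2 hw⟩ := by
  apply Subtype.ext
  change (w * (h : Matrix n n K) - h * w, (-w) * (h : Matrix n n K) - h * (-w)) =
    -((h : Matrix n n K) * w - w * h, -((h : Matrix n n K) * w - w * h))
  rw [Prod.neg_mk]
  congr 1
  · abel
  · rw [neg_mul, mul_neg]; abel

theorem killing_eq_zero (V : Submodule K (Matrix n n K)) (hV : DoubleClosed V) {d : ℕ}
    (b : Fin d → Matrix n n K) (hb : Submodule.span K (Set.range b) = V)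
    (hnil : ∀ i j, ∀ w ∈ V, ∃ k, ((adMap (b i + b j)) ^ k) w = 0)
    (x y : ltsAlg V hV) : killingForm K (ltsAlg V hV) x y = 0 := by
  have hbV : ∀ i, b i ∈ V := fun i => hb ▸ Submodule.subset_span ⟨i, rfl⟩
  have hsymm : ∀ x y : ltsAlg V hV, killingForm K (ltsAlg V hV) x y =
      killingForm K (ltsAlg V hV) y x := fun x y => LieModule.traceForm_comm K _ _ x y
  -- odd-odd pairings
  have hodd : ∀ (v w : V), killingForm K (ltsAlg V hV) (oddPart V hV v) (oddPart V hV w) =
      0 := by
    obtain ⟨B, hB⟩ : ∃ B : V →ₗ[K] V →ₗ[K] K, ∀ v w, B v w =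
        killingForm K (ltsAlg V hV) (oddPart V hV v) (oddPart V hV w) :=
      ⟨(killingForm K (ltsAlg V hV)).compl₁₂ (oddPart V hV) (oddPart V hV), fun v w => rfl⟩
    intro v w
    rw [← hB]
    refine bilin_eq_zero_of_span V b hb hbV B (fun v w => by rw [hB, hB, hsymm]) ?_ v w
    intro i j
    rw [hB]
    exact killing_odd_self V hV _ (hnil i j)
  -- even-even pairings
  have heven : ∀ (h h' : commSpan V), killingForm K (ltsAlg V hV) (evenPart V hV h)
      (evenPart V hV h') = 0 := by
    intro h h'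
    obtain ⟨f, hf⟩ : ∃ f : commSpan V →ₗ[K] K, ∀ h, f h =
        killingForm K (ltsAlg V hV) (evenPart V hV h') (evenPart V hV h) :=
      ⟨(killingForm K (ltsAlg V hV) (evenPart V hV h')).comp (evenPart V hV), fun h => rfl⟩
    rw [hsymm, ← hf]
    refine linearForm_eq_zero_of_span (commSpan V) _ rfl f ?_ h
    rintro _ hs ⟨v, hv, w, hw, rfl⟩
    rw [hf, hsymm, ← lie_odd_odd V hV hv hw hs, LieModule.traceForm_apply_lie_apply,
      lie_odd_even, map_neg]
    rw [neg_eq_zero]
    exact hodd _ _
  obtain ⟨h, v, rfl⟩ := exists_parts V hV x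
  obtain ⟨h', v', rfl⟩ := exists_parts V hV y
  rw [map_add, map_add, LinearMap.add_apply, LinearMap.add_apply, heven, hodd,
    killing_even_odd, hsymm (oddPart V hV v), killing_even_odd]
  simp

theorem isSolvable_ltsAlg (V : Submodule K (Matrix n n K)) (hV : DoubleClosed V) {d : ℕ}
    (b : Fin d → Matrix n n K) (hb : Submodule.span K (Set.range b) = V)
    (hnil : ∀ i j, ∀ w ∈ V, ∃ k, ((adMap (b i + b j)) ^ k) w = 0) :
    LieAlgebra.IsSolvable (ltsAlg V hV) :=
  LieAlgebra.isSolvable_of_killingForm_apply_lie_eq_zero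
    (fun x y _ => killing_eq_zero V hV b hb hnil x y)

/-- The determinant restricted to the space is a product of linear forms. -/
theorem det_eq_prod [IsAlgClosed K] (V : Submodule K (Matrix n n K)) (hV : DoubleClosed V)
    {d : ℕ} (b : Fin d → Matrix n n K) (hb : Submodule.span K (Set.range b) = V)
    (hnil : ∀ i j, ∀ w ∈ V, ∃ k, ((adMap (b i + b j)) ^ k) w = 0) :
    ∃ s : Multiset (V →ₗ[K] K), ∀ v : V,
      (v : Matrix n n K).det = (s.map (fun χ => χ v)).prod := by
  have := isSolvable_ltsAlg V hV b hb hnil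
  let f : ltsAlg V hV →ₗ⁅K⁆ Module.End K (n → K) :=
    (lieEquivMatrix' (R := K) (n := n)).symm.toLieHom.comp
      ((LieHom.fst K (Matrix n n K) (Matrix n n K)).comp (ltsAlg V hV).incl)
  let _ : LieRingModule (ltsAlg V hV) (n → K) := LieRingModule.compLieHom (n → K) f
  have _ : LieModule K (ltsAlg V hV) (n → K) := LieModule.compLieHom (n → K) f
  obtain ⟨s, hs⟩ := exists_weights (K := K) (L := ltsAlg V hV) _ (n → K) rfl
  refine ⟨s.map (fun χ => χ.comp (oddPart V hV)), fun v => ?_⟩
  have h := hs (oddPart V hV v)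
  rw [Multiset.map_map]
  have h1 : LieModule.toEnd K (ltsAlg V hV) (n → K) (oddPart V hV v) =
      Matrix.toLin' (v : Matrix n n K) := by
    ext : 1
    rfl
  rw [h1, LinearMap.det_toLin'] at h
  exact h

end

end Pool.Agent.Lib.MP_64d474_lc
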