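import Mathlib
import Pool.Agent.Lib.MP_64d474_lc.LTSTerminal

/-!
Descent from the algebraic closure and the moment curve test.
-/

open Matrix Polynomial Module

namespace Pool.Agent.Lib.MP_64d474_lc

theorem natDegree_det_le {S : Type*} [CommRing S] {n : Type*} [Fintype n] [DecidableEq n]
    (M : Matrix n n S[X]) (k : ℕ) (h : ∀ i j, (M i j).natDegree ≤ k) :
    M.det.natDegree ≤ Fintype.card n * k := by
  rw [Matrix.det_apply]
  refine natDegree_sum_le_of_forall_le _ _ fun σ _ => ?_
  refine (natDegree_smul_le _ _).trans ?_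
  refine (natDegree_prod_le _ _).trans ?_
  calc ∑ i, (M (σ i) i).natDegree ≤ ∑ _i : n, k := Finset.sum_le_sum fun i _ => h _ _
    _ = Fintype.card n * k := by rw [Finset.sum_const, Finset.card_univ, smul_eq_mul]

section

variable {F : Type*} [Field F] {n : Type*} [Fintype n] [DecidableEq n]

/-- The moment curve through the generators, as a matrix of polynomials. -/
noncomputable def curve {d : ℕ} (b : Fin d → Matrix n n F) : Matrix n n F[X] :=
  ∑ i : Fin d, (X : F[X]) ^ (i : ℕ) • (b i).map C

theorem curve_apply {d : ℕ} (b : Fin d → Matrix n n F) (p q : n) :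
    curve b p q = ∑ i : Fin d, (X : F[X]) ^ (i : ℕ) * C (b i p q) := by
  rw [curve, Matrix.sum_apply]
  rfl

theorem eval_det_curve {d : ℕ} (b : Fin d → Matrix n n F) (c : F) :
    (curve b).det.eval c = (∑ i : Fin d, c ^ (i : ℕ) • b i).det := by
  have h := (evalRingHom c).map_det (curve b)
  rw [coe_evalRingHom] at h
  rw [h]
  congr 1
  ext p q
  rw [RingHom.mapMatrix_apply, Matrix.map_apply, curve_apply, coe_evalRingHom,
    eval_finsetSum, Matrix.sum_apply]
  refine Finset.sum_congr rfl fun i _ => ?_
  rw [eval_mul, eval_pow, eval_X, eval_C, Matrix.smul_apply, smul_eq_mul]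

theorem natDegree_det_curve {d : ℕ} (b : Fin d → Matrix n n F) :
    (curve b).det.natDegree ≤ Fintype.card n * (d - 1) := by
  apply natDegree_det_le
  intro p q
  rw [curve_apply]
  refine natDegree_sum_le_of_forall_le _ _ fun i _ => ?_
  refine (natDegree_mul_C_le _ _).trans ?_
  rw [natDegree_X_pow]
  have := i.2
  omega

theorem det_curve_eq_zero [CharZero F] {d : ℕ} (b : Fin d → Matrix n n F)
    (h : ∀ t : ℕ, t ≤ Fintype.card n * (d - 1) →
      (∑ i : Fin d, (t : F) ^ (i : ℕ) • b i).det = 0) :
    (curve b).det = 0 := by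
  classical
  apply eq_zero_of_natDegree_lt_card_of_eval_eq_zero' (curve b).det
    ((Finset.range (Fintype.card n * (d - 1) + 1)).image (fun t : ℕ => (t : F)))
  · intro c hc
    rw [Finset.mem_image] at hc
    obtain ⟨t, ht, rfl⟩ := hc
    rw [Finset.mem_range] at ht
    rw [eval_det_curve]
    exact h t (by omega)
  · rw [Finset.card_image_of_injective _ Nat.cast_injective, Finset.card_range]
    have := natDegree_det_curve b
    omega

variable {K : Type*} [Field K] [Algebra F K]

/-- Extension of scalars of a space of matrices. -/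
def extSpan (V : Submodule F (Matrix n n F)) : Submodule K (Matrix n n K) :=
  Submodule.span K ((fun A : Matrix n n F => A.map (algebraMap F K)) '' (V : Set _))

theorem map_mem_extSpan {V : Submodule F (Matrix n n F)} {A : Matrix n n F} (hA : A ∈ V) :
    A.map (algebraMap F K) ∈ (extSpan V : Submodule K (Matrix n n K)) :=
  Submodule.subset_span ⟨A, hA, rfl⟩

theorem map_commutator (A B : Matrix n n F) :
    (A * B - B * A).map (algebraMap F K) = A.map (algebraMap F K) * B.map (algebraMap F K) -
      B.map (algebraMap F K) * A.map (algebraMap F K) := by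
  rw [← Matrix.map_mul, ← Matrix.map_mul]
  ext i j
  simp only [Matrix.map_apply, Matrix.sub_apply, map_sub]

theorem extSpan_doubleClosed [CharZero F] {V : Submodule F (Matrix n n F)}
    (hV : DoubleClosed V) : DoubleClosed (extSpan V : Submodule K (Matrix n n K)) := by
  set W : Submodule K (Matrix n n K) := extSpan V with hW
  have h3 : ∀ x ∈ V, ∀ y ∈ V, ∀ z ∈ W,
      (adMap (x.map (algebraMap F K)) * adMap (y.map (algebraMap F K))) z ∈ W := by
    intro x hx y hy
    have hle : W ≤ W.comap
        (adMap (x.map (algebraMap F K)) * adMap (y.map (algebraMap F K))) := by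
      rw [hW, extSpan, Submodule.span_le]
      rintro _ ⟨z, hz, rfl⟩
      rw [SetLike.mem_coe, Submodule.mem_comap, Module.End.mul_apply, adMap_apply, adMap_apply]
      change x.map (algebraMap F K) * (y.map (algebraMap F K) * z.map (algebraMap F K) -
        z.map (algebraMap F K) * y.map (algebraMap F K)) - (y.map (algebraMap F K) *
        z.map (algebraMap F K) - z.map (algebraMap F K) * y.map (algebraMap F K)) *
        x.map (algebraMap F K) ∈ _
      rw [← map_commutator, ← map_commutator]
      exact map_mem_extSpan (hV.triple hx hy hz)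
    intro z hz
    exact hle hz
  have h2 : ∀ x ∈ V, ∀ y ∈ W, ∀ z ∈ W, (adMap (x.map (algebraMap F K)) * adMap y) z ∈ W := by
    intro x hx y hy z hz
    have hle : W ≤ W.comap (adMap (x.map (algebraMap F K)) * adMap z) := by
      conv_lhs => rw [hW, extSpan]
      rw [Submodule.span_le]
      rintro _ ⟨y, hy, rfl⟩
      rw [SetLike.mem_coe, Submodule.mem_comap]
      have h := W.neg_mem (h3 x hx y hy z hz)
      convert h using 1
      rw [Module.End.mul_apply, Module.End.mul_apply, ← map_neg, adMap_apply z,
        adMap_apply (y.map (algebraMap F K)), neg_sub]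
    have h := W.neg_mem (hle hy)
    convert h using 1
    rw [Module.End.mul_apply, Module.End.mul_apply, ← map_neg, adMap_apply z,
      adMap_apply y, neg_sub]
  intro x hx y hy
  have hle : W ≤ W.comap (adMap (x * y - y * x)) := by
    conv_lhs => rw [hW, extSpan]
    rw [Submodule.span_le]
    rintro _ ⟨u, hu, rfl⟩
    rw [SetLike.mem_coe, Submodule.mem_comap]
    have h := W.neg_mem (h2 u hu x hx y hy)
    convert h using 1
    rw [Module.End.mul_apply, adMap_apply, adMap_apply, adMap_apply, neg_sub]
  have h := W.neg_mem (hle hx)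
  convert h using 1
  rw [adMap_apply, neg_sub]

theorem adMap_pow_map (x z : Matrix n n F) (k : ℕ) :
    ((adMap (x.map (algebraMap F K))) ^ k) (z.map (algebraMap F K)) =
      (((adMap x) ^ k) z).map (algebraMap F K) := by
  induction k with
  | zero => rfl
  | succ k ih =>
    rw [pow_succ', Module.End.mul_apply, ih, adMap_apply, ← map_commutator, pow_succ',
      Module.End.mul_apply, adMap_apply]

theorem extSpan_nil {V : Submodule F (Matrix n n F)} (x : Matrix n n F)
    (hnil : ∀ w ∈ V, ∃ k, ((adMap x) ^ k) w = 0) :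
    ∀ w ∈ (extSpan V : Submodule K (Matrix n n K)),
      ∃ k, ((adMap (x.map (algebraMap F K))) ^ k) w = 0 := by
  intro w hw
  induction hw using Submodule.span_induction with
  | mem w hw =>
    obtain ⟨z, hz, rfl⟩ := hw
    obtain ⟨k, hk⟩ := hnil z hz
    refine ⟨k, ?_⟩
    change ((adMap (x.map (algebraMap F K))) ^ k) (z.map (algebraMap F K)) = 0
    rw [adMap_pow_map, hk]
    ext i j
    simp
  | zero => exact ⟨0, by simp⟩
  | add a b _ _ iha ihb =>
    obtain ⟨k, hk⟩ := iha
    obtain ⟨l, hl⟩ := ihb
    refine ⟨k + l, ?_⟩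
    rw [map_add]
    nth_rewrite 1 [add_comm k l]
    rw [pow_add, pow_add, Module.End.mul_apply, Module.End.mul_apply, hk, hl, map_zero,
      map_zero, add_zero]
  | smul c a _ iha =>
    obtain ⟨k, hk⟩ := iha
    exact ⟨k, by rw [map_smul, hk, smul_zero]⟩

/-- The terminal test is correct. -/
theorem terminal_test [CharZero F] (V : Submodule F (Matrix n n F)) (hV : DoubleClosed V)
    {d : ℕ} (b : Fin d → Matrix n n F) (hb : Submodule.span F (Set.range b) = V)
    (hnil : ∀ i j, ∀ w ∈ V, ∃ k, ((adMap (b i + b j)) ^ k) w = 0)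
    (hdet : (curve b).det = 0) : ∀ A ∈ V, A.det = 0 := by
  set W : Submodule (AlgebraicClosure F) (Matrix n n (AlgebraicClosure F)) := extSpan V with hW
  set b' : Fin d → Matrix n n (AlgebraicClosure F) :=
    fun i => (b i).map (algebraMap F (AlgebraicClosure F)) with hb'
  have hWc : DoubleClosed W := extSpan_doubleClosed hV
  have hspan : Submodule.span (AlgebraicClosure F) (Set.range b') = W := by
    apply le_antisymm
    · rw [Submodule.span_le]
      rintro _ ⟨i, rfl⟩
      exact map_mem_extSpan (hb ▸ Submodule.subset_span ⟨i, rfl⟩)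
    · rw [hW, extSpan, Submodule.span_le]
      rintro _ ⟨A, hA, rfl⟩
      rw [← hb] at hA
      rw [SetLike.mem_coe] at hA ⊢
      obtain ⟨c, rfl⟩ := (Submodule.mem_span_range_iff_exists_fun F).1 hA
      have : (∑ i, c i • b i).map (algebraMap F (AlgebraicClosure F)) =
          ∑ i, (algebraMap F (AlgebraicClosure F) (c i)) • b' i := by
        ext p q
        rw [Matrix.map_apply, Matrix.sum_apply, Matrix.sum_apply, map_sum]
        refine Finset.sum_congr rfl fun i _ => ?_
        rw [Matrix.smul_apply, Matrix.smul_apply, smul_eq_mul, smul_eq_mul, map_mul]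
        rfl
      change (∑ i, c i • b i).map (algebraMap F (AlgebraicClosure F)) ∈ _
      rw [this]
      exact Submodule.sum_mem _ fun i _ => Submodule.smul_mem _ _
        (Submodule.subset_span ⟨i, rfl⟩)
  have hnil' : ∀ i j, ∀ w ∈ W, ∃ k, ((adMap (b' i + b' j)) ^ k) w = 0 := by
    intro i j
    have h := extSpan_nil (K := AlgebraicClosure F) (b i + b j) (hnil i j)
    have e : (b i + b j).map (algebraMap F (AlgebraicClosure F)) = b' i + b' j := by
      ext p q
      simp [hb']
    rw [e] at h
    exact h
  obtain ⟨s, hs⟩ := det_eq_prod W hWc b' hspan hnil'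
  have hb'W : ∀ i, b' i ∈ W := fun i => hspan ▸ Submodule.subset_span ⟨i, rfl⟩
  -- the product of the polynomials vanishes
  have hzero : (s.map (fun χ => ∑ i : Fin d, (X : (AlgebraicClosure F)[X]) ^ (i : ℕ) *
      C (χ ⟨b' i, hb'W i⟩))).prod = 0 := by
    apply Polynomial.funext
    intro c
    rw [eval_zero, eval_multiset_prod, Multiset.map_map]
    have h1 : ∀ χ : W →ₗ[AlgebraicClosure F] AlgebraicClosure F,
        (∑ i : Fin d, (X : (AlgebraicClosure F)[X]) ^ (i : ℕ) * C (χ ⟨b' i, hb'W i⟩)).eval c =
        χ (∑ i : Fin d, c ^ (i : ℕ) • ⟨b' i, hb'W i⟩) := by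
      intro χ
      rw [eval_finsetSum, map_sum]
      refine Finset.sum_congr rfl fun i _ => ?_
      rw [eval_mul, eval_pow, eval_X, eval_C, map_smul, smul_eq_mul]
    have h2 := hs (∑ i : Fin d, c ^ (i : ℕ) • ⟨b' i, hb'W i⟩)
    have h3 : ((∑ i : Fin d, c ^ (i : ℕ) • (⟨b' i, hb'W i⟩ : W) : W) :
        Matrix n n (AlgebraicClosure F)) = ∑ i : Fin d, c ^ (i : ℕ) • b' i := by
      rw [AddSubmonoidClass.coe_finsetSum]
      rfl
    rw [h3, ← eval_det_curve b' c] at h2
    have h4 : (curve b').det = (curve b).det.map (algebraMap F (AlgebraicClosure F)) := by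
      have h := (mapRingHom (algebraMap F (AlgebraicClosure F))).map_det (curve b)
      rw [coe_mapRingHom] at h
      rw [h]
      congr 1
      refine Matrix.ext fun p q => ?_
      rw [RingHom.mapMatrix_apply, Matrix.map_apply, curve_apply, curve_apply, coe_mapRingHom,
        Polynomial.map_sum]
      refine Finset.sum_congr rfl fun i _ => ?_
      rw [Polynomial.map_mul, Polynomial.map_pow, map_X, map_C]
      rfl
    rw [h4, hdet, Polynomial.map_zero, eval_zero] at h2
    rw [h2]
    congr 1
    refine Multiset.map_congr rfl fun χ _ => ?_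
    exact h1 χ
  rw [Multiset.prod_eq_zero_iff, Multiset.mem_map] at hzero
  obtain ⟨χ, hχs, hχ⟩ := hzero
  have hχb : ∀ i, χ ⟨b' i, hb'W i⟩ = 0 := by
    intro i
    have h := congrArg (fun p => p.coeff (i : ℕ)) hχ
    simp only [finsetSum_coeff, coeff_zero] at h
    rw [Finset.sum_eq_single i] at h
    · rwa [coeff_mul_C, coeff_X_pow_self, one_mul] at h
    · intro j _ hji
      rw [coeff_mul_C, coeff_X_pow, if_neg (fun h => hji (Fin.ext h).symm), zero_mul]
    · intro h
      exact absurd (Finset.mem_univ i) h
  have hχ0 : ∀ w : W, χ w = 0 := by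
    intro w
    refine linearForm_eq_zero_of_span W (Set.range b') hspan χ ?_ w
    rintro _ hs ⟨i, rfl⟩
    exact hχb i
  intro A hA
  have h1 := hs ⟨A.map (algebraMap F (AlgebraicClosure F)), map_mem_extSpan hA⟩
  have h2 : (s.map (fun χ => χ ⟨A.map (algebraMap F (AlgebraicClosure F)),
      map_mem_extSpan hA⟩)).prod = 0 := by
    rw [Multiset.prod_eq_zero_iff, Multiset.mem_map]
    exact ⟨χ, hχs, hχ0 _⟩
  rw [h2] at h1
  have h3 := (algebraMap F (AlgebraicClosure F)).map_det A
  have h4 : (algebraMap F (AlgebraicClosure F)).mapMatrix A =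
      A.map (algebraMap F (AlgebraicClosure F)) := rfl
  rw [h4, h1] at h3
  exact (map_eq_zero _).1 h3

end

end Pool.Agent.Lib.MP_64d474_lc
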