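import Mathlib
import Pool.Agent.Lib.MP_64d474_lc.LTSFinal

/-!
# Symbolic determinants on spaces of matrices closed under double commutators

Let `V` be a linear space of `n × n` matrices over a field of characteristic zero such that
`[x, [x, y]] ∈ V` for all `x, y ∈ V` (equivalently, `V` is a Lie triple system of matrices).
Examples: matrix Lie algebras, spaces closed under squaring (Jordan algebras of matrices) or under
`(x, y) ↦ x y x`, the symmetric or skew-symmetric elements of a matrix algebra with involution,
pairs of blocks `[0 A; B 0]`, Clifford spaces.  We prove the correctness and termination of the following decision procedure for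
symbolic nonsingularity.  While the current space `W`, spanned by `b_1, …, b_d`, has a pair
`i, j` such that `ad (b_i + b_j)` is not locally nilpotent on `W`, replace `W` by its Engel part
`{y ∈ W : (ad x)^k y = 0 for some k}` at `x = b_i + b_j`.  When no such pair is left, test the
matrices `∑ t^i b_i` for `t = 0, 1, …, n (d - 1)`.
-/

open Matrix Module

namespace Pool.Agent.Results.MP_64d474_lc.DoubleCommutatorClosed

open Pool.Agent.Lib.MP_64d474_lc

/-- `B` is the Engel part of `A` at some `x ∈ A`: the elements of `A` annihilated by a power of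
`z ↦ x z - z x`. -/
def EngelStep {F : Type*} [Field F] {n : ℕ} (A B : Submodule F (Matrix (Fin n) (Fin n) F)) :
    Prop :=
  ∃ x ∈ A, ∀ y, y ∈ B ↔ y ∈ A ∧ ∃ k : ℕ, (fun z => x * z - z * x)^[k] y = 0

/-- `b` spans `W`, and for all `i, j` every element of `W` is annihilated by a power of
`z ↦ (b i + b j) z - z (b i + b j)`. -/
def Terminal {F : Type*} [Field F] {n d : ℕ} (W : Submodule F (Matrix (Fin n) (Fin n) F))
    (b : Fin d → Matrix (Fin n) (Fin n) F) : Prop :=
  Submodule.span F (Set.range b) = W ∧
    ∀ i j, ∀ w ∈ W, ∃ k : ℕ, (fun z => (b i + b j) * z - z * (b i + b j))^[k] w = 0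

theorem exists_terminal {F : Type*} [Field F] {n : ℕ} :
    ∀ (N : ℕ) (V : Submodule F (Matrix (Fin n) (Fin n) F)), finrank F V = N →
      ∃ (W : Submodule F (Matrix (Fin n) (Fin n) F)) (d : ℕ)
        (b : Fin d → Matrix (Fin n) (Fin n) F),
        Relation.ReflTransGen EngelStep V W ∧ Terminal W b ∧ d ≤ N := by
  intro N
  induction N using Nat.strong_induction_on with
  | _ N ih =>
    intro V hN
    set b : Fin (finrank F V) → Matrix (Fin n) (Fin n) F :=
      fun i => ((finBasis F V) i : Matrix (Fin n) (Fin n) F) with hb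
    have hbV : ∀ i, b i ∈ V := fun i => ((finBasis F V) i).2
    have hspan : Submodule.span F (Set.range b) = V := by
      have h1 : Set.range b = V.subtype '' (Set.range (finBasis F V)) := by
        rw [← Set.range_comp]
        rfl
      rw [h1, ← Submodule.map_span, (finBasis F V).span_eq, Submodule.map_top,
        Submodule.range_subtype]
    by_cases hT : Terminal V b
    · exact ⟨V, _, b, Relation.ReflTransGen.refl, hT, hN.le⟩
    · have h2 : ∃ i j, ∃ w ∈ V, ∀ k : ℕ,
          (fun z => (b i + b j) * z - z * (b i + b j))^[k] w ≠ 0 := by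
        by_contra hcon
        apply hT
        refine ⟨hspan, fun i j w hw => ?_⟩
        by_contra h3
        apply hcon
        refine ⟨i, j, w, hw, fun k hk => h3 ⟨k, hk⟩⟩
      obtain ⟨i, j, w, hw, hk⟩ := h2
      set x := b i + b j with hx
      let B : Submodule F (Matrix (Fin n) (Fin n) F) :=
        { carrier := {y | y ∈ V ∧ ∃ k : ℕ, (fun z => x * z - z * x)^[k] y = 0}
          add_mem' := by
            rintro y z ⟨hy, k, hyk⟩ ⟨hz, l, hzl⟩
            rw [iterate_eq_pow] at hyk hzl
            refine ⟨V.add_mem hy hz, k + l, ?_⟩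
            rw [iterate_eq_pow, map_add]
            have e1 : ((adMap x) ^ (k + l)) y = 0 := by
              rw [add_comm, pow_add, Module.End.mul_apply, hyk, map_zero]
            have e2 : ((adMap x) ^ (k + l)) z = 0 := by
              rw [pow_add, Module.End.mul_apply, hzl, map_zero]
            rw [e1, e2, add_zero]
          zero_mem' := ⟨V.zero_mem, 0, rfl⟩
          smul_mem' := by
            rintro c y ⟨hy, k, hyk⟩
            rw [iterate_eq_pow] at hyk
            refine ⟨V.smul_mem c hy, k, ?_⟩
            rw [iterate_eq_pow, map_smul, hyk, smul_zero] }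
      have hB : ∀ y, y ∈ B ↔ y ∈ V ∧ ∃ k : ℕ, (fun z => x * z - z * x)^[k] y = 0 :=
        fun y => Iff.rfl
      have hlt : B < V := by
        refine lt_of_le_of_ne (fun y hy => ((hB y).1 hy).1) ?_
        rintro hBV
        have : w ∈ B := by rw [hBV]; exact hw
        obtain ⟨_, k, hk'⟩ := (hB w).1 this
        exact hk k hk'
      have hfin : finrank F B < N := by
        rw [← hN]
        exact Submodule.finrank_lt_finrank_of_lt hlt
      obtain ⟨W, d, b', h3, h4, h5⟩ := ih _ hfin B rfl
      exact ⟨W, d, b', Relation.ReflTransGen.head ⟨x, V.add_mem (hbV i) (hbV j), hB⟩ h3, h4,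
        h5.trans hfin.le⟩

theorem result {F : Type*} [Field F] [CharZero F] {n : ℕ}
    (V : Submodule F (Matrix (Fin n) (Fin n) F))
    (hV : ∀ x ∈ V, ∀ y ∈ V, x * (x * y - y * x) - (x * y - y * x) * x ∈ V) :
    (∃ (W : Submodule F (Matrix (Fin n) (Fin n) F)) (d : ℕ)
        (b : Fin d → Matrix (Fin n) (Fin n) F),
        Relation.ReflTransGen EngelStep V W ∧ Terminal W b ∧ d ≤ finrank F V) ∧
      ∀ (W : Submodule F (Matrix (Fin n) (Fin n) F)) (d : ℕ)
        (b : Fin d → Matrix (Fin n) (Fin n) F),
        Relation.ReflTransGen EngelStep V W → Terminal W b →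
          ((∃ A ∈ V, A.det ≠ 0) ↔
            ∃ t : ℕ, t ≤ n * (d - 1) ∧ (∑ i : Fin d, (t : F) ^ (i : ℕ) • b i).det ≠ 0) := by
  refine ⟨exists_terminal _ V rfl, ?_⟩
  rintro W d b hchain ⟨hb, hnil⟩
  obtain ⟨hW, hWV, hdet⟩ := DoubleClosed.chain (V := V) (W := W) hV hchain
  have hbW : ∀ i, b i ∈ W := fun i => hb ▸ Submodule.subset_span ⟨i, rfl⟩
  constructor
  · rintro ⟨A, hA, hA0⟩
    by_contra hcon
    push Not at hcon
    have hcurve : (curve b).det = 0 := by
      apply det_curve_eq_zero
      intro t ht
      rw [Fintype.card_fin] at ht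
      exact hcon t ht
    have hnil' : ∀ i j, ∀ w ∈ W, ∃ k, ((adMap (b i + b j)) ^ k) w = 0 := by
      intro i j w hw
      obtain ⟨k, hk⟩ := hnil i j w hw
      rw [iterate_eq_pow] at hk
      exact ⟨k, hk⟩
    exact hA0 (hdet (terminal_test W hW b hb hnil' hcurve) A hA)
  · rintro ⟨t, _, ht⟩
    exact ⟨_, hWV (Submodule.sum_mem _ fun i _ => Submodule.smul_mem _ _ (hbW i)), ht⟩

end Pool.Agent.Results.MP_64d474_lc.DoubleCommutatorClosed
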