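import Mathlib
import Pool.Agent.Lib.MP_64d474_lc.WnEnd
import Pool.Agent.Lib.MP_64d474_lc.QnPoint

/-!
Iterating the passage to leading forms until a single monomial is left: coefficient matrices of
Witt index at most one.
-/

open Matrix Module MvPolynomial

set_option linter.unusedSectionVars false

namespace Pool.Agent.Lib.MP_64d474_lc

section

variable {F : Type*} [Field F] [CharZero F] {ι : Type*} [Fintype ι] [DecidableEq ι] {m : ℕ}

theorem clean_nextW {Λ : Type} [AddCommGroup Λ] [DecidableEq Λ] (hsep : Sep Λ)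
    (P : WPres F ι (Fin m) Λ)
    (hf : P.f ≠ 0) {p : ℕ} (hp : p.Prime) {s : ℕ} (hs : 2 ^ s < p) (Z : Finset (Fin m → ℤ))
    (hZc : Z.card * m < p) (hZ : ∀ g z, P.Q s g g z → z ∈ Z) :
    ∃ b < p, ∃ P' : WPres F ι (Fin m) (Λ × ℤ), P'.f ≠ 0 ∧ P'.clean s ∧
      ∃ μ : ℤ, (∀ d, coeff d P.f ≠ 0 → μ ≤ wt (hw p b) d) ∧
        (∀ d, coeff d P'.f ≠ 0 ↔ coeff d P.f ≠ 0 ∧ wt (hw p b) d = μ) := by
  classical
  let Z' := Z.filter fun z => ∃ g, P.Q s g g z
  obtain ⟨b, hb, hbz⟩ := exists_hash m p hp Z' (by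
    intro z hz k
    obtain ⟨g, hg⟩ := (Finset.mem_filter.mp hz).2
    have h1 := P.Q_bound hg k
    have h2 : ((2 : ℤ) ^ s) < p := by exact_mod_cast hs
    linarith) (by
    refine lt_of_le_of_lt (Nat.mul_le_mul_right m ?_) hZc
    exact Finset.card_filter_le _ _)
  obtain ⟨P', hf', href, hμ⟩ := P.stage hsep hf (hw p b)
  refine ⟨b, hb, P', hf', ?_, hμ⟩
  intro g z hQ
  by_contra hz
  have h1 := href.Q hQ
  have h2 := href.closed hQ
  exact hbz z (Finset.mem_filter.mpr ⟨hZ _ _ h1, _, h1⟩) hz h2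

theorem chainW {n p : ℕ} (hn : Fintype.card ι ≤ n) (hp : p.Prime)
    (hp2 : (2 * n) ^ 4 * m < p) : ∀ (r : ℕ) {Λ : Type} [AddCommGroup Λ] [DecidableEq Λ]
    (_ : Sep Λ) (P : WPres F ι (Fin m) Λ) (_ : P.f ≠ 0) (s : ℕ)
    (_ : P.clean (s + 1)) (_ : 2 * n ≤ 2 ^ (s + 1 + r)) (_ : 2 ^ (s + 1 + r) < p),
    ∃ bs : List ℕ, bs.length = r ∧ (∀ b ∈ bs, b < p) ∧ ∃ d, coeff d P.f ≠ 0 ∧
      ∀ d', coeff d' P.f ≠ 0 → d' ≠ d → lexLT p bs d d' := by
  intro r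
  induction r with
  | zero =>
    intro Λ _ _ hsep P hf s hcl h2n hsp
    obtain ⟨d, hd⟩ := MvPolynomial.exists_coeff_ne_zero hf
    refine ⟨[], rfl, by simp, d, hd, fun d' hd' hne => ?_⟩
    exact absurd (P.single_monomial hcl ((Nat.mul_le_mul_left 2 hn).trans h2n) hd' hd) hne
  | succ r ih =>
    intro Λ _ _ hsep P hf s hcl h2n hsp
    obtain ⟨Z, hZc, hZ⟩ := P.count_succ hcl
    have hs2 : 2 ^ (s + 2) < p := by
      refine lt_of_le_of_lt (Nat.pow_le_pow_right (by norm_num) ?_) hsp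
      omega
    obtain ⟨b, hb, P', hf', hcl', μ, hμ1, hμ2⟩ := clean_nextW hsep P hf hp hs2 Z (by
      refine lt_of_le_of_lt (Nat.mul_le_mul_right m (hZc.trans ?_)) hp2
      exact Nat.pow_le_pow_left (Nat.mul_le_mul_left 2 hn) 4) hZ
    obtain ⟨bs, hbs1, hbs2, d, hd, hmin⟩ := ih hsep.prod P' hf' (s + 1) hcl' (by
        rw [show s + 1 + 1 + r = s + 1 + (r + 1) by ring]; exact h2n) (by
        rw [show s + 1 + 1 + r = s + 1 + (r + 1) by ring]; exact hsp)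
    refine ⟨b :: bs, by rw [List.length_cons, hbs1], ?_, d, ((hμ2 d).mp hd).1, ?_⟩
    · intro b' hb'
      rcases List.mem_cons.mp hb' with rfl | h
      · exact hb
      · exact hbs2 b' h
    · intro d' hd' hne
      have e1 := ((hμ2 d).mp hd).2
      have e2 := hμ1 d' hd'
      rcases lt_or_eq_of_le e2 with h | h
      · left
        rw [e1]; exact h
      · right
        refine ⟨by rw [e1, h], hmin d' ((hμ2 d').mpr ⟨hd', h.symm⟩) hne⟩

theorem chain_startW {n p : ℕ} (hn : Fintype.card ι ≤ n) (hp : p.Prime)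
    (hp1 : (2 * m + 1) ^ 2 * m < p) (hp2 : (2 * n) ^ 4 * m < p) (r : ℕ) {Λ : Type}
    [AddCommGroup Λ] [DecidableEq Λ] (hsep : Sep Λ) (P : WPres F ι (Fin m) Λ)
    (hf : P.f ≠ 0) (h2n : 2 * n ≤ 2 ^ (1 + r)) (hrp : 2 ^ (1 + r) < p) :
    ∃ bs : List ℕ, bs.length = r + 1 ∧ (∀ b ∈ bs, b < p) ∧ ∃ d, coeff d P.f ≠ 0 ∧
      ∀ d', coeff d' P.f ≠ 0 → d' ≠ d → lexLT p bs d d' := by
  obtain ⟨Z, hZc, hZ⟩ := P.count_one
  rw [Fintype.card_fin] at hZc
  have hs2 : 2 ^ 1 < p := lt_of_le_of_lt (Nat.pow_le_pow_right (by norm_num) (by omega)) hrp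
  obtain ⟨b, hb, P', hf', hcl', μ, hμ1, hμ2⟩ := clean_nextW hsep P hf hp hs2 Z
    (lt_of_le_of_lt (Nat.mul_le_mul_right m hZc) hp1) hZ
  obtain ⟨bs, hbs1, hbs2, d, hd, hmin⟩ := chainW (F := F) (ι := ι) hn hp hp2 r hsep.prod P' hf'
    0 hcl' (by rw [zero_add]; exact h2n) (by rw [zero_add]; exact hrp)
  refine ⟨b :: bs, by rw [List.length_cons, hbs1], ?_, d, ((hμ2 d).mp hd).1, ?_⟩
  · intro b' hb'
    rcases List.mem_cons.mp hb' with rfl | h
    · exact hb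
    · exact hbs2 b' h
  · intro d' hd' hne
    have e1 := ((hμ2 d).mp hd).2
    have e2 := hμ1 d' hd'
    rcases lt_or_eq_of_le e2 with h | h
    · left
      rw [e1]; exact h
    · right
      refine ⟨by rw [e1, h], hmin d' ((hμ2 d').mpr ⟨hd', h.symm⟩) hne⟩

/-- the presented form with trivial labels -/
def ofWitt (B₀ : Matrix ι ι F) (h₀ : B₀.IsSymm) (B : Fin m → Matrix ι ι F)
    (hB : ∀ k, (B k).IsSymm) (hW : ∀ k, WittLeOne (B k)) : WPres F ι (Fin m) ℤ where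
  B₀ := B₀
  B := B
  β := fun _ => 0
  μ := fun _ => 0
  symm₀ := h₀
  symm := hB
  witt := hW
  hB₀ := fun _ _ _ => rfl
  hB := fun _ _ _ _ => rfl

theorem witt_point {n : ℕ} (hn : Fintype.card ι ≤ n) (B₀ : Matrix ι ι F) (h₀ : B₀.IsSymm)
    (B : Fin m → Matrix ι ι F) (hB : ∀ k, (B k).IsSymm) (hW : ∀ k, WittLeOne (B k))
    (x : Fin m → F) (hx : (B₀ + ∑ k, x k • B k).det ≠ 0) :
    ∃ p ≤ 32 * (n + m + 1) ^ 5, p.Prime ∧ ∃ b : Fin (Nat.log 2 n + 2) → ℕ, (∀ i, b i < p) ∧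
      ∃ t ≤ (n * (32 * (n + m + 1) ^ 5) + 1) ^ (Nat.log 2 n + 2),
        (B₀ + ∑ k : Fin m, ((t ^ (∑ i, (b i ^ (k : ℕ) % p) *
          (n * (32 * (n + m + 1) ^ 5) + 1) ^ (i : ℕ)) : ℕ) : F) • B k).det ≠ 0 := by
  have hf : (symb B₀ B).det ≠ 0 := det_symb_ne_zero B₀ B x hx
  obtain ⟨p, hp, hpR, hp1, hp2, hp3⟩ := exists_prime_window n m
  set N := n * (32 * (n + m + 1) ^ 5) + 1 with hN
  have hNp : n * p < N := by
    rw [hN]
    exact Nat.lt_succ_of_le (Nat.mul_le_mul_left n hpR)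
  have hlog : 1 + (Nat.log 2 n + 1) = Nat.log 2 n + 2 := by omega
  have h2n : 2 * n ≤ 2 ^ (1 + (Nat.log 2 n + 1)) := by
    rw [hlog]
    have := Nat.lt_pow_succ_log_self (b := 2) (by norm_num) n
    calc 2 * n ≤ 2 * 2 ^ (Nat.log 2 n + 1) := Nat.mul_le_mul_left 2 this.le
      _ = 2 ^ (Nat.log 2 n + 2) := by rw [pow_succ 2 (Nat.log 2 n + 1)]; ring
  obtain ⟨bs, hbs1, hbs2, d, hd, hmin⟩ := chain_startW hn hp hp1 hp2 (Nat.log 2 n + 1)
    sep_int (ofWitt B₀ h₀ B hB hW) hf h2n (by rw [hlog]; exact hp3)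
  have hdeg : ∀ d', coeff d' (symb B₀ B).det ≠ 0 → ∑ k, d' k ≤ n :=
    fun d' hd' => (coeff_degree _ _ d' hd').trans hn
  obtain ⟨b, hb1, hb2⟩ := comb_sum (m := m) p N (Nat.log 2 n + 1 + 1) bs hbs1 hbs2
  obtain ⟨t, ht, hev⟩ := exists_point (symb B₀ B).det (comb p N bs)
    (N ^ (Nat.log 2 n + 2)) d hd
    (fun d' hd' hne => comb_lt hNp hp.pos bs d d' (hdeg d hd) (hmin d' hd' hne))
    (fun d' hd' => by
      have := nw_comb_lt hNp hp.pos bs d' (hdeg d' hd')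
      rw [hbs1] at this
      exact this.le)
  refine ⟨p, hpR, hp, b, hb1, t, ht, ?_⟩
  rw [← eval_symb, ← RingHom.mapMatrix_apply, ← RingHom.map_det]
  have e : (fun k : Fin m => ((t ^ comb p N bs k : ℕ) : F)) = fun k : Fin m =>
      ((t ^ (∑ i : Fin (Nat.log 2 n + 2), (b i ^ (k : ℕ) % p) * N ^ (i : ℕ)) : ℕ) : F) := by
    funext k
    rw [hb2]
  rw [← e]
  exact hev

/-- The rank version. -/
theorem witt_rank_point {n : ℕ} (hn : Fintype.card ι ≤ n) (B₀ : Matrix ι ι F) (h₀ : B₀.IsSymm)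
    (B : Fin m → Matrix ι ι F) (hB : ∀ k, (B k).IsSymm) (hW : ∀ k, WittLeOne (B k))
    (x : Fin m → F) :
    ∃ p ≤ 32 * (n + m + 1) ^ 5, p.Prime ∧ ∃ b : Fin (Nat.log 2 n + 2) → ℕ, (∀ i, b i < p) ∧
      ∃ t ≤ (n * (32 * (n + m + 1) ^ 5) + 1) ^ (Nat.log 2 n + 2),
        (B₀ + ∑ k, x k • B k).rank ≤ (B₀ + ∑ k : Fin m, ((t ^ (∑ i, (b i ^ (k : ℕ) % p) *
          (n * (32 * (n + m + 1) ^ 5) + 1) ^ (i : ℕ)) : ℕ) : F) • B k).rank := by
  classical
  have hsymm : (B₀ + ∑ k, x k • B k).IsSymm := by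
    rw [Matrix.IsSymm, Matrix.transpose_add, Matrix.transpose_sum, h₀.eq]
    congr 1
    refine Finset.sum_congr rfl fun k _ => ?_
    rw [Matrix.transpose_smul, (hB k).eq]
  obtain ⟨S, hS, hdet⟩ := exists_principal _ hsymm
  have hsub : ∀ y : Fin m → F,
      (B₀ + ∑ k, y k • B k).submatrix (Subtype.val : S → ι) (Subtype.val : S → ι) =
      B₀.submatrix (Subtype.val : S → ι) (Subtype.val : S → ι) +
        ∑ k, y k • (B k).submatrix (Subtype.val : S → ι) (Subtype.val : S → ι) := by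
    intro y
    ext i j
    simp [Matrix.sum_apply]
  have hWsub : ∀ k, WittLeOne ((B k).submatrix (Subtype.val : S → ι) (Subtype.val : S → ι)) := by
    intro k
    have h1 := witt_conj ((1 : Matrix ι ι F).submatrix (Subtype.val : S → ι) id) (B k) (hW k)
    have h2 : (1 : Matrix ι ι F).submatrix (Subtype.val : S → ι) id * B k *
        ((1 : Matrix ι ι F).submatrix (Subtype.val : S → ι) id)ᵀ =
        (B k).submatrix (Subtype.val : S → ι) (Subtype.val : S → ι) := by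
      ext i j
      simp [Matrix.mul_apply, Matrix.one_apply]
    rw [h2] at h1
    exact h1
  rw [hsub] at hdet
  obtain ⟨p, hp, hpr, b, hb, t, ht, h⟩ := witt_point (n := n)
    (by rw [Fintype.card_coe]; exact (Finset.card_le_univ S).trans hn)
    (B₀.submatrix (Subtype.val : S → ι) (Subtype.val : S → ι)) (h₀.submatrix _)
    (fun k => (B k).submatrix (Subtype.val : S → ι) (Subtype.val : S → ι))
    (fun k => (hB k).submatrix _) hWsub x hdet
  refine ⟨p, hp, hpr, b, hb, t, ht, ?_⟩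
  rw [← hsub] at h
  rw [← hS, ← Fintype.card_coe S, ← Matrix.rank_of_det_ne_zero h]
  exact Matrix.rank_submatrix_le _ _ _

end

end Pool.Agent.Lib.MP_64d474_lc
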