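import Mathlib
import Pool.Agent.Lib.MP_64d474_lc.HnCore
import Pool.Agent.Lib.MP_64d474_lc.ZtBounds

/-!
# Hitting sets for symbolic matrices with a hidden basis of matrices of rank one

Let `l = ⌊log₂ n⌋`, `s = level n = ⌊log₂ (l + 1)⌋ + 3` and `M = 33 (n + m + 8 (l + 1)) ^ 6`.  The
explicit set `hits n m c` of points of `ℕ ^ m` consists of the sums `f + g`, where `f` is a sum of
`c` multiples `z e`, `z ≤ n`, of zero or unit vectors `e`, and `g` is a sum of `144 (l + 1) ^ 2`
multiples `z a`, `z ≤ n`, of points `a` of the explicit set `baseSet n m s`.  It has at most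
`((m + 1) (n + 1)) ^ c * M ^ (288 (s + 1) (l + 1) ^ 2)` points.

Let `F` be a field of characteristic zero, `B₀, B₁, …, B_m` matrices of size `n × n` over `F` and
`V` a subspace of `F ^ m` of codimension at most `c`.

Part 1.  If the space of the matrices `∑ x_k B_k`, `x ∈ V`, is spanned by matrices of rank at most
one (of which nothing is known), then some `h ∈ hits n m c` attains the largest rank of the matrices
`B₀ + ∑ x_k B_k`.

Part 2.  Let `r ≤ n`, `S ∈ F ^ (r × n)`, `T ∈ F ^ (n × r)` and let the matrices `S B_k T`,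
`0 ≤ k ≤ m`, be block upper triangular for a labelling `β` of the indices.  If for every label the
space of the diagonal blocks of `∑ x_k S B_k T`, `x ∈ V`, is spanned by matrices of rank at most one
and `S (B₀ + ∑ x_k B_k) T` is nonsingular for some `x`, then it is nonsingular for some
`h ∈ hits n m c`.
-/

open Matrix Module

namespace Pool.Agent.Lib.MP_64d474_lc.HiddenRankOneOld

open Pool.Agent.Lib.MP_64d474_lc

/-- the number of digits of the exponents of the base set -/
def level (n : ℕ) : ℕ := Nat.log 2 (Nat.log 2 n + 1) + 3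

/-- zero and the unit vectors -/
def units (m : ℕ) : Finset (Fin m → ℕ) :=
  insert 0 (Finset.univ.image fun k => (Pi.single k 1 : Fin m → ℕ))

/-- the hitting set -/
def hits (n m c : ℕ) : Finset (Fin m → ℕ) :=
  (sums n (units m) c ×ˢ
    sums n (baseSet n m (level n)) (144 * (Nat.log 2 n + 1) ^ 2)).image fun q => q.1 + q.2

/-- every matrix `f x`, `x ∈ V`, is a linear combination of matrices `f y`, `y ∈ V`, of rank at
most one -/
def SpannedByRankOne {F : Type*} [Field F] {r m : ℕ} (V : Submodule F (Fin m → F))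
    (f : (Fin m → F) → Matrix (Fin r) (Fin r) F) : Prop :=
  ∀ x ∈ V, f x ∈ Submodule.span F {M | M.rank ≤ 1 ∧ ∃ y ∈ V, f y = M}

/-- the diagonal block with label `b` of `∑ x_k A_k` (all other entries are replaced by zero) -/
def diagBlock {F : Type*} [Field F] {r m : ℕ} (A : Fin m → Matrix (Fin r) (Fin r) F)
    (β : Fin r → ℕ) (b : ℕ) (x : Fin m → F) : Matrix (Fin r) (Fin r) F :=
  Matrix.of fun i j => if β i = b ∧ β j = b then (∑ k, x k • A k) i j else 0

theorem level_spec (n : ℕ) : 4 * (Nat.log 2 n + 1) ≤ 2 ^ level n ∧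
    2 ^ level n ≤ 8 * (Nat.log 2 n + 1) := by
  rw [level, pow_add]
  have h1 : Nat.log 2 n + 1 < 2 ^ (Nat.log 2 (Nat.log 2 n + 1) + 1) :=
    Nat.lt_pow_succ_log_self (by norm_num) _
  have h2 : 2 ^ Nat.log 2 (Nat.log 2 n + 1) ≤ Nat.log 2 n + 1 :=
    Nat.pow_log_le_self 2 (Nat.succ_ne_zero _)
  rw [pow_succ] at h1
  constructor <;> omega

theorem units_nonempty (m : ℕ) : (units m).Nonempty := ⟨0, Finset.mem_insert_self _ _⟩

theorem single_mem_units {m : ℕ} (k : Fin m) : (Pi.single k 1 : Fin m → ℕ) ∈ units m :=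
  Finset.mem_insert_of_mem (Finset.mem_image_of_mem _ (Finset.mem_univ k))

theorem card_units_le (m : ℕ) : (units m).card ≤ m + 1 := by
  refine (Finset.card_insert_le _ _).trans (Nat.succ_le_succ ?_)
  refine Finset.card_image_le.trans ?_
  rw [Finset.card_univ, Fintype.card_fin]

theorem units_le {m : ℕ} : ∀ a ∈ units m, ∀ k, a k ≤ 1 := by
  intro a ha k
  rw [units, Finset.mem_insert, Finset.mem_image] at ha
  rcases ha with rfl | ⟨l, _, rfl⟩
  · exact Nat.zero_le _
  · rw [Pi.single_apply]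
    split_ifs
    · exact le_refl _
    · exact Nat.zero_le _

theorem hit_compressed {F : Type*} [Field F] [CharZero F] {n m c : ℕ}
    (B₀ : Matrix (Fin n) (Fin n) F) (B : Fin m → Matrix (Fin n) (Fin n) F)
    (V : Submodule F (Fin m → F)) (hV : m ≤ finrank F V + c) {r : ℕ} (hr : r ≤ n)
    (S : Matrix (Fin r) (Fin n) F) (T : Matrix (Fin n) (Fin r) F) (β : Fin r → ℕ)
    (h0 : ∀ i j, (S * B₀ * T) i j ≠ 0 → β i ≤ β j)
    (hB : ∀ k i j, (S * B k * T) i j ≠ 0 → β i ≤ β j)
    (hsp : ∀ b, SpannedByRankOne V (diagBlock (fun k => S * B k * T) β b))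
    (x : Fin m → F) (hx : (S * (B₀ + ∑ k, x k • B k) * T).det ≠ 0) :
    ∃ h ∈ hits n m c, (S * (B₀ + ∑ k, (h k : F) • B k) * T).det ≠ 0 := by
  have hsp' : ∀ b, RankOneSpanned (V.map (blockMap (fun k => S * B k * T) β b)) := by
    intro b M' hM'
    obtain ⟨y, hy, rfl⟩ := Submodule.mem_map.mp hM'
    refine Submodule.span_mono ?_ (hsp b y hy)
    intro M hM
    obtain ⟨hrk, z, hz, rfl⟩ := hM
    exact ⟨Submodule.mem_map.mpr ⟨z, hz, rfl⟩, hrk⟩
  have hmul : ∀ y : Fin m → F, S * (B₀ + ∑ k, y k • B k) * T =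
      S * B₀ * T + ∑ k, y k • (S * B k * T) := by
    intro y
    rw [Matrix.mul_add, Matrix.add_mul, Matrix.mul_sum, Matrix.sum_mul]
    congr 1
    refine Finset.sum_congr rfl fun k _ => ?_
    rw [Matrix.mul_smul, Matrix.smul_mul]
  rw [hmul] at hx
  obtain ⟨f, hf, g, hg, h⟩ := hidden_core (c := c) hr (level_spec n).1 (S * B₀ * T)
    (fun k => S * B k * T) V hV β h0 hB hsp' x hx (units m) (units_nonempty m) single_mem_units
  have hN : 6 * (Nat.log 2 n + 1) * (24 * (Nat.log 2 n + 1)) = 144 * (Nat.log 2 n + 1) ^ 2 := by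
    ring
  rw [hN] at hg
  refine ⟨f + g, ?_, ?_⟩
  · rw [hits, Finset.mem_image]
    exact ⟨(f, g), Finset.mem_product.mpr ⟨hf, hg⟩, rfl⟩
  · rw [hmul]
    exact h

theorem exists_max_rank {F : Type*} [Field F] {n m : ℕ} (B₀ : Matrix (Fin n) (Fin n) F)
    (B : Fin m → Matrix (Fin n) (Fin n) F) :
    ∃ x : Fin m → F, ∀ y : Fin m → F,
      (B₀ + ∑ k, y k • B k).rank ≤ (B₀ + ∑ k, x k • B k).rank := by
  classical
  have hb : ∀ x : Fin m → F, (B₀ + ∑ k, x k • B k).rank ≤ n := fun x => by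
    have := Matrix.rank_le_card_width (B₀ + ∑ k, x k • B k)
    rwa [Fintype.card_fin] at this
  have hex : ∃ r, ∃ x : Fin m → F, n - (B₀ + ∑ k, x k • B k).rank = r := ⟨_, 0, rfl⟩
  obtain ⟨x, hx⟩ := Nat.find_spec hex
  refine ⟨x, fun y => ?_⟩
  have h3 := Nat.find_min' hex ⟨y, rfl⟩
  have h4 := hb x
  have h5 := hb y
  omega

theorem spanned_compress {F : Type*} [Field F] {n m r : ℕ}
    (B : Fin m → Matrix (Fin n) (Fin n) F) (V : Submodule F (Fin m → F))
    (hsp : SpannedByRankOne V fun x => ∑ k, x k • B k)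
    (S : Matrix (Fin r) (Fin n) F) (T : Matrix (Fin n) (Fin r) F) (b : ℕ) :
    SpannedByRankOne V (diagBlock (fun k => S * B k * T) (fun _ => 0) b) := by
  classical
  set A : Fin m → Matrix (Fin r) (Fin r) F := fun k => S * B k * T with hA
  have hdb : ∀ (b : ℕ) (x : Fin m → F) (i j : Fin r), diagBlock A (fun _ => 0) b x i j =
      if (0 : ℕ) = b ∧ (0 : ℕ) = b then (∑ k, x k • A k) i j else 0 := fun _ _ _ _ => rfl
  have hval : ∀ x : Fin m → F, diagBlock A (fun _ => 0) 0 x = S * (∑ k, x k • B k) * T := by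
    intro x
    have h1 : S * (∑ k, x k • B k) * T = ∑ k, x k • A k := by
      rw [Matrix.mul_sum, Matrix.sum_mul]
      refine Finset.sum_congr rfl fun k _ => ?_
      rw [Matrix.mul_smul, Matrix.smul_mul]
    rw [h1]
    refine Matrix.ext fun i j => ?_
    rw [hdb, if_pos ⟨rfl, rfl⟩]
  intro x hx
  by_cases hb : b = 0
  · subst hb
    let f : Matrix (Fin n) (Fin n) F →ₗ[F] Matrix (Fin r) (Fin r) F :=
      { toFun := fun M => S * M * T
        map_add' := fun M N => by rw [Matrix.mul_add, Matrix.add_mul]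
        map_smul' := fun z M => by rw [Matrix.mul_smul, Matrix.smul_mul, RingHom.id_apply] }
    have hf : ∀ M, f M = S * M * T := fun _ => rfl
    have h2 := Submodule.mem_map_of_mem (f := f) (hsp x hx)
    rw [Submodule.map_span, hf] at h2
    rw [hval]
    refine Submodule.span_mono ?_ h2
    intro M'' hM''
    obtain ⟨M, ⟨hrk, y, hy, rfl⟩, rfl⟩ := hM''
    rw [hf]
    exact ⟨((Matrix.rank_mul_le_left _ _).trans (Matrix.rank_mul_le_right _ _)).trans hrk, y, hy,
      hval y⟩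
  · have h1 : diagBlock A (fun _ => 0) b x = 0 := by
      refine Matrix.ext fun i j => ?_
      rw [hdb, if_neg (fun h => hb h.1.symm), Matrix.zero_apply]
    rw [h1]
    exact Submodule.zero_mem _

theorem result.{u} (n m c : ℕ) :
    (hits n m c).card ≤ ((m + 1) * (n + 1)) ^ c *
      (33 * (n + m + 8 * (Nat.log 2 n + 1)) ^ 6) ^
        (288 * (level n + 1) * (Nat.log 2 n + 1) ^ 2) ∧
    (∀ h ∈ hits n m c, ∀ k, h k ≤ c * n + 144 * (Nat.log 2 n + 1) ^ 2 * (n *
      ((33 * (n + m + 8 * (Nat.log 2 n + 1)) ^ 6) ^ level n) ^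
        ((33 * (n + m + 8 * (Nat.log 2 n + 1)) ^ 6) ^ level n))) ∧
    ∀ (F : Type u) [Field F] [CharZero F] (B₀ : Matrix (Fin n) (Fin n) F)
      (B : Fin m → Matrix (Fin n) (Fin n) F) (V : Submodule F (Fin m → F)),
      m ≤ finrank F V + c →
      ((SpannedByRankOne V fun x => ∑ k, x k • B k) →
        ∃ h ∈ hits n m c, ∀ x : Fin m → F,
          (B₀ + ∑ k, x k • B k).rank ≤ (B₀ + ∑ k, (h k : F) • B k).rank) ∧
      ∀ (r : ℕ) (S : Matrix (Fin r) (Fin n) F) (T : Matrix (Fin n) (Fin r) F) (β : Fin r → ℕ),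
        r ≤ n →
        (∀ i j, (S * B₀ * T) i j ≠ 0 → β i ≤ β j) →
        (∀ k i j, (S * B k * T) i j ≠ 0 → β i ≤ β j) →
        (∀ b, SpannedByRankOne V (diagBlock (fun k => S * B k * T) β b)) →
        (∃ x : Fin m → F, (S * (B₀ + ∑ k, x k • B k) * T).det ≠ 0) →
        ∃ h ∈ hits n m c, (S * (B₀ + ∑ k, (h k : F) • B k) * T).det ≠ 0 := by
  classical
  obtain ⟨hl1, hl2⟩ := level_spec n
  have hM : 33 * (n + m + 2 ^ level n) ^ 6 ≤ 33 * (n + m + 8 * (Nat.log 2 n + 1)) ^ 6 :=
    Nat.mul_le_mul_left _ (Nat.pow_le_pow_left (by omega) _)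
  have hn1 : n + 1 ≤ 33 * (n + m + 8 * (Nat.log 2 n + 1)) ^ 6 := by
    have h1 : n + 1 ≤ n + m + 8 * (Nat.log 2 n + 1) := by omega
    have h2 : n + m + 8 * (Nat.log 2 n + 1) ≤ (n + m + 8 * (Nat.log 2 n + 1)) ^ 6 :=
      Nat.le_self_pow (by norm_num) _
    omega
  refine ⟨?_, ?_, ?_⟩
  · rw [hits]
    refine Finset.card_image_le.trans ?_
    rw [Finset.card_product]
    refine Nat.mul_le_mul ?_ ?_
    · exact (card_sums_le _).trans (Nat.pow_le_pow_left
        (Nat.mul_le_mul_right _ (card_units_le m)) c)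
    · have h1 : 288 * (level n + 1) * (Nat.log 2 n + 1) ^ 2 =
          (2 * level n + 2) * (144 * (Nat.log 2 n + 1) ^ 2) := by ring
      rw [h1]
      exact card_sums_baseSet_le hM hn1
  · intro h hh k
    rw [hits, Finset.mem_image] at hh
    obtain ⟨⟨f, g⟩, hfg, rfl⟩ := hh
    obtain ⟨hf, hg⟩ := Finset.mem_product.mp hfg
    have h1 := sums_coord_le units_le f hf k
    have h2 := sums_coord_le (baseSet_le_of_le hM) g hg k
    rw [mul_one] at h1
    exact Nat.add_le_add h1 h2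
  · intro F _ _ B₀ B V hV
    refine ⟨fun hsp => ?_, fun r S T β hr h0 hB hsp ⟨x, hx⟩ =>
      hit_compressed B₀ B V hV hr S T β h0 hB hsp x hx⟩
    obtain ⟨x, hx⟩ := exists_max_rank B₀ B
    have hr : (B₀ + ∑ k, x k • B k).rank ≤ n := by
      have := Matrix.rank_le_card_width (B₀ + ∑ k, x k • B k)
      rwa [Fintype.card_fin] at this
    obtain ⟨S, T, hST⟩ := exists_minor_of_le_rank (B₀ + ∑ k, x k • B k) _ (le_refl _)
    obtain ⟨h, hh, hdet⟩ := hit_compressed B₀ B V hV hr S T (fun _ => 0)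
      (fun _ _ _ => le_refl _) (fun _ _ _ _ => le_refl _)
      (fun b => spanned_compress B V hsp S T b) x hST
    exact ⟨h, hh, fun y => (hx y).trans (le_rank_of_minor _ _ S T hdet)⟩

end Pool.Agent.Lib.MP_64d474_lc.HiddenRankOneOld
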