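import Mathlib

/-!
Kernel vectors of `x + t v` when `x` has locally maximal rank, and the resulting identities
`lam (v (g v)^k) w = 0`.
-/

open Matrix Module Polynomial

namespace Pool.Agent.Lib.MP_64d474_lc.Large

variable {F : Type*} [Field F] {ι : Type*} [Fintype ι] [DecidableEq ι]

/-- a functional applied to `adj(1 + tA) w` is polynomial in `t` -/
theorem exists_poly_adjugate (A : Matrix ι ι F) (w : ι → F) (ψ : (ι → F) →ₗ[F] F) :
    ∃ p : F[X], ∀ t : F, p.eval t = ψ ((1 + t • A).adjugate *ᵥ w) := by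
  classical
  let M : Matrix ι ι F[X] := 1 + (X : F[X]) • A.map C
  let Q : ι → F[X] := M.adjugate *ᵥ (fun i => C (w i))
  refine ⟨∑ i, C (ψ (Pi.single i 1)) * Q i, fun t => ?_⟩
  have hM : M.map (evalRingHom t) = 1 + t • A := by
    ext i j
    by_cases h : i = j
    · subst h; simp [M]; ring
    · simp [M, h]; ring
  have hadj : (M.adjugate).map (evalRingHom t) = (1 + t • A).adjugate := by
    have h := RingHom.map_adjugate (evalRingHom t) M
    rw [RingHom.mapMatrix_apply, RingHom.mapMatrix_apply, hM] at h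
    exact h
  have hQ : ∀ i, (Q i).eval t = ((1 + t • A).adjugate *ᵥ w) i := by
    intro i
    rw [← hadj]
    simp [Q, mulVec, dotProduct, eval_finsetSum]
  rw [eval_finsetSum]
  simp only [eval_mul, eval_C, hQ]
  conv_rhs => rw [pi_eq_sum_univ ((1 + t • A).adjugate *ᵥ w)]
  rw [map_sum]
  refine Finset.sum_congr rfl fun i _ => ?_
  rw [map_smul, smul_eq_mul, mul_comm]
  congr 2
  funext j
  by_cases h : i = j
  · subst h; simp
  · simp [h]

/-- The Krylov space of `w` under `A` is contained in the span of the resolvent values. -/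
theorem pow_mem_span_resolvent (A : Matrix ι ι F) (w : ι → F) (T : Set F) (hT : T.Infinite)
    (hu : ∀ t ∈ T, IsUnit (1 + t • A).det) (k : ℕ) :
    (A ^ k) *ᵥ w ∈ Submodule.span F ((fun t : F => (1 + t • A)⁻¹ *ᵥ w) '' (T \ {0})) := by
  classical
  set U := Submodule.span F ((fun t : F => (1 + t • A)⁻¹ *ᵥ w) '' (T \ {0})) with hU
  have hT' : (T \ {0}).Infinite := hT.sdiff (Set.finite_singleton 0)
  have hw : w ∈ U := by
    by_contra hcon
    obtain ⟨ψ, hψ1, hψ2⟩ := Submodule.exists_le_ker_of_notMem hcon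
    obtain ⟨p, hp⟩ := exists_poly_adjugate A w ψ
    have hp0 : p = 0 := by
      apply Polynomial.eq_zero_of_infinite_isRoot
      refine hT'.mono fun t ht => ?_
      show p.IsRoot t
      rw [IsRoot, hp]
      have h1 : (1 + t • A)⁻¹ *ᵥ w ∈ U := Submodule.subset_span ⟨t, ht, rfl⟩
      have h2 := hψ2 h1
      rw [LinearMap.mem_ker] at h2
      have h3 : (1 + t • A).adjugate *ᵥ w = (1 + t • A).det • ((1 + t • A)⁻¹ *ᵥ w) := by
        have hdet : (1 + t • A).det ≠ 0 := (hu t ht.1).ne_zero
        rw [Matrix.inv_def, Matrix.smul_mulVec, smul_smul, Ring.inverse_eq_inv',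
          mul_inv_cancel₀ hdet, one_smul]
      rw [h3, map_smul, h2, smul_zero]
    have := hp 0
    rw [hp0, eval_zero, zero_smul, add_zero, Matrix.adjugate_one, Matrix.one_mulVec] at this
    exact hψ1 this.symm
  have hA : ∀ u ∈ U, A *ᵥ u ∈ U := by
    intro u hu'
    induction hu' using Submodule.span_induction with
    | mem u hu' =>
      obtain ⟨t, ht, rfl⟩ := hu'
      have ht0 : t ≠ 0 := fun h => ht.2 h
      set y := (1 + t • A)⁻¹ *ᵥ w with hy
      have h1 : y + t • (A *ᵥ y) = w := by
        have : (1 + t • A) *ᵥ y = w := by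
          rw [hy, Matrix.mulVec_mulVec, Matrix.mul_nonsing_inv _ (hu t ht.1), Matrix.one_mulVec]
        rw [Matrix.add_mulVec, Matrix.one_mulVec, Matrix.smul_mulVec] at this
        exact this
      have h2 : A *ᵥ y = t⁻¹ • (w - y) := by
        rw [← h1, add_sub_cancel_left, smul_smul, inv_mul_cancel₀ ht0, one_smul]
      show A *ᵥ y ∈ U
      rw [h2]
      exact U.smul_mem _ (U.sub_mem hw (Submodule.subset_span ⟨t, ht, rfl⟩))
    | zero => rw [Matrix.mulVec_zero]; exact U.zero_mem
    | add a b _ _ ha hb => rw [Matrix.mulVec_add]; exact U.add_mem ha hb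
    | smul c a _ ha => rw [Matrix.mulVec_smul]; exact U.smul_mem _ ha
  induction k with
  | zero => rw [pow_zero, Matrix.one_mulVec]; exact hw
  | succ k ih =>
    rw [pow_succ', ← Matrix.mulVec_mulVec]
    exact hA _ ih

omit [DecidableEq ι] in
/-- If `B` does not lower the rank of `C`, it is injective on the range of `C`. -/
theorem mulVec_eq_zero_of_rank (B C : Matrix ι ι F) (h : C.rank ≤ (B * C).rank) (u : ι → F)
    (hu : B *ᵥ (C *ᵥ u) = 0) : C *ᵥ u = 0 := by
  classical
  have h1 := LinearMap.finrank_range_add_finrank_ker C.mulVecLin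
  have h2 := LinearMap.finrank_range_add_finrank_ker (B * C).mulVecLin
  have h3 : LinearMap.ker C.mulVecLin ≤ LinearMap.ker (B * C).mulVecLin := by
    intro y hy
    rw [LinearMap.mem_ker, Matrix.mulVecLin_apply] at hy ⊢
    rw [← Matrix.mulVec_mulVec, hy, Matrix.mulVec_zero]
  have e1 : C.rank = finrank F (LinearMap.range C.mulVecLin) := rfl
  have e2 : (B * C).rank = finrank F (LinearMap.range (B * C).mulVecLin) := rfl
  have h4 : LinearMap.ker C.mulVecLin = LinearMap.ker (B * C).mulVecLin := by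
    apply Submodule.eq_of_le_of_finrank_le h3
    omega
  have h5 : u ∈ LinearMap.ker (B * C).mulVecLin := by
    rw [LinearMap.mem_ker, Matrix.mulVecLin_apply, ← Matrix.mulVec_mulVec, hu]
  rw [← h4, LinearMap.mem_ker, Matrix.mulVecLin_apply] at h5
  exact h5

/-- The kernel vector of `x + v` obtained from a kernel vector of `x`. -/
theorem resolvent_mem_ker (x g v : Matrix ι ι F) (hg : x * g * x = x) (w : ι → F)
    (hw : x *ᵥ w = 0) (hu : IsUnit (1 + g * v).det) (hr : (x + v).rank ≤ x.rank) :
    (x + v) *ᵥ ((1 + g * v)⁻¹ *ᵥ w) = 0 := by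
  set u := (1 + g * v)⁻¹ *ᵥ w with hu'
  have h1 : (1 + g * v) *ᵥ u = w := by
    rw [hu', Matrix.mulVec_mulVec, Matrix.mul_nonsing_inv _ hu, Matrix.one_mulVec]
  have h2 : (x * g) * (x + v) = x * (1 + g * v) := by
    rw [Matrix.mul_add, Matrix.mul_add, Matrix.mul_one, hg, Matrix.mul_assoc]
  have h3 : ((x * g) * (x + v)).rank = x.rank := by
    rw [h2]
    exact Matrix.rank_mul_eq_left_of_isUnit_det _ _ hu
  apply mulVec_eq_zero_of_rank (x * g) (x + v) (by rw [h3]; exact hr)
  rw [Matrix.mulVec_mulVec, h2, ← Matrix.mulVec_mulVec, h1, hw]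

/-- **Identities at a matrix of locally maximal rank.** -/
theorem identities [Infinite F] (x g v : Matrix ι ι F) (hg : x * g * x = x) (lam w : ι → F)
    (hlam : lam ᵥ* x = 0) (hw : x *ᵥ w = 0) (hr : ∀ t : F, (x + t • v).rank ≤ x.rank) (k : ℕ) :
    lam ⬝ᵥ (v *ᵥ ((g * v) ^ k *ᵥ w)) = 0 := by
  classical
  let T : Set F := {t : F | IsUnit (1 + t • (g * v)).det}
  have hT : T.Infinite := by
    obtain ⟨p, hp⟩ : ∃ p : F[X], ∀ t : F, p.eval t = (1 + t • (g * v)).det := by
      generalize g * v = A
      refine ⟨(1 + (X : F[X]) • A.map C).det, fun t => ?_⟩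
      have h := RingHom.map_det (evalRingHom t) (1 + (X : F[X]) • A.map C)
      rw [coe_evalRingHom] at h
      rw [h]
      congr 1
      ext i j
      by_cases h : i = j
      · subst h; simp; ring
      · simp [h]; ring
    have hp0 : p ≠ 0 := by
      rintro rfl
      have := hp 0
      rw [eval_zero, zero_smul, add_zero, Matrix.det_one] at this
      exact zero_ne_one this
    have hfin : (Tᶜ).Finite := by
      refine (p.rootSet_finite F).subset fun t ht => ?_
      rw [Polynomial.mem_rootSet]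
      refine ⟨hp0, ?_⟩
      rw [Polynomial.coe_aeval_eq_eval, hp]
      by_contra h
      exact ht (Ne.isUnit h)
    intro hfinT
    exact Set.infinite_univ (α := F) (by
      rw [← Set.union_compl_self T]
      exact hfinT.union hfin)
  have h1 := pow_mem_span_resolvent (g * v) w T hT (fun t ht => ht) k
  let L : (ι → F) →ₗ[F] F :=
    { toFun := fun y => lam ⬝ᵥ (v *ᵥ y)
      map_add' := fun a b => by rw [Matrix.mulVec_add, dotProduct_add]
      map_smul' := fun c a => by
        rw [Matrix.mulVec_smul, dotProduct_smul, RingHom.id_apply] }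
  have h2 : Submodule.span F ((fun t : F => (1 + t • (g * v))⁻¹ *ᵥ w) '' (T \ {0})) ≤
      LinearMap.ker L := by
    rw [Submodule.span_le]
    rintro _ ⟨t, ht, rfl⟩
    have ht0 : t ≠ 0 := fun h => ht.2 h
    have h3 : (x + t • v) *ᵥ ((1 + g * (t • v))⁻¹ *ᵥ w) = 0 := by
      apply resolvent_mem_ker x g (t • v) hg w hw
      · rw [Matrix.mul_smul]; exact ht.1
      · exact hr t
    rw [Matrix.mul_smul] at h3
    have h4 := congrArg (fun z => lam ⬝ᵥ z) h3
    simp only [Matrix.add_mulVec, dotProduct_add, dotProduct_zero] at h4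
    rw [Matrix.dotProduct_mulVec, hlam, zero_dotProduct, zero_add, Matrix.smul_mulVec,
      dotProduct_smul, smul_eq_mul, mul_eq_zero] at h4
    exact h4.resolve_left ht0
  exact h2 h1

end Pool.Agent.Lib.MP_64d474_lc.Large
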