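import Mathlib
import Pool.Agent.Lib.MP_64d474_lc.LargeKer

/-!
A space of matrices on which the first three identities hold at a matrix `A` has large
codimension, in terms of the dimensions of `V w` and `lam V`.
-/

open Matrix Module

namespace Pool.Agent.Lib.MP_64d474_lc.Large

variable {F : Type*} [Field F] {ι : Type*} [Fintype ι] [DecidableEq ι]

/-- existence of a generalized inverse -/
theorem exists_ginv (x : Matrix ι ι F) : ∃ g : Matrix ι ι F, x * g * x = x := by
  classical
  set f := x.mulVecLin with hf
  obtain ⟨h, hh⟩ := f.rangeRestrict.exists_rightInverse_of_surjective f.range_rangeRestrict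
  obtain ⟨p, hp⟩ := (LinearMap.range f).subtype.exists_leftInverse_of_injective
    (Submodule.ker_subtype _)
  refine ⟨LinearMap.toMatrix' (h ∘ₗ p), ?_⟩
  apply Matrix.toLin'.injective
  rw [Matrix.toLin'_mul, Matrix.toLin'_mul, Matrix.toLin'_toMatrix']
  have e : Matrix.toLin' x = f := rfl
  rw [e]
  ext1 i
  ext j
  simp only [LinearMap.comp_apply]
  set y := f (LinearMap.single F (fun _ => F) i 1) with hy
  have h1 : p y = ⟨y, LinearMap.mem_range_self _ _⟩ := by
    have := LinearMap.congr_fun hp ⟨y, LinearMap.mem_range_self _ _⟩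
    simpa using this
  have h2 := LinearMap.congr_fun hh (p y)
  have h3 := congrArg Subtype.val h2
  rw [LinearMap.comp_apply, LinearMap.id_apply, h1] at h3
  rw [h1]
  exact congrFun h3 j

/-- the cubic form, polarised naively -/
def tri (g : Matrix ι ι F) (lam w : ι → F) (a b c : Matrix ι ι F) : F :=
  lam ⬝ᵥ (a *ᵥ (g *ᵥ (b *ᵥ (g *ᵥ (c *ᵥ w)))))

omit [DecidableEq ι] in
theorem tri_add1 (g : Matrix ι ι F) (lam w : ι → F) (a a' b c : Matrix ι ι F) :
    tri g lam w (a + a') b c = tri g lam w a b c + tri g lam w a' b c := by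
  simp only [tri, Matrix.add_mulVec, dotProduct_add]

omit [DecidableEq ι] in
theorem tri_add2 (g : Matrix ι ι F) (lam w : ι → F) (a b b' c : Matrix ι ι F) :
    tri g lam w a (b + b') c = tri g lam w a b c + tri g lam w a b' c := by
  simp only [tri, Matrix.add_mulVec, Matrix.mulVec_add, dotProduct_add]

omit [DecidableEq ι] in
theorem tri_add3 (g : Matrix ι ι F) (lam w : ι → F) (a b c c' : Matrix ι ι F) :
    tri g lam w a b (c + c') = tri g lam w a b c + tri g lam w a b c' := by
  simp only [tri, Matrix.add_mulVec, Matrix.mulVec_add, dotProduct_add]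

omit [DecidableEq ι] in
theorem tri_smul1 (g : Matrix ι ι F) (lam w : ι → F) (s : F) (a b c : Matrix ι ι F) :
    tri g lam w (s • a) b c = s * tri g lam w a b c := by
  simp only [tri, Matrix.smul_mulVec, dotProduct_smul, smul_eq_mul]

omit [DecidableEq ι] in
theorem tri_smul2 (g : Matrix ι ι F) (lam w : ι → F) (s : F) (a b c : Matrix ι ι F) :
    tri g lam w a (s • b) c = s * tri g lam w a b c := by
  simp only [tri, Matrix.smul_mulVec, Matrix.mulVec_smul, dotProduct_smul, smul_eq_mul]

omit [DecidableEq ι] in
theorem tri_smul3 (g : Matrix ι ι F) (lam w : ι → F) (s : F) (a b c : Matrix ι ι F) :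
    tri g lam w a b (s • c) = s * tri g lam w a b c := by
  simp only [tri, Matrix.smul_mulVec, Matrix.mulVec_smul, dotProduct_smul, smul_eq_mul]

/-- the symmetrised cubic form, linear in the last argument -/
def sym (g : Matrix ι ι F) (lam w : ι → F) (a b : Matrix ι ι F) : Matrix ι ι F →ₗ[F] F where
  toFun c := tri g lam w a b c + tri g lam w a c b + tri g lam w b a c + tri g lam w b c a +
    tri g lam w c a b + tri g lam w c b a
  map_add' c c' := by
    simp only [tri_add1, tri_add2, tri_add3]; ring
  map_smul' s c := by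
    simp only [tri_smul1, tri_smul2, tri_smul3, smul_eq_mul, RingHom.id_apply]; ring

omit [DecidableEq ι] in
theorem sym_apply (g : Matrix ι ι F) (lam w : ι → F) (a b c : Matrix ι ι F) :
    sym g lam w a b c = tri g lam w a b c + tri g lam w a c b + tri g lam w b a c +
      tri g lam w b c a + tri g lam w c a b + tri g lam w c b a := rfl

omit [DecidableEq ι] in
theorem sym_rot (g : Matrix ι ι F) (lam w : ι → F) (a b c : Matrix ι ι F) :
    sym g lam w a b c = sym g lam w b c a := by
  rw [sym_apply, sym_apply]; ring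

omit [DecidableEq ι] in
/-- polarisation -/
theorem sym_eq_zero_of_cubic (g : Matrix ι ι F) (lam w : ι → F) (a b c : Matrix ι ι F)
    (h : ∀ s t u : F, tri g lam w (s • a + t • b + u • c) (s • a + t • b + u • c)
      (s • a + t • b + u • c) = 0) : sym g lam w a b c = 0 := by
  have h111 := h 1 1 1
  have h110 := h 1 1 0
  have h101 := h 1 0 1
  have h011 := h 0 1 1
  have h100 := h 1 0 0
  have h010 := h 0 1 0
  have h001 := h 0 0 1
  simp only [one_smul, zero_smul, add_zero, zero_add, tri_add1, tri_add2, tri_add3] at h111 h110 h101 h011 h100 h010 h001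
  rw [sym_apply]
  linear_combination h111 - h110 - h101 - h011 + h100 + h010 + h001

omit [DecidableEq ι] in
/-- vanishing of the symmetrised form on a spanning family gives vanishing on the span -/
theorem sym_eq_zero_of_span {κ : Type*} (g : Matrix ι ι F) (lam w : ι → F)
    (b : κ → Matrix ι ι F) (h : ∀ i j l, sym g lam w (b i) (b j) (b l) = 0)
    {x y z : Matrix ι ι F} (hx : x ∈ Submodule.span F (Set.range b))
    (hy : y ∈ Submodule.span F (Set.range b)) (hz : z ∈ Submodule.span F (Set.range b)) :
    sym g lam w x y z = 0 := by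
  have h1 : ∀ i j, ∀ z ∈ Submodule.span F (Set.range b), sym g lam w (b i) (b j) z = 0 := by
    intro i j z hz
    have : Submodule.span F (Set.range b) ≤ LinearMap.ker (sym g lam w (b i) (b j)) := by
      rw [Submodule.span_le]
      rintro _ ⟨l, rfl⟩
      exact h i j l
    exact this hz
  have h2 : ∀ i, ∀ y ∈ Submodule.span F (Set.range b), ∀ z ∈ Submodule.span F (Set.range b),
      sym g lam w z (b i) y = 0 := by
    intro i y hy z hz
    have : Submodule.span F (Set.range b) ≤ LinearMap.ker (sym g lam w z (b i)) := by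
      rw [Submodule.span_le]
      rintro _ ⟨l, rfl⟩
      show sym g lam w z (b i) (b l) = 0
      rw [sym_rot]
      exact h1 i l z hz
    exact this hy
  have : Submodule.span F (Set.range b) ≤ LinearMap.ker (sym g lam w x y) := by
    rw [Submodule.span_le]
    rintro _ ⟨l, rfl⟩
    show sym g lam w x y (b l) = 0
    rw [sym_rot]
    exact h2 l x hx y hy
  exact this hz

/-- dual vectors of a linearly independent family -/
theorem exists_dual {κ : Type*} [DecidableEq κ] (f : κ → ι → F) (hf : LinearIndependent F f)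
    (k : κ) : ∃ y : ι → F, ∀ k', f k' ⬝ᵥ y = if k' = k then 1 else 0 := by
  classical
  obtain ⟨φ, hφ⟩ := LinearMap.exists_extend
    ((Finsupp.lapply k : (κ →₀ F) →ₗ[F] F) ∘ₗ (hf.repr : _ →ₗ[F] (κ →₀ F)))
  refine ⟨fun i => φ (Pi.single i 1), fun k' => ?_⟩
  have h1 : f k' ⬝ᵥ (fun i => φ (Pi.single i 1)) = φ (f k') := by
    conv_rhs => rw [pi_eq_sum_univ' (f k')]
    rw [map_sum]
    simp only [dotProduct, map_smul, smul_eq_mul]
  have h2 : φ (f k') = (hf.repr ⟨f k', Submodule.subset_span ⟨k', rfl⟩⟩) k := by
    have := LinearMap.congr_fun hφ ⟨f k', Submodule.subset_span ⟨k', rfl⟩⟩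
    simpa using this
  rw [h1, h2, hf.repr_eq_single k' _ rfl, Finsupp.single_apply]

end Pool.Agent.Lib.MP_64d474_lc.Large
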