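import Mathlib
import Pool.Agent.Lib.MP_64d474_lc.LargeCodim

/-!
The lower bound for the codimension of a space satisfying the first and third order identities.
-/

open Matrix Module

namespace Pool.Agent.Lib.MP_64d474_lc.Large

variable {F : Type*} [Field F] {ι : Type*} [Fintype ι] [DecidableEq ι]

/-- first order identity for all kernel and cokernel vectors -/
def FirstOrder (V : Submodule F (Matrix ι ι F)) (A : Matrix ι ι F) : Prop :=
  ∀ v ∈ V, ∀ l z : ι → F, l ᵥ* A = 0 → A *ᵥ z = 0 → l ⬝ᵥ (v *ᵥ z) = 0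

theorem vecMul_ginv {V : Submodule F (Matrix ι ι F)} {A g : Matrix ι ι F} (hg : A * g * A = A)
    (h1 : FirstOrder V A) {lam : ι → F} (hlam : lam ᵥ* A = 0) {v : Matrix ι ι F} (hv : v ∈ V) :
    (lam ᵥ* (v * g)) ᵥ* A = lam ᵥ* v := by
  funext j
  have hz : A *ᵥ ((1 - g * A) *ᵥ Pi.single j 1) = 0 := by
    rw [Matrix.mulVec_mulVec, Matrix.mul_sub, Matrix.mul_one, ← Matrix.mul_assoc, hg, sub_self,
      Matrix.zero_mulVec]
  have h := h1 v hv lam _ hlam hz
  rw [Matrix.dotProduct_mulVec, Matrix.sub_mulVec, Matrix.one_mulVec, dotProduct_sub,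
    dotProduct_single, mul_one, sub_eq_zero] at h
  rw [h, Matrix.dotProduct_mulVec, Matrix.vecMul_vecMul, Matrix.vecMul_vecMul,
    dotProduct_single, mul_one, Matrix.mul_assoc]

theorem ginv_mulVec {V : Submodule F (Matrix ι ι F)} {A g : Matrix ι ι F} (hg : A * g * A = A)
    (h1 : FirstOrder V A) {w : ι → F} (hw : A *ᵥ w = 0) {v : Matrix ι ι F} (hv : v ∈ V) :
    A *ᵥ (g *ᵥ (v *ᵥ w)) = v *ᵥ w := by
  funext i
  have hl : (Pi.single i 1 ᵥ* (1 - A * g)) ᵥ* A = 0 := by
    rw [Matrix.vecMul_vecMul, Matrix.sub_mul, Matrix.one_mul, hg, sub_self, Matrix.vecMul_zero]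
  have h := h1 v hv _ w hl hw
  rw [← Matrix.dotProduct_mulVec, Matrix.sub_mulVec, Matrix.one_mulVec, dotProduct_sub,
    single_dotProduct, one_mul, single_dotProduct, one_mul, sub_eq_zero] at h
  rw [h, Matrix.mulVec_mulVec]

theorem linearIndependent_option_aux {κ : Type*} [Fintype κ] {E E' : Type*} [AddCommGroup E]
    [Module F E] [AddCommGroup E'] [Module F E'] (L : E →ₗ[F] E') (x : E) (hx : x ≠ 0)
    (hLx : L x = 0) (f : κ → E) (hf : LinearIndependent F (fun i => L (f i))) :
    LinearIndependent F (fun o : Option κ => o.elim x f) := by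
  rw [Fintype.linearIndependent_iff] at hf ⊢
  intro c hc
  rw [Fintype.sum_option] at hc
  simp only [Option.elim] at hc
  have h1 := congrArg L hc
  rw [map_add, map_smul, hLx, smul_zero, zero_add, map_sum, map_zero] at h1
  simp only [map_smul] at h1
  have h2 := hf (fun i => c (some i)) h1
  intro o
  cases o with
  | some i => exact h2 i
  | none =>
    simp only [h2, zero_smul, Finset.sum_const_zero, add_zero] at hc
    exact (smul_eq_zero.mp hc).resolve_right hx

/-- pairs `i ≤ j` -/
abbrev Tri (h : ℕ) := Σ j : Fin h, Fin (j + 1)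

/-- smaller index of a pair -/
def Tri.lo {h : ℕ} (p : Tri h) : Fin h := ⟨p.2.1, by have := p.2.2; have := p.1.2; omega⟩

theorem card_tri (h : ℕ) : Fintype.card (Tri h) = h * (h + 1) / 2 := by
  rw [Fintype.card_sigma]
  simp only [Fintype.card_fin]
  rw [Fin.sum_univ_eq_sum_range (fun i => i + 1) h]
  have := Finset.sum_range_id_mul_two (h + 1)
  rw [Finset.sum_range_succ'] at this
  simp only [add_zero, Nat.add_sub_cancel] at this
  rw [Nat.mul_comm h (h + 1)]
  omega

omit [DecidableEq ι] in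
theorem tri_test (g : Matrix ι ι F) (lam w : ι → F) (a b : Matrix ι ι F) (y η : ι → F)
    (hy : lam ⬝ᵥ y = 0) (hη : w ⬝ᵥ η = 0) :
    sym g lam w a b (vecMulVec y η) =
      ((lam ᵥ* (a * g)) ⬝ᵥ y) * ((g *ᵥ (b *ᵥ w)) ⬝ᵥ η) +
      ((lam ᵥ* (b * g)) ⬝ᵥ y) * ((g *ᵥ (a *ᵥ w)) ⬝ᵥ η) := by
  have e : ∀ z : ι → F, vecMulVec y η *ᵥ z = (z ⬝ᵥ η) • y := by
    intro z
    rw [Matrix.vecMulVec_mulVec, dotProduct_comm]
    simp
  have e2 : ∀ a : Matrix ι ι F, (lam ᵥ* (a * g)) ⬝ᵥ y = lam ⬝ᵥ (a *ᵥ (g *ᵥ y)) := by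
    intro a
    rw [← Matrix.dotProduct_mulVec, Matrix.mulVec_mulVec]
  rw [sym_apply]
  simp only [tri, e, hη, zero_smul, Matrix.mulVec_zero, dotProduct_zero, Matrix.mulVec_smul,
    dotProduct_smul, smul_eq_mul, hy, mul_zero, e2]
  ring

/-- **Codimension bound.** -/
theorem codim_lower [CharZero F] (V : Submodule F (Matrix ι ι F)) (A g : Matrix ι ι F)
    (hg : A * g * A = A) (h1 : FirstOrder V A) (lam w : ι → F) (hlam : lam ᵥ* A = 0)
    (hw : A *ᵥ w = 0) (h3 : ∀ a ∈ V, ∀ b ∈ V, ∀ c ∈ V, sym g lam w a b c = 0)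
    (h : ℕ) (v : Fin h → Matrix ι ι F) (hv : ∀ i, v i ∈ V)
    (li1 : LinearIndependent F (fun i => v i *ᵥ w))
    (li2 : LinearIndependent F (fun i => lam ᵥ* v i)) :
    finrank F V + h * (h + 1) / 2 ≤ Fintype.card ι * Fintype.card ι := by
  classical
  rcases Nat.eq_zero_or_pos h with rfl | hpos
  · have := Submodule.finrank_le V
    rw [Module.finrank_matrix, Module.finrank_self, mul_one] at this
    simpa using this
  have hw0 : w ≠ 0 := by
    rintro rfl
    exact li1.ne_zero ⟨0, hpos⟩ (Matrix.mulVec_zero _)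
  have hlam0 : lam ≠ 0 := by
    rintro rfl
    exact li2.ne_zero ⟨0, hpos⟩ (Matrix.zero_vecMul _)
  -- dual vectors on the left
  have liL : LinearIndependent F (fun o : Option (Fin h) => o.elim lam
      (fun i => lam ᵥ* (v i * g))) := by
    refine linearIndependent_option_aux (A.vecMulLinear) lam hlam0 hlam _ ?_
    have : (fun i => A.vecMulLinear (lam ᵥ* (v i * g))) = fun i => lam ᵥ* v i := by
      funext i
      exact vecMul_ginv hg h1 hlam (hv i)
    rw [this]
    exact li2
  have liR : LinearIndependent F (fun o : Option (Fin h) => o.elim w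
      (fun i => g *ᵥ (v i *ᵥ w))) := by
    refine linearIndependent_option_aux (A.mulVecLin) w hw0 hw _ ?_
    have : (fun i => A.mulVecLin (g *ᵥ (v i *ᵥ w))) = fun i => v i *ᵥ w := by
      funext i
      exact ginv_mulVec hg h1 hw (hv i)
    rw [this]
    exact li1
  choose y hy using fun k : Fin h => exists_dual _ liL (some k)
  choose η hη using fun k : Fin h => exists_dual _ liR (some k)
  have hy0 : ∀ k, lam ⬝ᵥ y k = 0 := fun k => by simpa using hy k none
  have hy1 : ∀ k i, (lam ᵥ* (v i * g)) ⬝ᵥ y k = if i = k then 1 else 0 := fun k i => by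
    simpa using hy k (some i)
  have hη0 : ∀ k, w ⬝ᵥ η k = 0 := fun k => by simpa using hη k none
  have hη1 : ∀ k i, (g *ᵥ (v i *ᵥ w)) ⬝ᵥ η k = if i = k then 1 else 0 := fun k i => by
    simpa using hη k (some i)
  let Φ : Matrix ι ι F →ₗ[F] (Tri h → F) :=
    LinearMap.pi fun p => sym g lam w (v p.lo) (v p.1)
  have hVker : V ≤ LinearMap.ker Φ := by
    intro u hu
    rw [LinearMap.mem_ker]
    funext p
    exact h3 _ (hv _) _ (hv _) _ hu
  have hsurj : LinearMap.range Φ = ⊤ := by
    rw [eq_top_iff, ← (Pi.basisFun F (Tri h)).span_eq, Submodule.span_le]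
    rintro _ ⟨p, rfl⟩
    have hval : ∀ q : Tri h, Φ (vecMulVec (y p.lo) (η p.1)) q =
        (if q.lo = p.lo then 1 else 0) * (if q.1 = p.1 then 1 else 0) +
        (if q.1 = p.lo then 1 else 0) * (if q.lo = p.1 then 1 else 0) := by
      intro q
      show sym g lam w (v q.lo) (v q.1) (vecMulVec (y p.lo) (η p.1)) = _
      rw [tri_test _ _ _ _ _ _ _ (hy0 _) (hη0 _), hy1, hη1, hy1, hη1]
    obtain ⟨s, hs, hΦ⟩ : ∃ s : F, s ≠ 0 ∧ Φ (vecMulVec (y p.lo) (η p.1)) =
        s • (Pi.basisFun F (Tri h)) p := by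
      have hext : ∀ q : Tri h, q.1 = p.1 → q.lo = p.lo → q = p := by
        rintro ⟨a, b⟩ h1 h2
        obtain ⟨a', b'⟩ := p
        simp only at h1
        subst h1
        congr 1
        simp only [Tri.lo, Fin.mk.injEq] at h2
        exact Fin.ext h2
      have hle : ∀ q : Tri h, q.lo ≤ q.1 := by
        intro q
        show q.2.1 ≤ q.1.1
        have := q.2.2
        omega
      by_cases hpp : p.lo = p.1
      · refine ⟨2, two_ne_zero, ?_⟩
        funext q
        rw [hval]
        simp only [Pi.basisFun_apply, Pi.smul_apply, smul_eq_mul]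
        by_cases hq : q = p
        · subst hq
          simp only [hpp, if_true, Pi.single_eq_same]
          norm_num
        · rw [Pi.single_eq_of_ne hq, mul_zero]
          have h5 : ¬ (q.1 = p.1 ∧ q.lo = p.lo) := fun hh => hq (hext q hh.1 hh.2)
          have h6 : ¬ (q.lo = p.1 ∧ q.1 = p.lo) := by
            rintro ⟨h7, h8⟩
            exact h5 ⟨h8.trans hpp, h7.trans hpp.symm⟩
          have t1 : (if q.lo = p.lo then (1 : F) else 0) * (if q.1 = p.1 then 1 else 0) = 0 := by
            rcases not_and_or.mp h5 with h7 | h7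
            · rw [if_neg h7, mul_zero]
            · rw [if_neg h7, zero_mul]
          have t2 : (if q.1 = p.lo then (1 : F) else 0) * (if q.lo = p.1 then 1 else 0) = 0 := by
            rcases not_and_or.mp h6 with h7 | h7
            · rw [if_neg h7, mul_zero]
            · rw [if_neg h7, zero_mul]
          rw [t1, t2, add_zero]
      · refine ⟨1, one_ne_zero, ?_⟩
        funext q
        rw [hval]
        simp only [Pi.basisFun_apply, Pi.smul_apply, smul_eq_mul]
        have h6 : ¬ (q.lo = p.1 ∧ q.1 = p.lo) := by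
          rintro ⟨h7, h8⟩
          have h9 := hle q
          have h10 := hle p
          rw [h7, h8] at h9
          exact hpp (le_antisymm h10 h9)
        by_cases hq : q = p
        · subst hq
          have h7 : ¬ (q.1 = q.lo) := fun hh => hpp hh.symm
          simp only [h7, hpp, if_true, if_false, Pi.single_eq_same]
          norm_num
        · rw [Pi.single_eq_of_ne hq, mul_zero]
          have h5 : ¬ (q.1 = p.1 ∧ q.lo = p.lo) := fun hh => hq (hext q hh.1 hh.2)
          have t1 : (if q.lo = p.lo then (1 : F) else 0) * (if q.1 = p.1 then 1 else 0) = 0 := by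
            rcases not_and_or.mp h5 with h7 | h7
            · rw [if_neg h7, mul_zero]
            · rw [if_neg h7, zero_mul]
          have t2 : (if q.1 = p.lo then (1 : F) else 0) * (if q.lo = p.1 then 1 else 0) = 0 := by
            rcases not_and_or.mp h6 with h7 | h7
            · rw [if_neg h7, mul_zero]
            · rw [if_neg h7, zero_mul]
          rw [t1, t2, add_zero]
    refine ⟨s⁻¹ • vecMulVec (y p.lo) (η p.1), ?_⟩
    rw [map_smul, hΦ, smul_smul, inv_mul_cancel₀ hs, one_smul]
  have hfin := LinearMap.finrank_range_add_finrank_ker Φ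
  rw [hsurj, finrank_top, Module.finrank_pi, card_tri, Module.finrank_matrix,
    Module.finrank_self, mul_one] at hfin
  have := Submodule.finrank_mono hVker
  omega

end Pool.Agent.Lib.MP_64d474_lc.Large
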