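import Mathlib
import Pool.Agent.Lib.MP_64d474_lc.LargeBound
import Pool.Agent.Lib.MP_64d474_lc.RankTools
import Pool.Agent.Lib.MP_64d474_lc.PolyFun

/-!
Tools for the local search theorem: simultaneous choice of independent images, the span of vectors
with small image, generic ranks on a line, and small coefficient combinations.
-/

open Matrix Module Polynomial

namespace Pool.Agent.Lib.MP_64d474_lc.Large

variable {F : Type*} [Field F] {ι : Type*} [Fintype ι] [DecidableEq ι]

theorem exists_notMem_span {E C : Type*} [AddCommGroup E] [Module F E] [AddCommGroup C]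
    [Module F C] [FiniteDimensional F C] (V : Submodule F E) (h : ℕ) (v : Fin h → E)
    (δ : E →ₗ[F] C) (hδ : h + 1 ≤ finrank F (V.map δ))
    (hl : LinearIndependent F (fun i => δ (v i))) :
    ∃ a ∈ V, δ a ∉ Submodule.span F (Set.range fun i => δ (v i)) := by
  by_contra hcon
  push Not at hcon
  have h1 : V.map δ ≤ Submodule.span F (Set.range fun i => δ (v i)) := by
    rintro _ ⟨a, ha, rfl⟩
    exact hcon a ha
  have h2 := Submodule.finrank_mono h1
  rw [finrank_span_eq_card hl, Fintype.card_fin] at h2
  omega

/-- Two linear maps of rank at least `h` on `V`: choose `h` vectors with independent images under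
both. -/
theorem two_maps {E A B : Type*} [AddCommGroup E] [Module F E] [AddCommGroup A] [Module F A]
    [AddCommGroup B] [Module F B] [FiniteDimensional F A] [FiniteDimensional F B]
    (V : Submodule F E) (β : E →ₗ[F] A) (γ : E →ₗ[F] B) (h : ℕ)
    (hβ : h ≤ finrank F (V.map β)) (hγ : h ≤ finrank F (V.map γ)) :
    ∃ v : Fin h → E, (∀ i, v i ∈ V) ∧ LinearIndependent F (fun i => β (v i)) ∧
      LinearIndependent F (fun i => γ (v i)) := by
  induction h with
  | zero =>
    exact ⟨Fin.elim0, fun i => i.elim0, linearIndependent_empty_type,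
      linearIndependent_empty_type⟩
  | succ h ih =>
    obtain ⟨v, hv, l1, l2⟩ := ih (by omega) (by omega)
    have key : ∃ a ∈ V, β a ∉ Submodule.span F (Set.range fun i => β (v i)) ∧
        γ a ∉ Submodule.span F (Set.range fun i => γ (v i)) := by
      obtain ⟨a, haV, ha⟩ := exists_notMem_span V h v β hβ l1
      obtain ⟨b, hbV, hb⟩ := exists_notMem_span V h v γ hγ l2
      by_cases h1 : γ a ∈ Submodule.span F (Set.range fun i => γ (v i))
      · by_cases h2 : β b ∈ Submodule.span F (Set.range fun i => β (v i))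
        · refine ⟨a + b, V.add_mem haV hbV, fun h3 => ha ?_, fun h3 => hb ?_⟩
          · rw [map_add] at h3
            simpa using Submodule.sub_mem _ h3 h2
          · rw [map_add] at h3
            simpa using Submodule.sub_mem _ h3 h1
        · exact ⟨b, hbV, h2, hb⟩
      · exact ⟨a, haV, ha, h1⟩
    obtain ⟨a, haV, ha1, ha2⟩ := key
    refine ⟨Fin.snoc v a, ?_, ?_, ?_⟩
    · intro i
      refine Fin.lastCases ?_ (fun j => ?_) i
      · rw [Fin.snoc_last]; exact haV
      · rw [Fin.snoc_castSucc]; exact hv j
    · have : (fun i => β ((Fin.snoc v a : Fin (h + 1) → E) i)) =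
          (Fin.snoc (fun i => β (v i)) (β a) : Fin (h + 1) → A) := by
        funext i
        refine Fin.lastCases ?_ (fun j => ?_) i
        · simp only [Fin.snoc_last]
        · simp only [Fin.snoc_castSucc]
      rw [this, linearIndependent_finSnoc]
      exact ⟨l1, ha1⟩
    · have : (fun i => γ ((Fin.snoc v a : Fin (h + 1) → E) i)) =
          (Fin.snoc (fun i => γ (v i)) (γ a) : Fin (h + 1) → B) := by
        funext i
        refine Fin.lastCases ?_ (fun j => ?_) i
        · simp only [Fin.snoc_last]
        · simp only [Fin.snoc_castSucc]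
      rw [this, linearIndependent_finSnoc]
      exact ⟨l2, ha2⟩

/-- evaluation `v ↦ v w` -/
def evalL (w : ι → F) : Matrix ι ι F →ₗ[F] (ι → F) where
  toFun v := v *ᵥ w
  map_add' a b := Matrix.add_mulVec a b w
  map_smul' c a := by rw [Matrix.smul_mulVec, RingHom.id_apply]

/-- the span of all vectors `w` with `dim (V w) ≤ k` -/
def lowSpace (V : Submodule F (Matrix ι ι F)) (k : ℕ) : Submodule F (ι → F) :=
  Submodule.span F {w | finrank F (V.map (evalL w)) ≤ k}

theorem lowSpace_bound (V : Submodule F (Matrix ι ι F)) (k : ℕ) :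
    finrank F V + finrank F (lowSpace V k) * (Fintype.card ι - k) ≤
      Fintype.card ι * Fintype.card ι := by
  classical
  obtain ⟨b, hb1, hb2, hb3⟩ := exists_linearIndependent F
    {w : ι → F | finrank F (V.map (evalL w)) ≤ k}
  have hfin : Finite b := hb3.finite
  have : Fintype b := Fintype.ofFinite b
  have hcard : finrank F (lowSpace V k) = Fintype.card b := by
    rw [lowSpace, ← hb2]
    have := finrank_span_eq_card hb3
    rw [Subtype.range_coe] at this
    exact this
  let Θ : Matrix ι ι F →ₗ[F] (∀ w : b, (ι → F) ⧸ V.map (evalL (w : ι → F))) :=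
    LinearMap.pi fun w => (V.map (evalL (w : ι → F))).mkQ ∘ₗ evalL (w : ι → F)
  have hsurj : LinearMap.range Θ = ⊤ := by
    rw [eq_top_iff]
    intro z _
    choose u hu using fun w : b => Submodule.mkQ_surjective _ (z w)
    choose y hy using fun w : b => exists_dual (fun w : b => (w : ι → F)) hb3 w
    refine ⟨∑ w : b, vecMulVec (u w) (y w), ?_⟩
    funext w
    show (V.map (evalL (w : ι → F))).mkQ ((∑ w : b, vecMulVec (u w) (y w)) *ᵥ (w : ι → F)) = z w
    rw [← hu w]
    congr 1
    rw [Matrix.sum_mulVec, Finset.sum_eq_single w]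
    · rw [Matrix.vecMulVec_mulVec, dotProduct_comm, hy w w, if_pos rfl]
      simp
    · intro w' _ hne
      rw [Matrix.vecMulVec_mulVec, dotProduct_comm, hy w' w, if_neg (Ne.symm hne)]
      simp
    · intro hcon; exact absurd (Finset.mem_univ w) hcon
  have hker : V ≤ LinearMap.ker Θ := by
    intro v hv
    rw [LinearMap.mem_ker]
    funext w
    show (V.map (evalL (w : ι → F))).mkQ (evalL (w : ι → F) v) = 0
    rw [Submodule.mkQ_apply, Submodule.Quotient.mk_eq_zero]
    exact ⟨v, hv, rfl⟩
  have h1 := LinearMap.finrank_range_add_finrank_ker Θ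
  rw [hsurj, finrank_top, Module.finrank_matrix, Module.finrank_self, mul_one,
    Module.finrank_pi_fintype] at h1
  have h2 : Fintype.card b * (Fintype.card ι - k) ≤
      ∑ w : b, finrank F ((ι → F) ⧸ V.map (evalL (w : ι → F))) := by
    rw [← Finset.card_univ, ← smul_eq_mul]
    apply Finset.card_nsmul_le_sum
    intro w _
    have h3 := Submodule.finrank_quotient_add_finrank (V.map (evalL (w : ι → F)))
    rw [Module.finrank_pi] at h3
    have h4 : finrank F (V.map (evalL (w : ι → F))) ≤ k := hb1 w.2
    omega
  have h3 := Submodule.finrank_mono hker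
  rw [hcard]
  omega

omit [DecidableEq ι] in
/-- a matrix with prescribed range -/
theorem exists_range_eq (W : Submodule F (ι → F)) :
    ∃ E : Matrix ι ι F, LinearMap.range E.mulVecLin = W := by
  classical
  obtain ⟨p, hp⟩ := W.subtype.exists_leftInverse_of_injective (Submodule.ker_subtype _)
  refine ⟨LinearMap.toMatrix' (W.subtype ∘ₗ p), ?_⟩
  have h1 : (LinearMap.toMatrix' (W.subtype ∘ₗ p)).mulVecLin = W.subtype ∘ₗ p := by
    show Matrix.toLin' _ = _
    rw [Matrix.toLin'_toMatrix']
  rw [h1, LinearMap.range_comp]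
  have h2 : LinearMap.range p = ⊤ := by
    rw [eq_top_iff]
    intro w _
    exact ⟨w, LinearMap.congr_fun hp w⟩
  rw [h2, Submodule.map_top, Submodule.range_subtype]

omit [DecidableEq ι] in
theorem rank_mul_add_nullity (W : Submodule F (ι → F)) (E : Matrix ι ι F)
    (hE : LinearMap.range E.mulVecLin = W) (y : Matrix ι ι F) :
    (y * E).rank + finrank F (W ⊓ LinearMap.ker y.mulVecLin : Submodule F (ι → F)) =
      finrank F W := by
  have h1 := LinearMap.finrank_range_add_finrank_ker (y.mulVecLin.domRestrict W)
  have h2 : LinearMap.range (y.mulVecLin.domRestrict W) = LinearMap.range (y * E).mulVecLin := by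
    rw [LinearMap.range_domRestrict, ← hE, Matrix.mulVecLin_mul, LinearMap.range_comp]
  have h3 : finrank F (LinearMap.ker (y.mulVecLin.domRestrict W)) =
      finrank F (W ⊓ LinearMap.ker y.mulVecLin : Submodule F (ι → F)) := by
    have e : LinearMap.ker (y.mulVecLin.domRestrict W) =
        (LinearMap.ker y.mulVecLin).comap W.subtype := rfl
    rw [e]
    have h4 : (W ⊓ LinearMap.ker y.mulVecLin : Submodule F (ι → F)) =
        ((LinearMap.ker y.mulVecLin).comap W.subtype).map W.subtype := by
      rw [Submodule.map_comap_subtype]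
    rw [h4]
    exact LinearEquiv.finrank_eq (Submodule.equivMapOfInjective W.subtype
      (Submodule.subtype_injective W) _)
  rw [h2] at h1
  have e : (y * E).rank = finrank F (LinearMap.range (y * E).mulVecLin) := rfl
  omega

omit [DecidableEq ι] in
/-- generic rank on a line -/
theorem eventually_rank [Infinite F] (M N : Matrix ι ι F) (r : ℕ) (t₀ : F)
    (h : r ≤ (M + t₀ • N).rank) : ∀ᶠ t : F in Filter.cofinite, r ≤ (M + t • N).rank := by
  classical
  obtain ⟨P, Q, hPQ⟩ := exists_minor_of_le_rank _ r h
  let p : F[X] := ((P * M * Q).map C + (X : F[X]) • (P * N * Q).map C).det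
  have hp : ∀ t : F, p.eval t = (P * (M + t • N) * Q).det := by
    intro t
    have h1 := RingHom.map_det (evalRingHom t)
      ((P * M * Q).map (C : F →+* F[X]) + (X : F[X]) • (P * N * Q).map C)
    rw [coe_evalRingHom] at h1
    show eval t _ = _
    rw [h1]
    congr 1
    have h2 : P * (M + t • N) * Q = P * M * Q + t • (P * N * Q) := by
      rw [Matrix.mul_add, Matrix.add_mul, Matrix.mul_smul, Matrix.smul_mul]
    rw [h2]
    generalize P * M * Q = R
    generalize P * N * Q = S
    ext i j
    simp
    ring
  have hp0 : p ≠ 0 := by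
    intro h0
    apply hPQ
    rw [← hp, h0, eval_zero]
  rw [Filter.eventually_cofinite]
  refine (p.rootSet_finite F).subset fun t ht => ?_
  rw [Polynomial.mem_rootSet]
  refine ⟨hp0, ?_⟩
  rw [Polynomial.coe_aeval_eq_eval, hp]
  by_contra hne
  exact ht (le_rank_of_minor _ r P Q hne)

/-- products of affine functions -/
theorem PD_prod_affine {V κ : Type*} [AddCommGroup V] [Module F V] (s : Finset κ)
    (a : κ → V →ₗ[F] F) (c : κ → F) :
    PD (s.card : ℤ) (fun x => ∏ i ∈ s, (a i x + c i)) := by
  classical
  induction s using Finset.induction_on with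
  | empty => simpa using (PD.const (V := V) (1 : F))
  | insert i s hi ih =>
    rw [Finset.card_insert_of_notMem hi]
    have h1 : PD ((s.card : ℤ) + 1) (fun x => a i x * (∏ j ∈ s, (a j x + c j)) +
        c i * (∏ j ∈ s, (a j x + c j))) :=
      PD.add (PD.mul (a i) ih) ((ih.smul (c i)).mono (by omega))
    refine (h1.mono ?_).congr fun x => ?_
    · push_cast; exact le_rfl
    · rw [Finset.prod_insert hi]; ring

theorem PD_det_affine {V : Type*} [AddCommGroup V] [Module F V] (r : ℕ)
    (a : Fin r → Fin r → V →ₗ[F] F) (c : Fin r → Fin r → F) :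
    PD (r : ℤ) (fun x => (Matrix.of fun i j => a i j x + c i j).det) := by
  classical
  refine (PD.sum Finset.univ (f := fun (σ : Equiv.Perm (Fin r)) x =>
    ((Equiv.Perm.sign σ : ℤ) : F) * ∏ i, (a (σ i) i x + c (σ i) i)) fun σ _ => ?_).congr
      fun x => ?_
  · have := PD_prod_affine (F := F) Finset.univ (fun i => a (σ i) i) (fun i => c (σ i) i)
    rw [Finset.card_univ, Fintype.card_fin] at this
    exact this.smul _
  · rw [Matrix.det_apply']
    rfl

omit [DecidableEq ι] in
/-- **Small combinations.** The nullity of some `A + x`, `x ∈ span b`, on a subspace of dimension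
at most `D` is attained by a combination with nonnegative integer coefficients of sum at most
`D`. -/
theorem exists_small_combination [CharZero F] {m : ℕ} (b : Fin m → Matrix ι ι F)
    (A : Matrix ι ι F) (W : Submodule F (ι → F)) (D : ℕ) (hD : finrank F W ≤ D)
    (x : Matrix ι ι F) (hx : x ∈ Submodule.span F (Set.range b)) :
    ∃ a : Fin m → ℕ, ∑ i, a i ≤ D ∧
      finrank F (W ⊓ LinearMap.ker (A + ∑ i, (a i : F) • b i).mulVecLin : Submodule F (ι → F)) ≤
      finrank F (W ⊓ LinearMap.ker (A + x).mulVecLin : Submodule F (ι → F)) := by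
  classical
  obtain ⟨E, hE⟩ := exists_range_eq W
  obtain ⟨c, rfl⟩ := (Submodule.mem_span_range_iff_exists_fun F).mp hx
  have hrk := rank_mul_add_nullity W E hE (A + ∑ i, c i • b i)
  obtain ⟨r, hr⟩ : ∃ r, r = ((A + ∑ i, c i • b i) * E).rank := ⟨_, rfl⟩
  obtain ⟨P, Q, hPQ⟩ := exists_minor_of_le_rank ((A + ∑ i, c i • b i) * E) r (le_of_eq hr)
  let f : (Fin m → F) → F := fun c => (P * ((A + ∑ i, c i • b i) * E) * Q).det
  have hlin : ∀ c : Fin m → F, P * ((A + ∑ i, c i • b i) * E) * Q =
      Matrix.of fun k l => (∑ i, (P * (b i * E) * Q) k l • LinearMap.proj (R := F)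
        (φ := fun _ : Fin m => F) i) c + (P * (A * E) * Q) k l := by
    intro c
    have h1 : P * ((A + ∑ i, c i • b i) * E) * Q =
        P * (A * E) * Q + ∑ i, c i • (P * (b i * E) * Q) := by
      simp only [Matrix.add_mul, Matrix.mul_add, Matrix.sum_mul, Matrix.mul_sum, Matrix.smul_mul,
        Matrix.mul_smul]
    rw [h1]
    ext k l
    rw [Matrix.add_apply, Matrix.sum_apply, Matrix.of_apply, LinearMap.sum_apply, add_comm]
    congr 1
    refine Finset.sum_congr rfl fun i _ => ?_
    rw [Matrix.smul_apply, LinearMap.smul_apply, LinearMap.proj_apply, smul_eq_mul, smul_eq_mul,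
      mul_comm]
  have hPD : PD (r : ℤ) f := by
    refine (PD_det_affine r (fun k l => ∑ i, (P * (b i * E) * Q) k l •
      LinearMap.proj (R := F) (φ := fun _ : Fin m => F) i) (P * (A * E) * Q)).congr fun c => ?_
    show (P * ((A + ∑ i, c i • b i) * E) * Q).det = _
    rw [hlin c]
  obtain ⟨a, ha1, ha2⟩ := PD.exists_simplex_point r hPD ⟨c, hPQ⟩
  refine ⟨a, by omega, ?_⟩
  have h5 := le_rank_of_minor ((A + ∑ i, (a i : F) • b i) * E) r P Q ha2
  have h6 := rank_mul_add_nullity W E hE (A + ∑ i, (a i : F) • b i)
  omega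

end Pool.Agent.Lib.MP_64d474_lc.Large
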