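import Mathlib
import Pool.Agent.Lib.MP_64d474_lc.LargeTools

/-!
Local search computes the maximum rank of large matrix spaces.
-/

open Matrix Module

namespace Pool.Agent.Lib.MP_64d474_lc.Large

variable {F : Type*} [Field F] {ι : Type*} [Fintype ι] [DecidableEq ι]

/-- transposition as a linear map -/
abbrev trL (F : Type*) [Field F] (ι : Type*) : Matrix ι ι F →ₗ[F] Matrix ι ι F :=
  (Matrix.transposeLinearEquiv ι ι F F).toLinearMap

/-- At a matrix `B` whose rank is not raised by combinations of three basis elements, either all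
kernel vectors or all cokernel vectors have small image. -/
theorem low_or_low [CharZero F] {m : ℕ} (b : Fin m → Matrix ι ι F) (B : Matrix ι ι F)
    (hB : ∀ (i j l : Fin m) (s t u : F),
      (B + (s • b i + t • b j + u • b l)).rank ≤ B.rank) (k : ℕ)
    (hbig : Fintype.card ι * Fintype.card ι <
      finrank F (Submodule.span F (Set.range b)) + (k + 1) * (k + 2) / 2) :
    (∀ w : ι → F, B *ᵥ w = 0 →
      finrank F ((Submodule.span F (Set.range b)).map (evalL w)) ≤ k) ∨
    (∀ lam : ι → F, lam ᵥ* B = 0 →
      finrank F (((Submodule.span F (Set.range b)).map (trL F ι)).map (evalL lam)) ≤ k) := by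
  by_contra hcon
  push Not at hcon
  obtain ⟨⟨w, hw, hwk⟩, lam, hlam, hlamk⟩ := hcon
  obtain ⟨g, hg⟩ := exists_ginv B
  have h1 : FirstOrder (Submodule.span F (Set.range b)) B := by
    intro v hv l z hl hz
    let L : Matrix ι ι F →ₗ[F] F :=
      { toFun := fun v => l ⬝ᵥ (v *ᵥ z)
        map_add' := fun a b => by rw [Matrix.add_mulVec, dotProduct_add]
        map_smul' := fun c a => by rw [Matrix.smul_mulVec, dotProduct_smul, RingHom.id_apply] }
    have h2 : Submodule.span F (Set.range b) ≤ LinearMap.ker L := by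
      rw [Submodule.span_le]
      rintro _ ⟨i, rfl⟩
      have h3 := identities B g (b i) hg l z hl hz (fun t => by
        have := hB i i i t 0 0
        simpa using this) 0
      show l ⬝ᵥ (b i *ᵥ z) = 0
      rw [pow_zero, Matrix.one_mulVec] at h3
      exact h3
    exact h2 hv
  have h3 : ∀ i j l, sym g lam w (b i) (b j) (b l) = 0 := by
    intro i j l
    apply sym_eq_zero_of_cubic
    intro s t u
    have h4 := identities B g (s • b i + t • b j + u • b l) hg lam w hlam hw (fun τ => by
      have := hB i j l (τ * s) (τ * t) (τ * u)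
      rw [smul_add, smul_add, smul_smul, smul_smul, smul_smul]
      exact this) 2
    rw [pow_two, ← Matrix.mulVec_mulVec, ← Matrix.mulVec_mulVec, ← Matrix.mulVec_mulVec] at h4
    exact h4
  obtain ⟨v, hv, l1, l2⟩ := two_maps (Submodule.span F (Set.range b)) (evalL w)
    (evalL lam ∘ₗ trL F ι) (k + 1) hwk (by rw [Submodule.map_comp]; exact hlamk)
  have h5 := codim_lower (Submodule.span F (Set.range b)) B g hg h1 lam w hlam hw
    (fun a ha b' hb c hc => sym_eq_zero_of_span g lam w b h3 ha hb hc) (k + 1) v hv l1 (by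
      have : (fun i => (evalL lam ∘ₗ trL F ι) (v i)) = fun i => lam ᵥ* v i := by
        funext i
        show (v i)ᵀ *ᵥ lam = _
        rw [Matrix.mulVec_transpose]
      rw [← this]
      exact l2)
  have h6 : k + 1 + 1 = k + 2 := rfl
  rw [h6] at h5
  omega

/-- nonzero coefficients -/
def supp {m : ℕ} {R : Type*} [Zero R] [DecidableEq R] (c : Fin m → R) : Finset (Fin m) :=
  Finset.univ.filter fun i => c i ≠ 0

omit [DecidableEq ι] in
/-- passing from coefficients in the grid to all coefficients -/
theorem local_extend [CharZero F] [DecidableEq F] {m : ℕ} (b : Fin m → Matrix ι ι F)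
    (A : Matrix ι ι F) (D : ℕ)
    (hloc : ∀ a : Fin m → ℕ, (∀ i, a i ≤ Fintype.card ι) → (supp a).card ≤ D →
      (A + ∑ i, (a i : F) • b i).rank ≤ A.rank) (c : Fin m → F) (hc : (supp c).card ≤ D) :
    (A + ∑ i, c i • b i).rank ≤ A.rank := by
  by_contra hcon
  push Not at hcon
  have hsum : ∑ k : supp c, c k • b k = ∑ i, c i • b i := by
    rw [Finset.sum_coe_sort (supp c) (fun i => c i • b i)]
    apply Finset.sum_subset (Finset.subset_univ _)
    intro i _ hi
    have : c i = 0 := by
      by_contra h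
      exact hi (Finset.mem_filter.mpr ⟨Finset.mem_univ i, h⟩)
    rw [this, zero_smul]
  obtain ⟨c', hc'1, hc'2⟩ := exists_grid_point A (fun k : supp c => b k) (A.rank + 1)
    (Fintype.card ι) (by
      have := Matrix.rank_le_card_height (A + ∑ i, c i • b i)
      omega) (fun k => c k) (by rw [hsum]; exact hcon)
  let a : Fin m → ℕ := fun i => if h : i ∈ supp c then c' ⟨i, h⟩ else 0
  have ha : ∑ k : supp c, (c' k : F) • b k = ∑ i, (a i : F) • b i := by
    have e1 : ∀ k : supp c, (c' k : F) • b k = (a k : F) • b k := by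
      intro k
      have : a k = c' k := dif_pos k.2
      rw [this]
    rw [Finset.sum_congr rfl fun k _ => e1 k,
      Finset.sum_coe_sort (supp c) (fun i => (a i : F) • b i)]
    apply Finset.sum_subset (Finset.subset_univ _)
    intro i _ hi
    have : a i = 0 := dif_neg hi
    rw [this, Nat.cast_zero, zero_smul]
  have h1 := hloc a (fun i => by
    by_cases h : i ∈ supp c
    · have : a i = c' ⟨i, h⟩ := dif_pos h
      rw [this]; exact hc'1 _
    · have : a i = 0 := dif_neg h
      rw [this]; exact Nat.zero_le _) (by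
    refine le_trans (Finset.card_le_card ?_) hc
    intro i hi
    by_contra h
    have : a i = 0 := dif_neg h
    exact (Finset.mem_filter.mp hi).2 this)
  rw [← ha] at h1
  omega

omit [DecidableEq ι] in
/-- if all kernel vectors of `B` lie in `W`, then the nullity of `B` is at most that of any matrix
`Y` with `rank (Y E) ≤ rank (B E)`, measured on `W` -/
theorem nullity_le (W : Submodule F (ι → F)) (E : Matrix ι ι F)
    (hE : LinearMap.range E.mulVecLin = W) (B Y : Matrix ι ι F) (hYB : (Y * E).rank ≤ (B * E).rank)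
    (hker : ∀ w, B *ᵥ w = 0 → w ∈ W) :
    Fintype.card ι ≤ B.rank +
      finrank F (W ⊓ LinearMap.ker Y.mulVecLin : Submodule F (ι → F)) := by
  classical
  have h1 := rank_mul_add_nullity W E hE B
  have h2 := rank_mul_add_nullity W E hE Y
  have h3 := LinearMap.finrank_range_add_finrank_ker B.mulVecLin
  rw [Module.finrank_pi] at h3
  have h4 : B.rank = finrank F (LinearMap.range B.mulVecLin) := rfl
  have h5 : (W ⊓ LinearMap.ker B.mulVecLin : Submodule F (ι → F)) =
      LinearMap.ker B.mulVecLin := by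
    apply inf_eq_right.mpr
    intro w hw
    exact hker w hw
  rw [h5] at h1
  omega

omit [DecidableEq ι] in
theorem nullity_lt (W : Submodule F (ι → F)) (X : Matrix ι ι F) :
    finrank F (W ⊓ LinearMap.ker X.mulVecLin : Submodule F (ι → F)) + X.rank ≤
      Fintype.card ι := by
  classical
  have h3 := LinearMap.finrank_range_add_finrank_ker X.mulVecLin
  rw [Module.finrank_pi] at h3
  have h4 : X.rank = finrank F (LinearMap.range X.mulVecLin) := rfl
  have h5 := Submodule.finrank_mono
    (inf_le_right : W ⊓ LinearMap.ker X.mulVecLin ≤ LinearMap.ker X.mulVecLin)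
  omega

/-- **Local search is exact for large spaces.** General form with a parameter `k`. -/
theorem main [CharZero F] {m : ℕ} (b : Fin m → Matrix ι ι F) (A : Matrix ι ι F) (k s : ℕ)
    (hbig : Fintype.card ι * Fintype.card ι <
      finrank F (Submodule.span F (Set.range b)) + (k + 1) * (k + 2) / 2)
    (hs : ∀ d : ℕ, finrank F (Submodule.span F (Set.range b)) + d * (Fintype.card ι - k) ≤
      Fintype.card ι * Fintype.card ι → d ≤ s)
    (hloc : ∀ a : Fin m → ℕ, (∀ i, a i ≤ Fintype.card ι) → (supp a).card ≤ 2 * s + 3 →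
      (A + ∑ i, (a i : F) • b i).rank ≤ A.rank) :
    ∀ x ∈ Submodule.span F (Set.range b), (A + x).rank ≤ A.rank := by
  classical
  intro x hx
  by_contra hcon
  push Not at hcon
  have hext := local_extend b A _ hloc
  -- the two exceptional spaces
  obtain ⟨V, hV⟩ : ∃ V, V = Submodule.span F (Set.range b) := ⟨_, rfl⟩
  have hV' : V.map (trL F ι) = Submodule.span F (Set.range fun i => (b i)ᵀ) := by
    rw [hV, Submodule.map_span, ← Set.range_comp]
    rfl
  have hdim : finrank F (V.map (trL F ι)) = finrank F V :=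
    LinearEquiv.finrank_map_eq (Matrix.transposeLinearEquiv ι ι F F) V
  rw [← hV] at hbig hs
  obtain ⟨W, hW⟩ : ∃ W, W = lowSpace V k := ⟨_, rfl⟩
  obtain ⟨W', hW'⟩ : ∃ W', W' = lowSpace (V.map (trL F ι)) k := ⟨_, rfl⟩
  have hWs : finrank F W ≤ s := by
    rw [hW]; exact hs _ (lowSpace_bound V k)
  have hWs' : finrank F W' ≤ s := by
    rw [hW']
    have := lowSpace_bound (V.map (trL F ι)) k
    rw [hdim] at this
    exact hs _ this
  obtain ⟨E, hE⟩ := exists_range_eq W
  obtain ⟨E', hE'⟩ := exists_range_eq W'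
  obtain ⟨a, ha, hnul⟩ := exists_small_combination b A W s hWs x hx
  have hx' : xᵀ ∈ Submodule.span F (Set.range fun i => (b i)ᵀ) := by
    rw [← hV', hV]
    exact ⟨x, hx, rfl⟩
  obtain ⟨a', ha', hnul'⟩ := exists_small_combination (fun i => (b i)ᵀ) Aᵀ W' s hWs' xᵀ hx'
  obtain ⟨y, hy⟩ : ∃ y, y = ∑ i, (a i : F) • b i := ⟨_, rfl⟩
  obtain ⟨y', hy'⟩ : ∃ y', y' = ∑ i, (a' i : F) • b i := ⟨_, rfl⟩
  have hyT : ∑ i, (a' i : F) • (b i)ᵀ = y'ᵀ := by
    rw [hy', Matrix.transpose_sum]
    exact Finset.sum_congr rfl fun i _ => by rw [Matrix.transpose_smul]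
  rw [← hy] at hnul
  rw [hyT, ← Matrix.transpose_add, ← Matrix.transpose_add] at hnul'
  have n1 := nullity_lt W (A + x)
  have n2 := nullity_lt W' (A + x)ᵀ
  rw [Matrix.rank_transpose] at n2
  -- first choice
  obtain ⟨t, ht1, ht2⟩ : ∃ t : F, A.rank ≤ (A + t • y).rank ∧
      ((A + y) * E).rank ≤ ((A + t • y) * E).rank := by
    have e1 := eventually_rank A y A.rank 0 (by rw [zero_smul, add_zero])
    have e2 := eventually_rank (A * E) (y * E) ((A + y) * E).rank 1 (by
      rw [one_smul, ← Matrix.add_mul])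
    obtain ⟨t, ht⟩ := (e1.and e2).exists
    refine ⟨t, ht.1, ?_⟩
    have e : (A + t • y) * E = A * E + t • (y * E) := by rw [Matrix.add_mul, Matrix.smul_mul]
    rw [e]
    exact ht.2
  obtain ⟨B₁, hB₁⟩ : ∃ B₁, B₁ = A + t • y := ⟨_, rfl⟩
  rw [← hB₁] at ht1 ht2
  obtain ⟨t', ht1', ht2', ht3'⟩ : ∃ t' : F, A.rank ≤ (B₁ + t' • (A + y' - B₁)).rank ∧
      ((A + y) * E).rank ≤ ((B₁ + t' • (A + y' - B₁)) * E).rank ∧
      ((A + y')ᵀ * E').rank ≤ ((B₁ + t' • (A + y' - B₁))ᵀ * E').rank := by
    have e1 := eventually_rank B₁ (A + y' - B₁) A.rank 0 (by rw [zero_smul, add_zero]; exact ht1)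
    have e2 := eventually_rank (B₁ * E) ((A + y' - B₁) * E) ((A + y) * E).rank 0 (by
      rw [zero_smul, add_zero]; exact ht2)
    have e3 := eventually_rank (B₁ᵀ * E') ((A + y' - B₁)ᵀ * E') ((A + y')ᵀ * E').rank 1 (by
      rw [one_smul, ← Matrix.add_mul, ← Matrix.transpose_add, add_sub_cancel])
    obtain ⟨t', ht'⟩ := (e1.and (e2.and e3)).exists
    refine ⟨t', ht'.1, ?_, ?_⟩
    · have e : (B₁ + t' • (A + y' - B₁)) * E = B₁ * E + t' • ((A + y' - B₁) * E) := by
        rw [Matrix.add_mul, Matrix.smul_mul]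
      rw [e]
      exact ht'.2.1
    · have e : (B₁ + t' • (A + y' - B₁))ᵀ * E' = B₁ᵀ * E' + t' • ((A + y' - B₁)ᵀ * E') := by
        rw [Matrix.transpose_add, Matrix.transpose_smul, Matrix.add_mul, Matrix.smul_mul]
      rw [e]
      exact ht'.2.2
  obtain ⟨B, hB⟩ : ∃ B, B = B₁ + t' • (A + y' - B₁) := ⟨_, rfl⟩
  rw [← hB] at ht1' ht2' ht3'
  obtain ⟨c, hc⟩ : ∃ c : Fin m → F, c = fun i => (1 - t') * t * (a i : F) + t' * (a' i : F) :=
    ⟨_, rfl⟩
  have hBc : B = A + ∑ i, c i • b i := by
    have h1 : ∑ i, c i • b i = ((1 - t') * t) • y + t' • y' := by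
      rw [hy, hy', Finset.smul_sum, Finset.smul_sum, ← Finset.sum_add_distrib]
      refine Finset.sum_congr rfl fun i _ => ?_
      rw [hc, smul_smul, smul_smul, ← add_smul]
    rw [h1, hB, hB₁]
    module
  have hcs : (supp c).card ≤ 2 * s := by
    have h1 : supp c ⊆ supp a ∪ supp a' := by
      intro i hi
      by_contra hcon
      rw [Finset.mem_union, not_or] at hcon
      have e1 : a i = 0 := by
        by_contra h
        exact hcon.1 (Finset.mem_filter.mpr ⟨Finset.mem_univ i, h⟩)
      have e2 : a' i = 0 := by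
        by_contra h
        exact hcon.2 (Finset.mem_filter.mpr ⟨Finset.mem_univ i, h⟩)
      apply (Finset.mem_filter.mp hi).2
      rw [hc]
      simp [e1, e2]
    have h2 : ∀ a : Fin m → ℕ, (supp a).card ≤ ∑ i, a i := by
      intro a
      rw [Finset.card_eq_sum_ones]
      calc ∑ i ∈ supp a, 1 ≤ ∑ i ∈ supp a, a i := Finset.sum_le_sum fun i hi =>
            Nat.one_le_iff_ne_zero.mpr (Finset.mem_filter.mp hi).2
        _ ≤ ∑ i, a i := Finset.sum_le_sum_of_subset (Finset.subset_univ _)
    have h3 := Finset.card_le_card h1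
    have h4 := Finset.card_union_le (supp a) (supp a')
    have h5 := h2 a
    have h6 := h2 a'
    omega
  have hBr : B.rank = A.rank := by
    apply le_antisymm _ ht1'
    rw [hBc]
    exact hext c (by omega)
  have hB3 : ∀ (i j l : Fin m) (p q r : F),
      (B + (p • b i + q • b j + r • b l)).rank ≤ B.rank := by
    intro i j l p q r
    rw [hBr, hBc]
    have h1 : A + ∑ i, c i • b i + (p • b i + q • b j + r • b l) =
        A + ∑ o, (c o + (Pi.single i p : Fin m → F) o + (Pi.single j q : Fin m → F) o +
          (Pi.single l r : Fin m → F) o) • b o := by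
      simp only [add_smul, Finset.sum_add_distrib]
      have h2 : ∀ (i : Fin m) (p : F), ∑ o, (Pi.single i p : Fin m → F) o • b o = p • b i := by
        intro i p
        rw [Finset.sum_eq_single i]
        · rw [Pi.single_eq_same]
        · intro o _ ho
          rw [Pi.single_eq_of_ne ho, zero_smul]
        · intro h; exact absurd (Finset.mem_univ i) h
      rw [h2, h2, h2]
      abel
    rw [h1]
    apply hext
    have h2 : supp (fun o => c o + (Pi.single i p : Fin m → F) o +
        (Pi.single j q : Fin m → F) o + (Pi.single l r : Fin m → F) o) ⊆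
        supp c ∪ {i, j, l} := by
      intro o ho
      by_contra hcon
      rw [Finset.mem_union, not_or] at hcon
      have e1 : c o = 0 := by
        by_contra h
        exact hcon.1 (Finset.mem_filter.mpr ⟨Finset.mem_univ o, h⟩)
      simp only [Finset.mem_insert, Finset.mem_singleton, not_or] at hcon
      apply (Finset.mem_filter.mp ho).2
      show c o + (Pi.single i p : Fin m → F) o + (Pi.single j q : Fin m → F) o +
        (Pi.single l r : Fin m → F) o = 0
      rw [e1, Pi.single_eq_of_ne hcon.2.1, Pi.single_eq_of_ne hcon.2.2.1,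
        Pi.single_eq_of_ne hcon.2.2.2]
      simp
    have h3 := Finset.card_le_card h2
    have h4 := Finset.card_union_le (supp c) {i, j, l}
    have h5 : ({i, j, l} : Finset (Fin m)).card ≤ 3 := Finset.card_le_three
    omega
  rcases low_or_low b B hB3 k (by rw [← hV]; exact hbig) with h | h
  · have h1 := nullity_le W E hE B (A + y) ht2' (fun w hw => by
      rw [hW]
      apply Submodule.subset_span
      rw [hV]
      exact h w hw)
    omega
  · have h1 := nullity_le W' E' hE' Bᵀ (A + y')ᵀ ht3' (fun w hw => by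
      rw [hW']
      apply Submodule.subset_span
      rw [hV]
      exact h w (by rw [← Matrix.mulVec_transpose]; exact hw))
    rw [Matrix.rank_transpose] at h1
    omega

end Pool.Agent.Lib.MP_64d474_lc.Large
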