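import Mathlib
import Pool.Agent.Lib.MP_64d474_lc.LargeMain

/-!
Local search computes the maximum rank exactly for matrix spaces of small codimension.
-/

open Matrix Module

namespace Pool.Agent.Lib.MP_64d474_lc.LargeSpaces

/-- Let `b 0, …, b (m-1)` be `n × n` matrices over a field of characteristic zero whose span has
codimension at most `κ`, let `k < n` satisfy `2 κ < (k+1)(k+2)`, and let `A` be any `n × n` matrix.
If the rank of `A` is smaller than that of some `A + x`, `x` in the span, then it is smaller than
that of some `A + ∑ a i • b i` with integers `0 ≤ a i ≤ n`, at most `2 ⌊κ/(n-k)⌋ + 3` of them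
nonzero. -/
theorem result.{u} : ∀ (F : Type u) [Field F] [CharZero F] (n m κ k : ℕ)
    (b : Fin m → Matrix (Fin n) (Fin n) F) (A : Matrix (Fin n) (Fin n) F),
    k < n → 2 * κ < (k + 1) * (k + 2) →
    n * n ≤ finrank F (Submodule.span F (Set.range b)) + κ →
    (∃ x ∈ Submodule.span F (Set.range b), A.rank < (A + x).rank) →
    ∃ a : Fin m → ℕ, (∀ i, a i ≤ n) ∧
      (Finset.univ.filter fun i => a i ≠ 0).card ≤ 2 * (κ / (n - k)) + 3 ∧
      A.rank < (A + ∑ i, (a i : F) • b i).rank := by
  intro F _ _ n m κ k b A hk hκ hdim hx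
  by_contra hcon
  push Not at hcon
  obtain ⟨x, hx, hlt⟩ := hx
  have heven : 2 * ((k + 1) * (k + 2) / 2) = (k + 1) * (k + 2) := by
    have h := Nat.even_mul_succ_self (k + 1)
    exact Nat.two_mul_div_two_of_even h
  have h := Pool.Agent.Lib.MP_64d474_lc.Large.main b A k (κ / (n - k))
    (by rw [Fintype.card_fin]; omega)
    (fun d hd => by
      rw [Fintype.card_fin] at hd
      rw [Nat.le_div_iff_mul_le (by omega)]
      omega)
    (fun a ha1 ha2 => by
      rw [Fintype.card_fin] at ha1
      exact hcon a ha1 ha2) x hx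
  omega

end Pool.Agent.Lib.MP_64d474_lc.LargeSpaces
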