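import Mathlib
import Pool.Agent.Lib.MP_64d474_lc.Nc.Main

/-!
# One explicit quasi-polynomial tuple of matrices decides noncommutative singularity

A symbolic matrix `A = ∑ x_k B_k` of size `n` with `m` variables is evaluated at a tuple
`T = (T_1, …, T_m)` of matrices: `A(T) = ∑ T_k ⊗ B_k` (`tens T B`).

The tuple.  Let `φ₁ : K₁ → (ℤ/2)^l₁` and `φ₂ : K₂ → (ℤ/2)^l₂` be coordinates of two fields of
characteristic 2 and let `α` be injective (`IsData`).  For `v(u, β) = (u · φ₁ (β ^ i))_i`, a
small-bias family of vectors, `wop (v s) (v s')` is the signed translation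
`x ↦ ((-1)^(v s · x)) · (x + v s')`, and `svec φ₂ α ω` is a family of 4-wise independent signs
`a_ω(k, s, s')`.  Starting with the zero tuple of size 1, each of `L` steps replaces `T` by the block
diagonal tuple with the blocks `[[T_k, P_k(ω)], [0, T_k]]`, `P_k(ω) = ∑ a_ω(k, s, s') W(s, s')`, one
for each of the `4 ^ l₂` values of `ω` (`tower`).  The result has size `2 ^ t`,
`t = (2 l₂ + 1) L`; it does not depend on `A` or on the field.

Part 1.  For every field `F` of characteristic zero and all `B_1, …, B_m` over `F`, the rank `R` of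
`A(T)` satisfies `R ≤ 2 ^ t · ncrk A < R + 2 ^ t`: the noncommutative rank is `⌈R / 2 ^ t⌉`.  If
`det A ≠ 0` or if `A` has a shrunk subspace, then `det A ≠ 0` if and only if `R > (n - 1) 2 ^ t`.
The following are equivalent: `A` has no shrunk subspace; `A(Y)` is nonsingular for some tuple of
square matrices `Y`; `R > (n - 1) 2 ^ t`; `A(T(c, e))` is nonsingular for some twist `T(c, e)`,
where `c, e` are vectors of `t` integers between `0` and `n 2 ^ t`.

Part 2.  There are data with `t ≤ 164 (log₂ n + 2) (log₂ n + log₂ m + 5)`, so that `2 ^ t` and the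
number of twists are quasi-polynomial; the entries of `T` are at most
`2 ^ (16 (log₂ n + log₂ m + 5))` in absolute value.
-/

open Matrix Module

namespace Pool.Agent.Lib.MP_64d474_lc.NcRankTestOld

open Pool.Agent.Lib.MP_64d474_lc.Op Pool.Agent.Lib.MP_64d474_lc.Nc

theorem result.{u} :
    -- Part 1
    (∀ (n m : ℕ) (X : Data n m), X.twists.card ≤ (n * 2 ^ X.t + 1) ^ (2 * X.t) ∧
      ∀ (F : Type u) [Field F] [CharZero F] (B : Fin m → Matrix (Fin n) (Fin n) F) (d R : ℕ),
        d = 2 ^ X.t → R = (tens (cst F X.T) B).rank →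
          -- the noncommutative rank
          (R ≤ d * ncRank B ∧ d * ncRank B < R + d) ∧
          -- symbolic determinants
          (Nonsing B ∨ ¬ Nonshrunk B → (Nonsing B ↔ d * n < R + d)) ∧
          -- noncommutative singularity
          List.TFAE [Nonshrunk B, NcNonsing B, d * n < R + d,
            ∃ Y ∈ X.twists, (tens (cst F Y) B).det ≠ 0]) ∧
    -- Part 2
    ∀ n m : ℕ, ∃ X : Data n m,
      X.t ≤ 164 * (Nat.log 2 n + 2) * (Nat.log 2 n + Nat.log 2 m + 5) ∧
        ∀ k x y, |X.T k x y| ≤ 2 ^ (16 * (Nat.log 2 n + Nat.log 2 m + 5)) :=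
  ⟨fun _ _ X => ⟨X.card_twists, fun _ _ _ B d R hd hR => main X B d R hd hR⟩, exists_small⟩

end Pool.Agent.Lib.MP_64d474_lc.NcRankTestOld
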