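import Pool.Agent.Lib.MP_64d474_lc.Kal.MainR
import Pool.Agent.Lib.MP_64d474_lc.Kal.MainF
import Pool.Agent.Lib.MP_64d474_lc.Kal.Vander
import Pool.Agent.Lib.MP_64d474_lc.Kal.StepN
import Pool.Agent.Lib.MP_64d474_lc.Kal.Region
import Pool.Agent.Lib.MP_64d474_lc.Kal.Base
import Pool.Agent.Lib.MP_64d474_lc.Kal.CheapK
import Pool.Agent.Lib.MP_64d474_lc.Kal.StepP
import Pool.Agent.Lib.MP_64d474_lc.Kal.Single
import Pool.Agent.Lib.MP_64d474_lc.Kal.Hybrid
import Pool.Agent.Lib.MP_64d474_lc.Kal.Bal
import Pool.Agent.Lib.MP_64d474_lc.Kal.Tree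
import Pool.Agent.Lib.MP_64d474_lc.Kal.Flat
import Pool.Agent.Lib.MP_64d474_lc.Kal.Grid
import Pool.Agent.Lib.MP_64d474_lc.Kal.Det
import Pool.Agent.Lib.MP_64d474_lc.Kal.Card
import Pool.Agent.Lib.MP_64d474_lc.Kal.Net
import Pool.Agent.Lib.MP_64d474_lc.Kal.DegF

/-!
# Explicit sets of subexponential size for symbolic matrices with few occurrences

The explicit finite sets `hits m β N D` of integer vectors do not depend on the matrices.  With
`s` occurrences of variables (total rank of the coefficient matrices) they decide nonsingularity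
of all symbolic matrices with `O(s ^ (2/3))` parameters, of tree-like symbolic matrices of width
`w` with `O(w s ^ (1/2))` parameters and of arithmetic formulas with `O(s ^ (1/2))` parameters.

The variables are divided into classes of consecutive variables with about `R` occurrences.  All
classes use the same `N` sources `z`, and every class has one parameter `y` of its own.  As a
function of the variables of one class the determinant depends, up to a factor, on at most
`4 R ^ 2` (in general) or `16 R w ^ 2` (for trees) parameters.  So in a space of directions of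
the sources of small codimension it does not change, and in the remaining directions the values
of the variables of the class are free.
-/

set_option autoImplicit false

open Finset MvPolynomial

namespace Pool.Agent.Lib.MP_64d474_lc.OccurrenceTestSetOld

open Pool.Agent.Lib.MP_64d474_lc.Kal

theorem result.{u} (m s R N β D : ℕ) (hR : 1 ≤ R) (hβ : 2 * (s / R) + 2 ≤ β) :
    ((hits m β N D).card ≤ (m + 1) ^ β * (D + 1) ^ N * (N * D + 1) ^ β ∧
      ∀ h ∈ hits m β N D, ∀ k, h k ≤ N * D * (m * N * D) ^ N) ∧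
    ∀ (F : Type u) [Field F] [CharZero F],
      (∀ (n : ℕ) (W : Finset (Fin m)) (T' : Finset (Fin m → ℕ)),
        (∀ (B₀ : Matrix (Fin n) (Fin n) F) (B : Fin m → Matrix (Fin n) (Fin n) F),
          (∀ k, (B k).rank ≤ 1) → ∃ g ∈ T', ∀ x : Fin m → F,
            (B₀ + ∑ k, x k • B k).rank ≤ (B₀ + ∑ k, (g k : F) • B k).rank) →
        ∀ (B₀ : Matrix (Fin n) (Fin n) F) (B : Fin m → Matrix (Fin n) (Fin n) F),
          (∀ k, k ∉ W → (B k).rank ≤ 1) → ∑ k ∈ W, (B k).rank ≤ s → 4 * R ^ 2 ≤ N →
          min n s ≤ D →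
          ∃ h ∈ hits m β N D, ∃ g ∈ T', ∀ x : Fin m → F, (B₀ + ∑ k, x k • B k).rank ≤
            (B₀ + ∑ k, (if k ∈ W then (h k : F) else (g k : F)) • B k).rank) ∧
      (∀ (ι E : Type) [Fintype ι] [DecidableEq ι] [Fintype E] [DecidableEq E]
        (P : E → Matrix ι ι F) (κ : E → Option (Fin m)) (t : BT E) (w : ℕ),
        Good P (fun p => κ p ≠ none) w t → t.leaves.Nodup →
        (∀ p, p ∈ t.leaves ↔ κ p ≠ none) → t.leaves.length ≤ s → 1 ≤ w → 18 * R * w ^ 2 ≤ N →
        min (Fintype.card ι) (∑ p ∈ univ.filter (fun p => κ p ≠ none), (P p).rank) ≤ D →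
        ∀ x : Fin m → F, (mat P κ x).det ≠ 0 →
          ∃ h ∈ hits m β N D, (mat P κ fun k => (h k : F)).det ≠ 0) ∧
      (∀ φ : Fm F m, ∑ k, φ.occ k ≤ s → 18 * R ≤ N → 2 * s ≤ D → φ.nd.1 ≠ 0 → φ.nd.2 ≠ 0 →
        ∃ h ∈ hits m β N D, eval (fun k => (h k : F)) φ.nd.1 ≠ 0 ∧
          eval (fun k => (h k : F)) φ.nd.2 ≠ 0) := by
  have hyb : StHybrid.{u} :=
    stHybrid (stStepP (stStepN stVander.{u}) (stCheapK stRegion.{u} stBase.{u})) stSingle.{u}
  have hT : StMainTree.{u} := stMainTree hyb stTree.{u}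
  have hF : StMainFlat.{u} := stMainFlat hyb stFlat.{u}
  refine ⟨stCard m β N D, fun F _ _ => ⟨?_, ?_, ?_⟩⟩
  · intro n W T' hT' B₀ B hB hs hN hD
    exact mainAll hF stBal stGrid stDet F n m W T' hT' B₀ B hB s R β N D hs hR hβ hN hD
  · intro ι E _ _ _ _ P κ t w hgood hnd hleaf hs hw hN hD x hx
    exact mainTree hT stBal stGrid stDet F ι E P m κ t w s R β N D hgood hnd hleaf hs hw hR hβ
      hN hD x hx
  · intro φ hs hN hD h1 h2
    exact mainForm hT stBal stGrid stBoth stNet stDegF F m φ s R β N D hs hR hβ hN hD h1 h2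

end Pool.Agent.Lib.MP_64d474_lc.OccurrenceTestSetOld
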