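import Mathlib
import Pool.Agent.Lib.MP_64d474_lc.PolyClass

/-!
The determinant of a diagonal matrix of linear forms plus a matrix of linear forms of rank at most
`r` belongs to the class `PC l r 0`.
-/

open Polynomial

namespace Pool.Agent.Lib.MP_64d474_lc

section

variable {K V : Type*} [Field K] [AddCommGroup V] [Module K V] {n : ℕ}

theorem det_updateRow_expand (M : Matrix (Fin n) (Fin n) K) (i : Fin n) (v : Fin n → K) :
    (M.updateRow i v).det = ∑ j, v j * (M.updateRow i (Pi.single j 1)).det := by
  rw [Matrix.det_eq_sum_mul_adjugate_row _ i]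
  refine Finset.sum_congr rfl fun j _ => ?_
  rw [Matrix.updateRow_self, Matrix.adjugate_apply, Matrix.updateRow_idem]

/-- Matrix with linear rows on `S` and constant rows elsewhere. -/
def mixRows (L : Fin n → Fin n → (V →ₗ[K] K)) (c : Fin n → Fin n → K) (S : Finset (Fin n))
    (x : V) : Matrix (Fin n) (Fin n) K :=
  Matrix.of fun i => if i ∈ S then (fun j => L i j x) else c i

theorem PD.mixRows (L : Fin n → Fin n → (V →ₗ[K] K)) (S : Finset (Fin n)) :
    ∀ c : Fin n → Fin n → K, PD (S.card : ℤ) (fun x => (mixRows L c S x).det) := by
  classical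
  induction S using Finset.induction_on with
  | empty =>
    intro c
    refine ((PD.const (Matrix.of c).det).mono (by simp)).congr fun x => ?_
    have h : MP_64d474_lc.mixRows L c ∅ x = Matrix.of c := by
      ext i j
      simp [MP_64d474_lc.mixRows]
    rw [h]
  | insert i S hi ih =>
    intro c
    rw [Finset.card_insert_of_notMem hi]
    refine (PD.sum Finset.univ (f := fun j x => L i j x *
      (MP_64d474_lc.mixRows L (Function.update c i (Pi.single j 1)) S x).det) fun j _ => ?_).congr
      fun x => ?_
    · refine (PD.mul (L i j) (ih _)).mono ?_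
      push_cast; exact le_rfl
    · have h1 : MP_64d474_lc.mixRows L c (insert i S) x =
          (MP_64d474_lc.mixRows L c S x).updateRow i (fun j => L i j x) := by
        ext i' j'
        by_cases h : i' = i
        · subst h
          simp [MP_64d474_lc.mixRows]
        · simp [MP_64d474_lc.mixRows, h]
      have h2 : ∀ j, MP_64d474_lc.mixRows L (Function.update c i (Pi.single j 1)) S x =
          (MP_64d474_lc.mixRows L c S x).updateRow i (Pi.single j 1) := by
        intro j
        ext i' j'
        by_cases h : i' = i
        · subst h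
          simp [MP_64d474_lc.mixRows, hi]
        · simp [MP_64d474_lc.mixRows, h]
      rw [h1, det_updateRow_expand]
      refine Finset.sum_congr rfl fun j _ => ?_
      rw [h2]

theorem mixRows_det_eq_zero (L : Fin n → Fin n → (V →ₗ[K] K)) (c : Fin n → Fin n → K)
    (S : Finset (Fin n)) (x : V) (h : (Matrix.of fun i j => L i j x).rank < S.card) :
    (mixRows L c S x).det = 0 := by
  classical
  by_contra hdet
  have h1 := Matrix.linearIndependent_rows_of_det_ne_zero hdet
  have h2 : LinearIndependent K (fun i : S => (Matrix.of fun i j => L i j x).row i) := by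
    have h3 := h1.comp (fun i : S => (i : Fin n)) Subtype.val_injective
    have h4 : (fun i : S => (Matrix.of fun i j => L i j x).row i) =
        (MP_64d474_lc.mixRows L c S x).row ∘ (fun i : S => (i : Fin n)) := by
      funext i j
      show L i j x = (if (i : Fin n) ∈ S then (fun j => L i j x) else c i) j
      rw [if_pos i.2]
    rw [h4]
    exact h3
  have h5 := finrank_span_eq_card h2
  rw [Fintype.card_coe] at h5
  rw [Matrix.rank_eq_finrank_span_row] at h
  have h6 : Submodule.span K (Set.range fun i : S => (Matrix.of fun i j => L i j x).row i) ≤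
      Submodule.span K (Set.range (Matrix.of fun i j => L i j x).row) := by
    apply Submodule.span_mono
    rintro _ ⟨i, rfl⟩
    exact ⟨i, rfl⟩
  have h7 := Submodule.finrank_mono h6
  omega

/-- Partially expanded matrix. -/
def expRows (a : Fin n → (V →ₗ[K] K)) (L : Fin n → Fin n → (V →ₗ[K] K)) (idx : List (Fin n))
    (S : Finset (Fin n)) (x : V) : Matrix (Fin n) (Fin n) K :=
  Matrix.of fun i => if i ∈ idx then a i x • (Pi.single i 1 : Fin n → K) + (fun j => L i j x) else
    if i ∈ S then (fun j => L i j x) else (Pi.single i 1 : Fin n → K)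

theorem PC.expRows (a : Fin n → (V →ₗ[K] K)) (L : Fin n → Fin n → (V →ₗ[K] K)) (r : ℕ)
    (hr : ∀ x, (Matrix.of fun i j => L i j x).rank ≤ r) :
    ∀ (idx : List (Fin n)), idx.Nodup → ∀ S : Finset (Fin n), (∀ i ∈ idx, i ∉ S) →
      PC (idx.map a) ((r : ℤ) - S.card) S.card (fun x => (MP_64d474_lc.expRows a L idx S x).det) := by
  classical
  intro idx
  induction idx with
  | nil =>
    intro _ S _
    have h : ∀ x, MP_64d474_lc.expRows a L [] S x =
        mixRows L (fun i => (Pi.single i 1 : Fin n → K)) S x := by
      intro x
      ext i j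
      simp [MP_64d474_lc.expRows, mixRows]
    refine ⟨(PD.mixRows L S fun i => (Pi.single i 1 : Fin n → K)).congr fun x => by rw [h],
      fun hc x => ?_⟩
    show (MP_64d474_lc.expRows a L [] S x).det = 0
    rw [h]
    apply mixRows_det_eq_zero
    have := hr x
    omega
  | cons i idx ih =>
    intro hnd S hS
    rw [List.nodup_cons] at hnd
    have hiS : i ∉ S := hS i List.mem_cons_self
    refine ⟨fun x => (MP_64d474_lc.expRows a L idx S x).det,
      fun x => (MP_64d474_lc.expRows a L idx (insert i S) x).det,
      ih hnd.2 S fun j hj => hS j (List.mem_cons_of_mem i hj), ?_, fun x => ?_⟩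
    · refine (ih hnd.2 (insert i S) fun j hj => ?_).mono ?_ ?_
      · rw [Finset.mem_insert, not_or]
        exact ⟨fun h => hnd.1 (h ▸ hj), hS j (List.mem_cons_of_mem i hj)⟩
      · rw [Finset.card_insert_of_notMem hiS]; push_cast; omega
      · rw [Finset.card_insert_of_notMem hiS]; push_cast; omega
    · have h1 : MP_64d474_lc.expRows a L (i :: idx) S x =
          (MP_64d474_lc.expRows a L idx S x).updateRow i
            (a i x • (Pi.single i 1 : Fin n → K) + (fun j => L i j x)) := by
        ext i' j'
        by_cases h : i' = i
        · subst h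
          simp [MP_64d474_lc.expRows]
        · simp [MP_64d474_lc.expRows, h]
      have h2 : MP_64d474_lc.expRows a L idx S x =
          (MP_64d474_lc.expRows a L idx S x).updateRow i (Pi.single i 1 : Fin n → K) := by
        ext i' j'
        by_cases h : i' = i
        · subst h
          simp [MP_64d474_lc.expRows, hnd.1, hiS]
        · simp [h]
      have h3 : MP_64d474_lc.expRows a L idx (insert i S) x =
          (MP_64d474_lc.expRows a L idx S x).updateRow i (fun j => L i j x) := by
        ext i' j'
        by_cases h : i' = i
        · subst h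
          simp [MP_64d474_lc.expRows, hnd.1]
        · simp [MP_64d474_lc.expRows, h]
      show (MP_64d474_lc.expRows a L (i :: idx) S x).det =
        a i x * (MP_64d474_lc.expRows a L idx S x).det +
          (MP_64d474_lc.expRows a L idx (insert i S) x).det
      rw [h1, Matrix.det_updateRow_add, Matrix.det_updateRow_smul, ← h2, h3]

/-- The determinant of `diagonal + rank r` as a member of the class. -/
theorem PC.diagonal_add (a : Fin n → (V →ₗ[K] K)) (L : Fin n → Fin n → (V →ₗ[K] K)) (r : ℕ)
    (hr : ∀ x, (Matrix.of fun i j => L i j x).rank ≤ r) :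
    PC ((List.finRange n).map a) r 0
      (fun x => (Matrix.diagonal (fun i => a i x) + Matrix.of fun i j => L i j x).det) := by
  classical
  refine ((PC.expRows a L r hr (List.finRange n) (List.nodup_finRange n) ∅
    fun i _ => Finset.notMem_empty i).mono (by simp) (by simp)).congr fun x => ?_
  congr 1
  ext i j
  by_cases h : j = i
  · subst h
    simp [MP_64d474_lc.expRows]
  · rw [Matrix.add_apply, Matrix.diagonal_apply_ne _ (Ne.symm h)]
    simp [MP_64d474_lc.expRows, h]

end

end Pool.Agent.Lib.MP_64d474_lc
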