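import Mathlib

/-!
Spaces of matrices closed under `k`-th powers: first consequences.
-/

open Matrix Polynomial

namespace Pool.Agent.Lib.MP_64d474_lc

section

variable {F : Type*} [Field F] {n : ℕ}

/-- The matrix `x + X y` over the polynomial ring. -/
noncomputable def pen (x y : Matrix (Fin n) (Fin n) F) : Matrix (Fin n) (Fin n) F[X] :=
  x.map C + (X : F[X]) • y.map C

theorem map_eval_mul (t : F) (A B : Matrix (Fin n) (Fin n) F[X]) :
    (A * B).map (eval t) = A.map (eval t) * B.map (eval t) := by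
  ext a b
  simp only [Matrix.map_apply, Matrix.mul_apply, eval_finsetSum, eval_mul]

theorem map_eval_pow (t : F) (A : Matrix (Fin n) (Fin n) F[X]) (j : ℕ) :
    (A ^ j).map (eval t) = (A.map (eval t)) ^ j := by
  induction j with
  | zero =>
    rw [pow_zero, pow_zero]
    ext a b
    rw [Matrix.map_apply, Matrix.one_apply, Matrix.one_apply]
    split_ifs
    · rw [eval_one]
    · rw [eval_zero]
  | succ j ih => rw [pow_succ, pow_succ, map_eval_mul, ih]

theorem map_eval_C (t : F) (x : Matrix (Fin n) (Fin n) F) : (x.map C).map (eval t) = x := by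
  ext a b
  rw [Matrix.map_apply, Matrix.map_apply, eval_C]

theorem pen_eval (x y : Matrix (Fin n) (Fin n) F) (t : F) :
    (pen x y).map (eval t) = x + t • y := by
  ext a b
  rw [Matrix.map_apply, pen, Matrix.add_apply, Matrix.smul_apply, Matrix.map_apply,
    Matrix.map_apply, Matrix.add_apply, Matrix.smul_apply, smul_eq_mul, smul_eq_mul, eval_add,
    eval_mul, eval_C, eval_C, eval_X]

/-- Coefficients of a polynomial curve in a subspace lie in the subspace. -/
theorem coeff_mem [Infinite F] (V : Submodule F (Matrix (Fin n) (Fin n) F))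
    (M : Matrix (Fin n) (Fin n) F[X]) (h : ∀ t : F, M.map (eval t) ∈ V) (j : ℕ) :
    M.map (fun p => p.coeff j) ∈ V := by
  by_contra hcon
  obtain ⟨φ, hφ, hV⟩ := Submodule.exists_dual_map_eq_bot_of_notMem hcon inferInstance
  have hφV : ∀ v ∈ V, φ v = 0 := by
    intro v hv
    have : φ v ∈ V.map φ := Submodule.mem_map_of_mem hv
    rwa [hV, Submodule.mem_bot] at this
  have hexp : ∀ x : Matrix (Fin n) (Fin n) F, φ x = ∑ a, ∑ b, x a b * φ (Matrix.single a b 1) := by
    intro x
    conv_lhs => rw [Matrix.matrix_eq_sum_single x]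
    rw [map_sum]
    refine Finset.sum_congr rfl fun a _ => ?_
    rw [map_sum]
    refine Finset.sum_congr rfl fun b _ => ?_
    have : Matrix.single a b (x a b) = x a b • Matrix.single a b (1 : F) := by
      rw [Matrix.smul_single, smul_eq_mul, mul_one]
    rw [this, map_smul, smul_eq_mul]
  let p : F[X] := ∑ a, ∑ b, M a b * C (φ (Matrix.single a b 1))
  have hp : p = 0 := by
    apply Polynomial.funext
    intro t
    rw [eval_zero, ← hφV _ (h t), hexp]
    simp only [p, eval_finsetSum, eval_mul, eval_C, Matrix.map_apply]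
  apply hφ
  rw [hexp]
  have h2 : p.coeff j = ∑ a, ∑ b, (M.map (fun p => p.coeff j)) a b * φ (Matrix.single a b 1) := by
    simp only [p, finsetSum_coeff, coeff_mul_C, Matrix.map_apply]
  rw [← h2, hp, coeff_zero]

/-- `T x y j = ∑_{i<j} x^i y x^(j-1-i)`. -/
def polT (x y : Matrix (Fin n) (Fin n) F) (j : ℕ) : Matrix (Fin n) (Fin n) F :=
  ∑ i ∈ Finset.range j, x ^ i * y * x ^ (j - 1 - i)

theorem polT_zero (x y : Matrix (Fin n) (Fin n) F) : polT x y 0 = 0 := by
  rw [polT, Finset.range_zero, Finset.sum_empty]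

theorem polT_succ (x y : Matrix (Fin n) (Fin n) F) (j : ℕ) :
    polT x y (j + 1) = polT x y j * x + x ^ j * y := by
  rw [polT, Finset.sum_range_succ, polT, Finset.sum_mul]
  congr 1
  · refine Finset.sum_congr rfl fun i hi => ?_
    rw [Finset.mem_range] at hi
    rw [mul_assoc (x ^ i * y), ← pow_succ]
    congr 2
    omega
  · rw [show j + 1 - 1 - j = 0 by omega, pow_zero, mul_one]

theorem polT_succ' (x y : Matrix (Fin n) (Fin n) F) (j : ℕ) :
    polT x y (j + 1) = x * polT x y j + y * x ^ j := by
  rw [polT, Finset.sum_range_succ', polT, Finset.mul_sum]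
  congr 1
  · refine Finset.sum_congr rfl fun i hi => ?_
    rw [pow_succ', mul_assoc, mul_assoc, mul_assoc]
    congr 4
    omega
  · rw [pow_zero, one_mul]
    congr 2

theorem mul_polT_sub (x y : Matrix (Fin n) (Fin n) F) (j : ℕ) :
    x * polT x y j + y * x ^ j = polT x y j * x + x ^ j * y := by
  rw [← polT_succ, ← polT_succ']

theorem coeff_one_pen_pow (x y : Matrix (Fin n) (Fin n) F) (j : ℕ) :
    ((pen x y) ^ j).map (fun p => p.coeff 0) = x ^ j ∧
    ((pen x y) ^ j).map (fun p => p.coeff 1) = polT x y j := by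
  have h0 : (pen x y).map (fun p => p.coeff 0) = x := by
    ext a b
    simp [pen]
  have h1 : (pen x y).map (fun p => p.coeff 1) = y := by
    ext a b
    simp [pen, coeff_C]
  induction j with
  | zero =>
    refine ⟨?_, ?_⟩
    · rw [pow_zero, pow_zero]
      ext a b
      rw [Matrix.map_apply, Matrix.one_apply, Matrix.one_apply]
      split_ifs
      · rw [coeff_one_zero]
      · rw [coeff_zero]
    · rw [pow_zero, polT_zero]
      ext a b
      rw [Matrix.map_apply, Matrix.one_apply, Matrix.zero_apply]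
      split_ifs
      · rw [coeff_one, if_neg one_ne_zero]
      · rw [coeff_zero]
  | succ j ih =>
    obtain ⟨ih0, ih1⟩ := ih
    refine ⟨?_, ?_⟩
    · have e1 : ∀ P Q : Matrix (Fin n) (Fin n) F[X], (P * Q).map (fun p => p.coeff 0) =
          P.map (fun p => p.coeff 0) * Q.map (fun p => p.coeff 0) := by
        intro P Q
        ext a b
        simp only [Matrix.map_apply, Matrix.mul_apply, finsetSum_coeff, mul_coeff_zero]
      rw [pow_succ, pow_succ, e1, ih0, h0]
    · have e1 : ∀ P Q : Matrix (Fin n) (Fin n) F[X], (P * Q).map (fun p => p.coeff 1) =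
          P.map (fun p => p.coeff 1) * Q.map (fun p => p.coeff 0) +
            P.map (fun p => p.coeff 0) * Q.map (fun p => p.coeff 1) := by
        intro P Q
        ext a b
        simp only [Matrix.map_apply, Matrix.mul_apply, Matrix.add_apply, finsetSum_coeff,
          mul_coeff_one]
        rw [← Finset.sum_add_distrib]
        exact Finset.sum_congr rfl fun c _ => add_comm _ _
      rw [pow_succ, polT_succ, e1, ih0, ih1, h0, h1]

/-- Closure under `k`-th powers. -/
def PowClosed (k : ℕ) (V : Submodule F (Matrix (Fin n) (Fin n) F)) : Prop :=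
  ∀ x ∈ V, x ^ k ∈ V

theorem PowClosed.polT_mem [Infinite F] {k : ℕ} {V : Submodule F (Matrix (Fin n) (Fin n) F)}
    (hV : PowClosed k V) {x y : Matrix (Fin n) (Fin n) F} (hx : x ∈ V) (hy : y ∈ V) :
    polT x y k ∈ V := by
  rw [← (coeff_one_pen_pow x y k).2]
  refine coeff_mem V _ (fun t => ?_) 1
  rw [map_eval_pow, pen_eval]
  exact hV _ (V.add_mem hx (V.smul_mem t hy))

theorem polT_self_pow (x : Matrix (Fin n) (Fin n) F) (i j : ℕ) :
    polT x (x ^ i) (j + 1) = ((j + 1 : ℕ) : F) • x ^ (i + j) := by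
  induction j with
  | zero => rw [polT_succ, polT_zero, zero_mul, zero_add, pow_zero, one_mul]; simp
  | succ j ih =>
    rw [polT_succ, ih, Matrix.smul_mul, ← pow_succ, ← pow_add, show j + 1 + i = i + (j + 1) by ring,
      show i + j + 1 = i + (j + 1) by ring]
    push_cast
    module

theorem PowClosed.pow_mem [CharZero F] {q : ℕ} {V : Submodule F (Matrix (Fin n) (Fin n) F)}
    (hV : PowClosed (q + 1) V) {x : Matrix (Fin n) (Fin n) F} (hx : x ∈ V) (j : ℕ) :
    x ^ (1 + j * q) ∈ V := by
  induction j with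
  | zero => rwa [zero_mul, add_zero, pow_one]
  | succ j ih =>
    have h := hV.polT_mem hx ih
    rw [polT_self_pow] at h
    have h2 := V.smul_mem (((q + 1 : ℕ) : F)⁻¹) h
    rw [smul_smul, inv_mul_cancel₀ (by exact_mod_cast Nat.succ_ne_zero q), one_smul] at h2
    rwa [show 1 + (j + 1) * q = 1 + j * q + q by ring]

theorem PowClosed.mul_aeval_mem [CharZero F] {q : ℕ}
    {V : Submodule F (Matrix (Fin n) (Fin n) F)}
    (hV : PowClosed (q + 1) V) {x : Matrix (Fin n) (Fin n) F} (hx : x ∈ V) (p : F[X]) :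
    x * aeval (x ^ q) p ∈ V := by
  rw [aeval_eq_sum_range, Finset.mul_sum]
  refine V.sum_mem fun j _ => ?_
  rw [Matrix.mul_smul]
  refine V.smul_mem _ ?_
  have := hV.pow_mem hx j
  rw [pow_add, pow_one, mul_comm j q, pow_mul] at this
  exact this

theorem PowClosed.powClosed [CharZero F] {q : ℕ} {V : Submodule F (Matrix (Fin n) (Fin n) F)}
    (hV : PowClosed (q + 1) V) (j : ℕ) : PowClosed (j * q + 1) V := by
  intro x hx
  have := hV.pow_mem hx j
  rwa [add_comm] at this

/-- The Fitting idempotent, as a polynomial in the matrix without constant term. -/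
theorem exists_fitting (u : Matrix (Fin n) (Fin n) F) : ∃ a : F[X],
    IsIdempotentElem (aeval u (a * X ^ (n + 1))) ∧
    u ^ n * (1 - aeval u (a * X ^ (n + 1))) = 0 := by
  classical
  have hχ : u.charpoly ≠ 0 := (Matrix.charpoly_monic u).ne_zero
  obtain ⟨g, hg, hnd⟩ := exists_eq_pow_rootMultiplicity_mul_and_not_dvd u.charpoly hχ 0
  rw [C_0, sub_zero] at hg hnd
  have hm : rootMultiplicity 0 u.charpoly ≤ n := by
    have h1 : X ^ rootMultiplicity 0 u.charpoly ∣ u.charpoly := Dvd.intro _ hg.symm
    have h2 := natDegree_le_of_dvd h1 hχ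
    rwa [natDegree_X_pow, Matrix.charpoly_natDegree_eq_dim, Fintype.card_fin] at h2
  have hug : u ^ n * aeval u g = 0 := by
    have h1 := Matrix.aeval_self_charpoly u
    rw [hg, map_mul, map_pow, aeval_X] at h1
    have e : n = (n - rootMultiplicity 0 u.charpoly) + rootMultiplicity 0 u.charpoly := by omega
    have e2 : u ^ n = u ^ (n - rootMultiplicity 0 u.charpoly) *
        u ^ (rootMultiplicity 0 u.charpoly) := by
      rw [← pow_add]; exact congrArg (fun k => u ^ k) e
    rw [e2, mul_assoc, h1, mul_zero]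
  have hcop : IsCoprime (X ^ (n + 1)) g := by
    apply IsCoprime.pow_left
    exact (irreducible_X.coprime_iff_not_dvd).mpr hnd
  obtain ⟨a, b, hab⟩ := hcop
  have h1 : 1 - aeval u (a * X ^ (n + 1)) = aeval u g * aeval u b := by
    have h2 : aeval u (a * X ^ (n + 1)) + aeval u (b * g) = 1 := by
      rw [← map_add, hab, map_one]
    rw [← map_mul, mul_comm g b, ← h2]
    abel
  have h3 : u ^ n * (1 - aeval u (a * X ^ (n + 1))) = 0 := by
    rw [h1, ← mul_assoc, hug, zero_mul]
  refine ⟨a, ?_, h3⟩
  have h4 : aeval u (a * X ^ (n + 1)) * (1 - aeval u (a * X ^ (n + 1))) = 0 := by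
    have h5 : aeval u (a * X ^ (n + 1)) = aeval u a * u * u ^ n := by
      rw [map_mul, map_pow, aeval_X, pow_succ', mul_assoc]
    conv_lhs => rw [h5]
    rw [mul_assoc, ← h5, h3, mul_zero]
  rw [mul_sub, mul_one, sub_eq_zero] at h4
  exact h4.symm

theorem pow_mul_eq_zero (x y : Matrix (Fin n) (Fin n) F) (m : ℕ) (h : x ^ m * y = 0) :
    x ^ n * y = 0 := by
  rcases Nat.lt_or_ge m n with hm | hm
  · have e : n = (n - m) + m := by omega
    have e2 : x ^ n = x ^ (n - m) * x ^ m := by
      rw [← pow_add]; exact congrArg (fun k => x ^ k) e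
    rw [e2, mul_assoc, h, mul_zero]
  · have hk : LinearMap.ker ((Matrix.toLin' x) ^ m) = LinearMap.ker ((Matrix.toLin' x) ^ n) := by
      have := Module.End.ker_pow_eq_ker_pow_finrank_of_le (f := Matrix.toLin' x) (m := m)
        (by rw [Module.finrank_fin_fun]; exact hm)
      rwa [Module.finrank_fin_fun] at this
    ext a b
    have h1 : (fun c => y c b) ∈ LinearMap.ker ((Matrix.toLin' x) ^ m) := by
      rw [LinearMap.mem_ker, ← Matrix.toLin'_pow, Matrix.toLin'_apply]
      funext a'
      have := congrFun (congrFun h a') b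
      rwa [Matrix.mul_apply] at this
    rw [hk, LinearMap.mem_ker, ← Matrix.toLin'_pow, Matrix.toLin'_apply] at h1
    have := congrFun h1 a
    rw [Matrix.mul_apply]
    exact this

theorem mul_pow_eq_zero (x y : Matrix (Fin n) (Fin n) F) (m : ℕ) (h : y * x ^ m = 0) :
    y * x ^ n = 0 := by
  have h1 : xᵀ ^ m * yᵀ = 0 := by
    rw [← Matrix.transpose_pow, ← Matrix.transpose_mul, h, Matrix.transpose_zero]
  have h2 := pow_mul_eq_zero _ _ _ h1
  rw [← Matrix.transpose_pow, ← Matrix.transpose_mul] at h2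
  have := congrArg Matrix.transpose h2
  rwa [Matrix.transpose_transpose, Matrix.transpose_zero] at this

end

end Pool.Agent.Lib.MP_64d474_lc
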