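import Mathlib
import Pool.Agent.Lib.MP_64d474_lc.PowBasic

/-!
Spaces of matrices closed under `k`-th powers: the component of an element in the Fitting null
block of another element stays in the space.
-/

open Matrix Polynomial

namespace Pool.Agent.Lib.MP_64d474_lc

section

/-- Commuting endomorphisms without common kernel: their ranges span. -/
theorem range_sup_range_eq_top {F W : Type*} [Field F] [AddCommGroup W] [Module F W]
    [FiniteDimensional F W] (A B : Module.End F W) (hAB : A * B = B * A)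
    (hker : ∀ w, A w = 0 → B w = 0 → w = 0) : LinearMap.range A ⊔ LinearMap.range B = ⊤ := by
  obtain ⟨N, hN1, hN⟩ := ((LinearMap.eventually_isCompl_ker_pow_range_pow A).and
    (Filter.eventually_ge_atTop 1)).exists
  have hcomm : ∀ (k : ℕ) (w : W), B ((A ^ k) w) = (A ^ k) (B w) := by
    intro k w
    have h : B * A ^ k = A ^ k * B := ((Commute.pow_left (show Commute A B from hAB) k).symm).eq
    exact LinearMap.congr_fun h w
  -- B is injective on the kernel of A^N
  have hinj : ∀ w, (A ^ N) w = 0 → B w = 0 → w = 0 := by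
    intro w hw hBw
    by_contra hne
    have hex : ∃ k, (A ^ k) w = 0 := ⟨N, hw⟩
    classical
    have hk := Nat.find_spec hex
    have hk0 : Nat.find hex ≠ 0 := by
      intro h0
      rw [h0, pow_zero, Module.End.one_apply] at hk
      exact hne hk
    obtain ⟨k, hk1⟩ := Nat.exists_eq_succ_of_ne_zero hk0
    have h1 : (A ^ k) w ≠ 0 := Nat.find_min hex (by omega)
    apply h1
    apply hker
    · rw [hk1, pow_succ', Module.End.mul_apply] at hk
      exact hk
    · rw [hcomm, hBw, map_zero]
  have hmaps : ∀ w ∈ LinearMap.ker (A ^ N), B w ∈ LinearMap.ker (A ^ N) := by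
    intro w hw
    rw [LinearMap.mem_ker] at hw ⊢
    rw [← hcomm, hw, map_zero]
  have hsurj : Function.Surjective (B.restrict hmaps) := by
    apply LinearMap.surjective_of_injective
    intro v w hvw
    apply Subtype.ext
    have h1 : B ((v : W) - w) = 0 := by
      have := congrArg Subtype.val hvw
      simp only [LinearMap.coe_restrict_apply] at this
      rw [map_sub, this, sub_self]
    have h2 := hinj _ (LinearMap.mem_ker.mp ((v - w).2)) h1
    exact sub_eq_zero.mp h2
  rw [eq_top_iff, ← hN1.sup_eq_top]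
  apply sup_le
  · intro w hw
    obtain ⟨v, hv⟩ := hsurj ⟨w, hw⟩
    apply Submodule.mem_sup_right
    exact ⟨v, by have := congrArg Subtype.val hv; simpa using this⟩
  · rintro _ ⟨w, rfl⟩
    apply Submodule.mem_sup_left
    obtain ⟨k, hk⟩ : ∃ k, N = k + 1 := ⟨N - 1, by omega⟩
    exact ⟨(A ^ k) w, by rw [hk, pow_succ', Module.End.mul_apply]⟩

/-- If `A z` and `B z` lie in an invariant subspace `V` and `A`, `B` commute and have no common
kernel on `V + F z`, then `z ∈ V`. -/
theorem mem_of_commuting {F M : Type*} [Field F] [AddCommGroup M] [Module F M]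
    [FiniteDimensional F M] (A B : Module.End F M) (hAB : ∀ w, A (B w) = B (A w))
    (V : Submodule F M)
    (hVA : ∀ v ∈ V, A v ∈ V) (hVB : ∀ v ∈ V, B v ∈ V) (z : M) (hzA : A z ∈ V) (hzB : B z ∈ V)
    (hker : ∀ w ∈ V ⊔ Submodule.span F {z}, A w = 0 → B w = 0 → w = 0) : z ∈ V := by
  set W := V ⊔ Submodule.span F {z} with hW
  have key : ∀ (C : Module.End F M), (∀ v ∈ V, C v ∈ V) → C z ∈ V → ∀ w ∈ W, C w ∈ V := by
    intro C hC hz w hw
    obtain ⟨v, hv, s, hs, rfl⟩ := Submodule.mem_sup.mp hw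
    obtain ⟨c, rfl⟩ := Submodule.mem_span_singleton.mp hs
    rw [map_add, map_smul]
    exact V.add_mem (hC v hv) (V.smul_mem c hz)
  have hA := key A hVA hzA
  have hB := key B hVB hzB
  have hVW : V ≤ W := le_sup_left
  have htop := range_sup_range_eq_top (A.restrict fun w hw => hVW (hA w hw))
    (B.restrict fun w hw => hVW (hB w hw)) (by
      ext w
      exact hAB w) (by
      intro w h1 h2
      apply Subtype.ext
      apply hker w w.2
      · have := congrArg Subtype.val h1
        simpa using this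
      · have := congrArg Subtype.val h2
        simpa using this)
  have hz : z ∈ W := Submodule.mem_sup_right (Submodule.mem_span_singleton_self z)
  have h1 : (⟨z, hz⟩ : W) ∈ (⊤ : Submodule F W) := Submodule.mem_top
  rw [← htop] at h1
  obtain ⟨a, ha, b, hb, hab⟩ := Submodule.mem_sup.mp h1
  obtain ⟨a', rfl⟩ := ha
  obtain ⟨b', rfl⟩ := hb
  have h2 := congrArg Subtype.val hab
  simp only [Submodule.coe_add, LinearMap.coe_restrict_apply] at h2
  rw [← h2]
  exact V.add_mem (hA _ a'.2) (hB _ b'.2)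

variable {F : Type*} [Field F] {n : ℕ}

/-- `y ↦ polT x y j` as a linear map. -/
def polTMap (x : Matrix (Fin n) (Fin n) F) (j : ℕ) : Module.End F (Matrix (Fin n) (Fin n) F) where
  toFun y := polT x y j
  map_add' a b := by
    rw [polT, polT, polT, ← Finset.sum_add_distrib]
    exact Finset.sum_congr rfl fun i _ => by rw [mul_add, add_mul]
  map_smul' c a := by
    rw [polT, polT, RingHom.id_apply, Finset.smul_sum]
    exact Finset.sum_congr rfl fun i _ => by rw [Matrix.mul_smul, Matrix.smul_mul]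

theorem polTMap_apply (x y : Matrix (Fin n) (Fin n) F) (j : ℕ) : polTMap x j y = polT x y j := rfl

theorem mul_polT_comm (x y : Matrix (Fin n) (Fin n) F) (j : ℕ) :
    polT x (x * y) j = x * polT x y j := by
  rw [polT, polT, Finset.mul_sum]
  refine Finset.sum_congr rfl fun i _ => ?_
  rw [← mul_assoc, ← pow_succ, pow_succ', mul_assoc, mul_assoc, mul_assoc]

theorem polT_mul_comm (x y : Matrix (Fin n) (Fin n) F) (j : ℕ) :
    polT x (y * x) j = polT x y j * x := by
  rw [polT, polT, Finset.sum_mul]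
  refine Finset.sum_congr rfl fun i _ => ?_
  rw [mul_assoc (x ^ i * y), ← pow_succ, pow_succ', ← mul_assoc, ← mul_assoc]

theorem polT_polT_comm (x y : Matrix (Fin n) (Fin n) F) (i j : ℕ) :
    polT x (polT x y i) j = polT x (polT x y j) i := by
  have h1 : ∀ (a b : ℕ) (z : Matrix (Fin n) (Fin n) F),
      polT x (x ^ a * z * x ^ b) j = x ^ a * polT x z j * x ^ b := by
    intro a b z
    have hl : ∀ (a : ℕ) (z : Matrix (Fin n) (Fin n) F), polT x (x ^ a * z) j = x ^ a * polT x z j := by
      intro a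
      induction a with
      | zero => intro z; rw [pow_zero, one_mul, one_mul]
      | succ a ih => intro z; rw [pow_succ', mul_assoc, mul_polT_comm, ih, mul_assoc]
    have hr : ∀ (b : ℕ) (z : Matrix (Fin n) (Fin n) F), polT x (z * x ^ b) j = polT x z j * x ^ b := by
      intro b
      induction b with
      | zero => intro z; rw [pow_zero, mul_one, mul_one]
      | succ b ih => intro z; rw [pow_succ, ← mul_assoc, polT_mul_comm, ih, mul_assoc]
    rw [hr, hl]
  have h2 : polT x (polT x y i) j = ∑ a ∈ Finset.range i, polT x (x ^ a * y * x ^ (i - 1 - a)) j :=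
    map_sum (polTMap x j) (fun a => x ^ a * y * x ^ (i - 1 - a)) (Finset.range i)
  rw [h2]
  conv_rhs => rw [polT]
  exact Finset.sum_congr rfl fun a _ => h1 a _ y

/-- Data of a matrix `x₁` invertible on the range of an idempotent `e` and zero on its kernel. -/
structure InvOn (e x₁ v : Matrix (Fin n) (Fin n) F) : Prop where
  idem : e * e = e
  ex : e * x₁ = x₁
  xe : x₁ * e = x₁
  ev : e * v = v
  ve : v * e = v
  xv : x₁ * v = e
  vx : v * x₁ = e

theorem InvOn.mul_right_cancel {e x₁ v w : Matrix (Fin n) (Fin n) F} (h : InvOn e x₁ v)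
    (hwe : w * e = w) (hw : w * x₁ = 0) : w = 0 := by
  rw [← hwe, ← h.xv, ← mul_assoc, hw, zero_mul]

theorem InvOn.pow_right_cancel {e x₁ v w : Matrix (Fin n) (Fin n) F} (h : InvOn e x₁ v)
    (hwe : w * e = w) (k : ℕ) (hw : w * x₁ ^ k = 0) : w = 0 := by
  induction k with
  | zero => rwa [pow_zero, mul_one] at hw
  | succ k ih =>
    apply ih
    rcases Nat.eq_zero_or_pos k with hk | hk
    · subst hk
      rw [zero_add, pow_one] at hw
      rw [pow_zero, mul_one]
      exact h.mul_right_cancel hwe hw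
    · apply h.mul_right_cancel
      · obtain ⟨j, rfl⟩ : ∃ j, k = j + 1 := ⟨k - 1, by omega⟩
        rw [pow_succ, ← mul_assoc, mul_assoc _ x₁ e, h.xe]
      · rwa [mul_assoc, ← pow_succ]

/-- The common kernel of two of the maps `polT x₁ · (j q + 1)` is trivial. -/
theorem InvOn.eq_zero_of_polT [CharZero F] {e x₁ v w : Matrix (Fin n) (Fin n) F}
    (h : InvOn e x₁ v) (hwe : w * e = w) {q : ℕ}
    (h1 : polT x₁ w (q + 1) = 0) (h2 : polT x₁ w (2 * q + 1) = 0) : w = 0 := by
  have e1 : w * x₁ ^ (q + 1) = x₁ ^ (q + 1) * w := by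
    have := mul_polT_sub x₁ w (q + 1)
    rwa [h1, mul_zero, zero_mul, zero_add, zero_add] at this
  have e2 : w * x₁ ^ (2 * q + 1) = x₁ ^ (2 * q + 1) * w := by
    have := mul_polT_sub x₁ w (2 * q + 1)
    rwa [h2, mul_zero, zero_mul, zero_add, zero_add] at this
  have e3 : x₁ ^ q * w = w * x₁ ^ q := by
    have h3 : (x₁ ^ q * w - w * x₁ ^ q) * x₁ ^ (q + 1) = 0 := by
      rw [sub_mul, mul_assoc, e1, ← mul_assoc, ← pow_add, mul_assoc, ← pow_add,
        show q + (q + 1) = 2 * q + 1 by ring, e2, sub_self]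
    have h4 : (x₁ ^ q * w - w * x₁ ^ q) * e = x₁ ^ q * w - w * x₁ ^ q := by
      rw [sub_mul, mul_assoc, hwe]
      congr 1
      rcases Nat.eq_zero_or_pos q with hq | hq
      · subst hq; rw [pow_zero, mul_one, hwe]
      · obtain ⟨j, rfl⟩ : ∃ j, q = j + 1 := ⟨q - 1, by omega⟩
        rw [pow_succ, ← mul_assoc, mul_assoc _ x₁ e, h.xe]
    exact sub_eq_zero.mp (h.pow_right_cancel h4 _ h3)
  have e4 : x₁ * w = w * x₁ := by
    have h3 : (x₁ * w - w * x₁) * x₁ ^ q = 0 := by
      rw [sub_mul, mul_assoc, ← e3, ← mul_assoc, ← pow_succ', ← e1, mul_assoc, ← pow_succ',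
        sub_self]
    have h4 : (x₁ * w - w * x₁) * e = x₁ * w - w * x₁ := by
      rw [sub_mul, mul_assoc, hwe, mul_assoc, h.xe]
    exact sub_eq_zero.mp (h.pow_right_cancel h4 _ h3)
  have e5 : ∀ i, x₁ ^ i * w = w * x₁ ^ i := by
    intro i
    induction i with
    | zero => rw [pow_zero, one_mul, mul_one]
    | succ i ih => rw [pow_succ, mul_assoc, e4, ← mul_assoc, ih, mul_assoc, ← pow_succ]
  have e6 : polT x₁ w (q + 1) = ((q + 1 : ℕ) : F) • (w * x₁ ^ q) := by
    rw [polT]
    have : ∀ i ∈ Finset.range (q + 1), x₁ ^ i * w * x₁ ^ (q + 1 - 1 - i) = w * x₁ ^ q := by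
      intro i hi
      rw [Finset.mem_range] at hi
      rw [e5, mul_assoc, ← pow_add]
      congr 2
      omega
    rw [Finset.sum_congr rfl this, Finset.sum_const, Finset.card_range]
    rw [Nat.cast_smul_eq_nsmul]
  rw [h1] at e6
  have e7 : w * x₁ ^ q = 0 := by
    rcases smul_eq_zero.mp e6.symm with h0 | h0
    · exact absurd h0 (by exact_mod_cast Nat.succ_ne_zero q)
    · exact h0
  exact h.pow_right_cancel hwe _ e7

theorem commute_aeval_pow (x : Matrix (Fin n) (Fin n) F) (q : ℕ) (p : F[X]) :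
    Commute x (aeval (x ^ q) p) := by
  rw [aeval_eq_sum_range]
  exact Commute.sum_right _ _ _ fun i _ =>
    (((Commute.refl x).pow_right q).pow_right i).smul_right _

/-- The idempotent and partial inverse attached to a matrix, as polynomials in its `q`-th power. -/
theorem exists_invOn {q : ℕ} (hq : 0 < q) (x : Matrix (Fin n) (Fin n) F) :
    ∃ (e v : Matrix (Fin n) (Fin n) F) (a : F[X]), InvOn e (x * e) v ∧
      e = aeval (x ^ q) (a * X ^ (n + 1)) ∧ x ^ n * (1 - e) = 0 ∧ (1 - e) * x ^ n = 0 ∧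
      Commute x e := by
  obtain ⟨a, he, hn⟩ := exists_fitting (x ^ q)
  set e := aeval (x ^ q) (a * X ^ (n + 1)) with hee
  have hcomm : Commute x e := commute_aeval_pow x q _
  have hw : ∃ w, Commute x w ∧ Commute w e ∧ x ^ q * w = e := by
    refine ⟨aeval (x ^ q) (a * X ^ n), ?_, ?_, ?_⟩
    · exact commute_aeval_pow x q _
    · show _ * _ = _ * _
      rw [hee, ← map_mul, ← map_mul, mul_comm]
    · rw [hee]
      nth_rewrite 1 [← aeval_X (R := F) (x ^ q)]
      rw [← map_mul]
      congr 1
      rw [pow_succ]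
      ring
  obtain ⟨w, hxw, hwe, hxqw⟩ := hw
  obtain ⟨p, rfl⟩ : ∃ p, q = p + 1 := ⟨q - 1, by omega⟩
  have hidem : e * e = e := he
  have hpe : Commute (x ^ p) e := hcomm.pow_left p
  refine ⟨e, x ^ p * w * e, a, ⟨hidem, ?_, ?_, ?_, ?_, ?_, ?_⟩, rfl, ?_, ?_, hcomm⟩
  · rw [← mul_assoc, ← hcomm.eq, mul_assoc, hidem]
  · rw [mul_assoc, hidem]
  · rw [← mul_assoc, ← mul_assoc, ← hpe.eq, mul_assoc (x ^ p), ← hwe.eq, ← mul_assoc, mul_assoc,
      hidem]
  · rw [mul_assoc, hidem]
  · calc x * e * (x ^ p * w * e) = x * (e * x ^ p) * w * e := by simp only [mul_assoc]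
      _ = x * (x ^ p * e) * w * e := by rw [hpe.eq]
      _ = x ^ (p + 1) * (e * w) * e := by rw [pow_succ']; simp only [mul_assoc]
      _ = x ^ (p + 1) * (w * e) * e := by rw [hwe.eq]
      _ = (x ^ (p + 1) * w) * (e * e) := by simp only [mul_assoc]
      _ = e := by rw [hxqw, hidem, hidem]
  · calc x ^ p * w * e * (x * e) = x ^ p * w * (e * x) * e := by simp only [mul_assoc]
      _ = x ^ p * w * (x * e) * e := by rw [hcomm.eq]
      _ = x ^ p * (w * x) * (e * e) := by simp only [mul_assoc]
      _ = x ^ p * (x * w) * (e * e) := by rw [hxw.eq]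
      _ = (x ^ (p + 1) * w) * (e * e) := by rw [pow_succ]; simp only [mul_assoc]
      _ = e := by rw [hxqw, hidem, hidem]
  · apply pow_mul_eq_zero x (1 - e) ((p + 1) * n)
    rw [pow_mul]
    exact hn
  · apply mul_pow_eq_zero x (1 - e) ((p + 1) * n)
    rw [pow_mul]
    have h3 : Commute (x ^ (p + 1)) (1 - e) :=
      (Commute.one_right _).sub_right (hcomm.pow_left _)
    rw [← (h3.pow_left n).eq]
    exact hn

end

end Pool.Agent.Lib.MP_64d474_lc
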