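import Mathlib
import Pool.Agent.Lib.MP_64d474_lc.PowSep

/-!
Spaces of matrices closed under `k`-th powers: the reduction step.
-/

open Matrix Polynomial

namespace Pool.Agent.Lib.MP_64d474_lc

section

variable {F : Type*} [Field F] {n : ℕ}

theorem mul_pow_idem {u e : Matrix (Fin n) (Fin n) F} (hue : Commute u e) (he : e * e = e) (i : ℕ) :
    (u * e) ^ (i + 1) = u ^ (i + 1) * e := by
  rw [hue.mul_pow, (show IsIdempotentElem e from he).pow_succ_eq]

theorem aeval_mul_idem {u e : Matrix (Fin n) (Fin n) F} (hue : Commute u e) (he : e * e = e)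
    (p : F[X]) (hp : p.coeff 0 = 0) : aeval (u * e) p = aeval u p * e := by
  rw [aeval_eq_sum_range, aeval_eq_sum_range, Finset.sum_mul]
  refine Finset.sum_congr rfl fun i _ => ?_
  rcases Nat.eq_zero_or_pos i with hi | hi
  · subst hi
    rw [hp, zero_smul, zero_smul, zero_mul]
  · obtain ⟨j, rfl⟩ : ∃ j, i = j + 1 := ⟨i - 1, by omega⟩
    rw [mul_pow_idem hue he, Matrix.smul_mul]

theorem mul_polT_of_commute {e x w : Matrix (Fin n) (Fin n) F} (h : Commute e x) (j : ℕ) :
    e * polT x w j = polT x (e * w) j := by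
  rw [polT, polT, Finset.mul_sum]
  refine Finset.sum_congr rfl fun i _ => ?_
  rw [← mul_assoc, ← mul_assoc, (h.pow_right i).eq, mul_assoc (x ^ i) e w]

theorem polT_mul_of_commute {e x w : Matrix (Fin n) (Fin n) F} (h : Commute e x) (j : ℕ) :
    polT x w j * e = polT x (w * e) j := by
  rw [polT, polT, Finset.sum_mul]
  refine Finset.sum_congr rfl fun i _ => ?_
  rw [mul_assoc, ← (h.pow_right _).eq, ← mul_assoc, ← mul_assoc]

theorem polT_zero_right (x : Matrix (Fin n) (Fin n) F) (j : ℕ) : polT x 0 j = 0 := by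
  have := map_zero (polTMap x j)
  exact this

/-- The null block component stays in the space. -/
theorem PowClosed.sep [CharZero F] {q : ℕ} (hq : 0 < q)
    {V : Submodule F (Matrix (Fin n) (Fin n) F)} (hV : PowClosed (q + 1) V)
    {x y e v : Matrix (Fin n) (Fin n) F} {a : F[X]} (hx : x ∈ V) (hy : y ∈ V)
    (hinv : InvOn e (x * e) v) (he : e = aeval (x ^ q) (a * X ^ (n + 1))) (hxe : Commute x e) :
    (1 - e) * y * (1 - e) ∈ V := by
  have hx1 : x * e ∈ V := by
    rw [he]; exact hV.mul_aeval_mem hx _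
  set x₁ := x * e with hx₁
  have hee : e * e = e := hinv.idem
  have h10 : (1 - e) * x₁ = 0 := by rw [sub_mul, one_mul, hinv.ex, sub_self]
  have h01 : x₁ * (1 - e) = 0 := by rw [mul_sub, mul_one, hinv.xe, sub_self]
  have hex1 : Commute e x₁ := by
    show e * x₁ = x₁ * e
    rw [hinv.ex, hinv.xe]
  have h11 : (1 - e) * (1 - e) = 1 - e := by
    rw [mul_sub, mul_one, sub_mul, one_mul, hee, sub_self, sub_zero]
  set ν : F[X] := a * X ^ (n + 1) with hν
  have hν0 : ν.coeff 0 = 0 := by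
    rw [hν, mul_coeff_zero, coeff_X_pow, if_neg (by omega), mul_zero]
  have hνe : aeval (x₁ ^ q) ν = e := by
    obtain ⟨p, rfl⟩ : ∃ p, q = p + 1 := ⟨q - 1, by omega⟩
    rw [hx₁, mul_pow_idem hxe hee, aeval_mul_idem (hxe.pow_left _) hee _ hν0, ← he, hee]
  have hsum : ∑ j ∈ Finset.range (ν.natDegree + 1), ν.coeff j • x₁ ^ (j * q) = e := by
    rw [← hνe, aeval_eq_sum_range]
    exact Finset.sum_congr rfl fun j _ => by rw [← pow_mul, mul_comm q j]
  set y' := y - ∑ j ∈ Finset.range (ν.natDegree + 1), ν.coeff j • polT x₁ y (j * q + 1) with hy'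
  have hy'V : y' ∈ V := V.sub_mem hy
    (V.sum_mem fun j _ => V.smul_mem _ ((hV.powClosed j).polT_mem hx1 hy))
  set y0 := (1 - e) * y * (1 - e) with hy0
  have hl : (1 - e) * y' = y0 := by
    rw [hy', mul_sub, Finset.mul_sum]
    have : ∀ j ∈ Finset.range (ν.natDegree + 1), (1 - e) * (ν.coeff j • polT x₁ y (j * q + 1)) =
        (1 - e) * y * (ν.coeff j • x₁ ^ (j * q)) := by
      intro j _
      rw [Matrix.mul_smul, Matrix.mul_smul, polT_succ', mul_add, ← mul_assoc, h10, zero_mul,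
        zero_add, ← mul_assoc]
    rw [Finset.sum_congr rfl this, ← Finset.mul_sum, hsum, hy0, mul_sub, mul_one]
  have hr : y' * (1 - e) = y0 := by
    rw [hy', sub_mul, Finset.sum_mul]
    have : ∀ j ∈ Finset.range (ν.natDegree + 1), (ν.coeff j • polT x₁ y (j * q + 1)) * (1 - e) =
        (ν.coeff j • x₁ ^ (j * q)) * (y * (1 - e)) := by
      intro j _
      rw [Matrix.smul_mul, Matrix.smul_mul, polT_succ, add_mul, mul_assoc _ x₁, h01, mul_zero,
        zero_add, mul_assoc]
    rw [Finset.sum_congr rfl this, ← Finset.sum_mul, hsum, hy0, sub_mul, one_mul, sub_mul,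
      mul_assoc]
  have hy0l : (1 - e) * y0 = y0 := by
    rw [hy0, ← mul_assoc, ← mul_assoc, h11]
  have hy0r : y0 * (1 - e) = y0 := by
    rw [hy0, mul_assoc, h11]
  set z := y' - y0 with hz
  have hez : e * z = z := by
    have : (1 - e) * z = 0 := by rw [hz, mul_sub, hl, hy0l, sub_self]
    rw [sub_mul, one_mul, sub_eq_zero] at this
    exact this.symm
  have hze : z * e = z := by
    have : z * (1 - e) = 0 := by rw [hz, sub_mul, hr, hy0r, sub_self]
    rw [mul_sub, mul_one, sub_eq_zero] at this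
    exact this.symm
  have hpy0 : ∀ j, 0 < j → polT x₁ y0 (j * q + 1) = 0 := by
    intro j hj
    have hxy : x₁ * y0 = 0 := by rw [hy0, ← mul_assoc, ← mul_assoc, h01, zero_mul, zero_mul]
    have hyx : y0 * x₁ = 0 := by rw [hy0, mul_assoc, h10, mul_zero]
    rw [polT_succ', ← mul_polT_comm, hxy, polT_zero_right, zero_add]
    obtain ⟨i, hi⟩ : ∃ i, j * q = i + 1 := ⟨j * q - 1, by have := Nat.mul_pos hj hq; omega⟩
    rw [hi, pow_succ', ← mul_assoc, hyx, zero_mul]
  have hpz : ∀ j, 0 < j → polT x₁ z (j * q + 1) ∈ V := by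
    intro j hj
    have h1 : polT x₁ z (j * q + 1) = polT x₁ y' (j * q + 1) - polT x₁ y0 (j * q + 1) :=
      map_sub (polTMap x₁ (j * q + 1)) y' y0
    rw [h1, hpy0 j hj, sub_zero]
    exact (hV.powClosed j).polT_mem hx1 hy'V
  -- the block subspace
  let V1 : Submodule F (Matrix (Fin n) (Fin n) F) :=
    { carrier := {w | w ∈ V ∧ e * w = w ∧ w * e = w}
      add_mem' := fun {a b} ha hb => ⟨V.add_mem ha.1 hb.1, by rw [mul_add, ha.2.1, hb.2.1],
        by rw [add_mul, ha.2.2, hb.2.2]⟩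
      zero_mem' := ⟨V.zero_mem, mul_zero _, zero_mul _⟩
      smul_mem' := fun c {a} ha => ⟨V.smul_mem c ha.1, by rw [Matrix.mul_smul, ha.2.1],
        by rw [Matrix.smul_mul, ha.2.2]⟩ }
  have hblock : ∀ (j : ℕ) (w : Matrix (Fin n) (Fin n) F), e * w = w → w * e = w →
      e * polT x₁ w j = polT x₁ w j ∧ polT x₁ w j * e = polT x₁ w j := by
    intro j w h1 h2
    exact ⟨by rw [mul_polT_of_commute hex1, h1], by rw [polT_mul_of_commute hex1, h2]⟩
  have hV1 : ∀ j : ℕ, ∀ w ∈ V1, polTMap x₁ (j * q + 1) w ∈ V1 := by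
    intro j w hw
    obtain ⟨h1, h2⟩ := hblock (j * q + 1) w hw.2.1 hw.2.2
    exact ⟨(hV.powClosed j).polT_mem hx1 hw.1, h1, h2⟩
  have hzmem : z ∈ V1 := by
    have h1 := hV1 1
    have h2 := hV1 2
    rw [one_mul] at h1
    refine mem_of_commuting (polTMap x₁ (q + 1)) (polTMap x₁ (2 * q + 1))
      (fun w => polT_polT_comm x₁ w (2 * q + 1) (q + 1)) V1 h1 h2 z ?_ ?_ ?_
    · obtain ⟨h3, h4⟩ := hblock (q + 1) z hez hze
      have h5 := hpz 1 one_pos
      rw [one_mul] at h5
      exact ⟨h5, h3, h4⟩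
    · obtain ⟨h3, h4⟩ := hblock (2 * q + 1) z hez hze
      exact ⟨hpz 2 two_pos, h3, h4⟩
    · intro w hw h3 h4
      have hwe : w * e = w := by
        obtain ⟨a, ha, b, hb, rfl⟩ := Submodule.mem_sup.mp hw
        obtain ⟨c, rfl⟩ := Submodule.mem_span_singleton.mp hb
        rw [add_mul, ha.2.2, Matrix.smul_mul, hze]
      exact hinv.eq_zero_of_polT hwe h3 h4
  have : y0 = y' - z := by rw [hz]; abel
  rw [this]
  exact V.sub_mem hy'V hzmem.1

/-- Every invertible matrix has an inverse that is a polynomial in it. -/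
theorem exists_poly_inv (u : Matrix (Fin n) (Fin n) F) (hu : u.det ≠ 0) :
    ∃ h : F[X], u * aeval u h = 1 := by
  have h0 : u.charpoly.coeff 0 ≠ 0 := by
    intro h
    apply hu
    rw [Matrix.det_eq_sign_charpoly_coeff, h, mul_zero]
  have h1 := Matrix.aeval_self_charpoly u
  rw [← divX_mul_X_add u.charpoly, map_add, map_mul, aeval_X, aeval_C] at h1
  refine ⟨C (-(u.charpoly.coeff 0)⁻¹) * u.charpoly.divX, ?_⟩
  have h2 : aeval u u.charpoly.divX * u = -algebraMap F _ (u.charpoly.coeff 0) :=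
    eq_neg_of_add_eq_zero_left h1
  have h3 : Commute u (aeval u u.charpoly.divX) := by
    have := commute_aeval_pow u 1 u.charpoly.divX
    rwa [pow_one] at this
  rw [map_mul, aeval_C, ← mul_assoc, ← (Algebra.commutes (-(u.charpoly.coeff 0)⁻¹) u), mul_assoc,
    h3.eq, h2, mul_neg, ← map_mul, neg_mul, inv_mul_cancel₀ h0, map_neg, neg_neg, map_one]

end

end Pool.Agent.Lib.MP_64d474_lc
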