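import Mathlib
import Pool.Agent.Lib.MP_64d474_lc.PowMain

/-!
Spaces of matrices closed under `k`-th powers: the greedy procedure.
-/

open Matrix Polynomial

namespace Pool.Agent.Lib.MP_64d474_lc

section

variable {F : Type*} [Field F] {n : ℕ}

theorem eval_det_map (M : Matrix (Fin n) (Fin n) F[X]) (t : F) :
    eval t M.det = (M.map (eval t)).det := by
  have := RingHom.map_det (evalRingHom t) M
  rw [coe_evalRingHom] at this
  rw [this]
  rfl

theorem add_pow_orth {E w : Matrix (Fin n) (Fin n) F} (hE : E * E = E) (h1 : E * w = 0)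
    (h2 : w * E = 0) (i : ℕ) : (E + w) ^ (i + 1) = E + w ^ (i + 1) := by
  induction i with
  | zero => rw [zero_add, pow_one, pow_one]
  | succ i ih =>
    have h3 : w ^ (i + 1) * E = 0 := by rw [pow_succ, mul_assoc, h2, mul_zero]
    rw [pow_succ, ih, add_mul, mul_add, mul_add, hE, h1, h3, ← pow_succ, add_zero, zero_add]

theorem InvOn.pow_mul_pow {e x₁ v : Matrix (Fin n) (Fin n) F} (h : InvOn e x₁ v) (i : ℕ) :
    x₁ ^ (i + 1) * v ^ (i + 1) = e := by
  induction i with
  | zero => rw [zero_add, pow_one, pow_one, h.xv]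
  | succ i ih =>
    have h1 : e * v ^ (i + 1) = v ^ (i + 1) := by rw [pow_succ', ← mul_assoc, h.ev]
    rw [pow_succ x₁, pow_succ' v, mul_assoc, ← mul_assoc x₁ v, h.xv, h1, ih]

theorem InvOn.e_pow {e x₁ v : Matrix (Fin n) (Fin n) F} (h : InvOn e x₁ v) (i : ℕ) :
    e * x₁ ^ (i + 1) = x₁ ^ (i + 1) := by rw [pow_succ', ← mul_assoc, h.ex]

theorem InvOn.pow_e {e x₁ v : Matrix (Fin n) (Fin n) F} (h : InvOn e x₁ v) (i : ℕ) :
    x₁ ^ (i + 1) * e = x₁ ^ (i + 1) := by rw [pow_succ, mul_assoc, h.xe]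

theorem InvOn.symm {e x₁ v : Matrix (Fin n) (Fin n) F} (h : InvOn e x₁ v) : InvOn e v x₁ :=
  ⟨h.idem, h.ev, h.ve, h.ex, h.xe, h.vx, h.xv⟩

theorem det_ne_zero_of_mul_eq_one {A B : Matrix (Fin n) (Fin n) F} (h : A * B = 1) :
    A.det ≠ 0 := by
  intro h0
  have := congrArg Matrix.det h
  rw [Matrix.det_mul, h0, zero_mul, Matrix.det_one] at this
  exact zero_ne_one this

theorem exists_eval_ne_zero [Infinite F] {p : F[X]} (hp : p ≠ 0) : ∃ t, p.eval t ≠ 0 := by
  by_contra hcon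
  push Not at hcon
  exact hp (Polynomial.funext fun s => by rw [hcon s, eval_zero])

theorem PowClosed.step [CharZero F] {q : ℕ} (hq : 0 < q)
    {V : Submodule F (Matrix (Fin n) (Fin n) F)} (hV : PowClosed (q + 1) V)
    {E : Matrix (Fin n) (Fin n) F} (hE : E * E = E) (hEV : ∀ w ∈ V, E * w = 0 ∧ w * E = 0)
    {x e v : Matrix (Fin n) (Fin n) F} {a : F[X]} (hx : x ∈ V)
    (hinv : InvOn e (x * e) v) (he : e = aeval (x ^ q) (a * X ^ (n + 1))) (hxe : Commute x e)
    {Z : Matrix (Fin n) (Fin n) F} (hZ : Z ∈ V) (hdet : (E + Z).det ≠ 0) :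
    ∃ y ∈ V, e * y = 0 ∧ y * e = 0 ∧ (E + e + y).det ≠ 0 := by
  have hx1 : x * e ∈ V := by
    rw [he]; exact hV.mul_aeval_mem hx _
  have hsep := fun y hy => hV.sep hq (y := y) hx hy hinv he hxe
  set x₁ := x * e with hx₁
  have hee : e * e = e := hinv.idem
  obtain ⟨hEx, hxE⟩ := hEV _ hx1
  have hEe : E * e = 0 := by rw [← hinv.xv, ← mul_assoc, hEx, zero_mul]
  have heE : e * E = 0 := by rw [← hinv.vx, mul_assoc, hxE, mul_zero]
  have he' : (E + e) * (E + e) = E + e := by
    rw [add_mul, mul_add, mul_add, hE, hEe, heE, hee, add_zero, zero_add]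
  obtain ⟨p, rfl⟩ : ∃ p, q = p + 1 := ⟨q - 1, by omega⟩
  -- first determinant
  have hD1 : (pen (E + x₁) Z).det ≠ 0 := by
    have h0 : (pen (E + Z) x₁).det ≠ 0 := by
      intro h
      have := eval_det_map (pen (E + Z) x₁) 0
      rw [h, eval_zero, pen_eval, zero_smul, add_zero] at this
      exact hdet this.symm
    obtain ⟨s, hs⟩ := exists_eval_ne_zero (mul_ne_zero X_ne_zero h0)
    rw [eval_mul, eval_X, eval_det_map, pen_eval] at hs
    have hs0 : s ≠ 0 := left_ne_zero_of_mul hs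
    have hs1 := right_ne_zero_of_mul hs
    intro h
    have h1 := eval_det_map (pen (E + x₁) Z) s⁻¹
    rw [h, eval_zero, pen_eval] at h1
    have h2 : E + x₁ + s⁻¹ • Z = (E + s⁻¹ • (1 - E)) * (E + Z + s • x₁) := by
      have e1 : E * (E + Z + s • x₁) = E := by
        rw [mul_add, mul_add, hE, (hEV _ hZ).1, Matrix.mul_smul, hEx, smul_zero, add_zero,
          add_zero]
      rw [add_mul, e1, Matrix.smul_mul, sub_mul, one_mul, e1]
      rw [show E + Z + s • x₁ - E = Z + s • x₁ by abel, smul_add, smul_smul,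
        inv_mul_cancel₀ hs0, one_smul]
      abel
    rw [h2, Matrix.det_mul] at h1
    have h3 : (E + s⁻¹ • (1 - E)).det ≠ 0 := by
      apply det_ne_zero_of_mul_eq_one (B := E + s • (1 - E))
      have e2 : E * (1 - E) = 0 := by rw [mul_sub, mul_one, hE, sub_self]
      have e3 : (1 - E) * E = 0 := by rw [sub_mul, one_mul, hE, sub_self]
      have e4 : (1 - E) * (1 - E) = 1 - E := by
        rw [mul_sub, mul_one, e3, sub_zero]
      rw [add_mul, mul_add, mul_add, hE, Matrix.mul_smul, e2, smul_zero, Matrix.smul_mul, e3,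
        smul_zero, Matrix.smul_mul, Matrix.mul_smul, e4, smul_smul, inv_mul_cancel₀ hs0,
        one_smul]
      abel
    exact (mul_ne_zero h3 hs1) h1.symm
  -- second determinant
  have hD2 : ((1 - (E + e)).map C + (E + e).map C * (pen (E + x₁) Z) ^ (2 * p + 1) *
      (E + e).map C).det ≠ 0 := by
    intro h
    have h1 := eval_det_map ((1 - (E + e)).map C + (E + e).map C *
      (pen (E + x₁) Z) ^ (2 * p + 1) * (E + e).map C) 0
    rw [h, eval_zero] at h1
    have h2 : ((1 - (E + e)).map C + (E + e).map C * (pen (E + x₁) Z) ^ (2 * p + 1) *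
        (E + e).map C).map (eval 0) =
        (1 - (E + e)) + (E + e) * (E + x₁) ^ (2 * p + 1) * (E + e) := by
      rw [Matrix.map_add _ (fun a b => eval_add), map_eval_mul, map_eval_mul, map_eval_pow,
        map_eval_C, map_eval_C, pen_eval, zero_smul, add_zero]
    rw [h2, add_pow_orth hE hEx hxE] at h1
    have h3 : (E + e) * (E + x₁ ^ (2 * p + 1)) * (E + e) = E + x₁ ^ (2 * p + 1) := by
      have e1 : E * x₁ ^ (2 * p + 1) = 0 := by rw [pow_succ', ← mul_assoc, hEx, zero_mul]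
      have e2 : x₁ ^ (2 * p + 1) * E = 0 := by rw [pow_succ, mul_assoc, hxE, mul_zero]
      have e3 : (E + e) * (E + x₁ ^ (2 * p + 1)) = E + x₁ ^ (2 * p + 1) := by
        rw [add_mul, mul_add, mul_add, hE, e1, heE, hinv.e_pow, add_zero, zero_add]
      rw [e3, add_mul, mul_add, mul_add, hE, e2, hEe, hinv.pow_e, add_zero, zero_add]
    rw [h3] at h1
    have h4 : (1 - (E + e) + (E + x₁ ^ (2 * p + 1))).det ≠ 0 := by
      apply det_ne_zero_of_mul_eq_one (B := (1 - e) + v ^ (2 * p + 1))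
      have e1 : (1 - e) * v ^ (2 * p + 1) = 0 := by
        rw [sub_mul, one_mul, hinv.symm.e_pow, sub_self]
      have e2 : x₁ ^ (2 * p + 1) * (1 - e) = 0 := by
        rw [mul_sub, mul_one, hinv.pow_e, sub_self]
      have e3 : (1 - e) * (1 - e) = 1 - e := by
        rw [mul_sub, mul_one, sub_mul, one_mul, hee, sub_self, sub_zero]
      rw [show 1 - (E + e) + (E + x₁ ^ (2 * p + 1)) = (1 - e) + x₁ ^ (2 * p + 1) by abel,
        add_mul, mul_add, mul_add, e1, e2, e3, hinv.pow_mul_pow]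
      abel
    exact h4 h1.symm
  obtain ⟨t, ht⟩ := exists_eval_ne_zero (mul_ne_zero hD1 hD2)
  rw [eval_mul, eval_det_map, eval_det_map, Matrix.map_add _ (fun a b => eval_add), map_eval_mul,
    map_eval_mul, map_eval_pow, map_eval_C, map_eval_C, pen_eval, add_assoc] at ht
  have ht1 := left_ne_zero_of_mul ht
  have ht2 := right_ne_zero_of_mul ht
  set Zt := x₁ + t • Z with hZt
  have hZtV : Zt ∈ V := V.add_mem hx1 (V.smul_mem t hZ)
  obtain ⟨hEZ, hZE⟩ := hEV _ hZtV
  set Y := E + Zt with hY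
  have hYq : Y ^ (p + 1) = E + Zt ^ (p + 1) := add_pow_orth hE hEZ hZE p
  obtain ⟨h, hh⟩ := exists_poly_inv (Y ^ (p + 1)) (by rw [Matrix.det_pow]; exact pow_ne_zero _ ht1)
  set G := aeval (Y ^ (p + 1)) h with hG
  have hYG : Commute Y G := commute_aeval_pow Y (p + 1) h
  set W := Zt * aeval (Zt ^ (p + 1)) (h ^ 2) with hW
  have hWV : W ∈ V := hV.mul_aeval_mem hZtV _
  have hEG : E * G = E := by
    have h1 : E * Y ^ (p + 1) = E := by
      rw [hYq, mul_add, hE, pow_succ', ← mul_assoc, hEZ, zero_mul, add_zero]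
    have h2 : E * (Y ^ (p + 1) * G) = E * G := by rw [← mul_assoc, h1]
    rw [hh, mul_one] at h2
    exact h2.symm
  have hZG : Zt * (G * G) = W := by
    have h1 : G * G = aeval (Y ^ (p + 1)) (h ^ 2) := by rw [map_pow, pow_two]
    have hi : ∀ i : ℕ, Zt * (Y ^ (p + 1)) ^ i = Zt * (Zt ^ (p + 1)) ^ i := by
      intro i
      induction i with
      | zero => rw [pow_zero, pow_zero]
      | succ i ih =>
        rw [pow_succ, ← mul_assoc, ih, hYq, mul_add, pow_succ (Zt ^ (p + 1)) i, mul_assoc Zt]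
        have h2 : Zt * (Zt ^ (p + 1)) ^ i * E = 0 := by
          have h3 : Zt * (Zt ^ (p + 1)) ^ i = (Zt ^ (p + 1)) ^ i * Zt :=
            (((Commute.refl Zt).pow_right (p + 1)).pow_right i).eq
          rw [h3, mul_assoc, hZE, mul_zero]
        rw [mul_assoc] at h2
        rw [h2, zero_add, mul_assoc]
    rw [h1, hW, aeval_eq_sum_range, aeval_eq_sum_range, Finset.mul_sum, Finset.mul_sum]
    refine Finset.sum_congr rfl fun i _ => ?_
    rw [Matrix.mul_smul, Matrix.mul_smul, hi]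
  have hR : Y ^ (2 * p + 1) * (E + W) = 1 := by
    have h1 : E + W = Y * (G * G) := by
      rw [← hZG, hY, add_mul E Zt (G * G), ← mul_assoc E G G, hEG, hEG]
    have h2 : Y ^ (2 * p + 1) * Y = Y ^ (p + 1) * Y ^ (p + 1) := by
      rw [← pow_succ, ← pow_add]; congr 1; ring
    have h3 : Commute (Y ^ (p + 1)) G := hYG.pow_left _
    rw [h1, ← mul_assoc, h2, mul_assoc, ← mul_assoc (Y ^ (p + 1)) G G, h3.eq, mul_assoc G, hh,
      mul_one, hh]
  have h01 : e * (1 - e) = 0 := by rw [mul_sub, mul_one, hee, sub_self]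
  have h10 : (1 - e) * e = 0 := by rw [sub_mul, one_mul, hee, sub_self]
  refine ⟨(1 - e) * W * (1 - e), hsep W hWV, ?_, ?_, ?_⟩
  · rw [← mul_assoc, ← mul_assoc, h01, zero_mul, zero_mul]
  · rw [mul_assoc, h10, mul_zero]
  · intro h0
    obtain ⟨w, hw0, hw⟩ := Matrix.exists_mulVec_eq_zero_iff.mpr h0
    apply hw0
    set y := (1 - e) * W * (1 - e) with hy
    have hyV : y ∈ V := hsep W hWV
    have hey : e * y = 0 := by
      rw [hy, ← mul_assoc, ← mul_assoc, h01, zero_mul, zero_mul]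
    have h1 : (E + e) *ᵥ w = 0 := by
      have h2 : (E + e) * (E + e + y) = E + e := by
        rw [mul_add, he', add_mul E e y, (hEV _ hyV).1, hey, add_zero, add_zero]
      rw [← h2, ← Matrix.mulVec_mulVec, hw, Matrix.mulVec_zero]
    have h2 : y *ᵥ w = 0 := by
      rw [Matrix.add_mulVec, h1, zero_add] at hw
      exact hw
    have h3 : e *ᵥ w = 0 := by
      have : e * (E + e) = e := by rw [mul_add, heE, hee, zero_add]
      rw [← this, ← Matrix.mulVec_mulVec, h1, Matrix.mulVec_zero]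
    have h4 : E *ᵥ w = 0 := by
      have : E * (E + e) = E := by rw [mul_add, hEe, hE, add_zero]
      rw [← this, ← Matrix.mulVec_mulVec, h1, Matrix.mulVec_zero]
    have h5 : e *ᵥ (W *ᵥ w) = W *ᵥ w := by
      have h6 : (1 - e) *ᵥ (W *ᵥ w) = 0 := by
        have h7 : (1 - e) *ᵥ w = w := by rw [Matrix.sub_mulVec, Matrix.one_mulVec, h3, sub_zero]
        rw [hy, ← Matrix.mulVec_mulVec, h7, ← Matrix.mulVec_mulVec] at h2
        exact h2
      rw [Matrix.sub_mulVec, Matrix.one_mulVec, sub_eq_zero] at h6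
      exact h6.symm
    have h6 : Y ^ (2 * p + 1) *ᵥ (W *ᵥ w) = w := by
      have h7 : (E + W) *ᵥ w = W *ᵥ w := by rw [Matrix.add_mulVec, h4, zero_add]
      rw [← h7, Matrix.mulVec_mulVec, hR, Matrix.one_mulVec]
    have h7 : (E + e) *ᵥ (W *ᵥ w) = W *ᵥ w := by
      have : (E + e) * e = e := by rw [add_mul, hEe, hee, zero_add]
      conv_lhs => rw [← h5, Matrix.mulVec_mulVec, this]
      exact h5
    have h8 : (1 - (E + e) + (E + e) * Y ^ (2 * p + 1) * (E + e)) *ᵥ (W *ᵥ w) = 0 := by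
      rw [Matrix.add_mulVec, Matrix.sub_mulVec, Matrix.one_mulVec, h7, sub_self, zero_add,
        ← Matrix.mulVec_mulVec, h7, ← Matrix.mulVec_mulVec, h6, h1]
    have h9 : W *ᵥ w = 0 := by
      by_contra hne
      exact ht2 (Matrix.exists_mulVec_eq_zero_iff.mp ⟨_, hne, h8⟩)
    rw [← h6, h9, Matrix.mulVec_zero]

end

end Pool.Agent.Lib.MP_64d474_lc
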