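import Mathlib
import Pool.Agent.Lib.MP_64d474_lc.PowStep

/-!
Spaces of matrices closed under `k`-th powers: the certificate of the greedy procedure.
-/

open Matrix Polynomial

namespace Pool.Agent.Lib.MP_64d474_lc

section

variable {F : Type*} [Field F] {n : ℕ}

theorem InvOn.addOrth {e x v P S w : Matrix (Fin n) (Fin n) F} (h : InvOn e x v)
    (h' : InvOn P S w) (h1 : e * P = 0) (h2 : P * e = 0) : InvOn (e + P) (x + S) (v + w) := by
  have a1 : e * S = 0 := by rw [← h'.ex, ← mul_assoc, h1, zero_mul]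
  have a2 : S * e = 0 := by rw [← h'.xe, mul_assoc, h2, mul_zero]
  have a3 : e * w = 0 := by rw [← h'.ev, ← mul_assoc, h1, zero_mul]
  have a4 : w * e = 0 := by rw [← h'.ve, mul_assoc, h2, mul_zero]
  have b1 : P * x = 0 := by rw [← h.ex, ← mul_assoc, h2, zero_mul]
  have b2 : x * P = 0 := by rw [← h.xe, mul_assoc, h1, mul_zero]
  have b3 : P * v = 0 := by rw [← h.ev, ← mul_assoc, h2, zero_mul]
  have b4 : v * P = 0 := by rw [← h.ve, mul_assoc, h1, mul_zero]
  have c1 : x * w = 0 := by rw [← h.xe, mul_assoc, a3, mul_zero]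
  have c2 : w * x = 0 := by rw [← h.ex, ← mul_assoc, a4, zero_mul]
  have c3 : S * v = 0 := by rw [← h'.xe, mul_assoc, b3, mul_zero]
  have c4 : v * S = 0 := by rw [← h'.ex, ← mul_assoc, b4, zero_mul]
  refine ⟨?_, ?_, ?_, ?_, ?_, ?_, ?_⟩
  · rw [add_mul, mul_add, mul_add, h.idem, h'.idem, h1, h2, add_zero, zero_add]
  · rw [add_mul, mul_add, mul_add, h.ex, h'.ex, a1, b1, add_zero, zero_add]
  · rw [add_mul, mul_add, mul_add, h.xe, h'.xe, a2, b2, add_zero, zero_add]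
  · rw [add_mul, mul_add, mul_add, h.ev, h'.ev, a3, b3, add_zero, zero_add]
  · rw [add_mul, mul_add, mul_add, h.ve, h'.ve, a4, b4, add_zero, zero_add]
  · rw [add_mul, mul_add, mul_add, h.xv, h'.xv, c1, c3, add_zero, zero_add]
  · rw [add_mul, mul_add, mul_add, h.vx, h'.vx, c2, c4, add_zero, zero_add]

theorem InvOn.pow {e x v : Matrix (Fin n) (Fin n) F} (h : InvOn e x v) (i : ℕ) :
    InvOn e (x ^ (i + 1)) (v ^ (i + 1)) :=
  ⟨h.idem, h.e_pow i, h.pow_e i, h.symm.e_pow i, h.symm.pow_e i, h.pow_mul_pow i,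
    h.symm.pow_mul_pow i⟩

/-- The part of `V` annihilated on both sides by a high power of `x`. -/
def cut (V : Submodule F (Matrix (Fin n) (Fin n) F)) (x : Matrix (Fin n) (Fin n) F) :
    Submodule F (Matrix (Fin n) (Fin n) F) where
  carrier := {y | y ∈ V ∧ x ^ n * y = 0 ∧ y * x ^ n = 0}
  add_mem' := fun {a b} ha hb => ⟨V.add_mem ha.1 hb.1, by rw [mul_add, ha.2.1, hb.2.1, add_zero],
    by rw [add_mul, ha.2.2, hb.2.2, add_zero]⟩
  zero_mem' := ⟨V.zero_mem, mul_zero _, zero_mul _⟩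
  smul_mem' := fun c {a} ha => ⟨V.smul_mem c ha.1, by rw [Matrix.mul_smul, ha.2.1, smul_zero],
    by rw [Matrix.smul_mul, ha.2.2, smul_zero]⟩

theorem mem_cut {V : Submodule F (Matrix (Fin n) (Fin n) F)} {x y : Matrix (Fin n) (Fin n) F} :
    y ∈ cut V x ↔ y ∈ V ∧ x ^ n * y = 0 ∧ y * x ^ n = 0 := Iff.rfl

theorem PowClosed.cut {q : ℕ} {V : Submodule F (Matrix (Fin n) (Fin n) F)}
    (hV : PowClosed (q + 1) V) (x : Matrix (Fin n) (Fin n) F) : PowClosed (q + 1) (cut V x) := by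
  intro y hy
  refine ⟨hV y hy.1, ?_, ?_⟩
  · rw [pow_succ' y, ← mul_assoc, hy.2.1, zero_mul]
  · rw [pow_succ y, mul_assoc, hy.2.2, mul_zero]

theorem e_mul_eq_zero_iff {q : ℕ} (hq : 0 < q) {x e : Matrix (Fin n) (Fin n) F} {a : F[X]}
    (he : e = aeval (x ^ q) (a * X ^ (n + 1))) (h1 : x ^ n * (1 - e) = 0)
    (y : Matrix (Fin n) (Fin n) F) : e * y = 0 ↔ x ^ n * y = 0 := by
  constructor
  · intro h
    have : x ^ n * y = x ^ n * (1 - e) * y + x ^ n * (e * y) := by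
      rw [mul_sub, mul_one, sub_mul, mul_assoc (x ^ n) e y, sub_add_cancel]
    rw [this, h1, h, zero_mul, mul_zero, add_zero]
  · intro h
    rw [he, map_mul, map_pow, aeval_X, ← pow_mul]
    obtain ⟨c, hc⟩ : ∃ c, q * (n + 1) = c + n := by
      refine ⟨q * (n + 1) - n, ?_⟩
      have : n + 1 ≤ q * (n + 1) := Nat.le_mul_of_pos_left _ hq
      omega
    rw [hc, pow_add, mul_assoc, mul_assoc, h, mul_zero, mul_zero]

theorem mul_e_eq_zero_iff {q : ℕ} (hq : 0 < q) {x e : Matrix (Fin n) (Fin n) F} {a : F[X]}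
    (he : e = aeval (x ^ q) (a * X ^ (n + 1))) (h1 : (1 - e) * x ^ n = 0)
    (y : Matrix (Fin n) (Fin n) F) : y * e = 0 ↔ y * x ^ n = 0 := by
  constructor
  · intro h
    have : y * x ^ n = y * ((1 - e) * x ^ n) + (y * e) * x ^ n := by
      rw [sub_mul, one_mul, mul_sub, mul_assoc y e, sub_add_cancel]
    rw [this, h1, h, zero_mul, mul_zero, add_zero]
  · intro h
    rw [he, mul_comm a, map_mul, map_pow, aeval_X, ← pow_mul]
    obtain ⟨c, hc⟩ : ∃ c, q * (n + 1) = n + c := by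
      refine ⟨q * (n + 1) - n, ?_⟩
      have : n + 1 ≤ q * (n + 1) := Nat.le_mul_of_pos_left _ hq
      omega
    rw [hc, pow_add, mul_assoc, ← mul_assoc, h, zero_mul]

theorem pow_eq_mul_idem_pow {x e : Matrix (Fin n) (Fin n) F} (hxe : Commute x e) (hee : e * e = e)
    (h1 : x ^ n * (1 - e) = 0) (m : ℕ) : x ^ (n + m + 1) = (x * e) ^ (n + m + 1) := by
  rw [mul_pow_idem hxe hee]
  have h2 : x ^ (n + m + 1) * (1 - e) = 0 := by
    rw [show n + m + 1 = (m + 1) + n by ring, pow_add, mul_assoc, h1, mul_zero]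
  rw [mul_sub, mul_one, sub_eq_zero] at h2
  exact h2

theorem step_conv {V : Submodule F (Matrix (Fin n) (Fin n) F)}
    {E : Matrix (Fin n) (Fin n) F} (hEV : ∀ w ∈ V, E * w = 0 ∧ w * E = 0)
    {e x₁ v : Matrix (Fin n) (Fin n) F} (hx : x₁ ∈ V) (hinv : InvOn e x₁ v)
    {y : Matrix (Fin n) (Fin n) F} (h1 : e * y = 0)
    (hdet : (E + e + y).det ≠ 0) : (E + (x₁ + y)).det ≠ 0 := by
  obtain ⟨hEx, hxE⟩ := hEV _ hx
  have heE : e * E = 0 := by rw [← hinv.vx, mul_assoc, hxE, mul_zero]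
  have hxy : x₁ * y = 0 := by rw [← hinv.xe, mul_assoc, h1, mul_zero]
  have key : E + (x₁ + y) = (1 - e + x₁) * (E + e + y) := by
    rw [add_mul, sub_mul, one_mul, mul_add e, mul_add e, heE, hinv.idem, h1, mul_add x₁,
      mul_add x₁, hxE, hinv.xe, hxy]
    abel
  rw [key, Matrix.det_mul]
  refine mul_ne_zero ?_ hdet
  apply det_ne_zero_of_mul_eq_one (B := 1 - e + v)
  have a1 : (1 - e) * (1 - e) = 1 - e := by
    rw [mul_sub, mul_one, sub_mul, one_mul, hinv.idem, sub_self, sub_zero]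
  have a2 : (1 - e) * v = 0 := by rw [sub_mul, one_mul, hinv.ev, sub_self]
  have a3 : x₁ * (1 - e) = 0 := by rw [mul_sub, mul_one, hinv.xe, sub_self]
  rw [add_mul, mul_add, mul_add, a1, a2, a3, hinv.xv]
  abel

/-- The greedy procedure, by induction on its number of steps. -/
theorem greedy_main [CharZero F] {q : ℕ} (hq : 0 < q) : ∀ (m : ℕ)
    (V : Submodule F (Matrix (Fin n) (Fin n) F)), PowClosed (q + 1) V →
    ∀ E : Matrix (Fin n) (Fin n) F, E * E = E → (∀ w ∈ V, E * w = 0 ∧ w * E = 0) →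
    ∀ x : Fin m → Matrix (Fin n) (Fin n) F, (∀ i, x i ∈ V) →
    (∀ i j, i < j → x i ^ n * x j = 0 ∧ x j * x i ^ n = 0) →
    ∃ P v, InvOn P (∑ i, x i ^ (n * q + 1)) v ∧ E * P = 0 ∧ P * E = 0 ∧
      (∀ y, (∀ i, x i ^ n * y = 0 ∧ y * x i ^ n = 0) → P * y = 0 ∧ y * P = 0) ∧
      ((∃ z ∈ V, (E + z).det ≠ 0) ↔
        ∃ y ∈ V, (∀ i, x i ^ n * y = 0 ∧ y * x i ^ n = 0) ∧ (E + P + y).det ≠ 0) := by
  intro m
  induction m with
  | zero =>
    intro V hV E hE hEV x hx hxx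
    refine ⟨0, 0, ?_, mul_zero _, zero_mul _, ?_, ?_⟩
    · rw [Fin.sum_univ_zero]
      exact ⟨mul_zero _, mul_zero _, mul_zero _, mul_zero _, mul_zero _, mul_zero _, mul_zero _⟩
    · intro y _
      exact ⟨zero_mul _, mul_zero _⟩
    · constructor
      · rintro ⟨z, hz, h⟩
        exact ⟨z, hz, fun i => i.elim0, by rwa [add_zero]⟩
      · rintro ⟨y, hy, _, h⟩
        exact ⟨y, hy, by rwa [add_zero] at h⟩
  | succ m ih =>
    intro V hV E hE hEV x hx hxx
    obtain ⟨e, v, a, hinv, he, hn1, hn2, hxe⟩ := exists_invOn hq (x 0)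
    have hx1 : x 0 * e ∈ V := by
      rw [he]; exact hV.mul_aeval_mem (hx 0) _
    obtain ⟨hEx, hxE⟩ := hEV _ hx1
    have hEe : E * e = 0 := by rw [← hinv.xv, ← mul_assoc, hEx, zero_mul]
    have heE : e * E = 0 := by rw [← hinv.vx, mul_assoc, hxE, mul_zero]
    have hee := hinv.idem
    have hcut : ∀ y, e * y = 0 ∧ y * e = 0 ↔ x 0 ^ n * y = 0 ∧ y * x 0 ^ n = 0 := fun y =>
      and_congr (e_mul_eq_zero_iff hq he hn1 y) (mul_e_eq_zero_iff hq he hn2 y)
    obtain ⟨P, w, hPw, h1, h2, h3, h4⟩ := ih (cut V (x 0)) (hV.cut _) (E + e)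
      (by rw [add_mul, mul_add, mul_add, hE, hEe, heE, hee, add_zero, zero_add])
      (by
        intro w hw
        obtain ⟨h5, h6⟩ := (hcut w).mpr hw.2
        obtain ⟨h7, h8⟩ := hEV _ hw.1
        exact ⟨by rw [add_mul, h5, h7, add_zero], by rw [mul_add, h6, h8, add_zero]⟩)
      (fun i => x i.succ) (fun i => ⟨hx _, hxx 0 i.succ (Fin.succ_pos i)⟩)
      (fun i j hij => hxx _ _ (Fin.succ_lt_succ_iff.mpr hij))
    have heP : e * P = 0 := by
      have : e * ((E + e) * P) = e * P := by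
        rw [← mul_assoc, mul_add, heE, hee, zero_add]
      rw [← this, h1, mul_zero]
    have hPe : P * e = 0 := by
      have : (P * (E + e)) * e = P * e := by
        rw [mul_assoc, add_mul, hEe, hee, zero_add]
      rw [← this, h2, zero_mul]
    have hEP : E * P = 0 := by
      have := h1
      rwa [add_mul, heP, add_zero] at this
    have hPE : P * E = 0 := by
      have := h2
      rwa [mul_add, hPe, add_zero] at this
    have hpow : x 0 ^ (n * q + 1) = (x 0 * e) ^ (n * q + 1) := by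
      obtain ⟨c, hc⟩ : ∃ c, n * q = n + c := by
        refine ⟨n * q - n, ?_⟩
        have : n ≤ n * q := Nat.le_mul_of_pos_right _ hq
        omega
      rw [hc]
      exact pow_eq_mul_idem_pow hxe hee hn1 c
    refine ⟨e + P, v ^ (n * q + 1) + w, ?_, ?_, ?_, ?_, ?_⟩
    · rw [Fin.sum_univ_succ, hpow]
      exact (hinv.pow _).addOrth hPw heP hPe
    · rw [mul_add, hEe, hEP, add_zero]
    · rw [add_mul, heE, hPE, add_zero]
    · intro y hy
      obtain ⟨h5, h6⟩ := (hcut y).mpr (hy 0)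
      obtain ⟨h7, h8⟩ := h3 y fun i => hy i.succ
      exact ⟨by rw [add_mul, h5, h7, add_zero], by rw [mul_add, h6, h8, add_zero]⟩
    · constructor
      · rintro ⟨z, hz, hdet⟩
        obtain ⟨y, hy, h5, h6, h7⟩ := hV.step hq hE hEV (hx 0) hinv he hxe hz hdet
        obtain ⟨y', hy', h8, h9⟩ := h4.mp ⟨y, ⟨hy, (hcut y).mp ⟨h5, h6⟩⟩, h7⟩
        refine ⟨y', hy'.1, ?_, ?_⟩
        · intro i
          refine Fin.cases ?_ (fun i => ?_) i
          · exact hy'.2
          · exact h8 i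
        · rwa [add_assoc E e P] at h9
      · rintro ⟨y, hy, h5, h6⟩
        obtain ⟨y', hy', h7⟩ := h4.mpr ⟨y, ⟨hy, h5 0⟩, fun i => h5 i.succ, by
          rwa [add_assoc E e P]⟩
        obtain ⟨h8, h9⟩ := (hcut y').mpr hy'.2
        exact ⟨x 0 * e + y', V.add_mem hx1 hy'.1, step_conv hEV hx1 hinv h8 h7⟩

theorem greedy_final [CharZero F] {q : ℕ} (hq : 0 < q) {m : ℕ}
    {V : Submodule F (Matrix (Fin n) (Fin n) F)} (hV : PowClosed (q + 1) V)
    (x : Fin m → Matrix (Fin n) (Fin n) F) (hx : ∀ i, x i ∈ V)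
    (hxx : ∀ i j, i < j → x i ^ n * x j = 0 ∧ x j * x i ^ n = 0)
    (hnil : ∀ y ∈ V, (∀ i, x i ^ n * y = 0 ∧ y * x i ^ n = 0) → IsNilpotent y) :
    (∃ z ∈ V, z.det ≠ 0) ↔ (∑ i, x i ^ (n * q + 1)).det ≠ 0 := by
  obtain ⟨P, v, hP, _, _, h3, h4⟩ := greedy_main hq m V hV 0 (mul_zero _)
    (fun w _ => ⟨zero_mul _, mul_zero _⟩) x hx hxx
  constructor
  · rintro ⟨z, hz, hdet⟩
    obtain ⟨y, hy, h5, h6⟩ := h4.mp ⟨z, hz, by rwa [zero_add]⟩
    rw [zero_add] at h6
    obtain ⟨h7, h8⟩ := h3 y h5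
    obtain ⟨k, hk⟩ := hnil y hy h5
    have h9 : (P + y) ^ (k + 1) = P := by
      rw [add_pow_orth hP.idem h7 h8, pow_succ, hk, zero_mul, add_zero]
    have h10 : P.det ≠ 0 := by
      rw [← h9, Matrix.det_pow]
      exact pow_ne_zero _ h6
    rw [← hP.xv, Matrix.det_mul] at h10
    exact left_ne_zero_of_mul h10
  · intro h
    refine ⟨_, V.sum_mem fun i _ => ?_, h⟩
    rw [add_comm]
    exact hV.pow_mem (hx i) n

end

end Pool.Agent.Lib.MP_64d474_lc
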