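import Mathlib
import Pool.Agent.Lib.MP_64d474_lc.PowGreedy
import Pool.Agent.Lib.MP_64d474_lc.PolyFun

/-!
Spaces of matrices closed under `k`-th powers: deciding whether all elements are nilpotent.
-/

open Matrix Polynomial

namespace Pool.Agent.Lib.MP_64d474_lc

section

variable {F : Type*} [Field F] {n : ℕ}

theorem trace_zero_idem [CharZero F] {e : Matrix (Fin n) (Fin n) F} (he : e * e = e)
    (ht : e.trace = 0) : e = 0 := by
  have h1 : IsIdempotentElem (Matrix.toLin' e) := by
    show Matrix.toLin' e * Matrix.toLin' e = Matrix.toLin' e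
    rw [Module.End.mul_eq_comp, ← Matrix.toLin'_mul, he]
  have h2 : LinearMap.trace F (Fin n → F) (Matrix.toLin' e) = 0 := by
    rw [Matrix.trace_toLin'_eq, ht]
  have h3 := LinearMap.IsIdempotentElem.eq_zero_of_trace_eq_zero h1 h2
  exact (LinearEquiv.map_eq_zero_iff _).mp h3

theorem trace_polT (x y : Matrix (Fin n) (Fin n) F) (j : ℕ) :
    (polT x y (j + 1)).trace = ((j + 1 : ℕ) : F) * (x ^ j * y).trace := by
  rw [polT, Matrix.trace_sum]
  have : ∀ i ∈ Finset.range (j + 1), (x ^ i * y * x ^ (j + 1 - 1 - i)).trace = (x ^ j * y).trace := by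
    intro i hi
    rw [Finset.mem_range] at hi
    rw [Matrix.trace_mul_comm, ← mul_assoc, ← pow_add]
    congr 3
    omega
  rw [Finset.sum_congr rfl this, Finset.sum_const, Finset.card_range, nsmul_eq_mul]

theorem trace_pow_polarize [CharZero F] {V : Submodule F (Matrix (Fin n) (Fin n) F)} {j : ℕ}
    (h : ∀ w ∈ V, (w ^ (j + 1)).trace = 0) {x y : Matrix (Fin n) (Fin n) F} (hx : x ∈ V)
    (hy : y ∈ V) : (x ^ j * y).trace = 0 := by
  have h0 : ((pen x y) ^ (j + 1)).trace = 0 := by
    apply Polynomial.funext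
    intro t
    rw [eval_zero, ← h _ (V.add_mem hx (V.smul_mem t hy)), ← pen_eval, ← map_eval_pow]
    simp only [Matrix.trace, Matrix.diag_apply, eval_finsetSum, Matrix.map_apply]
  have h1 : (polT x y (j + 1)).trace = 0 := by
    rw [← (coeff_one_pen_pow x y (j + 1)).2]
    have h2 := congrArg (fun p : F[X] => p.coeff 1) h0
    simp only [Matrix.trace, Matrix.diag_apply, finsetSum_coeff, coeff_zero] at h2
    simp only [Matrix.trace, Matrix.diag_apply, Matrix.map_apply]
    exact h2
  rw [trace_polT] at h1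
  rcases mul_eq_zero.mp h1 with h2 | h2
  · exact absurd h2 (by exact_mod_cast Nat.succ_ne_zero j)
  · exact h2

theorem trace_pow_of_nilpotent {w : Matrix (Fin n) (Fin n) F} (h : IsNilpotent w) {q : ℕ}
    (hq : 0 < q) : (w ^ q).trace = 0 := by
  have h1 : IsNilpotent (w ^ q) := by
    obtain ⟨k, hk⟩ := h
    exact ⟨k, by rw [← pow_mul, mul_comm, pow_mul, hk, zero_pow (by omega)]⟩
  exact (Matrix.isNilpotent_trace_of_isNilpotent h1).eq_zero

/-- A space closed under `(q+1)`-st powers is nil if and only if the trace of the `q`-th power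
vanishes on it. -/
theorem PowClosed.nil_iff [CharZero F] {q : ℕ} (hq : 0 < q)
    {V : Submodule F (Matrix (Fin n) (Fin n) F)} (hV : PowClosed (q + 1) V) :
    (∀ w ∈ V, IsNilpotent w) ↔ ∀ w ∈ V, (w ^ q).trace = 0 := by
  constructor
  · intro h w hw
    exact trace_pow_of_nilpotent (h w hw) hq
  · intro h w hw
    obtain ⟨p, rfl⟩ : ∃ p, q = p + 1 := ⟨q - 1, by omega⟩
    obtain ⟨e, v, a, hinv, he, hn1, hn2, hxe⟩ := exists_invOn hq w
    have h1 : ∀ j : ℕ, ((w ^ (p + 1)) ^ (j + 1)).trace = 0 := by
      intro j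
      have := trace_pow_polarize h hw (hV.pow_mem hw j)
      rw [← pow_add] at this
      rw [← pow_mul]
      rw [← this]
      congr 2
      ring
    have h2 : e.trace = 0 := by
      rw [he, aeval_eq_sum_range, Matrix.trace_sum]
      refine Finset.sum_eq_zero fun j _ => ?_
      rw [Matrix.trace_smul]
      rcases Nat.eq_zero_or_pos j with hj | hj
      · subst hj
        rw [mul_coeff_zero, coeff_X_pow, if_neg (by omega), mul_zero, zero_smul]
      · obtain ⟨i, rfl⟩ : ∃ i, j = i + 1 := ⟨j - 1, by omega⟩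
        rw [h1, smul_zero]
    have h3 : e = 0 := trace_zero_idem hinv.idem h2
    rw [h3, sub_zero, mul_one] at hn1
    exact ⟨n, hn1⟩

/-- Entries of powers of a linear matrix are polynomial functions. -/
theorem PD_entry_pow {m : ℕ} (b : Fin m → Matrix (Fin n) (Fin n) F) (j : ℕ) (p r : Fin n) :
    PD (j : ℤ) (fun c : Fin m → F => ((∑ i, c i • b i) ^ j) p r) := by
  induction j generalizing r with
  | zero =>
    refine (PD.const ((1 : Matrix (Fin n) (Fin n) F) p r)).congr fun c => ?_
    rw [pow_zero]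
  | succ j ih =>
    let L : Fin n → Fin n → (Fin m → F) →ₗ[F] F := fun s r =>
      { toFun := fun c => (∑ i, c i • b i) s r
        map_add' := fun c d => by
          simp only [Pi.add_apply, add_smul, Finset.sum_add_distrib, Matrix.add_apply]
        map_smul' := fun t c => by
          simp only [Pi.smul_apply, smul_eq_mul, mul_smul, ← Finset.smul_sum, Matrix.smul_apply,
            RingHom.id_apply] }
    have h : PD ((j : ℤ) + 1) (fun c : Fin m → F =>
        ∑ s, L s r c * ((∑ i, c i • b i) ^ j) p s) :=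
      PD.sum _ fun s _ => PD.mul (L s r) (ih s)
    refine (h.mono (by push_cast; exact le_rfl)).congr fun c => ?_
    rw [pow_succ, Matrix.mul_apply]
    exact Finset.sum_congr rfl fun s _ => mul_comm _ _

/-- The finite test for nil spaces. -/
theorem PowClosed.nil_test [CharZero F] {q : ℕ} (hq : 0 < q)
    {V : Submodule F (Matrix (Fin n) (Fin n) F)} (hV : PowClosed (q + 1) V) {d : ℕ}
    (b : Fin d → Matrix (Fin n) (Fin n) F) (hb : Submodule.span F (Set.range b) = V) :
    (∀ w ∈ V, IsNilpotent w) ↔
      ∀ c : Fin d → ℕ, ∑ i, c i ≤ q → IsNilpotent (∑ i, (c i : F) • b i) := by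
  have hmem : ∀ c : Fin d → F, ∑ i, c i • b i ∈ V := by
    intro c
    rw [← hb]
    exact Submodule.sum_mem _ fun i _ => Submodule.smul_mem _ _ (Submodule.subset_span ⟨i, rfl⟩)
  constructor
  · intro h c _
    exact h _ (hmem _)
  · intro h
    rw [hV.nil_iff hq]
    intro w hw
    rw [← hb] at hw
    obtain ⟨c, rfl⟩ := (Submodule.mem_span_range_iff_exists_fun F).mp hw
    have hPD : PD (q : ℤ) (fun c : Fin d → F => ((∑ i, c i • b i) ^ q).trace) :=
      (PD.sum Finset.univ fun p _ => PD_entry_pow b q p p).congr fun c => rfl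
    by_contra hne
    obtain ⟨g, hg, hg0⟩ := PD.exists_simplex_point q hPD ⟨c, hne⟩
    exact hg0 (trace_pow_of_nilpotent (h g hg) hq)

/-- At most `n` non-nilpotent matrices can be chosen greedily. -/
theorem greedy_length {m : ℕ} (x : Fin m → Matrix (Fin n) (Fin n) F)
    (hx : ∀ i, ¬ IsNilpotent (x i))
    (hxx : ∀ i j, i < j → x i ^ n * x j = 0 ∧ x j * x i ^ n = 0) : m ≤ n := by
  choose e v a hinv he hn1 hn2 hxe using fun i => exists_invOn one_pos (x i)
  have h0 : ∀ i, e i ≠ 0 := by
    intro i h
    apply hx i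
    have := hn1 i
    rw [h, sub_zero, mul_one] at this
    exact ⟨n, this⟩
  have horth : ∀ i j, i < j → e i * e j = 0 ∧ e j * e i = 0 := by
    intro i j hij
    have h1 : e i * (x j * e j) = 0 := by
      rw [← mul_assoc, (e_mul_eq_zero_iff one_pos (he i) (hn1 i) (x j)).mpr (hxx i j hij).1,
        zero_mul]
    have h2 : (x j * e j) * e i = 0 := by
      rw [(hxe j).eq, mul_assoc,
        (mul_e_eq_zero_iff one_pos (he i) (hn2 i) (x j)).mpr (hxx i j hij).2, mul_zero]
    exact ⟨by rw [← (hinv j).xv, ← mul_assoc, h1, zero_mul],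
      by rw [← (hinv j).vx, mul_assoc, h2, mul_zero]⟩
  have horth' : ∀ i j, i ≠ j → e i * e j = 0 := by
    intro i j hij
    rcases lt_or_gt_of_ne hij with h | h
    · exact (horth i j h).1
    · exact (horth j i h).2
  have h1 : ∀ i, ∃ u : Fin n → F, e i *ᵥ u = u ∧ u ≠ 0 := by
    intro i
    by_contra hcon
    push Not at hcon
    apply h0 i
    apply Matrix.toLin'.injective
    rw [map_zero]
    apply LinearMap.ext
    intro c
    rw [Matrix.toLin'_apply, LinearMap.zero_apply]
    exact hcon _ (by rw [Matrix.mulVec_mulVec, (hinv i).idem])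
  choose u hu hu0 using h1
  have hli : LinearIndependent F u := by
    rw [Fintype.linearIndependent_iff]
    intro g hg i
    have h2 := congrArg (fun w => e i *ᵥ w) hg
    simp only [Matrix.mulVec_sum, Matrix.mulVec_smul, Matrix.mulVec_zero] at h2
    rw [Finset.sum_eq_single i] at h2
    · rw [hu] at h2
      exact (smul_eq_zero.mp h2).resolve_right (hu0 i)
    · intro j _ hj
      rw [← hu j, Matrix.mulVec_mulVec, horth' i j hj.symm, Matrix.zero_mulVec, smul_zero]
    · intro h
      exact absurd (Finset.mem_univ i) h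
  have := hli.fintype_card_le_finrank
  rwa [Fintype.card_fin, Module.finrank_fin_fun] at this

end

end Pool.Agent.Lib.MP_64d474_lc
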