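import Mathlib
import Pool.Agent.Lib.MP_64d474_lc.ZnBase
import Pool.Agent.Lib.MP_64d474_lc.ZtBounds
import Pool.Agent.Lib.MP_64d474_lc.ZtScheme

/-!
# A black-box approximation scheme for the rank of symbolic matrices

Part 1 (amplification).  Let `X` be a finite set of points of `ℕ ^ m` that approximates the rank
of all linear families of `D × D` matrices, `D = n q (2 q + 1)`, over a field `F` of characteristic
zero up to a constant factor `κ`.  Then the sums of `4 κ q ^ 2` multiples `z a`, `a ∈ X`, `z ≤ D`,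
approximate the rank of every symbolic `n × n` matrix `B₀ + ∑ x_k B_k` over `F` up to the factor
`1 - 1 / q`.

Part 2.  The explicit set `baseSet n m s` has at most `(33 (n + m + 2 ^ s) ^ 6) ^ (2 s + 1)` points.
For all `B₀, …, B_m` it contains a point `h` for which there is a subspace `U` of `F ^ n` such that
every matrix `B₀ + ∑ x_k B_k` has rank at most `n - dim U + dim (∑ B_k U)`, and this number is at
most `(2 a / c)` times the rank of `B₀ + ∑ h_k B_k` whenever `n c ^ T ≤ a ^ T` for some `T ≥ 1`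
with `4 T ≤ 2 ^ s`.

Part 3.  Let `D = n q (2 q + 1)` and `s = level D = ⌊log₂ (⌊log₂ D⌋ + 1)⌋ + 3`.  The explicit set
`scheme n m q`, the set of the sums of `16 q ^ 2` multiples `z a`, `a ∈ baseSet D m s`, `z ≤ D`, has
at most `(33 (D + m + 8 (⌊log₂ D⌋ + 1)) ^ 6) ^ (32 (s + 1) q ^ 2)` points, and it approximates the
rank of every symbolic `n × n` matrix up to the factor `1 - 1 / q`.
-/

open Matrix Module

namespace Pool.Agent.Lib.MP_64d474_lc.RankSchemeOld

open Pool.Agent.Lib.MP_64d474_lc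

/-- the points of `X` approximate the rank of all linear families of `m` matrices of size `n × n`
over `F` within the factor `κ` -/
def IsApprox (F : Type*) [Field F] (n : ℕ) {m : ℕ} (X : Finset (Fin m → ℕ)) (κ : ℕ) : Prop :=
  ∀ (C : Fin m → Matrix (Fin n) (Fin n) F) (y : Fin m → F),
    ∃ a ∈ X, (∑ k, y k • C k).rank ≤ κ * (∑ k, (a k : F) • C k).rank

/-- `∑ B_k U`, the sum of the images of `U` under `B₀, B₁, …, B_m` -/
def imageSpace {F : Type*} [Field F] {n m : ℕ} (B₀ : Matrix (Fin n) (Fin n) F)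
    (B : Fin m → Matrix (Fin n) (Fin n) F) (U : Submodule F (Fin n → F)) :
    Submodule F (Fin n → F) :=
  U.map B₀.mulVecLin ⊔ ⨆ k, U.map (B k).mulVecLin

/-- the size of the linear families in the amplification -/
def size (n q : ℕ) : ℕ := n * (q * (2 * q + 1))

/-- the number of digits of the exponents -/
def level (D : ℕ) : ℕ := Nat.log 2 (Nat.log 2 D + 1) + 3

/-- the points of the scheme -/
def scheme (n m q : ℕ) : Finset (Fin m → ℕ) :=
  sums (size n q) (baseSet (size n q) m (level (size n q))) (16 * q ^ 2)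

theorem level_spec (n : ℕ) : 4 * (Nat.log 2 n + 1) ≤ 2 ^ level n ∧
    2 ^ level n ≤ 8 * (Nat.log 2 n + 1) := by
  rw [level, pow_add]
  have h1 : Nat.log 2 n + 1 < 2 ^ (Nat.log 2 (Nat.log 2 n + 1) + 1) :=
    Nat.lt_pow_succ_log_self (by norm_num) _
  have h2 : 2 ^ Nat.log 2 (Nat.log 2 n + 1) ≤ Nat.log 2 n + 1 :=
    Nat.pow_log_le_self 2 (Nat.succ_ne_zero _)
  rw [pow_succ] at h1
  constructor <;> omega

/-- the linear map of a family of matrices -/
noncomputable def famLin {F : Type*} [Field F] {n m : ℕ} (B : Fin m → Matrix (Fin n) (Fin n) F) :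
    (Fin m → F) →ₗ[F] Module.End F (Fin n → F) :=
  (Matrix.toLin' : Matrix (Fin n) (Fin n) F ≃ₗ[F] _).toLinearMap ∘ₗ Fintype.linearCombination F B

theorem famLin_apply {F : Type*} [Field F] {n m : ℕ} (B : Fin m → Matrix (Fin n) (Fin n) F)
    (x : Fin m → F) : famLin B x = Matrix.toLin' (∑ k, x k • B k) := by
  rw [famLin, LinearMap.comp_apply, Fintype.linearCombination_apply]
  rfl

theorem rankApprox_of_isApprox {F : Type*} [Field F] {n m : ℕ} {X : Finset (Fin m → ℕ)} {κ : ℕ}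
    (h : IsApprox F n X κ) :
    RankApprox (F := F) (Fin n → F) {x : Fin m → F | ∃ a ∈ X, x = castV F a} κ := by
  classical
  intro C y
  obtain ⟨a, ha, h1⟩ := h (fun k => LinearMap.toMatrix' (C (Pi.single k 1))) y
  refine ⟨castV F a, ⟨a, ha, rfl⟩, ?_⟩
  have hC : ∀ x : Fin m → F, rk (C x) =
      (∑ k, x k • LinearMap.toMatrix' (C (Pi.single k 1))).rank := by
    intro x
    have e0 : x = ∑ k, x k • (Pi.single k 1 : Fin m → F) := by
      funext j
      rw [Finset.sum_apply, Finset.sum_eq_single j]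
      · rw [Pi.smul_apply, Pi.single_eq_same, smul_eq_mul, mul_one]
      · intro k _ hkj
        rw [Pi.smul_apply, Pi.single_eq_of_ne hkj.symm, smul_zero]
      · intro h
        exact absurd (Finset.mem_univ j) h
    have e1 : C x = ∑ k, x k • C (Pi.single k 1) := by
      conv_lhs => rw [e0]
      rw [map_sum]
      exact Finset.sum_congr rfl fun k _ => map_smul _ _ _
    rw [rk_eq_rank, e1, map_sum]
    simp only [map_smul]
  rw [hC, hC]
  exact h1

theorem amplified {F : Type*} [Field F] [CharZero F] {n m q : ℕ} {X : Finset (Fin m → ℕ)} {κ : ℕ}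
    (hκ : 1 ≤ κ) (hne : X.Nonempty)
    (h : RankApprox (F := F) (Fin (size n q) → F) {x : Fin m → F | ∃ a ∈ X, x = castV F a} κ)
    (B₀ : Matrix (Fin n) (Fin n) F) (B : Fin m → Matrix (Fin n) (Fin n) F) :
    ∃ h ∈ sums (size n q) X (4 * κ * q ^ 2), ∀ x : Fin m → F,
      (q - 1) * (B₀ + ∑ k, x k • B k).rank ≤ q * (B₀ + ∑ k, (h k : F) • B k).rank := by
  classical
  have hd : finrank F (TSpace (Fin n → F) (2 * q)) = size n q := finrank_TSpace F n q
  have h' : RankApprox (F := F) (TSpace (Fin n → F) (2 * q))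
      {x : Fin m → F | ∃ a ∈ X, x = castV F a} κ := h.of_le (by rw [hd, Module.finrank_fin_fun])
  obtain ⟨g, hg, h1⟩ := h'.amplify2 hκ hne hd.le (Matrix.toLin' B₀) (famLin B)
  refine ⟨g, hg, fun x => ?_⟩
  have h2 := h1 x
  rw [famLin_apply, famLin_apply, ← map_add, ← map_add, rk_toLin', rk_toLin'] at h2
  exact h2

theorem certified {F : Type*} [Field F] [CharZero F] (n m s : ℕ) (B₀ : Matrix (Fin n) (Fin n) F)
    (B : Fin m → Matrix (Fin n) (Fin n) F) :
    ∃ h ∈ baseSet n m s, ∃ U : Submodule F (Fin n → F),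
      (∀ x : Fin m → F, (B₀ + ∑ k, x k • B k).rank + finrank F U ≤
        n + finrank F (imageSpace B₀ B U)) ∧
      ∀ T a c : ℕ, 1 ≤ T → 4 * T ≤ 2 ^ s → n * c ^ T ≤ a ^ T →
        c * (n + finrank F (imageSpace B₀ B U)) ≤
          c * finrank F U + 2 * a * (B₀ + ∑ k, (h k : F) • B k).rank := by
  classical
  obtain ⟨U, r, S, T₀, hU, hr, hns⟩ := exists_compression B₀ B
  rw [Fintype.card_fin] at hU hr
  obtain ⟨p, hp, hpr, b, hb, t, ht, h⟩ := approx_point (n := n) (s := s)
    (by rw [Fintype.card_fin]; exact hr) (S * B₀ * T₀) (fun k => S * B k * T₀) hns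
  refine ⟨fun k => t ^ baseWeight n m s p b k, ?_, U, ?_, ?_⟩
  · rw [baseSet, Finset.mem_image]
    refine ⟨⟨p, b, t⟩, ?_, rfl⟩
    rw [Finset.mem_product, Finset.mem_product, Finset.mem_filter, Finset.mem_range,
      Finset.mem_range, Fintype.mem_piFinset]
    refine ⟨⟨Nat.lt_succ_of_le hp, hpr⟩, fun i => ?_, ht⟩
    rw [Finset.mem_range]
    exact lt_of_lt_of_le (hb i) (hp.trans (Nat.le_succ _))
  · intro x
    have := rank_add_finrank_le (B₀ + ∑ k, x k • B k) U (imageSpace B₀ B U) (by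
      rintro _ ⟨u, hu, rfl⟩
      rw [Matrix.mulVecLin_apply, Matrix.add_mulVec, Matrix.sum_mulVec]
      refine Submodule.add_mem _ (mem_imageSum_zero B hu) (Submodule.sum_mem _ fun k _ => ?_)
      rw [Matrix.smul_mulVec]
      exact Submodule.smul_mem _ _ (mem_imageSum k hu))
    rw [Fintype.card_fin] at this
    exact this
  · intro T a c hT hTs hac
    have h3 := h T a c hT hTs hac
    rw [Fintype.card_fin] at h3
    have e : S * B₀ * T₀ + ∑ k : Fin m, ((t ^ dig p (n * (32 * (n + m + 2 ^ s) ^ 5) + 1) b k :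
        ℕ) : F) • (S * B k * T₀) =
        S * (B₀ + ∑ k : Fin m, ((t ^ baseWeight n m s p b k : ℕ) : F) • B k) * T₀ := by
      rw [Matrix.mul_add, Matrix.add_mul, Matrix.mul_sum, Matrix.sum_mul]
      congr 1
      refine Finset.sum_congr rfl fun k _ => ?_
      rw [Matrix.mul_smul, Matrix.smul_mul]
      rfl
    rw [e] at h3
    have h4 : (S * (B₀ + ∑ k : Fin m, ((t ^ baseWeight n m s p b k : ℕ) : F) • B k) * T₀).rank ≤
        (B₀ + ∑ k : Fin m, ((t ^ baseWeight n m s p b k : ℕ) : F) • B k).rank :=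
      (Matrix.rank_mul_le_left _ _).trans (Matrix.rank_mul_le_right _ _)
    have h5 : imageSpace B₀ B U = imageSum B₀ B U := rfl
    rw [h5, hU, Nat.mul_add]
    exact Nat.add_le_add_left (h3.trans (Nat.mul_le_mul_left _ h4)) _

theorem result.{u} (n m q : ℕ) :
    (∀ (F : Type u) [Field F] [CharZero F] (X : Finset (Fin m → ℕ)) (κ : ℕ), 1 ≤ κ →
      IsApprox F (size n q) X κ →
        (sums (size n q) X (4 * κ * q ^ 2)).card ≤ (X.card * (size n q + 1)) ^ (4 * κ * q ^ 2) ∧
        ∀ (B₀ : Matrix (Fin n) (Fin n) F) (B : Fin m → Matrix (Fin n) (Fin n) F),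
          ∃ h ∈ sums (size n q) X (4 * κ * q ^ 2), ∀ x : Fin m → F,
            (q - 1) * (B₀ + ∑ k, x k • B k).rank ≤ q * (B₀ + ∑ k, (h k : F) • B k).rank) ∧
    (∀ s : ℕ, (baseSet n m s).card ≤ (33 * (n + m + 2 ^ s) ^ 6) ^ (2 * s + 1) ∧
      ∀ (F : Type u) [Field F] [CharZero F] (B₀ : Matrix (Fin n) (Fin n) F)
        (B : Fin m → Matrix (Fin n) (Fin n) F),
        ∃ h ∈ baseSet n m s, ∃ U : Submodule F (Fin n → F),
          (∀ x : Fin m → F, (B₀ + ∑ k, x k • B k).rank + finrank F U ≤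
            n + finrank F (imageSpace B₀ B U)) ∧
          ∀ T a c : ℕ, 1 ≤ T → 4 * T ≤ 2 ^ s → n * c ^ T ≤ a ^ T →
            c * (n + finrank F (imageSpace B₀ B U)) ≤
              c * finrank F U + 2 * a * (B₀ + ∑ k, (h k : F) • B k).rank) ∧
    (scheme n m q).card ≤ (33 * (size n q + m + 8 * (Nat.log 2 (size n q) + 1)) ^ 6) ^
      (32 * (level (size n q) + 1) * q ^ 2) ∧
    (∀ h ∈ scheme n m q, ∀ k, h k ≤ 16 * q ^ 2 * (size n q *
      ((33 * (size n q + m + 8 * (Nat.log 2 (size n q) + 1)) ^ 6) ^ level (size n q)) ^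
        ((33 * (size n q + m + 8 * (Nat.log 2 (size n q) + 1)) ^ 6) ^ level (size n q)))) ∧
    ∀ (F : Type u) [Field F] [CharZero F] (B₀ : Matrix (Fin n) (Fin n) F)
      (B : Fin m → Matrix (Fin n) (Fin n) F),
      ∃ h ∈ scheme n m q, ∀ x : Fin m → F,
        (q - 1) * (B₀ + ∑ k, x k • B k).rank ≤ q * (B₀ + ∑ k, (h k : F) • B k).rank := by
  classical
  set D := size n q with hD
  obtain ⟨hl1, hl2⟩ := level_spec D
  have hsch : scheme n m q = sums D (baseSet D m (level D)) (16 * q ^ 2) := rfl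
  set s := level D with hs
  have hM : 33 * (D + m + 2 ^ s) ^ 6 ≤ 33 * (D + m + 8 * (Nat.log 2 D + 1)) ^ 6 :=
    Nat.mul_le_mul_left _ (Nat.pow_le_pow_left (by omega) _)
  set M := 33 * (D + m + 8 * (Nat.log 2 D + 1)) ^ 6 with hM'
  have hn1 : D + 1 ≤ M := by
    rw [hM']
    have h1 : D + 1 ≤ D + m + 8 * (Nat.log 2 D + 1) := by omega
    have h2 : D + m + 8 * (Nat.log 2 D + 1) ≤ (D + m + 8 * (Nat.log 2 D + 1)) ^ 6 :=
      Nat.le_self_pow (by norm_num) _
    omega
  refine ⟨?_, ?_, ?_, ?_, ?_⟩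
  · intro F _ _ X κ hκ hX
    refine ⟨card_sums_le _, fun B₀ B => ?_⟩
    obtain ⟨a, ha, -⟩ := hX (fun _ => 0) (fun _ => 0)
    exact amplified hκ ⟨a, ha⟩ (rankApprox_of_isApprox hX) B₀ B
  · intro s
    exact ⟨card_baseSet_le n m s, fun F _ _ B₀ B => certified n m s B₀ B⟩
  · rw [hsch]
    have h1 : (2 * s + 2) * (16 * q ^ 2) = 32 * (s + 1) * q ^ 2 := by ring
    rw [← h1]
    exact card_sums_baseSet_le hM hn1
  · rw [hsch]
    exact sums_coord_le (baseSet_le_of_le hM)
  · intro F _ _ B₀ B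
    have h1 := baseSet_approx (F := F) D m s (Nat.log 2 D + 1) (Nat.succ_pos _) hl1
      (Nat.lt_pow_succ_log_self (by norm_num) D).le
    have h2 := amplified (by norm_num) (baseSet_nonempty D m s) h1 B₀ B
    exact h2

end Pool.Agent.Lib.MP_64d474_lc.RankSchemeOld
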