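import Pool.Agent.Lib.MP_64d474_lc.Blk.Conv
import Pool.Agent.Lib.MP_64d474_lc.Blk.Cell
import Pool.Agent.Lib.MP_64d474_lc.Blk.Twist
import Pool.Agent.Lib.MP_64d474_lc.Blk.Local
import Pool.Agent.Lib.MP_64d474_lc.Circ.Det
import Pool.Agent.Lib.MP_64d474_lc.Circ.Sign
import Pool.Agent.Lib.MP_64d474_lc.Circ.Tens
import Pool.Agent.Lib.MP_64d474_lc.Circ.Comp
import Pool.Agent.Lib.MP_64d474_lc.Circ.ExpA
import Pool.Agent.Lib.MP_64d474_lc.Circ.ExpB
import Pool.Agent.Lib.MP_64d474_lc.Circ.ExpC
import Pool.Agent.Lib.MP_64d474_lc.Circ.Expander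
import Pool.Agent.Lib.MP_64d474_lc.Circ.Logic
import Pool.Agent.Lib.SymCirc.Supp
import Pool.Agent.Lib.SymCirc.Gates
import Pool.Agent.Lib.SymCirc.Transfer

/-!
MP_64d474_lc: circuits which are symmetric under a group `K` of permutations of the indices inside
blocks of 8 indices, and which distinguish the nonsingular symbolic matrices from those of rank at
most `n - N`, have size at least `|K| ^ (c / N)`; size `|K| (n ^ 3 + 1) + 1` suffices.
-/

namespace Pool.Agent.Lib.MP_64d474_lc.SmallSymmetryOld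

open Equiv Pool.Agent.Lib Pool.Agent.Lib.MP_64d474_lc.Circ Pool.Agent.Lib.MP_64d474_lc.Blk

/-- Let `e` be `m` disjoint blocks of 8 of the `n` indices. If `1536 q N ≤ m`, then there are
symmetric symbolic matrices, one nonsingular and one of rank at most `n - N` at every point, on which
every circuit has the same output that is symmetric under the permutations inside the blocks and has
gate orbits with fewer than `2 ^ q` elements, and which satisfy the same formulas with `4 q`
variables. These permutations form a group of order `(8!) ^ m`; symmetric circuits with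
`(8!) ^ m (n ^ 3 + 1) + 1` gates decide nonsingularity; and a circuit with `s` gates, over any set of
operations which contains an idempotent one, whose output is invariant under a finite group `K`, can
be made symmetric under `K` with `|K| s + 1` gates over the same operations. -/
theorem result :
    (∀ (q N m n : ℕ) (e : Fin m × Fin 8 ↪ Fin n), 2 ≤ q → 1 ≤ N → 1536 * q * N ≤ m →
      ∃ a b : Fin n → Fin n → Fin n → ℤ,
        (∀ i j l, a i j l = a j i l ∧ a i j l ∈ ({-1, 0, 1, 2} : Set ℤ)) ∧
        (∀ i j l, b i j l = b j i l ∧ b i j l ∈ ({-1, 0, 1, 2} : Set ℤ)) ∧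
        (symMat a).det ≠ 0 ∧
        (∀ (F : Type) [Field F] (x : Fin n → F),
          (Matrix.of fun i j => ∑ l, (b i j l : F) * x l).rank + N ≤ n) ∧
        (∀ (V : Type) (C : SymCirc.Circuit (Fin n × Fin n × Fin n) ℤ V),
          C.SymmetricUnder (blockPerms3 e) →
          (∀ g, (C.orbit (blockPerms3 e) g).Finite ∧ (C.orbit (blockPerms3 e) g).ncard < 2 ^ q) →
          C.val (unc a) C.out = C.val (unc b) C.out) ∧
        ∀ φ : CForm (4 * q), (∀ v, Holds a φ v) ↔ (∀ v, Holds b φ v)) ∧
    (∀ (m n : ℕ) (e : Fin m × Fin 8 ↪ Fin n),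
      (∃ K : Subgroup (Perm (Fin n × Fin n × Fin n)),
        (K : Set (Perm (Fin n × Fin n × Fin n))) = blockPerms3 e ∧ Nat.card K = 40320 ^ m) ∧
      ∃ (V : Type) (C : SymCirc.Circuit (Fin n × Fin n × Fin n) ℤ V) (yes : V),
        C.SymmetricUnder (blockPerms3 e) ∧ Finite C.G ∧
        Nat.card C.G = 40320 ^ m * (n ^ 3 + 1) + 1 ∧
        ∀ a : Fin n → Fin n → Fin n → ℤ, C.val (unc a) C.out = yes ↔ (symMat a).det ≠ 0) ∧
    (∀ (P A V : Type) (K : Subgroup (Perm P)) (B : Set (Multiset V → V)) (idem : Multiset V → V)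
      (C : SymCirc.Circuit P A V), Finite K → Finite C.G → idem ∈ B →
      (∀ (s : Multiset V) (v : V), s ≠ 0 → (∀ u ∈ s, u = v) → idem s = v) → C.Over B →
      (∀ σ ∈ K, ∀ a, C.val (a ∘ σ) C.out = C.val a C.out) →
      ∃ C' : SymCirc.Circuit P A V, C'.Over B ∧ C'.SymmetricUnder K ∧ Finite C'.G ∧
        Nat.card C'.G = Nat.card K * Nat.card C.G + 1 ∧ ∀ a, C'.val a C'.out = C.val a C.out) := by
  refine ⟨block_of (stExpander stExpA stExpB stExpC) stComp stSign stDet stTens stCell stTwist
    stLocal stGameAt (SymCirc.stTransfer (SymCirc.stGate SymCirc.stSupp)) stLogic,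
    fun m n e => ⟨group3 e, conv3 e⟩, ?_⟩
  intro P A V K B idem C hK hfin hidem hid hOver hinv
  obtain ⟨C', h1, h2, h3, h4⟩ := SymCirc.stSym P A V K B idem C hidem hid hOver hinv
  exact ⟨C', h1, h2, (h3 hfin).1, (h3 hfin).2, h4⟩

end Pool.Agent.Lib.MP_64d474_lc.SmallSymmetryOld
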