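import Pool.Agent.Lib.MP_64d474_lc.SubExp.Grid
import Pool.Agent.Lib.MP_64d474_lc.SubExp.Factor
import Pool.Agent.Lib.MP_64d474_lc.SubExp.RankOne
import Pool.Agent.Lib.MP_64d474_lc.SubExp.Count

/-!
# Explicit rank maximising sets of subexponential size for all symbolic matrices

Let `B₀, B₁, …, B_m` be `n × n` matrices over a field of characteristic zero with
`rank B_k ≤ r_k` for `k ≥ 1`, and let `s` be the sum of those `r_k` that are at least two.  The
explicit finite set `points n r` of integer vectors, which depends on `n` and on `r` only, has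
`(n + m) ^ O(log n) * (s + 2) ^ O(s ^ (2 / 3))` elements and contains a vector `h` for which the
rank of `B₀ + ∑ h_k B_k` is the largest rank of a matrix `B₀ + ∑ x_k B_k`.

The variables of rank at most one take the values of the quasi-polynomial set `testSet n m`.  The
other variables are divided into `O(s ^ (2 / 3))` blocks with ranks of sum `O(s ^ (1 / 3))` (and
single variables of larger rank).  All blocks use the same `O(s ^ (2 / 3))` sources `z`, and every
block has one parameter `y` of its own: the values of the variables in the block are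
`∑ z_j (2 ^ c y) ^ j` for the different positions `c` in the block.
-/

set_option autoImplicit false

open Finset

namespace Pool.Agent.Lib.MP_64d474_lc.SubexponentialTestSetOld

open Pool.Agent.Lib.MP_64d474_lc.SubExp

theorem result.{u} (n m : ℕ) (r : Fin m → ℕ) :
    (points n r).card ≤ (33 * (n + m + 1) ^ 6) ^ (2 * Nat.log 2 n + 5) *
      (∑ j, wild r j + 2) ^ (19 * side (∑ j, wild r j) ^ 2) ∧
    (1 ≤ ∑ j, wild r j → side (∑ j, wild r j) ^ 3 ≤ 8 * ∑ j, wild r j) ∧
    (∀ h ∈ points n r, ∀ k, h k ≤ max (((33 * (n + m + 1) ^ 6) ^ (Nat.log 2 n + 2)) ^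
      ((33 * (n + m + 1) ^ 6) ^ (Nat.log 2 n + 2)))
      ((2 ^ side (∑ j, wild r j) * (∑ j, wild r j + 2) ^ 6) ^
        (6 * side (∑ j, wild r j) ^ 2))) ∧
    ∀ (F : Type u) [Field F] [CharZero F] (B₀ : Matrix (Fin n) (Fin n) F)
      (B : Fin m → Matrix (Fin n) (Fin n) F), (∀ k, (B k).rank ≤ r k) →
      ∃ h ∈ points n r, ∀ x : Fin m → F,
        (B₀ + ∑ k, x k • B k).rank ≤ (B₀ + ∑ k, (h k : F) • B k).rank := by
  classical
  obtain ⟨t1, t2, t3⟩ := rankOne.{u} n m
  refine ⟨?_, side_le _, ?_, ?_⟩
  · unfold points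
    refine card_image_le.trans ?_
    rw [card_product]
    exact Nat.mul_le_mul t1 (card_hits_le _)
  · intro h hh k
    unfold points at hh
    rw [mem_image] at hh
    obtain ⟨⟨h1, h2⟩, hq, rfl⟩ := hh
    rw [mem_product] at hq
    dsimp only
    split_ifs
    · exact (hits_le _ _ hq.2 k).trans (le_max_right _ _)
    · exact (t2 _ hq.1 k).trans (le_max_left _ _)
  · intro F _ _ B₀ B hB
    obtain ⟨x, hx⟩ := exists_max B₀ B
    obtain ⟨ρ, hρ, I, J, hIJ⟩ : ∃ ρ, (B₀ + ∑ k, x k • B k).rank = ρ ∧ ∃ I J : Fin ρ → Fin n,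
        ((B₀ + ∑ k, x k • B k).submatrix I J).det ≠ 0 :=
      ⟨_, rfl, Pool.Agent.Lib.MP_64d474_lc.exists_minor (B₀ + ∑ k, x k • B k)⟩
    -- the wild variables
    set C₀ : Matrix (Fin ρ) (Fin ρ) F :=
      (B₀ + ∑ k, (if 2 ≤ r k then 0 else x k) • B k).submatrix I J with hC₀
    set C : Fin m → Matrix (Fin ρ) (Fin ρ) F :=
      fun k => if 2 ≤ r k then (B k).submatrix I J else 0 with hC
    have hrk : ∀ k, (C k).rank ≤ wild r k := by
      intro k
      rw [hC]
      dsimp only
      unfold wild
      split_ifs with h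
      · rw [← submatrix_eq]
        exact ((Matrix.rank_mul_le_left _ _).trans (Matrix.rank_mul_le_right _ _)).trans (hB k)
      · rw [Matrix.rank_zero]
    choose U V hUV using fun k => exists_factor_of_rank_le (C k) (hrk k)
    have hsum : ∀ y : Fin m → F, C₀ + ∑ k, y k • C k =
        (B₀ + ∑ k, (if 2 ≤ r k then y k else x k) • B k).submatrix I J := by
      intro y
      ext i j
      simp only [hC₀, hC, Matrix.add_apply, Matrix.sum_apply, Matrix.smul_apply,
        Matrix.submatrix_apply, smul_eq_mul]
      rw [add_assoc, ← sum_add_distrib]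
      congr 1
      refine sum_congr rfl fun k _ => ?_
      split_ifs <;> simp
    have hdet : (C₀ + ∑ k, x k • C k).det ≠ 0 := by
      rw [hsum]
      simpa only [ite_self] using hIJ
    set R := side (∑ j, wild r j) with hR
    have hR0 : 0 < R := (side_spec _).1
    obtain ⟨z, y, w, hzyw⟩ := hybrid (wild r) hR0 C₀ C U V hUV x hdet
    obtain ⟨v, hv, hvdet⟩ := all_par (wild r) R C₀ C U V hUV
      (Sum.elim z (Sum.elim y w)) hzyw
    set h2 : Fin m → ℕ := pt (wild r) R v with hh2
    have h2mem : h2 ∈ hits (wild r) (side (∑ j, wild r j)) := by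
      unfold hits
      rw [mem_image]
      refine ⟨v, ?_, rfl⟩
      rw [Fintype.mem_piFinset]
      intro c
      exact mem_range.2 (Nat.lt_succ_of_le (hv c))
    have hdet2 : ((B₀ + ∑ k, (if 2 ≤ r k then (h2 k : F) else x k) • B k).submatrix I J).det
        ≠ 0 := by
      rw [← hsum]
      simp only [hh2, cast_pt]
      exact hvdet
    have hrank2 : ρ ≤ (B₀ + ∑ k, (if 2 ≤ r k then (h2 k : F) else x k) • B k).rank := by
      have h3 := Matrix.rank_of_det_ne_zero hdet2
      rw [Fintype.card_fin] at h3
      rw [← h3, ← submatrix_eq]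
      exact (Matrix.rank_mul_le_left _ _).trans (Matrix.rank_mul_le_right _ _)
    -- the variables of rank at most one
    set D₀ := B₀ + ∑ k, (if 2 ≤ r k then (h2 k : F) else 0) • B k with hD₀
    set D : Fin m → Matrix (Fin n) (Fin n) F := fun k => if 2 ≤ r k then 0 else B k with hD
    have hsum2 : ∀ y : Fin m → F, D₀ + ∑ k, y k • D k =
        B₀ + ∑ k, (if 2 ≤ r k then (h2 k : F) else y k) • B k := by
      intro y
      rw [hD₀, add_assoc, ← sum_add_distrib]
      congr 1
      refine sum_congr rfl fun k _ => ?_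
      rw [hD]
      dsimp only
      split_ifs <;> simp
    obtain ⟨h1, h1mem, hmax⟩ := t3 F D₀ D (fun k => by
      rw [hD]
      dsimp only
      split_ifs with h
      · rw [Matrix.rank_zero]
        exact zero_le_one
      · exact (hB k).trans (by omega))
    refine ⟨fun k => if 2 ≤ r k then h2 k else h1 k, ?_, ?_⟩
    · unfold points
      rw [mem_image]
      exact ⟨(h1, h2), mem_product.2 ⟨h1mem, h2mem⟩, rfl⟩
    · intro x'
      refine (hx x').trans (hρ.le.trans (hrank2.trans ?_))
      have h3 := hmax x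
      rw [hsum2, hsum2] at h3
      have h4 : (fun k => (if 2 ≤ r k then (h2 k : F) else (h1 k : F)) • B k) =
          fun k => (((if 2 ≤ r k then h2 k else h1 k : ℕ) : F)) • B k := by
        funext k
        split_ifs <;> rfl
      rw [h4] at h3
      exact h3

end Pool.Agent.Lib.MP_64d474_lc.SubexponentialTestSetOld
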