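import Pool.Agent.Lib.MP_64d474_lc.Sym.Final

/-!
Symbolic nonsingularity is not definable in `k`-variable infinitary counting logic: for every `k`
there are two symbolic matrices of size `4(k+1)^2`, one nonsingular and one identically
singular, which satisfy the same formulas of that logic.
-/

namespace Pool.Agent.Results.MP_64d474_lc.SymmetricBarrier

open Pool.Agent.Lib.MP_64d474_lc.Sym

theorem result (k : ℕ) :
    ∃ a b : Fin (4 * (k + 1) ^ 2) → Fin (4 * (k + 1) ^ 2) → Fin (4 * (k + 1) ^ 2) → ℤ,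
      (∀ i j l, a i j l ∈ ({-1, 0, 1, 2} : Set ℤ)) ∧
      (∀ i j l, b i j l ∈ ({-1, 0, 1, 2} : Set ℤ)) ∧
      (symMat a).det ≠ 0 ∧ (symMat b).det = 0 ∧
      ∀ φ : CForm k, (∀ v, Holds a φ v) ↔ (∀ v, Holds b φ v) :=
  main k

end Pool.Agent.Results.MP_64d474_lc.SymmetricBarrier
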