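import Mathlib

/-!
Matrix spaces spanned by few rank-one matrices, in the form `P (diagonal + low rank) Q`.
-/

open Matrix

namespace Pool.Agent.Lib.MP_64d474_lc

section

variable {K : Type*} [Field K]

theorem trace_mul_vecMulVec {n : ℕ} (A : Matrix (Fin n) (Fin n) K) (u v : Fin n → K) :
    (A * vecMulVec u v).trace = v ⬝ᵥ A *ᵥ u := by
  rw [Matrix.mul_vecMulVec, Matrix.trace]
  simp only [Matrix.diag_apply, vecMulVec_apply, dotProduct]
  exact Finset.sum_congr rfl fun i _ => mul_comm _ _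

theorem det_add_vecMulVec {n : ℕ} (A : Matrix (Fin n) (Fin n) K) (hA : A.det ≠ 0)
    (u v : Fin n → K) (c : K) :
    (A + c • vecMulVec u v).det = A.det * (1 + c * (v ⬝ᵥ A⁻¹ *ᵥ u)) := by
  have hu : IsUnit A.det := isUnit_iff_ne_zero.mpr hA
  have h1 : A + c • vecMulVec u v = A * (1 + vecMulVec (c • (A⁻¹ *ᵥ u)) v) := by
    rw [Matrix.mul_add, Matrix.mul_one, Matrix.mul_vecMulVec, mulVec_smul, mulVec_mulVec,
      Matrix.mul_nonsing_inv _ hu, one_mulVec, smul_vecMulVec]
  rw [h1, det_mul, vecMulVec_eq Unit, det_one_add_replicateCol_mul_replicateRow, dotProduct_smul,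
    smul_eq_mul]

/-- A nonsingular combination of rank-one matrices contains a nonsingular combination of exactly
`n` of them. -/
theorem exists_subset_card {n : ℕ} {ι : Type*} [CharZero K] (u v : ι → Fin n → K) (t : ι → K) :
    ∀ (N : ℕ) (T : Finset ι), T.card = N → (∑ i ∈ T, t i • vecMulVec (u i) (v i)).det ≠ 0 →
      ∃ S ⊆ T, S.card = n ∧ (∑ i ∈ S, t i • vecMulVec (u i) (v i)).det ≠ 0 := by
  classical
  intro N
  induction N with
  | zero =>
    intro T hT hdet
    rw [Finset.card_eq_zero] at hT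
    subst hT
    refine ⟨∅, subset_rfl, ?_, hdet⟩
    rw [Finset.sum_empty] at hdet
    rcases Nat.eq_zero_or_pos n with h | h
    · rw [h, Finset.card_empty]
    · have : Nonempty (Fin n) := ⟨⟨0, h⟩⟩
      exact absurd det_zero hdet
  | succ N ih =>
    intro T hT hdet
    by_cases hex : ∃ i ∈ T, (∑ j ∈ T.erase i, t j • vecMulVec (u j) (v j)).det ≠ 0
    · obtain ⟨i, hi, hi0⟩ := hex
      obtain ⟨S, hS, hcard, hS0⟩ := ih (T.erase i) (by rw [Finset.card_erase_of_mem hi]; omega) hi0
      exact ⟨S, hS.trans (Finset.erase_subset i T), hcard, hS0⟩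
    · push Not at hex
      refine ⟨T, subset_rfl, ?_, hdet⟩
      set A := ∑ j ∈ T, t j • vecMulVec (u j) (v j) with hA
      have h1 : ∀ i ∈ T, t i * (v i ⬝ᵥ A⁻¹ *ᵥ u i) = 1 := by
        intro i hi
        have h2 : ∑ j ∈ T.erase i, t j • vecMulVec (u j) (v j) =
            A + (- t i) • vecMulVec (u i) (v i) := by
          rw [hA, ← Finset.add_sum_erase T _ hi, neg_smul]
          abel
        have h3 := hex i hi
        rw [h2, det_add_vecMulVec A hdet] at h3
        have h4 := (mul_eq_zero.mp h3).resolve_left hdet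
        linear_combination -h4
      have h2 : (A⁻¹ * A).trace = T.card := by
        conv_lhs => rw [hA, ← hA]
        have h3 : A⁻¹ * A = ∑ j ∈ T, t j • (A⁻¹ * vecMulVec (u j) (v j)) := by
          conv_lhs =>
            rw [show A⁻¹ * A = A⁻¹ * ∑ j ∈ T, t j • vecMulVec (u j) (v j) from by rw [← hA]]
          rw [Finset.mul_sum]
          exact Finset.sum_congr rfl fun j _ => by rw [Matrix.mul_smul]
        rw [h3, trace_sum, Finset.card_eq_sum_ones, Nat.cast_sum]
        refine Finset.sum_congr rfl fun j hj => ?_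
        rw [trace_smul, trace_mul_vecMulVec, smul_eq_mul, h1 j hj, Nat.cast_one]
      rw [Matrix.nonsing_inv_mul _ (isUnit_iff_ne_zero.mpr hdet), trace_one, Fintype.card_fin] at h2
      exact_mod_cast h2.symm

theorem rank_sum_le {n : ℕ} {ι : Type*} (u v : ι → Fin n → K) (t : ι → K) (T : Finset ι) :
    (∑ i ∈ T, t i • vecMulVec (u i) (v i)).rank ≤ T.card := by
  classical
  have h1 : ∑ i ∈ T, t i • vecMulVec (u i) (v i) =
      (Matrix.of fun (a : Fin n) (i : T) => t i * u i a) *
        (Matrix.of fun (i : T) (b : Fin n) => v i b) := by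
    ext a b
    rw [Matrix.sum_apply, Matrix.mul_apply, ← Finset.sum_coe_sort T]
    refine Finset.sum_congr rfl fun i _ => ?_
    rw [Matrix.smul_apply, vecMulVec_apply, smul_eq_mul]
    show t i * (u i a * v i b) = t i * u i a * v i b
    ring
  rw [h1]
  refine (Matrix.rank_mul_le_left _ _).trans ((Matrix.rank_le_card_width _).trans ?_)
  rw [Fintype.card_coe]

/-- Normal form: if some combination is nonsingular, then the matrices have the form
`P (diagonal + low rank) Q`. -/
theorem exists_normal_form [CharZero K] {n m r : ℕ} (u v : Fin (n + r) → Fin n → K)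
    (w : Fin m → Fin (n + r) → K) (t : Fin (n + r) → K)
    (h : (∑ i, t i • vecMulVec (u i) (v i)).det ≠ 0) :
    ∃ (P Q : Matrix (Fin n) (Fin n) K) (a : Fin m → Fin n → K)
      (L : Fin m → Matrix (Fin n) (Fin n) K),
      (∀ x : Fin m → K, (∑ k, x k • L k).rank ≤ r) ∧
      ∀ k, ∑ i, w k i • vecMulVec (u i) (v i) = P * (diagonal (a k) + L k) * Q := by
  classical
  obtain ⟨S, -, hS, hdet⟩ := exists_subset_card u v t _ Finset.univ rfl h
  let e : Fin n → Fin (n + r) := S.orderEmbOfFin hS
  have hsumS : ∀ f : Fin (n + r) → Matrix (Fin n) (Fin n) K, ∑ i ∈ S, f i = ∑ j, f (e j) := by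
    intro f
    have h1 : S = Finset.univ.image e := by
      ext i
      rw [Finset.mem_image]
      constructor
      · intro hi
        have : i ∈ Set.range (S.orderEmbOfFin hS) := by
          rw [Finset.range_orderEmbOfFin]; exact hi
        obtain ⟨j, hj⟩ := this
        exact ⟨j, Finset.mem_univ j, hj⟩
      · rintro ⟨j, -, rfl⟩
        exact Finset.orderEmbOfFin_mem S hS j
    conv_lhs => rw [h1]
    rw [Finset.sum_image]
    intro a _ b _ hab
    exact (S.orderEmbOfFin hS).injective hab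
  let P : Matrix (Fin n) (Fin n) K := Matrix.of fun i j => u (e j) i
  let Q : Matrix (Fin n) (Fin n) K := Matrix.of fun j i => v (e j) i
  have hPQ : ∀ d : Fin n → K, ∑ j, d j • vecMulVec (u (e j)) (v (e j)) = P * diagonal d * Q := by
    intro d
    ext a b
    rw [Matrix.sum_apply, Matrix.mul_apply]
    refine Finset.sum_congr rfl fun j _ => ?_
    rw [Matrix.smul_apply, vecMulVec_apply, Matrix.mul_diagonal, smul_eq_mul]
    show d j * (u (e j) a * v (e j) b) = u (e j) a * d j * v (e j) b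
    ring
  rw [hsumS fun i => t i • vecMulVec (u i) (v i), hPQ fun j => t (e j), det_mul, det_mul] at hdet
  have hP : IsUnit P.det := isUnit_iff_ne_zero.mpr
    (left_ne_zero_of_mul (left_ne_zero_of_mul hdet))
  have hQ : IsUnit Q.det := isUnit_iff_ne_zero.mpr (right_ne_zero_of_mul hdet)
  refine ⟨P, Q, fun k j => w k (e j),
    fun k => P⁻¹ * (∑ i ∈ Sᶜ, w k i • vecMulVec (u i) (v i)) * Q⁻¹, fun x => ?_, fun k => ?_⟩
  · have h1 : ∑ k, x k • (P⁻¹ * (∑ i ∈ Sᶜ, w k i • vecMulVec (u i) (v i)) * Q⁻¹) =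
        P⁻¹ * (∑ i ∈ Sᶜ, (∑ k, x k * w k i) • vecMulVec (u i) (v i)) * Q⁻¹ := by
      have h2 : ∑ i ∈ Sᶜ, (∑ k, x k * w k i) • vecMulVec (u i) (v i) =
          ∑ k, x k • ∑ i ∈ Sᶜ, w k i • vecMulVec (u i) (v i) := by
        simp only [Finset.sum_smul, Finset.smul_sum, smul_smul]
        exact Finset.sum_comm
      rw [h2, Finset.mul_sum, Finset.sum_mul]
      refine Finset.sum_congr rfl fun k _ => ?_
      rw [Matrix.mul_smul, Matrix.smul_mul]
    rw [h1]
    refine (Matrix.rank_mul_le_left _ _).trans ((Matrix.rank_mul_le_right _ _).trans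
      ((rank_sum_le u v _ _).trans ?_))
    rw [Finset.card_compl, Fintype.card_fin, hS]
    omega
  · rw [Matrix.mul_add, Matrix.add_mul, ← hPQ, ← hsumS fun i => w k i • vecMulVec (u i) (v i),
      ← Matrix.mul_assoc, ← Matrix.mul_assoc, Matrix.mul_nonsing_inv _ hP, Matrix.one_mul,
      Matrix.mul_assoc _ Q⁻¹ Q, Matrix.nonsing_inv_mul _ hQ, Matrix.mul_one]
    exact (Finset.sum_add_sum_compl S _).symm

end

end Pool.Agent.Lib.MP_64d474_lc
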