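import Mathlib

/-!
Two sufficient conditions for Witt index at most one: rank at most three, and semidefiniteness on
a hyperplane (i.e. at most one positive or at most one negative eigenvalue).
-/

open Matrix Module

namespace Pool.Agent.Lib.MP_64d474_lc

/-- Symmetric matrices of rank at most three have Witt index at most one. -/
theorem witt_of_rank_le_three {F : Type*} [Field F] {n : ℕ} (B : Matrix (Fin n) (Fin n) F)
    (hB : B.IsSymm) (hr : B.rank ≤ 3) (u v : Fin n → F)
    (huu : u ⬝ᵥ B *ᵥ u = 0) (huv : u ⬝ᵥ B *ᵥ v = 0) (hvv : v ⬝ᵥ B *ᵥ v = 0) :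
    ¬ LinearIndependent F ![B *ᵥ u, B *ᵥ v] := by
  classical
  intro hli
  have hsymm : ∀ p q : Fin n → F, p ⬝ᵥ B *ᵥ q = q ⬝ᵥ B *ᵥ p := by
    intro p q
    rw [Matrix.dotProduct_mulVec, ← Matrix.mulVec_transpose, hB.eq, dotProduct_comm]
  -- the map x ↦ (xᵀ B u, xᵀ B v)
  let g : (Fin n → F) →ₗ[F] (Fin 2 → F) := (Matrix.of ![B *ᵥ u, B *ᵥ v]).mulVecLin
  have hg : ∀ x, g x = ![x ⬝ᵥ B *ᵥ u, x ⬝ᵥ B *ᵥ v] := by
    intro x
    funext i
    fin_cases i
    · change (B *ᵥ u) ⬝ᵥ x = x ⬝ᵥ B *ᵥ u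
      exact dotProduct_comm _ _
    · change (B *ᵥ v) ⬝ᵥ x = x ⬝ᵥ B *ᵥ v
      exact dotProduct_comm _ _
  have hgr : finrank F (LinearMap.range g) = 2 := by
    have h1 : (Matrix.of ![B *ᵥ u, B *ᵥ v]).rank = 2 := by
      have := LinearIndependent.rank_matrix (M := Matrix.of ![B *ᵥ u, B *ᵥ v]) hli
      simpa using this
    exact h1
  have hgk : finrank F (LinearMap.ker g) + 2 = n := by
    have := LinearMap.finrank_range_add_finrank_ker g
    rw [hgr, Module.finrank_pi, Fintype.card_fin] at this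
    omega
  have hBk : finrank F (LinearMap.ker B.mulVecLin) + B.rank = n := by
    have h := LinearMap.finrank_range_add_finrank_ker B.mulVecLin
    rw [Module.finrank_pi, Fintype.card_fin] at h
    have h2 : B.rank = finrank F (LinearMap.range B.mulVecLin) := rfl
    omega
  -- u, v and ker B lie in ker g
  set S : Submodule F (Fin n → F) := Submodule.span F (Set.range ![u, v]) with hS
  have hSli : LinearIndependent F ![u, v] := by
    have h1 : LinearIndependent F (B.mulVecLin ∘ ![u, v]) := by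
      have : B.mulVecLin ∘ ![u, v] = ![B *ᵥ u, B *ᵥ v] := by
        funext i; fin_cases i <;> simp
      rw [this]; exact hli
    exact LinearIndependent.of_comp _ h1
  have hSdim : finrank F S = 2 := by
    rw [hS, finrank_span_eq_card hSli, Fintype.card_fin]
  have hSg : S ≤ LinearMap.ker g := by
    rw [hS, Submodule.span_le]
    rintro _ ⟨i, rfl⟩
    fin_cases i
    · simp only [SetLike.mem_coe, LinearMap.mem_ker, hg]
      simp [huu, huv]
    · simp only [SetLike.mem_coe, LinearMap.mem_ker, hg]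
      simp [hsymm v u, huv, hvv]
  have hKg : LinearMap.ker B.mulVecLin ≤ LinearMap.ker g := by
    intro x hx
    have hx' : B *ᵥ x = 0 := hx
    rw [LinearMap.mem_ker, hg, hsymm x u, hsymm x v, hx']
    simp
  have hdisj : S ⊓ LinearMap.ker B.mulVecLin = ⊥ := by
    rw [eq_bot_iff]
    rintro x ⟨hx1, hx2⟩
    rw [hS] at hx1
    have hx1' := (Submodule.mem_span_range_iff_exists_fun F).mp hx1
    obtain ⟨c, hc⟩ := hx1'
    have hx2' : B *ᵥ x = 0 := hx2
    have h3 : ∑ i, c i • (![B *ᵥ u, B *ᵥ v] i) = 0 := by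
      rw [← hx2', ← hc, Matrix.mulVec_sum]
      refine Finset.sum_congr rfl fun i _ => ?_
      rw [mulVec_smul]
      fin_cases i <;> simp
    have h4 := Fintype.linearIndependent_iff.mp hli c h3
    rw [Submodule.mem_bot, ← hc]
    exact Finset.sum_eq_zero fun i _ => by rw [h4 i, zero_smul]
  have h5 := Submodule.finrank_sup_add_finrank_inf_eq S (LinearMap.ker B.mulVecLin)
  rw [hdisj, finrank_bot, add_zero] at h5
  have h6 := Submodule.finrank_mono (sup_le hSg hKg)
  omega

/-- If the symmetric matrix `B` is negative semidefinite (or positive semidefinite, apply this to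
`-B`) on a hyperplane, it has Witt index at most one. -/
theorem witt_of_nonpos_on_hyperplane {F : Type*} [Field F] [LinearOrder F] [IsStrictOrderedRing F]
    {n : ℕ} (B : Matrix (Fin n) (Fin n) F) (hB : B.IsSymm) (φ : Fin n → F)
    (hφ : ∀ x : Fin n → F, φ ⬝ᵥ x = 0 → x ⬝ᵥ B *ᵥ x ≤ 0) (u v : Fin n → F)
    (huu : u ⬝ᵥ B *ᵥ u = 0) (huv : u ⬝ᵥ B *ᵥ v = 0) (hvv : v ⬝ᵥ B *ᵥ v = 0) :
    ¬ LinearIndependent F ![B *ᵥ u, B *ᵥ v] := by
  classical
  have hsymm : ∀ p q : Fin n → F, p ⬝ᵥ B *ᵥ q = q ⬝ᵥ B *ᵥ p := by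
    intro p q
    rw [Matrix.dotProduct_mulVec, ← Matrix.mulVec_transpose, hB.eq, dotProduct_comm]
  -- isotropic vectors of the hyperplane are orthogonal to the hyperplane
  have hrad : ∀ w : Fin n → F, φ ⬝ᵥ w = 0 → w ⬝ᵥ B *ᵥ w = 0 →
      ∀ h : Fin n → F, φ ⬝ᵥ h = 0 → w ⬝ᵥ B *ᵥ h = 0 := by
    intro w hw hww h hh
    by_contra hne
    set a := w ⬝ᵥ B *ᵥ h with ha
    set b := h ⬝ᵥ B *ᵥ h with hb
    have key : ∀ t : F, 2 * t * a + b ≤ 0 := by
      intro t
      have h1 : φ ⬝ᵥ (t • w + h) = 0 := by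
        rw [dotProduct_add, dotProduct_smul, hw, hh]; simp
      have h2 := hφ _ h1
      have h3 : (t • w + h) ⬝ᵥ B *ᵥ (t • w + h) = 2 * t * a + b := by
        rw [mulVec_add, mulVec_smul]
        simp only [add_dotProduct, smul_dotProduct, dotProduct_add, dotProduct_smul, smul_eq_mul]
        rw [hww, hsymm h w, ← ha, ← hb]
        ring
      rw [h3] at h2
      exact h2
    have h4 := key ((1 - b) / (2 * a))
    have h5 : 2 * ((1 - b) / (2 * a)) * a + b = 1 := by
      field_simp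
      ring
    rw [h5] at h4
    exact absurd h4 (not_le.mpr one_pos)
  -- hence B w is proportional to φ: it kills the hyperplane
  rw [LinearIndependent.pair_iff]
  push Not
  by_cases hφu : φ ⬝ᵥ u = 0
  · by_cases hφv : φ ⬝ᵥ v = 0
    · -- both in the hyperplane: B u and B v kill the hyperplane
      by_cases hφ0 : ∃ z : Fin n → F, φ ⬝ᵥ z ≠ 0
      · obtain ⟨z, hz⟩ := hφ0
        have hu : ∀ x : Fin n → F, (φ ⬝ᵥ z) * (x ⬝ᵥ B *ᵥ u) = (φ ⬝ᵥ x) * (z ⬝ᵥ B *ᵥ u) := by
          intro x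
          have h1 : φ ⬝ᵥ ((φ ⬝ᵥ z) • x - (φ ⬝ᵥ x) • z) = 0 := by
            rw [dotProduct_sub, dotProduct_smul, dotProduct_smul]; simp [mul_comm]
          have h2 := hrad u hφu huu _ h1
          rw [hsymm] at h2
          rw [sub_dotProduct, smul_dotProduct, smul_dotProduct, smul_eq_mul, smul_eq_mul] at h2
          linear_combination h2
        have hv : ∀ x : Fin n → F, (φ ⬝ᵥ z) * (x ⬝ᵥ B *ᵥ v) = (φ ⬝ᵥ x) * (z ⬝ᵥ B *ᵥ v) := by
          intro x
          have h1 : φ ⬝ᵥ ((φ ⬝ᵥ z) • x - (φ ⬝ᵥ x) • z) = 0 := by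
            rw [dotProduct_sub, dotProduct_smul, dotProduct_smul]; simp [mul_comm]
          have h2 := hrad v hφv hvv _ h1
          rw [hsymm] at h2
          rw [sub_dotProduct, smul_dotProduct, smul_dotProduct, smul_eq_mul, smul_eq_mul] at h2
          linear_combination h2
        by_cases hzu : z ⬝ᵥ B *ᵥ u = 0
        · refine ⟨1, 0, ?_, fun h => absurd h one_ne_zero⟩
          have : B *ᵥ u = 0 := by
            funext i
            have h1 := hu (Pi.single i 1)
            rw [hzu, mul_zero] at h1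
            have h2 := (mul_eq_zero.mp h1).resolve_left hz
            simpa using h2
          rw [this]; simp
        · refine ⟨z ⬝ᵥ B *ᵥ v, -(z ⬝ᵥ B *ᵥ u), ?_, fun _ => neg_ne_zero.mpr hzu⟩
          funext i
          have h1 := hu (Pi.single i 1)
          have h2 := hv (Pi.single i 1)
          simp only [single_dotProduct, one_mul] at h1 h2
          have h3 : (φ ⬝ᵥ z) * ((z ⬝ᵥ B *ᵥ v) * (B *ᵥ u) i + -(z ⬝ᵥ B *ᵥ u) * (B *ᵥ v) i) = 0 := by
            linear_combination (z ⬝ᵥ B *ᵥ v) * h1 - (z ⬝ᵥ B *ᵥ u) * h2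
          simpa using (mul_eq_zero.mp h3).resolve_left hz
      · -- φ = 0
        push Not at hφ0
        refine ⟨1, 0, ?_, fun h => absurd h one_ne_zero⟩
        have : B *ᵥ u = 0 := by
          funext i
          have h1 := hrad u hφu huu (Pi.single i 1) (hφ0 _)
          rw [hsymm] at h1
          simpa using h1
        rw [this]; simp
    · -- u in the hyperplane, v not
      have hu : ∀ x : Fin n → F, x ⬝ᵥ B *ᵥ u = 0 := by
        intro x
        have h1 : φ ⬝ᵥ ((φ ⬝ᵥ v) • x - (φ ⬝ᵥ x) • v) = 0 := by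
          rw [dotProduct_sub, dotProduct_smul, dotProduct_smul]; simp [mul_comm]
        have h2 := hrad u hφu huu _ h1
        rw [hsymm, sub_dotProduct, smul_dotProduct, smul_dotProduct, hsymm v u, huv] at h2
        simp only [smul_eq_mul, mul_zero, sub_zero] at h2
        exact (mul_eq_zero.mp h2).resolve_left hφv
      refine ⟨1, 0, ?_, fun h => absurd h one_ne_zero⟩
      have : B *ᵥ u = 0 := by
        funext i
        simpa using hu (Pi.single i 1)
      rw [this]; simp
  · -- w = φ(u) v - φ(v) u lies in the hyperplane and is orthogonal to u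
    set w : Fin n → F := (φ ⬝ᵥ u) • v - (φ ⬝ᵥ v) • u with hw
    have hφw : φ ⬝ᵥ w = 0 := by
      rw [hw, dotProduct_sub, dotProduct_smul, dotProduct_smul]; simp [mul_comm]
    have hBw : B *ᵥ w = (φ ⬝ᵥ u) • (B *ᵥ v) - (φ ⬝ᵥ v) • (B *ᵥ u) := by
      rw [hw, mulVec_sub, mulVec_smul, mulVec_smul]
    have huw : u ⬝ᵥ B *ᵥ w = 0 := by
      rw [hBw, dotProduct_sub, dotProduct_smul, dotProduct_smul, huv, huu]; simp
    have hvw : v ⬝ᵥ B *ᵥ w = 0 := by
      rw [hBw, dotProduct_sub, dotProduct_smul, dotProduct_smul, hsymm v u, huv, hvv]; simp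
    have hww : w ⬝ᵥ B *ᵥ w = 0 := by
      conv_lhs => rw [hw]
      rw [sub_dotProduct, smul_dotProduct, smul_dotProduct, hvw, huw]; simp
    have hx : ∀ x : Fin n → F, x ⬝ᵥ B *ᵥ w = 0 := by
      intro x
      have h1 : φ ⬝ᵥ ((φ ⬝ᵥ u) • x - (φ ⬝ᵥ x) • u) = 0 := by
        rw [dotProduct_sub, dotProduct_smul, dotProduct_smul]; simp [mul_comm]
      have h2 := hrad w hφw hww _ h1
      rw [hsymm, sub_dotProduct, smul_dotProduct, smul_dotProduct, huw] at h2
      simp only [smul_eq_mul, mul_zero, sub_zero] at h2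
      exact (mul_eq_zero.mp h2).resolve_left hφu
    refine ⟨-(φ ⬝ᵥ v), φ ⬝ᵥ u, ?_, fun _ => hφu⟩
    funext i
    have h3 := hx (Pi.single i 1)
    rw [hBw] at h3
    simp only [single_dotProduct, one_mul, Pi.sub_apply, Pi.smul_apply, smul_eq_mul] at h3
    simp only [Pi.add_apply, Pi.smul_apply, smul_eq_mul, Pi.zero_apply]
    linear_combination h3

end Pool.Agent.Lib.MP_64d474_lc
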